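import Pool.Agent.Helper638_Ros.Gap

/-!
# The good block (paper 1.9)
-/

set_option autoImplicit false

namespace Pool.Agent.Helper638.Ros

open Filter Function Set Topology

/-- the affine rescaling of `f` at `x₀` with scale `c` -/
noncomputable def resc (f : ℝ → ℝ) (x₀ c : ℝ) : ℝ → ℝ := fun Y => (f (x₀ + c * Y) - x₀) / c

/-- The hypotheses of the local theorem; `e` stands for `1 / K`. -/
structure LocHyp (R : ℕ) (C : ℝ) (e : ℝ) (w v : ℝ → ℝ) : Prop where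
  w_gap : ∀ Y ∈ Icc (0 : ℝ) 1, e / 2 ≤ w Y - Y ∧ w Y - Y ≤ 2 * e
  w_one : ∀ Y ∈ Icc (0 : ℝ) 1, |deriv w Y - 1| ≤ C * e ^ 2
  w_der : ∀ r, 2 ≤ r → r ≤ R → ∀ Y ∈ Icc (0 : ℝ) 1, |iteratedDeriv r w Y| ≤ C * e ^ 2
  v_gap : ∀ Y ∈ Icc (0 : ℝ) 1, 0 < v Y - Y ∧ v Y - Y ≤ 2 * e
  v_der : ∀ r, 1 ≤ r → r ≤ R → ∀ Y ∈ Icc (0 : ℝ) 1, |iteratedDeriv r v Y| ≤ C

theorem blk_K {δ : ℝ} (h0 : 0 < δ) (h1 : δ ≤ 1 / 2) :
    ∃ K : ℕ, 1 ≤ K ∧ (K : ℝ) ^ 16 * δ ≤ 1 ∧ 1 < ((K : ℝ) + 1) ^ 16 * δ := by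
  classical
  have hex : ∃ k : ℕ, 1 < ((k : ℝ) + 1) ^ 16 * δ := by
    obtain ⟨k, hk⟩ := exists_nat_gt (1 / δ)
    refine ⟨k, ?_⟩
    rw [div_lt_iff₀ h0] at hk
    have h2 : (1 : ℝ) ≤ (k : ℝ) + 1 := by have := Nat.cast_nonneg (α := ℝ) k; linarith
    have h3 : ((k : ℝ) + 1) ≤ ((k : ℝ) + 1) ^ 16 := le_self_pow₀ h2 (by norm_num)
    nlinarith
  have hs := Nat.find_spec hex
  have hm : ∀ m, m < Nat.find hex → ¬ 1 < ((m : ℝ) + 1) ^ 16 * δ := fun m hm => Nat.find_min hex hm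
  set K := Nat.find hex with hK
  have hK1 : 1 ≤ K := by
    by_contra hc
    have : K = 0 := by omega
    rw [this] at hs
    norm_num at hs
    linarith
  refine ⟨K, hK1, ?_, hs⟩
  have h4 := hm (K - 1) (by omega)
  have h5 : ((K - 1 : ℕ) : ℝ) + 1 = K := by
    rw [Nat.cast_sub hK1]; simp
  rw [h5] at h4
  exact not_lt.1 h4

theorem blk_large {S : Sys} (W : RSeq S) (K₀ : ℝ) : ∃ n₀ : ℕ, ∀ n, n₀ ≤ n → ∀ K : ℕ,
    1 < ((K : ℝ) + 1) ^ 16 * S.tau (W.w (n + 1)) → K₀ ≤ K := by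
  obtain ⟨n₀, hn₀⟩ := exists_nat_gt ((|K₀| + 1) ^ 16)
  refine ⟨n₀, fun n hn K hK => ?_⟩
  by_contra hc
  push Not at hc
  have h1 : (K : ℝ) + 1 ≤ |K₀| + 1 := by have := le_abs_self K₀; linarith
  have h2 : ((K : ℝ) + 1) ^ 16 ≤ (|K₀| + 1) ^ 16 := by gcongr
  have h3 := W.tau_le (n + 1)
  have h4 : ((n + 1 : ℕ) : ℝ) ≤ 2 ^ (n + 1) := by
    exact_mod_cast (Nat.lt_two_pow_self (n := n + 1)).le
  have h5 : ((K : ℝ) + 1) ^ 16 * S.tau (W.w (n + 1)) ≤ (n + 1 : ℕ) * (1 / 2) ^ (n + 1) := by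
    have h6 : ((K : ℝ) + 1) ^ 16 ≤ (n + 1 : ℕ) := by
      have : (n₀ : ℝ) ≤ (n + 1 : ℕ) := by exact_mod_cast (by omega)
      linarith
    exact mul_le_mul h6 h3 (W.pos _).le (by positivity)
  have h7 : ((n + 1 : ℕ) : ℝ) * (1 / 2) ^ (n + 1) ≤ 1 := by
    rw [one_div, inv_pow, ← div_eq_mul_inv, div_le_one (by positivity)]
    exact h4
  linarith

/-- pigeonhole among blocks -/
theorem blk_pigeon (F : ℝ → ℝ) (m : ℝ) (hF : Monotone F) (hF1 : ∀ x, F (x + 1) = F x + m)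
    (y : ℕ → ℝ) (J : ℕ) (hJ : 1 ≤ J) (hy : y J ≤ y 0 + 1) :
    ∃ j, j < J ∧ F (y (j + 1)) - F (y j) ≤ m / J := by
  by_contra hc
  push Not at hc
  have h1 : ∑ j ∈ Finset.range J, (F (y (j + 1)) - F (y j)) = F (y J) - F (y 0) :=
    Finset.sum_range_sub (fun j => F (y j)) J
  have h2 : ∑ j ∈ Finset.range J, (m / J : ℝ) < ∑ j ∈ Finset.range J, (F (y (j + 1)) - F (y j)) := by
    refine Finset.sum_lt_sum_of_nonempty ⟨0, Finset.mem_range.2 (by omega)⟩ ?_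
    intro j hj
    exact hc j (Finset.mem_range.1 hj)
  rw [h1, Finset.sum_const, Finset.card_range, nsmul_eq_mul] at h2
  have h3 : (J : ℝ) * (m / J) = m := by
    have : (J : ℝ) ≠ 0 := by exact_mod_cast (by omega)
    field_simp
  rw [h3] at h2
  have h4 : F (y J) ≤ F (y 0) + m := by rw [← hF1]; exact hF hy
  linarith

/-- numerical estimate for the number of prefixes -/
theorem blk_num {δ : ℝ} (h0 : 0 < δ) {K l₁ l₂ : ℕ} (hK : 2 ≤ K) (hKδ : (K : ℝ) ^ 16 * δ ≤ 1)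
    (h1 : (l₁ : ℝ) ^ 2 * δ ≤ 8) (h2 : (l₂ : ℝ) ^ 2 * δ ≤ 8) :
    ∃ J : ℕ, 1 ≤ J ∧ (J : ℝ) * ((K : ℝ) ^ 4 * δ) ≤ 1 ∧
      ((l₁ + 1 : ℕ) + (l₂ + 1 : ℕ) : ℝ) / J ≤ 16 / (K : ℝ) ^ 4 := by
  have hK' : (2 : ℝ) ≤ K := by exact_mod_cast hK
  have hK0 : (0 : ℝ) < K := by linarith
  set t : ℝ := (K : ℝ) ^ 4 * δ with ht
  have ht0 : 0 < t := by positivity
  have hK12 : (2 : ℝ) ≤ (K : ℝ) ^ 12 := by
    calc (2 : ℝ) ≤ K := hK'
      _ ≤ (K : ℝ) ^ 12 := le_self_pow₀ (by linarith) (by norm_num)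
  have ht1 : t ≤ 1 / 2 := by
    have e : (K : ℝ) ^ 16 * δ = (K : ℝ) ^ 12 * t := by rw [ht]; ring
    rw [e] at hKδ
    nlinarith
  have hKpos16 : (1 : ℝ) ≤ (K : ℝ) ^ 16 := one_le_pow₀ (by linarith)
  have hδ1 : δ ≤ 1 := by nlinarith
  refine ⟨⌊1 / t⌋₊, ?_, ?_, ?_⟩
  · refine Nat.le_floor ?_
    rw [Nat.cast_one, le_div_iff₀ ht0]; linarith
  · have := Nat.floor_le (a := 1 / t) (by positivity)
    calc (⌊1 / t⌋₊ : ℝ) * t ≤ 1 / t * t := by gcongr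
      _ = 1 := by field_simp
  · have hJ : 1 / (2 * t) ≤ (⌊1 / t⌋₊ : ℝ) := by
      have h3 := Nat.lt_floor_add_one (1 / t)
      have h4 : 1 ≤ 1 / (2 * t) := by
        rw [le_div_iff₀ (by positivity)]; linarith
      have h5 : 1 / t = 1 / (2 * t) + 1 / (2 * t) := by field_simp; norm_num
      linarith
    have hJ0 : (0 : ℝ) < (⌊1 / t⌋₊ : ℝ) := lt_of_lt_of_le (by positivity) hJ
    rw [div_le_div_iff₀ hJ0 (by positivity)]
    set u : ℝ := (K : ℝ) ^ 8 * δ with hu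
    have hu0 : 0 < u := by positivity
    have hu2 : u ^ 2 ≤ δ := by
      have : u ^ 2 = ((K : ℝ) ^ 16 * δ) * δ := by rw [hu]; ring
      rw [this]; nlinarith
    have a1 : (l₁ : ℝ) * u ≤ 3 := by
      have : ((l₁ : ℝ) * u) ^ 2 ≤ 3 ^ 2 := by
        calc ((l₁ : ℝ) * u) ^ 2 = (l₁ : ℝ) ^ 2 * u ^ 2 := by ring
          _ ≤ (l₁ : ℝ) ^ 2 * δ := by gcongr
          _ ≤ 8 := h1
          _ ≤ 3 ^ 2 := by norm_num
      exact le_of_sq_le_sq this (by norm_num)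
    have a2 : (l₂ : ℝ) * u ≤ 3 := by
      have : ((l₂ : ℝ) * u) ^ 2 ≤ 3 ^ 2 := by
        calc ((l₂ : ℝ) * u) ^ 2 = (l₂ : ℝ) ^ 2 * u ^ 2 := by ring
          _ ≤ (l₂ : ℝ) ^ 2 * δ := by gcongr
          _ ≤ 8 := h2
          _ ≤ 3 ^ 2 := by norm_num
      exact le_of_sq_le_sq this (by norm_num)
    have a3 : u ≤ 1 := by
      have : u ^ 2 ≤ 1 ^ 2 := by linarith
      exact le_of_sq_le_sq this (by norm_num)
    have a4 : ((l₁ + 1 : ℕ) + (l₂ + 1 : ℕ) : ℝ) * u ≤ 8 := by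
      push_cast; nlinarith
    have a5 : ((l₁ + 1 : ℕ) + (l₂ + 1 : ℕ) : ℝ) * (K : ℝ) ^ 4 ≤ 16 * (1 / (2 * t)) := by
      rw [mul_one_div, le_div_iff₀ (by positivity)]
      have : ((l₁ + 1 : ℕ) + (l₂ + 1 : ℕ) : ℝ) * (K : ℝ) ^ 4 * (2 * t) =
          2 * (((l₁ + 1 : ℕ) + (l₂ + 1 : ℕ) : ℝ) * u) := by
        rw [ht, hu]; ring
      rw [this]; linarith
    linarith

theorem blk_select {S : Sys} (W : RSeq S) (n K : ℕ) (hK : 2 ≤ K)
    (hKδ : (K : ℝ) ^ 16 * S.tau (W.w (n + 1)) ≤ 1) (q₁ q₂ : ℕ → ℤ × ℤ × ℤ) : ∃ x₀ : ℝ,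
    ∑ a ∈ Finset.range (len (W.w (n + 1)) + 1),
        (S.A (q₁ a) (S.A ((K ^ 4) • W.w (n + 1)) x₀) - S.A (q₁ a) x₀) +
      ∑ a ∈ Finset.range (len (W.w (n + 2)) + 1),
        (S.A (q₂ a) (S.A ((K ^ 4) • W.w (n + 1)) x₀) - S.A (q₂ a) x₀) ≤ 16 / (K : ℝ) ^ 4 := by
  have hδ := W.pos (n + 1)
  have h1 : (len (W.w (n + 1)) : ℝ) ^ 2 * S.tau (W.w (n + 1)) ≤ 8 := by
    refine le_trans ?_ (W.len_bd n)
    have := W.half n
    gcongr
    linarith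
  obtain ⟨J, hJ1, hJ2, hJ3⟩ := blk_num hδ hK hKδ h1 (W.len_bd (n + 1))
  set w := W.w (n + 1) with hw
  let F : ℝ → ℝ := fun x => ∑ a ∈ Finset.range (len w + 1), S.A (q₁ a) x +
    ∑ a ∈ Finset.range (len (W.w (n + 2)) + 1), S.A (q₂ a) x
  have hF : Monotone F := by
    intro x y hxy
    refine add_le_add (Finset.sum_le_sum fun a _ => ?_) (Finset.sum_le_sum fun a _ => ?_)
    · exact (D.strictMono _).monotone hxy
    · exact (D.strictMono _).monotone hxy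
  have hF1 : ∀ x, F (x + 1) = F x + ((len w + 1 : ℕ) + (len (W.w (n + 2)) + 1 : ℕ) : ℝ) := by
    intro x
    simp only [F, D.add_one, Finset.sum_add_distrib, Finset.sum_const, Finset.card_range,
      nsmul_eq_mul, mul_one]
    ring
  obtain ⟨j, hj, hj2⟩ := blk_pigeon F _ hF hF1 (fun j => S.A ((j * K ^ 4) • w) 0) J hJ1 (by
    have h2 : S.tau ((J * K ^ 4) • w) ≤ S.tau (0, 0, 1) := by
      rw [S.tau_nsmul, S.tau_T]
      push_cast
      calc (J : ℝ) * (K : ℝ) ^ 4 * S.tau w = (J : ℝ) * ((K : ℝ) ^ 4 * S.tau w) := by ring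
        _ ≤ 1 := hJ2
    have h3 := S.le _ _ h2 0
    rw [S.A_T, T_apply] at h3
    have h4 : S.A ((0 * K ^ 4) • w) (0 : ℝ) = 0 := by
      rw [zero_mul, zero_smul, S.A_zero]; rfl
    show S.A ((J * K ^ 4) • w) 0 ≤ S.A ((0 * K ^ 4) • w) (0 : ℝ) + 1
    rw [h4]
    linarith)
  refine ⟨S.A ((j * K ^ 4) • w) 0, ?_⟩
  have h5 : S.A ((K ^ 4) • w) (S.A ((j * K ^ 4) • w) 0) = S.A (((j + 1) * K ^ 4) • w) 0 := by
    rw [← S.A_apply_add, ← add_smul]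
    congr 2
    congr 1
    ring
  rw [h5]
  refine le_trans (le_of_eq ?_) (hj2.trans hJ3)
  simp only [F, Finset.sum_sub_distrib]
  ring

/-- oscillation of the logarithmic derivative -/
theorem blk_osc {S : Sys} {M : ℕ → ℝ} (hM : S.IsL M) {q : ℕ → ℤ × ℤ × ℤ} {m : ℕ}
    (hq : IsPath q m) {x₀ x₁ s : ℝ}
    (hs : ∑ a ∈ Finset.range (m + 1), (S.A (q a) x₁ - S.A (q a) x₀) ≤ s) {x y : ℝ}
    (hx : x ∈ Icc x₀ x₁) (hy : y ∈ Icc x₀ x₁) :
    |Real.log (deriv (S.A (q m)) x) - Real.log (deriv (S.A (q m)) y)| ≤ M 1 * s := by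
  refine (Sys.dist1 hM hq x y).trans (mul_le_mul_of_nonneg_left ?_ (hM.1 1))
  refine le_trans ?_ hs
  have h01 : x₀ ≤ x₁ := hx.1.trans hx.2
  rw [Finset.sum_range_succ]
  have hmono : ∀ a, Monotone (S.A (q a)) := fun a => (D.strictMono _).monotone
  have h1 : ∑ a ∈ Finset.range m, |S.A (q a) x - S.A (q a) y| ≤
      ∑ a ∈ Finset.range m, (S.A (q a) x₁ - S.A (q a) x₀) := by
    refine Finset.sum_le_sum fun a _ => ?_
    rw [abs_le]
    have a1 := hmono a hx.1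
    have a2 := hmono a hx.2
    have a3 := hmono a hy.1
    have a4 := hmono a hy.2
    constructor <;> linarith
  have h2 : 0 ≤ S.A (q m) x₁ - S.A (q m) x₀ := sub_nonneg.2 (hmono m h01)
  linarith

/-- the logarithmic derivative is small on the good block -/
theorem blk_kappa (f : D) (x₀ κ θ : ℝ) (N : ℕ) (lo : ℝ) (hlo : 0 < lo)
    (hgap : ∀ x, lo ≤ f x - x ∧ f x - x ≤ 1)
    (hθ : ∀ x ∈ Icc x₀ ((f ^ N) x₀), |Real.log (deriv f x) - κ| ≤ θ) :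
    N * |κ| ≤ Real.log (1 / lo) + N * θ := by
  have hz : ∀ i, (f ^ i) x₀ ≤ (f ^ (i + 1)) x₀ := by
    intro i
    rw [pow_succ', D.mul_apply]
    have := (hgap ((f ^ i) x₀)).1
    linarith
  have hzm : Monotone fun i => (f ^ i) x₀ := monotone_nat_of_le_succ hz
  have hpos : ∀ x, 0 < f x - x := fun x => hlo.trans_le (hgap x).1
  have key : ∀ i, i ≤ N → |Real.log (f ((f ^ i) x₀) - (f ^ i) x₀) - Real.log (f x₀ - x₀) - i * κ| ≤
      i * θ := by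
    intro i
    induction i with
    | zero => intro _; simp
    | succ i ih =>
      intro hi
      have h1 := ih (by omega)
      set z := (f ^ i) x₀ with hzd
      have hz1 : (f ^ (i + 1)) x₀ = f z := by rw [pow_succ', D.mul_apply]
      rw [hz1]
      have hlt : z < f z := by have := hpos z; linarith
      obtain ⟨ξ, hξ, hξ2⟩ := exists_deriv_eq_slope f hlt (D.continuous f).continuousOn
        (D.differentiable f).differentiableOn
      have hξI : ξ ∈ Icc x₀ ((f ^ N) x₀) := by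
        constructor
        · have := hzm (Nat.zero_le i)
          simp only [pow_zero, D.one_apply] at this
          exact this.trans hξ.1.le
        · have := hzm hi
          simp only [hz1] at this
          exact hξ.2.le.trans this
      have h2 := hθ ξ hξI
      have h3 : f (f z) - f z = deriv f ξ * (f z - z) := by
        rw [hξ2]; field_simp [(hpos z).ne']
      have h4 : Real.log (f (f z) - f z) = Real.log (deriv f ξ) + Real.log (f z - z) := by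
        rw [h3, Real.log_mul (D.pos f ξ).ne' (hpos z).ne']
      rw [h4]
      push_cast
      have e : Real.log (deriv f ξ) + Real.log (f z - z) - Real.log (f x₀ - x₀) - ((i : ℝ) + 1) * κ
          = (Real.log (deriv f ξ) - κ) +
            (Real.log (f z - z) - Real.log (f x₀ - x₀) - i * κ) := by ring
      rw [e]
      refine (abs_add_le _ _).trans ?_
      linarith
  have hl : ∀ x, -Real.log (1 / lo) ≤ Real.log (f x - x) ∧ Real.log (f x - x) ≤ 0 := by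
    intro x
    constructor
    · rw [one_div, Real.log_inv, neg_neg]
      exact Real.log_le_log hlo (hgap x).1
    · exact Real.log_nonpos (hpos x).le (hgap x).2
  have h5 := key N le_rfl
  have h6 := hl ((f ^ N) x₀)
  have h7 := hl x₀
  have h8 : |(N : ℝ) * κ| ≤ Real.log (1 / lo) + N * θ := by
    rw [abs_le] at h5 ⊢
    constructor <;> linarith [h5.1, h5.2, h6.1, h6.2, h7.1, h7.2]
  rwa [abs_mul, Nat.abs_cast] at h8

/-- gaps are almost constant if the derivative is close to `1` -/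
theorem blk_gap (f : D) (x₀ ρ : ℝ) (K : ℕ) (hpos : ∀ x, 0 < f x - x)
    (hρ : ∀ x ∈ Icc x₀ ((f ^ K) x₀), |deriv f x - 1| ≤ ρ) {y : ℝ}
    (hy : y ∈ Icc x₀ ((f ^ K) x₀)) :
    |(K : ℝ) * (f y - y) - ((f ^ K) x₀ - x₀)| ≤ K * (ρ * ((f ^ K) x₀ - x₀)) := by
  have hz : ∀ i, (f ^ i) x₀ ≤ (f ^ (i + 1)) x₀ := by
    intro i
    rw [pow_succ', D.mul_apply]
    have := hpos ((f ^ i) x₀)
    linarith
  have hzm : Monotone fun i => (f ^ i) x₀ := monotone_nat_of_le_succ hz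
  have h0 : x₀ ≤ (f ^ K) x₀ := by
    have := hzm (Nat.zero_le K)
    simpa using this
  have hρ0 : 0 ≤ ρ := (abs_nonneg _).trans (hρ x₀ ⟨le_rfl, h0⟩)
  have hdiff : ∀ a ∈ Icc x₀ ((f ^ K) x₀), ∀ b ∈ Icc x₀ ((f ^ K) x₀),
      |(f a - a) - (f b - b)| ≤ ρ * ((f ^ K) x₀ - x₀) := by
    intro a ha b hb
    have hd : ∀ x ∈ Icc x₀ ((f ^ K) x₀), HasDerivWithinAt (fun t => f t - t) (deriv f x - 1)
        (Icc x₀ ((f ^ K) x₀)) x := by
      intro x _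
      exact ((D.differentiable f x).hasDerivAt.sub (hasDerivAt_id x)).hasDerivWithinAt
    have := (convex_Icc x₀ ((f ^ K) x₀)).norm_image_sub_le_of_norm_hasDerivWithin_le hd
      (fun x hx => by rw [Real.norm_eq_abs]; exact hρ x hx) hb ha
    rw [Real.norm_eq_abs, Real.norm_eq_abs] at this
    refine this.trans (mul_le_mul_of_nonneg_left ?_ hρ0)
    rw [abs_le]
    constructor <;> linarith [ha.1, ha.2, hb.1, hb.2]
  have hsum : ∑ i ∈ Finset.range K, (f ((f ^ i) x₀) - (f ^ i) x₀) = (f ^ K) x₀ - x₀ := by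
    have := Finset.sum_range_sub (fun i => (f ^ i) x₀) K
    simp only [pow_zero, D.one_apply] at this
    rw [← this]
    refine Finset.sum_congr rfl fun i _ => ?_
    rw [pow_succ', D.mul_apply]
  have h1 : (K : ℝ) * (f y - y) - ((f ^ K) x₀ - x₀) =
      ∑ i ∈ Finset.range K, ((f y - y) - (f ((f ^ i) x₀) - (f ^ i) x₀)) := by
    rw [Finset.sum_sub_distrib, hsum]; simp; ring
  rw [h1]
  refine (Finset.abs_sum_le_sum_abs _ _).trans ?_
  calc ∑ i ∈ Finset.range K, |(f y - y) - (f ((f ^ i) x₀) - (f ^ i) x₀)|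
      ≤ ∑ i ∈ Finset.range K, ρ * ((f ^ K) x₀ - x₀) := by
        refine Finset.sum_le_sum fun i hi => hdiff y hy _ ⟨?_, ?_⟩
        · have := hzm (Nat.zero_le i)
          simpa using this
        · exact hzm (Finset.mem_range.1 hi).le
    _ = K * (ρ * ((f ^ K) x₀ - x₀)) := by simp

theorem blk_logsmooth (f : D) : Smooth (fun y => Real.log (deriv f y)) := by
  have h : Smooth (deriv f) := (contDiff_infty_iff_deriv.1 (D.smooth f)).2
  exact h.log (fun x => (D.pos f x).ne')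

theorem blk_resc_deriv (f : D) (x₀ : ℝ) {c : ℝ} (hc : 0 < c) :
    deriv (resc f x₀ c) = fun Y => deriv f (x₀ + c * Y) := by
  funext Y
  have h1 : HasDerivAt (fun Y : ℝ => x₀ + c * Y) c Y := by
    simpa using ((hasDerivAt_id Y).const_mul c).const_add x₀
  have h2 : HasDerivAt (fun Y : ℝ => f (x₀ + c * Y)) (deriv f (x₀ + c * Y) * c) Y :=
    (D.differentiable f (x₀ + c * Y)).hasDerivAt.comp Y h1
  have h3 := (h2.sub_const x₀).div_const c
  have h4 : deriv f (x₀ + c * Y) * c / c = deriv f (x₀ + c * Y) := by field_simp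
  rw [h4] at h3
  exact h3.deriv

/-- distortion constants up to order `R` -/
theorem blk_dist_all {S : Sys} {M : ℕ → ℝ} (hM : S.IsL M) (R : ℕ) : ∃ B : ℝ, 1 ≤ B ∧
    ∀ (q : ℕ → ℤ × ℤ × ℤ) (m : ℕ), IsPath q m → ∀ (x₀ x₁ s : ℝ), x₀ < x₁ → s ≤ 1 →
    ∑ a ∈ Finset.range (m + 1), (S.A (q a) x₁ - S.A (q a) x₀) ≤ s → ∀ x ∈ Icc x₀ x₁,
    ∀ j, 1 ≤ j → j ≤ R →
    (x₁ - x₀) ^ j * |iteratedDeriv j (fun y => Real.log (deriv (S.A (q m)) y)) x| ≤ B * s := by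
  induction R with
  | zero => exact ⟨1, le_rfl, fun q m _ x₀ x₁ s _ _ _ x _ j h1 h2 => absurd (h1.trans h2) (by omega)⟩
  | succ R ih =>
    obtain ⟨B, hB, hB2⟩ := ih
    obtain ⟨C, e, hC, hCe⟩ := Sys.distr hM (R + 1) (by omega)
    refine ⟨max B (C * (Real.exp (M 1) * 2) ^ e), le_max_of_le_left hB, ?_⟩
    intro q m hq x₀ x₁ s hx hs1 hs x hxI j hj1 hj2
    have hs0 : 0 ≤ s := by
      refine le_trans (Finset.sum_nonneg fun a _ => ?_) hs
      exact sub_nonneg.2 ((D.strictMono _).monotone hx.le)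
    rcases Nat.lt_or_ge j (R + 1) with h | h
    · refine (hB2 q m hq x₀ x₁ s hx hs1 hs x hxI j hj1 (by omega)).trans ?_
      gcongr
      exact le_max_left _ _
    · have hj : j = R + 1 := by omega
      subst hj
      refine (hCe q m hq x₀ x₁ s hx hs x hxI m le_rfl).trans ?_
      have h1 : (Real.exp (M 1 * s) * (1 + s)) ^ e ≤ (Real.exp (M 1) * 2) ^ e := by
        have : M 1 * s ≤ M 1 := mul_le_of_le_one_right (hM.1 1) hs1
        gcongr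
        linarith
      calc C * s * (Real.exp (M 1 * s) * (1 + s)) ^ e
          ≤ C * s * (Real.exp (M 1) * 2) ^ e := by gcongr
        _ = C * (Real.exp (M 1) * 2) ^ e * s := by ring
        _ ≤ _ := by
          gcongr
          exact le_max_right _ _

/-- higher derivatives of the rescaled maps -/
theorem blk_der {S : Sys} {M : ℕ → ℝ} (hM : S.IsL M) (R : ℕ) : ∃ B : ℝ, 0 ≤ B ∧
    ∀ (q : ℕ → ℤ × ℤ × ℤ) (m : ℕ), IsPath q m → ∀ (x₀ c s Λ : ℝ), 0 < c → s ≤ 1 →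
    (∀ x, deriv (S.A (q m)) x ≤ Λ) →
    ∑ a ∈ Finset.range (m + 1), (S.A (q a) (x₀ + c) - S.A (q a) x₀) ≤ s → ∀ Y ∈ Icc (0 : ℝ) 1,
    ∀ j, 2 ≤ j → j ≤ R → |iteratedDeriv j (resc (S.A (q m)) x₀ c) Y| ≤ B * Λ * s := by
  obtain ⟨B, hB, hB2⟩ := blk_dist_all hM R
  refine ⟨R.factorial * B ^ R, by positivity, ?_⟩
  intro q m hq x₀ c s Λ hc hs1 hΛ hs Y hY j hj1 hj2
  have hs0 : 0 ≤ s := by
    refine le_trans (Finset.sum_nonneg fun a _ => ?_) hs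
    exact sub_nonneg.2 ((D.strictMono _).monotone (by linarith))
  obtain ⟨n, rfl⟩ : ∃ n, j = n + 1 := ⟨j - 1, by omega⟩
  rw [iteratedDeriv_succ', blk_resc_deriv _ _ hc]
  set f := S.A (q m) with hf
  have hexp : (fun Y => deriv f (x₀ + c * Y)) =
      fun Y => Real.exp ((fun Z => Real.log (deriv f (x₀ + c * Z))) Y) := by
    funext Z
    exact (Real.exp_log (D.pos f _)).symm
  rw [hexp]
  have hls := blk_logsmooth f
  have hlin : Smooth (fun Z : ℝ => x₀ + c * Z) := contDiff_const.add (contDiff_const.mul contDiff_id)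
  have hl : Smooth (fun Z => Real.log (deriv f (x₀ + c * Z))) := hls.comp hlin
  have hit : ∀ i : ℕ, iteratedDeriv i (fun Z => Real.log (deriv f (x₀ + c * Z))) Y =
      c ^ i * iteratedDeriv i (fun y => Real.log (deriv f y)) (x₀ + c * Y) := by
    intro i
    have h1 := iteratedDeriv_comp_const_mul (n := i)
      (f := fun z => Real.log (deriv f (x₀ + z)))
      ((hls.comp (contDiff_const.add contDiff_id)).of_le (by exact_mod_cast le_top)) c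
    have h2 := iteratedDeriv_comp_const_add i (fun y => Real.log (deriv f y)) x₀
    have h3 := congrFun h1 Y
    rw [h2] at h3
    exact h3
  have hbd := exp_bd_lin (l := fun Z => Real.log (deriv f (x₀ + c * Z))) (x := Y)
    hl.contDiffAt (n := n) (by omega) (W := B) (s := s) (by linarith) hs0 hs1 (by
      intro i hi1 hi2
      rw [hit, abs_mul, abs_of_nonneg (by positivity)]
      have h4 := hB2 q m hq x₀ (x₀ + c) s (by linarith) hs1 hs (x₀ + c * Y)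
        ⟨by nlinarith [hY.1], by nlinarith [hY.2]⟩ i hi1 (by omega)
      rw [add_sub_cancel_left] at h4
      refine h4.trans ?_
      have h5 : B ≤ B ^ i := le_self_pow₀ hB (by omega)
      nlinarith)
  refine hbd.trans ?_
  have h6 : Real.exp (Real.log (deriv f (x₀ + c * Y))) ≤ Λ := by
    rw [Real.exp_log (D.pos f _)]; exact hΛ _
  have h7 : (n.factorial : ℝ) ≤ R.factorial := by
    exact_mod_cast Nat.factorial_le (by omega)
  have h8 : B ^ n ≤ B ^ R := pow_le_pow_right₀ hB (by omega)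
  have hΛ0 : 0 ≤ Λ := (D.pos f 0).le.trans (hΛ 0)
  calc (n.factorial : ℝ) * Real.exp (Real.log (deriv f (x₀ + c * Y))) * (s * B ^ n)
      ≤ R.factorial * Λ * (s * B ^ R) := by gcongr
    _ = R.factorial * B ^ R * Λ * s := by ring

theorem blk_resc_sub (f : ℝ → ℝ) (x₀ Y : ℝ) {c : ℝ} (hc : 0 < c) :
    resc f x₀ c Y - Y = (f (x₀ + c * Y) - (x₀ + c * Y)) / c := by
  unfold resc
  field_simp
  ring

theorem blk_log {δ : ℝ} (h0 : 0 < δ) (C₁ K : ℕ) (hK : 1 < ((K : ℝ) + 1) ^ 16 * δ) :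
    Real.log (1 / δ ^ C₁) ≤ 16 * C₁ * K := by
  have h1 : Real.log (1 / δ ^ C₁) = C₁ * Real.log (1 / δ) := by
    rw [one_div, Real.log_inv, Real.log_pow, one_div, Real.log_inv]; ring
  have hK0 : (0 : ℝ) < (K : ℝ) + 1 := by positivity
  have h2 : Real.log (1 / δ) ≤ 16 * Real.log ((K : ℝ) + 1) := by
    have : Real.log (((K : ℝ) + 1) ^ 16) = 16 * Real.log ((K : ℝ) + 1) := by
      rw [Real.log_pow]; norm_num
    rw [← this]
    refine Real.log_le_log (by positivity) ?_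
    rw [div_le_iff₀ h0]; exact hK.le
  have h3 : Real.log ((K : ℝ) + 1) ≤ K := by
    have := Real.log_le_sub_one_of_pos hK0
    linarith
  rw [h1]
  calc (C₁ : ℝ) * Real.log (1 / δ) ≤ C₁ * (16 * K) := by
        gcongr
        linarith
    _ = 16 * C₁ * K := by ring

theorem block {S : Sys} (W : RSeq S) {C₁ : ℕ}
    (hC₁ : ∀ k x, (S.tau (W.w k)) ^ C₁ ≤ S.A (W.w k) x - x) (R : ℕ) :
    ∃ (C : ℝ) (n₀ : ℕ), 0 ≤ C ∧ ∀ n, n₀ ≤ n → ∃ (K : ℕ) (x₀ c : ℝ), 1 ≤ K ∧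
      (K : ℝ) ^ 16 * S.tau (W.w (n + 1)) ≤ 1 ∧ 1 < ((K : ℝ) + 1) ^ 16 * S.tau (W.w (n + 1)) ∧
      0 < c ∧ c ≤ 1 ∧ (S.tau (W.w (n + 1))) ^ C₁ ≤ c ∧
      LocHyp R C (1 / K) (resc (S.A (W.w (n + 1))) x₀ c) (resc (S.A (W.w (n + 2))) x₀ c) := by
  obtain ⟨M, hM⟩ := S.exists_isL
  obtain ⟨Λ, hΛ1, hΛ⟩ := unif W
  obtain ⟨B, hB0, hB⟩ := blk_der hM R
  have hM1 : 0 ≤ M 1 := hM.1 1
  obtain ⟨C₂, hC₂⟩ : ∃ C₂ : ℝ, C₂ = 16 * C₁ + 32 * M 1 := ⟨_, rfl⟩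
  have hC₂0 : 0 ≤ C₂ := by rw [hC₂]; positivity
  obtain ⟨n₀, hn₀⟩ := blk_large W (2 + 4 * C₂)
  have hΛ0 : 0 ≤ Λ := by linarith
  have hBΛ : 0 ≤ B * Λ := mul_nonneg hB0 hΛ0
  refine ⟨2 * C₂ + 16 * (B * Λ) + Λ, n₀, by positivity, fun n hn => ?_⟩
  have hδ := W.pos (n + 1)
  have hδ2 : S.tau (W.w (n + 1)) ≤ 1 / 2 := by
    refine (W.tau_le (n + 1)).trans ?_
    rw [pow_succ]
    have : (1 / 2 : ℝ) ^ n ≤ 1 := pow_le_one₀ (by norm_num) (by norm_num)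
    linarith
  obtain ⟨K, hK1, hK16, hK17⟩ := blk_K hδ hδ2
  have hKbig := hn₀ n hn K hK17
  have hK2' : (2 : ℝ) ≤ K := by linarith
  have hK2 : 2 ≤ K := by exact_mod_cast hK2'
  have hK0 : (0 : ℝ) < K := by linarith
  obtain ⟨q₁, hq₁, hq₁e, -⟩ := exists_path W n 1 (Or.inl rfl)
  obtain ⟨q₂, hq₂, hq₂e, -⟩ := exists_path W (n + 1) 1 (Or.inl rfl)
  rw [one_smul] at hq₁e hq₂e
  obtain ⟨x₀, hx₀⟩ := blk_select W n K hK2 hK16 q₁ q₂
  have hlog := blk_log hδ C₁ K hK17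
  set w := W.w (n + 1) with hw
  set w' := W.w (n + 2) with hw'
  set f := S.A w with hf
  set g := S.A w' with hg
  rw [S.A_nsmul, ← hf] at hx₀
  obtain ⟨σ, hσ⟩ : ∃ σ : ℝ, σ = 16 / (K : ℝ) ^ 4 := ⟨_, rfl⟩
  rw [← hσ] at hx₀
  have hK4 : (16 : ℝ) ≤ (K : ℝ) ^ 4 := by
    calc (16 : ℝ) = 2 ^ 4 := by norm_num
      _ ≤ (K : ℝ) ^ 4 := by gcongr
  have hσ1 : σ ≤ 1 := by rw [hσ, div_le_one (by positivity)]; exact hK4
  have hσ0 : 0 ≤ σ := by rw [hσ]; positivity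
  have hfpos : ∀ x, 0 < f x - x := fun x => sub_pos.2 (S.self_lt w hδ x)
  have hz : ∀ i, (f ^ i) x₀ ≤ (f ^ (i + 1)) x₀ := by
    intro i
    rw [pow_succ', D.mul_apply]
    have := hfpos ((f ^ i) x₀)
    linarith
  have hzm : Monotone fun i => (f ^ i) x₀ := monotone_nat_of_le_succ hz
  have hKK4 : K ≤ K ^ 4 := Nat.le_self_pow (by norm_num) K
  have hx0K : x₀ ≤ (f ^ K) x₀ := by simpa using hzm (Nat.zero_le K)
  have hKK : (f ^ K) x₀ ≤ (f ^ (K ^ 4)) x₀ := hzm hKK4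
  have hsummono : ∀ (q : ℕ → ℤ × ℤ × ℤ) (m : ℕ) (a b : ℝ), a ≤ b →
      ∑ i ∈ Finset.range m, (S.A (q i) a - S.A (q i) x₀) ≤
        ∑ i ∈ Finset.range m, (S.A (q i) b - S.A (q i) x₀) := by
    intro q m a b hab
    refine Finset.sum_le_sum fun i _ => ?_
    have := (D.strictMono (S.A (q i))).monotone hab
    linarith
  have hsumnn : ∀ (q : ℕ → ℤ × ℤ × ℤ) (m : ℕ) (a : ℝ), x₀ ≤ a →
      0 ≤ ∑ i ∈ Finset.range m, (S.A (q i) a - S.A (q i) x₀) := by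
    intro q m a hab
    refine Finset.sum_nonneg fun i _ => ?_
    have := (D.strictMono (S.A (q i))).monotone hab
    linarith
  have hx0K4 : x₀ ≤ (f ^ (K ^ 4)) x₀ := hx0K.trans hKK
  have hs1 : ∑ a ∈ Finset.range (len w + 1), (S.A (q₁ a) ((f ^ (K ^ 4)) x₀) - S.A (q₁ a) x₀) ≤ σ := by
    have := hsumnn q₂ (len w' + 1) _ hx0K4
    linarith
  have hs2 : ∑ a ∈ Finset.range (len w' + 1),
      (S.A (q₂ a) ((f ^ (K ^ 4)) x₀) - S.A (q₂ a) x₀) ≤ σ := by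
    have := hsumnn q₁ (len w + 1) _ hx0K4
    linarith
  -- the derivative on the big block
  have hosc : ∀ x ∈ Icc x₀ ((f ^ (K ^ 4)) x₀),
      |Real.log (deriv f x) - Real.log (deriv f x₀)| ≤ M 1 * σ := by
    intro x hx
    have := blk_osc hM hq₁ hs1 hx ⟨le_rfl, hx0K4⟩
    rw [hq₁e] at this
    exact this
  have hgap1 : ∀ x, S.tau w ^ C₁ ≤ f x - x ∧ f x - x ≤ 1 := by
    intro x
    refine ⟨hC₁ (n + 1) x, ?_⟩
    have h1 : S.tau w ≤ S.tau (0, 0, 1) := by rw [S.tau_T]; linarith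
    have h2 := S.le _ _ h1 x
    rw [S.A_T, T_apply] at h2
    linarith
  have hkap := blk_kappa f x₀ (Real.log (deriv f x₀)) (M 1 * σ) (K ^ 4) (S.tau w ^ C₁)
    (by positivity) hgap1 hosc
  have hKσ : ((K ^ 4 : ℕ) : ℝ) * (M 1 * σ) = 16 * M 1 := by
    rw [hσ]; push_cast; field_simp
  rw [hKσ] at hkap
  have hκ : |Real.log (deriv f x₀)| ≤ (16 * C₁ + 16 * M 1) / (K : ℝ) ^ 3 := by
    rw [le_div_iff₀ (by positivity)]
    have h1 : ((K ^ 4 : ℕ) : ℝ) * |Real.log (deriv f x₀)| ≤ (16 * C₁ + 16 * M 1) * K := by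
      refine hkap.trans ?_
      nlinarith
    push_cast at h1
    have h2 : (K : ℝ) * (|Real.log (deriv f x₀)| * (K : ℝ) ^ 3) ≤ K * (16 * C₁ + 16 * M 1) := by
      calc (K : ℝ) * (|Real.log (deriv f x₀)| * (K : ℝ) ^ 3)
          = (K : ℝ) ^ 4 * |Real.log (deriv f x₀)| := by ring
        _ ≤ (16 * C₁ + 16 * M 1) * K := h1
        _ = _ := by ring
    exact le_of_mul_le_mul_left h2 hK0
  have hlogf : ∀ x ∈ Icc x₀ ((f ^ (K ^ 4)) x₀), |Real.log (deriv f x)| ≤ C₂ / (K : ℝ) ^ 3 := by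
    intro x hx
    have h1 := hosc x hx
    have h2 : M 1 * σ ≤ 16 * M 1 / (K : ℝ) ^ 3 := by
      rw [hσ, mul_div_assoc', mul_comm (M 1) 16]
      have : (K : ℝ) ^ 3 ≤ (K : ℝ) ^ 4 := pow_le_pow_right₀ (by linarith) (by norm_num)
      gcongr
    have h3 : |Real.log (deriv f x)| ≤ |Real.log (deriv f x) - Real.log (deriv f x₀)| +
        |Real.log (deriv f x₀)| := by
      have := abs_add_le (Real.log (deriv f x) - Real.log (deriv f x₀)) (Real.log (deriv f x₀))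
      rwa [sub_add_cancel] at this
    have h4 : C₂ / (K : ℝ) ^ 3 = 16 * M 1 / (K : ℝ) ^ 3 + (16 * C₁ + 16 * M 1) / (K : ℝ) ^ 3 := by
      rw [← add_div, hC₂]; ring
    linarith
  have hK3 : (K : ℝ) ≤ (K : ℝ) ^ 3 := le_self_pow₀ (by linarith) (by norm_num)
  have hρ : ∀ x ∈ Icc x₀ ((f ^ (K ^ 4)) x₀), |deriv f x - 1| ≤ 2 * (C₂ / (K : ℝ) ^ 3) := by
    intro x hx
    have h1 := hlogf x hx
    have h2 : C₂ / (K : ℝ) ^ 3 ≤ 1 := by
      rw [div_le_one (by positivity)]; linarith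
    have h3 := Real.abs_exp_sub_one_le (h1.trans h2)
    rw [Real.exp_log (D.pos f x)] at h3
    linarith
  obtain ⟨c, hcd⟩ : ∃ c : ℝ, c = (f ^ K) x₀ - x₀ := ⟨_, rfl⟩
  have hxc : x₀ + c = (f ^ K) x₀ := by rw [hcd]; ring
  have hc1 : f x₀ - x₀ ≤ c := by
    have := hzm hK1
    simp only [pow_one] at this
    rw [hcd]; linarith
  have hc0 : 0 < c := (hfpos x₀).trans_le hc1
  have hIsub : ∀ Y ∈ Icc (0 : ℝ) 1, x₀ + c * Y ∈ Icc x₀ ((f ^ K) x₀) := by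
    intro Y hY
    rw [← hxc]
    exact ⟨by nlinarith [hY.1], by nlinarith [hY.2]⟩
  have hIsub4 : ∀ Y ∈ Icc (0 : ℝ) 1, x₀ + c * Y ∈ Icc x₀ ((f ^ (K ^ 4)) x₀) := fun Y hY =>
    ⟨(hIsub Y hY).1, (hIsub Y hY).2.trans hKK⟩
  have hKρ : (K : ℝ) * (2 * (C₂ / (K : ℝ) ^ 3)) ≤ 1 / 2 := by
    have h1 : (K : ℝ) * (2 * (C₂ / (K : ℝ) ^ 3)) = 2 * C₂ / (K : ℝ) ^ 2 := by field_simp
    rw [h1, div_le_iff₀ (by positivity)]
    nlinarith
  have hgapK : ∀ Y ∈ Icc (0 : ℝ) 1, c / 2 ≤ (K : ℝ) * (f (x₀ + c * Y) - (x₀ + c * Y)) ∧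
      (K : ℝ) * (f (x₀ + c * Y) - (x₀ + c * Y)) ≤ 2 * c := by
    intro Y hY
    have h1 := blk_gap f x₀ (2 * (C₂ / (K : ℝ) ^ 3)) K hfpos
      (fun x hx => hρ x ⟨hx.1, hx.2.trans hKK⟩) (hIsub Y hY)
    rw [← hcd] at h1
    have h2 : (K : ℝ) * (2 * (C₂ / (K : ℝ) ^ 3) * c) ≤ 1 / 2 * c := by
      calc (K : ℝ) * (2 * (C₂ / (K : ℝ) ^ 3) * c) = (K : ℝ) * (2 * (C₂ / (K : ℝ) ^ 3)) * c := by ring
        _ ≤ 1 / 2 * c := by gcongr
    rw [abs_le] at h1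
    constructor <;> linarith [h1.1, h1.2]
  have hwgap : ∀ Y ∈ Icc (0 : ℝ) 1, 1 / (K : ℝ) / 2 ≤ resc f x₀ c Y - Y ∧
      resc f x₀ c Y - Y ≤ 2 * (1 / (K : ℝ)) := by
    intro Y hY
    rw [blk_resc_sub f x₀ Y hc0]
    have h1 := hgapK Y hY
    constructor
    · rw [le_div_iff₀ hc0, div_div, div_mul_eq_mul_div, one_mul, div_le_iff₀ (by positivity)]
      linarith [h1.1]
    · rw [div_le_iff₀ hc0, mul_one_div, div_mul_eq_mul_div, le_div_iff₀ hK0]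
      linarith [h1.2]
  have hgle : ∀ x, 0 < g x - x ∧ g x - x ≤ f x - x := by
    intro x
    refine ⟨sub_pos.2 (S.self_lt w' (W.pos (n + 2)) x), ?_⟩
    have h1 : S.tau w' ≤ S.tau w := by
      have := W.half (n + 1)
      have := W.pos (n + 2)
      rw [hw, hw']
      linarith
    have := S.le _ _ h1 x
    linarith
  have hC0 : 0 ≤ 2 * C₂ + 16 * (B * Λ) + Λ := by positivity
  have hKK2 : 1 / (K : ℝ) ^ 3 ≤ (1 / (K : ℝ)) ^ 2 := by
    rw [one_div_pow]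
    refine one_div_le_one_div_of_le (by positivity) ?_
    exact pow_le_pow_right₀ (by linarith) (by norm_num)
  have hKK4' : 1 / (K : ℝ) ^ 4 ≤ (1 / (K : ℝ)) ^ 2 := by
    rw [one_div_pow]
    refine one_div_le_one_div_of_le (by positivity) ?_
    exact pow_le_pow_right₀ (by linarith) (by norm_num)
  have hK20 : 0 ≤ (1 / (K : ℝ)) ^ 2 := by positivity
  refine ⟨K, x₀, c, hK1, hK16, hK17, hc0, ?_, (hC₁ (n + 1) x₀).trans hc1, ?_⟩
  · have h1 : S.tau (K • w) ≤ S.tau (0, 0, 1) := by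
      rw [S.tau_nsmul, S.tau_T]
      have h2 : (K : ℝ) ≤ (K : ℝ) ^ 16 := le_self_pow₀ (by linarith) (by norm_num)
      nlinarith
    have h2 := S.le _ _ h1 x₀
    rw [S.A_T, T_apply, S.A_nsmul] at h2
    rw [hcd]
    linarith
  · refine ⟨hwgap, ?_, ?_, ?_, ?_⟩
    · intro Y hY
      rw [blk_resc_deriv f x₀ hc0]
      refine (hρ _ (hIsub4 Y hY)).trans ?_
      have h1 : 2 * (C₂ / (K : ℝ) ^ 3) = 2 * C₂ * (1 / (K : ℝ) ^ 3) := by ring
      rw [h1]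
      calc 2 * C₂ * (1 / (K : ℝ) ^ 3) ≤ 2 * C₂ * (1 / (K : ℝ)) ^ 2 := by gcongr
        _ ≤ _ := by
          gcongr
          linarith
    · intro r hr1 hr2 Y hY
      have h1 := hB q₁ (len w) hq₁ x₀ c σ Λ hc0 hσ1 (by rw [hq₁e]; exact fun x => (hΛ (n + 1) x).1)
        (by
          rw [hxc]
          exact (hsummono q₁ _ _ _ hKK).trans hs1) Y hY r hr1 hr2
      rw [hq₁e] at h1
      refine h1.trans ?_
      have h2 : B * Λ * σ = 16 * (B * Λ) * (1 / (K : ℝ) ^ 4) := by rw [hσ]; ring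
      rw [h2]
      calc 16 * (B * Λ) * (1 / (K : ℝ) ^ 4) ≤ 16 * (B * Λ) * (1 / (K : ℝ)) ^ 2 := by gcongr
        _ ≤ _ := by
          gcongr
          linarith
    · intro Y hY
      rw [blk_resc_sub g x₀ Y hc0]
      have h1 := hgle (x₀ + c * Y)
      refine ⟨div_pos h1.1 hc0, ?_⟩
      have h2 := (hwgap Y hY).2
      rw [blk_resc_sub f x₀ Y hc0] at h2
      refine le_trans ?_ h2
      exact div_le_div_of_nonneg_right h1.2 hc0.le
    · intro r hr1 hr2 Y hY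
      rcases Nat.lt_or_ge r 2 with h | h
      · have : r = 1 := by omega
        subst this
        rw [iteratedDeriv_one, blk_resc_deriv g x₀ hc0]
        rw [abs_of_pos (D.pos g _)]
        have := (hΛ (n + 2) (x₀ + c * Y)).1
        refine this.trans ?_
        linarith
      · have h1 := hB q₂ (len w') hq₂ x₀ c σ Λ hc0 hσ1
          (by rw [hq₂e]; exact fun x => (hΛ (n + 2) x).1)
          (by
            rw [hxc]
            exact (hsummono q₂ _ _ _ hKK).trans hs2) Y hY r h hr2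
        rw [hq₂e] at h1
        refine h1.trans ?_
        have h3 : B * Λ * σ ≤ B * Λ * 1 := by gcongr
        linarith

end Pool.Agent.Helper638.Ros
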