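import Pool.Agent.Helper638_Ros.Defs

/-!
# Calculus estimates for iterated derivatives (one real variable)
-/

set_option autoImplicit false

namespace Pool.Agent.Helper638.Ros

open Filter Function Set Topology

/-- `C^infinity` at a point. -/
abbrev SmoothAt (f : ℝ → ℝ) (x : ℝ) : Prop := ContDiffAt ℝ ((⊤ : ℕ∞) : WithTop ℕ∞) f x

theorem calc_smoothAt_nat {f : ℝ → ℝ} {x : ℝ} (hf : SmoothAt f x) (n : ℕ) :
    ContDiffAt ℝ (n : ℕ∞) f x := hf.of_le (by exact_mod_cast le_top)

theorem calc_open {f : ℝ → ℝ} {x : ℝ} (hf : SmoothAt f x) (n : ℕ) :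
    ∃ U : Set ℝ, IsOpen U ∧ x ∈ U ∧ ContDiffOn ℝ (n : ℕ∞) f U := by
  have h1 : ∀ᶠ y in 𝓝 x, ContDiffAt ℝ (n : ℕ∞) f y :=
    (calc_smoothAt_nat hf n).eventually (by simp)
  obtain ⟨U, hU, hUo, hx⟩ := mem_nhds_iff.1 h1
  refine ⟨U, hUo, hx, fun y hy => ?_⟩
  have h2 : ContDiffAt ℝ (n : ℕ∞) f y := hU hy
  exact h2.contDiffWithinAt

/-- composition bound -/
theorem comp_bd {g f : ℝ → ℝ} {x : ℝ} (hg : SmoothAt g (f x)) (hf : SmoothAt f x) {n : ℕ}
    (hn : 1 ≤ n) {C B : ℝ} (hC : 0 ≤ C) (hB : 0 ≤ B)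
    (h1 : ∀ i, 1 ≤ i → i ≤ n → |iteratedDeriv i g (f x)| ≤ C)
    (h2 : ∀ i, 1 ≤ i → i ≤ n → |iteratedDeriv i f x| ≤ B ^ i) :
    |iteratedDeriv n (fun y => g (f y)) x| ≤ n.factorial * C * B ^ n := by
  obtain ⟨t, hto, htx, hgt⟩ := calc_open hg n
  obtain ⟨s', hso', hsx', hfs'⟩ := calc_open hf n
  set s := s' ∩ f ⁻¹' t with hs
  have hso : IsOpen s := hfs'.continuousOn.isOpen_inter_preimage hso' hto
  have hsx : x ∈ s := ⟨hsx', htx⟩
  have hfs : ContDiffOn ℝ (n : ℕ∞) f s := hfs'.mono inter_subset_left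
  set c := g (f x) with hc
  have hgt' : ContDiffOn ℝ (n : ℕ∞) (fun y => g y - c) t := hgt.sub contDiffOn_const
  have key := norm_iteratedFDerivWithin_comp_le (𝕜 := ℝ) (g := fun y => g y - c) (f := f) (n := n)
    (s := s) (t := t) (x := x) (N := (n : ℕ∞)) hgt' hfs le_rfl hto.uniqueDiffOn hso.uniqueDiffOn
    (fun y hy => hy.2) hsx (C := C) (D := B) ?_ ?_
  · rw [iteratedFDerivWithin_of_isOpen n hso hsx, norm_iteratedFDeriv_eq_norm_iteratedDeriv,
      Real.norm_eq_abs] at key
    have e : iteratedDeriv n ((fun y => g y - c) ∘ f) x = iteratedDeriv n (fun y => g (f y)) x := by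
      have h3 : ((fun y => g y - c) ∘ f) = fun z => -c + (fun y => g (f y)) z := by
        funext z; simp only [comp_apply]; ring
      rw [h3, iteratedDeriv_const_add (by omega)]
    rw [e] at key
    exact key
  · intro i hi
    rw [iteratedFDerivWithin_of_isOpen i hto htx, norm_iteratedFDeriv_eq_norm_iteratedDeriv,
      Real.norm_eq_abs]
    rcases Nat.eq_zero_or_pos i with h0 | h0
    · subst h0
      simp only [iteratedDeriv_zero]
      rw [hc, sub_self, abs_zero]; exact hC
    · have h3 : (fun y => g y - c) = fun z => -c + g z := by funext z; ring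
      rw [h3, iteratedDeriv_const_add h0]
      exact h1 i h0 hi
  · intro i hi hin
    rw [iteratedFDerivWithin_of_isOpen i hso hsx, norm_iteratedFDeriv_eq_norm_iteratedDeriv,
      Real.norm_eq_abs]
    exact h2 i hi hin

/-- composition bound, linear in the size of the inner function -/
theorem comp_bd_lin {g f : ℝ → ℝ} {x : ℝ} (hg : SmoothAt g (f x)) (hf : SmoothAt f x) {n : ℕ}
    (hn : 1 ≤ n) {C B s : ℝ} (hC : 0 ≤ C) (hB : 0 ≤ B) (hs0 : 0 ≤ s) (hs1 : s ≤ 1)
    (h1 : ∀ i, 1 ≤ i → i ≤ n → |iteratedDeriv i g (f x)| ≤ C)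
    (h2 : ∀ i, 1 ≤ i → i ≤ n → |iteratedDeriv i f x| ≤ s * B ^ i) :
    |iteratedDeriv n (fun y => g (f y)) x| ≤ n.factorial * C * (s * B ^ n) := by
  have hn0 : (n : ℝ) ≠ 0 := by positivity
  set r : ℝ := s ^ (1 / (n : ℝ)) with hr
  have hr0 : 0 ≤ r := Real.rpow_nonneg hs0 _
  have hrn : r ^ n = s := by
    rw [hr, ← Real.rpow_natCast, ← Real.rpow_mul hs0, one_div, inv_mul_cancel₀ hn0, Real.rpow_one]
  have hr1 : r ≤ 1 := Real.rpow_le_one hs0 hs1 (by positivity)
  have key := comp_bd hg hf hn hC (mul_nonneg hr0 hB) h1 (B := r * B) (fun i hi hin => by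
    refine (h2 i hi hin).trans ?_
    rw [mul_pow]
    refine mul_le_mul_of_nonneg_right ?_ (by positivity)
    rw [← hrn]
    exact pow_le_pow_of_le_one hr0 hr1 hin)
  rw [mul_pow, hrn] at key
  exact key

/-- product bound -/
theorem mul_bd {f g : ℝ → ℝ} {x : ℝ} (hf : SmoothAt f x) (hg : SmoothAt g x) {n : ℕ} {C B : ℝ}
    (h1 : ∀ i, i ≤ n → |iteratedDeriv i f x| ≤ C) (h2 : ∀ i, i ≤ n → |iteratedDeriv i g x| ≤ B) :
    |iteratedDeriv n (fun y => f y * g y) x| ≤ 2 ^ n * C * B := by
  rw [iteratedDeriv_fun_mul (hf.of_le (by exact_mod_cast le_top))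
    (hg.of_le (by exact_mod_cast le_top))]
  have hC : 0 ≤ C := (abs_nonneg _).trans (h1 0 (Nat.zero_le _))
  calc |∑ i ∈ Finset.range (n + 1), (n.choose i : ℝ) * iteratedDeriv i f x * iteratedDeriv (n - i) g x|
      ≤ ∑ i ∈ Finset.range (n + 1), |(n.choose i : ℝ) * iteratedDeriv i f x * iteratedDeriv (n - i) g x| :=
        Finset.abs_sum_le_sum_abs _ _
    _ ≤ ∑ i ∈ Finset.range (n + 1), (n.choose i : ℝ) * (C * B) := by
        refine Finset.sum_le_sum fun i hi => ?_
        rw [Finset.mem_range] at hi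
        rw [abs_mul, abs_mul, abs_of_nonneg (by positivity : (0 : ℝ) ≤ (n.choose i : ℝ)), mul_assoc]
        refine mul_le_mul_of_nonneg_left ?_ (by positivity)
        exact mul_le_mul (h1 i (by omega)) (h2 (n - i) (by omega)) (abs_nonneg _) hC
    _ = 2 ^ n * C * B := by
        rw [← Finset.sum_mul]
        have : (∑ i ∈ Finset.range (n + 1), (n.choose i : ℝ)) = 2 ^ n := by
          exact_mod_cast Nat.sum_range_choose n
        rw [this]; ring

/-- exponential bound -/
theorem exp_bd {l : ℝ → ℝ} {x : ℝ} (hl : SmoothAt l x) {n : ℕ} {W : ℝ} (hW : 0 ≤ W)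
    (h : ∀ i, 1 ≤ i → i ≤ n → |iteratedDeriv i l x| ≤ W ^ i) :
    |iteratedDeriv n (fun y => Real.exp (l y)) x| ≤ n.factorial * Real.exp (l x) * W ^ n := by
  rcases Nat.eq_zero_or_pos n with h0 | h0
  · subst h0
    simp [abs_of_pos (Real.exp_pos _)]
  · refine comp_bd (g := Real.exp) Real.contDiff_exp.contDiffAt hl h0 (Real.exp_pos _).le hW
      (fun i _ _ => ?_) h
    rw [iteratedDeriv_eq_iterate, Real.iter_deriv_exp, abs_of_pos (Real.exp_pos _)]

/-- exponential bound, linear form -/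
theorem exp_bd_lin {l : ℝ → ℝ} {x : ℝ} (hl : SmoothAt l x) {n : ℕ} (hn : 1 ≤ n) {W s : ℝ}
    (hW : 0 ≤ W) (hs0 : 0 ≤ s) (hs1 : s ≤ 1)
    (h : ∀ i, 1 ≤ i → i ≤ n → |iteratedDeriv i l x| ≤ s * W ^ i) :
    |iteratedDeriv n (fun y => Real.exp (l y)) x| ≤ n.factorial * Real.exp (l x) * (s * W ^ n) := by
  refine comp_bd_lin (g := Real.exp) Real.contDiff_exp.contDiffAt hl hn (Real.exp_pos _).le hW
    hs0 hs1 (fun i _ _ => ?_) h
  rw [iteratedDeriv_eq_iterate, Real.iter_deriv_exp, abs_of_pos (Real.exp_pos _)]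

theorem calc_deriv_smoothAt {f : ℝ → ℝ} {x : ℝ} (hf : SmoothAt f x) : SmoothAt (deriv f) x := by
  have h := ContDiffAt.fderiv_right (m := ((⊤ : ℕ∞) : WithTop ℕ∞)) hf (by simp)
  have h2 : SmoothAt (fun y => (fderiv ℝ f y) 1) x := h.clm_apply contDiffAt_const
  exact h2

theorem calc_deriv_smoothAt' {f : ℝ → ℝ} {x : ℝ} (hf : SmoothAt f x) :
    ∀ᶠ y in 𝓝 x, DifferentiableAt ℝ f y := by
  have h1 : ∀ᶠ y in 𝓝 x, ContDiffAt ℝ ((1 : ℕ) : ℕ∞) f y :=
    (calc_smoothAt_nat hf 1).eventually (by simp)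
  filter_upwards [h1] with y hy
  exact hy.differentiableAt (by simp)

theorem calc_inv_smooth {u : ℝ} (hu : u ≠ 0) : SmoothAt (fun t => t⁻¹) u := contDiffAt_inv ℝ hu

theorem calc_inv_deriv (i : ℕ) (u B : ℝ) (hB : 1 ≤ B) (hu : 1 / B ≤ |u|) :
    |iteratedDeriv i (fun t : ℝ => t⁻¹) u| ≤ i.factorial * B ^ (i + 1) := by
  have hB0 : 0 < B := by linarith
  have hu0 : 0 < |u| := lt_of_lt_of_le (by positivity) hu
  have h1 : iteratedDeriv i (fun t : ℝ => t⁻¹) u = (-1) ^ i * i.factorial * u ^ (-1 - i : ℤ) := by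
    rw [iteratedDeriv_eq_iterate]
    exact iter_deriv_inv i u
  rw [h1, abs_mul, abs_mul, abs_pow, abs_neg, abs_one, one_pow, one_mul,
    abs_of_nonneg (by positivity : (0 : ℝ) ≤ (i.factorial : ℝ))]
  refine mul_le_mul_of_nonneg_left ?_ (by positivity)
  have h2 : (-1 - i : ℤ) = -((i + 1 : ℕ) : ℤ) := by push_cast; ring
  rw [h2, zpow_neg, zpow_natCast, abs_inv, abs_pow, ← inv_pow]
  apply pow_le_pow_left₀ (by positivity)
  rw [inv_le_comm₀ hu0 hB0]
  simpa using hu

/-- bounds for the derivatives of an inverse function, polynomial in the data -/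
theorem inv_bd (n : ℕ) : ∃ (C : ℝ) (e : ℕ), 1 ≤ C ∧ ∀ (f k : ℝ → ℝ) (y B : ℝ),
    SmoothAt f (k y) → SmoothAt k y → (∀ᶠ t in 𝓝 y, f (k t) = t) → 1 ≤ B →
    1 / B ≤ |deriv f (k y)| → (∀ i, 1 ≤ i → i ≤ n → |iteratedDeriv i f (k y)| ≤ B) →
    ∀ i, 1 ≤ i → i ≤ n → |iteratedDeriv i k y| ≤ C * B ^ e := by
  induction n with
  | zero => exact ⟨1, 0, le_rfl, fun f k y B _ _ _ _ _ _ i hi hi' => by omega⟩
  | succ n ih =>
    obtain ⟨C, e, hC, ih⟩ := ih
    have hF : (1 : ℝ) ≤ (n.factorial : ℝ) := by exact_mod_cast Nat.one_le_iff_ne_zero.2 (Nat.factorial_ne_zero n)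
    refine ⟨(n.factorial : ℝ) ^ 3 * C ^ (n + 1), 2 * n + 1 + e * (n + 1), ?_, ?_⟩
    · exact one_le_mul_of_one_le_of_one_le (one_le_pow₀ hF) (one_le_pow₀ hC)
    intro f k y B hf hk hfk hB hfB hder i hi hin
    have hB0 : 0 < B := by linarith
    have hpow : ∀ {a b : ℕ}, a ≤ b → B ^ a ≤ B ^ b := fun h => pow_le_pow_right₀ hB h
    by_cases hin' : i ≤ n
    · have h1 := ih f k y B hf hk hfk hB hfB (fun j hj hj' => hder j hj (by omega)) i hi hin'
      refine h1.trans ?_
      have h2 : C ≤ (n.factorial : ℝ) ^ 3 * C ^ (n + 1) := by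
        have h3 : C ≤ C ^ (n + 1) := le_self_pow₀ hC (by omega)
        have h4 : (1 : ℝ) ≤ (n.factorial : ℝ) ^ 3 := one_le_pow₀ hF
        nlinarith [mul_nonneg (sub_nonneg.2 h4) (by positivity : (0 : ℝ) ≤ C ^ (n + 1))]
      exact mul_le_mul h2 (hpow (by nlinarith [Nat.zero_le (e * n), Nat.zero_le n])) (by positivity) (by positivity)
    · have hi1 : i = n + 1 := by omega
      subst hi1
      -- `k' = (1/f') ∘ k` near `y`
      have hfd : ∀ᶠ t in 𝓝 y, DifferentiableAt ℝ f (k t) :=
        hk.continuousAt.eventually (calc_deriv_smoothAt' hf)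
      have hkd := calc_deriv_smoothAt' hk
      have hev : deriv k =ᶠ[𝓝 y] fun t => (deriv f (k t))⁻¹ := by
        have hfk' := hfk.eventually_nhds
        filter_upwards [hfd, hkd, hfk'] with t h1 h2 h3
        have h4 : HasDerivAt (fun s => f (k s)) (deriv f (k t) * deriv k t) t :=
          h1.hasDerivAt.comp t h2.hasDerivAt
        have h5 : HasDerivAt (fun s => f (k s)) 1 t := by
          refine (hasDerivAt_id t).congr_of_eventuallyEq ?_
          filter_upwards [h3] with s hs
          simpa using hs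
        have h6 := h4.unique h5
        exact eq_inv_of_mul_eq_one_right h6
      have hne : deriv f (k y) ≠ 0 := by
        intro h0
        rw [h0, abs_zero] at hfB
        have : 0 < 1 / B := by positivity
        linarith
      rw [iteratedDeriv_succ', hev.iteratedDeriv_eq n]
      have hsf' : SmoothAt (deriv f) (k y) := calc_deriv_smoothAt hf
      have hφ : SmoothAt (fun u => (deriv f u)⁻¹) (k y) := hsf'.inv hne
      rcases Nat.eq_zero_or_pos n with h0 | h0
      · subst h0
        simp only [iteratedDeriv_zero]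
        rw [abs_inv]
        have h1 : |deriv f (k y)|⁻¹ ≤ B := by
          rw [inv_le_comm₀ (abs_pos.2 hne) hB0]
          simpa using hfB
        refine h1.trans ?_
        have h2 : (1 : ℝ) ≤ (Nat.factorial 0 : ℝ) ^ 3 * C ^ (0 + 1) := by simpa using hC
        calc B = 1 * B ^ 1 := by ring
          _ ≤ _ := mul_le_mul h2 (hpow (by omega)) (by positivity) (by positivity)
      · -- bounds for `1/f'` at `k y`
        have hφb : ∀ j, 1 ≤ j → j ≤ n → |iteratedDeriv j (fun u => (deriv f u)⁻¹) (k y)|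
            ≤ (n.factorial : ℝ) ^ 2 * B ^ (2 * n + 1) := by
          intro j hj hjn
          have h1 := comp_bd (g := fun t : ℝ => t⁻¹) (f := deriv f) (x := k y)
            (calc_inv_smooth hne) hsf' hj (C := n.factorial * B ^ (n + 1)) (B := B)
            (by positivity) hB0.le (fun i hi hij => by
              refine (calc_inv_deriv i _ B hB hfB).trans ?_
              refine mul_le_mul ?_ (hpow (by omega)) (by positivity) (by positivity)
              exact_mod_cast Nat.factorial_le (by omega : i ≤ n)) (fun i hi hij => by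
              rw [← iteratedDeriv_succ']
              exact (hder (i + 1) (by omega) (by omega)).trans (le_self_pow₀ hB (by omega)))
          refine h1.trans ?_
          have h2 : (j.factorial : ℝ) ≤ n.factorial := by exact_mod_cast Nat.factorial_le hjn
          calc (j.factorial : ℝ) * (n.factorial * B ^ (n + 1)) * B ^ j
              ≤ (n.factorial : ℝ) * (n.factorial * B ^ (n + 1)) * B ^ n := by
                refine mul_le_mul (mul_le_mul_of_nonneg_right h2 (by positivity)) (hpow hjn)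
                  (by positivity) (by positivity)
            _ = (n.factorial : ℝ) ^ 2 * B ^ (2 * n + 1) := by ring
        have h1 := comp_bd (g := fun u => (deriv f u)⁻¹) (f := k) (x := y) hφ hk h0
          (C := (n.factorial : ℝ) ^ 2 * B ^ (2 * n + 1)) (B := C * B ^ e) (by positivity)
          (by positivity) hφb (fun i hi hij => by
            refine (ih f k y B hf hk hfk hB hfB (fun j hj hj' => hder j hj (by omega)) i hi hij).trans ?_
            refine le_self_pow₀ ?_ (by omega)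
            exact one_le_mul_of_one_le_of_one_le hC (one_le_pow₀ hB))
        refine h1.trans ?_
        have h2 : (n.factorial : ℝ) * ((n.factorial : ℝ) ^ 2 * B ^ (2 * n + 1)) * (C * B ^ e) ^ n
            = (n.factorial : ℝ) ^ 3 * C ^ n * B ^ (2 * n + 1 + e * n) := by ring
        rw [h2]
        refine mul_le_mul (mul_le_mul_of_nonneg_left ?_ (by positivity)) (hpow ?_) (by positivity)
          (by positivity)
        · exact pow_le_pow_right₀ hC (by omega)
        · nlinarith [Nat.zero_le e]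

/-- difference of two compositions with the same outer function, polynomial in the data -/
theorem comp_sub_bd (n : ℕ) : ∃ (C : ℝ) (e : ℕ), 1 ≤ C ∧ ∀ (g f₁ f₂ : ℝ → ℝ) (x B η : ℝ),
    1 ≤ B → 0 ≤ η → (∀ t ∈ uIcc (f₁ x) (f₂ x), SmoothAt g t) → SmoothAt f₁ x → SmoothAt f₂ x →
    (∀ i, 1 ≤ i → i ≤ n + 1 → ∀ t ∈ uIcc (f₁ x) (f₂ x), |iteratedDeriv i g t| ≤ B) →
    (∀ i, 1 ≤ i → i ≤ n → |iteratedDeriv i f₁ x| ≤ B ∧ |iteratedDeriv i f₂ x| ≤ B) →
    (∀ i, i ≤ n → |iteratedDeriv i (fun y => f₁ y - f₂ y) x| ≤ η) →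
    ∀ i, i ≤ n → |iteratedDeriv i (fun y => g (f₁ y) - g (f₂ y)) x| ≤ C * B ^ e * η := by
  -- the case of the values
  have base : ∀ (g f₁ f₂ : ℝ → ℝ) (x B η : ℝ), 1 ≤ B → 0 ≤ η →
      (∀ t ∈ uIcc (f₁ x) (f₂ x), SmoothAt g t) →
      (∀ t ∈ uIcc (f₁ x) (f₂ x), |deriv g t| ≤ B) → |f₁ x - f₂ x| ≤ η →
      |g (f₁ x) - g (f₂ x)| ≤ B * η := by
    intro g f₁ f₂ x B η hB hη hg hgB hd
    have h1 := Convex.norm_image_sub_le_of_norm_deriv_le (f := g) (C := B)
      (s := uIcc (f₁ x) (f₂ x)) (x := f₂ x) (y := f₁ x)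
      (fun t ht => (hg t ht).differentiableAt (by simp))
      (fun t ht => by rw [Real.norm_eq_abs]; exact hgB t ht)
      (convex_uIcc _ _) right_mem_uIcc left_mem_uIcc
    rw [Real.norm_eq_abs, Real.norm_eq_abs] at h1
    exact h1.trans (mul_le_mul_of_nonneg_left hd (by linarith))
  induction n with
  | zero =>
    refine ⟨1, 1, le_rfl, ?_⟩
    intro g f₁ f₂ x B η hB hη hg hf₁ hf₂ hgB hfB hd i hi
    have hi0 : i = 0 := by omega
    subst hi0
    have h1 := hd 0 le_rfl
    simp only [iteratedDeriv_zero] at h1 ⊢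
    rw [one_mul, pow_one]
    exact base g f₁ f₂ x B η hB hη hg (fun t ht => by
      have := hgB 1 le_rfl (by omega) t ht
      rwa [iteratedDeriv_one] at this) h1
  | succ n ih =>
    obtain ⟨C, e, hC, ih⟩ := ih
    have hF : (1 : ℝ) ≤ (n.factorial : ℝ) := by exact_mod_cast Nat.one_le_iff_ne_zero.2 (Nat.factorial_ne_zero n)
    refine ⟨2 ^ n * n.factorial + 2 ^ n * C, e + n + 2, ?_, ?_⟩
    · have h1 : (1 : ℝ) ≤ 2 ^ n * n.factorial :=
        one_le_mul_of_one_le_of_one_le (one_le_pow₀ (by norm_num)) hF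
      have h2 : (0 : ℝ) ≤ 2 ^ n * C := by positivity
      linarith
    intro g f₁ f₂ x B η hB hη hg hf₁ hf₂ hgB hfB hd i hi
    have hB0 : 0 < B := by linarith
    have hpow : ∀ {a b : ℕ}, a ≤ b → B ^ a ≤ B ^ b := fun h => pow_le_pow_right₀ hB h
    have hC' : (1 : ℝ) ≤ 2 ^ n * n.factorial + 2 ^ n * C := by
      have h1 : (1 : ℝ) ≤ 2 ^ n * n.factorial :=
        one_le_mul_of_one_le_of_one_le (one_le_pow₀ (by norm_num)) hF
      have h2 : (0 : ℝ) ≤ 2 ^ n * C := by positivity
      linarith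
    rcases Nat.eq_zero_or_pos i with h0 | h0
    · subst h0
      have h1 := hd 0 (by omega)
      simp only [iteratedDeriv_zero] at h1 ⊢
      refine (base g f₁ f₂ x B η hB hη hg (fun t ht => by
        have := hgB 1 le_rfl (by omega) t ht
        rwa [iteratedDeriv_one] at this) h1).trans ?_
      refine mul_le_mul_of_nonneg_right ?_ hη
      calc B = 1 * B ^ 1 := by ring
        _ ≤ _ := mul_le_mul hC' (hpow (by omega)) (by positivity) (by positivity)
    · obtain ⟨j, rfl⟩ : ∃ j, i = j + 1 := ⟨i - 1, by omega⟩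
      have hj : j ≤ n := by omega
      -- the derivative of the difference near `x`
      have hl : f₁ x ∈ uIcc (f₁ x) (f₂ x) := left_mem_uIcc
      have hr : f₂ x ∈ uIcc (f₁ x) (f₂ x) := right_mem_uIcc
      have hg1 := hg _ hl
      have hg2 := hg _ hr
      have e1 : ∀ᶠ y in 𝓝 x, DifferentiableAt ℝ g (f₁ y) :=
        hf₁.continuousAt.eventually (calc_deriv_smoothAt' hg1)
      have e2 : ∀ᶠ y in 𝓝 x, DifferentiableAt ℝ g (f₂ y) :=
        hf₂.continuousAt.eventually (calc_deriv_smoothAt' hg2)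
      have hev : deriv (fun y => g (f₁ y) - g (f₂ y)) =ᶠ[𝓝 x] fun y =>
          (deriv g (f₁ y) * (deriv f₁ y - deriv f₂ y))
            + ((deriv g (f₁ y) - deriv g (f₂ y)) * deriv f₂ y) := by
        filter_upwards [e1, e2, calc_deriv_smoothAt' hf₁, calc_deriv_smoothAt' hf₂] with y h1 h2 h3 h4
        have h5 : HasDerivAt (fun y => g (f₁ y) - g (f₂ y))
            (deriv g (f₁ y) * deriv f₁ y - deriv g (f₂ y) * deriv f₂ y) y :=
          (h1.hasDerivAt.comp y h3.hasDerivAt).sub (h2.hasDerivAt.comp y h4.hasDerivAt)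
        rw [h5.deriv]; ring
      rw [iteratedDeriv_succ', hev.iteratedDeriv_eq j]
      have sg1 : SmoothAt (fun y => deriv g (f₁ y)) x :=
        ContDiffAt.comp (g := deriv g) x (calc_deriv_smoothAt hg1) hf₁
      have sg2 : SmoothAt (fun y => deriv g (f₂ y)) x :=
        ContDiffAt.comp (g := deriv g) x (calc_deriv_smoothAt hg2) hf₂
      have s1 := calc_deriv_smoothAt hf₁
      have s2 := calc_deriv_smoothAt hf₂
      rw [iteratedDeriv_fun_add ((sg1.mul (s1.sub s2)).of_le (by exact_mod_cast le_top))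
        (((sg1.sub sg2).mul s2).of_le (by exact_mod_cast le_top))]
      refine (abs_add_le _ _).trans ?_
      -- first product
      have p1 : |iteratedDeriv j (fun y => deriv g (f₁ y) * (deriv f₁ y - deriv f₂ y)) x|
          ≤ 2 ^ j * (n.factorial * B ^ (n + 1)) * η := by
        apply mul_bd sg1 (s1.sub s2)
        · intro m hm
          rcases Nat.eq_zero_or_pos m with hm0 | hm0
          · subst hm0
            simp only [iteratedDeriv_zero]
            have h1 := hgB 1 le_rfl (by omega) _ hl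
            rw [iteratedDeriv_one] at h1
            refine h1.trans ?_
            calc B = 1 * B ^ 1 := by ring
              _ ≤ _ := mul_le_mul hF (hpow (by omega)) (by positivity) (by positivity)
          · have h1 := comp_bd (g := deriv g) (f := f₁) (x := x) (calc_deriv_smoothAt hg1) hf₁ hm0
              (C := B) (B := B) hB0.le hB0.le (fun l hl' hlm => by
                rw [← iteratedDeriv_succ']
                exact hgB (l + 1) (by omega) (by omega) _ hl) (fun l hl' hlm =>
                ((hfB l hl' (by omega)).1).trans (le_self_pow₀ hB (by omega)))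
            refine h1.trans ?_
            have h2 : (m.factorial : ℝ) ≤ n.factorial := by
              exact_mod_cast Nat.factorial_le (by omega)
            calc (m.factorial : ℝ) * B * B ^ m ≤ n.factorial * B * B ^ n := by
                  refine mul_le_mul (mul_le_mul_of_nonneg_right h2 hB0.le) (hpow (by omega))
                    (by positivity) (by positivity)
              _ = n.factorial * B ^ (n + 1) := by ring
        · intro m hm
          have h1 := hd (m + 1) (by omega)
          have hev2 : deriv (fun y => f₁ y - f₂ y) =ᶠ[𝓝 x] fun y => deriv f₁ y - deriv f₂ y := by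
            filter_upwards [calc_deriv_smoothAt' hf₁, calc_deriv_smoothAt' hf₂] with y h3 h4
            exact (h3.hasDerivAt.sub h4.hasDerivAt).deriv
          rw [iteratedDeriv_succ', hev2.iteratedDeriv_eq m] at h1
          exact h1
      -- second product
      have p2 : |iteratedDeriv j (fun y => (deriv g (f₁ y) - deriv g (f₂ y)) * deriv f₂ y) x|
          ≤ 2 ^ j * (C * B ^ e * η) * B := by
        apply mul_bd (sg1.sub sg2) s2
        · intro m hm
          exact ih (deriv g) f₁ f₂ x B η hB hη (fun t ht => calc_deriv_smoothAt (hg t ht)) hf₁ hf₂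
            (fun l hl' hln t ht => by
              rw [← iteratedDeriv_succ']; exact hgB (l + 1) (by omega) (by omega) t ht)
            (fun l hl' hln => hfB l hl' (by omega)) (fun l hl' => hd l (by omega)) m (by omega)
        · intro m hm
          rw [← iteratedDeriv_succ']
          exact (hfB (m + 1) (by omega) (by omega)).2
      refine (add_le_add p1 p2).trans ?_
      have h2j : (2 : ℝ) ^ j ≤ 2 ^ n := pow_le_pow_right₀ (by norm_num) hj
      have q1 : (2 : ℝ) ^ j * (n.factorial * B ^ (n + 1)) * η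
          ≤ 2 ^ n * n.factorial * B ^ (e + n + 2) * η := by
        refine mul_le_mul_of_nonneg_right ?_ hη
        calc (2 : ℝ) ^ j * (n.factorial * B ^ (n + 1)) ≤ 2 ^ n * (n.factorial * B ^ (e + n + 2)) := by
              refine mul_le_mul h2j (mul_le_mul_of_nonneg_left (hpow (by omega)) (by positivity))
                (by positivity) (by positivity)
          _ = _ := by ring
      have q2 : (2 : ℝ) ^ j * (C * B ^ e * η) * B ≤ 2 ^ n * C * B ^ (e + n + 2) * η := by
        calc (2 : ℝ) ^ j * (C * B ^ e * η) * B = (2 : ℝ) ^ j * (C * B ^ (e + 1)) * η := by ring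
          _ ≤ 2 ^ n * (C * B ^ (e + n + 2)) * η := by
              refine mul_le_mul_of_nonneg_right ?_ hη
              refine mul_le_mul h2j (mul_le_mul_of_nonneg_left (hpow (by omega)) (by positivity))
                (by positivity) (by positivity)
          _ = _ := by ring
      refine (add_le_add q1 q2).trans (le_of_eq ?_)
      ring

/-! ### Elements of `D` -/

theorem calc_per_iter {h : ℝ → ℝ} (hp : ∀ x, h (x + 1) = h x) (i : ℕ) (x : ℝ) :
    iteratedDeriv i h (x + 1) = iteratedDeriv i h x := by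
  have h1 : (fun z => h (z + 1)) = h := funext hp
  have h2 := iteratedDeriv_comp_add_const i h 1
  rw [h1] at h2
  exact (congrFun h2 x).symm

theorem calc_per_int {h : ℝ → ℝ} (hp : ∀ x, h (x + 1) = h x) (x : ℝ) : h x = h (Int.fract x) := by
  have h1 : Function.Periodic h 1 := hp
  have h2 := h1.sub_int_mul_eq (n := ⌊x⌋) (x := x)
  rw [mul_one] at h2
  exact h2.symm

/-- A continuous `1`-periodic function is bounded. -/
theorem calc_per_bdd {h : ℝ → ℝ} (hc : Continuous h) (hp : ∀ x, h (x + 1) = h x) :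
    ∃ B : ℝ, 0 ≤ B ∧ ∀ x, |h x| ≤ B := by
  obtain ⟨B, hB⟩ := (isCompact_Icc (a := (0 : ℝ)) (b := 1)).exists_bound_of_continuousOn
    hc.continuousOn
  refine ⟨max B 0, le_max_right _ _, fun x => ?_⟩
  rw [calc_per_int hp x]
  exact (hB _ ⟨Int.fract_nonneg x, (Int.fract_lt_one x).le⟩).trans (le_max_left _ _)

theorem calc_smooth_iter {h : ℝ → ℝ} (hs : Smooth h) (i : ℕ) : Continuous (iteratedDeriv i h) :=
  hs.continuous_iteratedDeriv i (by exact_mod_cast le_top)

theorem calc_smooth_deriv {h : ℝ → ℝ} (hs : Smooth h) : Smooth (deriv h) := by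
  exact (contDiff_infty_iff_deriv.1 hs).2

theorem calc_smooth_per_bdd {h : ℝ → ℝ} (hs : Smooth h) (hp : ∀ x, h (x + 1) = h x) (i : ℕ) :
    ∃ B : ℝ, 0 ≤ B ∧ ∀ x, |iteratedDeriv i h x| ≤ B :=
  calc_per_bdd (calc_smooth_iter hs i) (calc_per_iter hp i)

theorem calc_deriv_per (f : D) (x : ℝ) : deriv f (x + 1) = deriv f x := by
  have h1 : (fun z => f (z + 1)) = fun z => f z + 1 := funext (D.add_one f)
  have h2 : deriv (fun z => f (z + 1)) x = deriv f (x + 1) := deriv_comp_add_const f 1 x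
  rw [← h2, h1, deriv_add_const]

/-- Derivatives of order at least one of an element of `D` are bounded. -/
theorem D.bdd (f : D) (i : ℕ) (hi : 1 ≤ i) : ∃ B : ℝ, 0 ≤ B ∧ ∀ x, |iteratedDeriv i f x| ≤ B := by
  obtain ⟨j, rfl⟩ : ∃ j, i = j + 1 := ⟨i - 1, by omega⟩
  rw [iteratedDeriv_succ']
  exact calc_smooth_per_bdd (calc_smooth_deriv (D.smooth f)) (calc_deriv_per f) j

/-- Derivatives of an element of `D` are uniformly continuous. -/
theorem D.unifCont (f : D) (i : ℕ) : UniformContinuous (iteratedDeriv i f) := by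
  obtain ⟨B, hB, h⟩ := D.bdd f (i + 1) (by omega)
  have h1 : LipschitzWith (Real.toNNReal B) (iteratedDeriv i f) := by
    apply lipschitzWith_of_nnnorm_deriv_le
    · exact (D.smooth f).differentiable_iteratedDeriv i (by exact_mod_cast WithTop.coe_lt_top _)
    · intro x
      rw [← iteratedDeriv_succ, ← NNReal.coe_le_coe, coe_nnnorm, Real.norm_eq_abs,
        Real.coe_toNNReal _ hB]
      exact h x
  exact h1.uniformContinuous

/-- The derivative of an element of `D` is bounded below. -/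
theorem D.bdd_below (f : D) : ∃ c : ℝ, 0 < c ∧ ∀ x, c ≤ deriv f x := by
  have hc : Continuous (deriv f) := (calc_smooth_deriv (D.smooth f)).continuous
  obtain ⟨m, hm, hmin⟩ := (isCompact_Icc (a := (0 : ℝ)) (b := 1)).exists_isMinOn
    ⟨0, by simp⟩ hc.continuousOn
  refine ⟨deriv f m, D.pos f m, fun x => ?_⟩
  rw [calc_per_int (calc_deriv_per f) x]
  exact hmin ⟨Int.fract_nonneg x, (Int.fract_lt_one x).le⟩

/-- Derivatives of the logarithm of the derivative are bounded. -/
theorem D.log_bdd (f : D) (i : ℕ) : ∃ B : ℝ, 0 ≤ B ∧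
    ∀ x, |iteratedDeriv i (fun y => Real.log (deriv f y)) x| ≤ B := by
  apply calc_smooth_per_bdd
  · exact (calc_smooth_deriv (D.smooth f)).log (fun x => (D.pos f x).ne')
  · intro x
    rw [calc_deriv_per]

end Pool.Agent.Helper638.Ros
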