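import Pool.Agent.Helper638_Ros.Calc

/-!
# Continuity of the group operations of `D` in the `C^infinity` topology; base change
-/

set_option autoImplicit false

namespace Pool.Agent.Helper638.Ros

open Filter Function Set Topology

theorem Conv.const (F : ℝ → ℝ) : Conv (fun _ => F) F := by
  intro i
  rw [Metric.tendstoUniformly_iff]
  intro ε hε
  exact Eventually.of_forall fun n x => by simpa using hε

/-- a common bound for finitely many derivatives -/
theorem cv_bdd (f : D) (r : ℕ) : ∃ B : ℝ, 1 ≤ B ∧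
    ∀ i, 1 ≤ i → i ≤ r → ∀ x, |iteratedDeriv i f x| ≤ B := by
  have h : ∀ i : ℕ, ∃ B : ℝ, 0 ≤ B ∧ (1 ≤ i → ∀ x, |iteratedDeriv i f x| ≤ B) := by
    intro i
    by_cases hi : 1 ≤ i
    · obtain ⟨B, hB, h1⟩ := D.bdd f i hi
      exact ⟨B, hB, fun _ => h1⟩
    · exact ⟨0, le_rfl, fun h => absurd h hi⟩
  choose B hB0 hB using h
  refine ⟨1 + ∑ i ∈ Finset.range (r + 1), B i, ?_, ?_⟩
  · have := Finset.sum_nonneg (fun i (_ : i ∈ Finset.range (r + 1)) => hB0 i)
    linarith
  · intro i hi hir x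
    have h1 := hB i hi x
    have h2 : B i ≤ ∑ i ∈ Finset.range (r + 1), B i :=
      Finset.single_le_sum (f := B) (fun j _ => hB0 j) (Finset.mem_range.2 (by omega))
    linarith

theorem cv_smoothAt (f : D) (x : ℝ) : SmoothAt f x := (D.smooth f).contDiffAt

theorem cv_iter_sub {f g : ℝ → ℝ} (hf : Smooth f) (hg : Smooth g) (i : ℕ) (x : ℝ) :
    iteratedDeriv i (fun y => f y - g y) x = iteratedDeriv i f x - iteratedDeriv i g x := by
  have h1 : ContDiffAt ℝ i f x := (hf.of_le (by exact_mod_cast le_top)).contDiffAt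
  have h2 : ContDiffAt ℝ i g x := (hg.of_le (by exact_mod_cast le_top)).contDiffAt
  exact iteratedDeriv_sub h1 h2

theorem Conv.mul {Fn Gn : ℕ → D} {F G : D} (hF : Conv (fun n => Fn n) F)
    (hG : Conv (fun n => Gn n) G) : Conv (fun n => ((Fn n * Gn n : D) : ℝ → ℝ)) (F * G : D) := by
  apply conv_of_close
  intro r ε hε
  obtain ⟨BF, hBF1, hBF⟩ := cv_bdd F (r + 1)
  obtain ⟨BG, hBG1, hBG⟩ := cv_bdd G (r + 1)
  set B : ℝ := BF + BG + 1 with hB
  have hB1 : 1 ≤ B := by linarith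
  obtain ⟨C, e, hC1, hC⟩ := comp_sub_bd r
  set M : ℝ := (r.factorial : ℝ) * B ^ r + 1 + C * B ^ e with hM
  have hM1 : 1 ≤ M := by
    have h1 : 0 ≤ (r.factorial : ℝ) * B ^ r := by positivity
    have h2 : 0 ≤ C * B ^ e := by positivity
    linarith
  set δ : ℝ := min 1 (ε / (2 * M)) with hδ
  have hδ0 : 0 < δ := lt_min one_pos (by positivity)
  have hδ1 : δ ≤ 1 := min_le_left _ _
  have hδM : δ * M < ε := by
    have : δ ≤ ε / (2 * M) := min_le_right _ _
    calc δ * M ≤ ε / (2 * M) * M := by gcongr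
      _ = ε / 2 := by field_simp
      _ < ε := by linarith
  filter_upwards [hF.close r hδ0, hG.close r hδ0] with n hn1 hn2 i hi x
  have hsF := D.smooth F
  have hsFn := D.smooth (Fn n)
  have hsG := D.smooth G
  have hsGn := D.smooth (Gn n)
  have hGnB : ∀ j, 1 ≤ j → j ≤ r → ∀ y, |iteratedDeriv j (Gn n) y| ≤ B := by
    intro j hj hjr y
    have h1 := hn2 j hjr y
    have h2 := hBG j hj (by omega) y
    rw [abs_lt] at h1
    rw [abs_le] at h2 ⊢
    constructor <;> linarith [h1.1, h1.2, h2.1, h2.2]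
  have hsplit : iteratedDeriv i (Fn n * Gn n : D) x - iteratedDeriv i (F * G : D) x =
      iteratedDeriv i (fun y => (fun t => Fn n t - F t) (Gn n y)) x +
      iteratedDeriv i (fun y => F (Gn n y) - F (G y)) x := by
    have s1 : Smooth (fun y => Fn n (Gn n y)) := hsFn.comp hsGn
    have s2 : Smooth (fun y => F (Gn n y)) := hsF.comp hsGn
    have s3 : Smooth (fun y => F (G y)) := hsF.comp hsG
    have e1 : iteratedDeriv i (fun y => (fun t => Fn n t - F t) (Gn n y)) x =
        iteratedDeriv i (fun y => Fn n (Gn n y)) x - iteratedDeriv i (fun y => F (Gn n y)) x :=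
      cv_iter_sub s1 s2 i x
    rw [e1, cv_iter_sub s2 s3]
    have e2 : ((Fn n * Gn n : D) : ℝ → ℝ) = fun y => Fn n (Gn n y) := rfl
    have e3 : ((F * G : D) : ℝ → ℝ) = fun y => F (G y) := rfl
    rw [e2, e3]
    ring
  rw [hsplit]
  have h1 : |iteratedDeriv i (fun y => (fun t => Fn n t - F t) (Gn n y)) x| ≤
      ((r.factorial : ℝ) * B ^ r + 1) * δ := by
    rcases Nat.eq_zero_or_pos i with h0 | h0
    · subst h0
      simp only [iteratedDeriv_zero]
      have := hn1 0 (Nat.zero_le _) (Gn n x)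
      simp only [iteratedDeriv_zero] at this
      have h3 : 0 ≤ (r.factorial : ℝ) * B ^ r := by positivity
      nlinarith
    · have hs : Smooth (fun t => Fn n t - F t) := hsFn.sub hsF
      have := comp_bd (g := fun t => Fn n t - F t) (f := Gn n) (x := x) hs.contDiffAt
        hsGn.contDiffAt (n := i) h0 (C := δ) (B := B) hδ0.le (by linarith)
        (fun j hj hji => by
          rw [cv_iter_sub hsFn hsF]
          exact (hn1 j (by omega) _).le)
        (fun j hj hji => (hGnB j hj (by omega) x).trans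
          (le_self_pow₀ hB1 (by omega)))
      refine this.trans ?_
      have h3 : (i.factorial : ℝ) * B ^ i ≤ (r.factorial : ℝ) * B ^ r := by
        have h4 : (i.factorial : ℝ) ≤ r.factorial := by exact_mod_cast Nat.factorial_le hi
        have h5 : B ^ i ≤ B ^ r := pow_le_pow_right₀ hB1 hi
        gcongr
      nlinarith
  have h2 : |iteratedDeriv i (fun y => F (Gn n y) - F (G y)) x| ≤ C * B ^ e * δ := by
    apply hC F (Gn n) G x B δ hB1 hδ0.le (fun t _ => hsF.contDiffAt) hsGn.contDiffAt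
      hsG.contDiffAt
    · intro j hj hjr t _
      exact (hBF j hj (by omega) t).trans (by linarith)
    · intro j hj hjr
      exact ⟨hGnB j hj hjr x, (hBG j hj (by omega) x).trans (by linarith)⟩
    · intro j hjr
      rw [cv_iter_sub hsGn hsG]
      exact (hn2 j hjr x).le
    · exact hi
  calc _ ≤ _ := abs_add_le _ _
    _ ≤ ((r.factorial : ℝ) * B ^ r + 1) * δ + C * B ^ e * δ := add_le_add h1 h2
    _ = δ * M := by rw [hM]; ring
    _ < ε := hδM

theorem Conv.inv {Fn : ℕ → D} {F : D} (hF : Conv (fun n => Fn n) F) :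
    Conv (fun n => (((Fn n)⁻¹ : D) : ℝ → ℝ)) (F⁻¹ : D) := by
  have hid : Conv (fun n => ((F⁻¹ * Fn n : D) : ℝ → ℝ)) (F⁻¹ * F : D) :=
    Conv.mul (Fn := fun _ => F⁻¹) (Conv.const _) hF
  rw [inv_mul_cancel] at hid
  apply conv_of_close
  intro r ε hε
  obtain ⟨BF, hBF1, hBF⟩ := cv_bdd F (r + 1)
  obtain ⟨c, hc0, hc⟩ := D.bdd_below F
  set B : ℝ := BF + 1 + 2 / c with hB
  have hc2 : 0 < 2 / c := by positivity
  have hB1 : 1 ≤ B := by linarith
  obtain ⟨C, e, hC1, hC⟩ := inv_bd r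
  set B' : ℝ := C * B ^ e with hB'
  have hB'1 : 1 ≤ B' := by
    have := one_le_pow₀ hB1 (n := e)
    nlinarith
  set M : ℝ := (r.factorial : ℝ) * B' ^ r + 1 with hM
  have hM1 : 1 ≤ M := by
    have h1 : 0 ≤ (r.factorial : ℝ) * B' ^ r := by positivity
    linarith
  set δ : ℝ := ε / (2 * M) with hδ
  have hδ0 : 0 < δ := by positivity
  have hδM : δ * M < ε := by
    calc δ * M = ε / 2 := by rw [hδ]; field_simp
      _ < ε := by linarith
  have hδ'0 : 0 < min 1 (c / 2) := lt_min one_pos (by positivity)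
  filter_upwards [hF.close (r + 1) hδ'0, hid.close r hδ0] with n hn1 hn2 i hi x
  have hsF := D.smooth F
  have hsFi := D.smooth F⁻¹
  have hsFn := D.smooth (Fn n)
  have hsFni := D.smooth (Fn n)⁻¹
  have hFnB : ∀ j, 1 ≤ j → j ≤ r → ∀ y, |iteratedDeriv j (Fn n) y| ≤ B := by
    intro j hj hjr y
    have h1 := (hn1 j (by omega) y).trans_le (min_le_left _ _)
    have h2 := hBF j hj (by omega) y
    rw [abs_lt] at h1
    rw [abs_le] at h2 ⊢
    constructor <;> linarith [h1.1, h1.2, h2.1, h2.2]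
  have hlow : ∀ y, 1 / B ≤ |deriv (Fn n) y| := by
    intro y
    have h1 := (hn1 1 (by omega) y).trans_le (min_le_right _ _)
    rw [iteratedDeriv_one, iteratedDeriv_one] at h1
    have h2 := hc y
    rw [abs_lt] at h1
    have h3 : c / 2 ≤ deriv (Fn n) y := by linarith [h1.1]
    have h4 : 1 / B ≤ c / 2 := by
      rw [div_le_iff₀ (by linarith)]
      have : c / 2 * (2 / c) = 1 := by field_simp
      nlinarith
    exact (h4.trans h3).trans (le_abs_self _)
  have hkB : ∀ j, 1 ≤ j → j ≤ r → ∀ y, |iteratedDeriv j ((Fn n)⁻¹ : D) y| ≤ B' := by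
    intro j hj hjr y
    exact hC (Fn n) ((Fn n)⁻¹ : D) y B hsFn.contDiffAt hsFni.contDiffAt
      (Eventually.of_forall fun t => D.apply_inv_self _ _) hB1 (hlow _)
      (fun j hj hjr => hFnB j hj hjr _) j hj hjr
  have hsid : Smooth (fun t : ℝ => (1 : D) t - (F⁻¹ * Fn n : D) t) :=
    (D.smooth 1).sub (D.smooth (F⁻¹ * Fn n : D))
  have hsplit : iteratedDeriv i ((Fn n)⁻¹ : D) x - iteratedDeriv i (F⁻¹ : D) x =
      iteratedDeriv i (fun y => (fun t => (1 : D) t - (F⁻¹ * Fn n : D) t) ((Fn n)⁻¹ y)) x := by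
    rw [← cv_iter_sub hsFni hsFi]
    congr 1
    funext y
    simp
  rw [hsplit]
  have h1 : |iteratedDeriv i (fun y => (fun t => (1 : D) t - (F⁻¹ * Fn n : D) t)
      ((Fn n)⁻¹ y)) x| ≤ δ * M := by
    rcases Nat.eq_zero_or_pos i with h0 | h0
    · subst h0
      simp only [iteratedDeriv_zero]
      have := hn2 0 (Nat.zero_le _) ((Fn n)⁻¹ x)
      simp only [iteratedDeriv_zero] at this
      rw [abs_sub_comm] at this
      nlinarith
    · have := comp_bd (g := fun t => (1 : D) t - (F⁻¹ * Fn n : D) t) (f := ((Fn n)⁻¹ : D))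
        (x := x) hsid.contDiffAt
        hsFni.contDiffAt (n := i) h0 (C := δ) (B := B') hδ0.le (by linarith)
        (fun j hj hji => by
          rw [cv_iter_sub (D.smooth 1) (D.smooth (F⁻¹ * Fn n : D)), abs_sub_comm]
          exact (hn2 j (by omega) _).le)
        (fun j hj hji => (hkB j hj (by omega) x).trans
          (le_self_pow₀ hB'1 (by omega)))
      refine this.trans ?_
      have h3 : (i.factorial : ℝ) * B' ^ i ≤ (r.factorial : ℝ) * B' ^ r := by
        have h4 : (i.factorial : ℝ) ≤ r.factorial := by exact_mod_cast Nat.factorial_le hi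
        have h5 : B' ^ i ≤ B' ^ r := pow_le_pow_right₀ hB'1 hi
        gcongr
      rw [hM]
      nlinarith
  exact h1.trans_lt hδM

theorem cv_pow {Fn : ℕ → D} {F : D} (hF : Conv (fun n => Fn n) F) (k : ℕ) :
    Conv (fun n => (((Fn n) ^ k : D) : ℝ → ℝ)) (F ^ k : D) := by
  induction k with
  | zero => simpa using Conv.const _
  | succ k ih =>
    simp only [pow_succ]
    exact Conv.mul ih hF

theorem Conv.zpow {Fn : ℕ → D} {F : D} (hF : Conv (fun n => Fn n) F) (k : ℤ) :
    Conv (fun n => (((Fn n) ^ k : D) : ℝ → ℝ)) (F ^ k : D) := by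
  cases k with
  | ofNat k => simpa using cv_pow hF k
  | negSucc k =>
    simp only [zpow_negSucc]
    exact Conv.inv (cv_pow hF (k + 1))

theorem cv_it_mul {H : ℝ → ℝ} {f' g' f g : D} (h1 : Intertw H f' f) (h2 : Intertw H g' g) :
    Intertw H (f' * g' : D) (f * g : D) := by
  obtain ⟨j, hj⟩ := h1
  obtain ⟨l, hl⟩ := h2
  refine ⟨l + j, fun x => ?_⟩
  rw [D.mul_apply, hj, hl, D.add_int, D.mul_apply]
  push_cast
  ring

theorem cv_it_inv {H : ℝ → ℝ} {f' f : D} (h1 : Intertw H f' f) :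
    Intertw H (f'⁻¹ : D) (f⁻¹ : D) := by
  obtain ⟨j, hj⟩ := h1
  refine ⟨-j, fun x => ?_⟩
  apply D.injective f
  rw [D.add_int, D.apply_inv_self]
  have := hj (f'⁻¹ x)
  rw [D.apply_inv_self] at this
  rw [this]
  push_cast
  ring

theorem cv_it_one {H : ℝ → ℝ} : Intertw H (1 : D) (1 : D) := ⟨0, fun x => by simp⟩

theorem cv_it_pow {H : ℝ → ℝ} {f' f : D} (h1 : Intertw H f' f) (k : ℕ) :
    Intertw H (f' ^ k : D) (f ^ k : D) := by
  induction k with
  | zero => simpa using cv_it_one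
  | succ k ih =>
    rw [pow_succ, pow_succ]
    exact cv_it_mul ih h1

theorem cv_it_zpow {H : ℝ → ℝ} {f' f : D} (h1 : Intertw H f' f) (k : ℤ) :
    Intertw H (f' ^ k : D) (f ^ k : D) := by
  cases k with
  | ofNat k => simpa using cv_it_pow h1 k
  | negSucc k =>
    rw [zpow_negSucc, zpow_negSucc]
    exact cv_it_inv (cv_it_pow h1 (k + 1))

/-- words in a commuting pair -/
theorem cv_word {F G : D} (hc : Commute F G) (a b c d i j : ℤ) :
    (F ^ a * G ^ b) ^ i * (F ^ c * G ^ d) ^ j = F ^ (a * i + c * j) * G ^ (b * i + d * j) := by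
  have h1 : (F ^ a * G ^ b) ^ i = F ^ (a * i) * G ^ (b * i) := by
    rw [(hc.zpow_zpow a b).mul_zpow, zpow_mul, zpow_mul]
  have h2 : (F ^ c * G ^ d) ^ j = F ^ (c * j) * G ^ (d * j) := by
    rw [(hc.zpow_zpow c d).mul_zpow, zpow_mul, zpow_mul]
  have h3 : G ^ (b * i) * F ^ (c * j) = F ^ (c * j) * G ^ (b * i) :=
    (hc.zpow_zpow (c * j) (b * i)).eq.symm
  calc (F ^ a * G ^ b) ^ i * (F ^ c * G ^ d) ^ j
      = F ^ (a * i) * (G ^ (b * i) * F ^ (c * j)) * G ^ (d * j) := by
        rw [h1, h2]; simp only [mul_assoc]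
    _ = F ^ (a * i + c * j) * G ^ (b * i + d * j) := by
        rw [h3, zpow_add, zpow_add]; simp only [mul_assoc]

/-- Base change. -/
theorem unst_base {F G : D} (hc : Commute F G) (a b c d : ℤ)
    (hdet : a * d - b * c = 1 ∨ a * d - b * c = -1)
    (h : Unst (F ^ a * G ^ b) (F ^ c * G ^ d)) : Unst F G := by
  obtain ⟨Xn, Yn, hcn, hX, hY, hn⟩ := h
  obtain ⟨δ, hδ⟩ : ∃ δ : ℤ, δ * (a * d - b * c) = 1 := by
    rcases hdet with h | h
    · exact ⟨1, by rw [h]; norm_num⟩
    · exact ⟨-1, by rw [h]; norm_num⟩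
  have e1 : F = (F ^ a * G ^ b) ^ (δ * d) * (F ^ c * G ^ d) ^ (-(δ * b)) := by
    rw [cv_word hc]
    have h1 : a * (δ * d) + c * (-(δ * b)) = 1 := by linear_combination hδ
    have h2 : b * (δ * d) + d * (-(δ * b)) = 0 := by ring
    rw [h1, h2]; simp
  have e2 : G = (F ^ a * G ^ b) ^ (-(δ * c)) * (F ^ c * G ^ d) ^ (δ * a) := by
    rw [cv_word hc]
    have h1 : a * (-(δ * c)) + c * (δ * a) = 0 := by ring
    have h2 : b * (-(δ * c)) + d * (δ * a) = 1 := by linear_combination hδ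
    rw [h1, h2]; simp
  refine ⟨fun n => Xn n ^ (δ * d) * Yn n ^ (-(δ * b)), fun n => Xn n ^ (-(δ * c)) * Yn n ^ (δ * a),
    ?_, ?_, ?_, ?_⟩
  · intro n
    have h1 := hcn n
    have h2 : Commute (Xn n ^ (δ * d)) (Xn n ^ (-(δ * c)) * Yn n ^ (δ * a)) :=
      ((Commute.refl (Xn n)).zpow_zpow _ _).mul_right (h1.zpow_zpow _ _)
    have h3 : Commute (Yn n ^ (-(δ * b))) (Xn n ^ (-(δ * c)) * Yn n ^ (δ * a)) :=
      (h1.symm.zpow_zpow _ _).mul_right ((Commute.refl (Yn n)).zpow_zpow _ _)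
    exact h2.mul_left h3
  · have := Conv.mul (hX.zpow (δ * d)) (hY.zpow (-(δ * b)))
    rw [← e1] at this
    exact this
  · have := Conv.mul (hX.zpow (-(δ * c))) (hY.zpow (δ * a))
    rw [← e2] at this
    exact this
  · intro n hcnj
    apply hn n
    obtain ⟨H, hH, h1, h2⟩ := hcnj
    have hw1 := cv_word (hcn n) (δ * d) (-(δ * b)) (-(δ * c)) (δ * a) a b
    have hw2 := cv_word (hcn n) (δ * d) (-(δ * b)) (-(δ * c)) (δ * a) c d
    have x1 : δ * d * a + -(δ * c) * b = 1 := by linear_combination hδ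
    have x2 : -(δ * b) * a + δ * a * b = 0 := by ring
    have x3 : δ * d * c + -(δ * c) * d = 0 := by ring
    have x4 : -(δ * b) * c + δ * a * d = 1 := by linear_combination hδ
    rw [x1, x2, zpow_one, zpow_zero, mul_one] at hw1
    rw [x3, x4, zpow_one, zpow_zero, one_mul] at hw2
    refine ⟨H, hH, ?_, ?_⟩
    · have := cv_it_mul (cv_it_zpow h1 a) (cv_it_zpow h2 b)
      rw [hw1] at this
      exact this
    · have := cv_it_mul (cv_it_zpow h1 c) (cv_it_zpow h2 d)
      rw [hw2] at this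
      exact this

/-- A faithful pair stays faithful under base change. -/
theorem faithful_base {F G : D} (hc : Commute F G) (hf : Faithful F G) (a b c d : ℤ)
    (hdet : a * d - b * c = 1 ∨ a * d - b * c = -1) :
    Faithful (F ^ a * G ^ b) (F ^ c * G ^ d) := by
  intro i j l h
  rw [cv_word hc] at h
  obtain ⟨h1, h2⟩ := hf _ _ _ h
  obtain ⟨δ, hδ⟩ : ∃ δ : ℤ, δ * (a * d - b * c) = 1 := by
    rcases hdet with h | h
    · exact ⟨1, by rw [h]; norm_num⟩
    · exact ⟨-1, by rw [h]; norm_num⟩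
  constructor
  · linear_combination (-i) * hδ + δ * d * h1 - δ * c * h2
  · linear_combination (-j) * hδ + δ * a * h2 - δ * b * h1

end Pool.Agent.Helper638.Ros
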