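import Pool.Agent.Helper638_Ros.SysDefs
import Pool.Agent.Helper638_Ros.Calc

/-!
# A free action gives a `Sys` (translation numbers)
-/

set_option autoImplicit false

namespace Pool.Agent.Helper638.Ros

open Filter Function Set Topology

/-- Freeness of the action of `⟨F, G, T⟩` on the line. -/
def FreeAct (F G : D) : Prop := ∀ g : ℤ × ℤ × ℤ, g ≠ 0 → ∀ x, act F G g x ≠ x

theorem act_add {F G : D} (hc : Commute F G) (g h : ℤ × ℤ × ℤ) :
    act F G (g + h) = act F G g * act F G h := by
  obtain ⟨a, b, c⟩ := g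
  obtain ⟨a', b', c'⟩ := h
  simp only [act, Prod.mk_add_mk, zpow_add]
  have h1 : Commute (T ^ c) (F ^ a' * G ^ b') :=
    ((T_comm F).zpow_zpow c a').mul_right ((T_comm G).zpow_zpow c b')
  have h2 : Commute (G ^ b) (F ^ a') := (hc.zpow_zpow a' b).symm
  rw [h1.mul_mul_mul_comm, h2.mul_mul_mul_comm]

/-- The `CircleDeg1Lift` of an element of `D`. -/
noncomputable def sysLift (f : D) : CircleDeg1Lift := ⟨⟨f, (D.strictMono f).monotone⟩, D.add_one f⟩

@[simp] theorem sysLift_apply (f : D) (x : ℝ) : sysLift f x = f x := rfl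

theorem sysLift_mul (f g : D) : sysLift (f * g) = sysLift f * sysLift g :=
  CircleDeg1Lift.ext (fun _ => rfl)

theorem sysLift_commute {f g : D} (h : Commute f g) : Commute (sysLift f) (sysLift g) := by
  show sysLift f * sysLift g = sysLift g * sysLift f
  rw [← sysLift_mul, ← sysLift_mul, h.eq]

/-- The translation number of an element of `D`. -/
noncomputable def sysTau (f : D) : ℝ := CircleDeg1Lift.translationNumber (sysLift f)

theorem sysTau_mul {f g : D} (h : Commute f g) : sysTau (f * g) = sysTau f + sysTau g := by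
  unfold sysTau
  rw [sysLift_mul, CircleDeg1Lift.translationNumber_mul_of_commute (sysLift_commute h)]

theorem sysTau_T : sysTau T = 1 := by
  have : sysTau T = ((1 : ℤ) : ℝ) :=
    CircleDeg1Lift.translationNumber_of_eq_add_int (f := sysLift T) (x := 0) (by simp)
  simpa using this

theorem sysTau_int {f : D} {m : ℤ} (h : sysTau f = m) : ∃ x, f x = x + m :=
  (CircleDeg1Lift.translationNumber_eq_int_iff (f := sysLift f) (D.continuous f)).1 h

theorem lt_of_sysTau_pos {f : D} (h : 0 < sysTau f) (x : ℝ) : x < f x := by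
  have h' : ((0 : ℤ) : ℝ) < CircleDeg1Lift.translationNumber (sysLift f) := by
    rw [Int.cast_zero]; exact h
  have := CircleDeg1Lift.lt_map_of_int_lt_translationNumber (f := sysLift f) h' x
  simpa using this

theorem act_T (F G : D) : act F G (0, 0, 1) = T := by simp [act]

theorem exists_sys {F G : D} (hc : Commute F G) (hf : FreeAct F G) :
    ∃ S : Sys, ∀ g, S.A g = act F G g := by
  have hcomm : ∀ g h, Commute (act F G g) (act F G h) := by
    intro g h
    show _ * _ = _ * _
    rw [← act_add hc, ← act_add hc, add_comm]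
  have hadd : ∀ g h, sysTau (act F G (g + h)) = sysTau (act F G g) + sysTau (act F G h) := by
    intro g h
    rw [act_add hc, sysTau_mul (hcomm g h)]
  refine ⟨⟨act F G, fun g => sysTau (act F G g), act_add hc, act_T F G, hadd, ?_, ?_, ?_⟩,
    fun g => rfl⟩
  · rw [act_T, sysTau_T]
  · intro g hg
    by_contra hne
    obtain ⟨x, hx⟩ := sysTau_int (f := act F G g) (m := 0) (by simpa using hg)
    exact hf g hne x (by simpa using hx)
  · intro g h hgh x
    have h1 : act F G h = act F G (h - g) * act F G g := by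
      rw [← act_add hc, sub_add_cancel]
    have h2 := hadd (h - g) g
    rw [sub_add_cancel] at h2
    have h3 : 0 < sysTau (act F G (h - g)) := by linarith
    rw [h1, D.mul_apply]
    exact lt_of_sysTau_pos h3 _

theorem Sys.exists_isL (S : Sys) : ∃ M : ℕ → ℝ, S.IsL M := by
  choose B hB0 hB using fun (g : ℤ × ℤ × ℤ) (i : ℕ) => D.log_bdd (S.A g) i
  refine ⟨fun i => B (0, 0, 0) i + B (1, 0, 0) i + B (-1, 0, 0) i + B (0, 1, 0) i +
    B (0, -1, 0) i, fun i => ?_, ?_⟩
  · have h1 := hB0 (0, 0, 0) i
    have h2 := hB0 (1, 0, 0) i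
    have h3 := hB0 (-1, 0, 0) i
    have h4 := hB0 (0, 1, 0) i
    have h5 := hB0 (0, -1, 0) i
    positivity
  · rintro ⟨a, b, c⟩ hg i x
    have hd : (fun y => Real.log (deriv (S.A (a, b, c)) y)) =
        fun y => Real.log (deriv (S.A (a, b, 0)) y) := by
      have h1 : ((S.A (a, b, c) : D) : ℝ → ℝ) = fun y => S.A (a, b, 0) y + c := by
        funext y
        have h2 : ((a, b, c) : ℤ × ℤ × ℤ) = (a, b, 0) + c • (0, 0, 1) := by
          simp
        have h3 : S.A (c • (0, 0, 1)) = T ^ c := by
          cases c with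
          | ofNat n =>
            have := S.A_nsmul n (0, 0, 1)
            rw [S.A_T] at this
            simpa using this
          | negSucc n =>
            rw [negSucc_zsmul, S.A_neg, S.A_nsmul, S.A_T, zpow_negSucc]
        rw [h2, S.A_apply_add, h3, T_zpow_apply, D.add_int]
      funext y
      rw [h1, deriv_add_const]
    rw [hd]
    have h1 := hB0 (0, 0, 0) i
    have h2 := hB0 (1, 0, 0) i
    have h3 := hB0 (-1, 0, 0) i
    have h4 := hB0 (0, 1, 0) i
    have h5 := hB0 (0, -1, 0) i
    have hk := hB (a, b, 0) i x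
    unfold len at hg
    simp only at hg
    have hcase : (a = 0 ∧ b = 0) ∨ (a = 1 ∧ b = 0) ∨ (a = -1 ∧ b = 0) ∨ (a = 0 ∧ b = 1) ∨
        (a = 0 ∧ b = -1) := by omega
    rcases hcase with ⟨rfl, rfl⟩ | ⟨rfl, rfl⟩ | ⟨rfl, rfl⟩ | ⟨rfl, rfl⟩ | ⟨rfl, rfl⟩ <;>
      linarith

end Pool.Agent.Helper638.Ros
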