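import Pool.Agent.Helper638_Ros.ThmA
import Pool.Agent.Helper638_Ros.ConvOps
import Pool.Agent.Helper638_Ros.SysMk

/-!
# Case 1: free actions are not structurally stable
-/

set_option autoImplicit false

namespace Pool.Agent.Helper638.Ros

open Filter Function Set Topology

/-- A function with nonvanishing derivative and `H (x + 1) = H x + 1` is strictly increasing. -/
theorem case1_strictMono {H : ℝ → ℝ} (hs : Smooth H) (hne : ∀ x, deriv H x ≠ 0)
    (h1 : ∀ x, H (x + 1) = H x + 1) : StrictMono H := by
  have hc : Continuous (deriv H) := hs.continuous_deriv (by simp)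
  have hex : ∃ b, 0 < deriv H b := by
    by_contra hcon
    push Not at hcon
    have : StrictAnti H := strictAnti_of_deriv_neg (fun x => lt_of_le_of_ne (hcon x) (hne x))
    have h2 := this (show (0 : ℝ) < 0 + 1 by norm_num)
    rw [h1] at h2
    linarith
  obtain ⟨b, hb⟩ := hex
  refine strictMono_of_deriv_pos fun x => ?_
  by_contra hx
  obtain ⟨y, hy⟩ := mem_range_of_exists_le_of_exists_ge hc ⟨x, not_lt.1 hx⟩ ⟨b, hb.le⟩
  exact hne y hy

/-- The lift `x ↦ - f (-x)`. -/
noncomputable def case1_neg (f : CircleDeg1Lift) : CircleDeg1Lift :=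
  ⟨⟨fun x => -f (-x), fun x y h => neg_le_neg (f.monotone (neg_le_neg h))⟩, fun x => by
    show -f (-(x + 1)) = -f (-x) + 1
    have h := f.map_add_one (-(x + 1))
    have e : -(x + 1) + 1 = -x := by ring
    rw [e] at h
    rw [h]; ring⟩

theorem case1_neg_iter (f : CircleDeg1Lift) (n : ℕ) (x : ℝ) :
    (case1_neg f ^ n) x = -(f ^ n) (-x) := by
  induction n generalizing x with
  | zero => simp
  | succ n ih =>
    rw [pow_succ, pow_succ, CircleDeg1Lift.mul_apply, CircleDeg1Lift.mul_apply, ih]
    congr 2
    show -(-f (-x)) = f (-x)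
    ring

theorem case1_neg_tau (f : CircleDeg1Lift) :
    (case1_neg f).translationNumber = -f.translationNumber := by
  have h1 := CircleDeg1Lift.tendsto_translationNumber (f := case1_neg f) 0
  have h2 := (CircleDeg1Lift.tendsto_translationNumber (f := f) 0).neg
  refine tendsto_nhds_unique h1 (h2.congr fun n => ?_)
  rw [case1_neg_iter, neg_zero]
  ring

/-- the degree one lift given by a strictly increasing function -/
noncomputable def case1_lift (H : ℝ → ℝ) (hm : Monotone H) (h1 : ∀ x, H (x + 1) = H x + 1) :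
    CircleDeg1Lift := ⟨⟨H, hm⟩, h1⟩

theorem case1_inc {H : ℝ → ℝ} (hm : Monotone H) (h1 : ∀ x, H (x + 1) = H x + 1) {f' f : D}
    {j : ℤ} (h : ∀ x, H (f' x) = f (H x) + j) : sysTau f' = sysTau f + j := by
  have h2 : CircleDeg1Lift.translationNumber (sysLift f') =
      CircleDeg1Lift.translationNumber (sysLift (T ^ j * f)) := by
    refine CircleDeg1Lift.translationNumber_eq_of_semiconj (f := case1_lift H hm h1) ?_
    intro x
    show H (f' x) = (T ^ j * f : D) (H x)
    rw [D.mul_apply, T_zpow_apply, h]
  have h3 : sysTau (T ^ j * f) = sysTau (T ^ j) + sysTau f :=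
    sysTau_mul ((T_comm f).zpow_left j)
  have h4 : sysTau (T ^ j) = j :=
    CircleDeg1Lift.translationNumber_of_eq_add_int (f := sysLift (T ^ j)) (x := 0) (by
      rw [sysLift_apply, T_zpow_apply])
  have h5 : sysTau f' = sysTau (T ^ j * f) := h2
  rw [h5, h3, h4]; ring

theorem case1_dec {H : ℝ → ℝ} (hm : Monotone (fun x => -H x))
    (h1 : ∀ x, H (x + 1) = H x - 1) {f' f : D}
    {j : ℤ} (h : ∀ x, H (f' x) = f (H x) + j) : sysTau f' = -sysTau f - j := by
  have h2 : CircleDeg1Lift.translationNumber (sysLift f') =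
      CircleDeg1Lift.translationNumber (case1_neg (sysLift (T ^ j * f))) := by
    refine CircleDeg1Lift.translationNumber_eq_of_semiconj
      (f := case1_lift (fun x => -H x) hm (fun x => by rw [h1]; ring)) ?_
    intro x
    show -H (f' x) = -(T ^ j * f : D) (-(-H x))
    rw [D.mul_apply, T_zpow_apply, h, neg_neg]
  rw [case1_neg_tau] at h2
  have h3 : sysTau (T ^ j * f) = sysTau (T ^ j) + sysTau f :=
    sysTau_mul ((T_comm f).zpow_left j)
  have h4 : sysTau (T ^ j) = j :=
    CircleDeg1Lift.translationNumber_of_eq_add_int (f := sysLift (T ^ j)) (x := 0) (by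
      rw [sysLift_apply, T_zpow_apply])
  have h5 : sysTau f' = -sysTau (T ^ j * f) := h2
  rw [h5, h3, h4]; ring

theorem case1 {F G : D} (hc : Commute F G) (hf : FreeAct F G) : Unst F G := by
  obtain ⟨S, hS⟩ := exists_sys hc hf
  choose g hg hcl using fun n : ℕ => thmA S n (1 / ((n : ℝ) + 1)) (by positivity)
  have hV : Conv (fun n => ((S.A (g n) : D) : ℝ → ℝ)) ((1 : D) : ℝ → ℝ) := by
    refine conv_of_close fun r ε hε => ?_
    obtain ⟨N, hN⟩ := exists_nat_one_div_lt hε
    filter_upwards [eventually_ge_atTop (max r N)] with n hn i hi x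
    have h1 := hcl n i (hi.trans ((le_max_left _ _).trans hn)) x
    refine h1.trans (lt_of_le_of_lt ?_ hN)
    apply one_div_le_one_div_of_le (by positivity)
    have : (N : ℝ) ≤ n := by exact_mod_cast (le_max_right _ _).trans hn
    linarith
  have hF : S.A (1, 0, 0) = F := by rw [hS]; simp [act]
  have hG : S.A (0, 1, 0) = G := by rw [hS]; simp [act]
  have hcF : ∀ h, Commute F (S.A h) := fun h => by
    rw [← hF]; exact S.A_comm _ _
  have hcG : ∀ h, Commute (S.A h) G := fun h => by
    rw [← hG]; exact S.A_comm _ _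
  refine ⟨fun n => F * S.A (g n), fun _ => G, fun n => hc.mul_left (hcG _), ?_, Conv.const _, ?_⟩
  · have := (Conv.const (F : ℝ → ℝ)).mul (Fn := fun _ => F) hV
    rwa [mul_one] at this
  · rintro n ⟨H, hH, ⟨j, hj⟩, ⟨j', hj'⟩⟩
    rcases hH.per with h1 | h1
    · have hm := (case1_strictMono hH.smooth hH.ne h1).monotone
      have h2 := case1_inc hm h1 hj
      rw [sysTau_mul (hcF _)] at h2
      have h3 : sysTau (S.A (g n)) = j := by linarith
      obtain ⟨x, hx⟩ := sysTau_int h3
      have h4 := hcl n 0 (Nat.zero_le _) x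
      rw [iteratedDeriv_zero, iteratedDeriv_zero, hx] at h4
      have h5 : |(j : ℝ)| < 1 := by
        have e : x + (j : ℝ) - x = j := by ring
        rw [e] at h4
        refine h4.trans_le ?_
        rw [div_le_one (by positivity)]
        linarith [Nat.cast_nonneg (α := ℝ) n]
      have h6 : j = 0 := by
        have : |j| < 1 := by exact_mod_cast h5
        exact Int.abs_lt_one_iff.1 this
      subst h6
      refine hf (g n) ?_ x ?_
      · intro h0
        apply hg n
        rw [h0]; rfl
      · rw [← hS]; simpa using hx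
    · have hm : StrictMono (fun x => -H x) := by
        refine case1_strictMono hH.smooth.neg (fun x => ?_) (fun x => by rw [h1]; ring)
        rw [deriv.fun_neg]
        exact neg_ne_zero.2 (hH.ne x)
      have h2 := case1_dec hm.monotone h1 hj'
      have h3 : sysTau (G * G) = ((-j' : ℤ) : ℝ) := by
        rw [sysTau_mul (Commute.refl G)]
        push_cast
        linarith
      obtain ⟨x, hx⟩ := sysTau_int h3
      refine hf (0, 2, j') (by simp) x ?_
      simp only [act, zpow_zero, one_mul]
      have e : (G ^ (2 : ℤ) : D) = G * G := by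
        rw [show (2 : ℤ) = ((2 : ℕ) : ℤ) from rfl, zpow_natCast, pow_two]
      rw [e, D.mul_apply, T_zpow_apply, D.add_int, hx]
      push_cast
      ring

end Pool.Agent.Helper638.Ros
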