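import Pool.Agent.Helper638_Ros.Sys2Defs

/-!
# Smooth gluing and periodisation

`ind_smooth` : the indicator of a set times a smooth function which is flat on the frontier.
`perD` : the element of `D` equal on `[z, z + 1)` to a diffeomorphism of the line which is the
identity off `(z, z₁)`, where `z < z₁ ≤ z + 1`.
-/

set_option autoImplicit false

namespace Pool.Agent.Helper638.Ros

open Filter Function Set Topology

/-! ### Gluing -/

theorem per_ind_hasDerivAt {U : Set ℝ} {φ : ℝ → ℝ} (hφ : Differentiable ℝ φ)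
    (h0 : ∀ x ∈ frontier U, φ x = 0) (h1 : ∀ x ∈ frontier U, deriv φ x = 0) (x : ℝ) :
    HasDerivAt (U.indicator φ) (U.indicator (deriv φ) x) x := by
  by_cases hx : x ∈ frontier U
  · have e0 : U.indicator φ x = 0 := by
      by_cases h : x ∈ U
      · rw [indicator_of_mem h, h0 x hx]
      · rw [indicator_of_notMem h]
    have e1 : U.indicator (deriv φ) x = 0 := by
      by_cases h : x ∈ U
      · rw [indicator_of_mem h, h1 x hx]
      · rw [indicator_of_notMem h]
    rw [e1, hasDerivAt_iff_isLittleO]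
    have h2 := (hφ x).hasDerivAt
    rw [h1 x hx, hasDerivAt_iff_isLittleO] at h2
    refine Asymptotics.IsBigO.trans_isLittleO (Asymptotics.IsBigO.of_bound 1 ?_) h2
    refine Eventually.of_forall fun y => ?_
    simp only [e0, h0 x hx, smul_zero, sub_zero, one_mul, Real.norm_eq_abs]
    by_cases h : y ∈ U
    · rw [indicator_of_mem h]
    · rw [indicator_of_notMem h, abs_zero]
      exact abs_nonneg _
  · by_cases hU : x ∈ interior U
    · have h3 : U.indicator φ =ᶠ[𝓝 x] φ := by
        filter_upwards [mem_interior_iff_mem_nhds.1 hU] with y hy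
        exact indicator_of_mem hy _
      rw [indicator_of_mem (interior_subset hU)]
      exact ((hφ x).hasDerivAt).congr_of_eventuallyEq h3
    · have hc : x ∉ closure U := fun h => hx ⟨h, hU⟩
      have h3 : U.indicator φ =ᶠ[𝓝 x] fun _ => 0 := by
        filter_upwards [isClosed_closure.isOpen_compl.mem_nhds hc] with y hy
        exact indicator_of_notMem (fun h => hy (subset_closure h)) _
      rw [indicator_of_notMem (fun h => hc (subset_closure h))]
      exact (hasDerivAt_const x (0 : ℝ)).congr_of_eventuallyEq h3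

theorem per_ind_deriv {U : Set ℝ} {φ : ℝ → ℝ} (hφ : Differentiable ℝ φ)
    (h0 : ∀ x ∈ frontier U, φ x = 0) (h1 : ∀ x ∈ frontier U, deriv φ x = 0) :
    deriv (U.indicator φ) = U.indicator (deriv φ) :=
  funext fun x => (per_ind_hasDerivAt hφ h0 h1 x).deriv

theorem per_smooth_deriv {φ : ℝ → ℝ} (hφ : Smooth φ) : Smooth (deriv φ) :=
  (contDiff_infty_iff_deriv.1 hφ).2

theorem per_smooth_diff {φ : ℝ → ℝ} (hφ : Smooth φ) : Differentiable ℝ φ :=
  hφ.differentiable (by simp)

theorem per_smooth_iter {φ : ℝ → ℝ} (hφ : Smooth φ) (i : ℕ) : Smooth (iteratedDeriv i φ) := by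
  induction i with
  | zero => simpa using hφ
  | succ i ih => rw [iteratedDeriv_succ]; exact per_smooth_deriv ih

theorem per_smoothAt {φ : ℝ → ℝ} (hφ : Smooth φ) (x : ℝ) : SmoothAt φ x := hφ.contDiffAt

theorem ind_iter {U : Set ℝ} : ∀ (i : ℕ) {φ : ℝ → ℝ}, Smooth φ →
    (∀ i, ∀ x ∈ frontier U, iteratedDeriv i φ x = 0) →
    iteratedDeriv i (U.indicator φ) = U.indicator (iteratedDeriv i φ) := by
  intro i
  induction i with
  | zero => intro φ _ _; simp
  | succ i ih =>
    intro φ hφ h
    rw [iteratedDeriv_succ', iteratedDeriv_succ', per_ind_deriv (per_smooth_diff hφ)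
      (fun x hx => by simpa using h 0 x hx) (fun x hx => by simpa using h 1 x hx)]
    exact ih (per_smooth_deriv hφ) fun j x hx => by
      have := h (j + 1) x hx
      rwa [iteratedDeriv_succ'] at this

/-- Smooth gluing. -/
theorem ind_smooth {U : Set ℝ} {φ : ℝ → ℝ} (hφ : Smooth φ)
    (h : ∀ i, ∀ x ∈ frontier U, iteratedDeriv i φ x = 0) : Smooth (U.indicator φ) := by
  refine contDiff_infty.2 ?_
  intro n
  induction n generalizing φ with
  | zero =>
    rw [Nat.cast_zero, contDiff_zero]
    have : Differentiable ℝ (U.indicator φ) := fun x =>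
      (per_ind_hasDerivAt (per_smooth_diff hφ) (fun x hx => by simpa using h 0 x hx)
        (fun x hx => by simpa using h 1 x hx) x).differentiableAt
    exact this.continuous
  | succ n ih =>
    have h01 := per_ind_deriv (per_smooth_diff hφ) (fun x hx => by simpa using h 0 x hx)
        (fun x hx => by simpa using h 1 x hx)
    push_cast
    rw [contDiff_succ_iff_deriv]
    refine ⟨fun x => (per_ind_hasDerivAt (per_smooth_diff hφ) (fun x hx => by simpa using h 0 x hx)
        (fun x hx => by simpa using h 1 x hx) x).differentiableAt, by simp, ?_⟩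
    rw [h01]
    exact ih (per_smooth_deriv hφ) fun j x hx => by
      have := h (j + 1) x hx
      rwa [iteratedDeriv_succ'] at this

/-- A smooth function which vanishes on an open set has vanishing derivatives on the closure. -/
theorem iter_zero_of_closure {φ : ℝ → ℝ} (hφ : Smooth φ) {U : Set ℝ} (hU : IsOpen U)
    (h : ∀ x ∈ U, φ x = 0) (i : ℕ) {x : ℝ} (hx : x ∈ closure U) : iteratedDeriv i φ x = 0 := by
  have h1 : U ⊆ {y | iteratedDeriv i φ y = 0} := by
    intro y hy
    have h2 : φ =ᶠ[𝓝 y] fun _ => 0 := by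
      filter_upwards [hU.mem_nhds hy] with t ht
      exact h t ht
    rw [mem_ofPred_eq, h2.iteratedDeriv_eq i, iteratedDeriv_const]
    split_ifs <;> rfl
  have h3 : IsClosed {y | iteratedDeriv i φ y = 0} :=
    isClosed_eq (per_smooth_iter hφ i).continuous continuous_const
  exact (closure_minimal h1 h3) hx

/-! ### Periodisation -/

/-- A diffeomorphism of the line which is the identity off `(z, z₁)`, with `z < z₁ ≤ z + 1`. -/
structure PerOK (z z₁ : ℝ) (κ : ℝ → ℝ) : Prop where
  lt : z < z₁
  le : z₁ ≤ z + 1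
  smooth : Smooth κ
  pos : ∀ x, 0 < deriv κ x
  off : ∀ x, x ∉ Ioo z z₁ → κ x = x

/-- the periodisation -/
noncomputable def per (z : ℝ) (κ : ℝ → ℝ) : ℝ → ℝ := fun x => κ (x - ⌊x - z⌋) + ⌊x - z⌋

section per

variable {z z₁ : ℝ} {κ : ℝ → ℝ}

theorem per_of_mem {x : ℝ} {n : ℤ} (h1 : z + n ≤ x) (h2 : x < z + n + 1) :
    per z κ x = κ (x - n) + n := by
  have : ⌊x - z⌋ = n := by
    rw [Int.floor_eq_iff]
    constructor <;> linarith
  unfold per
  rw [this]

theorem per_local (h : PerOK z z₁ κ) {x : ℝ} {n : ℤ} (h1 : z + n - 1 < x) (h2 : x < z + n + 1) :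
    per z κ x = κ (x - n) + n + (κ (x - n + 1) - (x - n + 1)) := by
  by_cases hx : z + n ≤ x
  · rw [per_of_mem hx h2, h.off (x - n + 1) (fun hh => by
      have := h.le; have := hh.2; linarith)]
    ring
  · push Not at hx
    have h3 : per z κ x = κ (x - (n - 1 : ℤ)) + (n - 1 : ℤ) := by
      refine per_of_mem ?_ ?_
      · push_cast; linarith
      · push_cast; linarith
    rw [h3, h.off (x - n) (fun hh => by have := hh.1; linarith)]
    push_cast
    have : x - ((n : ℝ) - 1) = x - n + 1 := by ring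
    rw [this]
    ring

theorem per_eventually (h : PerOK z z₁ κ) (x : ℝ) :
    per z κ =ᶠ[𝓝 x] fun y => κ (y - ⌊x - z⌋) + ⌊x - z⌋ +
      (κ (y - ⌊x - z⌋ + 1) - (y - ⌊x - z⌋ + 1)) := by
  have h1 := Int.floor_le (x - z)
  have h2 := Int.lt_floor_add_one (x - z)
  have h3 : Ioo (z + ⌊x - z⌋ - 1) (z + ⌊x - z⌋ + 1) ∈ 𝓝 x :=
    Ioo_mem_nhds (by linarith) (by linarith)
  filter_upwards [h3] with y hy
  exact per_local h hy.1 hy.2

theorem per_loc_smooth (h : PerOK z z₁ κ) (c : ℝ) :
    Smooth (fun y => κ (y - c) + c + (κ (y - c + 1) - (y - c + 1))) := by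
  have h1 : Smooth (fun y => κ (y - c)) := h.smooth.comp (contDiff_id.sub contDiff_const)
  have h2 : Smooth (fun y => κ (y - c + 1)) :=
    h.smooth.comp ((contDiff_id.sub contDiff_const).add contDiff_const)
  exact (h1.add contDiff_const).add (h2.sub ((contDiff_id.sub contDiff_const).add contDiff_const))

theorem per_smooth (h : PerOK z z₁ κ) : Smooth (per z κ) := by
  refine contDiff_iff_contDiffAt.2 ?_
  intro x
  exact ((per_loc_smooth h _).contDiffAt).congr_of_eventuallyEq (per_eventually h x)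

theorem per_flat_right (h : PerOK z z₁ κ) (i : ℕ) {x : ℝ} (hx : z₁ ≤ x) :
    iteratedDeriv i (fun y => κ y - y) x = 0 := by
  refine iter_zero_of_closure (h.smooth.sub contDiff_id) (U := Ioi z₁) isOpen_Ioi ?_ i ?_
  · intro y hy
    have := h.off y (fun hh => lt_asymm hh.2 hy)
    simp [this]
  · rw [closure_Ioi]
    exact hx

theorem per_iter (h : PerOK z z₁ κ) (i : ℕ) (x : ℝ) :
    iteratedDeriv i (per z κ) x =
      iteratedDeriv i κ (x - ⌊x - z⌋) + (if i = 0 then (⌊x - z⌋ : ℝ) else 0) := by
  set n : ℤ := ⌊x - z⌋ with hn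
  have h1 := Int.floor_le (x - z)
  rw [← hn] at h1
  rw [(per_eventually h x).iteratedDeriv_eq i, ← hn]
  have h2 : Smooth (fun y => κ (y - n) + (n : ℝ)) :=
    (h.smooth.comp (contDiff_id.sub contDiff_const)).add contDiff_const
  have h3 : Smooth (fun y => κ (y - n + 1) - (y - n + 1)) :=
    (h.smooth.comp ((contDiff_id.sub contDiff_const).add contDiff_const)).sub
      ((contDiff_id.sub contDiff_const).add contDiff_const)
  rw [iteratedDeriv_fun_add (h2.contDiffAt.of_le (by exact_mod_cast le_top))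
    (h3.contDiffAt.of_le (by exact_mod_cast le_top))]
  have e1 : (fun y : ℝ => κ (y - n + 1) - (y - n + 1)) =
      fun y => (fun t => κ t - t) (y + (1 - n)) := by
    funext y
    have : y - n + 1 = y + (1 - n) := by ring
    simp only [this]
  rw [e1, congrFun (iteratedDeriv_comp_add_const i (fun t => κ t - t) (1 - (n : ℝ))) x,
    per_flat_right h i (by have := h.le; linarith), add_zero]
  have h4 : Smooth (fun y => κ (y - (n : ℝ))) := h.smooth.comp (contDiff_id.sub contDiff_const)
  rw [iteratedDeriv_fun_add (h4.contDiffAt.of_le (by exact_mod_cast le_top)) contDiffAt_const,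
    iteratedDeriv_comp_sub_const, iteratedDeriv_const]

theorem per_isD (h : PerOK z z₁ κ) : IsD (per z κ) := by
  refine ⟨per_smooth h, fun x => ?_, fun x => ?_⟩
  · unfold per
    have : ⌊x + 1 - z⌋ = ⌊x - z⌋ + 1 := by
      have : x + 1 - z = x - z + 1 := by ring
      rw [this, Int.floor_add_one]
    rw [this]
    push_cast
    have : x + 1 - ((⌊x - z⌋ : ℝ) + 1) = x - ⌊x - z⌋ := by ring
    rw [this]
    ring
  · have := per_iter h 1 x
    rw [iteratedDeriv_one, iteratedDeriv_one, if_neg (by norm_num), add_zero] at this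
    rw [this]
    exact h.pos _

/-- the periodisation as an element of `D` -/
noncomputable def perD (h : PerOK z z₁ κ) : D := mk (per z κ) (per_isD h)

theorem perD_coe (h : PerOK z z₁ κ) : ((perD h : D) : ℝ → ℝ) = per z κ := rfl

theorem PerOK.fix_left (h : PerOK z z₁ κ) : κ z = z := h.off z (fun hh => lt_irrefl _ hh.1)

theorem perD_apply (h : PerOK z z₁ κ) {x : ℝ} (hx : x ∈ Icc z (z + 1)) : perD h x = κ x := by
  rw [perD_coe]
  rcases hx.2.lt_or_eq with h2 | h2
  · have := per_of_mem (z := z) (κ := κ) (x := x) (n := 0) (by simpa using hx.1) (by simpa using h2)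
    simpa using this
  · have := per_of_mem (z := z) (κ := κ) (x := x) (n := 1) (by push_cast; linarith)
      (by push_cast; linarith)
    rw [this]
    push_cast
    have e : x - 1 = z := by linarith
    rw [e, h.fix_left, h.off x (fun hh => by have := h.le; have := hh.2; linarith)]
    linarith

theorem perD_supp (h : PerOK z z₁ κ) : SuppJ z z₁ (perD h) := by
  intro x hx
  rw [perD_coe]
  unfold per
  rw [h.off (x - ⌊x - z⌋)]
  · ring
  · have := hx (-⌊x - z⌋)
    push_cast at this
    rwa [← sub_eq_add_neg] at this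

theorem perD_suppC (h : PerOK z z₁ κ) {c₁ c₂ : ℝ} (hc : ∀ x, x ∉ Icc c₁ c₂ → κ x = x) :
    SuppC c₁ c₂ (perD h) := by
  intro x hx
  rw [perD_coe]
  unfold per
  rw [hc (x - ⌊x - z⌋)]
  · ring
  · have := hx (-⌊x - z⌋)
    push_cast at this
    rwa [← sub_eq_add_neg] at this

/-- two elements of `D` which agree on `[z, z + 1]` are equal -/
theorem D_ext_Icc {f g : D} {z : ℝ} (h : ∀ x ∈ Icc z (z + 1), f x = g x) : f = g := by
  refine D.ext fun x => ?_
  have h1 := Int.floor_le (x - z)
  have h2 := Int.lt_floor_add_one (x - z)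
  have h3 := h (x - ⌊x - z⌋) ⟨by linarith, by linarith⟩
  have e : x = x - ⌊x - z⌋ + ⌊x - z⌋ := by ring
  rw [e, D.add_int, D.add_int, h3]

/-- Convergence carries over to the periodisations. -/
theorem perD_conv {κn : ℕ → ℝ → ℝ} (hn : ∀ n, PerOK z z₁ (κn n)) (h : PerOK z z₁ κ)
    (hc : Conv κn κ) : Conv (fun n => perD (hn n)) (perD h) := by
  intro i
  have h1 := hc i
  rw [Metric.tendstoUniformly_iff] at h1 ⊢
  intro ε hε
  filter_upwards [h1 ε hε] with n hn' x
  rw [perD_coe, perD_coe, per_iter h, per_iter (hn n), dist_add_right]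
  exact hn' _

/-- Version with bounds on a period only. -/
theorem perD_conv' {κn : ℕ → ℝ → ℝ} (hn : ∀ n, PerOK z z₁ (κn n)) (h : PerOK z z₁ κ)
    (hc : ∀ i : ℕ, ∀ ε > 0, ∀ᶠ n in atTop, ∀ x ∈ Icc z z₁,
      |iteratedDeriv i (κn n) x - iteratedDeriv i κ x| < ε) :
    Conv (fun n => perD (hn n)) (perD h) := by
  refine perD_conv hn h ?_
  intro i
  rw [Metric.tendstoUniformly_iff]
  intro ε hε
  filter_upwards [hc i ε hε] with n hn' x
  rw [dist_comm, Real.dist_eq]
  by_cases hx : x ∈ Icc z z₁
  · exact hn' x hx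
  · have h4 : κn n =ᶠ[𝓝 x] κ := by
      filter_upwards [isClosed_Icc.isOpen_compl.mem_nhds hx] with y hy
      have hy' : y ∉ Ioo z z₁ := fun hh => hy (Ioo_subset_Icc_self hh)
      rw [(hn n).off y hy', h.off y hy']
    rw [h4.iteratedDeriv_eq i, sub_self, abs_zero]
    exact hε

theorem PerOK.id (h1 : z < z₁) (h2 : z₁ ≤ z + 1) : PerOK z z₁ (fun x => x) :=
  ⟨h1, h2, contDiff_id, fun x => by simp, fun x _ => rfl⟩

theorem perD_id (h : PerOK z z₁ (fun x => x)) : perD h = 1 := by
  refine D.ext fun x => ?_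
  rw [perD_coe]
  simp [per]

/-- the identity as the limit -/
theorem perD_conv_one {κn : ℕ → ℝ → ℝ} (hn : ∀ n, PerOK z z₁ (κn n))
    (hc : ∀ i : ℕ, ∀ ε > 0, ∀ᶠ n in atTop, ∀ x ∈ Icc z z₁,
      |iteratedDeriv i (fun y => κn n y - y) x| < ε) :
    Conv (fun n => perD (hn n)) (1 : D) := by
  have h0 : PerOK z z₁ (fun x => x) := PerOK.id (hn 0).lt (hn 0).le
  rw [← perD_id h0]
  refine perD_conv' hn h0 fun i ε hε => ?_
  filter_upwards [hc i ε hε] with n hn' x hx
  have := hn' x hx
  rwa [iteratedDeriv_fun_sub (g := fun y : ℝ => y)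
    ((hn n).smooth.contDiffAt.of_le (by exact_mod_cast le_top))
    (contDiffAt_id.of_le le_top)] at this

end per

end Pool.Agent.Helper638.Ros
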