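import Pool.Agent.Helper638_Ros.Ext
import Pool.Agent.Helper638_Ros.Per

/-!
# The flat case (paper 2.4): preparations
-/

set_option autoImplicit false

namespace Pool.Agent.Helper638.Ros

open Filter Function Set Topology

/-- flatness is transported by elements of the centraliser -/
theorem flat_transport {f h : D} (hc : Commute f h) {z : ℝ} (hf : Flat f z) : Flat f (h z) := by
  intro i
  have hfz : f z = z := by
    have := hf 0
    simp only [iteratedDeriv_zero] at this
    linarith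
  set x := h z with hx
  have hix : h⁻¹ x = z := by rw [hx]; simp
  have hcomm : ∀ y, f (h y) = h (f y) := fun y => by
    have := congrArg (fun k : D => k y) hc.eq
    exact this
  have e1 : (fun y => f y - y) = fun y => h ((f * h⁻¹ : D) y) - h ((h⁻¹ : D) y) := by
    funext y
    rw [D.mul_apply, ← hcomm, D.apply_inv_self]
  rw [e1]
  have e2 : (fun y => (f * h⁻¹ : D) y - (h⁻¹ : D) y) = fun y => (fun t => f t - t) ((h⁻¹ : D) y) := by
    funext y
    rw [D.mul_apply]
  have hsm : Smooth (fun t => f t - t) := (D.smooth f).sub contDiff_id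
  obtain ⟨C, e, hC, key⟩ := comp_sub_bd i
  let B : ℝ := 1 + ∑ j ∈ Finset.range (i + 2), (|iteratedDeriv j h z| +
    |iteratedDeriv j ((f * h⁻¹ : D)) x| + |iteratedDeriv j ((h⁻¹ : D)) x|)
  have hnn : ∀ j ∈ Finset.range (i + 2), 0 ≤ (|iteratedDeriv j h z| +
    |iteratedDeriv j ((f * h⁻¹ : D)) x| + |iteratedDeriv j ((h⁻¹ : D)) x|) := fun j _ => by positivity
  have hB1 : 1 ≤ B := by
    have := Finset.sum_nonneg hnn
    simp only [B]
    linarith
  have hB : ∀ j, j ≤ i + 1 → |iteratedDeriv j h z| ≤ B ∧ |iteratedDeriv j ((f * h⁻¹ : D)) x| ≤ B ∧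
      |iteratedDeriv j ((h⁻¹ : D)) x| ≤ B := by
    intro j hj
    have h1 := Finset.single_le_sum hnn (Finset.mem_range.2 (show j < i + 2 by omega))
    have a1 := abs_nonneg (iteratedDeriv j h z)
    have a2 := abs_nonneg (iteratedDeriv j ((f * h⁻¹ : D)) x)
    have a3 := abs_nonneg (iteratedDeriv j ((h⁻¹ : D)) x)
    simp only [B]
    refine ⟨?_, ?_, ?_⟩ <;> linarith
  have hf1 : (f * h⁻¹ : D) x = z := by rw [D.mul_apply, hix, hfz]
  have h0 : ∀ j, j ≤ i → |iteratedDeriv j (fun y => (f * h⁻¹ : D) y - (h⁻¹ : D) y) x| ≤ 0 := by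
    intro j hj
    rw [e2]
    rcases Nat.eq_zero_or_pos j with rfl | hj0
    · simp only [iteratedDeriv_zero, hix, hfz]
      simp
    · have h2 := comp_bd (g := fun t => f t - t) (f := (h⁻¹ : D)) (x := x) (n := j)
        (C := 0) (B := B) (per_smoothAt hsm _) (per_smoothAt (D.smooth _) _) hj0 le_rfl (by linarith)
        (fun l _ _ => by rw [hix, hf l]; simp)
        (fun l hl hlj => (hB l (by omega)).2.2.trans (by
          calc B = B ^ 1 := (pow_one B).symm
            _ ≤ B ^ l := pow_le_pow_right₀ hB1 hl))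
      simpa using h2
  have := key h (f * h⁻¹ : D) (h⁻¹ : D) x B 0 hB1 le_rfl (fun t _ => per_smoothAt (D.smooth _) _)
    (per_smoothAt (D.smooth _) _) (per_smoothAt (D.smooth _) _)
    (fun j hj hj' t ht => by
      rw [hf1, hix, uIcc_self, mem_singleton_iff] at ht
      rw [ht]
      exact (hB j hj').1)
    (fun j hj hj' => ⟨(hB j (by omega)).2.1, (hB j (by omega)).2.2⟩) h0 i le_rfl
  rw [mul_zero] at this
  exact abs_eq_zero.1 (le_antisymm this (abs_nonneg _))

/-- displacement functions -/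
structure Disp (z z₁ : ℝ) (φ : ℝ → ℝ) : Prop where
  lt : z < z₁
  le : z₁ ≤ z + 1
  smooth : Smooth φ
  off : ∀ x, x ∉ Ioo z z₁ → φ x = 0
  pos : ∀ x, 0 < 1 + deriv φ x

section disp

variable {z z₁ : ℝ} {φ ψ : ℝ → ℝ}

theorem Disp.perOK (h : Disp z z₁ φ) : PerOK z z₁ (fun x => x + φ x) := by
  refine ⟨h.lt, h.le, contDiff_id.add h.smooth, fun x => ?_, fun x hx => ?_⟩
  · rw [deriv_fun_add differentiableAt_fun_id (per_smooth_diff h.smooth x), deriv_id'']
    exact h.pos x
  · rw [h.off x hx, add_zero]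

/-- the displacement function of an element of `D` restricted to `[z, z₁]` -/
theorem disp_of_flat {f : D} (hlt : z < z₁) (hle : z₁ ≤ z + 1) (h0 : Flat f z) (h1 : Flat f z₁) :
    Disp z z₁ ((Icc z z₁).indicator fun y => f y - y) := by
  have hsm : Smooth (fun y => f y - y) := (D.smooth f).sub contDiff_id
  have hfr : ∀ i, ∀ x ∈ frontier (Icc z z₁), iteratedDeriv i (fun y => f y - y) x = 0 := by
    intro i x hx
    rw [frontier_Icc hlt.le] at hx
    rcases hx with rfl | hx
    · exact h0 i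
    · rw [mem_singleton_iff.1 hx]
      exact h1 i
  refine ⟨hlt, hle, ind_smooth hsm hfr, fun x hx => ?_, fun x => ?_⟩
  · by_cases h : x ∈ Icc z z₁
    · rw [indicator_of_mem h]
      have : x = z ∨ x = z₁ := by
        by_contra hcon
        push Not at hcon
        exact hx ⟨lt_of_le_of_ne h.1 (Ne.symm hcon.1), lt_of_le_of_ne h.2 hcon.2⟩
      rcases this with rfl | rfl
      · simpa using h0 0
      · simpa using h1 0
    · rw [indicator_of_notMem h]
  · rw [per_ind_deriv (per_smooth_diff hsm) (fun x hx => by simpa using hfr 0 x hx)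
      (fun x hx => by simpa using hfr 1 x hx)]
    by_cases h : x ∈ Icc z z₁
    · rw [indicator_of_mem h, deriv_fun_sub (D.differentiable f x) differentiableAt_fun_id, deriv_id'']
      have := D.pos f x
      linarith
    · rw [indicator_of_notMem h]
      norm_num

/-- the derivatives vanish off `(z, z₁)` -/
theorem Disp.iter_off (h : Disp z z₁ φ) (i : ℕ) {x : ℝ} (hx : x ∉ Ioo z z₁) :
    iteratedDeriv i φ x = 0 := by
  by_cases h1 : x ≤ z
  · refine iter_zero_of_closure h.smooth (U := Iio z) isOpen_Iio ?_ i ?_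
    · intro y hy
      exact h.off y (fun hh => lt_asymm hh.1 hy)
    · rw [closure_Iio]
      exact h1
  · have h2 : z₁ ≤ x := by
      by_contra hcon
      exact hx ⟨not_le.1 h1, not_le.1 hcon⟩
    refine iter_zero_of_closure h.smooth (U := Ioi z₁) isOpen_Ioi ?_ i ?_
    · intro y hy
      exact h.off y (fun hh => lt_asymm hh.2 hy)
    · rw [closure_Ioi]
      exact h2

theorem Disp.bdd (h : Disp z z₁ φ) (i : ℕ) : ∃ B : ℝ, 0 ≤ B ∧ ∀ x, |iteratedDeriv i φ x| ≤ B := by
  obtain ⟨B, hB⟩ := isCompact_Icc.exists_bound_of_continuousOn (s := Icc z z₁)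
    ((per_smooth_iter h.smooth i).continuous.continuousOn)
  refine ⟨max B 0, le_max_right _ _, fun x => ?_⟩
  by_cases hx : x ∈ Icc z z₁
  · exact (hB x hx).trans (le_max_left _ _)
  · rw [h.iter_off i (fun hh => hx (Ioo_subset_Icc_self hh)), abs_zero]
    exact le_max_right _ _

theorem Disp.unif (h : Disp z z₁ φ) (i : ℕ) : UniformContinuous (iteratedDeriv i φ) := by
  refine Continuous.uniformContinuous_of_tendsto_cocompact (x := 0)
    (per_smooth_iter h.smooth i).continuous ?_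
  have h1 : iteratedDeriv i φ =ᶠ[cocompact ℝ] fun _ => 0 := by
    filter_upwards [(isCompact_Icc (a := z) (b := z₁)).compl_mem_cocompact] with x hx
    exact h.iter_off i (fun hh => hx (Ioo_subset_Icc_self hh))
  exact tendsto_const_nhds.congr' h1.symm

/-- the map `x + φ x` preserves `[z, z₁]` -/
theorem perOK_mem {κ : ℝ → ℝ} (h : PerOK z z₁ κ) {x : ℝ} (hx : x ∈ Icc z z₁) : κ x ∈ Icc z z₁ := by
  have hm : StrictMono κ := strictMono_of_deriv_pos h.pos
  constructor
  · rw [← h.off z (fun hh => lt_irrefl _ hh.1)]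
    exact hm.monotone hx.1
  · rw [← h.off z₁ (fun hh => lt_irrefl _ hh.2)]
    exact hm.monotone hx.2

/-- the affine map of slope `s` fixing `z₁` -/
noncomputable def qq (z₁ s x : ℝ) : ℝ := z₁ + s * (x - z₁)

/-- the left end of the interval mapped to `[z, z₁]` -/
noncomputable def zs (z z₁ s : ℝ) : ℝ := z₁ - (z₁ - z) / s

theorem qq_zs {s : ℝ} (hs : 1 < s) : qq z₁ s (zs z z₁ s) = z := by
  have : s ≠ 0 := by linarith
  unfold qq zs
  field_simp
  ring

theorem qq_le {s : ℝ} (hs : 1 < s) {x : ℝ} (hx : x ≤ zs z z₁ s) : qq z₁ s x ≤ z := by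
  rw [← qq_zs (z := z) (z₁ := z₁) hs]
  unfold qq
  nlinarith

theorem le_qq {s : ℝ} (hs : 1 < s) {x : ℝ} (hx : zs z z₁ s ≤ x) : z ≤ qq z₁ s x := by
  rw [← qq_zs (z := z) (z₁ := z₁) hs]
  unfold qq
  nlinarith

theorem lt_zs {s : ℝ} (hs : 1 < s) (h : z < z₁) : z < zs z z₁ s := by
  unfold zs
  have : (z₁ - z) / s < z₁ - z := div_lt_self (by linarith) hs
  linarith

theorem zs_lt {s : ℝ} (hs : 1 < s) (h : z < z₁) : zs z z₁ s < z₁ := by
  unfold zs
  have : 0 < (z₁ - z) / s := div_pos (by linarith) (by linarith)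
  linarith

/-- the squeezed displacement -/
noncomputable def sq (z₁ s : ℝ) (φ : ℝ → ℝ) (x : ℝ) : ℝ := φ (qq z₁ s x) / s

theorem sq_smooth {s : ℝ} (h : Smooth φ) : Smooth (sq z₁ s φ) := by
  unfold sq qq
  exact (h.comp (contDiff_const.add (contDiff_const.mul (contDiff_id.sub contDiff_const)))).div_const _

theorem sq_iter {s : ℝ} (h : Smooth φ) (i : ℕ) (x : ℝ) :
    iteratedDeriv i (sq z₁ s φ) x = s ^ i * iteratedDeriv i φ (qq z₁ s x) / s := by
  unfold sq qq
  rw [iteratedDeriv_div_const]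
  have e : (fun x => φ (z₁ + s * (x - z₁))) = fun x => (fun y => φ (y + (z₁ - s * z₁))) (s * x) := by
    funext y
    congr 1
    ring
  have hs : Smooth (fun y => φ (y + (z₁ - s * z₁))) := h.comp (contDiff_id.add contDiff_const)
  rw [e, congrFun (iteratedDeriv_comp_const_mul (n := i)
    (hs.of_le (by exact_mod_cast le_top)) s) x, iteratedDeriv_comp_add_const]
  have e2 : s * x + (z₁ - s * z₁) = z₁ + s * (x - z₁) := by ring
  simp only [e2]

theorem sq_off_left {s : ℝ} (hs : 1 < s) (h : Disp z z₁ φ) {x : ℝ} (hx : x ≤ zs z z₁ s) (i : ℕ) :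
    iteratedDeriv i (sq z₁ s φ) x = 0 := by
  rw [sq_iter h.smooth, h.iter_off i (fun hh => not_lt.2 (qq_le hs hx) hh.1)]
  simp

theorem sq_disp {s : ℝ} (hs : 1 < s) (h : Disp z z₁ φ) : Disp (zs z z₁ s) z₁ (sq z₁ s φ) := by
  refine ⟨zs_lt hs h.lt, ?_, sq_smooth h.smooth, fun x hx => ?_, fun x => ?_⟩
  · have := lt_zs hs h.lt
    have := h.le
    linarith
  · unfold sq
    rw [h.off, zero_div]
    intro hh
    refine hx ⟨?_, ?_⟩
    · by_contra hcon
      exact not_lt.2 (qq_le hs (not_lt.1 hcon)) hh.1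
    · by_contra hcon
      have h1 := hh.2
      unfold qq at h1
      have : 0 ≤ s * (x - z₁) := mul_nonneg (by linarith) (by linarith [not_lt.1 hcon])
      linarith
  · have := sq_iter (z₁ := z₁) (s := s) h.smooth 1 x
    rw [iteratedDeriv_one, iteratedDeriv_one, pow_one] at this
    rw [this]
    have h1 := h.pos (qq z₁ s x)
    have h2 : s * deriv φ (qq z₁ s x) / s = deriv φ (qq z₁ s x) := by
      field_simp
    rw [h2]
    exact h1

/-- the perturbed displacement -/
theorem pert_disp {s : ℝ} (hs : 1 < s) (h : Disp z z₁ φ) {b : ℝ → ℝ} (hb : Smooth b) {u v : ℝ}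
    (hu : z < u) (hv : v < zs z z₁ s) (hoff : ∀ x, x ∉ Icc u v → b x = 0)
    (hb1 : ∀ x, |deriv b x| < 1) : Disp z z₁ (fun x => sq z₁ s φ x + b x) := by
  have h1 := sq_disp hs h
  have hz := lt_zs hs h.lt
  have hz' := zs_lt hs h.lt
  refine ⟨h.lt, h.le, h1.smooth.add hb, fun x hx => ?_, fun x => ?_⟩
  · rw [h1.off x (fun hh => hx ⟨hz.trans hh.1, hh.2⟩), hoff x (fun hh => hx
      ⟨hu.trans_le hh.1, (hh.2.trans_lt hv).trans hz'⟩), add_zero]
  · rw [deriv_fun_add (per_smooth_diff h1.smooth x) (per_smooth_diff hb x)]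
    by_cases hx : x ≤ zs z z₁ s
    · have h2 := sq_off_left hs h hx 1
      rw [iteratedDeriv_one] at h2
      rw [h2]
      have := (abs_lt.1 (hb1 x)).1
      linarith
    · have h2 : b =ᶠ[𝓝 x] fun _ => 0 := by
        filter_upwards [Ioi_mem_nhds (not_le.1 hx)] with y hy
        exact hoff y (fun hh => by have := hh.2; have : zs z z₁ s < y := hy; linarith)
      rw [h2.deriv_eq, deriv_const, add_zero]
      exact h1.pos x

/-- the commutation -/
theorem pert_comm {s : ℝ} (hs : 1 < s) (h : Disp z z₁ φ) (h' : Disp z z₁ ψ)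
    (hc : ∀ x, (x + ψ x) + φ (x + ψ x) = (x + φ x) + ψ (x + φ x)) {b : ℝ → ℝ} (hb : Smooth b)
    {u v : ℝ} (hu : z < u) (hv : v < zs z z₁ s) (hoff : ∀ x, x ∉ Icc u v → b x = 0)
    (hb1 : ∀ x, |deriv b x| < 1) (x : ℝ) :
    (x + sq z₁ s ψ x) + (sq z₁ s φ (x + sq z₁ s ψ x) + b (x + sq z₁ s ψ x)) =
      (x + (sq z₁ s φ x + b x)) + sq z₁ s ψ (x + (sq z₁ s φ x + b x)) := by
  have h1 := sq_disp hs h
  have h1' := sq_disp hs h'
  have h2 := pert_disp hs h hb hu hv hoff hb1
  have hs0 : s ≠ 0 := by linarith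
  have hm : StrictMono (fun x => x + (sq z₁ s φ x + b x)) := strictMono_of_deriv_pos h2.perOK.pos
  have hm' : StrictMono (fun x => x + sq z₁ s ψ x) := strictMono_of_deriv_pos h1'.perOK.pos
  have hzz : ∀ χ : ℝ → ℝ, Disp z z₁ χ → sq z₁ s χ (zs z z₁ s) = 0 := fun χ hχ =>
    (sq_disp hs hχ).off _ (fun hh => lt_irrefl _ hh.1)
  have hbz : b (zs z z₁ s) = 0 := hoff _ (fun hh => not_le.2 hv hh.2)
  have hb0 : ∀ y, zs z z₁ s ≤ y → b y = 0 := fun y hy => hoff y (fun hh => by
    have := hh.2; linarith)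
  rcases le_total x (zs z z₁ s) with hx | hx
  · have e1 : sq z₁ s ψ x = 0 := h1'.off x (fun hh => not_lt.2 hx hh.1)
    have h3 : x + (sq z₁ s φ x + b x) ≤ zs z z₁ s := by
      have := hm.monotone hx
      simp only [hzz φ h, hbz, add_zero] at this
      exact this
    have e2 : sq z₁ s ψ (x + (sq z₁ s φ x + b x)) = 0 := h1'.off _ (fun hh => not_lt.2 h3 hh.1)
    rw [e1, e2]
    simp
  · have h3 : zs z z₁ s ≤ x + sq z₁ s ψ x := by
      have := hm'.monotone hx
      simp only [hzz ψ h', add_zero] at this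
      exact this
    rw [hb0 x hx, hb0 _ h3, add_zero, add_zero]
    have hq : ∀ χ : ℝ → ℝ, ∀ y, qq z₁ s (y + sq z₁ s χ y) = qq z₁ s y + χ (qq z₁ s y) := by
      intro χ y
      unfold qq sq qq
      field_simp
      ring
    have h4 := hc (qq z₁ s x)
    have h5 : ∀ χ : ℝ → ℝ, ∀ y, sq z₁ s χ y = χ (qq z₁ s y) / s := fun χ y => rfl
    rw [h5 φ (x + sq z₁ s ψ x), h5 ψ (x + sq z₁ s φ x), hq, hq, h5, h5]
    have h6 : ψ (qq z₁ s x) + φ (qq z₁ s x + ψ (qq z₁ s x)) =
        φ (qq z₁ s x) + ψ (qq z₁ s x + φ (qq z₁ s x)) := by linarith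
    have h7 : ψ (qq z₁ s x) / s + φ (qq z₁ s x + ψ (qq z₁ s x)) / s =
        φ (qq z₁ s x) / s + ψ (qq z₁ s x + φ (qq z₁ s x)) / s := by
      rw [← add_div, ← add_div, h6]
    linarith

end disp

end Pool.Agent.Helper638.Ros
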