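import Pool.Agent.Helper638_Ros.Ext
import Pool.Agent.Helper638_Ros.Per
import Pool.Agent.Helper638_Ros.Flat_a

/-!
# The flat case (paper 2.4)
-/

set_option autoImplicit false

namespace Pool.Agent.Helper638.Ros

open Filter Function Set Topology

/-- the multipliers different from one form a countable set -/
theorem mult_countable (f : D) (k : ℤ) :
    {d : ℝ | ∃ x : ℝ, f x = x + k ∧ deriv f x = d ∧ d ≠ 1}.Countable := by
  let S : Set ℝ := {x | f x = x + k ∧ deriv f x ≠ 1}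
  have hdisc : DiscreteTopology S := by
    rw [discreteTopology_subtype_iff]
    intro x hx
    have h1 : HasDerivAt (fun y => f y - y) (deriv f x - 1) x :=
      (D.differentiable f x).hasDerivAt.sub (hasDerivAt_id x)
    have h2 := h1.eventually_ne (c := (k : ℝ)) (sub_ne_zero.2 hx.2)
    rw [inf_principal_eq_bot]
    filter_upwards [h2] with y hy hyS
    exact hy (by rw [hyS.1]; ring)
  have hS : S.Countable := by
    have : Countable S := TopologicalSpace.separableSpace_iff_countable.1 inferInstance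
    exact this
  refine (hS.image (fun x => deriv f x)).mono ?_
  rintro d ⟨x, h1, h2, h3⟩
  exact ⟨x, ⟨h1, by rw [h2]; exact h3⟩, h2⟩

/-! ### The bump -/

theorem flat_bump {p r : ℝ} (h : p < r) : ∃ (b : ℝ → ℝ) (u v x₀ : ℝ), Smooth b ∧ p < u ∧ u < x₀ ∧
    x₀ < v ∧ v < r ∧ (∀ x, x ∉ Icc u v → b x = 0) ∧ b x₀ = 0 ∧ deriv b x₀ = 1 := by
  let x₀ : ℝ := (p + r) / 2
  let δ : ℝ := (r - p) / 4
  have hδ : 0 < δ := by simp only [δ]; linarith
  let ψ : ContDiffBump x₀ := ⟨δ / 2, δ, by linarith, by linarith⟩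
  refine ⟨fun x => (x - x₀) * ψ x, x₀ - δ, x₀ + δ, x₀, ?_, ?_, ?_, ?_, ?_, ?_, ?_, ?_⟩
  · exact (contDiff_id.sub contDiff_const).mul ψ.contDiff
  · simp only [x₀, δ]; linarith
  · linarith
  · linarith
  · simp only [x₀, δ]; linarith
  · intro x hx
    have : δ ≤ dist x x₀ := by
      rw [Real.dist_eq]
      by_contra hcon
      have := abs_lt.1 (not_le.1 hcon)
      exact hx ⟨by linarith [this.1], by linarith [this.2]⟩
    show (x - x₀) * ψ x = 0
    rw [ψ.zero_of_le_dist this, mul_zero]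
  · show (x₀ - x₀) * ψ x₀ = 0
    rw [sub_self, zero_mul]
  · have h1 : HasDerivAt (fun x => x - x₀) 1 x₀ := (hasDerivAt_id x₀).sub_const x₀
    have h2 : HasDerivAt ψ (deriv ψ x₀) x₀ :=
      ((ψ.contDiff (n := (1 : ℕ∞))).differentiable (by simp) x₀).hasDerivAt
    have h3 := (h1.mul h2).deriv
    have h4 : ψ x₀ = 1 := ψ.one_of_mem_closedBall (Metric.mem_closedBall_self (by
      show (0 : ℝ) ≤ δ / 2
      linarith))
    have h5 : deriv (fun x => (x - x₀) * ψ x) x₀ = 1 * ψ x₀ + (x₀ - x₀) * deriv ψ x₀ := h3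
    rw [h5, h4]
    ring

theorem flat_supp_bdd {b : ℝ → ℝ} (hb : Smooth b) {u v : ℝ} (hoff : ∀ x, x ∉ Icc u v → b x = 0)
    (n : ℕ) : ∃ M : ℝ, 0 ≤ M ∧ ∀ i, i ≤ n → ∀ x, |iteratedDeriv i b x| ≤ M := by
  have h1 : ∀ i, ∃ M : ℝ, 0 ≤ M ∧ ∀ x, |iteratedDeriv i b x| ≤ M := by
    intro i
    obtain ⟨B, hB⟩ := isCompact_Icc.exists_bound_of_continuousOn (s := Icc u v)
      ((per_smooth_iter hb i).continuous.continuousOn)
    refine ⟨max B 0, le_max_right _ _, fun x => ?_⟩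
    by_cases hx : x ∈ Icc u v
    · exact (hB x hx).trans (le_max_left _ _)
    · rw [iter_zero_of_closure hb (U := (Icc u v)ᶜ) isClosed_Icc.isOpen_compl hoff i
        (subset_closure hx), abs_zero]
      exact le_max_right _ _
  choose M hM0 hM using h1
  refine ⟨∑ i ∈ Finset.range (n + 1), M i, Finset.sum_nonneg fun i _ => hM0 i, fun i hi x => ?_⟩
  exact (hM i x).trans (Finset.single_le_sum (fun j _ => hM0 j) (Finset.mem_range.2 (by omega)))

theorem flat_mu {c : Set ℝ} (hc : c.Countable) {ε : ℝ} (hε : 0 < ε) :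
    ∃ μ : ℝ, 0 < μ ∧ μ < ε ∧ 1 + μ ∉ c := by
  have h1 : Dense cᶜ := hc.dense_compl ℝ
  obtain ⟨y, hy1, hy2⟩ := h1.exists_mem_open (isOpen_Ioo (a := 1) (b := 1 + ε)) ⟨1 + ε / 2, by
    constructor <;> linarith⟩
  exact ⟨y - 1, by linarith [hy2.1], by linarith [hy2.2], by
    rw [add_sub_cancel]; exact hy1⟩

theorem flat_bn {z r : ℝ} (h : z < r) {c : Set ℝ} (hc : c.Countable) (n : ℕ) :
    ∃ (b : ℝ → ℝ) (u v x₀ : ℝ), Smooth b ∧ z < u ∧ u < x₀ ∧ x₀ < v ∧ v < r ∧
      (∀ x, x ∉ Icc u v → b x = 0) ∧ b x₀ = 0 ∧ 1 + deriv b x₀ ∉ c ∧ 1 + deriv b x₀ ≠ 1 ∧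
      ∀ i, i ≤ n + 1 → ∀ x, |iteratedDeriv i b x| < 1 / ((n : ℝ) + 1) := by
  obtain ⟨b, u, v, x₀, h1, h2, h3, h4, h5, h6, h7, h8⟩ := flat_bump h
  obtain ⟨M, hM0, hM⟩ := flat_supp_bdd h1 h6 (n + 1)
  have hn : (0 : ℝ) < (n : ℝ) + 1 := by positivity
  obtain ⟨μ, hμ0, hμ1, hμ2⟩ := flat_mu hc (ε := 1 / (((n : ℝ) + 1) * (M + 1))) (by positivity)
  refine ⟨fun x => μ * b x, u, v, x₀, contDiff_const.mul h1, h2, h3, h4, h5,
    fun x hx => by show μ * b x = 0; rw [h6 x hx, mul_zero],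
    by show μ * b x₀ = 0; rw [h7, mul_zero], ?_, ?_, ?_⟩
  · rw [deriv_const_mul_field, h8, mul_one]
    exact hμ2
  · rw [deriv_const_mul_field, h8, mul_one]
    linarith
  · intro i hi x
    rw [iteratedDeriv_const_mul_field, abs_mul, abs_of_pos hμ0]
    calc μ * |iteratedDeriv i b x| ≤ μ * (M + 1) :=
          mul_le_mul_of_nonneg_left ((hM i hi x).trans (by linarith)) hμ0.le
      _ < 1 / (((n : ℝ) + 1) * (M + 1)) * (M + 1) :=
          mul_lt_mul_of_pos_right hμ1 (by linarith)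
      _ = 1 / ((n : ℝ) + 1) := by field_simp

/-! ### Convergence -/

theorem flat_conv {z z₁ : ℝ} {φ : ℝ → ℝ} (h : Disp z z₁ φ) {s : ℕ → ℝ}
    (hs : Tendsto s atTop (𝓝 1)) {b : ℕ → ℝ → ℝ} (hb : ∀ n, Smooth (b n))
    (hbi : ∀ i : ℕ, ∀ ε > 0, ∀ᶠ n in atTop, ∀ x, |iteratedDeriv i (b n) x| < ε) (i : ℕ) (ε : ℝ)
    (hε : ε > 0) : ∀ᶠ n in atTop, ∀ x ∈ Icc z z₁,
      |iteratedDeriv i (fun x => x + (sq z₁ (s n) φ x + b n x)) x -
        iteratedDeriv i (fun x => x + φ x) x| < ε := by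
  obtain ⟨B, hB0, hB⟩ := h.bdd i
  obtain ⟨δ, hδ, hu⟩ := Metric.uniformContinuous_iff.1 (h.unif i) (ε / 3) (by linarith)
  have t1 : Tendsto (fun n => |s n ^ i / s n - 1| * B) atTop (𝓝 0) := by
    have : Tendsto (fun n => |s n ^ i / s n - 1| * B) atTop (𝓝 (|(1 : ℝ) ^ i / 1 - 1| * B)) :=
      ((((hs.pow i).div hs one_ne_zero).sub_const 1).abs).mul_const B
    simpa using this
  have t2 : Tendsto (fun n => |s n - 1| * (z₁ - z)) atTop (𝓝 0) := by
    have : Tendsto (fun n => |s n - 1| * (z₁ - z)) atTop (𝓝 (|(1 : ℝ) - 1| * (z₁ - z))) :=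
      ((hs.sub_const 1).abs).mul_const _
    simpa using this
  filter_upwards [t1.eventually_lt_const (show (0 : ℝ) < ε / 3 by linarith),
    t2.eventually_lt_const hδ, hbi i (ε / 3) (by linarith)] with n e1 e2 e3 x hx
  have hsq : Smooth (sq z₁ (s n) φ) := sq_smooth h.smooth
  have a1 : ∀ {f : ℝ → ℝ}, Smooth f → ContDiffAt ℝ (i : ℕ) f x := fun hf =>
    hf.contDiffAt.of_le (by exact_mod_cast le_top)
  have c1 : iteratedDeriv i (fun x => x + (sq z₁ (s n) φ x + b n x)) x =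
      iteratedDeriv i (fun x => x) x + (iteratedDeriv i (sq z₁ (s n) φ) x +
        iteratedDeriv i (b n) x) := by
    rw [iteratedDeriv_fun_add (f := fun x : ℝ => x) (a1 contDiff_id) (a1 (hsq.add (hb n))),
      iteratedDeriv_fun_add (a1 hsq) (a1 (hb n))]
  have c2 : iteratedDeriv i (fun x => x + φ x) x =
      iteratedDeriv i (fun x => x) x + iteratedDeriv i φ x :=
    iteratedDeriv_fun_add (f := fun x : ℝ => x) (a1 contDiff_id) (a1 h.smooth)
  rw [c1, c2, sq_iter h.smooth]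
  have d1 : dist (qq z₁ (s n) x) x < δ := by
    rw [Real.dist_eq]
    have : qq z₁ (s n) x - x = (s n - 1) * (x - z₁) := by unfold qq; ring
    rw [this, abs_mul]
    refine lt_of_le_of_lt (mul_le_mul_of_nonneg_left ?_ (abs_nonneg _)) e2
    rw [abs_le]
    constructor <;> linarith [hx.1, hx.2]
  have d2 := hu d1
  rw [Real.dist_eq] at d2
  have e : iteratedDeriv i (fun x : ℝ => x) x + (s n ^ i * iteratedDeriv i φ (qq z₁ (s n) x) / s n +
      iteratedDeriv i (b n) x) - (iteratedDeriv i (fun x : ℝ => x) x + iteratedDeriv i φ x) =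
      (s n ^ i / s n - 1) * iteratedDeriv i φ (qq z₁ (s n) x) +
      (iteratedDeriv i φ (qq z₁ (s n) x) - iteratedDeriv i φ x) + iteratedDeriv i (b n) x := by
    ring
  rw [e]
  have f1 : |(s n ^ i / s n - 1) * iteratedDeriv i φ (qq z₁ (s n) x)| < ε / 3 := by
    rw [abs_mul]
    exact lt_of_le_of_lt (mul_le_mul_of_nonneg_left (hB _) (abs_nonneg _)) e1
  have f2 := e3 x
  have g1 := abs_add_le ((s n ^ i / s n - 1) * iteratedDeriv i φ (qq z₁ (s n) x) +
      (iteratedDeriv i φ (qq z₁ (s n) x) - iteratedDeriv i φ x)) (iteratedDeriv i (b n) x)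
  have g2 := abs_add_le ((s n ^ i / s n - 1) * iteratedDeriv i φ (qq z₁ (s n) x))
      (iteratedDeriv i φ (qq z₁ (s n) x) - iteratedDeriv i φ x)
  linarith

/-- the perturbations of the flat case -/
theorem flat_pert (S : Sys2) {z z₁ : ℝ} (hz : Nxt S z z₁) (hA : Flat S.A z) (hG : Flat S.G z)
    (c : Set ℝ) (hc : c.Countable) :
    ∃ al be : ℕ → D, (∀ n, SuppJ z z₁ (al n)) ∧ (∀ n, SuppJ z z₁ (be n)) ∧
      (∀ n, Commute (S.A * al n) (S.G * be n)) ∧
      Conv (fun n => al n) (1 : D) ∧ Conv (fun n => be n) (1 : D) ∧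
      ∀ n, ∃ x ∈ Ioo z z₁, (S.A * al n) x = x ∧ deriv (S.A * al n : D) x ∉ c ∧
        deriv (S.A * al n : D) x ≠ 1 := by
  -- flatness at the other end
  obtain ⟨j, l, -, hjl⟩ := hz.ex
  have hh : (S.F ^ j * T ^ l) z = z₁ := by
    rw [D.mul_apply, T_zpow_apply, D.add_int, hjl]
  have hTA : ∀ f : D, Commute f (T ^ l) := fun f => (T_comm f).symm.zpow_right l
  have hcA : Commute S.A (S.F ^ j * T ^ l) :=
    (S.comm_FA.symm.pow_right j).mul_right (hTA _)
  have hcG : Commute S.G (S.F ^ j * T ^ l) := (S.comm.symm.pow_right j).mul_right (hTA _)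
  have hA1 : Flat S.A z₁ := by rw [← hh]; exact flat_transport hcA hA
  have hG1 : Flat S.G z₁ := by rw [← hh]; exact flat_transport hcG hG
  -- the displacements
  let φ : ℝ → ℝ := (Icc z z₁).indicator fun y => S.A y - y
  let ψ : ℝ → ℝ := (Icc z z₁).indicator fun y => S.G y - y
  have hφ : Disp z z₁ φ := disp_of_flat hz.lt hz.le hA hA1
  have hψ : Disp z z₁ ψ := disp_of_flat hz.lt hz.le hG hG1
  have hφA : ∀ x ∈ Icc z z₁, x + φ x = S.A x := fun x hx => by
    simp only [φ]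
    rw [indicator_of_mem hx]; ring
  have hψG : ∀ x ∈ Icc z z₁, x + ψ x = S.G x := fun x hx => by
    simp only [ψ]
    rw [indicator_of_mem hx]; ring
  have hAz : S.A z = z ∧ S.A z₁ = z₁ := ⟨by simpa [sub_eq_zero] using hA 0,
    by simpa [sub_eq_zero] using hA1 0⟩
  have hGz : S.G z = z ∧ S.G z₁ = z₁ := ⟨by simpa [sub_eq_zero] using hG 0,
    by simpa [sub_eq_zero] using hG1 0⟩
  have hmemA : ∀ x ∈ Icc z z₁, S.A x ∈ Icc z z₁ := fun x hx =>
    ⟨by rw [← hAz.1]; exact (D.strictMono S.A).monotone hx.1,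
      by rw [← hAz.2]; exact (D.strictMono S.A).monotone hx.2⟩
  have hmemG : ∀ x ∈ Icc z z₁, S.G x ∈ Icc z z₁ := fun x hx =>
    ⟨by rw [← hGz.1]; exact (D.strictMono S.G).monotone hx.1,
      by rw [← hGz.2]; exact (D.strictMono S.G).monotone hx.2⟩
  have hAG : ∀ x, S.A (S.G x) = S.G (S.A x) := fun x => congrArg (fun k : D => k x) S.comm_AG.eq
  have hcomm : ∀ x, (x + ψ x) + φ (x + ψ x) = (x + φ x) + ψ (x + φ x) := by
    intro x
    by_cases hx : x ∈ Icc z z₁
    · rw [hψG x hx, hφA x hx, hφA _ (hmemG x hx), hψG _ (hmemA x hx), hAG]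
    · have h1 : φ x = 0 := indicator_of_notMem hx _
      have h2 : ψ x = 0 := indicator_of_notMem hx _
      rw [h1, h2, add_zero, h1, h2]
  -- the parameters
  let s : ℕ → ℝ := fun n => 1 + 1 / ((n : ℝ) + 1)
  have hs1 : ∀ n, 1 < s n := fun n => by
    have : (0 : ℝ) < 1 / ((n : ℝ) + 1) := by positivity
    simp only [s]; linarith
  have hs : Tendsto s atTop (𝓝 1) := by
    have := (tendsto_one_div_add_atTop_nhds_zero_nat (𝕜 := ℝ)).const_add 1
    simpa [s] using this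
  choose b u v x₀ hb hu hux hxv hv hoff hbx hbc hb1 hbi using
    fun n => flat_bn (lt_zs (hs1 n) hz.lt) hc n
  have hbd : ∀ n x, |deriv (b n) x| < 1 := by
    intro n x
    have h1 := hbi n 1 (by omega) x
    rw [iteratedDeriv_one] at h1
    refine h1.trans_le ?_
    rw [div_le_one (by positivity)]
    have : (0 : ℝ) ≤ n := Nat.cast_nonneg n
    linarith
  have hAn : ∀ n, Disp z z₁ (fun x => sq z₁ (s n) φ x + b n x) := fun n =>
    pert_disp (hs1 n) hφ (hb n) (hu n) (hv n) (hoff n) (hbd n)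
  have hGn : ∀ n, Disp z z₁ (fun x => sq z₁ (s n) ψ x + (fun _ => (0 : ℝ)) x) := fun n =>
    pert_disp (hs1 n) hψ contDiff_const (hu n) (hv n) (fun _ _ => rfl) (fun x => by simp)
  let Ap : D := perD hφ.perOK
  let Gp : D := perD hψ.perOK
  let An : ℕ → D := fun n => perD (hAn n).perOK
  let Gn : ℕ → D := fun n => perD (hGn n).perOK
  have hsub : Icc z z₁ ⊆ Icc z (z + 1) := Icc_subset_Icc_right hz.le
  -- general facts
  have hmul : ∀ (f g h' : D), (∀ x ∈ Icc z z₁, f x = h' x) → (∀ x ∈ Icc z z₁, h' x ∈ Icc z z₁) →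
      h' z = z → h' z₁ = z₁ →
      (∀ x ∈ Icc z z₁, g x ∈ Icc z z₁) → ∀ x ∈ Icc z z₁, (h' * (f⁻¹ * g)) x = g x := by
    intro f g h' hfh hmem h0 h1 hg x hx
    have hy := hg x hx
    have hfz : f z = z := by rw [hfh z ⟨le_rfl, hz.lt.le⟩, h0]
    have hfz1 : f z₁ = z₁ := by rw [hfh z₁ ⟨hz.lt.le, le_rfl⟩, h1]
    have hw : f⁻¹ (g x) ∈ Icc z z₁ := by
      constructor
      · rw [← (D.strictMono f).le_iff_le, D.apply_inv_self, hfz]
        exact hy.1
      · rw [← (D.strictMono f).le_iff_le, D.apply_inv_self, hfz1]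
        exact hy.2
    rw [D.mul_apply, D.mul_apply, ← hfh _ hw, D.apply_inv_self]
  have hApA : ∀ x ∈ Icc z z₁, Ap x = S.A x := fun x hx => by
    show perD hφ.perOK x = _
    rw [perD_apply _ (hsub hx), hφA x hx]
  have hGpG : ∀ x ∈ Icc z z₁, Gp x = S.G x := fun x hx => by
    show perD hψ.perOK x = _
    rw [perD_apply _ (hsub hx), hψG x hx]
  have hAnx : ∀ n, ∀ x ∈ Icc z z₁, An n x = x + (sq z₁ (s n) φ x + b n x) := fun n x hx => by
    show perD (hAn n).perOK x = _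
    rw [perD_apply _ (hsub hx)]
  have hGnx : ∀ n, ∀ x ∈ Icc z z₁, Gn n x = x + sq z₁ (s n) ψ x := fun n x hx => by
    show perD (hGn n).perOK x = _
    rw [perD_apply _ (hsub hx), add_zero]
  have hAnm : ∀ n, ∀ x ∈ Icc z z₁, An n x ∈ Icc z z₁ := fun n x hx => by
    rw [hAnx n x hx]
    exact perOK_mem (hAn n).perOK hx
  have hGnm : ∀ n, ∀ x ∈ Icc z z₁, Gn n x ∈ Icc z z₁ := fun n x hx => by
    rw [hGnx n x hx]
    have := perOK_mem (hGn n).perOK hx
    simpa using this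
  have hPA : ∀ n, ∀ x ∈ Icc z z₁, (S.A * (Ap⁻¹ * An n)) x = An n x := fun n =>
    hmul Ap (An n) S.A hApA hmemA hAz.1 hAz.2 (hAnm n)
  have hPG : ∀ n, ∀ x ∈ Icc z z₁, (S.G * (Gp⁻¹ * Gn n)) x = Gn n x := fun n =>
    hmul Gp (Gn n) S.G hGpG hmemG hGz.1 hGz.2 (hGnm n)
  have hsupp : ∀ f g : D, SuppJ z z₁ f → SuppJ z z₁ g → SuppJ z z₁ (f⁻¹ * g : D) := by
    intro f g hf hg x hx
    rw [D.mul_apply, hg x hx]
    apply D.injective f
    rw [D.apply_inv_self, hf x hx]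
  have hsA : ∀ n, SuppJ z z₁ (Ap⁻¹ * An n : D) := fun n => hsupp _ _ (perD_supp _) (perD_supp _)
  have hsG : ∀ n, SuppJ z z₁ (Gp⁻¹ * Gn n : D) := fun n => hsupp _ _ (perD_supp _) (perD_supp _)
  have hout : ∀ f : D, SuppJ z z₁ f → ∀ x ∈ Icc z₁ (z + 1), f x = x := by
    intro f hf x hx
    refine hf x fun m hm => ?_
    rcases le_or_gt 0 m with h0 | h0
    · have : (0 : ℝ) ≤ m := by exact_mod_cast h0
      have := hm.2
      linarith [hx.1]
    · have : (m : ℝ) ≤ -1 := by exact_mod_cast Int.le_sub_one_of_lt h0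
      have := hm.1
      linarith [hx.2]
  have hA1' : S.A (z + 1) = z + 1 := by rw [D.add_one, hAz.1]
  have hG1' : S.G (z + 1) = z + 1 := by rw [D.add_one, hGz.1]
  refine ⟨fun n => Ap⁻¹ * An n, fun n => Gp⁻¹ * Gn n, hsA, hsG, ?_, ?_, ?_, ?_⟩
  · intro n
    refine D_ext_Icc (z := z) fun x hx => ?_
    show (S.A * (Ap⁻¹ * An n)) ((S.G * (Gp⁻¹ * Gn n)) x) =
      (S.G * (Gp⁻¹ * Gn n)) ((S.A * (Ap⁻¹ * An n)) x)
    rcases le_total x z₁ with h1 | h1
    · have hx' : x ∈ Icc z z₁ := ⟨hx.1, h1⟩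
      rw [hPG n x hx', hPA n x hx', hPA n _ (hGnm n x hx'), hPG n _ (hAnm n x hx'),
        hAnx n _ (hGnm n x hx'), hGnx n _ (hAnm n x hx'), hGnx n x hx', hAnx n x hx']
      exact pert_comm (hs1 n) hφ hψ hcomm (hb n) (hu n) (hv n) (hoff n) (hbd n) x
    · have hx' : x ∈ Icc z₁ (z + 1) := ⟨h1, hx.2⟩
      have m1 : S.A x ∈ Icc z₁ (z + 1) :=
        ⟨by rw [← hAz.2]; exact (D.strictMono S.A).monotone hx'.1,
          by rw [← hA1']; exact (D.strictMono S.A).monotone hx'.2⟩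
      have m2 : S.G x ∈ Icc z₁ (z + 1) :=
        ⟨by rw [← hGz.2]; exact (D.strictMono S.G).monotone hx'.1,
          by rw [← hG1']; exact (D.strictMono S.G).monotone hx'.2⟩
      have e1 : ∀ y ∈ Icc z₁ (z + 1), (S.A * (Ap⁻¹ * An n)) y = S.A y := fun y hy => by
        rw [D.mul_apply, hout _ (hsA n) y hy]
      have e2 : ∀ y ∈ Icc z₁ (z + 1), (S.G * (Gp⁻¹ * Gn n)) y = S.G y := fun y hy => by
        rw [D.mul_apply, hout _ (hsG n) y hy]
      rw [e2 x hx', e1 x hx', e1 _ m2, e2 _ m1, hAG]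
  · have h1 : Conv (fun n => An n) Ap :=
      perD_conv' (fun n => (hAn n).perOK) hφ.perOK (flat_conv hφ hs hb (by
        intro i ε hε
        have t := (tendsto_one_div_add_atTop_nhds_zero_nat (𝕜 := ℝ)).eventually_lt_const hε
        filter_upwards [t, eventually_ge_atTop i] with n hn hin x
        exact (hbi n i (by omega) x).trans hn))
    have h2 := (Conv.const (Ap⁻¹ : D)).mul h1
    rw [inv_mul_cancel] at h2
    exact h2
  · have h1 : Conv (fun n => Gn n) Gp :=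
      perD_conv' (fun n => (hGn n).perOK) hψ.perOK (flat_conv hψ hs (fun n => contDiff_const) (by
        intro i ε hε
        refine Eventually.of_forall fun n x => ?_
        rw [iteratedDeriv_const]
        split_ifs <;> simpa using hε))
    have h2 := (Conv.const (Gp⁻¹ : D)).mul h1
    rw [inv_mul_cancel] at h2
    exact h2
  · intro n
    have hz1 := zs_lt (hs1 n) hz.lt
    have hx0 : x₀ n ∈ Ioo z z₁ := ⟨(hu n).trans (hux n), ((hxv n).trans (hv n)).trans hz1⟩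
    have hxle : x₀ n ≤ zs z z₁ (s n) := ((hxv n).trans (hv n)).le
    have hev : ((S.A * (Ap⁻¹ * An n) : D) : ℝ → ℝ) =ᶠ[𝓝 (x₀ n)]
        fun x => x + (sq z₁ (s n) φ x + b n x) := by
      filter_upwards [Icc_mem_nhds hx0.1 hx0.2] with x hx
      rw [hPA n x hx, hAnx n x hx]
    have hd : deriv (S.A * (Ap⁻¹ * An n) : D) (x₀ n) = 1 + deriv (b n) (x₀ n) := by
      rw [hev.deriv_eq]
      have hsm : Smooth (sq z₁ (s n) φ) := sq_smooth hφ.smooth
      rw [deriv_fun_add differentiableAt_fun_id ((per_smooth_diff (hsm.add (hb n))) _), deriv_id'',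
        deriv_fun_add (per_smooth_diff hsm _) (per_smooth_diff (hb n) _)]
      have := sq_off_left (hs1 n) hφ hxle 1
      rw [iteratedDeriv_one] at this
      rw [this, zero_add]
    refine ⟨x₀ n, hx0, ?_, ?_, ?_⟩
    · rw [hPA n _ (Ioo_subset_Icc_self hx0), hAnx n _ (Ioo_subset_Icc_self hx0), hbx]
      have := sq_off_left (hs1 n) hφ hxle 0
      rw [iteratedDeriv_zero] at this
      rw [this]
      ring
    · rw [hd]
      exact hbc n
    · rw [hd]
      exact hb1 n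

theorem flat_unst (S : Sys2) {z : ℝ} (hz : z ∈ S.K) (hA : Flat S.A z) (hG : Flat S.G z) :
    Unst S.F S.G := by
  obtain ⟨z₁, hz₁⟩ := exists_nxt S hz
  obtain ⟨al, be, h1, h2, h3, h4, h5, h6⟩ := flat_pert S hz₁ hA hG _
    (mult_countable (S.F ^ S.N) S.k)
  refine ⟨fun n => extF S (al n), fun n => extG S (be n),
    fun n => ext_comm hz₁ (h1 n) (h2 n) (h3 n), extF_conv S h4, extG_conv S h5, fun n => ?_⟩
  rintro ⟨H, hH, ⟨j, hj⟩, -⟩
  obtain ⟨x, hx, hfix, hd, hd1⟩ := h6 n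
  have it : ∀ (m : ℕ) (y : ℝ), H ((extF S (al n) ^ m) y) = (S.F ^ m) (H y) + (m * j : ℤ) := by
    intro m
    induction m with
    | zero => intro y; simp
    | succ m ih =>
      intro y
      rw [pow_succ', pow_succ', D.mul_apply, D.mul_apply, hj, ih, D.add_int]
      push_cast
      ring
  have hHd : Differentiable ℝ H := hH.smooth.differentiable (by simp)
  have hk : ∀ l : ℕ, ∃ m : ℤ, ∀ y, H (y + l) = H y + m := by
    intro l
    induction l with
    | zero => exact ⟨0, fun y => by simp⟩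
    | succ l ih =>
      obtain ⟨m, hm⟩ := ih
      rcases hH.per with hp | hp
      · exact ⟨m + 1, fun y => by push_cast; rw [← add_assoc, hp, hm]; ring⟩
      · exact ⟨m - 1, fun y => by push_cast; rw [← add_assoc, hp, hm]; ring⟩
  have hkz : ∀ l : ℤ, ∃ m : ℤ, ∀ y, H (y + l) = H y + m := by
    intro l
    obtain ⟨n, rfl | rfl⟩ := l.eq_nat_or_neg
    · obtain ⟨m, hm⟩ := hk n
      exact ⟨m, fun y => by simpa using hm y⟩
    · obtain ⟨m, hm⟩ := hk n
      refine ⟨-m, fun y => ?_⟩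
      have := hm (y + ((-(n : ℤ) : ℤ) : ℝ))
      push_cast at this ⊢
      rw [neg_add_cancel_right] at this
      linarith
  obtain ⟨m, hm⟩ := hkz S.k
  have hderk : deriv H (x + S.k) = deriv H x := by
    have e1 : (fun y => H (y + (S.k : ℝ))) = fun y => H y + m := funext hm
    have e2 := deriv_comp_add_const H (S.k : ℝ) x
    rw [← e2, e1, deriv_add_const]
  have hFx : (extF S (al n) ^ S.N) x = x + S.k := by
    rw [extF_powN hz₁ (h1 n) (Ioo_subset_Icc_self hx), hfix]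
  have hy : (S.F ^ S.N) (H x) = H x + (m - S.N * j : ℤ) := by
    have := it S.N x
    rw [hFx, hm] at this
    push_cast at this ⊢
    linarith
  have hyk := S.unique_k hy
  rw [hyk] at hy
  -- the multiplier
  have hev : ((extF S (al n) ^ S.N : D) : ℝ → ℝ) =ᶠ[𝓝 x] fun y => (S.A * al n) y + S.k := by
    filter_upwards [Icc_mem_nhds hx.1 hx.2] with y hy
    exact extF_powN hz₁ (h1 n) hy
  have hder : deriv (extF S (al n) ^ S.N : D) x = deriv (S.A * al n : D) x := by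
    rw [hev.deriv_eq, deriv_add_const]
  have e1 : (fun y => H ((extF S (al n) ^ S.N) y)) = fun y => (S.F ^ S.N) (H y) + (S.N * j : ℤ) :=
    funext fun y => it S.N y
  have e2 : deriv (fun y => H ((extF S (al n) ^ S.N) y)) x =
      deriv H x * deriv (S.A * al n : D) x := by
    have := deriv_comp x (h₂ := H) (h := ((extF S (al n) ^ S.N : D) : ℝ → ℝ)) (hHd _)
      (D.differentiable _ _)
    rw [hFx, hderk, hder] at this
    exact this
  have e3 : deriv (fun y => (S.F ^ S.N) (H y) + (S.N * j : ℤ)) x =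
      deriv (S.F ^ S.N : D) (H x) * deriv H x := by
    rw [deriv_add_const]
    exact deriv_comp x (h₂ := ((S.F ^ S.N : D) : ℝ → ℝ)) (h := H) (D.differentiable _ _) (hHd _)
  rw [e1, e3] at e2
  have e4 : deriv (S.F ^ S.N : D) (H x) = deriv (S.A * al n : D) x := by
    have h0 := hH.ne x
    field_simp at e2
    linarith
  exact hd ⟨H x, hy, e4, hd1⟩

end Pool.Agent.Helper638.Ros
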