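import Pool.Agent.Helper638_Ros.Calc

/-!
# Actions with a common fixed point (Case 2): the set-up (paper 2.2)
-/

set_option autoImplicit false

namespace Pool.Agent.Helper638.Ros

open Filter Function Set Topology

theorem sz_zpow_fix (f : D) {x : ℝ} (hx : f x = x) (n : ℤ) : (f ^ n) x = x := by
  have h : ((f ^ n : D) : Equiv.Perm ℝ) = (f : Equiv.Perm ℝ) ^ n := by push_cast; rfl
  rw [h]
  exact Equiv.Perm.zpow_apply_eq_self_of_apply_eq_self hx n

theorem sz_pow_fix (f : D) {x : ℝ} (hx : f x = x) (n : ℕ) : (f ^ n) x = x := by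
  have := sz_zpow_fix f hx n
  rwa [zpow_natCast] at this

theorem sz_lt_pow (f : D) {x : ℝ} (hx : x < f x) {n : ℕ} (hn : 1 ≤ n) : x < (f ^ n) x := by
  induction n, hn using Nat.le_induction with
  | base => simpa using hx
  | succ n hn ih =>
    rw [pow_succ, D.mul_apply]
    exact ih.trans (D.strictMono _ hx)

theorem sz_pow_lt (f : D) {x : ℝ} (hx : f x < x) {n : ℕ} (hn : 1 ≤ n) : (f ^ n) x < x := by
  induction n, hn using Nat.le_induction with
  | base => simpa using hx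
  | succ n hn ih =>
    rw [pow_succ, D.mul_apply]
    exact (D.strictMono _ hx).trans ih

theorem sz_comm_apply {f g : D} (h : Commute f g) (x : ℝ) : f (g x) = g (f x) := by
  rw [← D.mul_apply, h.eq, D.mul_apply]

theorem sz_T_comm_zpow (f : D) (n : ℤ) : Commute f (T ^ n) := ((T_comm f).symm).zpow_right n

/-- the limit of the orbit of a point under an element with a fixed point -/
theorem sz_limit (f : D) {y : ℝ} (hy : f y = y) (x : ℝ) :
    ∃ p, f p = p ∧ Tendsto (fun n : ℕ => (f ^ n) x) atTop (𝓝 p) := by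
  have key : ∀ g : D, g y = y → ∀ x, x ≤ g x → ∃ p, Tendsto (fun n : ℕ => (g ^ n) x) atTop (𝓝 p) := by
    intro g hg x hx
    have hmono : Monotone (fun n : ℕ => (g ^ n) x) := by
      refine monotone_nat_of_le_succ (fun n => ?_)
      rw [pow_succ, D.mul_apply]
      exact (D.strictMono (g ^ n)).monotone hx
    obtain ⟨m, hm⟩ := exists_nat_ge (x - y)
    have hbdd : BddAbove (range (fun n : ℕ => (g ^ n) x)) := by
      refine ⟨y + m, ?_⟩
      rintro _ ⟨n, rfl⟩
      have h1 : (g ^ n) (y + m) = y + m := by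
        have := D.add_int (g ^ n) m y
        rw [sz_pow_fix g hg n] at this
        simpa using this
      calc (g ^ n) x ≤ (g ^ n) (y + m) := (D.strictMono (g ^ n)).monotone (by linarith)
        _ = y + m := h1
    exact ⟨_, tendsto_atTop_ciSup hmono hbdd⟩
  have key2 : ∃ p, Tendsto (fun n : ℕ => (f ^ n) x) atTop (𝓝 p) := by
    rcases le_total x (f x) with h | h
    · exact key f hy x h
    · have hmono : Antitone (fun n : ℕ => (f ^ n) x) := by
        refine antitone_nat_of_succ_le (fun n => ?_)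
        rw [pow_succ, D.mul_apply]
        exact (D.strictMono (f ^ n)).monotone h
      obtain ⟨m, hm⟩ := exists_nat_ge (y - x)
      have hbdd : BddBelow (range (fun n : ℕ => (f ^ n) x)) := by
        refine ⟨y - m, ?_⟩
        rintro _ ⟨n, rfl⟩
        have h1 : (f ^ n) (y - m) = y - m := by
          rw [show y - (m : ℝ) = y + ((-(m : ℤ) : ℤ) : ℝ) by push_cast; ring, D.add_int,
            sz_pow_fix f hy n]
        calc y - m = (f ^ n) (y - m) := h1.symm
          _ ≤ (f ^ n) x := (D.strictMono (f ^ n)).monotone (by linarith)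
      exact ⟨_, tendsto_atTop_ciInf hmono hbdd⟩
  obtain ⟨p, hp⟩ := key2
  refine ⟨p, ?_, hp⟩
  have h1 : Tendsto (fun n : ℕ => f ((f ^ n) x)) atTop (𝓝 (f p)) :=
    ((D.continuous f).tendsto p).comp hp
  have h2 : Tendsto (fun n : ℕ => (f ^ (n + 1)) x) atTop (𝓝 p) :=
    hp.comp (tendsto_add_atTop_nat 1)
  have h3 : (fun n : ℕ => (f ^ (n + 1)) x) = fun n : ℕ => f ((f ^ n) x) := by
    funext n
    rw [pow_succ', D.mul_apply]
  rw [h3] at h2
  exact tendsto_nhds_unique h1 h2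

/-- The normal form of a non free pair: `G` has a fixed point, `F ^ N` moves a point by `k`. -/
structure Sys2 where
  F : D
  G : D
  N : ℕ
  k : ℤ
  comm : Commute F G
  faith : Faithful F G
  hN : 1 ≤ N
  cop : IsCoprime (N : ℤ) k
  fixA : ∃ x, (F ^ N) x = x + k
  fixG : ∃ x, G x = x

namespace Sys2

variable (S : Sys2)

/-- `A = F ^ N * T ^ (-k)` -/
noncomputable def A : D := S.F ^ S.N * T ^ (-S.k)

/-- common fixed points -/
def K : Set ℝ := {x | S.A x = x ∧ S.G x = x}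

/-- the elements of `Λ = ⟨A, G⟩` -/
noncomputable def lam (g : ℤ × ℤ) : D := S.A ^ g.1 * S.G ^ g.2

theorem A_apply (x : ℝ) : S.A x = (S.F ^ S.N) x - S.k := by
  rw [A, D.mul_apply, T_zpow_apply, D.add_int]
  push_cast; ring

theorem F_pow_apply (x : ℝ) : (S.F ^ S.N) x = S.A x + S.k := by rw [S.A_apply]; ring

theorem comm_AG : Commute S.A S.G := by
  have h1 : Commute (S.F ^ S.N) S.G := S.comm.pow_left _
  have h2 : Commute (T ^ (-S.k)) S.G := (sz_T_comm_zpow S.G (-S.k)).symm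
  exact h1.mul_left h2

theorem comm_FA : Commute S.F S.A := by
  have h1 : Commute S.F (S.F ^ S.N) := Commute.self_pow _ _
  exact h1.mul_right (sz_T_comm_zpow S.F (-S.k))

theorem lam_add (g h : ℤ × ℤ) : S.lam (g + h) = S.lam g * S.lam h := by
  have h : Commute (S.G ^ g.2) (S.A ^ h.1) := (S.comm_AG.symm).zpow_zpow _ _
  rw [lam, lam, lam, Prod.fst_add, Prod.snd_add, zpow_add, zpow_add, mul_assoc, mul_assoc]
  congr 1
  rw [← mul_assoc, ← mul_assoc, h.eq]

theorem lam_zero : S.lam 0 = 1 := by simp [lam]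

theorem lam_neg (g : ℤ × ℤ) : S.lam (-g) = (S.lam g)⁻¹ := by
  rw [eq_inv_iff_mul_eq_one, ← S.lam_add, neg_add_cancel, S.lam_zero]

theorem lam_faith (g : ℤ × ℤ) (h : S.lam g = 1) : g = 0 := by
  rw [lam] at h
  have h1 : S.A ^ g.1 = S.F ^ ((S.N : ℤ) * g.1) * T ^ (-S.k * g.1) := by
    rw [A, (sz_T_comm_zpow (S.F ^ S.N) (-S.k)).mul_zpow, ← zpow_natCast, ← zpow_mul, ← zpow_mul]
  have h2 : S.F ^ ((S.N : ℤ) * g.1) * S.G ^ g.2 * T ^ (-S.k * g.1) = 1 := by
    rw [← h, h1, mul_assoc, mul_assoc, (sz_T_comm_zpow (S.G ^ g.2) (-S.k * g.1)).eq]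
  obtain ⟨h3, h4⟩ := S.faith _ _ _ h2
  have hN : (S.N : ℤ) ≠ 0 := by have := S.hN; omega
  exact Prod.ext ((mul_eq_zero.1 h3).resolve_left hN) h4

theorem comm_F_lam (g : ℤ × ℤ) : Commute S.F (S.lam g) := by
  exact (S.comm_FA.zpow_right _).mul_right (S.comm.zpow_right _)

theorem comm_A_lam (g : ℤ × ℤ) : Commute S.A (S.lam g) := by
  exact ((Commute.refl S.A).zpow_right _).mul_right (S.comm_AG.zpow_right _)

theorem comm_G_lam (g : ℤ × ℤ) : Commute S.G (S.lam g) := by
  exact (S.comm_AG.symm.zpow_right _).mul_right ((Commute.refl S.G).zpow_right _)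

theorem lam_fix (g : ℤ × ℤ) {x : ℝ} (hx : x ∈ S.K) : S.lam g x = x := by
  rw [lam, D.mul_apply, sz_zpow_fix _ hx.2, sz_zpow_fix _ hx.1]

theorem K_nonempty : S.K.Nonempty := by
  obtain ⟨x, hx⟩ := S.fixA
  obtain ⟨y, hy⟩ := S.fixG
  have hA : S.A x = x := by rw [S.A_apply, hx]; ring
  obtain ⟨p, hp, hlim⟩ := sz_limit S.G hy x
  refine ⟨p, ?_, hp⟩
  have h1 : Tendsto (fun n : ℕ => S.A ((S.G ^ n) x)) atTop (𝓝 (S.A p)) :=
    ((D.continuous S.A).tendsto p).comp hlim
  have h2 : (fun n : ℕ => S.A ((S.G ^ n) x)) = fun n : ℕ => (S.G ^ n) x := by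
    funext n
    rw [sz_comm_apply (S.comm_AG.pow_right n), hA]
  rw [h2] at h1
  exact tendsto_nhds_unique h1 hlim

theorem K_closed : IsClosed S.K := by
  exact (isClosed_eq (D.continuous S.A) continuous_id).inter
    (isClosed_eq (D.continuous S.G) continuous_id)

/-- `K` is invariant under everything commuting with `A` and `G`. -/
theorem K_inv (h : D) (h1 : Commute h S.A) (h2 : Commute h S.G) (x : ℝ) :
    h x ∈ S.K ↔ x ∈ S.K := by
  have e1 : S.A (h x) = h (S.A x) := (sz_comm_apply h1 x).symm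
  have e2 : S.G (h x) = h (S.G x) := (sz_comm_apply h2 x).symm
  constructor
  · rintro ⟨a, b⟩
    rw [e1] at a
    rw [e2] at b
    exact ⟨D.injective h a, D.injective h b⟩
  · rintro ⟨a, b⟩
    exact ⟨by rw [e1, a], by rw [e2, b]⟩

theorem K_add_int (x : ℝ) (m : ℤ) : x + m ∈ S.K ↔ x ∈ S.K := by
  have := S.K_inv (T ^ m) (sz_T_comm_zpow S.A m).symm (sz_T_comm_zpow S.G m).symm x
  rwa [T_zpow_apply] at this

theorem K_ne_univ : ∃ x, x ∉ S.K := by
  by_contra hc
  push Not at hc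
  have h1 : S.A = 1 := D.ext (fun x => (hc x).1)
  have h2 := S.lam_faith (1, 0) (by simp [lam, h1])
  simp at h2

/-- A point moved by an integer by `F ^ N` is moved by `k`. -/
theorem unique_k {x : ℝ} {m : ℤ} (h : (S.F ^ S.N) x = x + m) : m = S.k := by
  obtain ⟨y, hy⟩ := S.fixA
  have hA : S.A x = x + (m - S.k : ℤ) := by rw [S.A_apply, h]; push_cast; ring
  have hAy : S.A y = y := by rw [S.A_apply, hy]; ring
  set j : ℤ := ⌊x - y⌋ with hj
  have h1 : y + j ≤ x := by have := Int.floor_le (x - y); linarith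
  have h2 : x < y + j + 1 := by have := Int.lt_floor_add_one (x - y); linarith
  have h3 : y + j ≤ S.A x := by
    calc y + j = S.A (y + j) := by rw [D.add_int, hAy]
      _ ≤ _ := (D.strictMono S.A).monotone h1
  have h4 : S.A x < y + j + 1 := by
    calc S.A x < S.A (y + j + 1) := D.strictMono S.A h2
      _ = _ := by rw [D.add_one, D.add_int, hAy]
  rw [hA] at h3 h4
  have h5 : ((m - S.k : ℤ) : ℝ) < 1 := by linarith
  have h6 : (-1 : ℝ) < ((m - S.k : ℤ) : ℝ) := by linarith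
  have h7 : m - S.k < 1 := by exact_mod_cast h5
  have h8 : -1 < m - S.k := by exact_mod_cast h6
  omega

theorem sz_F_zpow {z : ℝ} (hz : z ∈ S.K) (i : ℤ) : (S.F ^ ((S.N : ℤ) * i)) z = z + S.k * i := by
  have h1 : S.F ^ S.N = S.A * T ^ S.k := by
    rw [A, mul_assoc, ← zpow_add, neg_add_cancel, zpow_zero, mul_one]
  rw [zpow_mul, zpow_natCast, h1, (sz_T_comm_zpow S.A S.k).mul_zpow, D.mul_apply, ← zpow_mul,
    T_zpow_apply, D.add_int, sz_zpow_fix _ hz.1]
  push_cast; ring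

/-- the order of the orbit of a point of `K` -/
theorem sz_ord {z : ℝ} (hz : z ∈ S.K) (i l : ℤ) :
    (z < (S.F ^ i) z + l ↔ 0 < i * S.k + l * S.N) ∧
    ((S.F ^ i) z + l < z ↔ i * S.k + l * S.N < 0) := by
  set h : D := S.F ^ i * T ^ l with hh
  have e1 : (S.F ^ i) z + l = h z := by rw [hh, D.mul_apply, T_zpow_apply, D.add_int]
  have e2 : (h ^ S.N) z = z + ((i * S.k + l * S.N : ℤ) : ℝ) := by
    rw [hh, (sz_T_comm_zpow (S.F ^ i) l).mul_pow, D.mul_apply, ← zpow_natCast, ← zpow_natCast,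
      ← zpow_mul, ← zpow_mul, T_zpow_apply, D.add_int, mul_comm i, S.sz_F_zpow hz]
    push_cast; ring
  rw [e1]
  have a1 : z < h z → 0 < i * S.k + l * S.N := by
    intro hlt
    have := sz_lt_pow h hlt S.hN
    rw [e2] at this
    have h3 : (0 : ℝ) < ((i * S.k + l * S.N : ℤ) : ℝ) := by linarith
    exact_mod_cast h3
  have a2 : h z < z → i * S.k + l * S.N < 0 := by
    intro hlt
    have := sz_pow_lt h hlt S.hN
    rw [e2] at this
    have h3 : ((i * S.k + l * S.N : ℤ) : ℝ) < 0 := by linarith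
    exact_mod_cast h3
  have a3 : h z = z → i * S.k + l * S.N = 0 := by
    intro heq
    have := sz_pow_fix h heq S.N
    rw [e2] at this
    have h3 : ((i * S.k + l * S.N : ℤ) : ℝ) = 0 := by linarith
    exact_mod_cast h3
  rcases lt_trichotomy z (h z) with hlt | heq | hgt
  · have b := a1 hlt
    exact ⟨⟨fun _ => b, fun _ => hlt⟩, ⟨fun hc => absurd hc (not_lt.2 hlt.le),
      fun hc => by omega⟩⟩
  · have b := a3 heq.symm
    exact ⟨⟨fun hc => absurd heq hc.ne, fun hc => by omega⟩,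
      ⟨fun hc => absurd heq.symm hc.ne, fun hc => by omega⟩⟩
  · have b := a2 hgt
    exact ⟨⟨fun hc => absurd hc (not_lt.2 hgt.le), fun hc => by omega⟩,
      ⟨fun _ => b, fun _ => hgt⟩⟩

/-- the order of the orbit of a point of `K` -/
theorem sz_ord_le {z : ℝ} (hz : z ∈ S.K) (i l i' l' : ℤ) :
    (S.F ^ i) z + l ≤ (S.F ^ i') z + l' ↔ i * S.k + l * S.N ≤ i' * S.k + l' * S.N := by
  have h1 := (S.sz_ord hz (i' - i) (l' - l)).2
  have e : (S.F ^ i) ((S.F ^ (i' - i)) z + ((l' - l : ℤ) : ℝ)) + l = (S.F ^ i') z + l' := by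
    rw [D.add_int, ← D.mul_apply, ← zpow_add]
    push_cast
    rw [show i + (i' - i) = i' by ring]; ring
  rw [← not_lt, ← not_lt, not_iff_not, ← e, add_lt_add_iff_right, (D.strictMono _).lt_iff_lt, h1]
  constructor
  · intro h; linarith
  · intro h; linarith

end Sys2

/-- `z₁` is the next point after `z ∈ K` of its orbit under `⟨F, T⟩`. -/
structure Nxt (S : Sys2) (z z₁ : ℝ) : Prop where
  hz : z ∈ S.K
  lt : z < z₁
  le : z₁ ≤ z + 1
  ex : ∃ (j : ℕ) (l : ℤ), j < S.N ∧ (S.F ^ j) z + l = z₁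
  disj : ∀ i i' : ℕ, i < S.N → i' < S.N → ∀ m m' : ℤ, ∀ x ∈ Ioo z z₁, ∀ y ∈ Ioo z z₁,
    (S.F ^ i) x + m = (S.F ^ i') y + m' → i = i' ∧ m = m'

theorem Nxt.hz₁ {S : Sys2} {z z₁ : ℝ} (h : Nxt S z z₁) : z₁ ∈ S.K := by
  obtain ⟨j, l, -, e⟩ := h.ex
  rw [← e, S.K_add_int]
  exact (S.K_inv (S.F ^ j) (S.comm_FA.pow_left j) (S.comm.pow_left j) z).2 h.hz

theorem exists_nxt (S : Sys2) {z : ℝ} (hz : z ∈ S.K) : ∃ z₁, Nxt S z z₁ := by
  have hN : (0 : ℤ) < S.N := by have := S.hN; omega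
  obtain ⟨u, v, huv⟩ := S.cop
  -- `v * k + u * N = 1`
  set j₀ : ℤ := v % S.N with hj₀
  set l₀ : ℤ := u + (v / S.N) * S.k with hl₀
  have h0 : 0 ≤ j₀ := Int.emod_nonneg _ hN.ne'
  have h1 : j₀ < S.N := Int.emod_lt_of_pos _ hN
  have h2 : j₀ * S.k + l₀ * S.N = 1 := by
    have h3 := Int.emod_add_mul_ediv v S.N
    have h4 : j₀ = v - S.N * (v / S.N) := by rw [hj₀]; linarith
    rw [h4, hl₀]
    linear_combination huv
  set z₁ : ℝ := (S.F ^ j₀) z + l₀ with hz₁
  have hord := S.sz_ord_le hz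
  refine ⟨z₁, hz, ?_, ?_, ⟨j₀.toNat, l₀, by omega, ?_⟩, ?_⟩
  · exact ((S.sz_ord hz j₀ l₀).1).2 (by rw [h2]; exact one_pos)
  · have h3 := (hord j₀ l₀ 0 1).2 (by rw [h2]; linarith)
    calc z₁ ≤ (S.F ^ (0 : ℤ)) z + ((1 : ℤ) : ℝ) := h3
      _ = z + 1 := by rw [zpow_zero, D.one_apply, Int.cast_one]
  · rw [hz₁]
    congr 1
    rw [← zpow_natCast, Int.toNat_of_nonneg h0]
  · intro i i' hi hi' m m' x hx y hy e
    have e' : (S.F ^ ((i : ℤ) - i')) x + ((m - m' : ℤ) : ℝ) = y := by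
      have h5 : (S.F ^ (i' : ℤ)) ((S.F ^ ((i : ℤ) - i')) x + ((m - m' : ℤ) : ℝ)) =
          (S.F ^ (i' : ℤ)) y := by
        rw [D.add_int, ← D.mul_apply, ← zpow_add, show (i' : ℤ) + (i - i') = i by ring,
          zpow_natCast, zpow_natCast, Int.cast_sub]
        linarith
      exact D.injective _ h5
    set v' : ℤ := ((i : ℤ) - i') * S.k + (m - m') * S.N with hv'
    have hv0 : v' = 0 := by
      by_contra hne
      rcases lt_or_gt_of_ne hne with hlt | hgt
      · -- the image of `z₁` is at most `z`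
        have h6 : (S.F ^ ((i : ℤ) - i')) z₁ + ((m - m' : ℤ) : ℝ) ≤ z := by
          have h7 := (hord ((i : ℤ) - i' + j₀) (m - m' + l₀) 0 0).2 (by
            have : ((i : ℤ) - i' + j₀) * S.k + (m - m' + l₀) * S.N = v' + 1 := by
              rw [← h2, hv']; ring
            rw [this]; simp; omega)
          have e7 : (S.F ^ ((i : ℤ) - i')) z₁ + ((m - m' : ℤ) : ℝ) =
              (S.F ^ ((i : ℤ) - i' + j₀)) z + ((m - m' + l₀ : ℤ) : ℝ) := by
            rw [hz₁, D.add_int, ← D.mul_apply, ← zpow_add]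
            push_cast; ring
          rw [e7]
          refine h7.trans ?_
          rw [zpow_zero, D.one_apply, Int.cast_zero, add_zero]
        have h8 := D.strictMono (S.F ^ ((i : ℤ) - i')) hx.2
        have h9 := hy.1
        rw [← e'] at h9
        linarith
      · have h6 : z₁ ≤ (S.F ^ ((i : ℤ) - i')) z + ((m - m' : ℤ) : ℝ) := by
          have h7 := (hord j₀ l₀ ((i : ℤ) - i') (m - m')).2 (by rw [h2, ← hv']; omega)
          exact h7
        have h8 := D.strictMono (S.F ^ ((i : ℤ) - i')) hx.1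
        have h9 := hy.2
        rw [← e'] at h9
        linarith
    have hdvd : (S.N : ℤ) ∣ (i : ℤ) - i' := by
      have h10 : (S.N : ℤ) ∣ ((i : ℤ) - i') * S.k := ⟨-(m - m'), by linarith⟩
      exact S.cop.dvd_of_dvd_mul_right h10
    have hii : (i : ℤ) - i' = 0 := by
      obtain ⟨c, hc⟩ := hdvd
      have h11 : c < 1 := by
        by_contra hcon
        push Not at hcon
        nlinarith
      have h12 : -1 < c := by
        by_contra hcon
        push Not at hcon
        nlinarith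
      have : c = 0 := by omega
      rw [hc, this, mul_zero]
    have hmm : m - m' = 0 := by
      rw [hii, zero_mul, zero_add] at hv'
      rw [hv0] at hv'
      exact (mul_eq_zero.1 hv'.symm).resolve_right hN.ne'
    exact ⟨by omega, by omega⟩

/-- `f - id` is flat at `z` (and `f z = z`). -/
def Flat (f : ℝ → ℝ) (z : ℝ) : Prop := ∀ i : ℕ, iteratedDeriv i (fun x => f x - x) z = 0

/-- supported in the translates of the open interval `(z, z₁)` -/
def SuppJ (z z₁ : ℝ) (f : ℝ → ℝ) : Prop := ∀ x : ℝ, (∀ l : ℤ, x + l ∉ Ioo z z₁) → f x = x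

/-- supported in the translates of the closed interval `[c₁, c₂]` -/
def SuppC (c₁ c₂ : ℝ) (f : ℝ → ℝ) : Prop := ∀ x : ℝ, (∀ l : ℤ, x + l ∉ Icc c₁ c₂) → f x = x

/-- `(p₀, p₁)` is a component of the complement of `K` -/
structure Cons (S : Sys2) (p₀ p₁ : ℝ) : Prop where
  h₀ : p₀ ∈ S.K
  h₁ : p₁ ∈ S.K
  lt : p₀ < p₁
  disj : ∀ x ∈ Ioo p₀ p₁, x ∉ S.K

end Pool.Agent.Helper638.Ros
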