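import Pool.Agent.Helper638_Ros.Dist
import Pool.Agent.Helper638_Ros.Sys2Defs

/-!
# Rationality of the rotation numbers of a non free action (paper 2.1)
-/

set_option autoImplicit false

namespace Pool.Agent.Helper638.Ros

open Filter Function Set Topology MeasureTheory

theorem rat_Q (f : D) (n : ℕ) (x : ℝ) : Q (fun _ => (f : ℝ → ℝ)) n x = (f ^ n) x := by
  induction n with
  | zero => simp [Q]
  | succ n ih =>
    rw [pow_succ', D.mul_apply, ← ih]
    rfl

/-- bounded distortion constants of one element -/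
theorem rat_Bdd (f : D) : ∃ M : ℕ → ℝ, 0 ≤ M 1 ∧ Bdd (fun _ => (f : ℝ → ℝ)) M := by
  choose M hM using D.log_bdd f
  exact ⟨M, (hM 1).1, ⟨fun _ => D.smooth f, fun _ => D.pos f, fun _ i _ x => (hM i).2 x⟩⟩

/-- the component of the complement of the fixed point set -/
theorem rat_comp {g : D} {x₀ y : ℝ} (hx : g x₀ = x₀) (hy : g y ≠ y) :
    ∃ a b : ℝ, a < y ∧ y < b ∧ g a = a ∧ g b = b ∧ (∀ x ∈ Ioo a b, g x ≠ x) := by
  have hcl : IsClosed {x | g x = x} := isClosed_eq (D.continuous g) continuous_id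
  have hint : ∀ m : ℤ, g (x₀ + m) = x₀ + m := fun m => by rw [D.add_int, hx]
  -- left end
  have hL : (({x | g x = x} ∩ Iic y)).Nonempty := by
    refine ⟨x₀ + ⌊y - x₀⌋, hint _, ?_⟩
    have := Int.floor_le (y - x₀)
    simp only [mem_Iic]; linarith
  have hLb : BddAbove ({x | g x = x} ∩ Iic y) := ⟨y, fun x hx => hx.2⟩
  have hLc : IsClosed ({x | g x = x} ∩ Iic y) := hcl.inter isClosed_Iic
  have ha := hLc.csSup_mem hL hLb
  -- right end
  have hR : (({x | g x = x} ∩ Ici y)).Nonempty := by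
    refine ⟨x₀ + ⌈y - x₀⌉, hint _, ?_⟩
    have := Int.le_ceil (y - x₀)
    simp only [mem_Ici]; linarith
  have hRb : BddBelow ({x | g x = x} ∩ Ici y) := ⟨y, fun x hx => hx.2⟩
  have hRc : IsClosed ({x | g x = x} ∩ Ici y) := hcl.inter isClosed_Ici
  have hb := hRc.csInf_mem hR hRb
  refine ⟨sSup ({x | g x = x} ∩ Iic y), sInf ({x | g x = x} ∩ Ici y), ?_, ?_, ha.1, hb.1, ?_⟩
  · refine lt_of_le_of_ne ha.2 ?_
    intro h
    have := ha.1
    rw [h] at this
    exact hy this
  · refine lt_of_le_of_ne hb.2 ?_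
    intro h
    have := hb.1
    rw [← h] at this
    exact hy this
  · intro x hx hfix
    rcases le_total x y with h | h
    · exact absurd (le_csSup hLb ⟨hfix, h⟩) (not_le.2 hx.1)
    · exact absurd (csInf_le hRb ⟨hfix, h⟩) (not_le.2 hx.2)

/-- two intervals without fixed points inside and with fixed ends are equal or disjoint -/
theorem rat_disj {g : D} {a b a' b' : ℝ} (ha : g a = a) (hb : g b = b)
    (h : ∀ x ∈ Ioo a b, g x ≠ x) (ha' : g a' = a') (hb' : g b' = b')
    (h' : ∀ x ∈ Ioo a' b', g x ≠ x) (hne : a ≠ a') : Disjoint (Ioo a b) (Ioo a' b') := by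
  rw [Set.disjoint_left]
  intro x hx hx'
  rcases lt_or_gt_of_ne hne with hlt | hgt
  · exact h a' ⟨hlt, hx'.1.trans hx.2⟩ ha'
  · exact h' a ⟨hgt, hx.1.trans hx'.2⟩ ha

theorem rat_img {f g : D} (hc : Commute f g) {a b : ℝ} (ha : g a = a) (hb : g b = b)
    (h : ∀ x ∈ Ioo a b, g x ≠ x) :
    g (f a) = f a ∧ g (f b) = f b ∧ (∀ x ∈ Ioo (f a) (f b), g x ≠ x) := by
  refine ⟨by rw [← sz_comm_apply hc, ha], by rw [← sz_comm_apply hc, hb], ?_⟩
  intro x hx hfix
  obtain ⟨y, rfl⟩ := D.surjective f x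
  have h1 := (D.strictMono f).lt_iff_lt.1 hx.1
  have h2 := (D.strictMono f).lt_iff_lt.1 hx.2
  apply h y ⟨h1, h2⟩
  rw [← sz_comm_apply hc] at hfix
  exact D.injective f hfix

/-- the total length of the images of the interval -/
theorem rat_sum {f g : D} (hc : Commute f g)
    (hno : ∀ (q : ℕ) (p : ℤ), 1 ≤ q → ∀ x, (f ^ q) x ≠ x + p)
    {a b : ℝ} (hab : a < b) (ha : g a = a) (hb : g b = b) (h : ∀ x ∈ Ioo a b, g x ≠ x) (m : ℕ) :
    ∑ n ∈ Finset.range m, ((f ^ n) b - (f ^ n) a) ≤ 2 := by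
  have hb1 : b ≤ a + 1 := by
    by_contra hcon
    push Not at hcon
    exact h (a + 1) ⟨by linarith, hcon⟩ (by rw [D.add_one, ha])
  -- translated intervals
  set l : ℕ → ℤ := fun n => ⌊(f ^ n) a⌋ with hl
  set h' : ℕ → D := fun n => f ^ n * T ^ (-l n) with hh'
  have hval : ∀ n x, h' n x = (f ^ n) x - l n := by
    intro n x
    rw [hh', D.mul_apply, T_zpow_apply, D.add_int]
    push_cast; ring
  have hcom : ∀ n, Commute (h' n) g := fun n =>
    (hc.pow_left n).mul_left (sz_T_comm_zpow g (-l n)).symm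
  have himg := fun n => rat_img (hcom n) ha hb h
  have h0 : ∀ n, 0 ≤ h' n a := fun n => by
    rw [hval]; have := Int.floor_le ((f ^ n) a); simp only [hl]; linarith
  have h1 : ∀ n, h' n a < 1 := fun n => by
    rw [hval]; have := Int.lt_floor_add_one ((f ^ n) a); simp only [hl]; linarith
  have h2 : ∀ n, h' n b ≤ 2 := fun n => by
    have h3 : h' n b ≤ h' n (a + 1) := (D.strictMono (h' n)).monotone hb1
    rw [D.add_one] at h3
    have := h1 n
    linarith
  have hinj : ∀ n n' : ℕ, n < n' → h' n a ≠ h' n' a := by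
    intro n n' hlt heq
    rw [hval, hval] at heq
    have e : (f ^ (n' - n)) ((f ^ n) a) = (f ^ n) a + ((l n' - l n : ℤ) : ℝ) := by
      rw [← D.mul_apply, ← pow_add, Nat.sub_add_cancel hlt.le, Int.cast_sub]
      linarith
    exact hno (n' - n) (l n' - l n) (by omega) _ e
  have hdisj : Pairwise (Function.onFun Disjoint (fun n => Ioo (h' n a) (h' n b))) := by
    intro n n' hne
    refine rat_disj (himg n).1 (himg n).2.1 (himg n).2.2 (himg n').1 (himg n').2.1
      (himg n').2.2 ?_
    rcases lt_or_gt_of_ne hne with hlt | hgt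
    · exact hinj n n' hlt
    · exact (hinj n' n hgt).symm
  have hvol : ∑ n ∈ Finset.range m, volume (Ioo (h' n a) (h' n b)) ≤ volume (Icc (0 : ℝ) 2) := by
    rw [← measure_biUnion_finset (fun n _ n' _ hne => hdisj hne) (fun n _ => measurableSet_Ioo)]
    refine measure_mono ?_
    intro x hx
    simp only [mem_iUnion] at hx
    obtain ⟨n, -, hx⟩ := hx
    exact ⟨(h0 n).trans hx.1.le, hx.2.le.trans (h2 n)⟩
  simp only [Real.volume_Ioo, Real.volume_Icc] at hvol
  rw [← ENNReal.ofReal_sum_of_nonneg (fun n _ => by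
    have := (D.strictMono (h' n)).monotone hab.le; linarith)] at hvol
  have h3 := (ENNReal.ofReal_le_ofReal_iff (by norm_num)).1 hvol
  calc ∑ n ∈ Finset.range m, ((f ^ n) b - (f ^ n) a)
      = ∑ n ∈ Finset.range m, (h' n b - h' n a) :=
        Finset.sum_congr rfl (fun n _ => by rw [hval, hval]; ring)
    _ ≤ 2 - 0 := h3
    _ = 2 := by norm_num

/-- If `f` commutes with a nontrivial `g` having a fixed point then some power of `f` moves some
point by an integer. -/
theorem rat_core {f g : D} (hc : Commute f g) (hg : g ≠ 1) {x₀ : ℝ} (hx : g x₀ = x₀) :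
    ∃ (q : ℕ) (p : ℤ), 1 ≤ q ∧ ∃ x, (f ^ q) x = x + p := by
  by_contra hcon
  have hno : ∀ (q : ℕ) (p : ℤ), 1 ≤ q → ∀ x, (f ^ q) x ≠ x + p := by
    intro q p hq x hx
    exact hcon ⟨q, p, hq, x, hx⟩
  obtain ⟨y, hy⟩ : ∃ y, g y ≠ y := by
    by_contra hall
    push Not at hall
    exact hg (D.ext hall)
  obtain ⟨a, b, hay, hyb, ha, hb, hfree⟩ := rat_comp hx hy
  have hab : a < b := hay.trans hyb
  have hsum := rat_sum hc hno hab ha hb hfree
  obtain ⟨M, hM, hBdd⟩ := rat_Bdd f
  -- lengths tend to zero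
  have hlen : Tendsto (fun n : ℕ => (f ^ n) b - (f ^ n) a) atTop (𝓝 0) := by
    have hs : Summable (fun n : ℕ => (f ^ n) b - (f ^ n) a) := by
      refine summable_of_sum_range_le (c := 2) (fun n => ?_) hsum
      have := (D.strictMono (f ^ n)).monotone hab.le
      linarith
    exact hs.tendsto_atTop_zero
  -- distortion of the powers of `f`
  have hdist : ∀ (n : ℕ) (u v : ℝ), u ∈ Icc a b → v ∈ Icc a b →
      deriv (f ^ n) u ≤ Real.exp (M 1 * 2) * deriv (f ^ n) v := by
    intro n u v hu hv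
    have h1 := hBdd.dist1 n u v
    have e : Q (fun _ => (f : ℝ → ℝ)) n = (f ^ n : D) := funext (fun x => rat_Q f n x)
    have h2 : ∑ c ∈ Finset.range n, |Q (fun _ => (f : ℝ → ℝ)) c u - Q (fun _ => (f : ℝ → ℝ)) c v| ≤
        2 := by
      refine le_trans (Finset.sum_le_sum (fun c _ => ?_)) (hsum n)
      rw [rat_Q, rat_Q]
      have m1 := (D.strictMono (f ^ c)).monotone hu.1
      have m2 := (D.strictMono (f ^ c)).monotone hu.2
      have m3 := (D.strictMono (f ^ c)).monotone hv.1
      have m4 := (D.strictMono (f ^ c)).monotone hv.2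
      rw [abs_le]
      constructor <;> linarith
    rw [e] at h1
    have h3 : Real.log (deriv (f ^ n : D) u) ≤ M 1 * 2 + Real.log (deriv (f ^ n : D) v) := by
      have := (le_abs_self _).trans (h1.trans (mul_le_mul_of_nonneg_left h2 hM))
      linarith
    have h4 := Real.exp_le_exp.2 h3
    rwa [Real.exp_add, Real.exp_log (D.pos _ _), Real.exp_log (D.pos _ _)] at h4
  -- derivatives of the powers of `g` are bounded on `(a, b)`
  have hbound : ∀ (γ : D), Commute f γ → γ a = a → γ b = b → ∀ x ∈ Ioo a b,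
      deriv γ x ≤ Real.exp (M 1 * 2) := by
    intro γ hγ hγa hγb x hx
    have hγx : γ x ∈ Icc a b := by
      constructor
      · rw [← hγa]; exact (D.strictMono γ).monotone hx.1.le
      · rw [← hγb]; exact (D.strictMono γ).monotone hx.2.le
    have h1 : ∀ n : ℕ, deriv γ x ≤ Real.exp (M 1 * 2) * deriv γ ((f ^ n) x) := by
      intro n
      have e1 : deriv (γ * f ^ n : D) x = deriv (f ^ n * γ : D) x := by
        rw [(hγ.pow_left n).eq]
      rw [D.deriv_mul, D.deriv_mul] at e1
      have h2 := hdist n x (γ x) ⟨hx.1.le, hx.2.le⟩ hγx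
      have hp1 := D.pos (f ^ n) (γ x)
      have hp2 := D.pos γ ((f ^ n) x)
      have h3 : deriv (f ^ n : D) (γ x) * deriv γ x ≤
          deriv (f ^ n : D) (γ x) * (Real.exp (M 1 * 2) * deriv γ ((f ^ n) x)) := by
        rw [← e1]
        nlinarith
      exact le_of_mul_le_mul_left h3 hp1
    have h2 : Tendsto (fun n : ℕ => deriv γ ((f ^ n) x)) atTop (𝓝 1) := by
      have huc := D.unifCont γ 1
      rw [iteratedDeriv_one] at huc
      rw [Metric.tendsto_atTop]
      intro ε hε
      obtain ⟨δ, hδ, hδ2⟩ := Metric.uniformContinuous_iff.1 huc ε hε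
      obtain ⟨n₀, hn₀⟩ := Metric.tendsto_atTop.1 hlen δ hδ
      refine ⟨n₀, fun n hn => ?_⟩
      have hfn := D.strictMono (f ^ n) hab
      -- mean value theorem
      obtain ⟨ξ, hξ, hξ2⟩ := exists_deriv_eq_slope γ hfn (D.continuous γ).continuousOn
        (D.differentiable γ).differentiableOn
      have e2 : γ ((f ^ n) b) = (f ^ n) b := by rw [← sz_comm_apply (hγ.pow_left n), hγb]
      have e3 : γ ((f ^ n) a) = (f ^ n) a := by rw [← sz_comm_apply (hγ.pow_left n), hγa]
      rw [e2, e3, div_self (by linarith)] at hξ2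
      rw [← hξ2]
      apply hδ2
      have h4 := hn₀ n hn
      rw [Real.dist_eq, sub_zero, abs_of_pos (by linarith)] at h4
      have h5 := D.strictMono (f ^ n) hx.1
      have h6 := D.strictMono (f ^ n) hx.2
      rw [Real.dist_eq, abs_lt]
      constructor
      · linarith [hξ.1, hξ.2]
      · linarith [hξ.1, hξ.2]
    have h3 : Tendsto (fun n : ℕ => Real.exp (M 1 * 2) * deriv γ ((f ^ n) x)) atTop
        (𝓝 (Real.exp (M 1 * 2) * 1)) := h2.const_mul _
    rw [mul_one] at h3
    exact ge_of_tendsto' h3 h1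
  -- contradiction
  have hfinal : ∀ γ : D, Commute f γ → γ a = a → γ b = b → y < γ y → (∀ x ∈ Ioo a b, γ x ≠ x) →
      False := by
    intro γ hγ hγa hγb hyγ hfr
    have hfixn : ∀ n : ℕ, (γ ^ n) a = a ∧ (γ ^ n) b = b := fun n =>
      ⟨sz_pow_fix γ hγa n, sz_pow_fix γ hγb n⟩
    obtain ⟨p, hp, hlim⟩ := sz_limit γ hγa y
    have hlim2 : Tendsto (fun n : ℕ => (γ ^ n) (γ y)) atTop (𝓝 p) := by
      have h2 : Tendsto (fun n : ℕ => (γ ^ (n + 1)) y) atTop (𝓝 p) :=
        hlim.comp (tendsto_add_atTop_nat 1)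
      have h3 : (fun n : ℕ => (γ ^ (n + 1)) y) = fun n : ℕ => (γ ^ n) (γ y) := by
        funext n
        rw [pow_succ, D.mul_apply]
      rwa [h3] at h2
    have hdiff : Tendsto (fun n : ℕ => Real.exp (M 1 * 2) * ((γ ^ n) (γ y) - (γ ^ n) y)) atTop
        (𝓝 (Real.exp (M 1 * 2) * (p - p))) := (hlim2.sub hlim).const_mul _
    have hle : ∀ n : ℕ, γ y - y ≤ Real.exp (M 1 * 2) * ((γ ^ n) (γ y) - (γ ^ n) y) := by
      intro n
      have hlt : (γ ^ n) y < (γ ^ n) (γ y) := D.strictMono (γ ^ n) hyγ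
      have hcomm' : Commute f ((γ ^ n)⁻¹ : D) := (hγ.pow_right n).inv_right
      have hia : ((γ ^ n)⁻¹ : D) a = a := by
        have := D.inv_apply_self (γ ^ n) a
        rwa [(hfixn n).1] at this
      have hib : ((γ ^ n)⁻¹ : D) b = b := by
        have := D.inv_apply_self (γ ^ n) b
        rwa [(hfixn n).2] at this
      have hγyb : γ y < b := by
        have := D.strictMono γ hyb
        rwa [hγb] at this
      have hya : a < (γ ^ n) y := by
        have := D.strictMono (γ ^ n) hay
        rwa [(hfixn n).1] at this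
      have hyb' : (γ ^ n) (γ y) < b := by
        have := D.strictMono (γ ^ n) hγyb
        rwa [(hfixn n).2] at this
      obtain ⟨ξ, hξ, hξ2⟩ := exists_deriv_eq_slope ((γ ^ n)⁻¹ : D) hlt
        (D.continuous _).continuousOn (D.differentiable _).differentiableOn
      rw [D.inv_apply_self, D.inv_apply_self] at hξ2
      have h4 := hbound _ hcomm' hia hib ξ ⟨hya.trans hξ.1, hξ.2.trans hyb'⟩
      rw [hξ2, div_le_iff₀ (by linarith)] at h4
      exact h4
    have := ge_of_tendsto' hdiff hle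
    rw [sub_self, mul_zero] at this
    linarith
  have hfg : Commute f g := hc
  rcases lt_or_gt_of_ne hy with hlt | hgt
  · have hia : (g⁻¹ : D) a = a := by
      have := D.inv_apply_self g a
      rwa [ha] at this
    have hib : (g⁻¹ : D) b = b := by
      have := D.inv_apply_self g b
      rwa [hb] at this
    refine hfinal g⁻¹ hfg.inv_right hia hib ?_ ?_
    · have := D.strictMono (g⁻¹ : D) hlt
      rwa [D.inv_apply_self] at this
    · intro x hx h
      apply hfree x hx
      have := D.apply_inv_self g x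
      rwa [h] at this
  · exact hfinal g hfg ha hb hgt hfree

end Pool.Agent.Helper638.Ros
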