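import Pool.Agent.Helper638_Ros.Sys2Defs
import Pool.Agent.Helper638_Ros.ConvOps

/-!
# Reduction of a non free pair to the normal form `Sys2` (paper 2.2)
-/

set_option autoImplicit false

namespace Pool.Agent.Helper638.Ros

open Filter Function Set Topology

/-- the lift as an element of Mathlib's monoid -/
noncomputable def red_c (f : D) : CircleDeg1Lift :=
  ⟨⟨f, (D.strictMono f).monotone⟩, D.add_one f⟩

/-- the translation number -/
noncomputable def red_t (f : D) : ℝ := CircleDeg1Lift.translationNumber (red_c f)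

theorem red_c_apply (f : D) (x : ℝ) : red_c f x = f x := rfl

theorem red_c_mul (f g : D) : red_c (f * g) = red_c f * red_c g :=
  CircleDeg1Lift.ext fun _ => rfl

theorem red_c_one : red_c 1 = 1 := CircleDeg1Lift.ext fun _ => rfl

theorem red_c_pow (f : D) (n : ℕ) : red_c (f ^ n) = red_c f ^ n := by
  induction n with
  | zero => simp [red_c_one]
  | succ n ih => rw [pow_succ, red_c_mul, ih, pow_succ]

theorem red_t_mul {f g : D} (h : Commute f g) : red_t (f * g) = red_t f + red_t g := by
  unfold red_t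
  rw [red_c_mul]
  apply CircleDeg1Lift.translationNumber_mul_of_commute
  show red_c f * red_c g = red_c g * red_c f
  rw [← red_c_mul, ← red_c_mul, h.eq]

theorem red_t_one : red_t 1 = 0 := by
  unfold red_t
  rw [red_c_one, CircleDeg1Lift.translationNumber_one]

theorem red_t_inv (f : D) : red_t f⁻¹ = -red_t f := by
  have h := red_t_mul ((Commute.refl f).inv_right)
  rw [mul_inv_cancel, red_t_one] at h
  linarith

theorem red_t_pow (f : D) (n : ℕ) : red_t (f ^ n) = n * red_t f := by
  induction n with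
  | zero => simp [red_t_one]
  | succ n ih =>
    rw [pow_succ, red_t_mul ((Commute.refl f).pow_left n), ih]
    push_cast
    ring

theorem red_t_zpow (f : D) (k : ℤ) : red_t (f ^ k) = k * red_t f := by
  cases k with
  | ofNat k => simpa using red_t_pow f k
  | negSucc k =>
    rw [zpow_negSucc, red_t_inv, red_t_pow]
    push_cast [Int.negSucc_eq]
    ring

theorem red_iff (f : D) (q : ℕ) (p : ℤ) (hq : 0 < q) :
    red_t f = p / q ↔ ∃ x, (f ^ q) x = x + p := by
  unfold red_t
  rw [CircleDeg1Lift.translationNumber_eq_rat_iff (red_c f) (D.continuous f) hq]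
  rw [← red_c_pow]
  rfl

theorem reduce {F G : D} (hc : Commute F G) (hf : Faithful F G)
    (hF : ∃ (q : ℕ) (p : ℤ), 1 ≤ q ∧ ∃ x, (F ^ q) x = x + p)
    (hG : ∃ (q : ℕ) (p : ℤ), 1 ≤ q ∧ ∃ x, (G ^ q) x = x + p) :
    ∃ (S : Sys2) (a b c d : ℤ), (a * d - b * c = 1 ∨ a * d - b * c = -1) ∧
      S.F = F ^ a * G ^ b ∧ S.G = F ^ c * G ^ d := by
  obtain ⟨q1, p1, hq1, h1⟩ := hF
  obtain ⟨q2, p2, hq2, h2⟩ := hG
  rw [← red_iff F q1 p1 hq1] at h1
  rw [← red_iff G q2 p2 hq2] at h2
  have hq1' : (q1 : ℝ) ≠ 0 := by positivity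
  have hq2' : (q2 : ℝ) ≠ 0 := by positivity
  set Q : ℤ := (q1 : ℤ) * q2 with hQ
  set P : ℤ := p1 * q2 with hP
  set P' : ℤ := p2 * q1 with hP'
  have hQ0 : (Q : ℝ) ≠ 0 := by rw [hQ]; push_cast; positivity
  have h1' : red_t F = P / Q := by
    rw [h1, hP, hQ]; push_cast; field_simp
  have h2' : red_t G = P' / Q := by
    rw [h2, hP', hQ]; push_cast; field_simp
  obtain ⟨a, b, c, d, g, hdet, hg1, hg2⟩ : ∃ a b c d g : ℤ, a * d - b * c = 1 ∧
      a * P + b * P' = g ∧ c * P + d * P' = 0 := by
    by_cases h0 : P = 0 ∧ P' = 0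
    · exact ⟨1, 0, 0, 1, 0, by ring, by rw [h0.1, h0.2]; ring, by rw [h0.1, h0.2]; ring⟩
    · have hg : (Int.gcd P P' : ℤ) ≠ 0 := by
        intro h
        apply h0
        have := Int.gcd_eq_zero_iff.1 (by exact_mod_cast h : Int.gcd P P' = 0)
        exact this
      obtain ⟨u, hu⟩ := Int.gcd_dvd_left (a := P) (b := P')
      obtain ⟨v, hv⟩ := Int.gcd_dvd_right (a := P) (b := P')
      refine ⟨Int.gcdA P P', Int.gcdB P P', -v, u, Int.gcd P P', ?_, ?_, ?_⟩
      · have hb := Int.gcd_eq_gcd_ab P P'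
        apply mul_left_cancel₀ hg
        calc (Int.gcd P P' : ℤ) * (Int.gcdA P P' * u - Int.gcdB P P' * -v)
            = (Int.gcd P P' * u) * Int.gcdA P P' + (Int.gcd P P' * v) * Int.gcdB P P' := by ring
          _ = P * Int.gcdA P P' + P' * Int.gcdB P P' := by rw [← hu, ← hv]
          _ = Int.gcd P P' * 1 := by rw [← hb]; ring
      · have hb := Int.gcd_eq_gcd_ab P P'
        rw [hb]; ring
      · calc -v * P + u * P' = -v * (Int.gcd P P' * u) + u * (Int.gcd P P' * v) := by
              rw [← hu, ← hv]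
          _ = 0 := by ring
  have hdet' : a * d - b * c = 1 ∨ a * d - b * c = -1 := Or.inl hdet
  set r : ℚ := (g : ℚ) / Q with hr
  have hX : red_t (F ^ a * G ^ b) = r.num / r.den := by
    rw [red_t_mul (hc.zpow_zpow a b), red_t_zpow, red_t_zpow, h1', h2']
    have e1 : ((r.num : ℝ)) / r.den = (r : ℝ) := (Rat.cast_def r).symm
    rw [e1, hr, ← hg1]
    push_cast
    field_simp
  have hY : red_t (F ^ c * G ^ d) = (0 : ℤ) / (1 : ℕ) := by
    rw [red_t_mul (hc.zpow_zpow c d), red_t_zpow, red_t_zpow, h1', h2']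
    have : (c : ℝ) * P + d * P' = 0 := by exact_mod_cast hg2
    field_simp
    simpa using this
  have hXf := (red_iff (F ^ a * G ^ b) r.den r.num r.den_pos).1 hX
  have hYf := (red_iff (F ^ c * G ^ d) 1 0 one_pos).1 hY
  refine ⟨{ F := F ^ a * G ^ b
            G := F ^ c * G ^ d
            N := r.den
            k := r.num
            comm := ?_
            faith := faithful_base hc hf a b c d hdet'
            hN := r.den_pos
            cop := ?_
            fixA := hXf
            fixG := ?_ }, a, b, c, d, hdet', rfl, rfl⟩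
  · have h2 : Commute (F ^ a) (F ^ c * G ^ d) :=
      ((Commute.refl F).zpow_zpow _ _).mul_right (hc.zpow_zpow _ _)
    have h3 : Commute (G ^ b) (F ^ c * G ^ d) :=
      (hc.symm.zpow_zpow _ _).mul_right ((Commute.refl G).zpow_zpow _ _)
    exact h2.mul_left h3
  · rw [Int.isCoprime_iff_gcd_eq_one, Int.gcd_comm]
    have := r.reduced
    rw [Int.gcd_def]
    simpa using this
  · obtain ⟨x, hx⟩ := hYf
    exact ⟨x, by simpa using hx⟩

end Pool.Agent.Helper638.Ros
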