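import Pool.Agent.Helper638_Ros.NonConj
import Pool.Agent.Helper638_Ros.Flat
import Pool.Agent.Helper638_Ros.Red
import Pool.Agent.Helper638_Ros.Rat
import Pool.Agent.Helper638_Ros.SysMk

/-!
# Case 2: non free actions are not structurally stable
-/

set_option autoImplicit false

namespace Pool.Agent.Helper638.Ros

open Filter Function Set Topology

theorem case2 {F G : D} (hc : Commute F G) (hf : Faithful F G) (h : ¬ FreeAct F G) :
    Unst F G := by
  unfold FreeAct at h
  push Not at h
  obtain ⟨g, hg, x, hx⟩ := h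
  have hne : act F G g ≠ 1 := by
    intro h1
    have h2 := hf g.1 g.2.1 g.2.2 h1
    have h3 : T ^ g.2.2 = 1 := by
      have : F ^ g.1 * G ^ g.2.1 * T ^ g.2.2 = 1 := h1
      rw [h2.1, h2.2] at this
      simpa using this
    have h4 : (g.2.2 : ℝ) = 0 := by
      have h5 : (T ^ g.2.2) 0 = 0 := by rw [h3]; rfl
      rw [T_zpow_apply] at h5
      linarith
    have h6 : g.2.2 = 0 := by exact_mod_cast h4
    apply hg
    exact Prod.ext h2.1 (Prod.ext h2.2 h6)
  have hcF : Commute F (act F G g) :=
    (((Commute.refl F).zpow_right _).mul_right (hc.zpow_right _)).mul_right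
      ((T_comm F).symm.zpow_right _)
  have hcG : Commute G (act F G g) :=
    ((hc.symm.zpow_right _).mul_right ((Commute.refl G).zpow_right _)).mul_right
      ((T_comm G).symm.zpow_right _)
  obtain ⟨S, a, b, c, d, hdet, hSF, hSG⟩ := reduce hc hf (rat_core hcF hne hx)
    (rat_core hcG hne hx)
  refine unst_base hc a b c d hdet ?_
  rw [← hSF, ← hSG]
  by_cases hnf : NonFlat S
  · exact nonflat_unst hnf
  · unfold NonFlat at hnf
    push Not at hnf
    obtain ⟨z, hz, hA, hG⟩ := hnf
    exact flat_unst S hz hA hG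

end Pool.Agent.Helper638.Ros
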