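import Mathlib

/-!
# Commuting circle diffeomorphisms: basic definitions
-/

set_option autoImplicit false

namespace Pool.Agent.Helper638.Ros

open Filter Function Set Topology

/-- `C^infinity` functions on the line. -/
abbrev Smooth (f : ℝ → ℝ) : Prop := ContDiff ℝ ((⊤ : ℕ∞) : WithTop ℕ∞) f

/-- Lifts of orientation preserving smooth circle diffeomorphisms. -/
structure IsD (f : ℝ → ℝ) : Prop where
  smooth : Smooth f
  add_one : ∀ x, f (x + 1) = f x + 1
  pos : ∀ x, 0 < deriv f x

theorem IsD.strictMono {f : ℝ → ℝ} (hf : IsD f) : StrictMono f := strictMono_of_deriv_pos hf.pos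

theorem IsD.add_nat {f : ℝ → ℝ} (hf : IsD f) (k : ℕ) (x : ℝ) : f (x + k) = f x + k := by
  induction k with
  | zero => simp
  | succ k ih => push_cast; rw [← add_assoc, hf.add_one, ih]; ring

theorem IsD.add_int {f : ℝ → ℝ} (hf : IsD f) (k : ℤ) (x : ℝ) : f (x + k) = f x + k := by
  cases k with
  | ofNat k => simpa using hf.add_nat k x
  | negSucc k =>
    have h := hf.add_nat (k + 1) (x + (Int.negSucc k : ℤ))
    have e : x + (Int.negSucc k : ℤ) + ((k + 1 : ℕ) : ℝ) = x := by
      push_cast [Int.negSucc_eq]; ring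
    rw [e] at h
    rw [h]; push_cast [Int.negSucc_eq]; ring

theorem IsD.surjective {f : ℝ → ℝ} (hf : IsD f) : Surjective f := by
  intro y
  obtain ⟨a, ha⟩ := exists_nat_ge (y - f 0)
  obtain ⟨b, hb⟩ := exists_nat_ge (f 0 - y)
  have h1 : f (-(b : ℝ)) ≤ y := by
    have := hf.add_int (-(b : ℤ)) 0
    simp at this
    rw [this]; linarith
  have h2 : y ≤ f a := by
    have := hf.add_int (a : ℤ) 0
    simp at this
    rw [this]; linarith
  exact mem_range_of_exists_le_of_exists_ge hf.smooth.continuous ⟨_, h1⟩ ⟨_, h2⟩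

/-- the bijection given by a lift -/
noncomputable def IsD.equiv {f : ℝ → ℝ} (hf : IsD f) : Equiv.Perm ℝ :=
  (hf.strictMono.orderIsoOfSurjective f hf.surjective).toEquiv

@[simp] theorem IsD.equiv_apply {f : ℝ → ℝ} (hf : IsD f) (x : ℝ) : hf.equiv x = f x := rfl

theorem IsD.symm {f : ℝ → ℝ} (hf : IsD f) : IsD (hf.equiv.symm : ℝ → ℝ) := by
  let e : ℝ ≃ₜ ℝ := (hf.strictMono.orderIsoOfSurjective f hf.surjective).toHomeomorph
  have hs : Smooth (hf.equiv.symm : ℝ → ℝ) :=
    e.contDiff_symm_deriv (f' := deriv f) (fun x => (hf.pos x).ne')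
      (fun x => (hf.smooth.differentiable (by simp) x).hasDerivAt) hf.smooth
  refine ⟨hs, ?_, ?_⟩
  · intro x
    apply hf.equiv.injective
    rw [hf.equiv_apply, hf.equiv_apply, hf.add_one, ← hf.equiv_apply, ← hf.equiv_apply]
    simp
  · intro x
    have h1 : HasDerivAt f (deriv f (hf.equiv.symm x)) (hf.equiv.symm x) :=
      (hf.smooth.differentiable (by simp) _).hasDerivAt
    have h2 : HasDerivAt (hf.equiv.symm : ℝ → ℝ) (deriv f (hf.equiv.symm x))⁻¹ x := by
      refine HasDerivAt.of_local_left_inverse hs.continuous.continuousAt h1 (hf.pos _).ne' ?_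
      exact Eventually.of_forall (fun y => hf.equiv.apply_symm_apply y)
    rw [h2.deriv]
    exact inv_pos.2 (hf.pos _)

theorem IsD.comp {f g : ℝ → ℝ} (hf : IsD f) (hg : IsD g) : IsD (f ∘ g) := by
  refine ⟨hf.smooth.comp hg.smooth, fun x => ?_, fun x => ?_⟩
  · simp [hg.add_one, hf.add_one]
  · rw [deriv_comp x (hf.smooth.differentiable (by simp) _) (hg.smooth.differentiable (by simp) _)]
    exact mul_pos (hf.pos _) (hg.pos _)

theorem IsD.id : IsD (id : ℝ → ℝ) := ⟨contDiff_id, fun _ => rfl, fun x => by simp⟩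

/-- The group of lifts of orientation preserving smooth circle diffeomorphisms. -/
def D : Subgroup (Equiv.Perm ℝ) where
  carrier := {f | IsD (f : ℝ → ℝ) ∧ IsD (f.symm : ℝ → ℝ)}
  mul_mem' := by
    rintro f g hf hg
    exact ⟨hf.1.comp hg.1, hg.2.comp hf.2⟩
  one_mem' := ⟨IsD.id, IsD.id⟩
  inv_mem' := by
    rintro f hf
    exact ⟨hf.2, hf.1⟩

noncomputable instance : CoeFun D (fun _ => ℝ → ℝ) := ⟨fun f => ((f : Equiv.Perm ℝ) : ℝ → ℝ)⟩

/-- The element of `D` given by a lift. -/
noncomputable def mk (f : ℝ → ℝ) (hf : IsD f) : D := ⟨hf.equiv, hf, hf.symm⟩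

@[simp] theorem mk_apply (f : ℝ → ℝ) (hf : IsD f) (x : ℝ) : mk f hf x = f x := rfl

theorem D.isD (f : D) : IsD f := f.2.1
theorem D.smooth (f : D) : Smooth f := f.2.1.smooth
theorem D.pos (f : D) (x : ℝ) : 0 < deriv f x := f.2.1.pos x
theorem D.strictMono (f : D) : StrictMono f := f.2.1.strictMono
theorem D.continuous (f : D) : Continuous f := f.2.1.smooth.continuous
theorem D.differentiable (f : D) : Differentiable ℝ f := f.2.1.smooth.differentiable (by simp)
theorem D.add_one (f : D) (x : ℝ) : f (x + 1) = f x + 1 := f.2.1.add_one x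
theorem D.add_int (f : D) (k : ℤ) (x : ℝ) : f (x + k) = f x + k := f.2.1.add_int k x
theorem D.surjective (f : D) : Surjective f := f.2.1.surjective
theorem D.injective (f : D) : Injective f := (f : Equiv.Perm ℝ).injective

@[simp] theorem D.mul_apply (f g : D) (x : ℝ) : (f * g) x = f (g x) := rfl
@[simp] theorem D.one_apply (x : ℝ) : (1 : D) x = x := rfl
@[simp] theorem D.inv_apply_self (f : D) (x : ℝ) : f⁻¹ (f x) = x := by
  show (f⁻¹ * f) x = x
  simp
@[simp] theorem D.apply_inv_self (f : D) (x : ℝ) : f (f⁻¹ x) = x := by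
  show (f * f⁻¹) x = x
  simp

theorem D.ext {f g : D} (h : ∀ x, f x = g x) : f = g := Subtype.ext (Equiv.ext h)

theorem D.coe_mul (f g : D) : ((f * g : D) : ℝ → ℝ) = f ∘ g := rfl

theorem D.deriv_mul (f g : D) (x : ℝ) : deriv (f * g : D) x = deriv f (g x) * deriv g x := by
  rw [D.coe_mul, deriv_comp x (D.differentiable f _) (D.differentiable g _)]

/-- The translation by `1`. -/
noncomputable def T : D := mk (fun x => x + 1)
  ⟨contDiff_id.add contDiff_const, fun x => rfl, fun x => by simp⟩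

@[simp] theorem T_apply (x : ℝ) : T x = x + 1 := rfl

theorem T_comm (f : D) : Commute T f := D.ext (fun x => by simp [D.add_one])

theorem T_pow_apply (n : ℕ) (x : ℝ) : (T ^ n) x = x + n := by
  induction n generalizing x with
  | zero => simp
  | succ n ih => rw [pow_succ, D.mul_apply, ih]; push_cast; simp; ring

theorem T_zpow_apply (n : ℤ) (x : ℝ) : (T ^ n) x = x + n := by
  cases n with
  | ofNat k => simpa using T_pow_apply k x
  | negSucc k =>
    rw [zpow_negSucc]
    apply D.injective (T ^ (k + 1))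
    rw [D.apply_inv_self, T_pow_apply]
    push_cast [Int.negSucc_eq]; ring

/-- Closeness in the `C^r` sense. -/
def Close (r : ℕ) (ε : ℝ) (f g : ℝ → ℝ) : Prop :=
  ∀ i : ℕ, i ≤ r → ∀ x : ℝ, |iteratedDeriv i f x - iteratedDeriv i g x| < ε

/-- Convergence in the `C^infinity` topology (uniform convergence of all derivatives). -/
def Conv (fn : ℕ → ℝ → ℝ) (f : ℝ → ℝ) : Prop :=
  ∀ i : ℕ, TendstoUniformly (fun n => iteratedDeriv i (fn n)) (iteratedDeriv i f) atTop

theorem Conv.close {fn : ℕ → ℝ → ℝ} {f : ℝ → ℝ} (h : Conv fn f) (r : ℕ) {ε : ℝ} (hε : 0 < ε) :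
    ∀ᶠ n in atTop, Close r ε (fn n) f := by
  have h1 : ∀ i ∈ Finset.range (r + 1), ∀ᶠ n in atTop, ∀ x : ℝ,
      |iteratedDeriv i (fn n) x - iteratedDeriv i f x| < ε := by
    intro i _
    have := Metric.tendstoUniformly_iff.1 (h i) ε hε
    filter_upwards [this] with n hn x
    rw [← Real.dist_eq, dist_comm]
    exact hn x
  rw [← eventually_all_finset] at h1
  filter_upwards [h1] with n hn i hi x
  exact hn i (Finset.mem_range.2 (by omega)) x

theorem conv_of_close {fn : ℕ → ℝ → ℝ} {f : ℝ → ℝ}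
    (h : ∀ r : ℕ, ∀ ε > 0, ∀ᶠ n in atTop, Close r ε (fn n) f) : Conv fn f := by
  intro i
  rw [Metric.tendstoUniformly_iff]
  intro ε hε
  filter_upwards [h i ε hε] with n hn x
  rw [dist_comm, Real.dist_eq]
  exact hn i le_rfl x

/-- `H` conjugates the circle map of `f'` to that of `f`. -/
def Intertw (H : ℝ → ℝ) (f' f : ℝ → ℝ) : Prop := ∃ j : ℤ, ∀ x : ℝ, H (f' x) = f (H x) + j

/-- `H` is a lift of a smooth circle diffeomorphism, of either orientation. -/
structure IsH (H : ℝ → ℝ) : Prop where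
  smooth : Smooth H
  per : (∀ x : ℝ, H (x + 1) = H x + 1) ∨ (∀ x : ℝ, H (x + 1) = H x - 1)
  ne : ∀ x : ℝ, deriv H x ≠ 0

/-- Smooth conjugacy of two pairs. -/
def Cnj (F' G' F G : D) : Prop := ∃ H : ℝ → ℝ, IsH H ∧ Intertw H F' F ∧ Intertw H G' G

/-- `(F, G)` is not structurally stable: there are commuting pairs converging to it in the
`C^infinity` topology none of which is smoothly conjugate to it. -/
def Unst (F G : D) : Prop := ∃ Fn Gn : ℕ → D, (∀ n, Commute (Fn n) (Gn n)) ∧
  Conv (fun n => Fn n) F ∧ Conv (fun n => Gn n) G ∧ ∀ n, ¬ Cnj (Fn n) (Gn n) F G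

/-- Faithfulness of the circle action of `ℤ²` generated by `F` and `G`. -/
def Faithful (F G : D) : Prop := ∀ i j l : ℤ, F ^ i * G ^ j * T ^ l = 1 → i = 0 ∧ j = 0

/-- The action of `ℤ³` generated by `F`, `G`, `T`. -/
noncomputable def act (F G : D) (g : ℤ × ℤ × ℤ) : D := F ^ g.1 * G ^ g.2.1 * T ^ g.2.2

end Pool.Agent.Helper638.Ros
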