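import Pool.Agent.Helper638_Ros.Calc

/-!
# Distortion estimates for compositions of a sequence of maps (paper 1.5, 1.8)
-/

set_option autoImplicit false

namespace Pool.Agent.Helper638.Ros

open Filter Function Set Topology

/-- the composition of the first `a` maps -/
def Q (f : ℕ → ℝ → ℝ) : ℕ → ℝ → ℝ
  | 0 => fun x => x
  | (a + 1) => fun x => f a (Q f a x)

/-- a sequence of diffeomorphisms with uniformly bounded distortion data -/
structure Bdd (f : ℕ → ℝ → ℝ) (M : ℕ → ℝ) : Prop where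
  smooth : ∀ a, Smooth (f a)
  pos : ∀ a x, 0 < deriv (f a) x
  bd : ∀ a i, 1 ≤ i → ∀ x, |iteratedDeriv i (fun y => Real.log (deriv (f a) y)) x| ≤ M i

theorem Bdd.Q_smooth {f : ℕ → ℝ → ℝ} {M : ℕ → ℝ} (h : Bdd f M) (a : ℕ) : Smooth (Q f a) := by
  induction a with
  | zero => exact contDiff_id
  | succ a ih => exact (h.smooth a).comp ih

theorem dst_deriv_succ {f : ℕ → ℝ → ℝ} {M : ℕ → ℝ} (h : Bdd f M) (a : ℕ) (x : ℝ) :
    deriv (Q f (a + 1)) x = deriv (f a) (Q f a x) * deriv (Q f a) x := by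
  have h1 : Q f (a + 1) = f a ∘ Q f a := rfl
  rw [h1, deriv_comp x ((h.smooth a).differentiable (by simp) _)
    ((h.Q_smooth a).differentiable (by simp) _)]

theorem Bdd.Q_pos {f : ℕ → ℝ → ℝ} {M : ℕ → ℝ} (h : Bdd f M) (a : ℕ) (x : ℝ) :
    0 < deriv (Q f a) x := by
  induction a with
  | zero =>
    have h1 : Q f 0 = fun x => x := rfl
    rw [h1, deriv_id'']
    exact one_pos
  | succ a ih =>
    rw [dst_deriv_succ h]
    exact mul_pos (h.pos _ _) ih

theorem Bdd.Q_strictMono {f : ℕ → ℝ → ℝ} {M : ℕ → ℝ} (h : Bdd f M) (a : ℕ) :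
    StrictMono (Q f a) := strictMono_of_deriv_pos (h.Q_pos a)

theorem dst_deriv_smooth {g : ℝ → ℝ} (hg : Smooth g) : Smooth (deriv g) :=
  (contDiff_infty_iff_deriv.1 hg).2

theorem dst_log_smooth {g : ℝ → ℝ} (hg : Smooth g) (hp : ∀ x, 0 < deriv g x) :
    Smooth (fun y => Real.log (deriv g y)) :=
  (dst_deriv_smooth hg).log fun x => (hp x).ne'

theorem dst_log_sum {f : ℕ → ℝ → ℝ} {M : ℕ → ℝ} (h : Bdd f M) (m : ℕ) (x : ℝ) :
    Real.log (deriv (Q f m) x) =
      ∑ a ∈ Finset.range m, Real.log (deriv (f a) (Q f a x)) := by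
  induction m with
  | zero =>
    have h1 : Q f 0 = fun x => x := rfl
    rw [h1, deriv_id'', Finset.sum_range_zero, Real.log_one]
  | succ m ih =>
    rw [dst_deriv_succ h, Real.log_mul (h.pos _ _).ne' (h.Q_pos _ _).ne', ih,
      Finset.sum_range_succ]
    ring

theorem dst_lip {f : ℕ → ℝ → ℝ} {M : ℕ → ℝ} (h : Bdd f M) (a : ℕ) (x y : ℝ) :
    |Real.log (deriv (f a) x) - Real.log (deriv (f a) y)| ≤ M 1 * |x - y| := by
  have h1 : ∀ z ∈ (univ : Set ℝ), ‖deriv (fun y => Real.log (deriv (f a) y)) z‖ ≤ M 1 := by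
    intro z _
    have := h.bd a 1 le_rfl z
    rwa [iteratedDeriv_one] at this
  have h2 := Convex.norm_image_sub_le_of_norm_deriv_le (s := univ)
    (f := fun y => Real.log (deriv (f a) y)) (x := y) (y := x)
    (fun z _ => (dst_log_smooth (h.smooth a) (h.pos a)).differentiable (by simp) z) h1
    convex_univ (mem_univ _) (mem_univ _)
  simpa using h2

/-- first order distortion -/
theorem Bdd.dist1 {f : ℕ → ℝ → ℝ} {M : ℕ → ℝ} (h : Bdd f M) (m : ℕ) (x y : ℝ) :
    |Real.log (deriv (Q f m) x) - Real.log (deriv (Q f m) y)| ≤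
      M 1 * ∑ a ∈ Finset.range m, |Q f a x - Q f a y| := by
  rw [dst_log_sum h, dst_log_sum h, ← Finset.sum_sub_distrib, Finset.mul_sum]
  exact (Finset.abs_sum_le_sum_abs _ _).trans (Finset.sum_le_sum fun a _ => dst_lip h a _ _)

theorem dst_M1 {f : ℕ → ℝ → ℝ} {M : ℕ → ℝ} (h : Bdd f M) : 0 ≤ M 1 :=
  (abs_nonneg _).trans (h.bd 0 1 le_rfl 0)

/-- first order distortion on an interval -/
theorem Bdd.dist1_Icc {f : ℕ → ℝ → ℝ} {M : ℕ → ℝ} (h : Bdd f M) (m : ℕ) {x₀ x₁ S : ℝ}
    (hx : x₀ < x₁) (hS : ∑ a ∈ Finset.range m, (Q f a x₁ - Q f a x₀) ≤ S) {x : ℝ}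
    (hx' : x ∈ Icc x₀ x₁) :
    deriv (Q f m) x ≤ Real.exp (M 1 * S) * ((Q f m x₁ - Q f m x₀) / (x₁ - x₀)) ∧
    Real.exp (-(M 1 * S)) * ((Q f m x₁ - Q f m x₀) / (x₁ - x₀)) ≤ deriv (Q f m) x := by
  obtain ⟨ξ, hξ, hξ'⟩ := exists_deriv_eq_slope (Q f m) hx (h.Q_smooth m).continuous.continuousOn
    ((h.Q_smooth m).differentiable (by simp)).differentiableOn
  have hM := dst_M1 h
  have h1 : |Real.log (deriv (Q f m) x) - Real.log (deriv (Q f m) ξ)| ≤ M 1 * S := by
    refine (h.dist1 m x ξ).trans (mul_le_mul_of_nonneg_left ((Finset.sum_le_sum ?_).trans hS) hM)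
    intro a _
    have hm := (h.Q_strictMono a).monotone
    rw [abs_le]
    constructor
    · have := hm hx'.1
      have := hm hξ.2.le
      linarith
    · have := hm hx'.2
      have := hm hξ.1.le
      linarith
  rw [← hξ']
  rw [abs_le] at h1
  have hp := h.Q_pos m x
  have hq := h.Q_pos m ξ
  constructor
  · rw [← Real.log_le_log_iff hp (mul_pos (Real.exp_pos _) hq),
      Real.log_mul (Real.exp_pos _).ne' hq.ne', Real.log_exp]
    linarith [h1.2]
  · rw [← Real.log_le_log_iff (mul_pos (Real.exp_pos _) hq) hp,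
      Real.log_mul (Real.exp_pos _).ne' hq.ne', Real.log_exp]
    linarith [h1.1]

/-- partial sums -/
theorem dst_sum_le {f : ℕ → ℝ → ℝ} {M : ℕ → ℝ} (h : Bdd f M) {m : ℕ} {x₀ x₁ S : ℝ}
    (hx : x₀ < x₁) (hS : ∑ a ∈ Finset.range (m + 1), (Q f a x₁ - Q f a x₀) ≤ S) {b : ℕ}
    (hb : b ≤ m + 1) : ∑ a ∈ Finset.range b, (Q f a x₁ - Q f a x₀) ≤ S :=
  (Finset.sum_le_sum_of_subset_of_nonneg (Finset.range_mono hb) fun a _ _ =>
    sub_nonneg.2 ((h.Q_strictMono a).monotone hx.le)).trans hS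

/-- derivatives of `Q` from those of `log DQ` -/
theorem dst_Q_bd {g : ℝ → ℝ} (hg : Smooth g) (hp : ∀ x, 0 < deriv g x) {x lam W : ℝ} {n : ℕ}
    (hlam : 0 < lam) (hW : 0 ≤ W)
    (hb : ∀ i, 1 ≤ i → i ≤ n → lam ^ i * |iteratedDeriv i (fun y => Real.log (deriv g y)) x| ≤ W ^ i) :
    lam ^ (n + 1) * |iteratedDeriv (n + 1) g x| ≤ n.factorial * (lam * deriv g x) * W ^ n := by
  have h1 : deriv g = fun y => Real.exp (Real.log (deriv g y)) := by
    funext y
    rw [Real.exp_log (hp y)]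
  have h2 := exp_bd (l := fun y => Real.log (deriv g y)) (x := x) (n := n) (W := W / lam)
    ((dst_log_smooth hg hp).contDiffAt) (div_nonneg hW hlam.le) (fun i hi hin => by
      rw [div_pow, le_div_iff₀ (pow_pos hlam i), mul_comm]
      exact hb i hi hin)
  rw [Real.exp_log (hp x)] at h2
  have h3 : iteratedDeriv n (fun y => Real.exp (Real.log (deriv g y))) x =
      iteratedDeriv n (deriv g) x := by rw [← h1]
  rw [iteratedDeriv_succ', ← h3]
  rw [div_pow, mul_div_assoc', le_div_iff₀ (pow_pos hlam n)] at h2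
  calc lam ^ (n + 1) * |iteratedDeriv n (fun y => Real.exp (Real.log (deriv g y))) x|
      = lam * (|iteratedDeriv n (fun y => Real.exp (Real.log (deriv g y))) x| * lam ^ n) := by ring
    _ ≤ lam * (n.factorial * deriv g x * W ^ n) := mul_le_mul_of_nonneg_left h2 hlam.le
    _ = n.factorial * (lam * deriv g x) * W ^ n := by ring

/-- one term of the sum -/
theorem dst_term {g ψ : ℝ → ℝ} (hg : Smooth g) (hp : ∀ x, 0 < deriv g x) (hψ : Smooth ψ)
    {x lam W Y C : ℝ} {r : ℕ} (hr : 1 ≤ r) (hlam : 0 < lam) (hW : 1 ≤ W) (hY : 1 ≤ Y)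
    (hC : 0 ≤ C) (hs : lam * deriv g x ≤ Y)
    (hb : ∀ i, 1 ≤ i → i < r → lam ^ i * |iteratedDeriv i (fun y => Real.log (deriv g y)) x| ≤ W ^ i)
    (hψb : ∀ i, 1 ≤ i → i ≤ r → ∀ y, |iteratedDeriv i ψ y| ≤ C) :
    lam ^ r * |iteratedDeriv r (fun y => ψ (g y)) x| ≤
      r.factorial * C * (r.factorial : ℝ) ^ r * Y ^ r * W ^ r * (lam * deriv g x) := by
  have hY0 : 0 < Y := one_pos.trans_le hY
  have hW0 : 0 < W := one_pos.trans_le hW
  have hσ : 0 < lam * deriv g x := mul_pos hlam (hp x)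
  set s := lam * deriv g x / Y with hsdef
  have hs0 : 0 ≤ s := div_nonneg hσ.le hY0.le
  have hs1 : s ≤ 1 := (div_le_one hY0).2 hs
  have hf1 : (1 : ℝ) ≤ (r.factorial : ℝ) := by exact_mod_cast Nat.one_le_iff_ne_zero.2 r.factorial_ne_zero
  set B := (r.factorial : ℝ) * Y * W / lam with hB
  have hB0 : 0 ≤ B := by positivity
  have h2 : ∀ i, 1 ≤ i → i ≤ r → |iteratedDeriv i g x| ≤ s * B ^ i := by
    intro i hi hir
    obtain ⟨n, rfl⟩ : ∃ n, i = n + 1 := ⟨i - 1, by omega⟩
    have h3 := dst_Q_bd hg hp (x := x) (n := n) hlam hW0.le fun j hj hjn => hb j hj (by omega)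
    have h4 : (n.factorial : ℝ) * (lam * deriv g x) * W ^ n ≤
        s * ((r.factorial : ℝ) * Y * W) ^ (n + 1) := by
      have e1 : s * ((r.factorial : ℝ) * Y * W) ^ (n + 1) =
          (lam * deriv g x) * ((r.factorial : ℝ) ^ (n + 1) * Y ^ n * (W ^ n * W)) := by
        rw [hsdef, mul_pow, mul_pow, pow_succ Y n, pow_succ W n]
        field_simp
      rw [e1, mul_comm (n.factorial : ℝ), mul_assoc]
      refine mul_le_mul_of_nonneg_left ?_ hσ.le
      have e2 : (n.factorial : ℝ) ≤ (r.factorial : ℝ) ^ (n + 1) := by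
        calc (n.factorial : ℝ) ≤ (r.factorial : ℝ) := by
              exact_mod_cast Nat.factorial_le (by omega)
          _ ≤ (r.factorial : ℝ) ^ (n + 1) := le_self_pow₀ hf1 (by omega)
      have e3 : (1 : ℝ) ≤ Y ^ n := one_le_pow₀ hY
      have e4 : W ^ n ≤ W ^ n * W := le_mul_of_one_le_right (pow_nonneg hW0.le n) hW
      calc (n.factorial : ℝ) * W ^ n ≤ (r.factorial : ℝ) ^ (n + 1) * (W ^ n * W) :=
            mul_le_mul e2 e4 (pow_nonneg hW0.le n) (by positivity)
        _ ≤ (r.factorial : ℝ) ^ (n + 1) * Y ^ n * (W ^ n * W) :=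
            mul_le_mul_of_nonneg_right (le_mul_of_one_le_right (by positivity) e3) (by positivity)
    rw [hB, div_pow, mul_div_assoc', le_div_iff₀ (pow_pos hlam _), mul_comm]
    exact h3.trans h4
  have h3 := comp_bd_lin (g := ψ) (f := g) (x := x) hψ.contDiffAt hg.contDiffAt hr hC hB0 hs0 hs1
    (fun i hi hir => hψb i hi hir _) h2
  have h4 : s * B ^ r * lam ^ r = s * ((r.factorial : ℝ) * Y * W) ^ r := by
    rw [hB, div_pow]
    field_simp
  have h5 : s * ((r.factorial : ℝ) * Y * W) ^ r ≤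
      (r.factorial : ℝ) ^ r * Y ^ r * W ^ r * (lam * deriv g x) := by
    rw [mul_pow, mul_pow, mul_comm s]
    refine mul_le_mul_of_nonneg_left ?_ (by positivity)
    rw [hsdef]
    exact div_le_self hσ.le hY
  calc lam ^ r * |iteratedDeriv r (fun y => ψ (g y)) x|
      ≤ lam ^ r * (r.factorial * C * (s * B ^ r)) :=
        mul_le_mul_of_nonneg_left h3 (pow_nonneg hlam.le r)
    _ = r.factorial * C * (s * B ^ r * lam ^ r) := by ring
    _ ≤ r.factorial * C * ((r.factorial : ℝ) ^ r * Y ^ r * W ^ r * (lam * deriv g x)) := by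
        rw [h4]
        exact mul_le_mul_of_nonneg_left h5 (by positivity)
    _ = _ := by ring

/-- higher order distortion -/
theorem distr (M : ℕ → ℝ) (r : ℕ) (hr : 1 ≤ r) : ∃ (C : ℝ) (e : ℕ), 0 ≤ C ∧
    ∀ (f : ℕ → ℝ → ℝ), Bdd f M → ∀ (m : ℕ) (x₀ x₁ S : ℝ), x₀ < x₁ →
    ∑ a ∈ Finset.range (m + 1), (Q f a x₁ - Q f a x₀) ≤ S → ∀ x ∈ Icc x₀ x₁, ∀ a, a ≤ m →
    (x₁ - x₀) ^ r * |iteratedDeriv r (fun y => Real.log (deriv (Q f a) y)) x| ≤
      C * S * (Real.exp (M 1 * S) * (1 + S)) ^ e := by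
  induction r using Nat.strong_induction_on with
  | _ r ih =>
    have ih' : ∀ j, ∃ (C : ℝ) (e : ℕ), 0 ≤ C ∧ (1 ≤ j → j < r →
        ∀ (f : ℕ → ℝ → ℝ), Bdd f M → ∀ (m : ℕ) (x₀ x₁ S : ℝ), x₀ < x₁ →
        ∑ a ∈ Finset.range (m + 1), (Q f a x₁ - Q f a x₀) ≤ S → ∀ x ∈ Icc x₀ x₁, ∀ a, a ≤ m →
        (x₁ - x₀) ^ j * |iteratedDeriv j (fun y => Real.log (deriv (Q f a) y)) x| ≤
          C * S * (Real.exp (M 1 * S) * (1 + S)) ^ e) := by
      intro j
      by_cases hj : 1 ≤ j ∧ j < r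
      · obtain ⟨C, e, hC, h⟩ := ih j hj.2 hj.1
        exact ⟨C, e, hC, fun _ _ => h⟩
      · exact ⟨0, 0, le_rfl, fun h1 h2 => absurd ⟨h1, h2⟩ hj⟩
    choose Cj ej hCj hj using ih'
    set C' : ℝ := 1 + ∑ j ∈ Finset.range r, Cj j with hC'
    set E : ℕ := ∑ j ∈ Finset.range r, (ej j + 1) with hE
    set Cψ : ℝ := ∑ j ∈ Finset.range (r + 1), |M j| with hCψ
    have hC'1 : 1 ≤ C' := by
      rw [hC']
      exact le_add_of_nonneg_right (Finset.sum_nonneg fun j _ => hCj j)
    have hCψ0 : 0 ≤ Cψ := Finset.sum_nonneg fun j _ => abs_nonneg _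
    refine ⟨r.factorial * Cψ * (r.factorial : ℝ) ^ r * C' ^ r, r + E * r + 1, by positivity, ?_⟩
    intro f hf m x₀ x₁ S hx hS x hxI a ham
    have hM := dst_M1 hf
    have hlam : 0 < x₁ - x₀ := sub_pos.2 hx
    have hS0 : 0 ≤ S := by
      have h1 := dst_sum_le hf hx hS (b := 0) (by omega)
      simpa using h1
    set Y : ℝ := Real.exp (M 1 * S) * (1 + S) with hYdef
    have hexp1 : 1 ≤ Real.exp (M 1 * S) := Real.one_le_exp (mul_nonneg hM hS0)
    have hY1 : 1 ≤ Y := one_le_mul_of_one_le_of_one_le hexp1 (by linarith)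
    have hSY : S ≤ Y := by
      have : (1 + S) ≤ Real.exp (M 1 * S) * (1 + S) := le_mul_of_one_le_left (by linarith) hexp1
      rw [hYdef]; linarith
    have hexpS : Real.exp (M 1 * S) * S ≤ Y := by
      rw [hYdef]
      exact mul_le_mul_of_nonneg_left (by linarith) (Real.exp_pos _).le
    have hexpY : Real.exp (M 1 * S) ≤ Y := by
      rw [hYdef]
      exact le_mul_of_one_le_right (Real.exp_pos _).le (by linarith)
    set W : ℝ := C' * Y ^ E with hWdef
    have hYE : 1 ≤ Y ^ E := one_le_pow₀ hY1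
    have hW1 : 1 ≤ W := one_le_mul_of_one_le_of_one_le hC'1 hYE
    -- the bounds from the induction hypothesis
    have hWb : ∀ b, b ≤ m → ∀ j, 1 ≤ j → j < r →
        (x₁ - x₀) ^ j * |iteratedDeriv j (fun y => Real.log (deriv (Q f b) y)) x| ≤ W ^ j := by
      intro b hb j hj1 hjr
      refine (hj j hj1 hjr f hf m x₀ x₁ S hx hS x hxI b hb).trans ?_
      have e1 : Cj j * S * Y ^ (ej j) ≤ C' * Y ^ E := by
        have e2 : Cj j ≤ C' := by
          rw [hC']
          have := Finset.single_le_sum (f := Cj) (fun i _ => hCj i) (Finset.mem_range.2 hjr)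
          linarith
        have e3 : S * Y ^ (ej j) ≤ Y ^ E := by
          calc S * Y ^ (ej j) ≤ Y * Y ^ (ej j) :=
                mul_le_mul_of_nonneg_right hSY (pow_nonneg (by linarith) _)
            _ = Y ^ (ej j + 1) := by rw [pow_succ]; ring
            _ ≤ Y ^ E := pow_le_pow_right₀ hY1
                (Finset.single_le_sum (f := fun j => ej j + 1) (fun i _ => Nat.zero_le _)
                  (Finset.mem_range.2 hjr))
        rw [mul_assoc]
        exact mul_le_mul e2 e3 (mul_nonneg hS0 (pow_nonneg (by linarith) _)) (by linarith)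
      calc Cj j * S * Y ^ (ej j) ≤ W := e1
        _ ≤ W ^ j := le_self_pow₀ hW1 (by omega)
    -- the size of the images of the interval
    have hσ : ∀ b, b ≤ m → (x₁ - x₀) * deriv (Q f b) x ≤
        Real.exp (M 1 * S) * (Q f b x₁ - Q f b x₀) := by
      intro b hb
      have h1 := (hf.dist1_Icc b hx (dst_sum_le hf hx hS (by omega)) hxI).1
      calc (x₁ - x₀) * deriv (Q f b) x
          ≤ (x₁ - x₀) * (Real.exp (M 1 * S) * ((Q f b x₁ - Q f b x₀) / (x₁ - x₀))) :=
            mul_le_mul_of_nonneg_left h1 hlam.le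
        _ = Real.exp (M 1 * S) * (Q f b x₁ - Q f b x₀) := by
            field_simp
    have hlen : ∀ b, b ≤ m → Q f b x₁ - Q f b x₀ ≤ S := by
      intro b hb
      exact (Finset.single_le_sum (f := fun a => Q f a x₁ - Q f a x₀)
        (fun i _ => sub_nonneg.2 ((hf.Q_strictMono i).monotone hx.le))
        (Finset.mem_range.2 (by omega : b < m + 1))).trans hS
    -- the terms
    have hterm : ∀ b ∈ Finset.range a, (x₁ - x₀) ^ r *
        |iteratedDeriv r (fun y => Real.log (deriv (f b) (Q f b y))) x| ≤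
        r.factorial * Cψ * (r.factorial : ℝ) ^ r * Y ^ r * W ^ r *
          (Real.exp (M 1 * S) * (Q f b x₁ - Q f b x₀)) := by
      intro b hb
      rw [Finset.mem_range] at hb
      have hbm : b ≤ m := by omega
      have h1 := dst_term (g := Q f b) (ψ := fun y => Real.log (deriv (f b) y)) (hf.Q_smooth b)
        (hf.Q_pos b) (dst_log_smooth (hf.smooth b) (hf.pos b)) (x := x) (C := Cψ) hr hlam hW1 hY1
        hCψ0 ((hσ b hbm).trans ((mul_le_mul_of_nonneg_left (hlen b hbm)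
          (Real.exp_pos _).le).trans hexpS)) (hWb b hbm) (by
          intro i hi hir y
          refine (hf.bd b i hi y).trans ((le_abs_self _).trans ?_)
          exact Finset.single_le_sum (f := fun j => |M j|) (fun j _ => abs_nonneg _)
            (Finset.mem_range.2 (by omega)))
      exact h1.trans (mul_le_mul_of_nonneg_left (hσ b hbm) (by positivity))
    -- summation
    have hfun : (fun y => Real.log (deriv (Q f a) y)) = fun y =>
        ∑ b ∈ Finset.range a, Real.log (deriv (f b) (Q f b y)) := by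
      funext y
      exact dst_log_sum hf a y
    have hder : iteratedDeriv r (fun y => ∑ b ∈ Finset.range a,
        Real.log (deriv (f b) (Q f b y))) x = ∑ b ∈ Finset.range a,
        iteratedDeriv r (fun y => Real.log (deriv (f b) (Q f b y))) x := by
      refine iteratedDeriv_fun_sum (f := fun b y => Real.log (deriv (f b) (Q f b y)))
        (fun b _ => ?_)
      have h1 : Smooth (fun y => Real.log (deriv (f b) (Q f b y))) :=
        (dst_log_smooth (hf.smooth b) (hf.pos b)).comp (hf.Q_smooth b)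
      exact h1.contDiffAt.of_le (by exact_mod_cast le_top)
    rw [hfun, hder]
    have hsum : ∑ b ∈ Finset.range a, (Q f b x₁ - Q f b x₀) ≤ S :=
      dst_sum_le hf hx hS (by omega)
    have hY0 : 0 ≤ Y := by linarith
    calc (x₁ - x₀) ^ r * |∑ b ∈ Finset.range a,
          iteratedDeriv r (fun y => Real.log (deriv (f b) (Q f b y))) x|
        ≤ (x₁ - x₀) ^ r * ∑ b ∈ Finset.range a,
          |iteratedDeriv r (fun y => Real.log (deriv (f b) (Q f b y))) x| :=
          mul_le_mul_of_nonneg_left (Finset.abs_sum_le_sum_abs _ _) (pow_nonneg hlam.le r)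
      _ = ∑ b ∈ Finset.range a, (x₁ - x₀) ^ r *
          |iteratedDeriv r (fun y => Real.log (deriv (f b) (Q f b y))) x| := Finset.mul_sum _ _ _
      _ ≤ ∑ b ∈ Finset.range a, r.factorial * Cψ * (r.factorial : ℝ) ^ r * Y ^ r * W ^ r *
          (Real.exp (M 1 * S) * (Q f b x₁ - Q f b x₀)) := Finset.sum_le_sum hterm
      _ = r.factorial * Cψ * (r.factorial : ℝ) ^ r * Y ^ r * W ^ r *
          (Real.exp (M 1 * S) * ∑ b ∈ Finset.range a, (Q f b x₁ - Q f b x₀)) := by
          rw [← Finset.mul_sum, ← Finset.mul_sum]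
      _ ≤ r.factorial * Cψ * (r.factorial : ℝ) ^ r * Y ^ r * W ^ r * (Y * S) := by
          refine mul_le_mul_of_nonneg_left ?_ (by positivity)
          exact mul_le_mul hexpY hsum (Finset.sum_nonneg fun b _ =>
            sub_nonneg.2 ((hf.Q_strictMono b).monotone hx.le)) hY0
      _ = r.factorial * Cψ * (r.factorial : ℝ) ^ r * C' ^ r * S * Y ^ (r + E * r + 1) := by
          have h1 : W ^ r = C' ^ r * Y ^ (E * r) := by rw [hWdef, mul_pow, ← pow_mul]
          rw [h1]
          ring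

end Pool.Agent.Helper638.Ros
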