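import Pool.Agent.Helper638_Ros.Sys2Defs
import Pool.Agent.Helper638_Ros.ConvOps

/-!
# The extension principle (paper 2.3)
-/

set_option autoImplicit false

namespace Pool.Agent.Helper638.Ros

open Filter Function Set Topology

noncomputable def extF (S : Sys2) (al : D) : D :=
  S.F * (S.F ^ (S.N - 1) * al * (S.F ^ (S.N - 1))⁻¹)

noncomputable def extG (S : Sys2) (be : D) : D :=
  S.G * ((List.range S.N).map (fun i => S.F ^ i * be * (S.F ^ i)⁻¹)).prod

variable {S : Sys2} {z z₁ : ℝ}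

/-! ### Auxiliary facts -/

theorem ext_comm_of_disj {f g : D} (h : ∀ x, f x = x ∨ g x = x) : Commute f g := by
  have h1 : Equiv.Perm.Disjoint (f : Equiv.Perm ℝ) (g : Equiv.Perm ℝ) := h
  exact Subtype.ext h1.commute.eq

/-- an integer translate of an end point is not inside -/
theorem ext_end_not_mem (hz : Nxt S z z₁) {p : ℝ} (hp : p = z ∨ p = z₁) (l : ℤ) :
    p + l ∉ Ioo z z₁ := by
  rintro ⟨h1, h2⟩
  have hle := hz.le
  rcases hp with rfl | rfl
  · have h3 : (0 : ℝ) < l := by linarith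
    have h4 : (l : ℝ) < 1 := by linarith
    have h5 : (0 : ℤ) < l := by exact_mod_cast h3
    have h6 : l < 1 := by exact_mod_cast h4
    omega
  · have h3 : (-1 : ℝ) < l := by linarith
    have h4 : (l : ℝ) < 0 := by linarith
    have h5 : (-1 : ℤ) < l := by exact_mod_cast h3
    have h6 : l < 0 := by exact_mod_cast h4
    omega

theorem ext_supp_end (hz : Nxt S z z₁) {al : D} (h1 : SuppJ z z₁ al) {p : ℝ}
    (hp : p = z ∨ p = z₁) : al p = p := h1 p (fun l => ext_end_not_mem hz hp l)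

/-- an element fixing both end points preserves the interval -/
theorem ext_mem_iff {h : D} (h0 : h z = z) (h1 : h z₁ = z₁) (y : ℝ) :
    h y ∈ Ioo z z₁ ↔ y ∈ Ioo z z₁ := by
  constructor
  · rintro ⟨a, b⟩
    refine ⟨?_, ?_⟩
    · rw [← h0] at a; exact (D.strictMono h).lt_iff_lt.1 a
    · rw [← h1] at b; exact (D.strictMono h).lt_iff_lt.1 b
  · rintro ⟨a, b⟩
    refine ⟨?_, ?_⟩
    · conv_lhs => rw [← h0]
      exact (D.strictMono h).lt_iff_lt.2 a
    · conv_rhs => rw [← h1]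
      exact (D.strictMono h).lt_iff_lt.2 b

/-- conjugation by an element fixing both end points -/
theorem ext_supp_conj {h : D} (h0 : h z = z) (h1 : h z₁ = z₁) {c : D} (hc : SuppJ z z₁ c) :
    SuppJ z z₁ (h⁻¹ * c * h : D) := by
  intro x hx
  have h2 : c (h x) = h x := by
    apply hc
    intro l hl
    rw [← D.add_int, ext_mem_iff h0 h1] at hl
    exact hx l hl
  rw [D.mul_apply, D.mul_apply, h2, D.inv_apply_self]

/-- support of a conjugate by a power of `F` -/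
theorem ext_conj_supp {c : D} (hc : SuppJ z z₁ c) (i : ℕ) {x : ℝ}
    (hx : (S.F ^ i * c * (S.F ^ i)⁻¹) x ≠ x) : ∃ y ∈ Ioo z z₁, ∃ l : ℤ, (S.F ^ i) y + l = x := by
  by_contra hcon
  push Not at hcon
  apply hx
  have h2 : c ((S.F ^ i)⁻¹ x) = (S.F ^ i)⁻¹ x := by
    apply hc
    intro l hl
    have := hcon _ hl (-l)
    apply this
    rw [D.add_int, D.apply_inv_self]
    push_cast; ring
  rw [D.mul_apply, D.mul_apply, h2, D.apply_inv_self]

/-- conjugates by different powers have disjoint supports -/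
theorem ext_conj_comm (hz : Nxt S z z₁) {c c' : D} (hc : SuppJ z z₁ c) (hc' : SuppJ z z₁ c')
    {i i' : ℕ} (hi : i < S.N) (hi' : i' < S.N) (hne : i ≠ i') :
    Commute (S.F ^ i * c * (S.F ^ i)⁻¹) (S.F ^ i' * c' * (S.F ^ i')⁻¹) := by
  apply ext_comm_of_disj
  intro x
  by_contra hcon
  push Not at hcon
  obtain ⟨y, hy, l, hl⟩ := ext_conj_supp hc i hcon.1
  obtain ⟨y', hy', l', hl'⟩ := ext_conj_supp hc' i' hcon.2
  exact hne (hz.disj i i' hi hi' l l' y hy y' hy' (hl.trans hl'.symm)).1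

/-- the orbit of an end point does not meet the interval -/
theorem ext_orb_not_mem (hz : Nxt S z z₁) {p : ℝ} (hp : p = z ∨ p = z₁) {j : ℕ} (hj : j < S.N)
    (l : ℤ) : (S.F ^ j)⁻¹ p + l ∉ Ioo z z₁ := by
  intro hmem
  by_cases hj0 : j = 0
  · subst hj0
    simp only [pow_zero, inv_one, D.one_apply] at hmem
    exact ext_end_not_mem hz hp l hmem
  · have hcont : Continuous (fun x : ℝ => (S.F ^ j)⁻¹ x + l) :=
      (D.continuous (S.F ^ j)⁻¹).add continuous_const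
    have hev : ∀ᶠ x in 𝓝 p, (S.F ^ j)⁻¹ x + l ∈ Ioo z z₁ :=
      hcont.continuousAt.eventually (isOpen_Ioo.mem_nhds hmem)
    have hcl : p ∈ closure (Ioo z z₁) := by
      rw [closure_Ioo hz.lt.ne]
      rcases hp with rfl | rfl
      · exact left_mem_Icc.2 hz.lt.le
      · exact right_mem_Icc.2 hz.lt.le
    obtain ⟨x, hx1, hx2⟩ := (mem_closure_iff_nhds.1 hcl _ hev)
    have hN := S.hN
    have h3 := (hz.disj 0 j (by omega) hj l 0 x hx2 _ hx1 (by
      rw [D.add_int, D.apply_inv_self]; simp)).1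
    exact hj0 h3.symm

theorem ext_inner_not_mem (hz : Nxt S z z₁) {x : ℝ} (hx : x ∈ Icc z z₁) {j : ℕ} (hj0 : j ≠ 0)
    (hj : j < S.N) (l : ℤ) : (S.F ^ j)⁻¹ x + l ∉ Ioo z z₁ := by
  by_cases h1 : x = z
  · exact ext_orb_not_mem hz (Or.inl h1) hj l
  by_cases h2 : x = z₁
  · exact ext_orb_not_mem hz (Or.inr h2) hj l
  have hx' : x ∈ Ioo z z₁ := ⟨lt_of_le_of_ne hx.1 (Ne.symm h1), lt_of_le_of_ne hx.2 h2⟩
  intro hmem
  have hN := S.hN
  have h3 := (hz.disj 0 j (by omega) hj l 0 x hx' _ hmem (by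
    rw [D.add_int, D.apply_inv_self]; simp)).1
  exact hj0 h3.symm

theorem ext_conj_apply (hz : Nxt S z z₁) {c : D} (hc : SuppJ z z₁ c) {x : ℝ} (hx : x ∈ Icc z z₁)
    {j : ℕ} (hj0 : j ≠ 0) (hj : j < S.N) : c ((S.F ^ j)⁻¹ x) = (S.F ^ j)⁻¹ x :=
  hc _ (fun l => ext_inner_not_mem hz hx hj0 hj l)

theorem ext_list_prod (l : List D) (x : ℝ) (h : ∀ g ∈ l, g x = x) : l.prod x = x := by
  induction l with
  | nil => simp
  | cons a l ih =>
    rw [List.prod_cons, D.mul_apply, ih (fun g hg => h g (List.mem_cons_of_mem _ hg)),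
      h a List.mem_cons_self]

theorem ext_A_fix (hz : Nxt S z z₁) : S.A z = z ∧ S.A z₁ = z₁ := ⟨hz.hz.1, hz.hz₁.1⟩
theorem ext_G_fix (hz : Nxt S z z₁) : S.G z = z ∧ S.G z₁ = z₁ := ⟨hz.hz.2, hz.hz₁.2⟩

theorem ext_shift (n : ℕ) (F be : D) :
    F⁻¹ * ((List.range n).map (fun i => F ^ (i + 1) * be * (F ^ (i + 1))⁻¹)).prod * F =
      ((List.range n).map (fun i => F ^ i * be * (F ^ i)⁻¹)).prod := by
  have h1 : ∀ g : D, F⁻¹ * g * F = MulAut.conj F⁻¹ g := by
    intro g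
    simp
  rw [h1, map_list_prod, List.map_map]
  congr 1
  apply List.map_congr_left
  intro i _
  simp only [Function.comp_apply]
  rw [← h1, pow_succ']
  group

theorem ext_comm (hz : Nxt S z z₁) {al be : D} (h1 : SuppJ z z₁ al) (h2 : SuppJ z z₁ be)
    (hc : Commute (S.A * al) (S.G * be)) : Commute (extF S al) (extG S be) := by
  obtain ⟨n, hn⟩ : ∃ n, S.N = n + 1 := ⟨S.N - 1, by have := S.hN; omega⟩
  have hFG : Commute S.F S.G := S.comm
  have hAG : Commute S.A S.G := S.comm_AG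
  -- the product of the first `n` conjugates
  set P : D := ((List.range n).map (fun i => S.F ^ i * be * (S.F ^ i)⁻¹)).prod with hP
  have hPc : ∀ c : D, SuppJ z z₁ c → Commute P (S.F ^ n * c * (S.F ^ n)⁻¹) := by
    intro c hcs
    apply Commute.list_prod_left
    intro g hg
    rw [List.mem_map] at hg
    obtain ⟨i, hi, rfl⟩ := hg
    rw [List.mem_range] at hi
    exact ext_conj_comm hz h2 hcs (by omega) (by omega) (by omega)
  have hE1 : extF S al = S.F * (S.F ^ n * al * (S.F ^ n)⁻¹) := by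
    simp only [extF, hn, Nat.add_sub_cancel]
  have hE2 : extG S be = S.G * (P * (S.F ^ n * be * (S.F ^ n)⁻¹)) := by
    simp only [extG, hn, List.range_succ, List.map_append, List.prod_append, List.map_cons,
      List.map_nil, List.prod_cons, List.prod_nil, mul_one, hP]
  have hshift : P * (S.F ^ n * be * (S.F ^ n)⁻¹) * S.F =
      S.F * ((S.F⁻¹ * be * S.F) * P) := by
    have e1 : P * (S.F ^ n * be * (S.F ^ n)⁻¹) =
        ((List.range (n + 1)).map (fun i => S.F ^ i * be * (S.F ^ i)⁻¹)).prod := by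
      simp only [List.range_succ, List.map_append, List.prod_append, List.map_cons,
        List.map_nil, List.prod_cons, List.prod_nil, mul_one, hP]
    have e2 : ((List.range (n + 1)).map (fun i => S.F ^ i * be * (S.F ^ i)⁻¹)).prod =
        be * ((List.range n).map (fun i => S.F ^ (i + 1) * be * (S.F ^ (i + 1))⁻¹)).prod := by
      rw [List.range_succ_eq_map, List.map_cons, List.prod_cons, List.map_map]
      simp [Function.comp_def]
    rw [e1, e2, hP, ← ext_shift n S.F be]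
    group
  -- the conjugate of `be` by `F⁻¹`
  have hb : S.F⁻¹ * be * S.F = S.F ^ n * (S.A⁻¹ * be * S.A) * (S.F ^ n)⁻¹ := by
    have hT : ∀ g : D, T ^ S.k * g * T ^ (-S.k) = g := by
      intro g
      rw [((T_comm g).zpow_left S.k).eq, mul_assoc, ← zpow_add]
      simp
    have e3 : S.A * (S.F ^ n)⁻¹ = S.F * T ^ (-S.k) := by
      have : S.A = S.F ^ (n + 1) * T ^ (-S.k) := by rw [Sys2.A, hn]
      rw [this, mul_assoc, ((T_comm (S.F ^ n)⁻¹).zpow_left (-S.k)).eq, ← mul_assoc]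
      congr 1
      rw [pow_succ', mul_inv_cancel_right]
    have e4 : S.F ^ n * S.A⁻¹ = T ^ S.k * S.F⁻¹ := by
      have := congrArg (fun g => g⁻¹) e3
      simp only [mul_inv_rev, inv_inv, zpow_neg] at this
      exact this
    calc S.F⁻¹ * be * S.F = S.F⁻¹ * (T ^ S.k * be * T ^ (-S.k)) * S.F := by rw [hT]
      _ = (T ^ S.k * S.F⁻¹) * be * (S.F * T ^ (-S.k)) := by
          rw [((T_comm S.F⁻¹).zpow_left S.k).eq, ← ((T_comm S.F).zpow_left (-S.k)).eq]
          simp only [mul_assoc]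
      _ = S.F ^ n * (S.A⁻¹ * be * S.A) * (S.F ^ n)⁻¹ := by
          rw [← e3, ← e4]; simp only [mul_assoc]
  have hA := ext_A_fix hz
  have hG := ext_G_fix hz
  have s1 : SuppJ z z₁ (S.A⁻¹ * be * S.A : D) := ext_supp_conj hA.1 hA.2 h2
  have s2 : SuppJ z z₁ (S.G⁻¹ * al * S.G : D) := ext_supp_conj hG.1 hG.2 h1
  have hkey : (S.G⁻¹ * al * S.G) * be = (S.A⁻¹ * be * S.A) * al := by
    have h3 := hc.eq
    have e5 : S.A * al * (S.G * be) = (S.A * S.G) * ((S.G⁻¹ * al * S.G) * be) := by group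
    have e6 : S.G * be * (S.A * al) = (S.A * S.G) * ((S.A⁻¹ * be * S.A) * al) := by
      rw [hAG.eq]; group
    rw [e5, e6] at h3
    exact mul_left_cancel h3
  have hFn : Commute (S.F ^ n) S.G := hFG.pow_left n
  have hc1 := hPc _ s1
  have hc2 := hPc _ s2
  show extF S al * extG S be = extG S be * extF S al
  have l1 : extF S al * extG S be =
      S.F * S.G * P * (S.F ^ n * ((S.G⁻¹ * al * S.G) * be) * (S.F ^ n)⁻¹) := by
    rw [hE1, hE2]
    have e7 : S.F ^ n * al * (S.F ^ n)⁻¹ * S.G =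
        S.G * (S.F ^ n * (S.G⁻¹ * al * S.G) * (S.F ^ n)⁻¹) := by
      have e8 : (S.F ^ n)⁻¹ * S.G = S.G * (S.F ^ n)⁻¹ := hFn.inv_left.eq
      rw [mul_assoc (S.F ^ n * al), e8]
      have e9 : S.G * (S.F ^ n * (S.G⁻¹ * al * S.G) * (S.F ^ n)⁻¹) =
          (S.G * S.F ^ n) * (S.G⁻¹ * al * S.G) * (S.F ^ n)⁻¹ := by simp only [mul_assoc]
      rw [e9, ← hFn.eq]
      group
    calc S.F * (S.F ^ n * al * (S.F ^ n)⁻¹) * (S.G * (P * (S.F ^ n * be * (S.F ^ n)⁻¹)))
        = S.F * (S.F ^ n * al * (S.F ^ n)⁻¹ * S.G) * (P * (S.F ^ n * be * (S.F ^ n)⁻¹)) := by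
          simp only [mul_assoc]
      _ = S.F * S.G * ((S.F ^ n * (S.G⁻¹ * al * S.G) * (S.F ^ n)⁻¹) * P) *
            (S.F ^ n * be * (S.F ^ n)⁻¹) := by rw [e7]; simp only [mul_assoc]
      _ = S.F * S.G * (P * (S.F ^ n * (S.G⁻¹ * al * S.G) * (S.F ^ n)⁻¹)) *
            (S.F ^ n * be * (S.F ^ n)⁻¹) := by rw [hc2.eq]
      _ = _ := by group
  have l2 : extG S be * extF S al =
      S.F * S.G * P * (S.F ^ n * ((S.A⁻¹ * be * S.A) * al) * (S.F ^ n)⁻¹) := by
    rw [hE1, hE2]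
    calc S.G * (P * (S.F ^ n * be * (S.F ^ n)⁻¹)) * (S.F * (S.F ^ n * al * (S.F ^ n)⁻¹))
        = S.G * (P * (S.F ^ n * be * (S.F ^ n)⁻¹) * S.F) * (S.F ^ n * al * (S.F ^ n)⁻¹) := by
          simp only [mul_assoc]
      _ = S.G * S.F * ((S.F⁻¹ * be * S.F) * P) * (S.F ^ n * al * (S.F ^ n)⁻¹) := by
          rw [hshift]; simp only [mul_assoc]
      _ = S.F * S.G * (P * (S.F ^ n * (S.A⁻¹ * be * S.A) * (S.F ^ n)⁻¹)) *
            (S.F ^ n * al * (S.F ^ n)⁻¹) := by rw [hb, hc1.eq, hFG.eq]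
      _ = _ := by group
  rw [l1, l2, hkey]

theorem ext_step (n : ℕ) (hn : S.N = n + 1) (al : D) (i : ℕ) (hi : i ≤ n) {x : ℝ}
    (hx : al ((S.F ^ (n - i))⁻¹ x) = (S.F ^ (n - i))⁻¹ x) :
    extF S al ((S.F ^ i) x) = (S.F ^ (i + 1)) x := by
  have hE1 : extF S al = S.F * (S.F ^ n * al * (S.F ^ n)⁻¹) := by
    simp only [extF, hn, Nat.add_sub_cancel]
  have e1 : (S.F ^ n)⁻¹ * S.F ^ i = (S.F ^ (n - i))⁻¹ := by
    have : S.F ^ n = S.F ^ i * S.F ^ (n - i) := by rw [← pow_add]; congr 1; omega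
    rw [this, mul_inv_rev, inv_mul_cancel_right]
  have e2 : (S.F ^ n)⁻¹ ((S.F ^ i) x) = (S.F ^ (n - i))⁻¹ x := by
    rw [← e1]; rfl
  rw [hE1, D.mul_apply, D.mul_apply, D.mul_apply, e2, hx]
  have e3 : S.F * S.F ^ n * (S.F ^ (n - i))⁻¹ = S.F ^ (i + 1) := by
    have : S.F ^ n = S.F ^ i * S.F ^ (n - i) := by rw [← pow_add]; congr 1; omega
    rw [this, ← mul_assoc, mul_inv_cancel_right, pow_succ']
  rw [← e3]; rfl

theorem extF_pow (hz : Nxt S z z₁) {al : D} (h1 : SuppJ z z₁ al) (i : ℕ) (hi : i < S.N)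
    {x : ℝ} (hx : x ∈ Icc z z₁) : (extF S al ^ i) x = (S.F ^ i) x := by
  obtain ⟨n, hn⟩ : ∃ n, S.N = n + 1 := ⟨S.N - 1, by have := S.hN; omega⟩
  induction i with
  | zero => simp
  | succ i ih =>
    rw [pow_succ', D.mul_apply, ih (by omega)]
    exact ext_step n hn al i (by omega) (ext_conj_apply hz h1 hx (by omega) (by omega))

theorem extF_powN (hz : Nxt S z z₁) {al : D} (h1 : SuppJ z z₁ al)
    {x : ℝ} (hx : x ∈ Icc z z₁) : (extF S al ^ S.N) x = (S.A * al) x + S.k := by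
  obtain ⟨n, hn⟩ : ∃ n, S.N = n + 1 := ⟨S.N - 1, by have := S.hN; omega⟩
  have hE1 : extF S al = S.F * (S.F ^ n * al * (S.F ^ n)⁻¹) := by
    simp only [extF, hn, Nat.add_sub_cancel]
  have h2 := extF_pow hz h1 n (by omega) hx
  have h3 := S.F_pow_apply (al x)
  rw [D.mul_apply, ← h3, hn, pow_succ', D.mul_apply, h2, hE1]
  have e : S.F * (S.F ^ n * al * (S.F ^ n)⁻¹) * S.F ^ n = S.F ^ (n + 1) * al := by
    rw [pow_succ']; group
  calc (S.F * (S.F ^ n * al * (S.F ^ n)⁻¹)) ((S.F ^ n) x)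
      = (S.F * (S.F ^ n * al * (S.F ^ n)⁻¹) * S.F ^ n) x := rfl
    _ = (S.F ^ (n + 1) * al) x := by rw [e]
    _ = _ := rfl

theorem extG_apply (hz : Nxt S z z₁) {be : D} (h2 : SuppJ z z₁ be)
    {x : ℝ} (hx : x ∈ Icc z z₁) : extG S be x = (S.G * be) x := by
  obtain ⟨n, hn⟩ : ∃ n, S.N = n + 1 := ⟨S.N - 1, by have := S.hN; omega⟩
  have hE2 : extG S be = S.G * (be *
      ((List.range n).map (fun i => S.F ^ (i + 1) * be * (S.F ^ (i + 1))⁻¹)).prod) := by
    rw [extG, hn, List.range_succ_eq_map, List.map_cons, List.prod_cons, List.map_map]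
    simp [Function.comp_def]
  rw [hE2, D.mul_apply, D.mul_apply, D.mul_apply, ext_list_prod]
  intro g hg
  rw [List.mem_map] at hg
  obtain ⟨i, hi, rfl⟩ := hg
  rw [List.mem_range] at hi
  rw [D.mul_apply, D.mul_apply, ext_conj_apply hz h2 hx (by omega) (by omega), D.apply_inv_self]

open scoped Pointwise in
theorem ext_closed (c₁ c₂ : ℝ) : IsOpen {x : ℝ | ∀ l : ℤ, x + l ∉ Icc c₁ c₂} := by
  have h1 : IsClosed ((range ((↑) : ℤ → ℝ)) + Icc c₁ c₂) :=
    Int.isClosedEmbedding_coe_real.isClosed_range.add_right_of_isCompact isCompact_Icc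
  have h2 : {x : ℝ | ∀ l : ℤ, x + l ∉ Icc c₁ c₂} = ((range ((↑) : ℤ → ℝ)) + Icc c₁ c₂)ᶜ := by
    ext x
    simp only [mem_ofPred_eq, mem_compl_iff, Set.mem_add, not_exists, mem_range]
    constructor
    · rintro h a ⟨⟨l, rfl⟩, y, hy, e⟩
      apply h (-l)
      have : x + ((-l : ℤ) : ℝ) = y := by push_cast; linarith
      rw [this]; exact hy
    · intro h l hl
      exact h ((-l : ℤ) : ℝ) ⟨⟨-l, rfl⟩, _, hl, by push_cast; ring⟩
  rw [h2]
  exact h1.isOpen_compl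

theorem ext_near_aux (hz : Nxt S z z₁) {c : D} {c₁ c₂ : ℝ} (h1 : z < c₁) (h2 : c₂ < z₁)
    (hs : SuppC c₁ c₂ c) {p : ℝ} (hp : p = z ∨ p = z₁) :
    ∀ᶠ x in 𝓝 p, ∀ j < S.N, c ((S.F ^ j)⁻¹ x) = (S.F ^ j)⁻¹ x := by
  have key : ∀ j ∈ Finset.range S.N, ∀ᶠ x in 𝓝 p, c ((S.F ^ j)⁻¹ x) = (S.F ^ j)⁻¹ x := by
    intro j hj
    rw [Finset.mem_range] at hj
    have h3 : (S.F ^ j)⁻¹ p ∈ {x : ℝ | ∀ l : ℤ, x + l ∉ Icc c₁ c₂} := by
      intro l hl
      exact ext_orb_not_mem hz hp hj l ⟨lt_of_lt_of_le h1 hl.1, lt_of_le_of_lt hl.2 h2⟩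
    have h4 := (D.continuous (S.F ^ j)⁻¹).continuousAt.eventually
      ((ext_closed c₁ c₂).mem_nhds h3)
    filter_upwards [h4] with x hx
    exact hs _ hx
  rw [← eventually_all_finset] at key
  filter_upwards [key] with x hx j hj
  exact hx j (Finset.mem_range.2 hj)

/-- near the two ends of `[z, z₁]` nothing changes -/
theorem extF_near (hz : Nxt S z z₁) {al : D} {c₁ c₂ : ℝ} (h1 : z < c₁) (h2 : c₂ < z₁)
    (hs : SuppC c₁ c₂ al) {p : ℝ} (hp : p = z ∨ p = z₁) :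
    ∀ᶠ x in 𝓝 p, (extF S al ^ S.N) x = (S.F ^ S.N) x := by
  obtain ⟨n, hn⟩ : ∃ n, S.N = n + 1 := ⟨S.N - 1, by have := S.hN; omega⟩
  filter_upwards [ext_near_aux hz h1 h2 hs hp] with x hx
  have key : ∀ i ≤ S.N, (extF S al ^ i) x = (S.F ^ i) x := by
    intro i
    induction i with
    | zero => intro _; simp
    | succ i ih =>
      intro hi
      rw [pow_succ', D.mul_apply, ih (by omega)]
      exact ext_step n hn al i (by omega) (hx _ (by omega))
  exact key _ le_rfl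

theorem extG_near (hz : Nxt S z z₁) {be : D} {c₁ c₂ : ℝ} (h1 : z < c₁) (h2 : c₂ < z₁)
    (hs : SuppC c₁ c₂ be) {p : ℝ} (hp : p = z ∨ p = z₁) :
    ∀ᶠ x in 𝓝 p, extG S be x = S.G x := by
  filter_upwards [ext_near_aux hz h1 h2 hs hp] with x hx
  rw [extG, D.mul_apply, ext_list_prod]
  intro g hg
  rw [List.mem_map] at hg
  obtain ⟨i, hi, rfl⟩ := hg
  rw [List.mem_range] at hi
  rw [D.mul_apply, D.mul_apply, hx i hi, D.apply_inv_self]

theorem ext_conv_conj (c : D) {al : ℕ → D} (h : Conv (fun n => al n) (1 : D)) :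
    Conv (fun n => (c * al n * c⁻¹ : D)) (1 : D) := by
  have h1 : Conv (fun n => ((c * al n : D) : ℝ → ℝ)) (c * 1 : D) :=
    Conv.mul (Fn := fun _ => c) (Conv.const c) h
  have h2 : Conv (fun n => ((c * al n * c⁻¹ : D) : ℝ → ℝ)) (c * 1 * c⁻¹ : D) :=
    Conv.mul (Fn := fun n => c * al n) (Gn := fun _ => c⁻¹) h1 (Conv.const _)
  have e : c * 1 * c⁻¹ = (1 : D) := by group
  rw [e] at h2
  exact h2

theorem extF_conv (S : Sys2) {al : ℕ → D} (h : Conv (fun n => al n) (1 : D)) :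
    Conv (fun n => extF S (al n)) S.F := by
  have h1 := ext_conv_conj (S.F ^ (S.N - 1)) h
  have h2 : Conv (fun n => ((S.F * (S.F ^ (S.N - 1) * al n * (S.F ^ (S.N - 1))⁻¹) : D) : ℝ → ℝ))
      (S.F * 1 : D) :=
    Conv.mul (Fn := fun _ => S.F)
      (Gn := fun n => S.F ^ (S.N - 1) * al n * (S.F ^ (S.N - 1))⁻¹) (Conv.const _) h1
  rw [mul_one] at h2
  exact h2

theorem extG_conv (S : Sys2) {be : ℕ → D} (h : Conv (fun n => be n) (1 : D)) :
    Conv (fun n => extG S (be n)) S.G := by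
  have h1 : ∀ m : ℕ, Conv (fun n =>
      ((((List.range m).map (fun i => S.F ^ i * be n * (S.F ^ i)⁻¹)).prod : D) : ℝ → ℝ)) (1 : D) := by
    intro m
    induction m with
    | zero => simpa using Conv.const ((1 : D) : ℝ → ℝ)
    | succ m ih =>
      have h2 := ext_conv_conj (S.F ^ m) h
      have h3 := Conv.mul
        (Fn := fun n => ((List.range m).map (fun i => S.F ^ i * be n * (S.F ^ i)⁻¹)).prod)
        (Gn := fun n => S.F ^ m * be n * (S.F ^ m)⁻¹) ih h2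
      rw [mul_one] at h3
      have e : (fun n => ((((List.range (m + 1)).map
          (fun i => S.F ^ i * be n * (S.F ^ i)⁻¹)).prod : D) : ℝ → ℝ)) = fun n =>
          ((((List.range m).map (fun i => S.F ^ i * be n * (S.F ^ i)⁻¹)).prod *
            (S.F ^ m * be n * (S.F ^ m)⁻¹) : D) : ℝ → ℝ) := by
        funext n
        rw [List.range_succ, List.map_append, List.prod_append, List.map_cons, List.map_nil,
          List.prod_cons, List.prod_nil, mul_one]
      rw [e]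
      exact h3
  have h2 : Conv (fun n => ((S.G * ((List.range S.N).map
      (fun i => S.F ^ i * be n * (S.F ^ i)⁻¹)).prod : D) : ℝ → ℝ)) (S.G * 1 : D) :=
    Conv.mul (Fn := fun _ => S.G)
      (Gn := fun n => ((List.range S.N).map (fun i => S.F ^ i * be n * (S.F ^ i)⁻¹)).prod)
      (Conv.const _) (h1 S.N)
  rw [mul_one] at h2
  exact h2

end Pool.Agent.Helper638.Ros
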