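import Pool.Agent.Helper638_Ros.Defs

/-!
# Translation numbers of elements of `D`
-/

set_option autoImplicit false

namespace Pool.Agent.Helper638.Ros

open Filter Function Set Topology

/-- the homomorphism from `D` to degree one monotone maps -/
noncomputable def toL : D →* CircleDeg1Lift where
  toFun f := ⟨⟨(f : ℝ → ℝ), (D.strictMono f).monotone⟩, D.add_one f⟩
  map_one' := by ext x; rfl
  map_mul' := by intro f g; ext x; rfl

@[simp] theorem toL_apply (f : D) (x : ℝ) : toL f x = f x := rfl

/-- translation number -/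
noncomputable def tn (f : D) : ℝ := (toL f).translationNumber

theorem tn_one : tn 1 = 0 := by simp [tn]

theorem tn_mul {f g : D} (h : Commute f g) : tn (f * g) = tn f + tn g := by
  unfold tn
  rw [map_mul]
  exact CircleDeg1Lift.translationNumber_mul_of_commute (h.map toL)

theorem tn_inv (f : D) : tn f⁻¹ = -tn f := by
  have h := tn_mul (Commute.inv_right (Commute.refl f))
  rw [mul_inv_cancel, tn_one] at h
  linarith

theorem tn_pow (f : D) (n : ℕ) : tn (f ^ n) = n * tn f := by
  unfold tn
  rw [map_pow, CircleDeg1Lift.translationNumber_pow]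

theorem tn_zpow (f : D) (n : ℤ) : tn (f ^ n) = n * tn f := by
  cases n with
  | ofNat n => simpa using tn_pow f n
  | negSucc n =>
    rw [zpow_negSucc, tn_inv, tn_pow]; push_cast [Int.negSucc_eq]; ring

theorem tn_conj (h f : D) : tn (h * f * h⁻¹) = tn f := by
  unfold tn
  have e : (toL (h * f * h⁻¹)) = ((Units.map toL (toUnits h) : CircleDeg1Liftˣ) : CircleDeg1Lift) *
      toL f * (((Units.map toL (toUnits h))⁻¹ : CircleDeg1Liftˣ) : CircleDeg1Lift) := by
    rw [map_mul, map_mul, ← map_inv, ← map_inv]
    rfl
  rw [e, CircleDeg1Lift.translationNumber_conj_eq]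

theorem tn_eq_int_iff (f : D) (m : ℤ) : tn f = m ↔ ∃ x, f x = x + m :=
  (toL f).translationNumber_eq_int_iff (D.continuous f)

theorem tn_of_eq {f : D} {m : ℤ} {x : ℝ} (h : f x = x + m) : tn f = m :=
  (tn_eq_int_iff f m).2 ⟨x, h⟩

theorem tn_eq_zero_iff (f : D) : tn f = 0 ↔ ∃ x, f x = x := by
  have := tn_eq_int_iff f 0
  simpa using this

theorem tn_T : tn T = 1 := by
  have := tn_of_eq (f := T) (m := 1) (x := 0) (by simp)
  simpa using this

theorem tn_T_zpow (l : ℤ) : tn (T ^ l) = l := by rw [tn_zpow, tn_T, mul_one]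

theorem tn_mul_T_zpow (f : D) (l : ℤ) : tn (f * T ^ l) = tn f + l := by
  rw [tn_mul (((T_comm f).zpow_left l).symm), tn_T_zpow]

theorem tn_T_zpow_mul (f : D) (l : ℤ) : tn (T ^ l * f) = tn f + l := by
  rw [tn_mul ((T_comm f).zpow_left l), tn_T_zpow]; ring

/-- an element with positive translation number and no fixed point moves points to the right -/
theorem lt_of_tn_pos {f : D} (h : 0 < tn f) (x : ℝ) : x < f x := by
  have := CircleDeg1Lift.lt_map_of_int_lt_translationNumber (f := toL f) (n := 0)
    (by simpa [tn] using h) x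
  simpa using this

theorem lt_of_tn_neg {f : D} (h : tn f < 0) (x : ℝ) : f x < x := by
  have := CircleDeg1Lift.map_lt_of_translationNumber_lt_int (f := toL f) (n := 0)
    (by simpa [tn] using h) x
  simpa using this

theorem tn_pos_of_lt {f : D} (h : ∀ x, x < f x) : 0 < tn f := by
  have h0 : 0 ≤ tn f := by
    have := CircleDeg1Lift.le_translationNumber_of_add_int_le (f := toL f) (x := 0) (m := 0)
      (by simpa using (h 0).le)
    simpa [tn] using this
  refine lt_of_le_of_ne h0 (fun h1 => ?_)
  obtain ⟨x, hx⟩ := (tn_eq_zero_iff f).1 h1.symm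
  exact absurd hx (h x).ne'

/-- the distance of the translation number to `0` is at most the displacement bound -/
theorem abs_tn_le {f : D} {c : ℝ} (h : ∀ x, |f x - x| ≤ c) : |tn f| ≤ c := by
  rw [abs_le]
  constructor
  · refine CircleDeg1Lift.le_translationNumber_of_add_le (f := toL f) (z := -c) (fun x => ?_)
    have := abs_le.1 (h x)
    simp only [toL_apply]; linarith [this.1]
  · refine CircleDeg1Lift.translationNumber_le_of_le_add (f := toL f) (z := c) (fun x => ?_)
    have := abs_le.1 (h x)
    simp only [toL_apply]; linarith [this.2]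

/-- Two lifts commuting up to a translation commute. -/
theorem commute_of_comm_T {f g : D} {k : ℤ} (h : f * g = T ^ k * (g * f)) : k = 0 := by
  have h1 : f * g * f⁻¹ = T ^ k * g := by rw [h]; group
  have h2 : tn (f * g * f⁻¹) = tn g + k := by rw [h1, tn_T_zpow_mul]
  rw [tn_conj] at h2
  have : (k : ℝ) = 0 := by linarith
  exact_mod_cast this

end Pool.Agent.Helper638.Ros
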