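import Pool.Agent.Helper638_Ros.Main
import Pool.Agent.Helper638_Ros.TN

/-!
# The statement in elementary terms
-/

set_option autoImplicit false

namespace Pool.Agent.Helper638.Ros

open Filter Function Set Topology

theorem final_apply_pow (f : D) (n : ℕ) (x : ℝ) : (f ^ n) x = (f : ℝ → ℝ)^[n] x := by
  induction n generalizing x with
  | zero => rfl
  | succ n ih => rw [pow_succ, D.mul_apply, ih, Function.iterate_succ_apply]

theorem final :
    ¬ (∃ F G : ℝ → ℝ,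
      ContDiff ℝ ((⊤ : ℕ∞) : WithTop ℕ∞) F ∧ (∀ x : ℝ, F (x + 1) = F x + 1) ∧
      (∀ x : ℝ, 0 < deriv F x) ∧
      ContDiff ℝ ((⊤ : ℕ∞) : WithTop ℕ∞) G ∧ (∀ x : ℝ, G (x + 1) = G x + 1) ∧
      (∀ x : ℝ, 0 < deriv G x) ∧
      (∃ k : ℤ, ∀ x : ℝ, F (G x) = G (F x) + (k : ℝ)) ∧
      (∀ a b c d : ℕ,
        (∃ j : ℤ, ∀ x : ℝ, F^[a] (G^[b] x) = F^[c] (G^[d] x) + (j : ℝ)) → a = c ∧ b = d) ∧
      ∃ r : ℕ, ∃ ε > (0 : ℝ), ∀ F' G' : ℝ → ℝ,
        ContDiff ℝ ((⊤ : ℕ∞) : WithTop ℕ∞) F' → (∀ x : ℝ, F' (x + 1) = F' x + 1) →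
        (∀ x : ℝ, 0 < deriv F' x) →
        ContDiff ℝ ((⊤ : ℕ∞) : WithTop ℕ∞) G' → (∀ x : ℝ, G' (x + 1) = G' x + 1) →
        (∀ x : ℝ, 0 < deriv G' x) →
        (∃ k : ℤ, ∀ x : ℝ, F' (G' x) = G' (F' x) + (k : ℝ)) →
        (∀ i : ℕ, i ≤ r → ∀ x : ℝ,
          |iteratedDeriv i F' x - iteratedDeriv i F x| < ε ∧
          |iteratedDeriv i G' x - iteratedDeriv i G x| < ε) →
        ∃ H : ℝ → ℝ, ContDiff ℝ ((⊤ : ℕ∞) : WithTop ℕ∞) H ∧
          ((∀ x : ℝ, H (x + 1) = H x + 1) ∨ (∀ x : ℝ, H (x + 1) = H x - 1)) ∧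
          (∀ x : ℝ, deriv H x ≠ 0) ∧
          (∃ j : ℤ, ∀ x : ℝ, H (F' x) = F (H x) + (j : ℝ)) ∧
          (∃ j : ℤ, ∀ x : ℝ, H (G' x) = G (H x) + (j : ℝ))) := by
  rintro ⟨F, G, hF, hF1, hFd, hG, hG1, hGd, ⟨k, hk⟩, hfaith, r, ε, hε, hst⟩
  let f : D := mk F ⟨hF, hF1, hFd⟩
  let g : D := mk G ⟨hG, hG1, hGd⟩
  have hfc : ∀ x, f x = F x := fun x => rfl
  have hgc : ∀ x, g x = G x := fun x => rfl
  have hfF : (f : ℝ → ℝ) = F := rfl
  have hgG : (g : ℝ → ℝ) = G := rfl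
  have hcT : f * g = T ^ k * (g * f) := by
    apply D.ext
    intro x
    rw [D.mul_apply, D.mul_apply, T_zpow_apply, D.mul_apply]
    exact hk x
  have hk0 : k = 0 := commute_of_comm_T hcT
  have hc : Commute f g := by
    have h := hcT
    rw [hk0, zpow_zero, one_mul] at h
    exact h
  have hfa : Faithful f g := by
    intro i j l h
    -- split the exponents in positive and negative parts
    have key : ∃ m : ℤ, ∀ x : ℝ, F^[i.toNat] (G^[j.toNat] x) =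
        F^[(-i).toNat] (G^[(-j).toNat] x) + (m : ℝ) := by
      refine ⟨-l, fun x => ?_⟩
      have hi : (i.toNat : ℤ) - ((-i).toNat : ℤ) = i := by omega
      have hj : (j.toNat : ℤ) - ((-j).toNat : ℤ) = j := by omega
      have e : f ^ i.toNat * g ^ j.toNat = f ^ (-i).toNat * g ^ (-j).toNat * T ^ (-l) := by
        have e1 : f ^ i = f ^ i.toNat * (f ^ (-i).toNat)⁻¹ := by
          conv_lhs => rw [← hi]
          rw [zpow_sub, zpow_natCast, zpow_natCast]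
        have e2 : g ^ j = g ^ j.toNat * (g ^ (-j).toNat)⁻¹ := by
          conv_lhs => rw [← hj]
          rw [zpow_sub, zpow_natCast, zpow_natCast]
        have e3 : f ^ i * g ^ j = T ^ (-l) := by
          rw [zpow_neg, eq_inv_iff_mul_eq_one]; exact h
        rw [e1, e2] at e3
        have c1 : Commute (f ^ (-i).toNat) (g ^ (-j).toNat) := hc.pow_pow _ _
        have c2 : Commute (f ^ (-i).toNat)⁻¹ (g ^ j.toNat) := (hc.pow_pow _ _).inv_left
        have e4 : f ^ i.toNat * g ^ j.toNat * ((f ^ (-i).toNat)⁻¹ * (g ^ (-j).toNat)⁻¹) =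
            T ^ (-l) := by
          rw [← e3]
          calc f ^ i.toNat * g ^ j.toNat * ((f ^ (-i).toNat)⁻¹ * (g ^ (-j).toNat)⁻¹)
              = f ^ i.toNat * (g ^ j.toNat * (f ^ (-i).toNat)⁻¹) * (g ^ (-j).toNat)⁻¹ := by group
            _ = f ^ i.toNat * ((f ^ (-i).toNat)⁻¹ * g ^ j.toNat) * (g ^ (-j).toNat)⁻¹ := by
                rw [c2.eq]
            _ = _ := by group
        have e5 : ((f ^ (-i).toNat)⁻¹ * (g ^ (-j).toNat)⁻¹)⁻¹ =
            f ^ (-i).toNat * g ^ (-j).toNat := by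
          rw [mul_inv_rev, inv_inv, inv_inv, c1.eq]
        have e6 := eq_mul_inv_of_mul_eq e4
        rw [e5] at e6
        rw [e6]
        exact ((T_comm _).zpow_left _).eq
      have e7 : (f ^ i.toNat * g ^ j.toNat) x = (f ^ (-i).toNat * g ^ (-j).toNat * T ^ (-l)) x := by
        rw [e]
      rw [D.mul_apply, D.mul_apply, D.mul_apply, T_zpow_apply, D.add_int, D.add_int,
        final_apply_pow, final_apply_pow, final_apply_pow, final_apply_pow] at e7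
      exact e7
    have h2 := hfaith _ _ _ _ key
    omega
  obtain ⟨Fn, Gn, hcn, hFn, hGn, hnc⟩ := unst_of_faithful hc hfa
  obtain ⟨n, hn1, hn2⟩ := ((hFn.close r hε).and (hGn.close r hε)).exists
  apply hnc n
  obtain ⟨H, h1, h2, h3, h4, h5⟩ := hst (Fn n) (Gn n) (D.smooth _) (D.add_one _) (D.pos _)
    (D.smooth _) (D.add_one _) (D.pos _)
    ⟨0, fun x => by
      have := congrArg (fun u : D => (u : ℝ → ℝ) x) (hcn n).eq
      simpa using this⟩ (fun i hi x => ⟨hn1 i hi x, hn2 i hi x⟩)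
  exact ⟨H, ⟨h1, h2, h3⟩, h4, h5⟩

end Pool.Agent.Helper638.Ros
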