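import Pool.Agent.Helper638_Ros.SysDefs

/-!
# The sum lemma, the sequence of almost returns and their paths (paper 1.2, 1.3, 1.4)
-/

set_option autoImplicit false

namespace Pool.Agent.Helper638.Ros

open Filter Function Set Topology

/-! ### Sums of increments of a monotone function -/

theorem ord_sorted {f : ℝ → ℝ} (hf : Monotone f) {η : ℝ} (E : Finset ℝ) :
    ∀ a b : ℝ, a ≤ b → (∀ t ∈ E, a ≤ t ∧ t + η ≤ b) →
      (∀ t ∈ E, ∀ t' ∈ E, t < t' → t + η ≤ t') →
      ∑ t ∈ E, (f (t + η) - f t) ≤ f b - f a := by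
  induction E using Finset.induction_on_max with
  | empty =>
    intro a b hab _ _
    rw [Finset.sum_empty]
    have := hf hab
    linarith
  | insert m E hm ih =>
    intro a b hab h1 h2
    rw [Finset.sum_insert (fun h => lt_irrefl _ (hm m h))]
    have h3 := h1 m (Finset.mem_insert_self _ _)
    have h4 := ih a m h3.1 (fun t ht => ⟨(h1 t (Finset.mem_insert_of_mem ht)).1,
      h2 t (Finset.mem_insert_of_mem ht) m (Finset.mem_insert_self _ _) (hm t ht)⟩)
      (fun t ht t' ht' hl => h2 t (Finset.mem_insert_of_mem ht) t'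
        (Finset.mem_insert_of_mem ht') hl)
    have h5 := hf h3.2
    linarith

theorem ord_int {f : ℝ → ℝ} (h1 : ∀ t, f (t + 1) = f t + 1) (n : ℤ) (t : ℝ) :
    f (t + n) = f t + n := by
  have hnat : ∀ (k : ℕ) (t : ℝ), f (t + k) = f t + k := by
    intro k
    induction k with
    | zero => intro t; simp
    | succ k ih =>
      intro t
      push_cast
      rw [← add_assoc, h1, ih]
      ring
  cases n with
  | ofNat k => simpa using hnat k t
  | negSucc k =>
    have h := hnat (k + 1) (t + (Int.negSucc k : ℤ))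
    have e : t + (Int.negSucc k : ℤ) + ((k + 1 : ℕ) : ℝ) = t := by
      push_cast [Int.negSucc_eq]; ring
    rw [e] at h
    rw [h]; push_cast [Int.negSucc_eq]; ring

theorem ord_per {f : ℝ → ℝ} (hf : Monotone f) (h1 : ∀ t, f (t + 1) = f t + 1) {η : ℝ}
    (hη : 0 < η) (hη1 : η ≤ 1) {ι : Type} (E : Finset ι) (t : ι → ℝ)
    (hE : ∀ e ∈ E, ∀ e' ∈ E, e ≠ e' → ∀ n : ℤ, η ≤ |t e - t e' + n|) :
    ∑ e ∈ E, (f (t e + η) - f (t e)) ≤ 1 := by
  classical
  have hfr : ∀ e, f (t e + η) - f (t e) = f (Int.fract (t e) + η) - f (Int.fract (t e)) := by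
    intro e
    have e1 : t e = Int.fract (t e) + (⌊t e⌋ : ℝ) := (Int.fract_add_floor (t e)).symm
    have e2 : t e + η = (Int.fract (t e) + η) + (⌊t e⌋ : ℝ) := by linarith
    have e3 : f (t e) = f (Int.fract (t e)) + (⌊t e⌋ : ℝ) := by
      conv_lhs => rw [e1]
      exact ord_int h1 _ _
    rw [e2, ord_int h1, e3]
    ring
  have hdist : ∀ e ∈ E, ∀ e' ∈ E, e ≠ e' → ∀ n : ℤ,
      η ≤ |Int.fract (t e) - Int.fract (t e') + n| := by
    intro e he e' he' hne n
    have := hE e he e' he' hne (⌊t e'⌋ - ⌊t e⌋ + n)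
    have e1 : Int.fract (t e) - Int.fract (t e') + (n : ℝ) =
        t e - t e' + ((⌊t e'⌋ - ⌊t e⌋ + n : ℤ) : ℝ) := by
      push_cast
      rw [Int.fract, Int.fract]
      ring
    rw [e1]
    exact this
  have hinj : ∀ e ∈ E, ∀ e' ∈ E, Int.fract (t e) = Int.fract (t e') → e = e' := by
    intro e he e' he' h
    by_contra hne
    have := hdist e he e' he' hne 0
    rw [h] at this
    simp at this
    linarith
  have hsum : ∑ e ∈ E, (f (t e + η) - f (t e)) =
      ∑ s ∈ E.image (fun e => Int.fract (t e)), (f (s + η) - f s) := by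
    rw [Finset.sum_image (by intro e he e' he' h; exact hinj e he e' he' h)]
    exact Finset.sum_congr rfl (fun e _ => hfr e)
  rw [hsum]
  rcases E.eq_empty_or_nonempty with h0 | h0
  · subst h0
    simp
  · have hne : (E.image (fun e => Int.fract (t e))).Nonempty := h0.image _
    set E' := E.image (fun e => Int.fract (t e)) with hE'
    have key : ∀ s ∈ E', ∀ s' ∈ E', s ≠ s' → ∀ n : ℤ, η ≤ |s - s' + n| := by
      intro s hs s' hs' hss n
      rw [hE', Finset.mem_image] at hs hs'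
      obtain ⟨e, he, rfl⟩ := hs
      obtain ⟨e', he', rfl⟩ := hs'
      exact hdist e he e' he' (fun h => hss (by rw [h])) n
    have hran : ∀ s ∈ E', 0 ≤ s ∧ s < 1 := by
      intro s hs
      rw [hE', Finset.mem_image] at hs
      obtain ⟨e, he, rfl⟩ := hs
      exact ⟨Int.fract_nonneg _, Int.fract_lt_one _⟩
    set a := E'.min' hne with ha
    have haE : a ∈ E' := Finset.min'_mem _ _
    have := ord_sorted hf (η := η) E' a (a + 1) (by linarith) ?_ ?_
    · rw [h1] at this
      linarith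
    · intro s hs
      have h2 : a ≤ s := Finset.min'_le _ _ hs
      refine ⟨h2, ?_⟩
      by_cases h3 : s = a
      · rw [h3]; linarith
      · have h4 := key s hs a haE h3 (-1)
        have h5 := hran s hs
        have h6 := hran a haE
        push_cast at h4
        rw [abs_of_nonpos (by linarith)] at h4
        linarith
    · intro s hs s' hs' hlt
      have h4 := key s hs s' hs' hlt.ne 0
      push_cast at h4
      rw [add_zero, abs_of_neg (by linarith)] at h4
      linarith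

/-! ### The monotone function of an orbit -/

theorem ord_A_T (S : Sys) (g : ℤ × ℤ × ℤ) (x : ℝ) :
    S.A (g + (0, 0, 1)) x = S.A g x + 1 := by
  rw [add_comm, S.A_apply_add, S.A_T, T_apply]

theorem ord_tau_int (S : Sys) (n : ℤ) : S.tau (0, 0, n) = n := by
  have h : ((0, 0, n) : ℤ × ℤ × ℤ) = n • ((0, 0, 1) : ℤ × ℤ × ℤ) := by
    simp
  rw [h, S.tau_zsmul, S.tau_T, mul_one]

/-- the monotone function through the orbit of `x` -/
noncomputable def ordF (S : Sys) (x t : ℝ) : ℝ := sSup {y | ∃ g, S.tau g ≤ t ∧ S.A g x = y}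

theorem ordF_ne (S : Sys) (x t : ℝ) : {y | ∃ g, S.tau g ≤ t ∧ S.A g x = y}.Nonempty := by
  obtain ⟨n, hn⟩ := exists_nat_ge (-t)
  refine ⟨_, (0, 0, -(n : ℤ)), ?_, rfl⟩
  rw [ord_tau_int]
  push_cast
  linarith

theorem ordF_bdd (S : Sys) (x t : ℝ) : BddAbove {y | ∃ g, S.tau g ≤ t ∧ S.A g x = y} := by
  obtain ⟨n, hn⟩ := exists_nat_ge t
  refine ⟨S.A (0, 0, (n : ℤ)) x, ?_⟩
  rintro y ⟨g, hg, rfl⟩
  apply S.le
  rw [ord_tau_int]
  push_cast
  linarith

theorem ordF_mono (S : Sys) (x : ℝ) : Monotone (ordF S x) := by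
  intro t t' h
  apply csSup_le_csSup (ordF_bdd S x t') (ordF_ne S x t)
  rintro y ⟨g, hg, rfl⟩
  exact ⟨g, hg.trans h, rfl⟩

theorem ordF_tau (S : Sys) (x : ℝ) (g : ℤ × ℤ × ℤ) : ordF S x (S.tau g) = S.A g x := by
  apply le_antisymm
  · apply csSup_le (ordF_ne S x _)
    rintro y ⟨g', hg', rfl⟩
    exact S.le _ _ hg' x
  · exact le_csSup (ordF_bdd S x _) ⟨g, le_rfl, rfl⟩

theorem ordF_add_one (S : Sys) (x t : ℝ) : ordF S x (t + 1) = ordF S x t + 1 := by
  apply le_antisymm
  · apply csSup_le (ordF_ne S x _)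
    rintro y ⟨g, hg, rfl⟩
    have h1 : S.A (g - (0, 0, 1)) x ≤ ordF S x t := by
      apply le_csSup (ordF_bdd S x _)
      refine ⟨_, ?_, rfl⟩
      rw [S.tau_sub, S.tau_T]
      linarith
    have h2 := ord_A_T S (g - (0, 0, 1)) x
    rw [sub_add_cancel] at h2
    linarith
  · rw [← le_sub_iff_add_le]
    apply csSup_le (ordF_ne S x _)
    rintro y ⟨g, hg, rfl⟩
    rw [le_sub_iff_add_le, ← ord_A_T]
    apply le_csSup (ordF_bdd S x _)
    refine ⟨_, ?_, rfl⟩
    rw [S.tau_add, S.tau_T]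
    linarith

/-- the sum lemma (paper 1.4) -/
theorem sum_lemma (S : Sys) (E : Finset (ℤ × ℤ × ℤ)) {η : ℝ} (hη : 0 < η) (hη1 : η ≤ 1)
    (hE : ∀ e ∈ E, ∀ e' ∈ E, e ≠ e' → ∀ n : ℤ, η ≤ |S.tau e - S.tau e' + n|)
    (M : ℕ) (h : ℤ × ℤ × ℤ) (hh : S.tau h ≤ M * η) (x : ℝ) :
    ∑ e ∈ E, (S.A (e + h) x - S.A e x) ≤ M := by
  have h1 : ∀ e ∈ E, S.A (e + h) x - S.A e x ≤
      ∑ j ∈ Finset.range M, (ordF S x (S.tau e + ((j : ℝ)) * η + η) -
        ordF S x (S.tau e + (j : ℝ) * η)) := by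
    intro e _
    have e1 : ∀ j : ℕ, ordF S x (S.tau e + ((j : ℝ)) * η + η) -
        ordF S x (S.tau e + (j : ℝ) * η) =
        (fun j : ℕ => ordF S x (S.tau e + (j : ℝ) * η)) (j + 1) -
        (fun j : ℕ => ordF S x (S.tau e + (j : ℝ) * η)) j := by
      intro j
      have e2 : S.tau e + ((j : ℝ)) * η + η = S.tau e + ((j + 1 : ℕ) : ℝ) * η := by
        push_cast; ring
      rw [e2]
    rw [Finset.sum_congr rfl (fun j _ => e1 j),
      Finset.sum_range_sub (fun j : ℕ => ordF S x (S.tau e + (j : ℝ) * η)) M]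
    have e3 : ordF S x (S.tau e + S.tau h) ≤ ordF S x (S.tau e + (M : ℝ) * η) :=
      ordF_mono S x (by linarith)
    have e4 := ordF_tau S x (e + h)
    have e5 := ordF_tau S x e
    rw [S.tau_add] at e4
    simp only [Nat.cast_zero, zero_mul, add_zero]
    linarith
  refine (Finset.sum_le_sum h1).trans ?_
  rw [Finset.sum_comm]
  have h2 : ∀ j ∈ Finset.range M, ∑ e ∈ E, (ordF S x (S.tau e + ((j : ℝ)) * η + η) -
        ordF S x (S.tau e + (j : ℝ) * η)) ≤ 1 := by
    intro j _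
    apply ord_per (ordF_mono S x) (ordF_add_one S x) hη hη1 E (fun e => S.tau e + (j : ℝ) * η)
    intro e he e' he' hne n
    have := hE e he e' he' hne n
    have e1 : S.tau e + (j : ℝ) * η - (S.tau e' + (j : ℝ) * η) + (n : ℝ) =
        S.tau e - S.tau e' + n := by ring
    rw [e1]
    exact this
  refine (Finset.sum_le_sum h2).trans ?_
  simp

/-! ### Gluing and reversing paths -/

theorem ord_len_neg (g : ℤ × ℤ × ℤ) : len (-g) = len g := by
  simp [len]

/-- gluing of paths -/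
theorem IsPath.glue {q q' : ℕ → ℤ × ℤ × ℤ} {m m' : ℕ} (hq : IsPath q m) (hq' : IsPath q' m') :
    ∃ q'' : ℕ → ℤ × ℤ × ℤ, IsPath q'' (m + m') ∧ q'' (m + m') = q m + q' m' ∧
      ∀ f : ℤ × ℤ × ℤ → ℝ, ∑ a ∈ Finset.range (m + m'), f (q'' a) =
        ∑ a ∈ Finset.range m, f (q a) + ∑ a ∈ Finset.range m', f (q m + q' a) := by
  refine ⟨fun a => if a < m then q a else q m + q' (a - m), ⟨?_, ?_⟩, ?_, ?_⟩
  · by_cases h : 0 < m
    · simp [h, hq.1]
    · have : m = 0 := by omega
      subst this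
      simp [hq.1, hq'.1]
  · intro a ha
    by_cases h1 : a + 1 < m
    · have h2 : a < m := by omega
      simp only [h1, h2, if_true]
      exact hq.2 a h2
    · by_cases h2 : a < m
      · have h3 : a + 1 = m := by omega
        simp only [h1, h2, if_false, if_true]
        rw [h3, Nat.sub_self, hq'.1, add_zero, ← h3]
        exact hq.2 a h2
      · simp only [h1, h2, if_false]
        have : a + 1 - m = (a - m) + 1 := by omega
        rw [this, add_sub_add_left_eq_sub]
        exact hq'.2 _ (by omega)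
  · simp
  · intro f
    rw [Finset.sum_range_add]
    congr 1
    · apply Finset.sum_congr rfl
      intro a ha
      simp [Finset.mem_range.1 ha]
    · apply Finset.sum_congr rfl
      intro a _
      simp

/-- reversal of paths -/
theorem IsPath.rev {q : ℕ → ℤ × ℤ × ℤ} {m : ℕ} (hq : IsPath q m) :
    ∃ q' : ℕ → ℤ × ℤ × ℤ, IsPath q' m ∧ q' m = -q m ∧
      ∀ f : ℤ × ℤ × ℤ → ℝ, ∑ a ∈ Finset.range (m + 1), f (q' a + q m) =
        ∑ a ∈ Finset.range (m + 1), f (q a) := by
  refine ⟨fun a => q (m - a) - q m, ⟨?_, ?_⟩, ?_, ?_⟩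
  · simp
  · intro a ha
    obtain ⟨b, hb⟩ : ∃ b, m - a = b + 1 := ⟨m - a - 1, by omega⟩
    have hb' : m - (a + 1) = b := by omega
    simp only [hb, hb']
    have e : q b - q m - (q (b + 1) - q m) = -(q (b + 1) - q b) := by abel
    rw [e, ord_len_neg]
    exact hq.2 b (by omega)
  · simp [hq.1]
  · intro f
    simp only [sub_add_cancel]
    exact Finset.sum_flip (fun a => f (q a))

/-! ### The almost returns -/

theorem ord_exists (S : Sys) {δ : ℝ} (hδ : 0 < δ) :
    ∃ g, 1 ≤ len g ∧ 0 < S.tau g ∧ 2 * S.tau g ≤ δ := by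
  obtain ⟨n, hn⟩ := exists_nat_gt (2 / δ)
  have hn0 : 0 < n := by
    rcases Nat.eq_zero_or_pos n with h | h
    · subst h
      have := div_pos two_pos hδ
      simp only [Nat.cast_zero] at hn
      linarith
    · exact h
  obtain ⟨j, k, hk0, hkn, hjk⟩ := Real.exists_int_int_abs_mul_sub_le (S.tau (1, 0, 0)) hn0
  have htau : S.tau (k, 0, -j) = k * S.tau (1, 0, 0) - j := by
    have : ((k, 0, -j) : ℤ × ℤ × ℤ) = k • ((1, 0, 0) : ℤ × ℤ × ℤ) - j • ((0, 0, 1) : ℤ × ℤ × ℤ) := by
      simp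
    rw [this, S.tau_sub, S.tau_zsmul, S.tau_zsmul, S.tau_T]
    ring
  have hlen : 1 ≤ len (k, 0, -j) := by
    simp only [len]
    omega
  have hne : S.tau (k, 0, -j) ≠ 0 := by
    intro h
    have := congrArg Prod.fst (S.tau_inj _ h)
    simp only [Prod.fst_zero] at this
    omega
  have hb : 2 * |S.tau (k, 0, -j)| ≤ δ := by
    rw [htau]
    have h1 : (1 : ℝ) / ((n : ℝ) + 1) ≤ δ / 2 := by
      rw [div_le_div_iff₀ (by positivity) (by norm_num)]
      rw [div_lt_iff₀ hδ] at hn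
      nlinarith
    linarith
  rcases lt_or_gt_of_ne hne with h | h
  · refine ⟨-(k, 0, -j), by rwa [ord_len_neg], by rw [S.tau_neg]; linarith, ?_⟩
    rw [S.tau_neg]
    rwa [abs_of_neg h] at hb
  · exact ⟨(k, 0, -j), hlen, h, by rwa [abs_of_pos h] at hb⟩

theorem ord_min (S : Sys) {δ : ℝ} (hδ : 0 < δ) :
    ∃ g, (1 ≤ len g ∧ 0 < S.tau g ∧ 2 * S.tau g ≤ δ) ∧
      ∀ g', 1 ≤ len g' → 0 < S.tau g' → 2 * S.tau g' ≤ δ → len g ≤ len g' := by
  classical
  have h : ∃ n, ∃ g, len g = n ∧ (1 ≤ len g ∧ 0 < S.tau g ∧ 2 * S.tau g ≤ δ) := by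
    obtain ⟨g, hg⟩ := ord_exists S hδ
    exact ⟨len g, g, rfl, hg⟩
  obtain ⟨g, hg, hg'⟩ := Nat.find_spec h
  exact ⟨g, hg', fun g' h1 h2 h3 => by rw [hg]; exact Nat.find_min' h ⟨g', rfl, h1, h2, h3⟩⟩

theorem ord_sub_add (S : Sys) (e e' : ℤ × ℤ × ℤ) (n : ℤ) :
    S.tau e - S.tau e' + n = S.tau (e - e' + (0, 0, n)) := by
  rw [S.tau_add, S.tau_sub, ord_tau_int]

theorem exists_rseq (S : Sys) : Nonempty (RSeq S) := by
  classical
  choose nx h1 h2 using (fun (p : {g : ℤ × ℤ × ℤ // 0 < S.tau g}) => ord_min S p.2)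
  let w' : ℕ → {g : ℤ × ℤ × ℤ // 0 < S.tau g} := fun k =>
    Nat.rec (motive := fun _ => {g : ℤ × ℤ × ℤ // 0 < S.tau g})
      ⟨(0, 0, 1), by rw [S.tau_T]; norm_num⟩ (fun _ p => ⟨nx p, (h1 p).2.1⟩) k
  obtain ⟨w, hw⟩ : ∃ w : ℕ → ℤ × ℤ × ℤ, ∀ k, w k = (w' k).1 := ⟨fun k => (w' k).1, fun k => rfl⟩
  have hw0 : w 0 = (0, 0, 1) := hw 0
  have hs : ∀ k, w (k + 1) = nx (w' k) := fun k => hw (k + 1)
  have hpos : ∀ k, 0 < S.tau (w k) := by
    intro k
    rw [hw]
    exact (w' k).2
  have hhalf : ∀ k, 2 * S.tau (w (k + 1)) ≤ S.tau (w k) := by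
    intro k
    rw [hs, hw]
    exact (h1 (w' k)).2.2
  have hlp : ∀ k, 1 ≤ len (w (k + 1)) := by
    intro k
    rw [hs]
    exact (h1 (w' k)).1
  have hone : ∀ k, S.tau (w k) ≤ 1 := by
    intro k
    induction k with
    | zero => rw [hw0, S.tau_T]
    | succ k ih =>
      have := hhalf k
      have := hpos (k + 1)
      linarith
  have hmin : ∀ k (g : ℤ × ℤ × ℤ), 1 ≤ len g → 0 < S.tau g → 2 * S.tau g ≤ S.tau (w k) →
      len (w (k + 1)) ≤ len g := by
    intro k g e1 e2 e3
    rw [hs]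
    rw [hw] at e3
    exact h2 (w' k) g e1 e2 e3
  have hsep : ∀ k (g : ℤ × ℤ × ℤ), 1 ≤ len g → len g < len (w (k + 1)) →
      S.tau (w k) / 2 < |S.tau g| := by
    intro k g hg hlt
    by_contra hcon
    push Not at hcon
    have hne : S.tau g ≠ 0 := by
      intro h
      rw [S.tau_inj _ h] at hg
      simp [len] at hg
    rcases lt_or_gt_of_ne hne with h | h
    · rw [abs_of_neg h] at hcon
      have := hmin k (-g) (by rwa [ord_len_neg]) (by rw [S.tau_neg]; linarith)
        (by rw [S.tau_neg]; linarith)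
      rw [ord_len_neg] at this
      omega
    · rw [abs_of_pos h] at hcon
      have := hmin k g hg h (by linarith)
      omega
  refine ⟨⟨w, hw0, hpos, hhalf, hlp, hsep, ?_, ?_⟩⟩
  · intro k
    refine hmin k _ (hlp (k + 1)) (hpos (k + 2)) ?_
    have e1 := hhalf (k + 1)
    have e2 := hhalf k
    have e3 := hpos (k + 1)
    change 2 * S.tau (w (k + 1 + 1)) ≤ S.tau (w k)
    linarith
  · intro k
    set m := len (w (k + 1)) with hm
    set δ := S.tau (w k) with hδ
    have hδ0 : 0 < δ := hpos k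
    set n := (m + 1) / 2 with hn
    have hm1 : 1 ≤ m := hlp k
    have hcount := ord_per (f := fun t => t) monotone_id (fun t => rfl) (η := δ / 2) (by linarith)
      (by have := hone k; linarith) (Finset.range n ×ˢ Finset.range n)
      (fun p => S.tau ((p.1 : ℤ), (p.2 : ℤ), 0)) (by
        rintro ⟨i, j⟩ he ⟨i', j'⟩ he' hne c
        rw [Finset.mem_product, Finset.mem_range, Finset.mem_range] at he he'
        simp only at he he'
        rw [ord_sub_add]
        refine (hsep k _ ?_ ?_).le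
        · simp only [len, Prod.mk_sub_mk, Prod.mk_add_mk]
          by_contra hcon
          apply hne
          rw [Prod.mk.injEq]
          omega
        · rw [← hm]
          simp only [len, Prod.mk_sub_mk, Prod.mk_add_mk]
          omega)
    simp only [add_sub_cancel_left, Finset.sum_const, Finset.card_product, Finset.card_range,
      nsmul_eq_mul] at hcount
    have h3 : (m : ℝ) ≤ 2 * n := by
      have : m ≤ 2 * n := by omega
      exact_mod_cast this
    push_cast at hcount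
    have h4 : (0 : ℝ) ≤ m := Nat.cast_nonneg _
    have h5 : (m : ℝ) ^ 2 ≤ (2 * n) ^ 2 := by
      exact pow_le_pow_left₀ h4 h3 2
    nlinarith

/-! ### The path to an almost return -/

theorem ord_sign {x : ℤ} {u v : ℕ} (huv : u ≤ v) (hv : v ≤ x.natAbs) :
    (x.sign * v - x.sign * u).natAbs = v - u := by
  rcases lt_trichotomy x 0 with h | h | h
  · rw [Int.sign_eq_neg_one_of_neg h]
    omega
  · subst h
    simp at hv
    have : u = 0 := by omega
    subst hv this
    simp
  · rw [Int.sign_eq_one_of_pos h]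
    omega

/-- the path to `g` -/
def ordQ (g : ℤ × ℤ × ℤ) (a : ℕ) : ℤ × ℤ × ℤ :=
  (g.1.sign * (min a g.1.natAbs : ℕ), g.2.1.sign * (min (a - g.1.natAbs) g.2.1.natAbs : ℕ),
    if a < len g then 0 else g.2.2)

theorem ordQ_len (g : ℤ × ℤ × ℤ) {a b : ℕ} (hab : a ≤ b) (hb : b ≤ len g) :
    len (ordQ g b - ordQ g a) = b - a := by
  unfold ordQ len at *
  simp only [Prod.fst_sub, Prod.snd_sub]
  rw [ord_sign (by omega) (by omega), ord_sign (by omega) (by omega)]
  omega

theorem ordQ_len_self (g : ℤ × ℤ × ℤ) : ordQ g (len g) = g := by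
  obtain ⟨x, y, z⟩ := g
  unfold ordQ len
  simp only
  rw [min_eq_right (by omega), min_eq_right (by omega), Int.sign_mul_natAbs, Int.sign_mul_natAbs]
  simp

theorem ordQ_zero (g : ℤ × ℤ × ℤ) (hg : 1 ≤ len g) : ordQ g 0 = 0 := by
  unfold ordQ
  rw [if_pos (by omega)]
  simp

theorem ord_len_zsmul {s : ℤ} (hs : s = 1 ∨ s = -1) (g : ℤ × ℤ × ℤ) : len (s • g) = len g := by
  rcases hs with rfl | rfl
  · rw [one_smul]
  · rw [neg_smul, one_smul, ord_len_neg]

/-- the path to `± w (k+1)` and the sum estimate along it -/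
theorem exists_path {S : Sys} (W : RSeq S) (k : ℕ) (s : ℤ) (hs : s = 1 ∨ s = -1) :
    ∃ q : ℕ → ℤ × ℤ × ℤ, IsPath q (len (W.w (k + 1))) ∧
      q (len (W.w (k + 1))) = s • W.w (k + 1) ∧
      ∀ (M : ℕ) (h : ℤ × ℤ × ℤ), S.tau h ≤ M * (S.tau (W.w k) / 2) → ∀ x : ℝ,
        ∑ a ∈ Finset.range (len (W.w (k + 1))), (S.A (q a + h) x - S.A (q a) x) ≤ M := by
  classical
  set g := s • W.w (k + 1) with hg
  have hlen : len (W.w (k + 1)) = len g := by rw [hg, ord_len_zsmul hs]
  have hl1 : 1 ≤ len g := by rw [← hlen]; exact W.len_pos k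
  rw [hlen]
  refine ⟨ordQ g, ⟨ordQ_zero g hl1, ?_⟩, ordQ_len_self g, ?_⟩
  · intro a ha
    rw [ordQ_len g (by omega) (by omega)]
    omega
  · intro M h hh x
    have hdist : ∀ a b, a < len g → b < len g → a ≠ b → 1 ≤ len (ordQ g a - ordQ g b) ∧
        len (ordQ g a - ordQ g b) < len g := by
      intro a b ha hb hab
      rcases Nat.lt_or_gt_of_ne hab with h1 | h1
      · rw [← ord_len_neg, neg_sub, ordQ_len g h1.le hb.le]
        omega
      · rw [ordQ_len g h1.le ha.le]
        omega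
    have hinj : ∀ a ∈ Finset.range (len g), ∀ b ∈ Finset.range (len g),
        ordQ g a = ordQ g b → a = b := by
      intro a ha b hb hab
      by_contra hne
      have := (hdist a b (Finset.mem_range.1 ha) (Finset.mem_range.1 hb) hne).1
      rw [hab, sub_self] at this
      simp [len] at this
    have h1 := sum_lemma S ((Finset.range (len g)).image (ordQ g)) (η := S.tau (W.w k) / 2)
      (by have := W.pos k; linarith) (by have := W.tau_le_one k; linarith) (by
        intro e he e' he' hne n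
        rw [Finset.mem_image] at he he'
        obtain ⟨a, ha, rfl⟩ := he
        obtain ⟨b, hb, rfl⟩ := he'
        rw [ord_sub_add]
        have h2 := hdist a b (Finset.mem_range.1 ha) (Finset.mem_range.1 hb)
          (fun h => hne (by rw [h]))
        have h3 : len (ordQ g a - ordQ g b + (0, 0, n)) = len (ordQ g a - ordQ g b) := by
          simp [len]
        refine (W.sep k _ ?_ ?_).le
        · rw [h3]; exact h2.1
        · rw [h3, hlen]; exact h2.2) M h hh x
    rw [Finset.sum_image hinj] at h1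
    exact h1

end Pool.Agent.Helper638.Ros
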