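import Pool.Agent.Helper638_Ros.PathDist
import Pool.Agent.Helper638_Ros.Order

/-!
# Uniform bound for `D A(w_k)` and lower bound for the gaps (paper 1.6, 1.7)
-/

set_option autoImplicit false

namespace Pool.Agent.Helper638.Ros

open Filter Function Set Topology

/-! ### elementary calculus -/

theorem gap_mv_ge (f : D) {a b c : ℝ} (hab : a ≤ b) (h : ∀ z ∈ Icc a b, c ≤ deriv f z) :
    c * (b - a) ≤ f b - f a := by
  refine (convex_Icc a b).mul_sub_le_image_sub_of_le_deriv (D.continuous f).continuousOn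
    (D.differentiable f).differentiableOn (fun z hz => h z (interior_subset hz)) a
    (left_mem_Icc.2 hab) b (right_mem_Icc.2 hab) hab

theorem gap_mv_le (f : D) {a b c : ℝ} (hab : a ≤ b) (h : ∀ z ∈ Icc a b, deriv f z ≤ c) :
    f b - f a ≤ c * (b - a) := by
  refine (convex_Icc a b).image_sub_le_mul_sub_of_deriv_le (D.continuous f).continuousOn
    (D.differentiable f).differentiableOn (fun z hz => h z (interior_subset hz)) a
    (left_mem_Icc.2 hab) b (right_mem_Icc.2 hab) hab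

theorem gap_deriv_inv (f : D) (x : ℝ) : deriv (f⁻¹ : D) (f x) * deriv f x = 1 := by
  rw [← D.deriv_mul, inv_mul_cancel]
  exact deriv_id x

theorem gap_taylor {f : ℝ → ℝ} (hf : Differentiable ℝ f) (hf' : Differentiable ℝ (deriv f))
    {I : Set ℝ} (hI : Convex ℝ I) {κ : ℝ} (hκ : ∀ z ∈ I, |deriv (deriv f) z| ≤ κ) {x y : ℝ}
    (hx : x ∈ I) (hy : y ∈ I) : |f y - f x - deriv f x * (y - x)| ≤ κ * (y - x) ^ 2 := by
  have hκ0 : 0 ≤ κ := (abs_nonneg _).trans (hκ x hx)
  have hJ : uIcc x y ⊆ I := by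
    rw [← segment_eq_uIcc]
    exact hI.segment_subset hx hy
  have h1 : ∀ z ∈ uIcc x y, |deriv f z - deriv f x| ≤ κ * |y - x| := by
    intro z hz
    have h2 := hI.norm_image_sub_le_of_norm_deriv_le (f := deriv f) (C := κ)
      (fun u _ => hf' u) (fun u hu => by rw [Real.norm_eq_abs]; exact hκ u hu) hx (hJ hz)
    rw [Real.norm_eq_abs, Real.norm_eq_abs] at h2
    exact h2.trans (mul_le_mul_of_nonneg_left (abs_sub_left_of_mem_uIcc hz) hκ0)
  have hder : ∀ u, HasDerivAt (fun z => f z - deriv f x * z) (deriv f u - deriv f x) u := by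
    intro u
    have := (hf u).hasDerivAt.sub ((hasDerivAt_id u).const_mul (deriv f x))
    rwa [mul_one] at this
  have h3 := (convex_uIcc x y).norm_image_sub_le_of_norm_deriv_le
    (f := fun z => f z - deriv f x * z) (C := κ * |y - x|)
    (fun u _ => (hder u).differentiableAt)
    (fun u hu => by
      rw [Real.norm_eq_abs, (hder u).deriv]
      exact h1 u hu) left_mem_uIcc right_mem_uIcc
  rw [Real.norm_eq_abs, Real.norm_eq_abs] at h3
  have e1 : f y - deriv f x * y - (f x - deriv f x * x) = f y - f x - deriv f x * (y - x) := by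
    ring
  rw [e1] at h3
  refine h3.trans_eq ?_
  rw [mul_assoc, abs_mul_abs_self]
  ring

/-- A map moving all points to the right whose second derivative is small moves no point too
little, if some iterate moves it far. -/
theorem gap_core {f : ℝ → ℝ} (hf : Differentiable ℝ f) (hf' : Differentiable ℝ (deriv f))
    (hpos : ∀ y, y < f y) {x s Λ C : ℝ} (hs : 0 < s) (hΛ : 1 ≤ Λ) (hC : 0 ≤ C)
    (hκ : ∀ z ∈ Icc (x - s / Λ) (x + s), |deriv (deriv f) z| ≤ C / s) {n : ℕ}
    (hn : x + s ≤ f^[n] x) :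
    (1 / Λ) ^ 2 * s ≤ f x - x ∨ s ≤ ((n : ℝ) * (2 + 2 * C)) ^ 2 * (f x - x) := by
  have hΛ0 : 0 < Λ := by linarith
  have hh : 0 < f x - x := by linarith [hpos x]
  set a : ℝ := Real.sqrt ((f x - x) / s) with ha
  have ha0 : 0 < a := Real.sqrt_pos.2 (by positivity)
  have haa : a ^ 2 * s = f x - x := by
    rw [ha, Real.sq_sqrt (by positivity)]
    field_simp
  rcases le_or_gt (1 / Λ) a with h1 | h1
  · left
    rw [← haa]
    exact mul_le_mul_of_nonneg_right (pow_le_pow_left₀ (by positivity) h1 2) hs.le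
  right
  have hsΛ : s / Λ ≤ s := div_le_self hs.le hΛ
  have hsΛ0 : 0 < s / Λ := by positivity
  set t : ℝ := a * s with ht
  have ht0 : 0 < t := by positivity
  have htΛ : t < s / Λ := by
    have : a * s < 1 / Λ * s := mul_lt_mul_of_pos_right h1 hs
    rw [ht]
    calc a * s < 1 / Λ * s := this
      _ = s / Λ := by ring
  have hxI : x ∈ Icc (x - s / Λ) (x + s) := ⟨by linarith, by linarith⟩
  have tay : ∀ y ∈ Icc (x - s / Λ) (x + s),
      |f y - f x - deriv f x * (y - x)| ≤ C / s * (y - x) ^ 2 :=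
    fun y hy => gap_taylor hf hf' (convex_Icc _ _) hκ hxI hy
  have hct : C / s * t ^ 2 = C * (a ^ 2 * s) := by
    rw [ht]
    field_simp
  -- the derivative of the displacement
  have g1 : (deriv f x - 1) * t ≤ (1 + C) * (a ^ 2 * s) := by
    have h2 := (abs_le.1 (tay (x - t) ⟨by linarith, by linarith⟩)).2
    have h3 := hpos (x - t)
    have e : C / s * (x - t - x) ^ 2 = C * (a ^ 2 * s) := by
      rw [← hct]; ring
    rw [e] at h2
    nlinarith
  have g2 : -((deriv f x - 1) * t) ≤ (1 + C) * (a ^ 2 * s) := by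
    have h2 := (abs_le.1 (tay (x + t) ⟨by linarith, by linarith⟩)).2
    have h3 := hpos (x + t)
    have e : C / s * (x + t - x) ^ 2 = C * (a ^ 2 * s) := by
      rw [← hct]; ring
    rw [e] at h2
    nlinarith
  -- all displacements on `[x, x + t]` are small
  have hD : ∀ y ∈ Icc x (x + t), f y - y ≤ (2 + 2 * C) * (a ^ 2 * s) := by
    intro y hy
    have h2 := (abs_le.1 (tay y ⟨by linarith [hy.1], by linarith [hy.2]⟩)).2
    have h3 : C / s * (y - x) ^ 2 ≤ C * (a ^ 2 * s) := by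
      rw [← hct]
      apply mul_le_mul_of_nonneg_left _ (by positivity)
      exact pow_le_pow_left₀ (by linarith [hy.1]) (by linarith [hy.2]) 2
    have h4 : (deriv f x - 1) * (y - x) ≤ (1 + C) * (a ^ 2 * s) := by
      rcases le_total 0 (deriv f x - 1) with h5 | h5
      · refine le_trans ?_ g1
        exact mul_le_mul_of_nonneg_left (by linarith [hy.2]) h5
      · refine le_trans (mul_nonpos_of_nonpos_of_nonneg h5 (by linarith [hy.1])) (by positivity)
    nlinarith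
  by_contra hcon
  push Not at hcon
  rw [← haa] at hcon
  have hlt : (n : ℝ) * (2 + 2 * C) * a < 1 := by
    by_contra h5
    push Not at h5
    have h6 : 1 ≤ ((n : ℝ) * (2 + 2 * C) * a) ^ 2 := one_le_pow₀ h5
    have h7 : ((n : ℝ) * (2 + 2 * C)) ^ 2 * (a ^ 2 * s) =
        ((n : ℝ) * (2 + 2 * C) * a) ^ 2 * s := by ring
    rw [h7] at hcon
    nlinarith
  have hbd : (n : ℝ) * ((2 + 2 * C) * (a ^ 2 * s)) < t := by
    have e : (n : ℝ) * ((2 + 2 * C) * (a ^ 2 * s)) = ((n : ℝ) * (2 + 2 * C) * a) * t := by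
      rw [ht]; ring
    rw [e]
    nlinarith
  have hit : ∀ i : ℕ, i ≤ n → x ≤ f^[i] x ∧
      f^[i] x ≤ x + (i : ℝ) * ((2 + 2 * C) * (a ^ 2 * s)) := by
    intro i
    induction i with
    | zero => intro _; simp
    | succ i ih =>
      intro hi
      obtain ⟨i1, i2⟩ := ih (by omega)
      rw [iterate_succ_apply']
      have i3 : (i : ℝ) * ((2 + 2 * C) * (a ^ 2 * s)) ≤
          (n : ℝ) * ((2 + 2 * C) * (a ^ 2 * s)) := by
        apply mul_le_mul_of_nonneg_right _ (by positivity)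
        exact_mod_cast (by omega : i ≤ n)
      have i4 := hD (f^[i] x) ⟨i1, by linarith⟩
      have i5 := hpos (f^[i] x)
      push_cast
      exact ⟨by linarith, by linarith⟩
  have := (hit n le_rfl).2
  linarith

/-! ### oscillation of `log D A(± w_{k+1})` -/

theorem gap_osc {S : Sys} (W : RSeq S) {M : ℕ → ℝ} (hM : S.IsL M) (k : ℕ) {s : ℤ}
    (hs : s = 1 ∨ s = -1) (y : ℝ) {z z' : ℝ} (hz : z ∈ Icc y (S.A (W.w k) y))
    (hz' : z' ∈ Icc y (S.A (W.w k) y)) :
    deriv (S.A (s • W.w (k + 1))) z ≤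
      Real.exp (2 * M 1) * deriv (S.A (s • W.w (k + 1))) z' := by
  obtain ⟨q, hq, hqe, hsum⟩ := exists_path W k s hs
  have h1 := Sys.dist1 hM hq z z'
  rw [hqe] at h1
  have h2 := hsum 2 (W.w k) (by push_cast; linarith) y
  have h3 : ∑ a ∈ Finset.range (len (W.w (k + 1))), |S.A (q a) z - S.A (q a) z'| ≤ 2 := by
    refine le_trans (Finset.sum_le_sum fun a _ => ?_) h2
    rw [Sys.A_apply_add]
    have m1 := (D.strictMono (S.A (q a))).monotone hz.1
    have m2 := (D.strictMono (S.A (q a))).monotone hz.2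
    have m3 := (D.strictMono (S.A (q a))).monotone hz'.1
    have m4 := (D.strictMono (S.A (q a))).monotone hz'.2
    rw [abs_le]
    constructor <;> linarith
  have h4 : Real.log (deriv (S.A (s • W.w (k + 1))) z) ≤
      2 * M 1 + Real.log (deriv (S.A (s • W.w (k + 1))) z') := by
    have h5 := (abs_le.1 h1).2
    have h6 := mul_le_mul_of_nonneg_left h3 (hM.1 1)
    linarith
  have h7 := Real.exp_le_exp.2 h4
  rwa [Real.exp_add, Real.exp_log (D.pos _ _), Real.exp_log (D.pos _ _)] at h7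

theorem gap_w_succ_le {S : Sys} (W : RSeq S) (k : ℕ) :
    S.tau (W.w (k + 1) + W.w (k + 1)) ≤ S.tau (W.w k) := by
  rw [S.tau_add]; linarith [W.half k]

/-- induction step of 1.6, upper bound for `w` -/
theorem gap_step_pos {S : Sys} (W : RSeq S) {M : ℕ → ℝ} (hM : S.IsL M) (k : ℕ)
    (ih : ∀ x, deriv (S.A (W.w k)) x ≤ 2 * Real.exp (4 * M 1)) (x : ℝ) :
    deriv (S.A (W.w (k + 1))) x ≤ 2 * Real.exp (4 * M 1) := by
  by_contra hc
  push Not at hc
  set E := Real.exp (2 * M 1) with hE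
  have hE1 : 1 ≤ E := Real.one_le_exp (by linarith [hM.1 1])
  have hEE : Real.exp (4 * M 1) = E ^ 2 := by
    rw [hE, ← Real.exp_nat_mul]; congr 1; push_cast; ring
  rw [hEE] at hc
  set u := W.w k with hu
  set w := W.w (k + 1) with hw
  set y := S.A (-u) x with hy
  have hux : S.A u y = x := by
    rw [hy, ← Sys.A_apply_add, add_neg_cancel, S.A_zero]; rfl
  have hyx : y < x := by
    have := S.self_lt u (W.pos k) y
    rwa [hux] at this
  have osc : ∀ y' : ℝ, ∀ z ∈ Icc y' (S.A u y'), ∀ z' ∈ Icc y' (S.A u y'),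
      deriv (S.A w) z ≤ E * deriv (S.A w) z' := by
    intro y' z hz z' hz'
    have := gap_osc W hM k (Or.inl rfl) y' hz hz'
    rwa [one_smul] at this
  have L1 : ∀ z ∈ Icc y x, 2 * E ≤ deriv (S.A w) z := by
    intro z hz
    have h1 := osc y x (by rw [hux]; exact right_mem_Icc.2 hyx.le) z (by rw [hux]; exact hz)
    by_contra h2
    push Not at h2
    nlinarith
  have L2 : ∀ z ∈ Icc x (S.A u x), 2 * E ≤ deriv (S.A w) z := by
    intro z hz
    have h1 := osc x x (left_mem_Icc.2 (S.self_lt u (W.pos k) x).le) z hz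
    by_contra h2
    push Not at h2
    nlinarith
  have k1 := gap_mv_ge (S.A w) hyx.le L1
  have k2 := S.self_lt w (W.pos (k + 1)) y
  have k3 := S.self_lt w (W.pos (k + 1)) x
  have k4 : S.A w (S.A w x) ≤ S.A u x := by
    rw [← Sys.A_apply_add]
    exact S.le _ _ (gap_w_succ_le W k) x
  have k5 : S.A w x ≤ S.A u x := by
    have := S.self_lt w (W.pos (k + 1)) (S.A w x)
    linarith
  have k6 := gap_mv_ge (S.A w) k3.le (fun z hz => L2 z ⟨hz.1, hz.2.trans k5⟩)
  have k7 := gap_mv_le (S.A u) hyx.le (fun z _ => ih z)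
  rw [hux, hEE] at k7
  have k8 : (2 * E - 1) * (x - y) ≤ S.A w x - x := by linarith
  have k9 : (2 * E + 1) * (S.A w x - x) ≤ S.A u x - x := by linarith
  have k10 : (2 * E + 1) * ((2 * E - 1) * (x - y)) ≤ 2 * E ^ 2 * (x - y) :=
    (mul_le_mul_of_nonneg_left k8 (by linarith)).trans (k9.trans k7)
  have hxy : 0 < x - y := by linarith
  nlinarith [mul_pos hxy (by positivity : 0 < E ^ 2), mul_nonneg hxy.le (by nlinarith : 0 ≤ E ^ 2 - 1)]

/-- induction step of 1.6, upper bound for `-w` -/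
theorem gap_step_neg {S : Sys} (W : RSeq S) {M : ℕ → ℝ} (hM : S.IsL M) (k : ℕ)
    (ih : ∀ x, deriv (S.A (-W.w k)) x ≤ 2 * Real.exp (4 * M 1)) (x : ℝ) :
    deriv (S.A (-W.w (k + 1))) x ≤ 2 * Real.exp (4 * M 1) := by
  by_contra hc
  push Not at hc
  set E := Real.exp (2 * M 1) with hE
  have hE1 : 1 ≤ E := Real.one_le_exp (by linarith [hM.1 1])
  have hEE : Real.exp (4 * M 1) = E ^ 2 := by
    rw [hE, ← Real.exp_nat_mul]; congr 1; push_cast; ring
  rw [hEE] at hc
  set u := W.w k with hu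
  set w := W.w (k + 1) with hw
  set y := S.A u x with hy
  have hux : S.A (-u) y = x := by
    rw [hy, ← Sys.A_apply_add, neg_add_cancel, S.A_zero]; rfl
  have hxy' : x < y := S.self_lt u (W.pos k) x
  have hu2 : S.A u (S.A (-u) x) = x := by
    rw [← Sys.A_apply_add, add_neg_cancel, S.A_zero]; rfl
  have hlt : ∀ g, 0 < S.tau g → ∀ z, S.A (-g) z < z := by
    intro g hg z
    have h1 := S.self_lt g hg (S.A (-g) z)
    rwa [← Sys.A_apply_add, add_neg_cancel, S.A_zero] at h1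
  have osc : ∀ y' : ℝ, ∀ z ∈ Icc y' (S.A u y'), ∀ z' ∈ Icc y' (S.A u y'),
      deriv (S.A (-w)) z ≤ E * deriv (S.A (-w)) z' := by
    intro y' z hz z' hz'
    have := gap_osc W hM k (Or.inr rfl) y' hz hz'
    rwa [neg_smul, one_smul] at this
  have L1 : ∀ z ∈ Icc x y, 2 * E ≤ deriv (S.A (-w)) z := by
    intro z hz
    have h1 := osc x x (left_mem_Icc.2 hxy'.le) z hz
    by_contra h2
    push Not at h2
    nlinarith
  have L2 : ∀ z ∈ Icc (S.A (-u) x) x, 2 * E ≤ deriv (S.A (-w)) z := by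
    intro z hz
    have h1 := osc (S.A (-u) x) x (by rw [hu2]; exact right_mem_Icc.2 (hlt u (W.pos k) x).le) z
      (by rw [hu2]; exact hz)
    by_contra h2
    push Not at h2
    nlinarith
  have k1 := gap_mv_ge (S.A (-w)) hxy'.le L1
  have k2 := hlt w (W.pos (k + 1)) y
  have k3 := hlt w (W.pos (k + 1)) x
  have k4 : S.A (-u) x ≤ S.A (-w) (S.A (-w) x) := by
    rw [← Sys.A_apply_add]
    apply S.le
    have := gap_w_succ_le W k
    rw [S.tau_add] at this
    rw [S.tau_neg, S.tau_add, S.tau_neg]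
    linarith
  have k5 : S.A (-u) x ≤ S.A (-w) x := by
    have := hlt w (W.pos (k + 1)) (S.A (-w) x)
    linarith
  have k6 := gap_mv_ge (S.A (-w)) k3.le (fun z hz => L2 z ⟨k5.trans hz.1, hz.2⟩)
  have k7 := gap_mv_le (S.A (-u)) hxy'.le (fun z _ => ih z)
  rw [hux, hEE] at k7
  have k8 : (2 * E - 1) * (y - x) ≤ x - S.A (-w) x := by linarith
  have k9 : (2 * E + 1) * (x - S.A (-w) x) ≤ x - S.A (-u) x := by linarith
  have k10 : (2 * E + 1) * ((2 * E - 1) * (y - x)) ≤ 2 * E ^ 2 * (y - x) :=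
    (mul_le_mul_of_nonneg_left k8 (by linarith)).trans (k9.trans k7)
  have hxy : 0 < y - x := by linarith
  nlinarith [mul_pos hxy (by positivity : 0 < E ^ 2), mul_nonneg hxy.le (by nlinarith : 0 ≤ E ^ 2 - 1)]

theorem gap_T_deriv (x : ℝ) : deriv (T : D) x = 1 := by
  have : ((T : D) : ℝ → ℝ) = fun x => x + 1 := rfl
  rw [this]
  simp

/-- paper 1.6 -/
theorem unif {S : Sys} (W : RSeq S) : ∃ Λ : ℝ, 1 ≤ Λ ∧ ∀ k x,
    deriv (S.A (W.w k)) x ≤ Λ ∧ 1 / Λ ≤ deriv (S.A (W.w k)) x := by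
  obtain ⟨M, hM⟩ := S.exists_isL
  have hE : 1 ≤ Real.exp (4 * M 1) := Real.one_le_exp (by linarith [hM.1 1])
  have key : ∀ k, (∀ x, deriv (S.A (W.w k)) x ≤ 2 * Real.exp (4 * M 1)) ∧
      ∀ x, deriv (S.A (-W.w k)) x ≤ 2 * Real.exp (4 * M 1) := by
    intro k
    induction k with
    | zero =>
      rw [W.w_zero, S.A_neg, S.A_T]
      constructor
      · intro x
        rw [gap_T_deriv]
        linarith
      · intro x
        have h1 := gap_deriv_inv T (T⁻¹ x)
        rw [gap_T_deriv, mul_one, D.apply_inv_self] at h1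
        rw [h1]
        linarith
    | succ k ih =>
      exact ⟨gap_step_pos W hM k ih.1, gap_step_neg W hM k ih.2⟩
  refine ⟨2 * Real.exp (4 * M 1), by linarith, fun k x => ⟨(key k).1 x, ?_⟩⟩
  have h1 := gap_deriv_inv (S.A (W.w k)) x
  rw [← S.A_neg] at h1
  have h2 := (key k).2 (S.A (W.w k) x)
  have h3 := D.pos (S.A (W.w k)) x
  rw [div_le_iff₀ (by positivity)]
  nlinarith

/-! ### the gaps -/

theorem gap_pow_apply (f : D) (n : ℕ) (x : ℝ) : (f ^ n : D) x = (f : ℝ → ℝ)^[n] x := by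
  induction n generalizing x with
  | zero => rfl
  | succ n ih => rw [pow_succ, D.mul_apply, ih, iterate_succ_apply]

theorem gap_diff2 (f : D) : Differentiable ℝ (deriv f) :=
  ((D.smooth f).of_le (WithTop.coe_le_coe.2 le_top : ((2 : ℕ∞) : WithTop ℕ∞) ≤ _)).differentiable_deriv_two

theorem gap_deriv_log (f : D) (y : ℝ) :
    deriv (deriv f) y = deriv f y * iteratedDeriv 1 (fun z => Real.log (deriv f z)) y := by
  have h1 : DifferentiableAt ℝ (deriv f) y :=
    (gap_diff2 f).differentiableAt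
  rw [iteratedDeriv_one, deriv.log h1 (D.pos f y).ne']
  have := (D.pos f y).ne'
  field_simp

/-- the second derivative of `A(w_{k+1})` is at most a constant over the gap of `A(w_k)` -/
theorem gap_second {S : Sys} (W : RSeq S) : ∃ C : ℝ, 0 ≤ C ∧ ∀ k y,
    (S.A (W.w k) y - y) * |deriv (deriv (S.A (W.w (k + 1)))) y| ≤ C := by
  obtain ⟨M, hM⟩ := S.exists_isL
  obtain ⟨C, e, hC, hd⟩ := Sys.distr hM 1 le_rfl
  obtain ⟨Λ, hΛ, hΛ'⟩ := unif W
  refine ⟨Λ * (C * 3 * (Real.exp (M 1 * 3) * (1 + 3)) ^ e), by positivity, fun k y => ?_⟩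
  obtain ⟨q, hq, hqe, hsum⟩ := exists_path W k 1 (Or.inl rfl)
  rw [one_smul] at hqe
  have h1 := hsum 2 (W.w k) (by push_cast; linarith) y
  have hlt : y < S.A (W.w k) y := S.self_lt _ (W.pos k) y
  have h2 : ∑ a ∈ Finset.range (len (W.w (k + 1)) + 1),
      (S.A (q a) (S.A (W.w k) y) - S.A (q a) y) ≤ 3 := by
    rw [Finset.sum_range_succ, hqe]
    have h3 : S.A (W.w (k + 1)) (S.A (W.w k) y) - S.A (W.w (k + 1)) y ≤ 1 := by
      rw [← Sys.A_apply_add, add_comm, Sys.A_apply_add]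
      have h4 := S.le (W.w k) (0, 0, 1) (by rw [S.tau_T]; exact W.tau_le_one k)
        (S.A (W.w (k + 1)) y)
      rw [S.A_T, T_apply] at h4
      linarith
    have h5 : ∑ a ∈ Finset.range (len (W.w (k + 1))),
        (S.A (q a) (S.A (W.w k) y) - S.A (q a) y) ≤ 2 := by
      simp only [Sys.A_apply_add] at h1
      exact_mod_cast h1
    linarith
  have h3 := hd q (len (W.w (k + 1))) hq y (S.A (W.w k) y) 3 hlt h2 y (left_mem_Icc.2 hlt.le)
    (len (W.w (k + 1))) le_rfl
  rw [hqe, pow_one] at h3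
  rw [gap_deriv_log, abs_mul, abs_of_pos (D.pos _ _)]
  have h4 := (hΛ' (k + 1) y).1
  have h5 := D.pos (S.A (W.w (k + 1))) y
  calc (S.A (W.w k) y - y) * (deriv (S.A (W.w (k + 1))) y *
        |iteratedDeriv 1 (fun z => Real.log (deriv (S.A (W.w (k + 1))) z)) y|)
      = deriv (S.A (W.w (k + 1))) y * ((S.A (W.w k) y - y) *
        |iteratedDeriv 1 (fun z => Real.log (deriv (S.A (W.w (k + 1))) z)) y|) := by ring
    _ ≤ Λ * (C * 3 * (Real.exp (M 1 * 3) * (1 + 3)) ^ e) :=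
        mul_le_mul h4 h3 (mul_nonneg (by linarith) (abs_nonneg _)) (by linarith)

/-- the gaps of `A(w_k)` are comparable on neighbouring intervals -/
theorem gap_compare {S : Sys} (W : RSeq S) {Λ : ℝ} (hΛ : 1 ≤ Λ)
    (hΛ' : ∀ k x, deriv (S.A (W.w k)) x ≤ Λ ∧ 1 / Λ ≤ deriv (S.A (W.w k)) x) (k : ℕ) (x : ℝ) :
    ∀ y ∈ Icc (x - (S.A (W.w k) x - x) / Λ) (x + (S.A (W.w k) x - x)),
      (S.A (W.w k) x - x) / Λ ≤ S.A (W.w k) y - y := by
  intro y hy
  have hΛ0 : 0 < Λ := by linarith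
  set u := W.w k with hu
  have hlt : x < S.A u x := S.self_lt _ (W.pos k) x
  set s := S.A u x - x with hs
  have hs0 : 0 < s := by linarith
  have hmono : Monotone (S.A u) := (D.strictMono (S.A u)).monotone
  have e1 : s / Λ = 1 / Λ * s := by ring
  have hle : 1 / Λ ≤ 1 := by rw [div_le_one hΛ0]; exact hΛ
  rcases le_total x y with hxy | hxy
  · -- `y` in `[x, A(u) x]`
    have h1 := gap_mv_ge (S.A u) hxy (fun z _ => (hΛ' k z).2)
    have h2 : y ≤ S.A u x := by have := hy.2; linarith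
    rw [e1]
    nlinarith [mul_nonneg (by linarith : 0 ≤ 1 - 1 / Λ) (by linarith : 0 ≤ S.A u x - y)]
  · -- `y` left of `x`
    have h1 := gap_mv_le (S.A u) hxy (fun z _ => (hΛ' k z).1)
    have h2 : x - y ≤ s / Λ := by have := hy.1; linarith
    have h3 : Λ * (x - y) ≤ s := by
      rw [le_div_iff₀ hΛ0] at h2; linarith
    -- `A(u) y ≥ x`
    have h4 : x ≤ S.A u y := by linarith
    have h5 : S.A u x - S.A u y ≤ Λ * (x - y) := h1
    have h6 : 1 / Λ * (S.A u x - S.A u y) ≤ x - y := by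
      calc 1 / Λ * (S.A u x - S.A u y) ≤ 1 / Λ * (Λ * (x - y)) :=
            mul_le_mul_of_nonneg_left h5 (by positivity)
        _ = x - y := by field_simp
    rw [e1]
    nlinarith [mul_nonneg (by linarith : 0 ≤ 1 - 1 / Λ) (by linarith : 0 ≤ S.A u y - x)]

/-- the gap of `A(w_{k+1})` is not much smaller than that of `A(w_k)` -/
theorem gap_step {S : Sys} (W : RSeq S) : ∃ B : ℝ, 1 ≤ B ∧ ∀ k x,
    (S.A (W.w k) x - x) * S.tau (W.w (k + 1)) ^ 2 ≤
      B * S.tau (W.w k) ^ 2 * (S.A (W.w (k + 1)) x - x) := by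
  obtain ⟨C, hC, hC'⟩ := gap_second W
  obtain ⟨Λ, hΛ, hΛ'⟩ := unif W
  have hΛ0 : 0 < Λ := by linarith
  refine ⟨Λ ^ 2 * (4 + 4 * (Λ * C)) ^ 2, ?_, fun k x => ?_⟩
  · have h1 : 1 ≤ Λ ^ 2 := one_le_pow₀ hΛ
    have h2 : 1 ≤ (4 + 4 * (Λ * C)) ^ 2 := one_le_pow₀ (by nlinarith [mul_nonneg hΛ0.le hC])
    exact one_le_mul_of_one_le_of_one_le h1 h2
  set u := W.w k with hu
  set w := W.w (k + 1) with hw
  have hlt : x < S.A u x := S.self_lt _ (W.pos k) x
  have hltw : x < S.A w x := S.self_lt _ (W.pos (k + 1)) x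
  set s := S.A u x - x with hs
  have hs0 : 0 < s := by linarith
  have hκ : ∀ z ∈ Icc (x - s / Λ) (x + s), |deriv (deriv (S.A w)) z| ≤ Λ * C / s := by
    intro z hz
    have h1 := gap_compare W hΛ hΛ' k x z hz
    have h2 := hC' k z
    have h3 : s / Λ * |deriv (deriv (S.A w)) z| ≤ C :=
      (mul_le_mul_of_nonneg_right h1 (abs_nonneg _)).trans h2
    rw [le_div_iff₀ hs0]
    have h4 := mul_le_mul_of_nonneg_left h3 hΛ0.le
    have e : Λ * (s / Λ * |deriv (deriv (S.A w)) z|) = |deriv (deriv (S.A w)) z| * s := by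
      field_simp
    rwa [e] at h4
  have hτ := W.pos k
  have hτ' := W.pos (k + 1)
  set n := ⌈S.tau u / S.tau w⌉₊ with hn
  have hρ : 1 ≤ S.tau u / S.tau w := by
    rw [le_div_iff₀ hτ', one_mul]; linarith [W.half k]
  have hn1 : S.tau u / S.tau w ≤ n := Nat.le_ceil _
  have hn2 : (n : ℝ) ≤ 2 * (S.tau u / S.tau w) := by
    have := Nat.ceil_lt_add_one (by positivity : 0 ≤ S.tau u / S.tau w)
    linarith
  have hit : x + s ≤ (S.A w : ℝ → ℝ)^[n] x := by
    rw [← gap_pow_apply, ← S.A_nsmul]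
    have h1 := S.le u (n • w) (by
      rw [S.tau_nsmul]
      rwa [div_le_iff₀ hτ'] at hn1) x
    linarith
  rcases gap_core (D.differentiable (S.A w)) (gap_diff2 (S.A w))
    (S.self_lt w hτ') hs0 hΛ (mul_nonneg hΛ0.le hC) hκ hit with h | h
  · have h1 : s ≤ Λ ^ 2 * (S.A w x - x) := by
      have := mul_le_mul_of_nonneg_left h (by positivity : 0 ≤ Λ ^ 2)
      have e : Λ ^ 2 * ((1 / Λ) ^ 2 * s) = s := by field_simp
      rwa [e] at this
    have h2 : S.tau w ^ 2 ≤ S.tau u ^ 2 :=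
      pow_le_pow_left₀ hτ'.le (by linarith [W.half k]) 2
    have h3 : 1 ≤ (4 + 4 * (Λ * C)) ^ 2 := one_le_pow₀ (by nlinarith [mul_nonneg hΛ0.le hC])
    calc s * S.tau w ^ 2 ≤ Λ ^ 2 * (S.A w x - x) * S.tau u ^ 2 :=
          mul_le_mul h1 h2 (by positivity) (by nlinarith [sq_nonneg Λ])
      _ = Λ ^ 2 * 1 * S.tau u ^ 2 * (S.A w x - x) := by ring
      _ ≤ Λ ^ 2 * (4 + 4 * (Λ * C)) ^ 2 * S.tau u ^ 2 * (S.A w x - x) := by
          have : 0 ≤ S.A w x - x := by linarith
          gcongr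
  · have h1 : ((n : ℝ) * (2 + 2 * (Λ * C))) ^ 2 ≤
        (2 * (S.tau u / S.tau w) * (2 + 2 * (Λ * C))) ^ 2 := by
      have : 0 ≤ Λ * C := mul_nonneg hΛ0.le hC
      gcongr
    have h2 : s ≤ (2 * (S.tau u / S.tau w) * (2 + 2 * (Λ * C))) ^ 2 * (S.A w x - x) :=
      h.trans (mul_le_mul_of_nonneg_right h1 (by linarith))
    have h3 := mul_le_mul_of_nonneg_right h2 (by positivity : 0 ≤ S.tau w ^ 2)
    have e : (2 * (S.tau u / S.tau w) * (2 + 2 * (Λ * C))) ^ 2 * (S.A w x - x) * S.tau w ^ 2 =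
        1 * (4 + 4 * (Λ * C)) ^ 2 * S.tau u ^ 2 * (S.A w x - x) := by
      have hw0 : S.tau w ≠ 0 := hτ'.ne'
      field_simp
      ring
    rw [e] at h3
    refine h3.trans ?_
    have h4 : 1 ≤ Λ ^ 2 := one_le_pow₀ hΛ
    have : 0 ≤ S.A w x - x := by linarith
    gcongr

/-- paper 1.7 -/
theorem gap {S : Sys} (W : RSeq S) : ∃ C₁ : ℕ, 1 ≤ C₁ ∧ ∀ k x,
    (S.tau (W.w k)) ^ C₁ ≤ S.A (W.w k) x - x := by
  obtain ⟨B, hB, hstep⟩ := gap_step W
  obtain ⟨N, hN⟩ := pow_unbounded_of_one_lt B (by norm_num : (1 : ℝ) < 2)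
  have hB0 : 0 < B := by linarith
  have key : ∀ k x, S.tau (W.w k) ^ 2 ≤ B ^ k * (S.A (W.w k) x - x) := by
    intro k x
    induction k with
    | zero =>
      rw [W.tau_zero, W.w_zero, S.A_T, T_apply]
      norm_num
    | succ k ih =>
      have h1 := hstep k x
      have h2 := W.pos k
      have h3 := W.pos (k + 1)
      have h4 : S.tau (W.w k) ^ 2 * S.tau (W.w (k + 1)) ^ 2 ≤
          S.tau (W.w k) ^ 2 * (B ^ (k + 1) * (S.A (W.w (k + 1)) x - x)) := by
        calc S.tau (W.w k) ^ 2 * S.tau (W.w (k + 1)) ^ 2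
            ≤ B ^ k * (S.A (W.w k) x - x) * S.tau (W.w (k + 1)) ^ 2 :=
              mul_le_mul_of_nonneg_right ih (by positivity)
          _ = B ^ k * ((S.A (W.w k) x - x) * S.tau (W.w (k + 1)) ^ 2) := by ring
          _ ≤ B ^ k * (B * S.tau (W.w k) ^ 2 * (S.A (W.w (k + 1)) x - x)) :=
              mul_le_mul_of_nonneg_left h1 (by positivity)
          _ = _ := by ring
      exact le_of_mul_le_mul_left h4 (by positivity)
  refine ⟨N + 2, by omega, fun k x => ?_⟩
  have h1 := W.pos k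
  have h2 := W.tau_le k
  have h3 : S.tau (W.w k) ^ N * B ^ k ≤ 1 := by
    calc S.tau (W.w k) ^ N * B ^ k ≤ ((1 / 2) ^ k) ^ N * (2 ^ N) ^ k := by
          have := hN.le
          gcongr
      _ = 1 := by
          rw [← pow_mul, ← pow_mul, mul_comm N k, ← mul_pow]
          norm_num
  have h4 : 0 ≤ S.A (W.w k) x - x := by linarith [S.self_lt _ (W.pos k) x]
  calc S.tau (W.w k) ^ (N + 2) = S.tau (W.w k) ^ N * S.tau (W.w k) ^ 2 := pow_add _ _ _
    _ ≤ S.tau (W.w k) ^ N * (B ^ k * (S.A (W.w k) x - x)) :=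
        mul_le_mul_of_nonneg_left (key k x) (by positivity)
    _ = (S.tau (W.w k) ^ N * B ^ k) * (S.A (W.w k) x - x) := by ring
    _ ≤ 1 * (S.A (W.w k) x - x) := mul_le_mul_of_nonneg_right h3 h4
    _ = _ := one_mul _

end Pool.Agent.Helper638.Ros
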