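import Pool.Agent.Helper638_Ros.Sys2Defs

/-!
# Commuting germs with a nonflat member (paper 2.5 (b))
-/

set_option autoImplicit false

namespace Pool.Agent.Helper638.Ros

open Filter Function Set Topology

theorem germ_mvt {f : ℝ → ℝ} {x y : ℝ} (h : ∀ t ∈ uIcc x y, DifferentiableAt ℝ f t) :
    ∃ ξ ∈ uIcc x y, f y - f x = deriv f ξ * (y - x) := by
  rcases lt_trichotomy x y with hxy | rfl | hxy
  · rw [uIcc_of_le hxy.le] at *
    obtain ⟨c, hc, e⟩ := exists_deriv_eq_slope f hxy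
      (fun t ht => (h t ht).continuousAt.continuousWithinAt)
      (fun t ht => (h t (Ioo_subset_Icc_self ht)).differentiableWithinAt)
    refine ⟨c, Ioo_subset_Icc_self hc, ?_⟩
    rw [e]
    field_simp [(sub_pos.2 hxy).ne']
  · exact ⟨x, by simp, by simp⟩
  · rw [uIcc_of_ge hxy.le] at *
    obtain ⟨c, hc, e⟩ := exists_deriv_eq_slope f hxy
      (fun t ht => (h t ht).continuousAt.continuousWithinAt)
      (fun t ht => (h t (Ioo_subset_Icc_self ht)).differentiableWithinAt)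
    refine ⟨c, Ioo_subset_Icc_self hc, ?_⟩
    have h1 : x - y ≠ 0 := (sub_pos.2 hxy).ne'
    rw [e]
    field_simp
    ring

theorem germ_lip {a : ℝ → ℝ} {p : ℝ} (ha : ContDiffAt ℝ 2 a p) (ha' : 0 < deriv a p) :
    ∃ (L δ : ℝ), 0 ≤ L ∧ 0 < δ ∧ (∀ x ∈ Ioo (p - δ) (p + δ), DifferentiableAt ℝ a x) ∧
      (∀ x ∈ Ioo (p - δ) (p + δ), 0 < deriv a x) ∧
      ∀ x ∈ Ioo (p - δ) (p + δ), ∀ y ∈ Ioo (p - δ) (p + δ),
        |Real.log (deriv a x) - Real.log (deriv a y)| ≤ L * |x - y| := by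
  have h1 : ContDiffAt ℝ 1 (deriv a) p := by
    have : ContDiffAt ℝ 1 (fun x => fderiv ℝ a x 1) p :=
      (ha.fderiv_right (m := 1) (by norm_num)).clm_apply contDiffAt_const
    exact this
  have h2 : ContDiffAt ℝ 1 (fun x => Real.log (deriv a x)) p := h1.log ha'.ne'
  obtain ⟨L, t, ht, hL⟩ := h2.exists_lipschitzOnWith
  have h3 : ∀ᶠ x in 𝓝 p, DifferentiableAt ℝ a x := by
    filter_upwards [ha.eventually (by simp)] with x hx
    exact hx.differentiableAt (by simp)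
  have h4 : ∀ᶠ x in 𝓝 p, 0 < deriv a x := h1.continuousAt.eventually (lt_mem_nhds ha')
  obtain ⟨δ, hδ, hb⟩ := Metric.eventually_nhds_iff.1 ((h3.and h4).and ht)
  refine ⟨L, δ, L.2, hδ, fun x hx => ?_, fun x hx => ?_, fun x hx y hy => ?_⟩
  · exact (hb (by rw [Real.dist_eq, abs_lt]; constructor <;> linarith [hx.1, hx.2])).1.1
  · exact (hb (by rw [Real.dist_eq, abs_lt]; constructor <;> linarith [hx.1, hx.2])).1.2
  · have hx' : x ∈ t := (hb (by rw [Real.dist_eq, abs_lt]; constructor <;> linarith [hx.1, hx.2])).2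
    have hy' : y ∈ t := (hb (by rw [Real.dist_eq, abs_lt]; constructor <;> linarith [hy.1, hy.2])).2
    have := hL.dist_le_mul x hx' y hy'
    rwa [Real.dist_eq, Real.dist_eq] at this

/-- contraction case on the right -/
theorem germ_N1 {a u : ℝ → ℝ} {p : ℝ} (ha : ContDiffAt ℝ 2 a p) (ha' : 0 < deriv a p)
    (hap : a p = p) (hc : ∀ᶠ x in 𝓝 p, a (u x) = u (a x)) (hlt : ∀ᶠ x in 𝓝[>] p, a x < x)
    (hr : Tendsto (fun x => (u x - x) / (a x - x)) (𝓝[>] p) (𝓝 0)) :
    ∀ᶠ x in 𝓝[>] p, u x = x := by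
  obtain ⟨L, δ₁, hL, hδ₁, hd₁, hp₁, hl₁⟩ := germ_lip ha ha'
  have hr1 : ∀ᶠ x in 𝓝[>] p, |(u x - x) / (a x - x)| < 1 := by
    have := hr.abs
    rw [abs_zero] at this
    exact this.eventually (gt_mem_nhds one_pos)
  rw [eventually_nhdsWithin_iff] at hlt hr1
  obtain ⟨δ₂, hδ₂, hb⟩ := Metric.eventually_nhds_iff.1 ((hc.and hlt).and hr1)
  set δ := min δ₁ δ₂ with hδdef
  have hδ : 0 < δ := lt_min hδ₁ hδ₂
  have hd : ∀ x ∈ Ioo (p - δ) (p + δ), DifferentiableAt ℝ a x := fun x hx => hd₁ x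
    ⟨by linarith [hx.1, min_le_left δ₁ δ₂], by linarith [hx.2, min_le_left δ₁ δ₂]⟩
  have hpos : ∀ x ∈ Ioo (p - δ) (p + δ), 0 < deriv a x := fun x hx => hp₁ x
    ⟨by linarith [hx.1, min_le_left δ₁ δ₂], by linarith [hx.2, min_le_left δ₁ δ₂]⟩
  have hl : ∀ x ∈ Ioo (p - δ) (p + δ), ∀ y ∈ Ioo (p - δ) (p + δ),
        |Real.log (deriv a x) - Real.log (deriv a y)| ≤ L * |x - y| := fun x hx y hy => hl₁ x
    ⟨by linarith [hx.1, min_le_left δ₁ δ₂], by linarith [hx.2, min_le_left δ₁ δ₂]⟩ y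
    ⟨by linarith [hy.1, min_le_left δ₁ δ₂], by linarith [hy.2, min_le_left δ₁ δ₂]⟩
  have hb' : ∀ x ∈ Ioo p (p + δ), a (u x) = u (a x) ∧ a x < x ∧ |(u x - x) / (a x - x)| < 1 := by
    intro x hx
    have h1 : dist x p < δ₂ := by
      rw [Real.dist_eq, abs_lt]
      constructor <;> linarith [hx.1, hx.2, min_le_right δ₁ δ₂]
    exact ⟨(hb h1).1.1, (hb h1).1.2 hx.1, (hb h1).2 hx.1⟩
  have hap' : ∀ x ∈ Ioo p (p + δ), p < a x := by
    intro x hx
    obtain ⟨ξ, hξ, e⟩ := germ_mvt (f := a) (x := p) (y := x) (fun t ht => by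
      rw [uIcc_of_le hx.1.le] at ht
      exact hd t ⟨by linarith [ht.1], by linarith [ht.2, hx.2]⟩)
    rw [uIcc_of_le hx.1.le] at hξ
    have h1 := hpos ξ ⟨by linarith [hξ.1], by linarith [hξ.2, hx.2]⟩
    have h2 := mul_pos h1 (sub_pos.2 hx.1)
    linarith
  -- key inequality
  have key : ∀ x ∈ Ioo p (p + δ / 2), |u x - x| / (x - a x) * Real.exp (-(2 * L * (x - a x))) ≤
      |u (a x) - a x| / (a x - a (a x)) := by
    intro x hx
    have hx2 : x ∈ Ioo p (p + δ) := ⟨hx.1, by linarith [hx.2]⟩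
    obtain ⟨h1, h2, h3⟩ := hb' x hx2
    have h4 := hap' x hx2
    have h5 : 0 < x - a x := sub_pos.2 h2
    have h6 : |u x - x| < x - a x := by
      rw [abs_div, abs_sub_comm (a x) x, abs_of_pos h5, div_lt_one h5] at h3
      exact h3
    rw [abs_lt] at h6
    have hI : uIcc x (u x) ⊆ Icc (a x) (2 * x - a x) := by
      intro t ht
      rw [mem_uIcc] at ht
      constructor <;> rcases ht with ht | ht <;> linarith [ht.1, ht.2]
    have hI2 : Icc (a x) (2 * x - a x) ⊆ Ioo (p - δ) (p + δ) := by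
      intro t ht
      constructor <;> linarith [ht.1, ht.2, hx.1, hx.2]
    obtain ⟨ξ, hξ, e1⟩ := germ_mvt (f := a) (x := x) (y := u x) (fun t ht => hd t (hI2 (hI ht)))
    have hI3 : uIcc (a x) x ⊆ Icc (a x) (2 * x - a x) := by
      rw [uIcc_of_le h2.le]
      exact Icc_subset_Icc_right (by linarith)
    obtain ⟨ξ', hξ', e2⟩ := germ_mvt (f := a) (x := a x) (y := x)
      (fun t ht => hd t (hI2 (hI3 ht)))
    have g1 := hI hξ
    have g2 := hI3 hξ'
    have p1 := hpos ξ (hI2 g1)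
    have p2 := hpos ξ' (hI2 g2)
    have l1 := hl ξ (hI2 g1) ξ' (hI2 g2)
    have l2 : |ξ - ξ'| ≤ 2 * (x - a x) := by
      rw [abs_le]
      constructor <;> linarith [g1.1, g1.2, g2.1, g2.2]
    have l3 : -(2 * L * (x - a x)) ≤ Real.log (deriv a ξ) - Real.log (deriv a ξ') := by
      have := mul_le_mul_of_nonneg_left l2 hL
      linarith [(abs_le.1 l1).1]
    have l4 : Real.exp (-(2 * L * (x - a x))) ≤ deriv a ξ / deriv a ξ' := by
      rw [← Real.exp_log (div_pos p1 p2), Real.log_div p1.ne' p2.ne']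
      exact Real.exp_le_exp.2 l3
    have e3 : |u (a x) - a x| / (a x - a (a x)) =
        |u x - x| / (x - a x) * (deriv a ξ / deriv a ξ') := by
      rw [← h1, e1, e2, abs_mul, abs_of_pos p1]
      field_simp
    rw [e3]
    exact mul_le_mul_of_nonneg_left l4 (div_nonneg (abs_nonneg _) h5.le)
  -- conclusion
  rw [eventually_nhdsWithin_iff]
  refine Metric.eventually_nhds_iff.2 ⟨δ / 2, by positivity, fun x hx hxp => ?_⟩
  have hxp : p < x := hxp
  have hx0 : x ∈ Ioo p (p + δ / 2) := by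
    rw [Real.dist_eq, abs_lt] at hx
    exact ⟨hxp, by linarith [hx.2]⟩
  have hmem : ∀ n : ℕ, a^[n] x ∈ Ioo p (p + δ / 2) := by
    intro n
    induction n with
    | zero => exact hx0
    | succ n ih =>
      rw [iterate_succ_apply']
      have h2 : a^[n] x ∈ Ioo p (p + δ) := ⟨ih.1, by linarith [ih.2]⟩
      exact ⟨hap' _ h2, lt_trans (hb' _ h2).2.1 ih.2⟩
  have hanti : Antitone (fun n : ℕ => a^[n] x) := by
    refine antitone_nat_of_succ_le fun n => ?_
    rw [iterate_succ_apply']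
    have ih := hmem n
    exact (hb' _ ⟨ih.1, by linarith [ih.2]⟩).2.1.le
  have hlim : Tendsto (fun n : ℕ => a^[n] x) atTop (𝓝 p) := by
    have h1 := tendsto_atTop_ciInf hanti ⟨p, by rintro _ ⟨n, rfl⟩; exact (hmem n).1.le⟩
    set l := ⨅ n : ℕ, a^[n] x with hldef
    have h2 : p ≤ l := le_ciInf fun n => (hmem n).1.le
    have h3 : l ≤ x := ciInf_le (f := fun n : ℕ => a^[n] x) ⟨p, by rintro _ ⟨n, rfl⟩; exact (hmem n).1.le⟩ 0
    have h4 : l ∈ Ioo (p - δ) (p + δ) := ⟨by linarith, by linarith [hx0.2]⟩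
    have h5 : IsFixedPt a l := isFixedPt_of_tendsto_iterate h1 (hd l h4).continuousAt
    rcases eq_or_lt_of_le h2 with h6 | h6
    · rw [h6]; exact h1
    · exfalso
      have := (hb' l ⟨h6, h4.2⟩).2.1
      rw [h5] at this
      exact lt_irrefl _ this
  have hlow : ∀ n : ℕ, |u x - x| / (x - a x) * Real.exp (-(2 * L * (x - a^[n] x))) ≤
      |u (a^[n] x) - a^[n] x| / (a^[n] x - a (a^[n] x)) := by
    intro n
    induction n with
    | zero => simp
    | succ n ih =>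
      rw [iterate_succ_apply']
      refine le_trans ?_ (key _ (hmem n))
      have e : Real.exp (-(2 * L * (x - a (a^[n] x)))) =
          Real.exp (-(2 * L * (x - a^[n] x))) *
            Real.exp (-(2 * L * (a^[n] x - a (a^[n] x)))) := by
        rw [← Real.exp_add]; congr 1; ring
      rw [e, ← mul_assoc]
      exact mul_le_mul_of_nonneg_right ih (Real.exp_pos _).le
  have hx2 : x ∈ Ioo p (p + δ) := ⟨hx0.1, by linarith [hx0.2]⟩
  have hxa : 0 < x - a x := sub_pos.2 (hb' x hx2).2.1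
  have hlow2 : ∀ n : ℕ, |u x - x| / (x - a x) * Real.exp (-(2 * L * (x - p))) ≤
      |(u (a^[n] x) - a^[n] x) / (a (a^[n] x) - a^[n] x)| := by
    intro n
    have h1 := hlow n
    have ih := hmem n
    have h2 : 0 < a^[n] x - a (a^[n] x) :=
      sub_pos.2 (hb' _ ⟨ih.1, by linarith [ih.2]⟩).2.1
    rw [abs_div, abs_sub_comm (a (a^[n] x)), abs_of_pos h2]
    refine le_trans (mul_le_mul_of_nonneg_left (Real.exp_le_exp.2 ?_)
      (div_nonneg (abs_nonneg _) hxa.le)) h1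
    have : 2 * L * (x - a^[n] x) ≤ 2 * L * (x - p) :=
      mul_le_mul_of_nonneg_left (by linarith [ih.1]) (by positivity)
    linarith
  have hlim2 : Tendsto (fun n : ℕ => a^[n] x) atTop (𝓝[>] p) :=
    tendsto_nhdsWithin_iff.2 ⟨hlim, Eventually.of_forall fun n => (hmem n).1⟩
  have hlim3 := (hr.comp hlim2).abs
  rw [abs_zero] at hlim3
  have h7 := ge_of_tendsto' hlim3 hlow2
  have h8 : |u x - x| / (x - a x) ≤ 0 := by
    by_contra hcon
    push Not at hcon
    have := mul_pos hcon (Real.exp_pos (-(2 * L * (x - p))))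
    linarith
  have h9 : |u x - x| ≤ 0 := by
    have := mul_le_mul_of_nonneg_right h8 hxa.le
    rwa [div_mul_cancel₀ _ hxa.ne', zero_mul] at this
  have := abs_nonpos_iff.1 h9
  linarith

theorem germ_inv {a : ℝ → ℝ} {p : ℝ} {n : WithTop ℕ∞} (hn : n ≠ 0) (ha : ContDiffAt ℝ n a p)
    (ha' : 0 < deriv a p) (hap : a p = p) :
    ∃ b : ℝ → ℝ, ContDiffAt ℝ n b p ∧ b p = p ∧ 0 < deriv b p ∧ (∀ᶠ x in 𝓝 p, b (a x) = x) ∧
      (∀ᶠ x in 𝓝 p, a (b x) = x) := by
  have h1 : HasDerivAt a (deriv a p) p := (ha.differentiableAt hn).hasDerivAt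
  have h2 := h1.hasFDerivAt_equiv ha'.ne'
  have h3 := ha.hasStrictFDerivAt' h2 hn
  refine ⟨ha.localInverse h2 hn, ?_, ?_, ?_, h3.eventually_left_inverse, ?_⟩
  · have := ha.to_localInverse h2 hn
    rwa [hap] at this
  · have := ha.localInverse_apply_image h2 hn
    rwa [hap] at this
  · have h4 : ContDiffAt ℝ n (ha.localInverse h2 hn) (a p) := ha.to_localInverse h2 hn
    have h5 : deriv (fun x => ha.localInverse h2 hn (a x)) p = 1 := by
      have : (fun x => ha.localInverse h2 hn (a x)) =ᶠ[𝓝 p] fun x => x := h3.eventually_left_inverse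
      rw [this.deriv_eq, deriv_id'']
    have h6 : deriv (fun x => ha.localInverse h2 hn (a x)) p =
        deriv (ha.localInverse h2 hn) (a p) * deriv a p :=
      ((h4.differentiableAt hn).hasDerivAt.comp p h1).deriv
    rw [h6, hap] at h5
    by_contra hcon
    push Not at hcon
    have := mul_nonpos_of_nonpos_of_nonneg hcon ha'.le
    linarith
  · have := h3.eventually_right_inverse
    rwa [hap] at this

theorem germ_gt {f : ℝ → ℝ} {p : ℝ} (hf : DifferentiableAt ℝ f p) (h : 0 < deriv f p)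
    (hp : f p = p) : ∀ᶠ x in 𝓝[>] p, p < f x := by
  have h1 := hasDerivAt_iff_tendsto_slope.1 hf.hasDerivAt
  have h2 := (h1.mono_left (nhdsWithin_mono p (fun x (hx : p < x) => (ne_of_gt hx)))).eventually
    (lt_mem_nhds h)
  filter_upwards [h2, self_mem_nhdsWithin] with x hx hxp
  have hxp : 0 < x - p := sub_pos.2 hxp
  rw [slope_def_field, hp] at hx
  have := mul_pos hx hxp
  rw [div_mul_cancel₀ _ hxp.ne'] at this
  linarith

/-- expansion case on the right -/
theorem germ_N1' {a u : ℝ → ℝ} {p : ℝ} (ha : ContDiffAt ℝ 2 a p) (ha' : 0 < deriv a p)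
    (hap : a p = p) (hu : ContDiffAt ℝ 2 u p) (hup : u p = p)
    (hc : ∀ᶠ x in 𝓝 p, a (u x) = u (a x)) (hgt : ∀ᶠ x in 𝓝[>] p, x < a x)
    (hr : Tendsto (fun x => (u x - x) / (a x - x)) (𝓝[>] p) (𝓝 0)) :
    ∀ᶠ x in 𝓝[>] p, u x = x := by
  obtain ⟨b, hb, hbp, hb', hba, hab⟩ := germ_inv (by norm_num) ha ha' hap
  have hbt : Tendsto b (𝓝 p) (𝓝 p) := by
    have := hb.continuousAt.tendsto
    rwa [hbp] at this
  have hut : Tendsto u (𝓝 p) (𝓝 p) := by
    have := hu.continuousAt.tendsto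
    rwa [hup] at this
  have hbt' : Tendsto b (𝓝[>] p) (𝓝[>] p) :=
    tendsto_nhdsWithin_iff.2 ⟨hbt.mono_left nhdsWithin_le_nhds,
      germ_gt (hb.differentiableAt (by norm_num)) hb' hbp⟩
  have hab' : ∀ᶠ x in 𝓝[>] p, a (b x) = x := nhdsWithin_le_nhds hab
  refine germ_N1 hb hb' hbp ?_ ?_ ?_
  · filter_upwards [hab, hbt.eventually hc, (hut.comp hbt).eventually hba] with x h1 h2 h3
    rw [h1] at h2
    have h3 : b (a (u (b x))) = u (b x) := h3
    rw [← h2, h3]
  · filter_upwards [hbt'.eventually hgt, hab'] with x h1 h2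
    rwa [h2] at h1
  · obtain ⟨L, δ, hL, hδ, hd, hp, hl⟩ := germ_lip ha ha'
    -- bound for the derivative
    have hdc : ∀ᶠ x in 𝓝 p, deriv a x < deriv a p + 1 := by
      have h1 : ContinuousAt (deriv a) p := by
        have : ContDiffAt ℝ 1 (fun x => fderiv ℝ a x 1) p :=
          (ha.fderiv_right (m := 1) (by norm_num)).clm_apply contDiffAt_const
        exact this.continuousAt
      exact h1.eventually (gt_mem_nhds (by linarith))
    obtain ⟨δ', hδ', hB⟩ := Metric.eventually_nhds_iff.1 hdc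
    have hbox : ∀ᶠ y in 𝓝 p, |y - p| < min δ δ' := by
      have := Metric.ball_mem_nhds p (lt_min hδ hδ')
      filter_upwards [this] with y hy
      rwa [Metric.mem_ball, Real.dist_eq] at hy
    have hest : ∀ᶠ y in 𝓝 p, |a (u y) - a y| ≤ (deriv a p + 1) * |u y - y| := by
      filter_upwards [hbox, hut.eventually hbox] with y h1 h2
      have h3 : ∀ t ∈ uIcc y (u y), |t - p| < min δ δ' := by
        intro t ht
        rw [abs_lt] at *
        rw [mem_uIcc] at ht
        constructor <;> rcases ht with ht | ht <;> linarith [ht.1, ht.2]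
      obtain ⟨ξ, hξ, e⟩ := germ_mvt (f := a) (x := y) (y := u y) (fun t ht => hd t (by
        have := abs_lt.1 (h3 t ht)
        constructor <;> linarith [this.1, this.2, min_le_left δ δ']))
      have h4 := h3 ξ hξ
      have h5 : 0 < deriv a ξ := hp ξ (by
        have := abs_lt.1 h4
        constructor <;> linarith [this.1, this.2, min_le_left δ δ'])
      have h6 : deriv a ξ < deriv a p + 1 := hB (by
        rw [Real.dist_eq]
        exact lt_of_lt_of_le h4 (min_le_right _ _))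
      rw [e, abs_mul, abs_of_pos h5]
      exact mul_le_mul_of_nonneg_right h6.le (abs_nonneg _)
    have hz : Tendsto (fun x => (deriv a p + 1) * |(u (b x) - b x) / (a (b x) - b x)|) (𝓝[>] p)
        (𝓝 0) := by
      have h1 := (hr.comp hbt').abs.const_mul (deriv a p + 1)
      rw [abs_zero, mul_zero] at h1
      exact h1
    refine squeeze_zero_norm' ?_ hz
    filter_upwards [hab', hbt'.eventually (nhdsWithin_le_nhds hc),
      hbt'.eventually (nhdsWithin_le_nhds hest)] with x h1 h2 h3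
    rw [h1] at h2 h3 ⊢
    rw [h2] at h3
    rw [Real.norm_eq_abs, abs_div, abs_div, abs_sub_comm (b x) x, ← mul_div_assoc]
    exact div_le_div_of_nonneg_right h3 (abs_nonneg _)

theorem germ_sign {a : ℝ → ℝ} {p : ℝ} (ha : ∀ᶠ x in 𝓝 p, ContinuousAt a x)
    (hne : ∀ᶠ x in 𝓝[>] p, a x ≠ x) :
    (∀ᶠ x in 𝓝[>] p, a x < x) ∨ ∀ᶠ x in 𝓝[>] p, x < a x := by
  rw [eventually_nhdsWithin_iff] at hne
  obtain ⟨δ, hδ, hb⟩ := Metric.eventually_nhds_iff.1 (ha.and hne)
  have hb' : ∀ x ∈ Ioo p (p + δ), ContinuousAt a x ∧ a x ≠ x := by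
    intro x hx
    have := hb (show dist x p < δ by rw [Real.dist_eq, abs_lt]; constructor <;> linarith [hx.1, hx.2])
    exact ⟨this.1, this.2 hx.1⟩
  have hmem : Ioo p (p + δ) ∈ 𝓝[>] p := Ioo_mem_nhdsGT (by linarith)
  have hcon : ContinuousOn a (Ioo p (p + δ)) := fun x hx => (hb' x hx).1.continuousWithinAt
  by_cases h : ∃ x ∈ Ioo p (p + δ), x < a x
  · obtain ⟨x₀, hx₀, h0⟩ := h
    right
    filter_upwards [hmem] with x hx
    by_contra hcon2
    push Not at hcon2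
    obtain ⟨c, hc, e⟩ := isPreconnected_Ioo.intermediate_value₂ hx hx₀ hcon continuousOn_id
      hcon2 h0.le
    exact (hb' c hc).2 e
  · push Not at h
    left
    filter_upwards [hmem] with x hx
    exact lt_of_le_of_ne (h x hx) (hb' x hx).2

theorem germ_right {a u : ℝ → ℝ} {p : ℝ} (ha : ContDiffAt ℝ 2 a p) (ha' : 0 < deriv a p)
    (hap : a p = p) (hu : ContDiffAt ℝ 2 u p) (hup : u p = p)
    (hc : ∀ᶠ x in 𝓝 p, a (u x) = u (a x)) (hne : ∀ᶠ x in 𝓝[>] p, a x ≠ x)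
    (hr : Tendsto (fun x => (u x - x) / (a x - x)) (𝓝[>] p) (𝓝 0)) :
    ∀ᶠ x in 𝓝[>] p, u x = x := by
  have h1 : ∀ᶠ x in 𝓝 p, ContinuousAt a x := by
    filter_upwards [ha.eventually (by simp)] with x hx
    exact hx.continuousAt
  rcases germ_sign h1 hne with h | h
  · exact germ_N1 ha ha' hap hc h hr
  · exact germ_N1' ha ha' hap hu hup hc h hr

theorem germ_refl {f : ℝ → ℝ} {p : ℝ} (hf : ContDiffAt ℝ 2 f p) :
    ContDiffAt ℝ 2 (fun x => 2 * p - f (2 * p - x)) p := by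
  have h0 : 2 * p - p = p := by ring
  have h1 : ContDiffAt ℝ 2 f (2 * p - p) := by rwa [h0]
  exact contDiffAt_const.sub (h1.comp p (contDiffAt_const.sub contDiffAt_id))

theorem germ_refl_deriv {f : ℝ → ℝ} {p : ℝ} :
    deriv (fun x => 2 * p - f (2 * p - x)) p = deriv f p := by
  rw [deriv_const_sub, deriv_comp_const_sub]
  have h0 : 2 * p - p = p := by ring
  rw [h0, neg_neg]

theorem germ_refl_nhds (p : ℝ) : Tendsto (fun x => 2 * p - x) (𝓝 p) (𝓝 p) := by
  have : ContinuousAt (fun x => 2 * p - x) p := by fun_prop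
  have h := this.tendsto
  have h0 : 2 * p - p = p := by ring
  rwa [h0] at h

theorem germ_refl_gt (p : ℝ) : Tendsto (fun x => 2 * p - x) (𝓝[>] p) (𝓝[<] p) := by
  refine tendsto_nhdsWithin_iff.2 ⟨(germ_refl_nhds p).mono_left nhdsWithin_le_nhds, ?_⟩
  filter_upwards [self_mem_nhdsWithin] with x hx
  have hx : p < x := hx
  show 2 * p - x < p
  linarith

theorem germ_refl_lt (p : ℝ) : Tendsto (fun x => 2 * p - x) (𝓝[<] p) (𝓝[>] p) := by
  refine tendsto_nhdsWithin_iff.2 ⟨(germ_refl_nhds p).mono_left nhdsWithin_le_nhds, ?_⟩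
  filter_upwards [self_mem_nhdsWithin] with x hx
  have hx : x < p := hx
  show p < 2 * p - x
  linarith

theorem germ_left {a u : ℝ → ℝ} {p : ℝ} (ha : ContDiffAt ℝ 2 a p) (ha' : 0 < deriv a p)
    (hap : a p = p) (hu : ContDiffAt ℝ 2 u p) (hup : u p = p)
    (hc : ∀ᶠ x in 𝓝 p, a (u x) = u (a x)) (hne : ∀ᶠ x in 𝓝[<] p, a x ≠ x)
    (hr : Tendsto (fun x => (u x - x) / (a x - x)) (𝓝[<] p) (𝓝 0)) :
    ∀ᶠ x in 𝓝[<] p, u x = x := by
  have h0 : 2 * p - p = p := by ring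
  have key := germ_right (a := fun x => 2 * p - a (2 * p - x)) (u := fun x => 2 * p - u (2 * p - x))
    (p := p) (germ_refl ha) (by rw [germ_refl_deriv]; exact ha') (by rw [h0, hap, h0])
    (germ_refl hu) (by rw [h0, hup, h0]) ?_ ?_ ?_
  · have h1 := (germ_refl_lt p).eventually key
    filter_upwards [h1] with x hx
    have h2 : 2 * p - (2 * p - x) = x := by ring
    rw [h2] at hx
    linarith
  · filter_upwards [(germ_refl_nhds p).eventually hc] with x hx
    have h2 : ∀ t : ℝ, 2 * p - (2 * p - t) = t := fun t => by ring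
    rw [h2, h2, hx]
  · filter_upwards [(germ_refl_gt p).eventually hne] with x hx
    intro h
    apply hx
    linarith
  · have h1 := hr.comp (germ_refl_gt p)
    refine h1.congr fun x => ?_
    simp only [comp_apply]
    rw [← neg_div_neg_eq]
    congr 1 <;> ring

theorem germ_two {q : ℝ → Prop} {p : ℝ} (h1 : ∀ᶠ x in 𝓝[<] p, q x) (h2 : ∀ᶠ x in 𝓝[>] p, q x) :
    ∀ᶠ x in 𝓝[≠] p, q x := by
  rw [← Iio_union_Ioi, nhdsWithin_union]
  exact eventually_sup.2 ⟨h1, h2⟩

theorem germ_full {a u : ℝ → ℝ} {p : ℝ} (ha : ContDiffAt ℝ 2 a p) (ha' : 0 < deriv a p)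
    (hap : a p = p) (hu : ContDiffAt ℝ 2 u p) (hup : u p = p)
    (hc : ∀ᶠ x in 𝓝 p, a (u x) = u (a x)) (hne : ∀ᶠ x in 𝓝[≠] p, a x ≠ x)
    (hr : Tendsto (fun x => (u x - x) / (a x - x)) (𝓝[≠] p) (𝓝 0)) :
    ∀ᶠ x in 𝓝 p, u x = x := by
  have hl : 𝓝[<] p ≤ 𝓝[≠] p := nhdsWithin_mono p (fun x (hx : x < p) => ne_of_lt hx)
  have hg : 𝓝[>] p ≤ 𝓝[≠] p := nhdsWithin_mono p (fun x (hx : p < x) => ne_of_gt hx)
  have h1 := germ_right ha ha' hap hu hup hc (hg hne) (hr.mono_left hg)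
  have h2 := germ_left ha ha' hap hu hup hc (hl hne) (hr.mono_left hl)
  have h3 := germ_two h2 h1
  rw [eventually_nhdsWithin_iff] at h3
  filter_upwards [h3] with x hx
  rcases eq_or_ne x p with rfl | h
  · exact hup
  · exact hx h

theorem germ_taylor {h : ℝ → ℝ} {p : ℝ} (hh : Smooth h) (k : ℕ)
    (hk : ∀ i < k, iteratedDeriv i h p = 0) :
    Tendsto (fun x => h x / (x - p) ^ k) (𝓝[≠] p) (𝓝 (iteratedDeriv k h p / k.factorial)) := by
  have h1 := taylor_isLittleO_univ (f := h) (x₀ := p) (n := k)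
    (hh.of_le (by exact_mod_cast le_top))
  have h2 : ∀ x, taylorWithinEval h k univ p x =
      iteratedDeriv k h p / k.factorial * (x - p) ^ k := by
    intro x
    rw [taylor_within_apply, Finset.sum_range_succ, Finset.sum_eq_zero, zero_add,
      iteratedDerivWithin_univ, smul_eq_mul]
    · ring
    · intro i hi
      rw [iteratedDerivWithin_univ, hk i (Finset.mem_range.1 hi), smul_zero]
  have h3 := (h1.mono nhdsWithin_le_nhds : _ =o[𝓝[≠] p] _).tendsto_div_nhds_zero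
  have h4 := h3.add_const (iteratedDeriv k h p / k.factorial)
  rw [zero_add] at h4
  refine h4.congr' ?_
  filter_upwards [self_mem_nhdsWithin] with x hx
  have hx : x - p ≠ 0 := sub_ne_zero.2 hx
  have hx2 : (x - p) ^ k ≠ 0 := pow_ne_zero _ hx
  rw [h2, sub_div, mul_div_assoc, div_self hx2]
  ring

theorem germ_order {a : ℝ → ℝ} {p : ℝ} (ha : Smooth a) (hnf : ¬ Flat a p) :
    ∃ (k : ℕ) (c : ℝ), c ≠ 0 ∧ Tendsto (fun x => (a x - x) / (x - p) ^ k) (𝓝[≠] p) (𝓝 c) := by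
  unfold Flat at hnf
  push Not at hnf
  classical
  have hs : Smooth (fun x => a x - x) := ha.sub contDiff_id
  refine ⟨Nat.find hnf, _, ?_, germ_taylor hs (Nat.find hnf) ?_⟩
  · exact div_ne_zero (Nat.find_spec hnf) (by positivity)
  · intro i hi
    have := Nat.find_min hnf hi
    push Not at this
    exact this

theorem nonflat_isolated {a : ℝ → ℝ} {p : ℝ} (ha : Smooth a) (hnf : ¬ Flat a p) :
    ∀ᶠ x in 𝓝[≠] p, a x ≠ x := by
  obtain ⟨k, c, hc, ht⟩ := germ_order ha hnf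
  filter_upwards [ht.eventually_ne hc] with x hx h
  apply hx
  rw [h, sub_self, zero_div]

theorem germ_pow_tendsto (p : ℝ) {j : ℕ} (hj : 0 < j) :
    Tendsto (fun x : ℝ => (x - p) ^ j) (𝓝[≠] p) (𝓝 0) := by
  have h : ContinuousAt (fun x : ℝ => (x - p) ^ j) p := by fun_prop
  have h1 := h.tendsto
  rw [sub_self, zero_pow hj.ne'] at h1
  exact h1.mono_left nhdsWithin_le_nhds

/-- higher order against lower order -/
theorem germ_higher {f g : ℝ → ℝ} {p : ℝ} {k m : ℕ} {c d : ℝ} (hkm : k < m) (hc : c ≠ 0)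
    (hf : Tendsto (fun x => f x / (x - p) ^ k) (𝓝[≠] p) (𝓝 c))
    (hg : Tendsto (fun x => g x / (x - p) ^ m) (𝓝[≠] p) (𝓝 d)) :
    Tendsto (fun x => g x / f x) (𝓝[≠] p) (𝓝 0) := by
  have h1 := (hg.mul (germ_pow_tendsto p (Nat.sub_pos_of_lt hkm))).div hf hc
  rw [mul_zero, zero_div] at h1
  refine h1.congr' ?_
  filter_upwards [self_mem_nhdsWithin] with x hx
  have hx : x - p ≠ 0 := sub_ne_zero.2 hx
  have e : (x - p) ^ m = (x - p) ^ k * (x - p) ^ (m - k) := by
    rw [← pow_add]; congr 1; omega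
  show g x / (x - p) ^ m * (x - p) ^ (m - k) / (f x / (x - p) ^ k) = g x / f x
  rw [e]
  have h2 : (x - p) ^ k ≠ 0 := pow_ne_zero _ hx
  have h3 : (x - p) ^ (m - k) ≠ 0 := pow_ne_zero _ hx
  field_simp

theorem germ_same {f g : ℝ → ℝ} {p : ℝ} {k : ℕ} {c d : ℝ} (hc : c ≠ 0)
    (hf : Tendsto (fun x => f x / (x - p) ^ k) (𝓝[≠] p) (𝓝 c))
    (hg : Tendsto (fun x => g x / (x - p) ^ k) (𝓝[≠] p) (𝓝 d)) :
    Tendsto (fun x => g x / f x) (𝓝[≠] p) (𝓝 (d / c)) := by
  refine (hg.div hf hc).congr' ?_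
  filter_upwards [self_mem_nhdsWithin] with x hx
  have hx : x - p ≠ 0 := sub_ne_zero.2 hx
  have h2 : (x - p) ^ k ≠ 0 := pow_ne_zero _ hx
  show g x / (x - p) ^ k / (f x / (x - p) ^ k) = g x / f x
  rw [div_div_div_cancel_right₀ h2]

theorem germ_two_le : (2 : WithTop ℕ∞) ≤ ((⊤ : ℕ∞) : WithTop ℕ∞) := by
  exact WithTop.coe_le_coe.2 (le_top (a := (2 : ℕ∞)))

/-- a flat germ commuting with a nonflat one is the identity -/
theorem germ_flat_id {a u : ℝ → ℝ} {p : ℝ} (ha : Smooth a) (ha' : 0 < deriv a p) (hu : Smooth u)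
    (hap : a p = p) (hup : u p = p) (hc : ∀ᶠ x in 𝓝 p, a (u x) = u (a x)) (hnf : ¬ Flat a p)
    (hf : Flat u p) : ∀ᶠ x in 𝓝 p, u x = x := by
  obtain ⟨k, c, hc0, ht⟩ := germ_order ha hnf
  have hs : Smooth (fun x => u x - x) := hu.sub contDiff_id
  have h1 := germ_taylor hs (k + 1) (fun i _ => hf i)
  exact germ_full (ha.contDiffAt.of_le germ_two_le) ha' hap
    (hu.contDiffAt.of_le germ_two_le) hup hc (nonflat_isolated ha hnf)
    (germ_higher (Nat.lt_succ_self k) hc0 ht h1)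

/-- commuting germs of increasing diffeomorphisms, one of them not flat -/
theorem NF {a u : ℝ → ℝ} {p : ℝ} (ha : Smooth a) (ha' : ∀ x, 0 < deriv a x) (hu : Smooth u)
    (hu' : ∀ x, 0 < deriv u x) (hap : a p = p) (hup : u p = p)
    (hc : ∀ᶠ x in 𝓝 p, a (u x) = u (a x)) (hnf : ¬ Flat a p) :
    (∀ᶠ x in 𝓝 p, u x = x) ∨
      ∃ c : ℝ, c ≠ 0 ∧ Tendsto (fun x => (u x - x) / (a x - x)) (𝓝[≠] p) (𝓝 c) := by
  by_cases hf : Flat u p
  · exact Or.inl (germ_flat_id ha (ha' p) hu hap hup hc hnf hf)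
  obtain ⟨k, c, hc0, ht⟩ := germ_order ha hnf
  obtain ⟨m, d, hd0, ht'⟩ := germ_order hu hf
  have ha2 : ContDiffAt ℝ 2 a p := ha.contDiffAt.of_le germ_two_le
  have hu2 : ContDiffAt ℝ 2 u p := hu.contDiffAt.of_le germ_two_le
  rcases lt_trichotomy k m with h | rfl | h
  · left
    exact germ_full ha2 (ha' p) hap hu2 hup hc (nonflat_isolated ha hnf) (germ_higher h hc0 ht ht')
  · right
    exact ⟨d / c, div_ne_zero hd0 hc0, germ_same hc0 ht ht'⟩
  · exfalso
    have h1 := germ_full hu2 (hu' p) hup ha2 hap (hc.mono fun x hx => hx.symm)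
      (nonflat_isolated hu hf) (germ_higher h hd0 ht' ht)
    have h2 := nonflat_isolated ha hnf
    have h3 : ∀ᶠ x in 𝓝[≠] p, False := by
      filter_upwards [h2, nhdsWithin_le_nhds h1] with x h4 h5
      exact h4 h5
    rw [eventually_false_iff_eq_bot] at h3
    exact (NormedField.nhdsNE_neBot p).ne h3

end Pool.Agent.Helper638.Ros
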