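import Pool.Agent.Helper638_Ros.Germ

/-!
# The non flat case: all of `Λ` is nonflat on `K` and free off `K` (paper 2.5 (c))
-/

set_option autoImplicit false

namespace Pool.Agent.Helper638.Ros

open Filter Function Set Topology

/-- the hypothesis of the non flat case -/
def NonFlat (S : Sys2) : Prop := ∀ z ∈ S.K, ¬ (Flat S.A z ∧ Flat S.G z)

/-- near each point of `K` one of `A`, `G` is nonflat -/
theorem lnf_pick {S : Sys2} (hnf : NonFlat S) {z : ℝ} (hz : z ∈ S.K) :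
    ∃ h : D, Commute h S.A ∧ Commute h S.G ∧ (∀ g, Commute h (S.lam g)) ∧
      (∀ x, x ∈ S.K → h x = x) ∧ ¬ Flat h z := by
  by_cases hA : Flat S.A z
  · refine ⟨S.G, S.comm_AG.symm, Commute.refl _, S.comm_G_lam, fun x hx => hx.2, fun h => ?_⟩
    exact hnf z hz ⟨hA, h⟩
  · exact ⟨S.A, Commute.refl _, S.comm_AG, S.comm_A_lam, fun x hx => hx.1, hA⟩

theorem lnf_iso {S : Sys2} (hnf : NonFlat S) {z : ℝ} (hz : z ∈ S.K) :
    ∀ᶠ y in 𝓝[≠] z, y ∉ S.K := by
  obtain ⟨h, -, -, -, h4, h5⟩ := lnf_pick hnf hz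
  filter_upwards [nonflat_isolated (D.smooth h) h5] with y hy hK
  exact hy (h4 y hK)

theorem K_finite {S : Sys2} (hnf : NonFlat S) (a b : ℝ) : (S.K ∩ Icc a b).Finite := by
  by_contra h
  have hinf : (S.K ∩ Icc a b).Infinite := h
  obtain ⟨x, hx, hacc⟩ := hinf.exists_accPt_of_subset_isCompact
    (isCompact_Icc.inter_left S.K_closed) Subset.rfl
  rw [accPt_iff_frequently_nhdsNE] at hacc
  exact hacc ((lnf_iso hnf hx.1).mono fun y hy hy' => hy hy'.1)

theorem lnf_comp {S : Sys2} {x : ℝ} (hx : x ∉ S.K) : ∃ p₀ p₁ : ℝ, Cons S p₀ p₁ ∧ x ∈ Ioo p₀ p₁ := by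
  obtain ⟨z, hz⟩ := S.K_nonempty
  have h1 : (S.K ∩ Iic x).Nonempty := by
    refine ⟨z + ((-⌈z - x⌉ : ℤ) : ℝ), (S.K_add_int _ _).2 hz, ?_⟩
    push_cast
    have := Int.le_ceil (z - x)
    show z + -(⌈z - x⌉ : ℝ) ≤ x
    linarith
  have h2 : (S.K ∩ Ici x).Nonempty := by
    refine ⟨z + ((⌈x - z⌉ : ℤ) : ℝ), (S.K_add_int _ _).2 hz, ?_⟩
    have := Int.le_ceil (x - z)
    show x ≤ z + (⌈x - z⌉ : ℝ)
    linarith
  have b1 : BddAbove (S.K ∩ Iic x) := ⟨x, fun y hy => hy.2⟩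
  have b2 : BddBelow (S.K ∩ Ici x) := ⟨x, fun y hy => hy.2⟩
  have m1 := (S.K_closed.inter isClosed_Iic).csSup_mem h1 b1
  have m2 := (S.K_closed.inter isClosed_Ici).csInf_mem h2 b2
  have l1 : sSup (S.K ∩ Iic x) < x := lt_of_le_of_ne m1.2 (fun h => hx (h ▸ m1.1))
  have l2 : x < sInf (S.K ∩ Ici x) := lt_of_le_of_ne m2.2 (fun h => hx (h.symm ▸ m2.1))
  refine ⟨sSup (S.K ∩ Iic x), sInf (S.K ∩ Ici x), ⟨m1.1, m2.1, l1.trans l2, ?_⟩, l1, l2⟩
  intro y hy hyK
  rcases le_total y x with h | h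
  · exact absurd (le_csSup b1 ⟨hyK, h⟩) (not_le.2 hy.1)
  · exact absurd (csInf_le b2 ⟨hyK, h⟩) (not_le.2 hy.2)

theorem lnf_free {S : Sys2} {p₀ p₁ : ℝ} (hc : Cons S p₀ p₁) {h : D} (hA : Commute h S.A)
    (hG : Commute h S.G) (_hK : ∀ x, x ∈ S.K → h x = x) (hn : ¬ Flat h p₀) {x : ℝ}
    (hx : x ∈ Ioo p₀ p₁) : h x ≠ x := by
  intro hfix
  have h1 := nonflat_isolated (D.smooth h) hn
  rw [eventually_nhdsWithin_iff] at h1
  obtain ⟨δ, hδ, hb⟩ := Metric.eventually_nhds_iff.1 h1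
  have hnear : ∀ t, p₀ < t → h t = t → p₀ + δ ≤ t := by
    intro t ht htt
    by_contra hcon
    push Not at hcon
    exact hb (show dist t p₀ < δ by rw [Real.dist_eq, abs_lt]; constructor <;> linarith)
      (ne_of_gt ht) htt
  have hcl : IsClosed {t : ℝ | h t = t} := isClosed_eq (D.continuous h) continuous_id
  have hcomp : IsCompact ({t : ℝ | h t = t} ∩ Icc (p₀ + δ) x) := isCompact_Icc.inter_left hcl
  obtain ⟨y, ⟨hy1, hy2⟩, hy3⟩ := hcomp.exists_isLeast ⟨x, hfix, hnear x hx.1 hfix, le_refl x⟩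
  have hy1 : h y = y := hy1
  have hymem : y ∈ Ioo p₀ p₁ := ⟨by linarith [hy2.1], by linarith [hy2.2, hx.2]⟩
  have hmin : ∀ t, p₀ < t → h t = t → y ≤ t := by
    intro t ht htt
    rcases le_total t x with h' | h'
    · exact hy3 ⟨htt, hnear t ht htt, h'⟩
    · exact hy2.2.trans h'
  have hboth : ∀ f : D, Commute h f → f p₀ = p₀ → f y = y := by
    intro f hf hf0
    have e1 : p₀ < f y := by
      have := (D.strictMono f) hymem.1
      rwa [hf0] at this
    have e2 : h (f y) = f y := by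
      rw [← D.mul_apply, hf.eq, D.mul_apply, hy1]
    have e3 := hmin _ e1 e2
    have hf' : Commute h f⁻¹ := hf.inv_right
    have hf0' : f⁻¹ p₀ = p₀ := by
      conv_lhs => rw [← hf0]
      exact D.inv_apply_self f p₀
    have e4 : p₀ < f⁻¹ y := by
      have := (D.strictMono f⁻¹) hymem.1
      rwa [hf0'] at this
    have e5 : h (f⁻¹ y) = f⁻¹ y := by
      rw [← D.mul_apply, hf'.eq, D.mul_apply, hy1]
    have e6 := hmin _ e4 e5
    have e7 := (D.strictMono f).monotone e6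
    rw [D.apply_inv_self] at e7
    exact le_antisymm e7 e3
  exact hc.disj y hymem ⟨hboth _ hA hc.h₀.1, hboth _ hG hc.h₀.2⟩

/-- an element commuting with `Λ` which attracts to `p₀` -/
theorem lnf_attr {S : Sys2} (hnf : NonFlat S) {p₀ p₁ : ℝ} (hc : Cons S p₀ p₁) :
    ∃ e : D, (∀ g, Commute e (S.lam g)) ∧ ∀ x ∈ Ioo p₀ p₁, (∀ n : ℕ, (e ^ n) x ∈ Ioo p₀ p₁) ∧
      Tendsto (fun n : ℕ => (e ^ n) x) atTop (𝓝 p₀) := by
  obtain ⟨h, hA, hG, hl, hK, hn⟩ := lnf_pick hnf hc.h₀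
  have hfree : ∀ x ∈ Ioo p₀ p₁, h x ≠ x := fun x hx => lnf_free hc hA hG hK hn hx
  have key : ∃ e : D, (∀ g, Commute e (S.lam g)) ∧ e p₀ = p₀ ∧ ∀ x ∈ Ioo p₀ p₁, e x < x := by
    by_cases hex : ∃ x ∈ Ioo p₀ p₁, x < h x
    · obtain ⟨x₀, hx₀, h0⟩ := hex
      have hall : ∀ x ∈ Ioo p₀ p₁, x < h x := by
        intro x hx
        by_contra hcon
        push Not at hcon
        obtain ⟨c, hcm, e⟩ := isPreconnected_Ioo.intermediate_value₂ hx hx₀
          (D.continuous h).continuousOn continuousOn_id hcon h0.le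
        exact hfree c hcm e
      have h0' : h⁻¹ p₀ = p₀ := by
        conv_lhs => rw [← hK p₀ hc.h₀]
        exact D.inv_apply_self h p₀
      have h1' : h⁻¹ p₁ = p₁ := by
        conv_lhs => rw [← hK p₁ hc.h₁]
        exact D.inv_apply_self h p₁
      refine ⟨h⁻¹, fun g => (hl g).inv_left, h0', fun x hx => ?_⟩
      have hm : h⁻¹ x ∈ Ioo p₀ p₁ := by
        constructor
        · have := (D.strictMono h⁻¹) hx.1
          rwa [h0'] at this
        · have := (D.strictMono h⁻¹) hx.2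
          rwa [h1'] at this
      have := hall _ hm
      rwa [D.apply_inv_self] at this
    · push Not at hex
      exact ⟨h, hl, hK p₀ hc.h₀, fun x hx => lt_of_le_of_ne (hex x hx) (hfree x hx)⟩
  obtain ⟨e, he, he0, hlt⟩ := key
  refine ⟨e, he, fun x hx => ?_⟩
  have hmem : ∀ n : ℕ, (e ^ n) x ∈ Ioo p₀ p₁ := by
    intro n
    induction n with
    | zero => simpa using hx
    | succ n ih =>
      rw [pow_succ', D.mul_apply]
      constructor
      · have := (D.strictMono e) ih.1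
        rwa [he0] at this
      · exact (hlt _ ih).trans ih.2
  refine ⟨hmem, ?_⟩
  have hanti : Antitone (fun n : ℕ => (e ^ n) x) := by
    refine antitone_nat_of_succ_le fun n => ?_
    show (e ^ (n + 1)) x ≤ (e ^ n) x
    rw [pow_succ', D.mul_apply]
    exact (hlt _ (hmem n)).le
  have h1 := tendsto_atTop_ciInf hanti ⟨p₀, by rintro _ ⟨n, rfl⟩; exact (hmem n).1.le⟩
  set l := ⨅ n : ℕ, (e ^ n) x with hldef
  have h2 : p₀ ≤ l := le_ciInf fun n => (hmem n).1.le
  have h3 : l ≤ x := by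
    have := ciInf_le (f := fun n : ℕ => (e ^ n) x)
      ⟨p₀, by rintro _ ⟨n, rfl⟩; exact (hmem n).1.le⟩ 0
    rw [pow_zero, D.one_apply] at this
    exact this
  have h5 : e l = l := by
    have t1 : Tendsto (fun n : ℕ => e ((e ^ n) x)) atTop (𝓝 (e l)) :=
      ((D.continuous e).tendsto l).comp h1
    have t2 : Tendsto (fun n : ℕ => e ((e ^ n) x)) atTop (𝓝 l) := by
      have := h1.comp (tendsto_add_atTop_nat 1)
      refine this.congr fun n => ?_
      show (e ^ (n + 1)) x = e ((e ^ n) x)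
      rw [pow_succ', D.mul_apply]
    exact tendsto_nhds_unique t1 t2
  rcases eq_or_lt_of_le h2 with h6 | h6
  · rw [h6]; exact h1
  · exfalso
    have := hlt l ⟨h6, lt_of_le_of_lt h3 hx.2⟩
    rw [h5] at this
    exact lt_irrefl _ this

theorem lnf_comm_pow {S : Sys2} {e : D} {g : ℤ × ℤ} (he : Commute e (S.lam g)) (n : ℕ) (x : ℝ) :
    S.lam g ((e ^ n) x) = (e ^ n) (S.lam g x) := by
  rw [← D.mul_apply, ← D.mul_apply, (he.pow_left n).eq]

theorem lnf_acc {S : Sys2} (hnf : NonFlat S) {p₀ p₁ : ℝ} (hc : Cons S p₀ p₁) {g : ℤ × ℤ} {x : ℝ}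
    (hx : x ∈ Ioo p₀ p₁) (hfix : S.lam g x = x) : Flat (S.lam g) p₀ := by
  by_contra hn
  obtain ⟨e, he, hat⟩ := lnf_attr hnf hc
  obtain ⟨hm, ht⟩ := hat x hx
  have h1 := nonflat_isolated (D.smooth (S.lam g)) hn
  have h2 : Tendsto (fun n : ℕ => (e ^ n) x) atTop (𝓝[≠] p₀) :=
    tendsto_nhdsWithin_iff.2 ⟨ht, Eventually.of_forall fun n => ne_of_gt (hm n).1⟩
  obtain ⟨n, hn2⟩ := (h2.eventually h1).exists
  apply hn2
  rw [lnf_comm_pow (he g), hfix]

theorem lnf_flat_id {S : Sys2} (hnf : NonFlat S) {g : ℤ × ℤ} {z : ℝ} (hz : z ∈ S.K)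
    (hf : Flat (S.lam g) z) : ∀ᶠ y in 𝓝 z, S.lam g y = y := by
  obtain ⟨h, -, -, hl, hK, hn⟩ := lnf_pick hnf hz
  refine germ_flat_id (D.smooth h) (D.pos h z) (D.smooth (S.lam g)) (hK z hz) (S.lam_fix g hz) ?_ hn hf
  refine Eventually.of_forall fun x => ?_
  rw [← D.mul_apply, (hl g).eq, D.mul_apply]

theorem lam_nonflat {S : Sys2} (hnf : NonFlat S) {g : ℤ × ℤ} (hg : g ≠ 0) {z : ℝ}
    (hz : z ∈ S.K) : ¬ Flat (S.lam g) z := by
  intro hflat
  have hzW : z ∈ interior {y : ℝ | S.lam g y = y} :=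
    mem_interior_iff_mem_nhds.2 (lnf_flat_id hnf hz hflat)
  have hclosed : closure (interior {y : ℝ | S.lam g y = y}) ⊆
      interior {y : ℝ | S.lam g y = y} := by
    intro x hx
    by_cases hxK : x ∈ S.K
    · have hfl : Flat (S.lam g) x := by
        intro i
        have hs : Smooth (fun t => S.lam g t - t) := (D.smooth (S.lam g)).sub contDiff_id
        have hcl : IsClosed {y : ℝ | iteratedDeriv i (fun t => S.lam g t - t) y = 0} :=
          isClosed_eq (hs.continuous_iteratedDeriv i (by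
            exact WithTop.coe_le_coe.2 (le_top (a := (i : ℕ∞))))) continuous_const
        refine hcl.closure_subset_iff.2 ?_ hx
        intro y hy
        have h1 : (fun t => S.lam g t - t) =ᶠ[𝓝 y] fun _ => (0 : ℝ) := by
          have := mem_interior_iff_mem_nhds.1 hy
          filter_upwards [this] with t ht
          have ht : S.lam g t = t := ht
          rw [ht, sub_self]
        show iteratedDeriv i (fun t => S.lam g t - t) y = 0
        rw [h1.iteratedDeriv_eq i, iteratedDeriv_fun_const_zero]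
      exact mem_interior_iff_mem_nhds.2 (lnf_flat_id hnf hxK hfl)
    · obtain ⟨p₀, p₁, hc, hx'⟩ := lnf_comp hxK
      obtain ⟨y, hy1, hy2⟩ := mem_closure_iff.1 hx (Ioo p₀ p₁) isOpen_Ioo hx'
      have hy2' : S.lam g y = y := interior_subset (s := {y : ℝ | S.lam g y = y}) hy2
      have hfl := lnf_acc hnf hc hy1 hy2'
      have hid := lnf_flat_id hnf hc.h₀ hfl
      obtain ⟨e, he, hat⟩ := lnf_attr hnf hc
      refine mem_interior.2 ⟨Ioo p₀ p₁, ?_, isOpen_Ioo, hx'⟩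
      intro t ht
      obtain ⟨hm, htt⟩ := hat t ht
      obtain ⟨n, hn⟩ := (htt.eventually hid).exists
      rw [lnf_comm_pow (he g)] at hn
      exact D.injective _ hn
  have hW : interior {y : ℝ | S.lam g y = y} = univ :=
    IsClopen.eq_univ ⟨isClosed_of_closure_subset hclosed, isOpen_interior⟩ ⟨z, hzW⟩
  apply hg
  apply S.lam_faith g
  apply D.ext
  intro x
  have hx : x ∈ interior {y : ℝ | S.lam g y = y} := by rw [hW]; trivial
  exact interior_subset (s := {y : ℝ | S.lam g y = y}) hx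

theorem lam_free {S : Sys2} (hnf : NonFlat S) {g : ℤ × ℤ} (hg : g ≠ 0) {x : ℝ}
    (hx : x ∉ S.K) : S.lam g x ≠ x := by
  intro hfix
  obtain ⟨p₀, p₁, hc, hx'⟩ := lnf_comp hx
  exact lam_nonflat hnf hg hc.h₀ (lnf_acc hnf hc hx' hfix)

end Pool.Agent.Helper638.Ros
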