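import Pool.Agent.Helper638_Ros.Calc

/-!
# Local theorem, part A: iterates and the exact Abel function (paper 1.10 (1), (2))
-/

set_option autoImplicit false

namespace Pool.Agent.Helper638.Ros

open Filter Function Set Topology

/-- An increasing diffeomorphism of the line. -/
structure IncDiff (w : ℝ → ℝ) : Prop where
  smooth : Smooth w
  pos : ∀ x, 0 < deriv w x
  surj : Surjective w

/-- hypothesis (i) of the local theorem; `e` stands for `1 / K` -/
structure WHyp (R : ℕ) (C : ℝ) (e : ℝ) (w : ℝ → ℝ) : Prop where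
  w_gap : ∀ Y ∈ Icc (0 : ℝ) 1, e / 2 ≤ w Y - Y ∧ w Y - Y ≤ 2 * e
  w_one : ∀ Y ∈ Icc (0 : ℝ) 1, |deriv w Y - 1| ≤ C * e ^ 2
  w_der : ∀ r, 2 ≤ r → r ≤ R → ∀ Y ∈ Icc (0 : ℝ) 1, |iteratedDeriv r w Y| ≤ C * e ^ 2

theorem loc_at {f : ℝ → ℝ} (hf : Smooth f) (x : ℝ) (n : ℕ) : ContDiffAt ℝ n f x :=
  (hf.of_le (by exact_mod_cast le_top)).contDiffAt

theorem loc_sub_id {f : ℝ → ℝ} (hf : Smooth f) (x : ℝ) {i : ℕ} (hi : 1 ≤ i) :
    iteratedDeriv i (fun y => f y - y) x = iteratedDeriv i f x - (if i = 1 then 1 else 0) := by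
  have h := iteratedDeriv_fun_sub (f := f) (g := fun y : ℝ => y) (n := i) (x := x)
    (loc_at hf x i) contDiffAt_id
  rw [h, iteratedDeriv_fun_id]
  have : i ≠ 0 := by omega
  simp [this]

theorem loc_iter_smooth {w : ℝ → ℝ} (hw : Smooth w) (n : ℕ) : Smooth (w^[n]) := by
  induction n with
  | zero => simpa using contDiff_id
  | succ n ih => rw [iterate_succ']; exact hw.comp ih

theorem loc_iter_ge {w : ℝ → ℝ} (hx : ∀ x, x < w x) (n : ℕ) (x : ℝ) : x ≤ w^[n] x := by
  induction n with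
  | zero => simp
  | succ n ih => rw [iterate_succ_apply']; exact ih.trans (hx _).le

/-- the bump -/
noncomputable def loc_bump : ContDiffBump (0.7 : ℝ) := ⟨0.1, 0.2, by norm_num, by norm_num⟩

/-- the bump function -/
noncomputable def loc_phi (x : ℝ) : ℝ := loc_bump x

theorem loc_phi_smooth : Smooth loc_phi := loc_bump.contDiff

theorem loc_phi_nonneg (x : ℝ) : 0 ≤ loc_phi x := loc_bump.nonneg

theorem loc_phi_le (x : ℝ) : loc_phi x ≤ 1 := loc_bump.le_one

theorem loc_phi_one {x : ℝ} (h1 : 0.6 ≤ x) (h2 : x ≤ 0.8) : loc_phi x = 1 := by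
  apply loc_bump.one_of_mem_closedBall
  rw [Metric.mem_closedBall, Real.dist_eq, abs_le]
  constructor <;> (simp only [loc_bump]; linarith)

theorem loc_phi_zero {x : ℝ} (h : x ≤ 0.5 ∨ 0.9 ≤ x) : loc_phi x = 0 := by
  apply loc_bump.zero_of_le_dist
  rw [Real.dist_eq, le_abs]
  rcases h with h | h
  · right; simp only [loc_bump]; linarith
  · left; simp only [loc_bump]; linarith

/-- the primitive of the bump function -/
noncomputable def loc_beta (x : ℝ) : ℝ := ∫ t in (0 : ℝ)..x, loc_phi t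

/-- the total mass -/
noncomputable def loc_c : ℝ := loc_beta 1

theorem loc_beta_deriv : deriv loc_beta = loc_phi := by
  funext x
  exact Continuous.deriv_integral loc_phi loc_phi_smooth.continuous 0 x

theorem loc_beta_hasDerivAt (x : ℝ) : HasDerivAt loc_beta (loc_phi x) x :=
  intervalIntegral.integral_hasDerivAt_right
    (loc_phi_smooth.continuous.intervalIntegrable _ _)
    (loc_phi_smooth.continuous.stronglyMeasurableAtFilter _ _)
    loc_phi_smooth.continuous.continuousAt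

theorem loc_beta_smooth : Smooth loc_beta := by
  refine contDiff_infty_iff_deriv.2 ⟨fun x => (loc_beta_hasDerivAt x).differentiableAt, ?_⟩
  rw [loc_beta_deriv]; exact loc_phi_smooth

theorem loc_beta_lo {x : ℝ} (h : x ≤ 0.5) : loc_beta x = 0 := by
  unfold loc_beta
  apply intervalIntegral.integral_zero_ae
  refine Filter.Eventually.of_forall (fun t ht => ?_)
  apply loc_phi_zero
  left
  rcases Set.mem_uIoc.1 ht with h' | h'
  · linarith [h'.2]
  · linarith [h'.2]

theorem loc_beta_hi {x : ℝ} (h : 0.9 ≤ x) : loc_beta x = loc_c := by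
  have hi : ∀ a b : ℝ, IntervalIntegrable loc_phi MeasureTheory.volume a b :=
    fun a b => loc_phi_smooth.continuous.intervalIntegrable _ _
  have h1 : loc_beta x = loc_c + ∫ t in (1 : ℝ)..x, loc_phi t := by
    unfold loc_c loc_beta
    rw [intervalIntegral.integral_add_adjacent_intervals (hi _ _) (hi _ _)]
  have h2 : ∫ t in (1 : ℝ)..x, loc_phi t = 0 := by
    apply intervalIntegral.integral_zero_ae
    refine Filter.Eventually.of_forall (fun t ht => ?_)
    apply loc_phi_zero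
    right
    rcases Set.mem_uIoc.1 ht with h' | h'
    · linarith [h'.1]
    · linarith [h'.1]
  rw [h1, h2, add_zero]

theorem loc_c_pos : 0 < loc_c := by
  have hi : ∀ a b : ℝ, IntervalIntegrable loc_phi MeasureTheory.volume a b :=
    fun a b => loc_phi_smooth.continuous.intervalIntegrable _ _
  have h1 : loc_c = (∫ t in (0 : ℝ)..0.6, loc_phi t) + (∫ t in (0.6 : ℝ)..0.8, loc_phi t)
      + ∫ t in (0.8 : ℝ)..1, loc_phi t := by
    unfold loc_c loc_beta
    rw [intervalIntegral.integral_add_adjacent_intervals (hi _ _) (hi _ _),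
      intervalIntegral.integral_add_adjacent_intervals (hi _ _) (hi _ _)]
  have h2 : 0 ≤ ∫ t in (0 : ℝ)..0.6, loc_phi t :=
    intervalIntegral.integral_nonneg (by norm_num) (fun u _ => loc_phi_nonneg u)
  have h3 : 0 ≤ ∫ t in (0.8 : ℝ)..1, loc_phi t :=
    intervalIntegral.integral_nonneg (by norm_num) (fun u _ => loc_phi_nonneg u)
  have h4 : ∫ t in (0.6 : ℝ)..0.8, loc_phi t = 0.2 := by
    have : ∫ t in (0.6 : ℝ)..0.8, loc_phi t = ∫ t in (0.6 : ℝ)..0.8, (1 : ℝ) := by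
      apply intervalIntegral.integral_congr
      intro t ht
      rw [Set.uIcc_of_le (by norm_num)] at ht
      exact loc_phi_one ht.1 ht.2
    rw [this, intervalIntegral.integral_const]
    norm_num
  rw [h1, h4]; linarith

theorem loc_c_le : loc_c ≤ 1 := by
  have h1 : loc_c ≤ ∫ t in (0 : ℝ)..1, (1 : ℝ) :=
    intervalIntegral.integral_mono_on (by norm_num)
      (loc_phi_smooth.continuous.intervalIntegrable _ _)
      (continuous_const.intervalIntegrable _ _) (fun x _ => loc_phi_le x)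
  simpa using h1

theorem loc_beta_bdd (R : ℕ) : ∃ B : ℝ, 1 ≤ B ∧ ∀ s, 1 ≤ s → s ≤ R → ∀ x,
    |iteratedDeriv s loc_beta x| ≤ B := by
  have h : ∀ s : ℕ, 1 ≤ s → ∃ B : ℝ, ∀ x, |iteratedDeriv s loc_beta x| ≤ B := by
    intro s hs
    have hc : Continuous (iteratedDeriv s loc_beta) :=
      (loc_beta_smooth.of_le (by exact_mod_cast le_top)).continuous_iteratedDeriv s le_rfl
    obtain ⟨B, hB⟩ := (isCompact_Icc (a := (0 : ℝ)) (b := 1)).exists_bound_of_continuousOn
      hc.continuousOn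
    refine ⟨max B 0, fun x => ?_⟩
    by_cases hx : x ∈ Icc (0 : ℝ) 1
    · exact (hB x hx).trans (le_max_left _ _)
    · have hz : iteratedDeriv s loc_beta x = 0 := by
        rw [Set.mem_Icc, not_and_or, not_le, not_le] at hx
        rcases hx with hx | hx
        · have : loc_beta =ᶠ[𝓝 x] fun _ => (0 : ℝ) := by
            filter_upwards [Iio_mem_nhds hx] with t ht
            exact loc_beta_lo (by have : t < 0 := ht; linarith)
          rw [(this.iteratedDeriv s).eq_of_nhds, iteratedDeriv_const]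
          simp
        · have : loc_beta =ᶠ[𝓝 x] fun _ => loc_c := by
            filter_upwards [Ioi_mem_nhds hx] with t ht
            exact loc_beta_hi (by have : 1 < t := ht; linarith)
          rw [(this.iteratedDeriv s).eq_of_nhds, iteratedDeriv_const]
          have : s ≠ 0 := by omega
          simp [this]
      rw [hz]; simp
  choose! B hB using h
  refine ⟨1 + ∑ s ∈ Finset.range (R + 1), |B s|, ?_, ?_⟩
  · have : 0 ≤ ∑ s ∈ Finset.range (R + 1), |B s| := Finset.sum_nonneg (fun _ _ => abs_nonneg _)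
    linarith
  · intro s h1 h2 x
    have h3 : |B s| ≤ ∑ s ∈ Finset.range (R + 1), |B s| :=
      Finset.single_le_sum (f := fun s => |B s|) (fun _ _ => abs_nonneg _)
        (Finset.mem_range.2 (by omega))
    have := hB s h1 x
    linarith [le_abs_self (B s)]

/-- the order isomorphism given by an increasing diffeomorphism -/
noncomputable def loc_e {w : ℝ → ℝ} (hw : IncDiff w) : ℝ ≃o ℝ :=
  (strictMono_of_deriv_pos hw.pos).orderIsoOfSurjective w hw.surj

@[simp] theorem loc_e_apply {w : ℝ → ℝ} (hw : IncDiff w) (x : ℝ) : loc_e hw x = w x := rfl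

/-- the integer iterates -/
noncomputable def loc_E {w : ℝ → ℝ} (hw : IncDiff w) (n : ℤ) (x : ℝ) : ℝ := (loc_e hw ^ n) x

theorem loc_E_succ {w : ℝ → ℝ} (hw : IncDiff w) (n : ℤ) (x : ℝ) :
    loc_E hw (n + 1) x = loc_E hw n (w x) := by
  unfold loc_E
  rw [zpow_add_one]; rfl

theorem loc_E_add {w : ℝ → ℝ} (hw : IncDiff w) (m n : ℤ) (x : ℝ) :
    loc_E hw (m + n) x = loc_E hw m (loc_E hw n x) := by
  unfold loc_E
  rw [zpow_add]; rfl

theorem loc_E_nat {w : ℝ → ℝ} (hw : IncDiff w) (n : ℕ) (x : ℝ) :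
    loc_E hw n x = w^[n] x := by
  induction n generalizing x with
  | zero => rfl
  | succ n ih =>
    push_cast
    rw [loc_E_succ, ih, iterate_succ_apply]

theorem loc_E_zero {w : ℝ → ℝ} (hw : IncDiff w) (x : ℝ) : loc_E hw 0 x = x := rfl

theorem loc_E_smooth {w : ℝ → ℝ} (hw : IncDiff w) (n : ℤ) : Smooth (loc_E hw n) := by
  have hnat : ∀ n : ℕ, Smooth (loc_E hw n) := by
    intro n
    have : loc_E hw n = w^[n] := funext (loc_E_nat hw n)
    rw [this]; exact loc_iter_smooth hw.smooth n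
  have hinv : Smooth (loc_E hw (-1)) := by
    have h := (loc_e hw).toHomeomorph.contDiff_symm_deriv (f' := deriv w)
      (n := ((⊤ : ℕ∞) : WithTop ℕ∞)) (fun x => (hw.pos x).ne')
      (fun x => (hw.smooth.differentiable (by simp) x).hasDerivAt) hw.smooth
    have he : loc_E hw (-1) = (loc_e hw).toHomeomorph.symm := by
      funext x
      unfold loc_E
      rw [zpow_neg_one]; rfl
    rw [he]; exact h
  have hneg : ∀ n : ℕ, Smooth (loc_E hw (-(n : ℤ))) := by
    intro n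
    induction n with
    | zero => exact contDiff_id
    | succ n ih =>
      have : loc_E hw (-((n + 1 : ℕ) : ℤ)) = loc_E hw (-1) ∘ loc_E hw (-(n : ℤ)) := by
        funext x
        have : (-((n + 1 : ℕ) : ℤ)) = -1 + -(n : ℤ) := by push_cast; ring
        rw [this, loc_E_add]; rfl
      rw [this]
      exact hinv.comp ih
  obtain ⟨m, rfl | rfl⟩ := n.eq_nat_or_neg
  · exact hnat m
  · exact hneg m

theorem loc_E_strictMono {w : ℝ → ℝ} (hw : IncDiff w) (n : ℤ) : StrictMono (loc_E hw n) :=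
  (loc_e hw ^ n).strictMono

theorem loc_E_mono {w : ℝ → ℝ} (hw : IncDiff w) (hx : ∀ x, x < w x) {m n : ℤ} (h : m ≤ n)
    (x : ℝ) : loc_E hw m x ≤ loc_E hw n x := by
  obtain ⟨k, hk⟩ := Int.eq_ofNat_of_zero_le (sub_nonneg.2 h)
  have : n = k + m := by omega
  rw [this, loc_E_add, loc_E_nat]
  exact loc_iter_ge hx k _

theorem loc_escape {w : ℝ → ℝ} (hw : IncDiff w) (hx : ∀ x, x < w x) (x b : ℝ) :
    ∃ N : ℕ, b ≤ w^[N] x := by
  by_contra hcon
  push Not at hcon
  have hm : Monotone (fun n : ℕ => w^[n] x) := by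
    apply monotone_nat_of_le_succ
    intro n
    rw [iterate_succ_apply']; exact (hx _).le
  rcases tendsto_atTop_of_monotone hm with h | ⟨l, hl⟩
  · obtain ⟨N, hN⟩ := (h.eventually_ge_atTop b).exists
    exact absurd hN (not_le.2 (hcon N))
  · have := isFixedPt_of_tendsto_iterate hl hw.smooth.continuous.continuousAt
    exact absurd (hx l) (by rw [this.eq]; exact lt_irrefl l)

theorem loc_escape_neg {w : ℝ → ℝ} (hw : IncDiff w) (hx : ∀ x, x < w x) (x b : ℝ) :
    ∃ N : ℕ, loc_E hw (-(N : ℤ)) x ≤ b := by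
  obtain ⟨N, hN⟩ := loc_escape hw hx b x
  refine ⟨N, ?_⟩
  have := (loc_E_strictMono hw (-(N : ℤ))).monotone hN
  rw [← loc_E_nat hw, ← loc_E_add] at this
  simpa [loc_E_zero] using this

/-- a term of the sum -/
noncomputable def loc_t {w : ℝ → ℝ} (hw : IncDiff w) (n : ℤ) (x : ℝ) : ℝ :=
  loc_beta (loc_E hw n x) - (if 0 ≤ n then loc_c else 0)

/-- the sum -/
noncomputable def loc_z0 {w : ℝ → ℝ} (hw : IncDiff w) (x : ℝ) : ℝ := ∑' n : ℤ, loc_t hw n x

theorem loc_t_smooth {w : ℝ → ℝ} (hw : IncDiff w) (n : ℤ) : Smooth (loc_t hw n) :=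
  (loc_beta_smooth.comp (loc_E_smooth hw n)).sub contDiff_const

theorem loc_t_zero {w : ℝ → ℝ} (hw : IncDiff w) (hx : ∀ x, x < w x) (a b : ℝ) :
    ∃ N : ℕ, ∀ n : ℤ, n ∉ Finset.Ioo (-(N : ℤ)) N → ∀ x ∈ Icc a b, loc_t hw n x = 0 := by
  obtain ⟨N1, h1⟩ := loc_escape hw hx a 0.9
  obtain ⟨N2, h2⟩ := loc_escape_neg hw hx b 0.5
  refine ⟨N1 + N2 + 1, fun n hn x hxx => ?_⟩
  rw [Finset.mem_Ioo, not_and_or, not_lt, not_lt] at hn
  rcases hn with hn | hn
  · have h3 : loc_E hw n x ≤ 0.5 := by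
      refine le_trans ?_ h2
      refine le_trans ?_ ((loc_E_strictMono hw _).monotone hxx.2)
      apply loc_E_mono hw hx
      push_cast at hn; omega
    have h4 : ¬ 0 ≤ n := by push_cast at hn; omega
    unfold loc_t
    rw [loc_beta_lo h3, if_neg h4]; simp
  · have h3 : 0.9 ≤ loc_E hw n x := by
      refine h1.trans ?_
      rw [← loc_E_nat hw]
      refine le_trans ((loc_E_strictMono hw _).monotone hxx.1) ?_
      apply loc_E_mono hw hx
      push_cast at hn; omega
    have h4 : 0 ≤ n := by push_cast at hn; omega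
    unfold loc_t
    rw [loc_beta_hi h3, if_pos h4]; simp

theorem loc_summable {w : ℝ → ℝ} (hw : IncDiff w) (hx : ∀ x, x < w x) (x : ℝ) :
    Summable (fun n : ℤ => loc_t hw n x) := by
  obtain ⟨N, hN⟩ := loc_t_zero hw hx x x
  exact summable_of_ne_finset_zero (s := Finset.Ioo (-(N : ℤ)) N)
    (fun n hn => hN n hn x ⟨le_rfl, le_rfl⟩)

theorem loc_z0_smooth {w : ℝ → ℝ} (hw : IncDiff w) (hx : ∀ x, x < w x) : Smooth (loc_z0 hw) := by
  rw [show Smooth (loc_z0 hw) ↔ ∀ x, ContDiffAt ℝ ((⊤ : ℕ∞) : WithTop ℕ∞) (loc_z0 hw) x from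
    contDiff_iff_contDiffAt]
  intro x
  obtain ⟨N, hN⟩ := loc_t_zero hw hx (x - 1) (x + 1)
  have h1 : loc_z0 hw =ᶠ[𝓝 x] fun y => ∑ n ∈ Finset.Ioo (-(N : ℤ)) N, loc_t hw n y := by
    filter_upwards [Icc_mem_nhds (show x - 1 < x by linarith) (show x < x + 1 by linarith)]
      with y hy
    exact tsum_eq_sum (fun n hn => hN n hn y hy)
  have h2 : ContDiffAt ℝ ((⊤ : ℕ∞) : WithTop ℕ∞)
      (fun y => ∑ n ∈ Finset.Ioo (-(N : ℤ)) N, loc_t hw n y) x :=
    ContDiffAt.sum (fun n _ => (loc_t_smooth hw n).contDiffAt)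
  exact h2.congr_of_eventuallyEq h1

theorem loc_z0_w {w : ℝ → ℝ} (hw : IncDiff w) (hx : ∀ x, x < w x) (x : ℝ) :
    loc_z0 hw (w x) = loc_z0 hw x + loc_c := by
  have h1 : ∀ n : ℤ, loc_t hw n (w x) = loc_t hw (n + 1) x + (if n = -1 then loc_c else 0) := by
    intro n
    unfold loc_t
    rw [loc_E_succ]
    by_cases h : n = -1
    · subst h; simp
    · by_cases h2 : 0 ≤ n
      · have h3 : 0 ≤ n + 1 := by omega
        rw [if_pos h2, if_pos h3, if_neg h]; ring
      · have h3 : ¬ 0 ≤ n + 1 := by omega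
        rw [if_neg h2, if_neg h3, if_neg h]; ring
  have hs1 : Summable ((fun n : ℤ => loc_t hw n x) ∘ (Equiv.addRight (1 : ℤ))) :=
    (Equiv.summable_iff (Equiv.addRight (1 : ℤ))).2 (loc_summable hw hx x)
  have hs1' : Summable (fun n : ℤ => loc_t hw (n + 1) x) := hs1
  have hs2 : Summable (fun n : ℤ => if n = -1 then loc_c else 0) :=
    summable_of_ne_finset_zero (s := {-1}) (fun n hn => by
      simp only [Finset.mem_singleton] at hn; simp [hn])
  unfold loc_z0
  rw [tsum_congr h1, hs1'.tsum_add hs2, tsum_ite_eq]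
  congr 1
  exact (Equiv.addRight (1 : ℤ)).tsum_eq (fun n => loc_t hw n x)

theorem loc_z0_iter {w : ℝ → ℝ} (hw : IncDiff w) (hx : ∀ x, x < w x) (n : ℕ) (x : ℝ) :
    loc_z0 hw (w^[n] x) = loc_z0 hw x + n * loc_c := by
  induction n with
  | zero => simp
  | succ n ih => rw [iterate_succ_apply', loc_z0_w hw hx, ih]; push_cast; ring

theorem loc_z0_surj {w : ℝ → ℝ} (hw : IncDiff w) (hx : ∀ x, x < w x) : Surjective (loc_z0 hw) := by
  intro t
  apply mem_range_of_exists_le_of_exists_ge (loc_z0_smooth hw hx).continuous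
  · obtain ⟨n, hn⟩ := exists_nat_ge ((loc_z0 hw 0 - t) / loc_c)
    refine ⟨loc_E hw (-(n : ℤ)) 0, ?_⟩
    have h1 := loc_z0_iter hw hx n (loc_E hw (-(n : ℤ)) 0)
    rw [← loc_E_nat hw, ← loc_E_add] at h1
    simp only [add_neg_cancel, loc_E_zero] at h1
    rw [div_le_iff₀ loc_c_pos] at hn
    linarith
  · obtain ⟨n, hn⟩ := exists_nat_ge ((t - loc_z0 hw 0) / loc_c)
    refine ⟨w^[n] 0, ?_⟩
    rw [loc_z0_iter hw hx]
    rw [div_le_iff₀ loc_c_pos] at hn
    linarith

theorem iter_bound (R : ℕ) (C : ℝ) (hC : 0 ≤ C) : ∃ (C' : ℝ) (K₀ : ℕ), 0 ≤ C' ∧ 1 ≤ K₀ ∧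
    ∀ K : ℕ, K₀ ≤ K → ∀ w : ℝ → ℝ, IncDiff w → (∀ x, x < w x) → WHyp R C (1 / K) w →
    ∀ (Y : ℝ) (j : ℕ), 0 ≤ Y → j ≤ 2 * K → (∀ i, i < j → w^[i] Y ≤ 1) → ∀ s, 1 ≤ s → s ≤ R →
      |iteratedDeriv s (fun y => w^[j] y - y) Y| ≤ C' * (1 / K) := by
  set C1 : ℝ := R.factorial * C * 2 ^ R with hC1
  have hC1' : 0 ≤ C1 := by positivity
  obtain ⟨N, hN⟩ := exists_nat_ge (2 * C1)
  refine ⟨2 * C1, N + 1, by positivity, by omega, ?_⟩
  intro K hK w hw hx hW Y j hY hj hi
  have hK0 : (0 : ℝ) < K := by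
    have : 0 < K := by omega
    exact_mod_cast this
  have hKC : 2 * C1 * (1 / K) ≤ 1 := by
    have : (N : ℝ) + 1 ≤ K := by exact_mod_cast hK
    rw [mul_one_div, div_le_one hK0]; linarith
  -- the induction
  have main : ∀ j : ℕ, j ≤ 2 * K → (∀ i, i < j → w^[i] Y ≤ 1) → ∀ s, 1 ≤ s → s ≤ R →
      |iteratedDeriv s (fun y => w^[j] y - y) Y| ≤ j * (C1 * (1 / K) ^ 2) := by
    intro j
    induction j with
    | zero =>
      intro _ _ s _ _
      simp
    | succ j ih =>
      intro hj hi s hs1 hsR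
      have ihj := ih (by omega) (fun i h => hi i (by omega))
      have hjK : (j : ℝ) ≤ 2 * K := by
        have : j ≤ 2 * K := by omega
        exact_mod_cast this
      have hb : ∀ s, 1 ≤ s → s ≤ R → |iteratedDeriv s (fun y => w^[j] y - y) Y| ≤ 1 := by
        intro s h1 h2
        refine (ihj s h1 h2).trans ?_
        calc (j : ℝ) * (C1 * (1 / K) ^ 2) ≤ (2 * K) * (C1 * (1 / K) ^ 2) := by gcongr
          _ = 2 * C1 * (1 / K) := by field_simp
          _ ≤ 1 := hKC
      have hsm := loc_iter_smooth hw.smooth j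
      have hd : ∀ i, 1 ≤ i → i ≤ R → |iteratedDeriv i (w^[j]) Y| ≤ 2 ^ i := by
        intro i h1 h2
        have h3 := hb i h1 h2
        rw [loc_sub_id hsm Y h1] at h3
        have h4 : (2 : ℝ) ≤ 2 ^ i := by
          calc (2 : ℝ) = 2 ^ 1 := by norm_num
            _ ≤ 2 ^ i := pow_le_pow_right₀ (by norm_num) h1
        refine le_trans ?_ h4
        rw [abs_le] at h3 ⊢
        split_ifs at h3 <;> constructor <;> linarith [h3.1, h3.2]
      have hYj : w^[j] Y ∈ Icc (0 : ℝ) 1 := ⟨hY.trans (loc_iter_ge hx j Y), hi j (by omega)⟩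
      have hu : Smooth (fun y => w y - y) := hw.smooth.sub contDiff_id
      have hg : ∀ i, 1 ≤ i → i ≤ s → |iteratedDeriv i (fun y => w y - y) (w^[j] Y)| ≤
          C * (1 / K) ^ 2 := by
        intro i h1 h2
        rw [loc_sub_id hw.smooth _ h1]
        by_cases h : i = 1
        · subst h
          simpa using hW.w_one _ hYj
        · simpa [h] using hW.w_der i (by omega) (by omega) _ hYj
      have key := comp_bd (g := fun y => w y - y) (f := w^[j]) (x := Y) (n := s)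
        (C := C * (1 / K) ^ 2) (B := 2) hu.contDiffAt hsm.contDiffAt hs1 (by positivity)
        (by norm_num) hg (fun i h1 h2 => hd i h1 (h2.trans hsR))
      have hsum : (fun y => w^[j + 1] y - y) = fun y => (w^[j] y - y) + (w (w^[j] y) - w^[j] y) := by
        funext y
        rw [iterate_succ_apply']; ring
      rw [hsum, iteratedDeriv_fun_add (f := fun y => w^[j] y - y)
        (g := fun y => w (w^[j] y) - w^[j] y) (loc_at (hsm.sub contDiff_id) Y s)
        (loc_at (hu.comp hsm) Y s)]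
      have h5 : (s.factorial : ℝ) * (C * (1 / K) ^ 2) * 2 ^ s ≤ C1 * (1 / K) ^ 2 := by
        have e1 : (s.factorial : ℝ) ≤ R.factorial := by exact_mod_cast Nat.factorial_le hsR
        have e2 : (2 : ℝ) ^ s ≤ 2 ^ R := pow_le_pow_right₀ (by norm_num) hsR
        calc (s.factorial : ℝ) * (C * (1 / K) ^ 2) * 2 ^ s
            ≤ R.factorial * (C * (1 / K) ^ 2) * 2 ^ R := by gcongr
          _ = C1 * (1 / K) ^ 2 := by rw [hC1]; ring
      calc _ ≤ |iteratedDeriv s (fun y => w^[j] y - y) Y|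
            + |iteratedDeriv s (fun y => (w (w^[j] y) - w^[j] y)) Y| := abs_add_le _ _
        _ ≤ j * (C1 * (1 / K) ^ 2) + C1 * (1 / K) ^ 2 := add_le_add (ihj s hs1 hsR) (key.trans h5)
        _ = ((j + 1 : ℕ) : ℝ) * (C1 * (1 / K) ^ 2) := by push_cast; ring
  intro s hs1 hsR
  refine (main j hj hi s hs1 hsR).trans ?_
  have hjK : (j : ℝ) ≤ 2 * K := by exact_mod_cast hj
  calc (j : ℝ) * (C1 * (1 / K) ^ 2) ≤ (2 * K) * (C1 * (1 / K) ^ 2) := by gcongr
    _ = 2 * C1 * (1 / K) := by field_simp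

theorem loc_far {w : ℝ → ℝ} (hx : ∀ x, x < w x) {e : ℝ}
    (hg : ∀ Y ∈ Icc (0 : ℝ) 1, e / 2 ≤ w Y - Y) {y : ℝ} (hy : 0 ≤ y) (j : ℕ)
    (h : ∀ i, i < j → w^[i] y ≤ 1) : y + j * (e / 2) ≤ w^[j] y := by
  induction j with
  | zero => simp
  | succ j ih =>
    have h1 := ih (fun i hi => h i (by omega))
    have h2 := hg (w^[j] y) ⟨hy.trans (loc_iter_ge hx j y), h j (by omega)⟩
    rw [iterate_succ_apply']
    push_cast
    linarith

theorem loc_iter_mono {w : ℝ → ℝ} (hx : ∀ x, x < w x) {i j : ℕ} (h : i ≤ j) (y : ℝ) :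
    w^[i] y ≤ w^[j] y := by
  obtain ⟨k, rfl⟩ := Nat.exists_eq_add_of_le h
  rw [add_comm, iterate_add_apply]
  exact loc_iter_ge hx k _

theorem loc_far2 {w : ℝ → ℝ} (hx : ∀ x, x < w x) {K : ℕ} (hK : 1 ≤ K)
    (hg : ∀ Y ∈ Icc (0 : ℝ) 1, 1 / (K : ℝ) / 2 ≤ w Y - Y) {y : ℝ} (hy : 0.05 ≤ y) {j : ℕ}
    (hj : 2 * K ≤ j) : 0.9 < w^[j] y := by
  refine lt_of_lt_of_le ?_ (loc_iter_mono hx hj y)
  by_contra hcon
  rw [not_lt] at hcon
  have h1 := loc_far hx hg (show 0 ≤ y by linarith) (2 * K)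
    (fun i hi => ((loc_iter_mono hx hi.le y).trans hcon).trans (by norm_num))
  have hK0 : (0 : ℝ) < K := by exact_mod_cast hK
  have h2 : ((2 * K : ℕ) : ℝ) * (1 / (K : ℝ) / 2) = 1 := by
    push_cast; field_simp
  rw [h2] at h1
  linarith

theorem loc_z0_eq {w : ℝ → ℝ} (hw : IncDiff w) (hx : ∀ x, x < w x) {K : ℕ} (hK : 1 ≤ K)
    (hg : ∀ Y ∈ Icc (0 : ℝ) 1, 1 / (K : ℝ) / 2 ≤ w Y - Y) {y : ℝ} (hy : 0.05 ≤ y)
    (hy2 : y ≤ 0.35) :
    loc_z0 hw y = -(2 * K * loc_c) + ∑ j ∈ Finset.range (2 * K), loc_beta (w^[j] y) := by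
  have h1 : loc_z0 hw y = ∑ n ∈ (Finset.range (2 * K)).map Nat.castEmbedding, loc_t hw n y := by
    apply tsum_eq_sum
    intro n hn
    by_cases h0 : 0 ≤ n
    · obtain ⟨k, rfl⟩ := Int.eq_ofNat_of_zero_le h0
      have hk : 2 * K ≤ k := by
        by_contra hcon
        apply hn
        simp only [Finset.mem_map, Finset.mem_range, Nat.castEmbedding_apply]
        exact ⟨k, by omega, rfl⟩
      unfold loc_t
      rw [loc_E_nat, loc_beta_hi (loc_far2 hx hK hg hy hk).le, if_pos h0]; simp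
    · have h3 : loc_E hw n y ≤ 0.5 := by
        have := loc_E_mono hw hx (show n ≤ 0 by omega) y
        rw [loc_E_zero] at this
        linarith
      unfold loc_t
      rw [loc_beta_lo h3, if_neg h0]; simp
  rw [h1, Finset.sum_map]
  have h2 : ∀ j ∈ Finset.range (2 * K), loc_t hw (Nat.castEmbedding j : ℤ) y =
      loc_beta (w^[j] y) - loc_c := by
    intro j _
    unfold loc_t
    rw [Nat.castEmbedding_apply, loc_E_nat, if_pos (by omega)]
  rw [Finset.sum_congr rfl h2, Finset.sum_sub_distrib]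
  simp
  ring

/-- clamp -/
noncomputable def loc_psi (x : ℝ) : ℝ := max 0.65 (min x 0.75)

theorem loc_psi_step {w : ℝ → ℝ} (hx : ∀ x, x < w x) {e : ℝ} (he : 0 < e) (he2 : 2 * e ≤ 0.05)
    (hg : ∀ Y ∈ Icc (0 : ℝ) 1, w Y - Y ≤ 2 * e) {x : ℝ} (h0 : 0 ≤ x) :
    loc_psi (w x) - loc_psi x ≤ 2 * e * loc_phi x := by
  have h1 := hx x
  have h2 : 0 ≤ 2 * e * loc_phi x := mul_nonneg (by linarith) (loc_phi_nonneg x)
  rcases lt_or_ge 0.8 x with h | h
  · have e1 : loc_psi x = 0.75 := by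
      unfold loc_psi; rw [min_eq_right (by linarith), max_eq_right (by norm_num)]
    have e2 : loc_psi (w x) = 0.75 := by
      unfold loc_psi; rw [min_eq_right (by linarith), max_eq_right (by norm_num)]
    rw [e1, e2]; linarith
  · have h3 := hg x ⟨h0, by linarith⟩
    rcases lt_or_ge x 0.6 with h' | h'
    · have e1 : loc_psi x = 0.65 := by
        unfold loc_psi; rw [max_eq_left]; exact (min_le_left _ _).trans (by linarith)
      have e2 : loc_psi (w x) = 0.65 := by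
        unfold loc_psi; rw [max_eq_left]; exact (min_le_left _ _).trans (by linarith)
      rw [e1, e2]; linarith
    · rw [loc_phi_one h' h]
      have : loc_psi (w x) ≤ loc_psi x + (w x - x) := by
        unfold loc_psi
        rcases le_total x 0.75 with ha | ha
        · rw [min_eq_left ha]
          apply max_le
          · linarith [le_max_left (0.65 : ℝ) x]
          · exact (min_le_left _ _).trans (by linarith [le_max_right (0.65 : ℝ) x])
        · rw [min_eq_right ha, max_eq_right (by norm_num : (0.65 : ℝ) ≤ 0.75)]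
          apply max_le
          · linarith
          · exact (min_le_right _ _).trans (by linarith)
      linarith

theorem loc_sum_phi {w : ℝ → ℝ} (hx : ∀ x, x < w x) {K : ℕ} (hK : 40 ≤ K)
    (hg : ∀ Y ∈ Icc (0 : ℝ) 1, 1 / (K : ℝ) / 2 ≤ w Y - Y)
    (hg2 : ∀ Y ∈ Icc (0 : ℝ) 1, w Y - Y ≤ 2 * (1 / (K : ℝ)))
    {Y : ℝ} (h1 : 0.1 ≤ Y) (h2 : Y ≤ 0.3) :
    0.05 * K ≤ ∑ j ∈ Finset.range (2 * K), loc_phi (w^[j] Y) := by
  have hK0 : (0 : ℝ) < K := by
    have : 0 < K := by omega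
    exact_mod_cast this
  have hK40 : (40 : ℝ) ≤ K := by exact_mod_cast hK
  have he : 0 < 1 / (K : ℝ) := by positivity
  have he2 : 2 * (1 / (K : ℝ)) ≤ 0.05 := by
    rw [mul_one_div, div_le_iff₀ hK0]; linarith
  have h3 : ∑ j ∈ Finset.range (2 * K), (loc_psi (w^[j + 1] Y) - loc_psi (w^[j] Y)) = 0.1 := by
    rw [Finset.sum_range_sub (fun j => loc_psi (w^[j] Y))]
    have e1 : loc_psi (w^[2 * K] Y) = 0.75 := by
      have := loc_far2 hx (show 1 ≤ K by omega) hg (show 0.05 ≤ Y by linarith) (le_refl (2 * K))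
      unfold loc_psi; rw [min_eq_right (by linarith), max_eq_right (by norm_num)]
    have e2 : loc_psi (w^[0] Y) = 0.65 := by
      rw [iterate_zero_apply]
      unfold loc_psi; rw [max_eq_left]; exact (min_le_left _ _).trans (by linarith)
    rw [e1, e2]; norm_num
  have h4 : (0.1 : ℝ) ≤ 2 * (1 / (K : ℝ)) * ∑ j ∈ Finset.range (2 * K), loc_phi (w^[j] Y) := by
    rw [← h3, Finset.mul_sum]
    apply Finset.sum_le_sum
    intro j _
    rw [iterate_succ_apply']
    exact loc_psi_step hx he he2 hg2 ((show (0 : ℝ) ≤ Y by linarith).trans (loc_iter_ge hx j Y))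
  have h5 : 2 * (1 / (K : ℝ)) * ∑ j ∈ Finset.range (2 * K), loc_phi (w^[j] Y) * 1 =
      2 * (∑ j ∈ Finset.range (2 * K), loc_phi (w^[j] Y)) / K := by
    simp; field_simp
  simp only [mul_one] at h5
  rw [h5, le_div_iff₀ hK0] at h4
  linarith

theorem loc_E_deriv_pos {w : ℝ → ℝ} (hw : IncDiff w) (n : ℤ) (x : ℝ) :
    0 < deriv (loc_E hw n) x := by
  have h1 : 0 ≤ deriv (loc_E hw n) x := (loc_E_strictMono hw n).monotone.deriv_nonneg
  refine lt_of_le_of_ne h1 (fun h => ?_)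
  have hd1 : HasDerivAt (loc_E hw n) 0 x := by
    rw [h]
    exact ((loc_E_smooth hw n).differentiable (by simp) x).hasDerivAt
  have hd2 := ((loc_E_smooth hw (-n)).differentiable (by simp) (loc_E hw n x)).hasDerivAt
  have hd3 := hd2.comp x hd1
  have he : loc_E hw (-n) ∘ loc_E hw n = id := by
    funext y
    rw [comp_apply, ← loc_E_add]; simp [loc_E_zero]
  rw [he, mul_zero] at hd3
  have := hd3.unique (hasDerivAt_id x)
  norm_num at this

theorem loc_z0_E {w : ℝ → ℝ} (hw : IncDiff w) (hx : ∀ x, x < w x) (n : ℤ) (x : ℝ) :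
    loc_z0 hw (loc_E hw n x) = loc_z0 hw x + n * loc_c := by
  obtain ⟨m, rfl | rfl⟩ := n.eq_nat_or_neg
  · rw [loc_E_nat, loc_z0_iter hw hx]; simp
  · have h1 := loc_z0_iter hw hx m (loc_E hw (-(m : ℤ)) x)
    rw [← loc_E_nat hw, ← loc_E_add] at h1
    simp only [add_neg_cancel, loc_E_zero] at h1
    push_cast
    linarith

theorem loc_z0_pos {w : ℝ → ℝ} (hw : IncDiff w) (hx : ∀ x, x < w x)
    (hw1 : w 0.1 ≤ 0.3) (h : ∀ Y ∈ Icc (0.1 : ℝ) 0.3, 0 < deriv (loc_z0 hw) Y) (x : ℝ) :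
    0 < deriv (loc_z0 hw) x := by
  obtain ⟨n, hn, hmin⟩ := Int.exists_least_of_bdd (P := fun n : ℤ => 0.1 ≤ loc_E hw n x)
    (by
      obtain ⟨M, hM⟩ := loc_escape_neg hw hx x 0.05
      refine ⟨-(M : ℤ), fun z hz => ?_⟩
      by_contra hcon
      rw [not_le] at hcon
      have := loc_E_mono hw hx hcon.le x
      linarith)
    (by
      obtain ⟨M, hM⟩ := loc_escape hw hx x 0.1
      exact ⟨M, by rw [loc_E_nat]; exact hM⟩)
  have h1 : loc_E hw (n - 1) x < 0.1 := by
    by_contra hcon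
    rw [not_lt] at hcon
    have := hmin (n - 1) hcon
    omega
  have h2 : loc_E hw n x = w (loc_E hw (n - 1) x) := by
    have : n = 1 + (n - 1) := by ring
    conv_lhs => rw [this]
    rw [loc_E_add]
    exact loc_E_nat hw 1 _
  have h3 : loc_E hw n x ≤ 0.3 := by
    rw [h2]
    exact ((strictMono_of_deriv_pos hw.pos).monotone h1.le).trans hw1
  have h4 := h (loc_E hw n x) ⟨hn, h3⟩
  have hz := (((loc_z0_smooth hw hx).differentiable (by simp)) (loc_E hw n x)).hasDerivAt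
  have hE := ((loc_E_smooth hw n).differentiable (by simp) x).hasDerivAt
  have hc := hz.comp x hE
  have he : loc_z0 hw ∘ loc_E hw n = fun y => loc_z0 hw y + n * loc_c := by
    funext y
    exact loc_z0_E hw hx n y
  rw [he] at hc
  have hd : deriv (fun y => loc_z0 hw y + n * loc_c) x = deriv (loc_z0 hw) x := deriv_add_const _
  rw [← hd, hc.deriv]
  exact mul_pos h4 (loc_E_deriv_pos hw n x)

theorem loc_whyp {R : ℕ} {C e : ℝ} {w : ℝ → ℝ} (h : WHyp R C e w) : WHyp (max R 1) C e w := by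
  refine ⟨h.w_gap, h.w_one, fun r h1 h2 => h.w_der r h1 ?_⟩
  rcases le_max_iff.1 h2 with h3 | h3
  · exact h3
  · omega

/-- Exact Abel function with bounded derivatives. -/
theorem abel : ∃ c : ℝ, 0 < c ∧ c ≤ 1 ∧ ∀ (R : ℕ) (C : ℝ), 0 ≤ C →
    ∃ (C' c' : ℝ) (K₀ : ℕ), 1 ≤ C' ∧ 0 < c' ∧ 1 ≤ K₀ ∧
    ∀ K : ℕ, K₀ ≤ K → ∀ w : ℝ → ℝ, IncDiff w → (∀ x, x < w x) → WHyp R C (1 / K) w →
    ∃ z : ℝ → ℝ, IncDiff z ∧ (∀ x, z (w x) = z x + c / K) ∧
      ∀ Y ∈ Icc (0.1 : ℝ) 0.3, c' ≤ deriv z Y ∧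
        ∀ s, 1 ≤ s → s ≤ R → |iteratedDeriv s z Y| ≤ C' := by
  refine ⟨loc_c, loc_c_pos, loc_c_le, fun R C hC => ?_⟩
  obtain ⟨C1, K1, hC1, hK1, H⟩ := iter_bound (max R 1) C hC
  obtain ⟨B, hB1, hB⟩ := loc_beta_bdd (max R 1)
  obtain ⟨N, hN⟩ := exists_nat_ge (2 * C1)
  set M : ℝ := (max R 1).factorial * B * 2 ^ (max R 1) with hM
  have hM0 : 0 ≤ M := by positivity
  refine ⟨2 * M + 1, 0.025, max K1 (max (N + 1) 40), by linarith, by norm_num,
    le_max_of_le_left hK1, ?_⟩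
  intro K hK w hw hx hW
  have hKK1 : K1 ≤ K := (le_max_left _ _).trans hK
  have hKN : N + 1 ≤ K := ((le_max_left _ _).trans (le_max_right _ _)).trans hK
  have hK40 : 40 ≤ K := ((le_max_right _ _).trans (le_max_right _ _)).trans hK
  have hK0 : (0 : ℝ) < K := by
    have : 0 < K := by omega
    exact_mod_cast this
  have hK40' : (40 : ℝ) ≤ K := by exact_mod_cast hK40
  have hC1K : C1 * (1 / K) ≤ 1 / 2 := by
    have : (N : ℝ) + 1 ≤ K := by exact_mod_cast hKN
    rw [mul_one_div, div_le_iff₀ hK0]; linarith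
  have hg : ∀ Y ∈ Icc (0 : ℝ) 1, 1 / (K : ℝ) / 2 ≤ w Y - Y := fun Y hY => (hW.w_gap Y hY).1
  have hg2 : ∀ Y ∈ Icc (0 : ℝ) 1, w Y - Y ≤ 2 * (1 / (K : ℝ)) := fun Y hY => (hW.w_gap Y hY).2
  -- bounds on the iterates
  have hit : ∀ Y ∈ Icc (0.1 : ℝ) 0.3, ∀ j, j < 2 * K → w^[j] Y ≤ 0.9 → ∀ s, 1 ≤ s →
      s ≤ max R 1 → |iteratedDeriv s (w^[j]) Y - (if s = 1 then 1 else 0)| ≤ 1 / 2 := by
    intro Y hY j hj hj2 s h1 h2
    have h3 := H K hKK1 w hw hx (loc_whyp hW) Y j (by linarith [hY.1]) hj.le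
      (fun i hi => ((loc_iter_mono hx hi.le Y).trans hj2).trans (by norm_num)) s h1 h2
    rw [loc_sub_id (loc_iter_smooth hw.smooth j) Y h1] at h3
    exact h3.trans hC1K
  have hder : ∀ Y ∈ Icc (0.1 : ℝ) 0.3, ∀ j, j < 2 * K → w^[j] Y ≤ 0.9 →
      1 / 2 ≤ deriv (w^[j]) Y := by
    intro Y hY j hj hj2
    have h3 := hit Y hY j hj hj2 1 le_rfl (le_max_right _ _)
    rw [iteratedDeriv_one, if_pos rfl, abs_le] at h3
    linarith [h3.1]
  -- bounds on the terms
  have hterm : ∀ Y ∈ Icc (0.1 : ℝ) 0.3, ∀ j, j < 2 * K → ∀ s, 1 ≤ s → s ≤ max R 1 →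
      |iteratedDeriv s (fun y => loc_beta (w^[j] y)) Y| ≤ M := by
    intro Y hY j hj s h1 h2
    have hsm := loc_iter_smooth hw.smooth j
    rcases le_or_gt (w^[j] Y) 0.9 with h | h
    · have h3 := comp_bd (g := loc_beta) (f := w^[j]) (x := Y) (n := s) (C := B) (B := 2)
        loc_beta_smooth.contDiffAt hsm.contDiffAt h1 (by linarith) (by norm_num)
        (fun i hi1 hi2 => hB i hi1 (hi2.trans h2) _)
        (fun i hi1 hi2 => by
          have h4 := hit Y hY j hj h i hi1 (hi2.trans h2)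
          have h5 : (2 : ℝ) ≤ 2 ^ i := by
            calc (2 : ℝ) = 2 ^ 1 := by norm_num
              _ ≤ 2 ^ i := pow_le_pow_right₀ (by norm_num) hi1
          refine le_trans ?_ h5
          rw [abs_le] at h4 ⊢
          split_ifs at h4 <;> constructor <;> linarith [h4.1, h4.2])
      refine h3.trans ?_
      have e1 : (s.factorial : ℝ) ≤ (max R 1).factorial := by
        exact_mod_cast Nat.factorial_le h2
      have e2 : (2 : ℝ) ^ s ≤ 2 ^ (max R 1) := pow_le_pow_right₀ (by norm_num) h2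
      rw [hM]
      gcongr
    · have h3 : (fun y => loc_beta (w^[j] y)) =ᶠ[𝓝 Y] fun _ => loc_c := by
        filter_upwards [hsm.continuous.continuousAt.eventually (Ioi_mem_nhds h)] with t ht
        exact loc_beta_hi (le_of_lt ht)
      rw [(h3.iteratedDeriv s).eq_of_nhds, iteratedDeriv_const]
      have : s ≠ 0 := by omega
      simp [this, hM0]
  -- the local formula
  have hloc : ∀ Y ∈ Icc (0.1 : ℝ) 0.3, loc_z0 hw =ᶠ[𝓝 Y] fun y =>
      -(2 * K * loc_c) + ∑ j ∈ Finset.range (2 * K), loc_beta (w^[j] y) := by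
    intro Y hY
    filter_upwards [Icc_mem_nhds (show (0.05 : ℝ) < Y by linarith [hY.1])
      (show Y < (0.35 : ℝ) by linarith [hY.2])] with y hy
    exact loc_z0_eq hw hx (by omega) hg hy.1 hy.2
  have hD : ∀ Y ∈ Icc (0.1 : ℝ) 0.3, ∀ s, 1 ≤ s → iteratedDeriv s (loc_z0 hw) Y =
      ∑ j ∈ Finset.range (2 * K), iteratedDeriv s (fun y => loc_beta (w^[j] y)) Y := by
    intro Y hY s hs
    rw [((hloc Y hY).iteratedDeriv s).eq_of_nhds, iteratedDeriv_const_add (by omega)]
    apply iteratedDeriv_fun_sum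
    intro j _
    exact loc_at (loc_beta_smooth.comp (loc_iter_smooth hw.smooth j)) Y s
  -- the lower bound
  have hlow : ∀ Y ∈ Icc (0.1 : ℝ) 0.3, 0.025 * K ≤ deriv (loc_z0 hw) Y := by
    intro Y hY
    rw [← iteratedDeriv_one, hD Y hY 1 le_rfl]
    have h1 := loc_sum_phi hx hK40 hg hg2 hY.1 hY.2
    have h2 : ∑ j ∈ Finset.range (2 * K), loc_phi (w^[j] Y) * (1 / 2) ≤
        ∑ j ∈ Finset.range (2 * K), iteratedDeriv 1 (fun y => loc_beta (w^[j] y)) Y := by
      apply Finset.sum_le_sum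
      intro j hj
      have hj' := Finset.mem_range.1 hj
      rw [iteratedDeriv_one]
      have h3 := (loc_beta_hasDerivAt (w^[j] Y)).comp Y
        (((loc_iter_smooth hw.smooth j).differentiable (by simp) Y).hasDerivAt)
      have h4 : deriv (fun y => loc_beta (w^[j] y)) Y = loc_phi (w^[j] Y) * deriv (w^[j]) Y :=
        h3.deriv
      rw [h4]
      rcases le_or_gt (w^[j] Y) 0.9 with h | h
      · exact mul_le_mul_of_nonneg_left (hder Y hY j hj' h) (loc_phi_nonneg _)
      · rw [loc_phi_zero (Or.inr h.le)]; simp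
    rw [← Finset.sum_mul] at h2
    linarith
  have hz : Smooth (fun x => loc_z0 hw x / K) := (loc_z0_smooth hw hx).div_const _
  have hzd : ∀ x, deriv (fun x => loc_z0 hw x / K) x = deriv (loc_z0 hw) x / K :=
    fun x => deriv_div_const _
  have hpos : ∀ x, 0 < deriv (loc_z0 hw) x := by
    intro x
    apply loc_z0_pos hw hx
    · have h1 := hg2 0.1 ⟨by norm_num, by norm_num⟩
      have h2 : 2 * (1 / (K : ℝ)) ≤ 0.2 := by
        rw [mul_one_div, div_le_iff₀ hK0]; linarith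
      linarith
    · intro Y hY
      have := hlow Y hY
      have h2 : (0 : ℝ) < 0.025 * K := by positivity
      linarith
  refine ⟨fun x => loc_z0 hw x / K, ⟨hz, ?_, ?_⟩, ?_, ?_⟩
  · intro x
    rw [hzd]
    exact div_pos (hpos x) hK0
  · intro t
    obtain ⟨x, hx'⟩ := loc_z0_surj hw hx (t * K)
    exact ⟨x, by simp only []; rw [hx']; field_simp⟩
  · intro x
    simp only []
    rw [loc_z0_w hw hx, add_div]
  · intro Y hY
    constructor
    · rw [hzd, le_div_iff₀ hK0]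
      exact hlow Y hY
    · intro s h1 h2
      rw [iteratedDeriv_div_const, hD Y hY s h1, abs_div, abs_of_pos hK0, div_le_iff₀ hK0]
      calc |∑ j ∈ Finset.range (2 * K), iteratedDeriv s (fun y => loc_beta (w^[j] y)) Y|
          ≤ ∑ j ∈ Finset.range (2 * K), |iteratedDeriv s (fun y => loc_beta (w^[j] y)) Y| :=
            Finset.abs_sum_le_sum_abs _ _
        _ ≤ ∑ j ∈ Finset.range (2 * K), M := by
            apply Finset.sum_le_sum
            intro j hj
            exact hterm Y hY j (Finset.mem_range.1 hj) s h1 (h2.trans (le_max_left _ _))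
        _ = 2 * K * M := by rw [Finset.sum_const, Finset.card_range, nsmul_eq_mul]; push_cast; ring
        _ ≤ (2 * M + 1) * K := by nlinarith

end Pool.Agent.Helper638.Ros
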