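import Pool.Agent.Helper638_Ros.Calc

/-!
# Local theorem, part B: periodic perturbations with tiny period (paper 1.10 (4), (5), (6))
-/

set_option autoImplicit false

namespace Pool.Agent.Helper638.Ros

open Filter Function Set Topology

theorem locb_diff {f : ℝ → ℝ} (hf : Smooth f) (i : ℕ) : Differentiable ℝ (iteratedDeriv i f) :=
  hf.differentiable_iteratedDeriv i (by exact_mod_cast WithTop.coe_lt_coe.2 (ENat.natCast_lt_top i))

theorem locb_periodic {f : ℝ → ℝ} {T : ℝ} (h : ∀ x, f (x + T) = f x) (i : ℕ) (x : ℝ) :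
    iteratedDeriv i f (x + T) = iteratedDeriv i f x := by
  have h1 := iteratedDeriv_comp_add_const i f T
  have e : (fun z => f (z + T)) = f := funext h
  rw [e] at h1
  exact (congrFun h1 x).symm

theorem locb_mvt {g : ℝ → ℝ} (hg : Differentiable ℝ g) {B : ℝ} (hB : ∀ x, |deriv g x| ≤ B)
    (x y : ℝ) : |g y - g x| ≤ B * |y - x| := by
  have := Convex.norm_image_sub_le_of_norm_deriv_le (f := g) (C := B) (s := Set.univ) (x := x)
    (y := y) (fun z _ => hg z) (fun z _ => by simpa using hB z) convex_univ (mem_univ _)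
    (mem_univ _)
  simpa [Real.norm_eq_abs] using this

/-- Rolle: the derivatives of a periodic function with small period are small. -/
theorem locb_rolle {f : ℝ → ℝ} (hf : Smooth f) {T : ℝ} (hT : 0 < T) (h : ∀ x, f (x + T) = f x)
    {B : ℝ} (i : ℕ) (hB : ∀ x, |iteratedDeriv (i + 2) f x| ≤ B) (x : ℝ) :
    |iteratedDeriv (i + 1) f x| ≤ T * B := by
  obtain ⟨ξ, hξ, h0⟩ := exists_deriv_eq_zero (f := iteratedDeriv i f) (a := x) (b := x + T)
    (by linarith) (locb_diff hf i).continuous.continuousOn (locb_periodic h i x).symm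
  rw [← iteratedDeriv_succ] at h0
  have hB0 : 0 ≤ B := (abs_nonneg _).trans (hB x)
  have h1 := locb_mvt (locb_diff hf (i + 1)) (B := B) (fun y => by
    rw [← iteratedDeriv_succ]; exact hB y) ξ x
  rw [h0, sub_zero] at h1
  refine h1.trans ?_
  rw [mul_comm]
  refine mul_le_mul_of_nonneg_right ?_ hB0
  rw [abs_le]
  constructor <;> linarith [hξ.1, hξ.2]

theorem locb_small {f : ℝ → ℝ} (hf : Smooth f) {T : ℝ} (hT : 0 < T) (h : ∀ x, f (x + T) = f x)
    {B : ℝ} (L : ℕ) (hB : ∀ x, |iteratedDeriv L f x| ≤ B) :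
    ∀ j, j + 1 ≤ L → ∀ x, |iteratedDeriv (L - j) f x| ≤ T ^ j * B := by
  intro j
  induction j with
  | zero => intro _ x; simpa using hB x
  | succ j ih =>
    intro hj x
    have ih' := ih (by omega)
    obtain ⟨i, hi⟩ : ∃ i, L = j + i + 2 := ⟨L - j - 2, by omega⟩
    have e1 : L - j = i + 2 := by omega
    have e2 : L - (j + 1) = i + 1 := by omega
    rw [e1] at ih'
    rw [e2]
    have := locb_rolle hf hT h i ih' x
    calc |iteratedDeriv (i + 1) f x| ≤ T * (T ^ j * B) := this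
      _ = T ^ (j + 1) * B := by ring

theorem locb_osc {f : ℝ → ℝ} (hf : Smooth f) {T : ℝ} (hT : 0 < T) (h : ∀ x, f (x + T) = f x)
    {B : ℝ} (hB : ∀ x, |iteratedDeriv 1 f x| ≤ B) (x : ℝ) : |f x - f 0| ≤ T * B := by
  have hp : Function.Periodic f T := h
  obtain ⟨y, hy, hxy⟩ := hp.exists_mem_Ico₀ hT x
  rw [hxy]
  have hB0 : 0 ≤ B := (abs_nonneg _).trans (hB x)
  have hd : Differentiable ℝ f := hf.differentiable (by simp)
  have h1 := locb_mvt hd (B := B) (fun y => by
    rw [← iteratedDeriv_one]; exact hB y) 0 y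
  refine h1.trans ?_
  rw [mul_comm]
  refine mul_le_mul_of_nonneg_right ?_ hB0
  rw [abs_le]
  constructor <;> linarith [hy.1, hy.2]

theorem locb_iter_smooth {v : ℝ → ℝ} (hv : Smooth v) (b : ℕ) : Smooth (v^[b]) := by
  induction b with
  | zero => exact contDiff_id
  | succ b ih => rw [Function.iterate_succ]; exact ih.comp hv

/-- The iterates of a tiny perturbation of a translation. -/
theorem locb_iter {v : ℝ → ℝ} (hv : Smooth v) (p : ℝ) (R : ℕ) {η : ℝ} (hη : 0 ≤ η)
    (h : ∀ s, s ≤ R → ∀ x, |iteratedDeriv s (fun y => v y - y - p) x| ≤ η) :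
    ∀ b : ℕ, (b : ℝ) * (R.factorial * 2 ^ R * η) ≤ 1 → ∀ s, s ≤ R → ∀ x,
      |iteratedDeriv s (fun y => v^[b] y - y - b * p) x| ≤ b * (R.factorial * 2 ^ R * η) := by
  have hQ : 0 ≤ R.factorial * 2 ^ R * η := by positivity
  have he0 : Smooth (fun y => v y - y - p) := (hv.sub contDiff_id).sub contDiff_const
  intro b
  induction b with
  | zero =>
    intro _ s _ x
    simp [iteratedDeriv_fun_const_zero]
  | succ b ih =>
    intro hb s hs x
    push_cast at hb ⊢
    have hb' : (b : ℝ) * (R.factorial * 2 ^ R * η) ≤ 1 := by nlinarith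
    have ih' := ih hb'
    have hvb : Smooth (v^[b]) := locb_iter_smooth hv b
    have hEb : Smooth (fun y => v^[b] y - y - b * p) := (hvb.sub contDiff_id).sub contDiff_const
    have hcomp : Smooth (fun y => (fun z => v z - z - p) (v^[b] y)) := he0.comp hvb
    have hsplit : (fun y => v^[b + 1] y - y - ((b : ℝ) + 1) * p) =
        fun y => (v^[b] y - y - b * p) + (fun z => v z - z - p) (v^[b] y) := by
      funext y
      rw [Function.iterate_succ_apply']
      ring
    rw [hsplit, iteratedDeriv_fun_add (hEb.contDiffAt.of_le (by exact_mod_cast le_top))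
      (hcomp.contDiffAt.of_le (by exact_mod_cast le_top))]
    refine (abs_add_le _ _).trans ?_
    have h1 := ih' s hs x
    have h2 : |iteratedDeriv s (fun y => (fun z => v z - z - p) (v^[b] y)) x| ≤
        R.factorial * 2 ^ R * η := by
      rcases Nat.eq_zero_or_pos s with h0 | h0
      · subst h0
        rw [iteratedDeriv_zero]
        have h3 := h 0 hs (v^[b] x)
        rw [iteratedDeriv_zero] at h3
        refine h3.trans ?_
        have h4 : (1 : ℝ) ≤ R.factorial * 2 ^ R := by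
          have h5 : (1 : ℝ) ≤ R.factorial := by exact_mod_cast R.factorial_pos
          have h6 : (1 : ℝ) ≤ 2 ^ R := one_le_pow₀ (by norm_num)
          nlinarith
        nlinarith
      · have h3 := comp_bd (g := fun z => v z - z - p) (f := v^[b]) (x := x)
          he0.contDiffAt hvb.contDiffAt (n := s) h0 (C := η) (B := 2) hη (by norm_num)
          (fun i _ hi => h i (hi.trans hs) _) (fun i hi1 hi => by
            have e : (v^[b]) = fun y => (v^[b] y - y - b * p) + (b * p + y) := by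
              funext y; ring
            have hl : Smooth (fun y : ℝ => b * p + y) := contDiff_const.add contDiff_id
            rw [e, iteratedDeriv_fun_add (hEb.contDiffAt.of_le (by exact_mod_cast le_top))
              (hl.contDiffAt.of_le (by exact_mod_cast le_top)),
              iteratedDeriv_const_add hi1, iteratedDeriv_fun_id]
            have h7 := ih' i (hi.trans hs) x
            have h8 : |(if i = 0 then x else if i = 1 then 1 else 0 : ℝ)| ≤ 1 := by
              rw [if_neg (by omega)]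
              split_ifs <;> norm_num
            have h9 : (2 : ℝ) ≤ 2 ^ i := by
              calc (2 : ℝ) = 2 ^ 1 := by norm_num
                _ ≤ 2 ^ i := pow_le_pow_right₀ (by norm_num) hi1
            refine (abs_add_le _ _).trans ?_
            linarith)
        refine h3.trans ?_
        have h5 : (s.factorial : ℝ) ≤ R.factorial := by exact_mod_cast Nat.factorial_le hs
        have h6 : (2 : ℝ) ^ s ≤ 2 ^ R := pow_le_pow_right₀ (by norm_num) hs
        calc (s.factorial : ℝ) * η * 2 ^ s ≤ R.factorial * η * 2 ^ R := by gcongr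
          _ = R.factorial * 2 ^ R * η := by ring
    linarith

theorem periodic_power (c : ℝ) (hc : 0 < c) (hc1 : c ≤ 1) (R E : ℕ) (C : ℝ) (hC : 0 ≤ C) :
    ∃ (C' : ℝ) (K₀ : ℕ), 0 ≤ C' ∧ 1 ≤ K₀ ∧ ∀ K : ℕ, K₀ ≤ K → ∀ v : ℝ → ℝ, Smooth v →
      (∀ x, v (x + c / K) = v x + c / K) → (∀ x, x < v x) →
      (∀ s, 1 ≤ s → s ≤ R + 2 * E + 3 → ∀ x, |iteratedDeriv s (fun y => v y - y) x| ≤ C) →
      ∃ b a : ℕ, 1 ≤ b ∧ ∀ s, s ≤ R → ∀ x,
        |iteratedDeriv s (fun y => v^[b] y - a * (c / K) - y) x| ≤ C' * (1 / K) ^ (E + 1) := by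
  obtain ⟨K₀, hK₀⟩ := exists_nat_ge (R.factorial * 2 ^ R * C)
  refine ⟨1 + R.factorial * 2 ^ R * C, K₀ + 1, by positivity, by omega, ?_⟩
  intro K hK v hv hper hgt hbd
  have hK1 : 1 ≤ K := by omega
  have hKpos : (0 : ℝ) < K := by exact_mod_cast hK1
  have hK1' : (1 : ℝ) ≤ K := by exact_mod_cast hK1
  have hKbig : R.factorial * 2 ^ R * C ≤ (K : ℝ) := by
    refine hK₀.trans ?_
    exact_mod_cast (by omega : K₀ ≤ K)
  set T : ℝ := c / K with hT
  have hTpos : 0 < T := by positivity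
  have hTle : T ≤ 1 / K := by
    rw [hT]; gcongr
  have hTle1 : T ≤ 1 := hTle.trans (by rw [div_le_one hKpos]; exact hK1')
  set p : ℝ := v 0 - 0 with hp
  have hppos : 0 < p := by rw [hp]; linarith [hgt 0]
  have hps : Smooth (fun y => v y - y) := hv.sub contDiff_id
  have hpp : ∀ x, (fun y => v y - y) (x + T) = (fun y => v y - y) x := by
    intro x
    simp only [hper]; ring
  have hL : ∀ x, |iteratedDeriv (R + 2 * E + 3) (fun y => v y - y) x| ≤ C :=
    hbd _ (by omega) le_rfl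
  have hsm : ∀ s, 1 ≤ s → s ≤ R + 1 → ∀ x,
      |iteratedDeriv s (fun y => v y - y) x| ≤ T ^ (2 * E + 2) * C := by
    intro s hs1 hs2 x
    have h1 := locb_small hps hTpos hpp (R + 2 * E + 3) hL (R + 2 * E + 3 - s) (by omega) x
    have e : R + 2 * E + 3 - (R + 2 * E + 3 - s) = s := by omega
    rw [e] at h1
    refine h1.trans (mul_le_mul_of_nonneg_right ?_ hC)
    exact pow_le_pow_of_le_one hTpos.le hTle1 (by omega)
  have hsm' : ∀ s, 1 ≤ s → s ≤ R → ∀ x,
      |iteratedDeriv s (fun y => v y - y) x| ≤ T ^ (2 * E + 3) * C := by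
    intro s hs1 hs2 x
    have h1 := locb_small hps hTpos hpp (R + 2 * E + 3) hL (R + 2 * E + 3 - s) (by omega) x
    have e : R + 2 * E + 3 - (R + 2 * E + 3 - s) = s := by omega
    rw [e] at h1
    refine h1.trans (mul_le_mul_of_nonneg_right ?_ hC)
    exact pow_le_pow_of_le_one hTpos.le hTle1 (by omega)
  set η : ℝ := T ^ (2 * E + 3) * C with hη
  have hη0 : 0 ≤ η := by positivity
  have he : ∀ s, s ≤ R → ∀ x, |iteratedDeriv s (fun y => v y - y - p) x| ≤ η := by
    intro s hs x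
    rcases Nat.eq_zero_or_pos s with h0 | h0
    · subst h0
      rw [iteratedDeriv_zero]
      have h1 := locb_osc hps hTpos hpp (hsm 1 le_rfl (by omega)) x
      refine h1.trans (le_of_eq ?_)
      rw [hη]; ring
    · have e : (fun y => v y - y - p) = fun y => -p + (v y - y) := by funext y; ring
      rw [e, iteratedDeriv_const_add h0]
      exact hsm' s h0 hs x
  set Q : ℝ := R.factorial * 2 ^ R * η with hQ
  have hQ0 : 0 ≤ Q := by positivity
  have hQle : (K : ℝ) ^ (E + 1) * Q ≤ R.factorial * 2 ^ R * C * (1 / K) ^ (E + 2) := by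
    have h1 : T ^ (2 * E + 3) ≤ (1 / (K : ℝ)) ^ (2 * E + 3) :=
      pow_le_pow_left₀ hTpos.le hTle _
    have h2 : (K : ℝ) ^ (E + 1) * (1 / (K : ℝ)) ^ (2 * E + 3) = (1 / (K : ℝ)) ^ (E + 2) := by
      rw [one_div, show 2 * E + 3 = (E + 1) + (E + 2) by ring, pow_add _ (E + 1) (E + 2),
        ← mul_assoc, ← mul_pow, mul_inv_cancel₀ hKpos.ne', one_pow, one_mul]
    calc (K : ℝ) ^ (E + 1) * Q = R.factorial * 2 ^ R * C * ((K : ℝ) ^ (E + 1) * T ^ (2 * E + 3)) := by
          rw [hQ, hη]; ring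
      _ ≤ R.factorial * 2 ^ R * C * ((K : ℝ) ^ (E + 1) * (1 / (K : ℝ)) ^ (2 * E + 3)) := by
          gcongr
      _ = _ := by rw [h2]
  have hinv1 : (1 / (K : ℝ)) ≤ 1 := by rw [div_le_one hKpos]; exact hK1'
  have hinv0 : 0 ≤ (1 / (K : ℝ)) := by positivity
  have hNQ1 : (K : ℝ) ^ (E + 1) * Q ≤ 1 := by
    refine hQle.trans ?_
    calc R.factorial * 2 ^ R * C * (1 / (K : ℝ)) ^ (E + 2) ≤ K * (1 / (K : ℝ)) ^ (E + 2) := by
          gcongr
      _ = (1 / (K : ℝ)) ^ (E + 1) := by
          rw [pow_succ]; field_simp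
      _ ≤ 1 := pow_le_one₀ hinv0 hinv1
  have hNQ2 : (K : ℝ) ^ (E + 1) * Q ≤ R.factorial * 2 ^ R * C * (1 / (K : ℝ)) ^ (E + 1) := by
    refine hQle.trans ?_
    gcongr ?_ * ?_
    exact pow_le_pow_of_le_one hinv0 hinv1 (by omega)
  have hN : 0 < K ^ (E + 1) := by positivity
  obtain ⟨j, k, hk0, hkN, hjk⟩ := Real.exists_int_int_abs_mul_sub_le (p / T) hN
  have hj0 : 0 ≤ j := by
    by_contra hneg
    have h1 : j ≤ -1 := by omega
    have h2 : (j : ℝ) ≤ -1 := by exact_mod_cast h1
    have h3 : (0 : ℝ) < k * (p / T) := by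
      have : (0 : ℝ) < k := by exact_mod_cast hk0
      positivity
    have h4 := (abs_le.1 hjk).2
    have h5 : 1 / (((K ^ (E + 1) : ℕ) : ℝ) + 1) < 1 := by
      rw [div_lt_one (by positivity)]
      have : (0 : ℝ) < ((K ^ (E + 1) : ℕ) : ℝ) := by exact_mod_cast hN
      linarith
    linarith
  obtain ⟨b, rfl⟩ : ∃ b : ℕ, k = b := ⟨k.toNat, by omega⟩
  obtain ⟨a, rfl⟩ : ∃ a : ℕ, j = a := ⟨j.toNat, by omega⟩
  have hb1 : 1 ≤ b := by omega
  have hbN : b ≤ K ^ (E + 1) := by exact_mod_cast hkN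
  have hbN' : (b : ℝ) ≤ (K : ℝ) ^ (E + 1) := by exact_mod_cast hbN
  have hbQ : (b : ℝ) * Q ≤ (K : ℝ) ^ (E + 1) * Q := mul_le_mul_of_nonneg_right hbN' hQ0
  have hE := locb_iter hv p R hη0 he b (hbQ.trans hNQ1)
  have hdir : |(b : ℝ) * p - a * T| ≤ (1 / (K : ℝ)) ^ (E + 1) := by
    have h1 : (b : ℝ) * p - a * T = T * (((b : ℤ) : ℝ) * (p / T) - ((a : ℤ) : ℝ)) := by
      push_cast
      field_simp
    rw [h1, abs_mul, abs_of_pos hTpos]
    calc T * |((b : ℤ) : ℝ) * (p / T) - ((a : ℤ) : ℝ)| ≤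
          1 * (1 / (((K ^ (E + 1) : ℕ) : ℝ) + 1)) := by gcongr
      _ ≤ (1 / (K : ℝ)) ^ (E + 1) := by
          rw [one_mul, one_div_pow]
          apply one_div_le_one_div_of_le (by positivity)
          push_cast
          linarith
  refine ⟨b, a, hb1, ?_⟩
  intro s hs x
  have hEs := hE s hs x
  have hfin : (b : ℝ) * Q ≤ R.factorial * 2 ^ R * C * (1 / (K : ℝ)) ^ (E + 1) := hbQ.trans hNQ2
  rcases Nat.eq_zero_or_pos s with h0 | h0
  · subst h0
    rw [iteratedDeriv_zero] at hEs ⊢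
    have e : v^[b] x - a * T - x = (v^[b] x - x - b * p) + (b * p - a * T) := by ring
    rw [e]
    refine (abs_add_le _ _).trans ?_
    rw [add_mul, one_mul]
    linarith
  · have e : (fun y => v^[b] y - a * T - y) =
        fun y => (b * p - a * T) + (v^[b] y - y - b * p) := by
      funext y; ring
    rw [e, iteratedDeriv_const_add h0]
    refine hEs.trans (hfin.trans ?_)
    rw [add_mul, one_mul]
    have : 0 ≤ (1 / (K : ℝ)) ^ (E + 1) := by positivity
    linarith

end Pool.Agent.Helper638.Ros
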