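import Pool.Agent.Helper638_Ros.LocA
import Pool.Agent.Helper638_Ros.LocB
import Pool.Agent.Helper638_Ros.Block

/-!
# The local theorem (paper 1.10)
-/

set_option autoImplicit false

namespace Pool.Agent.Helper638.Ros

open Filter Function Set Topology

theorem IncDiff.locc_strictMono {f : ℝ → ℝ} (hf : IncDiff f) : StrictMono f :=
  strictMono_of_deriv_pos hf.pos

theorem IncDiff.locc_diff {f : ℝ → ℝ} (hf : IncDiff f) : Differentiable ℝ f :=
  hf.smooth.differentiable (by simp)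

theorem locc_inv {z : ℝ → ℝ} (hz : IncDiff z) :
    ∃ k : ℝ → ℝ, IncDiff k ∧ (∀ x, k (z x) = x) ∧ (∀ x, z (k x) = x) := by
  let e : ℝ ≃ₜ ℝ := (hz.locc_strictMono.orderIsoOfSurjective z hz.surj).toHomeomorph
  have hs : Smooth (e.symm : ℝ → ℝ) :=
    e.contDiff_symm_deriv (f' := deriv z) (fun x => (hz.pos x).ne')
      (fun x => (hz.locc_diff x).hasDerivAt) hz.smooth
  refine ⟨e.symm, ⟨hs, ?_, e.symm.surjective⟩, fun x => e.symm_apply_apply x,
    fun x => e.apply_symm_apply x⟩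
  intro x
  have h1 : HasDerivAt z (deriv z (e.symm x)) (e.symm x) := (hz.locc_diff _).hasDerivAt
  have h2 : HasDerivAt (e.symm : ℝ → ℝ) (deriv z (e.symm x))⁻¹ x := by
    refine HasDerivAt.of_local_left_inverse hs.continuous.continuousAt h1 (hz.pos _).ne' ?_
    exact Eventually.of_forall (fun y => e.apply_symm_apply y)
  rw [h2.deriv]
  exact inv_pos.2 (hz.pos _)

theorem locc_comp {f g : ℝ → ℝ} (hf : IncDiff f) (hg : IncDiff g) :
    IncDiff (fun x => f (g x)) := by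
  refine ⟨hf.smooth.comp hg.smooth, fun x => ?_, hf.surj.comp hg.surj⟩
  have : (fun x => f (g x)) = f ∘ g := rfl
  rw [this, deriv_comp x (hf.locc_diff _) (hg.locc_diff _)]
  exact mul_pos (hf.pos _) (hg.pos _)

theorem locc_iter {f : ℝ → ℝ} (hf : IncDiff f) (n : ℕ) : IncDiff (f^[n]) := by
  induction n with
  | zero => exact ⟨contDiff_id, fun x => by simp, surjective_id⟩
  | succ n ih =>
    rw [Function.iterate_succ]
    show IncDiff (fun x => f^[n] (f x))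
    exact locc_comp ih hf

theorem locc_sub {f : ℝ → ℝ} (hf : IncDiff f) (t : ℝ) : IncDiff (fun x => f x - t) := by
  refine ⟨hf.smooth.sub contDiff_const, fun x => ?_, fun y => ?_⟩
  · rw [deriv_sub_const]
    exact hf.pos x
  · obtain ⟨x, hx⟩ := hf.surj (y + t)
    exact ⟨x, by simp only [hx]; ring⟩

theorem locc_pow_le {M : ℝ} (hM : 1 ≤ M) {i n : ℕ} (h : i ≤ n) : M ^ i ≤ M ^ n :=
  pow_le_pow_right₀ hM h

theorem locc_le_pow {M : ℝ} (hM : 1 ≤ M) {i : ℕ} (h : 1 ≤ i) : M ≤ M ^ i := by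
  calc M = M ^ 1 := (pow_one M).symm
    _ ≤ M ^ i := pow_le_pow_right₀ hM h

theorem locc_comp_bd {g f : ℝ → ℝ} {x : ℝ} (hg : Smooth g) (hf : Smooth f) {n N : ℕ}
    (hn : 1 ≤ n) (hN : n ≤ N) {C B : ℝ} (hC : 0 ≤ C) (hB : 1 ≤ B)
    (h1 : ∀ i, 1 ≤ i → i ≤ N → |iteratedDeriv i g (f x)| ≤ C)
    (h2 : ∀ i, 1 ≤ i → i ≤ N → |iteratedDeriv i f x| ≤ B) :
    |iteratedDeriv n (fun y => g (f y)) x| ≤ N.factorial * C * B ^ N := by
  have h3 := comp_bd (g := g) (f := f) (x := x) hg.contDiffAt hf.contDiffAt (n := n) hn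
    (C := C) (B := B) hC (by linarith) (fun i hi1 hi2 => h1 i hi1 (hi2.trans hN))
    (fun i hi1 hi2 => (h2 i hi1 (hi2.trans hN)).trans (locc_le_pow hB hi1))
  refine h3.trans ?_
  have h5 : (n.factorial : ℝ) ≤ N.factorial := by exact_mod_cast Nat.factorial_le hN
  have h6 : B ^ n ≤ B ^ N := locc_pow_le hB hN
  have h7 : 0 ≤ B ^ n := by positivity
  gcongr

theorem locc_iter_add {w z : ℝ → ℝ} {t : ℝ} (h : ∀ x, z (w x) = z x + t) (a : ℕ) (x : ℝ) :
    z (w^[a] x) = z x + a * t := by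
  induction a with
  | zero => simp
  | succ a ih =>
    rw [Function.iterate_succ_apply', h, ih]; push_cast; ring

/-- a point of `[z .1, z .3]` is the image of a point of `[.1, .3]` -/
theorem locc_mem {z k : ℝ → ℝ} (hz : IncDiff z) (hzk : ∀ x, z (k x) = x) {a b t : ℝ}
    (h1 : z a ≤ t) (h2 : t ≤ z b) : k t ∈ Icc a b := by
  constructor
  · rw [← hz.locc_strictMono.le_iff_le, hzk]; exact h1
  · rw [← hz.locc_strictMono.le_iff_le, hzk]; exact h2

theorem local_thm (R E : ℕ) (C : ℝ) (hC : 0 ≤ C) : ∃ K₀ : ℕ, 1 ≤ K₀ ∧ ∀ K : ℕ, K₀ ≤ K →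
    ∀ w v : ℝ → ℝ, IncDiff w → IncDiff v → (∀ x, w (v x) = v (w x)) → (∀ x, x < w x) →
    (∀ x, x < v x) →
    LocHyp (R + 2 * E + 3) C (1 / K) w v →
    ∃ b a : ℕ, 1 ≤ b ∧ ∃ V : ℝ → ℝ, IncDiff V ∧ (∀ x, w^[a] (V x) = v^[b] x) ∧
      ∀ Y ∈ Icc (0.15 : ℝ) 0.25, ∀ s, s ≤ R →
        |iteratedDeriv s (fun y => V y - y) Y| ≤ (1 / K) ^ E := by
  obtain ⟨c, hc0, hc1, habel⟩ := abel
  obtain ⟨C₁, c₁, K₁, hC₁, hc₁, hK₁, habel'⟩ := habel (R + 2 * E + 3) C hC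
  obtain ⟨Ci, ei, hCi, hinv⟩ := inv_bd (R + 2 * E + 3)
  obtain ⟨C₃, e₃, hC₃, hsub⟩ := comp_sub_bd R
  obtain ⟨N, hN⟩ : ∃ N, N = R + 2 * E + 3 := ⟨_, rfl⟩
  rw [← hN] at habel' hinv ⊢
  obtain ⟨B, hB⟩ : ∃ B, B = max C₁ (1 / c₁) := ⟨_, rfl⟩
  have hB1 : 1 ≤ B := by rw [hB]; exact hC₁.trans (le_max_left _ _)
  have hBC : C₁ ≤ B := by rw [hB]; exact le_max_left _ _
  have hBc : 1 / B ≤ c₁ := by
    rw [div_le_iff₀ (by linarith)]
    have : 1 / c₁ ≤ B := by rw [hB]; exact le_max_right _ _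
    rw [div_le_iff₀ hc₁] at this
    linarith
  obtain ⟨M₁, hM₁⟩ : ∃ M, M = Ci * B ^ ei := ⟨_, rfl⟩
  have hM₁1 : 1 ≤ M₁ := by
    rw [hM₁]
    have : 1 ≤ B ^ ei := one_le_pow₀ hB1
    nlinarith
  obtain ⟨M₂, hM₂⟩ : ∃ M, M = 1 + N.factorial * C * M₁ ^ N := ⟨_, rfl⟩
  have hM₂0 : 0 ≤ N.factorial * C * M₁ ^ N := by positivity
  have hM₂1 : 1 ≤ M₂ := by rw [hM₂]; linarith
  obtain ⟨M₃, hM₃⟩ : ∃ M, M = N.factorial * C₁ * M₂ ^ N + 1 := ⟨_, rfl⟩
  have hM₃0 : 0 ≤ M₃ := by rw [hM₃]; positivity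
  obtain ⟨C₂, K₂, hC₂, hK₂, hpp⟩ := periodic_power c hc0 hc1 R E M₃ hM₃0
  rw [← hN] at hpp
  obtain ⟨B', hB'⟩ : ∃ M, M = M₁ + C₁ + R.factorial * C₂ * B ^ R := ⟨_, rfl⟩
  have hB'0 : 0 ≤ R.factorial * C₂ * B ^ R := by positivity
  have hB'1 : 1 ≤ B' := by rw [hB']; linarith
  obtain ⟨K₃, hK₃⟩ := exists_nat_ge (C₃ * B' ^ e₃ * (R.factorial * C₂ * B ^ R))
  obtain ⟨K₄, hK₄⟩ := exists_nat_ge (C₂ / (0.05 * c₁))
  refine ⟨K₁ + K₂ + K₃ + K₄ + 40, by omega, ?_⟩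
  intro K hK w v hw hv hwv hwgt hvgt hloc
  have hKpos : (0 : ℝ) < K := by exact_mod_cast (by omega : 0 < K)
  have hK1 : (1 : ℝ) ≤ K := by exact_mod_cast (by omega : 1 ≤ K)
  have hK40 : (40 : ℝ) ≤ K := by exact_mod_cast (by omega : 40 ≤ K)
  have hKK₃ : C₃ * B' ^ e₃ * (R.factorial * C₂ * B ^ R) ≤ (K : ℝ) :=
    hK₃.trans (by exact_mod_cast (by omega : K₃ ≤ K))
  have hKK₄ : C₂ / (0.05 * c₁) ≤ (K : ℝ) :=
    hK₄.trans (by exact_mod_cast (by omega : K₄ ≤ K))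
  have hinvK : 1 / (K : ℝ) ≤ 1 / 40 := one_div_le_one_div_of_le (by norm_num) hK40
  have hinvK0 : 0 < 1 / (K : ℝ) := by positivity
  obtain ⟨z, hz, hzw, hzbd⟩ := habel' K (by omega) w hw hwgt ⟨hloc.w_gap, hloc.w_one, hloc.w_der⟩
  obtain ⟨k, hk, hkz, hzk⟩ := locc_inv hz
  -- bounds for the inverse
  have hkbd : ∀ Y ∈ Icc (0.1 : ℝ) 0.3, ∀ i, 1 ≤ i → i ≤ N → |iteratedDeriv i k (z Y)| ≤ M₁ := by
    intro Y hY i hi1 hi2
    rw [hM₁]
    have hYc := hzbd Y hY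
    refine hinv z k (z Y) B hz.smooth.contDiffAt hk.smooth.contDiffAt
      (Eventually.of_forall hzk) hB1 ?_ ?_ i hi1 hi2
    · rw [hkz]
      exact hBc.trans (hYc.1.trans (le_abs_self _))
    · intro j hj1 hj2
      rw [hkz]
      exact (hYc.2 j hj1 hj2).trans hBC
  -- the conjugated map
  obtain ⟨vh, hvh⟩ : ∃ vh : ℝ → ℝ, vh = fun x => z (v (k x)) := ⟨_, rfl⟩
  have hvhI : IncDiff vh := by rw [hvh]; exact locc_comp hz (locc_comp hv hk)
  have hvz : ∀ x, vh (z x) = z (v x) := by intro x; rw [hvh]; simp only [hkz]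
  have hvhper : ∀ x, vh (x + c / K) = vh x + c / K := by
    intro x
    obtain ⟨y, rfl⟩ := hz.surj x
    rw [← hzw, hvz, hvz, ← hwv, hzw]
  have hvhgt : ∀ x, x < vh x := by
    intro x
    obtain ⟨y, rfl⟩ := hz.surj x
    rw [hvz]
    exact hz.locc_strictMono (hvgt y)
  have hTpos : 0 < c / (K : ℝ) := by positivity
  have hvhs : Smooth (fun y => vh y - y) := hvhI.smooth.sub contDiff_id
  have hloc1 : ∀ Y ∈ Icc (0.15 : ℝ) 0.2, ∀ s, 1 ≤ s → s ≤ N →
      |iteratedDeriv s (fun y => vh y - y) (z Y)| ≤ M₃ := by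
    intro Y hY s hs1 hs2
    have hY' : Y ∈ Icc (0.1 : ℝ) 0.3 := ⟨by linarith [hY.1], by linarith [hY.2]⟩
    have hY01 : Y ∈ Icc (0 : ℝ) 1 := ⟨by linarith [hY.1], by linarith [hY.2]⟩
    have hvY := hloc.v_gap Y hY01
    have hvY' : v Y ∈ Icc (0.1 : ℝ) 0.3 := ⟨by linarith [hY.1], by linarith [hY.2]⟩
    have h1 : ∀ i, 1 ≤ i → i ≤ N → |iteratedDeriv i (fun x => v (k x)) (z Y)| ≤ M₂ := by
      intro i hi1 hi2
      have := locc_comp_bd (g := v) (f := k) (x := z Y) hv.smooth hk.smooth hi1 hi2 (C := C)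
        (B := M₁) hC hM₁1 (fun j hj1 hj2 => by rw [hkz]; exact hloc.v_der j hj1 (by omega) Y hY01)
        (hkbd Y hY')
      rw [hM₂]; linarith
    have h2 : |iteratedDeriv s vh (z Y)| ≤ N.factorial * C₁ * M₂ ^ N := by
      rw [hvh]
      refine locc_comp_bd (g := z) (f := fun x => v (k x)) (x := z Y) hz.smooth
        (hv.smooth.comp hk.smooth) hs1 hs2 (by linarith) hM₂1 ?_ h1
      intro i hi1 hi2
      simp only [hkz]
      exact (hzbd _ hvY').2 i hi1 hi2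
    have hid : ContDiffAt ℝ s (fun y : ℝ => y) (z Y) := contDiffAt_id
    rw [iteratedDeriv_fun_sub (hvhI.smooth.contDiffAt.of_le (by exact_mod_cast le_top))
      hid, iteratedDeriv_fun_id]
    have h8 : |(if s = 0 then z Y else if s = 1 then 1 else 0 : ℝ)| ≤ 1 := by
      rw [if_neg (by omega)]
      split_ifs <;> norm_num
    rw [hM₃]
    refine (abs_sub _ _).trans ?_
    linarith
  have hall : ∀ s, 1 ≤ s → s ≤ N → ∀ x, |iteratedDeriv s (fun y => vh y - y) x| ≤ M₃ := by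
    intro s hs1 hs2 x
    have hp : Function.Periodic (iteratedDeriv s (fun y => vh y - y)) (c / K) := by
      refine locb_periodic ?_ s
      intro y
      simp only [hvhper]; ring
    obtain ⟨y, hy, hxy⟩ := hp.exists_mem_Ico hTpos x (z 0.15)
    rw [hxy]
    rw [← hzw] at hy
    have h1 := locc_mem hz hzk hy.1 hy.2.le
    have h2 := (hloc.w_gap 0.15 ⟨by norm_num, by norm_num⟩).2
    have h3 : k y ∈ Icc (0.15 : ℝ) 0.2 := ⟨h1.1, by linarith [h1.2]⟩
    have h4 := hloc1 (k y) h3 s hs1 hs2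
    rwa [hzk] at h4
  obtain ⟨b, a, hb1, hba⟩ := hpp K (by omega) vh hvhI.smooth hvhper hvhgt hall
  obtain ⟨Vh, hVh⟩ : ∃ Vh : ℝ → ℝ, Vh = fun x => vh^[b] x - a * (c / K) := ⟨_, rfl⟩
  have hVhI : IncDiff Vh := by rw [hVh]; exact locc_sub (locc_iter hvhI b) _
  have hVhz : ∀ x, Vh (z x) + a * (c / K) = z (v^[b] x) := by
    intro x
    rw [hVh]
    simp only [sub_add_cancel]
    have : Function.Semiconj z v vh := fun y => (hvz y).symm
    exact ((this.iterate_right b) x).symm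
  obtain ⟨V, hV⟩ : ∃ V : ℝ → ℝ, V = fun x => k (Vh (z x)) := ⟨_, rfl⟩
  have hVI : IncDiff V := by rw [hV]; exact locc_comp hk (locc_comp hVhI hz)
  refine ⟨b, a, hb1, V, hVI, ?_, ?_⟩
  · intro x
    apply hz.locc_strictMono.injective
    rw [locc_iter_add hzw, ← hVhz, hV]
    simp only [hzk]
  intro Y hY s hs
  have hY' : Y ∈ Icc (0.1 : ℝ) 0.3 := ⟨by linarith [hY.1], by linarith [hY.2]⟩
  obtain ⟨η, hη⟩ : ∃ η : ℝ, η = C₂ * (1 / K) ^ (E + 1) := ⟨_, rfl⟩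
  have hη0 : 0 ≤ η := by rw [hη]; positivity
  have hηC : η ≤ C₂ := by
    rw [hη]
    have : (1 / (K : ℝ)) ^ (E + 1) ≤ 1 := pow_le_one₀ hinvK0.le (by linarith)
    nlinarith
  have hηc : η ≤ 0.05 * c₁ := by
    rw [hη]
    have h1 : (1 / (K : ℝ)) ^ (E + 1) ≤ 1 / K := by
      rw [pow_succ]
      have : (1 / (K : ℝ)) ^ E ≤ 1 := pow_le_one₀ hinvK0.le (by linarith)
      nlinarith
    calc C₂ * (1 / K) ^ (E + 1) ≤ C₂ * (1 / K) := by gcongr
      _ ≤ 0.05 * c₁ := by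
        rw [div_le_iff₀ (by positivity)] at hKK₄
        rw [mul_one_div, div_le_iff₀ hKpos]
        linarith
  have hq : ∀ i, i ≤ R → ∀ x, |iteratedDeriv i (fun y => Vh y - y) x| ≤ η := by
    intro i hi x
    have := hba i hi x
    rw [hη, hVh]
    exact this
  have hqs : Smooth (fun y => Vh y - y) := hVhI.smooth.sub contDiff_id
  have hdiff : ∀ i, i ≤ R → |iteratedDeriv i (fun y => Vh (z y) - z y) Y| ≤
      R.factorial * η * B ^ R := by
    intro i hi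
    rcases Nat.eq_zero_or_pos i with h0 | h0
    · subst h0
      rw [iteratedDeriv_zero]
      have h1 := hq 0 hi (z Y)
      rw [iteratedDeriv_zero] at h1
      refine h1.trans ?_
      have h5 : (1 : ℝ) ≤ R.factorial := by exact_mod_cast R.factorial_pos
      have h6 : (1 : ℝ) ≤ B ^ R := one_le_pow₀ hB1
      calc η = 1 * η * 1 := by ring
        _ ≤ R.factorial * η * B ^ R := by gcongr
    · exact locc_comp_bd (g := fun y => Vh y - y) (f := z) (x := Y) hqs hz.smooth h0 hi hη0 hB1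
        (fun j _ hj => hq j hj _)
        (fun j hj1 hj2 => ((hzbd Y hY').2 j hj1 (by omega)).trans hBC)
  -- the segment between `Vh (z Y)` and `z Y` is in the good region
  have hlow : ∀ x ∈ Icc (0.1 : ℝ) 0.3, ∀ y ∈ Icc (0.1 : ℝ) 0.3, x ≤ y →
      c₁ * (y - x) ≤ z y - z x := by
    intro x hx y hy hxy
    refine (convex_Icc (0.1 : ℝ) 0.3).mul_sub_le_image_sub_of_le_deriv
      hz.smooth.continuous.continuousOn hz.locc_diff.differentiableOn ?_ x hx y hy hxy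
    intro t ht
    exact (hzbd t (interior_subset ht)).1
  have hseg : ∀ t ∈ uIcc (Vh (z Y)) (z Y), k t ∈ Icc (0.1 : ℝ) 0.3 := by
    intro t ht
    have h0 : |Vh (z Y) - z Y| ≤ η := by
      have h1 := hq 0 (by omega) (z Y)
      rwa [iteratedDeriv_zero] at h1
    have h1 := hlow 0.1 ⟨by norm_num, by norm_num⟩ Y hY' hY'.1
    have h2 := hlow Y hY' 0.3 ⟨by norm_num, by norm_num⟩ hY'.2
    have h3 : |z Y - t| ≤ η := (abs_sub_right_of_mem_uIcc ht).trans (by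
      rw [abs_sub_comm]; exact h0)
    rw [abs_le] at h3
    have h4 : c₁ * (0.05 : ℝ) ≤ c₁ * (Y - 0.1) :=
      mul_le_mul_of_nonneg_left (by linarith [hY.1]) hc₁.le
    have h5 : c₁ * (0.05 : ℝ) ≤ c₁ * (0.3 - Y) :=
      mul_le_mul_of_nonneg_left (by linarith [hY.2]) hc₁.le
    exact locc_mem hz hzk (by linarith) (by linarith)
  have hmain := hsub k (fun y => Vh (z y)) z Y B' (R.factorial * η * B ^ R) hB'1 (by positivity)
    (fun t _ => hk.smooth.contDiffAt) (hVhI.smooth.comp hz.smooth).contDiffAt hz.smooth.contDiffAt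
    (fun i hi1 hi2 t ht => by
      have h1 := hkbd (k t) (hseg t ht) i hi1 (by omega)
      rw [hzk] at h1
      rw [hB']
      linarith)
    (fun i hi1 hi2 => by
      have h1 := (hzbd Y hY').2 i hi1 (by omega)
      have h2 := hdiff i hi2
      have h3 : (fun y => Vh (z y)) = fun y => (Vh (z y) - z y) + z y := by funext y; ring
      have h4 : R.factorial * η * B ^ R ≤ R.factorial * C₂ * B ^ R := by gcongr
      have h5 : Smooth (fun y => Vh (z y) - z y) :=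
        (hVhI.smooth.comp hz.smooth).sub hz.smooth
      constructor
      · rw [h3, iteratedDeriv_fun_add (h5.contDiffAt.of_le (by exact_mod_cast le_top))
          (hz.smooth.contDiffAt.of_le (by exact_mod_cast le_top)), hB']
        refine (abs_add_le _ _).trans ?_
        linarith
      · rw [hB']; linarith)
    hdiff s hs
  have he : (fun y => k ((fun y => Vh (z y)) y) - k (z y)) = fun y => V y - y := by
    funext y
    rw [hV]
    simp only [hkz]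
  rw [he] at hmain
  refine hmain.trans ?_
  calc C₃ * B' ^ e₃ * (R.factorial * η * B ^ R)
      = (C₃ * B' ^ e₃ * (R.factorial * C₂ * B ^ R)) * (1 / K) ^ (E + 1) := by rw [hη]; ring
    _ ≤ K * (1 / K) ^ (E + 1) := by gcongr
    _ = (1 / K) ^ E := by rw [pow_succ]; field_simp

end Pool.Agent.Helper638.Ros
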