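import Pool.Agent.Helper638_Ros.Case1
import Pool.Agent.Helper638_Ros.Case2

/-!
# No faithful smooth `ℤ²`-action on the circle is structurally stable
-/

set_option autoImplicit false

namespace Pool.Agent.Helper638.Ros

open Filter Function Set Topology

theorem unst_of_faithful {F G : D} (hc : Commute F G) (hf : Faithful F G) : Unst F G := by
  by_cases h : FreeAct F G
  · exact case1 hc h
  · exact case2 hc hf h

end Pool.Agent.Helper638.Ros
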