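import Pool.Agent.Helper638_Ros.NonConj_c
import Pool.Agent.Helper638_Ros.TN

/-!
# The shifted pairs are not all conjugate to the original one (paper 2.5 (f))
-/

set_option autoImplicit false

namespace Pool.Agent.Helper638.Ros

open Filter Function Set Topology

/-- reflection -/
theorem nc_isD_neg {f : ℝ → ℝ} (hf : IsD f) : IsD (fun x => -f (-x)) := by
  refine ⟨(hf.smooth.comp contDiff_neg).neg, fun x => ?_, fun x => ?_⟩
  · have h := hf.add_one (-(x + 1))
    have e : -(x + 1) + 1 = -x := by ring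
    rw [e] at h
    linarith
  · have h1 : HasDerivAt (fun x : ℝ => -x) (-1) x := hasDerivAt_neg x
    have h2 : HasDerivAt f (deriv f (-x)) (-x) := (hf.smooth.differentiable (by simp) _).hasDerivAt
    have h3 := (h2.comp x h1).neg
    have h4 : HasDerivAt (fun x => -f (-x)) (-(deriv f (-x) * -1)) x := h3
    rw [h4.deriv]
    have := hf.pos (-x)
    linarith

noncomputable def ncTw (b : Bool) (f : D) : D :=
  if b then f else mk (fun x => -f (-x)) (nc_isD_neg (D.isD f))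

noncomputable def ncSg (b : Bool) : ℝ := if b then 1 else -1

theorem ncTw_apply (b : Bool) (f : D) (x : ℝ) : ncTw b f x = ncSg b * f (ncSg b * x) := by
  cases b
  · simp [ncTw, ncSg]
  · simp [ncTw, ncSg]

theorem nc_deriv_sign {H : ℝ → ℝ} (hs : Smooth H) (hne : ∀ x, deriv H x ≠ 0) :
    (∀ x, deriv H x < 0) ∨ (∀ x, 0 < deriv H x) := by
  have h := hasDerivWithinAt_forall_lt_or_forall_gt_of_forall_ne (f := H) (f' := deriv H) (m := 0)
    (convex_univ) (fun x _ => (hs.differentiable (by simp) x).hasDerivAt.hasDerivWithinAt)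
    (fun x _ => hne x)
  rcases h with h | h
  · left; exact fun x => h x (mem_univ x)
  · right; exact fun x => h x (mem_univ x)

theorem nc_unfold {H : ℝ → ℝ} (hH : IsH H) : ∃ (b : Bool) (P : D), ∀ x, H x = ncSg b * P x := by
  rcases hH.per with hp | hp
  · refine ⟨true, mk H ⟨hH.smooth, hp, ?_⟩, fun x => by simp [ncSg]⟩
    rcases nc_deriv_sign hH.smooth hH.ne with h | h
    · exfalso
      have := strictAnti_of_deriv_neg h (show (0 : ℝ) < 0 + 1 by norm_num)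
      rw [hp 0] at this
      linarith
    · exact h
  · refine ⟨false, mk (fun x => -H x) ⟨hH.smooth.neg, fun x => by rw [hp]; ring, ?_⟩,
      fun x => by simp [ncSg]⟩
    rcases nc_deriv_sign hH.smooth hH.ne with h | h
    · intro x
      have : deriv (fun x => -H x) x = -deriv H x := deriv.fun_neg
      rw [this]
      have := h x
      linarith
    · exfalso
      have := strictMono_of_deriv_pos h (show (0 : ℝ) < 0 + 1 by norm_num)
      rw [hp 0] at this
      linarith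

theorem nc_intertw {H : ℝ → ℝ} {b : Bool} {P : D} (hP : ∀ x, H x = ncSg b * P x) {f' f : D}
    (h : Intertw H f' f) : ∃ i : ℤ, P * f' = T ^ i * (ncTw b f * P) := by
  obtain ⟨j, hj⟩ := h
  cases b
  · refine ⟨-j, D.ext (fun x => ?_)⟩
    have h1 := hj x
    rw [hP, hP] at h1
    simp only [ncSg, Bool.false_eq_true, if_false] at h1
    rw [D.mul_apply, D.mul_apply, T_zpow_apply, D.mul_apply, ncTw_apply]
    simp only [ncSg, Bool.false_eq_true, if_false]
    push_cast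
    linarith
  · refine ⟨j, D.ext (fun x => ?_)⟩
    have h1 := hj x
    rw [hP, hP] at h1
    simp only [ncSg, if_true, one_mul] at h1
    rw [D.mul_apply, D.mul_apply, T_zpow_apply, D.mul_apply, ncTw_apply]
    simp only [ncSg, if_true, one_mul]
    exact h1

theorem nc_intertw_tn {b : Bool} {P f' f : D} {i : ℤ} (h : P * f' = T ^ i * (ncTw b f * P)) :
    tn f' = tn (ncTw b f) + i := by
  have h1 : P * f' * P⁻¹ = T ^ i * ncTw b f := by rw [h]; group
  have h2 : tn (P * f' * P⁻¹) = tn (ncTw b f) + i := by rw [h1, tn_T_zpow_mul]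
  rwa [tn_conj] at h2

theorem nc_H_pow {H : ℝ → ℝ} {f' f : D} {j : ℤ} (hj : ∀ x, H (f' x) = f (H x) + j) (n : ℕ)
    (x : ℝ) : H ((f' ^ n) x) = (f ^ n) (H x) + (n * j : ℤ) := by
  induction n generalizing x with
  | zero => simp
  | succ n ih =>
    rw [pow_succ, D.mul_apply, ih, hj, D.add_int, pow_succ, D.mul_apply]
    push_cast; ring

theorem nc_H_add_int {H : ℝ → ℝ} (hH : IsH H) (k : ℤ) (x : ℝ) : ∃ m : ℤ, H (x + k) = H x + m := by
  obtain ⟨b, P, hP⟩ := nc_unfold hH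
  cases b
  · refine ⟨-k, ?_⟩
    rw [hP, hP, D.add_int]; simp only [ncSg, Bool.false_eq_true, if_false]; push_cast; ring
  · refine ⟨k, ?_⟩
    rw [hP, hP, D.add_int]; simp [ncSg]

theorem nc_not_mem {S : Sys2} {z z₁ : ℝ} (hz : Nxt S z z₁) : ∀ l : ℤ, z + l ∉ Ioo z z₁ := by
  intro l hl
  have h1 : (0 : ℝ) < l := by have := hl.1; linarith
  have h2 : (l : ℝ) < 1 := by have := hl.2; have := hz.le; linarith
  have h3 : 0 < l := by exact_mod_cast h1
  have h4 : l < 1 := by exact_mod_cast h2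
  omega

/-- a conjugating map sends `z` into `K` -/
theorem nc_H_mem {S : Sys2} {z z₁ : ℝ} (hz : Nxt S z z₁) {al be : D} (hs : SuppJ z z₁ al)
    (hb : SuppJ z z₁ be) {H : ℝ → ℝ} (hH : IsH H) (hF : Intertw H (extF S al) S.F)
    (hG : Intertw H (extG S be) S.G) : H z ∈ S.K := by
  have hzI : z ∈ Icc z z₁ := ⟨le_rfl, hz.lt.le⟩
  have alz : al z = z := hs z (nc_not_mem hz)
  have bez : be z = z := hb z (nc_not_mem hz)
  obtain ⟨j, hj⟩ := hF
  obtain ⟨j', hj'⟩ := hG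
  have e1 := nc_H_pow hj S.N z
  rw [extF_powN hz hs hzI, D.mul_apply, alz, hz.hz.1] at e1
  obtain ⟨m, hm⟩ := nc_H_add_int hH S.k z
  rw [hm] at e1
  have e2 : (S.F ^ S.N) (H z) = H z + ((m - S.N * j : ℤ) : ℝ) := by
    push_cast at e1 ⊢; linarith
  have e3 := S.unique_k e2
  rw [e3] at e2
  constructor
  · rw [S.A_apply, e2]; ring
  · have e4 := hj' z
    rw [extG_apply hz hb hzI, D.mul_apply, bez, hz.hz.2] at e4
    have e5 : S.G (H z) = H z + ((-j' : ℤ) : ℝ) := by push_cast; linarith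
    have e6 : tn S.G = ((-j' : ℤ) : ℝ) := tn_of_eq e5
    have e7 : tn S.G = 0 := (tn_eq_zero_iff _).2 S.fixG
    rw [e7] at e6
    rw [e5, ← e6]; ring

theorem nc_tn_ext {S : Sys2} {z z₁ : ℝ} (hz : Nxt S z z₁) {al : D} (hs : SuppJ z z₁ al) :
    tn (extF S al) = S.k / S.N := by
  have hzI : z ∈ Icc z z₁ := ⟨le_rfl, hz.lt.le⟩
  have alz : al z = z := hs z (nc_not_mem hz)
  have e1 : (extF S al ^ S.N) z = z + S.k := by
    rw [extF_powN hz hs hzI, D.mul_apply, alz, hz.hz.1]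
  have e2 := tn_of_eq e1
  rw [tn_pow] at e2
  have hN : (S.N : ℝ) ≠ 0 := by have := S.hN; positivity
  field_simp
  linarith

theorem nc_tn_extG {S : Sys2} {z z₁ : ℝ} (hz : Nxt S z z₁) {be : D} (hs : SuppJ z z₁ be) :
    tn (extG S be) = 0 := by
  have hzI : z ∈ Icc z z₁ := ⟨le_rfl, hz.lt.le⟩
  have bez : be z = z := hs z (nc_not_mem hz)
  refine (tn_eq_zero_iff _).2 ⟨z, ?_⟩
  rw [extG_apply hz hs hzI, D.mul_apply, bez, hz.hz.2]

theorem nc_supp {z c₁ c₂ z₁ : ℝ} {f : ℝ → ℝ} (h1 : z < c₁) (h2 : c₂ < z₁) (h : SuppC c₁ c₂ f) :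
    SuppJ z z₁ f :=
  fun x hx => h x (fun l hl => hx l ⟨h1.trans_le hl.1, hl.2.trans_lt h2⟩)

theorem exists_not_cnj {S : Sys2} (hnf : NonFlat S) {z z₁ p₁ c₁ c₂ : ℝ} (hz : Nxt S z z₁)
    (hI : Cons S z p₁) (hp : p₁ ≤ z₁) (h1 : z < c₁) (h2 : c₁ < c₂) (h3 : c₂ < p₁)
    {g : ℕ → ℤ × ℤ} {κ κ' : ℕ → ℝ → ℝ} {al be : ℕ → D}
    (hd : ∀ n, ShiftData S z z₁ p₁ c₁ c₂ (g n) (κ n) (κ' n) (al n) (be n))
    (hg : ∀ x ∈ Ioo z p₁, Tendsto (fun n => S.lam (g n) x) atTop (𝓝 x)) :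
    ∃ n, ¬ Cnj (extF S (al n)) (extG S (be n)) S.F S.G := by
  by_contra hcon
  push Not at hcon
  have hc₂z₁ : c₂ < z₁ := h3.trans_le hp
  have hs : ∀ n, SuppJ z z₁ (al n) := fun n => nc_supp h1 hc₂z₁ (hd n).al_supp
  have hb : ∀ n, SuppJ z z₁ (be n) := fun n => nc_supp h1 hc₂z₁ (hd n).be_supp
  choose H hH hHF hHG using hcon
  have hHK : ∀ n, H n z ∈ S.K := fun n => nc_H_mem hz (hs n) (hb n) (hH n) (hHF n) (hHG n)
  choose b P hP using fun n => nc_unfold (hH n)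
  -- representatives
  let l : ℕ → ℤ := fun n => -⌊H n z - z⌋
  have hr : ∀ n, H n z + l n ∈ S.K ∩ Icc z (z + 1) := by
    intro n
    refine ⟨(S.K_add_int _ _).2 (hHK n), ?_, ?_⟩
    · have := Int.floor_le (H n z - z)
      simp only [l]; push_cast; linarith
    · have := Int.lt_floor_add_one (H n z - z)
      simp only [l]; push_cast; linarith
  have hfin : Finite ↥(S.K ∩ Icc z (z + 1)) := (K_finite hnf z (z + 1)).to_subtype
  let ty : ℕ → Bool × ↥(S.K ∩ Icc z (z + 1)) := fun n => (b n, ⟨H n z + l n, hr n⟩)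
  obtain ⟨y, hy⟩ := Finite.exists_infinite_fiber ty
  have hinf : (ty ⁻¹' {y}).Infinite := Set.infinite_coe_iff.1 hy
  -- two elements of the fibre with different shifts
  obtain ⟨n, hn, m, hm, hnm⟩ : ∃ n ∈ ty ⁻¹' {y}, ∃ m ∈ ty ⁻¹' {y}, g n ≠ g m := by
    by_contra hc
    push Not at hc
    obtain ⟨n₀, hn₀⟩ := hinf.nonempty
    set x : ℝ := (z + p₁) / 2 with hx
    have hxI : x ∈ Ioo z p₁ := ⟨by rw [hx]; linarith [hI.lt], by rw [hx]; linarith [hI.lt]⟩
    have hfree : S.lam (g n₀) x ≠ x := lam_free hnf (hd n₀).hg (hI.disj x hxI)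
    have e1 : ∀ᶠ n in atTop, S.lam (g n) x ≠ S.lam (g n₀) x :=
      (hg x hxI).eventually (isOpen_ne.mem_nhds hfree.symm)
    obtain ⟨N, hN⟩ := eventually_atTop.1 e1
    obtain ⟨n, hn, hnN⟩ := hinf.exists_gt N
    exact hN n hnN.le (by rw [hc n hn n₀ hn₀])
  have hty : ty n = ty m := by rw [show ty n = y from hn, show ty m = y from hm]
  have hbb : b n = b m := congrArg Prod.fst hty
  have hrr : H n z + l n = H m z + l m := congrArg (fun t => (t.2 : ℝ)) hty
  -- the integer shift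
  obtain ⟨e, he⟩ : ∃ e : ℤ, P n z + e = P m z := by
    have h4 := hP n z
    have h5 := hP m z
    rw [← hbb] at h5
    rw [h4, h5] at hrr
    cases hb' : b n
    · refine ⟨l m - l n, ?_⟩
      rw [hb'] at hrr
      simp only [ncSg, Bool.false_eq_true, if_false] at hrr
      push_cast; linarith
    · refine ⟨l n - l m, ?_⟩
      rw [hb'] at hrr
      simp only [ncSg, if_true, one_mul] at hrr
      push_cast; linarith
  obtain ⟨i, hi⟩ := nc_intertw (hP n) (hHF n)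
  obtain ⟨i₂, hi₂⟩ := nc_intertw (hP m) (hHF m)
  obtain ⟨i', hi'⟩ := nc_intertw (hP n) (hHG n)
  obtain ⟨i₂', hi₂'⟩ := nc_intertw (hP m) (hHG m)
  have hii : i = i₂ := by
    have a1 := nc_intertw_tn hi
    have a2 := nc_intertw_tn hi₂
    rw [nc_tn_ext hz (hs _)] at a1 a2
    rw [← hbb] at a2
    have : (i : ℝ) = i₂ := by linarith
    exact_mod_cast this
  have hii' : i' = i₂' := by
    have a1 := nc_intertw_tn hi'
    have a2 := nc_intertw_tn hi₂'
    rw [nc_tn_extG hz (hb _)] at a1 a2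
    rw [← hbb] at a2
    have : (i' : ℝ) = i₂' := by linarith
    exact_mod_cast this
  rw [← hbb, ← hii] at hi₂
  rw [← hbb, ← hii'] at hi₂'
  -- the conjugating map
  have key : ∀ (f f₁ f₂ : D) (i : ℤ), P n * f₁ = T ^ i * (f * P n) → P m * f₂ = T ^ i * (f * P m) →
      (P m)⁻¹ * T ^ e * P n * f₁ = f₂ * ((P m)⁻¹ * T ^ e * P n) := by
    intro f f₁ f₂ i q1 q2
    have q3 : f₂ = (P m)⁻¹ * (T ^ i * (f * P m)) := by rw [← q2]; group
    have q4 : T ^ e * (T ^ i * (f * P n)) = T ^ i * (f * (T ^ e * P n)) := by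
      have t1 : T ^ e * T ^ i = T ^ i * T ^ e := by rw [← zpow_add, ← zpow_add, add_comm]
      have t2 : T ^ e * f = f * T ^ e := ((T_comm f).zpow_left e).eq
      rw [← mul_assoc, t1, mul_assoc, ← mul_assoc (T ^ e) f, t2, mul_assoc]
    calc (P m)⁻¹ * T ^ e * P n * f₁ = (P m)⁻¹ * (T ^ e * (P n * f₁)) := by group
      _ = (P m)⁻¹ * (T ^ i * (f * (T ^ e * P n))) := by rw [q1, q4]
      _ = f₂ * ((P m)⁻¹ * T ^ e * P n) := by rw [q3]; group
  refine no_conj hnf hz hI hp h1 h2 h3 (hd n) (hd m) hnm ((P m)⁻¹ * T ^ e * P n) ?_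
    (key _ _ _ _ hi hi₂) (key _ _ _ _ hi' hi₂')
  rw [D.mul_apply, D.mul_apply, T_zpow_apply, he, D.inv_apply_self]

theorem nonflat_unst {S : Sys2} (hnf : NonFlat S) : Unst S.F S.G := by
  obtain ⟨z, hz⟩ := S.K_nonempty
  obtain ⟨z₁, hz₁⟩ := exists_nxt S hz
  -- the next point of `K`
  have hfin := K_finite hnf z z₁
  have hfin' : (S.K ∩ Ioc z z₁).Finite := hfin.subset (fun x hx => ⟨hx.1, hx.2.1.le, hx.2.2⟩)
  have hne : (S.K ∩ Ioc z z₁).Nonempty := ⟨z₁, hz₁.hz₁, hz₁.lt, le_rfl⟩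
  obtain ⟨p₁, hp₁, hmin⟩ := hfin'.exists_minimal hne
  have hI : Cons S z p₁ := by
    refine ⟨hz, hp₁.1, hp₁.2.1, fun x hx hxK => ?_⟩
    have := hmin (y := x) ⟨hxK, hx.1, hx.2.le.trans hp₁.2.2⟩ hx.2.le
    exact absurd this (not_le.2 hx.2)
  obtain ⟨c₁, c₂, g, κ, κ', al, be, h1, h2, h3, hd, hg, hal, hbe⟩ :=
    exists_shift hnf hz₁ hI hp₁.2.2
  -- infinitely many indices are good
  have hfreq : ∀ N : ℕ, ∃ n, N ≤ n ∧ ¬ Cnj (extF S (al n)) (extG S (be n)) S.F S.G := by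
    intro N
    obtain ⟨n, hn⟩ := exists_not_cnj hnf hz₁ hI hp₁.2.2 h1 h2 h3 (g := fun n => g (n + N))
      (κ := fun n => κ (n + N)) (κ' := fun n => κ' (n + N)) (al := fun n => al (n + N))
      (be := fun n => be (n + N)) (fun n => hd (n + N))
      (fun x hx => (hg x hx).comp (tendsto_add_atTop_nat N))
    exact ⟨n + N, by omega, hn⟩
  obtain ⟨φ, hφ, hφ'⟩ := extraction_of_frequently_atTop
    (P := fun n => ¬ Cnj (extF S (al n)) (extG S (be n)) S.F S.G)
    (frequently_atTop.2 (fun N => by obtain ⟨n, hn, hn'⟩ := hfreq N; exact ⟨n, hn, hn'⟩))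
  have hsub : ∀ {fn : ℕ → ℝ → ℝ} {f : ℝ → ℝ}, Conv fn f → Conv (fun n => fn (φ n)) f := by
    intro fn f h i
    intro u hu
    exact hφ.tendsto_atTop.eventually (h i u hu)
  have hc₂z₁ : c₂ < z₁ := h3.trans_le hp₁.2.2
  refine ⟨fun n => extF S (al (φ n)), fun n => extG S (be (φ n)), fun n => ?_,
    hsub (extF_conv S hal), hsub (extG_conv S hbe), hφ'⟩
  exact ext_comm hz₁ (nc_supp h1 hc₂z₁ (hd _).al_supp) (nc_supp h1 hc₂z₁ (hd _).be_supp)
    (hd _).comm

end Pool.Agent.Helper638.Ros
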