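import Pool.Agent.Helper638_Ros.Shift
import Pool.Agent.Helper638_Ros.Ext

/-!
# Auxiliary facts for the non conjugacy argument (paper 2.5 (f))
-/

set_option autoImplicit false

namespace Pool.Agent.Helper638.Ros

open Filter Function Set Topology

theorem nc_pow_succ_apply (f : D) (n : ℕ) (x : ℝ) : (f ^ (n + 1)) x = f ((f ^ n) x) := by
  rw [pow_succ', D.mul_apply]

/-- orbits of a map moving points to the right in `(p₀, p₁)` converge to `p₁` -/
theorem nc_exists_gt {f : D} {p₀ p₁ : ℝ} (h₁ : f p₁ = p₁) (hf : ∀ x ∈ Ioo p₀ p₁, x < f x)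
    {x y : ℝ} (hx : x ∈ Ioo p₀ p₁) (hy : y < p₁) : ∃ n : ℕ, y < (f ^ n) x := by
  by_contra hcon
  push Not at hcon
  have hmem : ∀ n : ℕ, x ≤ (f ^ n) x ∧ (f ^ n) x ∈ Ioo p₀ p₁ := by
    intro n
    induction n with
    | zero => exact ⟨le_rfl, hx⟩
    | succ n ih =>
      rw [nc_pow_succ_apply]
      have h2 := hf _ ih.2
      refine ⟨ih.1.trans h2.le, ih.2.1.trans h2, ?_⟩
      calc f ((f ^ n) x) < f p₁ := D.strictMono f ih.2.2
        _ = p₁ := h₁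
  have hmono : Monotone (fun n : ℕ => (f ^ n) x) := by
    refine monotone_nat_of_le_succ (fun n => ?_)
    show (f ^ n) x ≤ (f ^ (n + 1)) x
    rw [nc_pow_succ_apply]
    exact (hf _ (hmem n).2).le
  have hbdd : BddAbove (range (fun n : ℕ => (f ^ n) x)) := ⟨y, by rintro _ ⟨n, rfl⟩; exact hcon n⟩
  have hlim := tendsto_atTop_ciSup hmono hbdd
  set L := ⨆ n : ℕ, (f ^ n) x with hL
  have hLy : L ≤ y := ciSup_le hcon
  have hxL : x ≤ L := le_ciSup_of_le hbdd 0 le_rfl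
  have hfL : f L = L := by
    have h3 : Tendsto (fun n : ℕ => (f ^ (n + 1)) x) atTop (𝓝 L) :=
      hlim.comp (tendsto_add_atTop_nat 1)
    have h4 : Tendsto (fun n : ℕ => f ((f ^ n) x)) atTop (𝓝 (f L)) :=
      ((D.continuous f).tendsto L).comp hlim
    have h5 : (fun n : ℕ => (f ^ (n + 1)) x) = fun n : ℕ => f ((f ^ n) x) := by
      ext n; exact nc_pow_succ_apply f n x
    rw [h5] at h3
    exact tendsto_nhds_unique h4 h3
  have := hf L ⟨lt_of_lt_of_le hx.1 hxL, lt_of_le_of_lt hLy hy⟩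
  linarith

theorem nc_exists_lt {f : D} {p₀ p₁ : ℝ} (h₀ : f p₀ = p₀) (hf : ∀ x ∈ Ioo p₀ p₁, f x < x)
    {x y : ℝ} (hx : x ∈ Ioo p₀ p₁) (hy : p₀ < y) : ∃ n : ℕ, (f ^ n) x < y := by
  by_contra hcon
  push Not at hcon
  have hmem : ∀ n : ℕ, (f ^ n) x ≤ x ∧ (f ^ n) x ∈ Ioo p₀ p₁ := by
    intro n
    induction n with
    | zero => exact ⟨le_rfl, hx⟩
    | succ n ih =>
      rw [nc_pow_succ_apply]
      have h2 := hf _ ih.2
      refine ⟨h2.le.trans ih.1, ?_, h2.trans ih.2.2⟩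
      calc p₀ = f p₀ := h₀.symm
        _ < f ((f ^ n) x) := D.strictMono f ih.2.1
  have hmono : Antitone (fun n : ℕ => (f ^ n) x) := by
    refine antitone_nat_of_succ_le (fun n => ?_)
    show (f ^ (n + 1)) x ≤ (f ^ n) x
    rw [nc_pow_succ_apply]
    exact (hf _ (hmem n).2).le
  have hbdd : BddBelow (range (fun n : ℕ => (f ^ n) x)) := ⟨y, by rintro _ ⟨n, rfl⟩; exact hcon n⟩
  have hlim := tendsto_atTop_ciInf hmono hbdd
  set L := ⨅ n : ℕ, (f ^ n) x with hL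
  have hLy : y ≤ L := le_ciInf hcon
  have hxL : L ≤ x := ciInf_le_of_le hbdd 0 le_rfl
  have hfL : f L = L := by
    have h3 : Tendsto (fun n : ℕ => (f ^ (n + 1)) x) atTop (𝓝 L) :=
      hlim.comp (tendsto_add_atTop_nat 1)
    have h4 : Tendsto (fun n : ℕ => f ((f ^ n) x)) atTop (𝓝 (f L)) :=
      ((D.continuous f).tendsto L).comp hlim
    have h5 : (fun n : ℕ => (f ^ (n + 1)) x) = fun n : ℕ => f ((f ^ n) x) := by
      ext n; exact nc_pow_succ_apply f n x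
    rw [h5] at h3
    exact tendsto_nhds_unique h4 h3
  have := hf L ⟨lt_of_lt_of_le hy hLy, lt_of_le_of_lt hxL hx.2⟩
  linarith

/-- a map without fixed points on an interval moves all points in the same direction -/
theorem nc_dir {f : D} {p₀ p₁ : ℝ} (hne : ∀ x ∈ Ioo p₀ p₁, f x ≠ x) :
    (∀ x ∈ Ioo p₀ p₁, x < f x) ∨ (∀ x ∈ Ioo p₀ p₁, f x < x) := by
  by_contra hcon
  push Not at hcon
  obtain ⟨⟨a, ha, ha'⟩, ⟨b, hb, hb'⟩⟩ := hcon
  have hc : ContinuousOn (fun x => f x - x) (uIcc a b) :=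
    ((D.continuous f).sub continuous_id).continuousOn
  have h0 : (0 : ℝ) ∈ uIcc (f a - a) (f b - b) := by
    rw [mem_uIcc]; left; constructor <;> linarith
  obtain ⟨c, hc1, hc2⟩ := intermediate_value_uIcc hc h0
  have hcI : c ∈ Ioo p₀ p₁ := by
    have hsub : uIcc a b ⊆ Ioo p₀ p₁ := by
      intro t ht
      rw [mem_uIcc] at ht
      rcases ht with h | h
      · exact ⟨ha.1.trans_le h.1, h.2.trans_lt hb.2⟩
      · exact ⟨hb.1.trans_le h.1, h.2.trans_lt ha.2⟩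
    exact hsub hc1
  apply hne c hcI
  have : f c - c = 0 := hc2
  linarith

/-- the orbit of an interior point accumulates at both ends -/
theorem nc_orbit {f : D} {p₀ p₁ : ℝ} (h₀ : f p₀ = p₀) (h₁ : f p₁ = p₁)
    (hne : ∀ x ∈ Ioo p₀ p₁, f x ≠ x) {x : ℝ} (hx : x ∈ Ioo p₀ p₁) {y : ℝ} (hy0 : p₀ < y)
    (hy1 : y < p₁) : (∃ n : ℤ, y < (f ^ n) x) ∧ (∃ n : ℤ, (f ^ n) x < y) := by
  have i₀ : f⁻¹ p₀ = p₀ := by
    conv_lhs => rw [← h₀]
    simp
  have i₁ : f⁻¹ p₁ = p₁ := by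
    conv_lhs => rw [← h₁]
    simp
  have hinv : ∀ x ∈ Ioo p₀ p₁, f⁻¹ x ∈ Ioo p₀ p₁ := by
    intro x hx
    constructor
    · rw [← i₀]; exact D.strictMono f⁻¹ hx.1
    · rw [← i₁]; exact D.strictMono f⁻¹ hx.2
  rcases nc_dir hne with hd | hd
  · have hd' : ∀ x ∈ Ioo p₀ p₁, f⁻¹ x < x := by
      intro x hx
      have := hd _ (hinv x hx)
      simpa using this
    obtain ⟨n, hn⟩ := nc_exists_gt h₁ hd hx hy1
    obtain ⟨m, hm⟩ := nc_exists_lt i₀ hd' hx hy0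
    refine ⟨⟨n, by simpa using hn⟩, ⟨-m, by simpa using hm⟩⟩
  · have hd' : ∀ x ∈ Ioo p₀ p₁, x < f⁻¹ x := by
      intro x hx
      have := hd _ (hinv x hx)
      simpa using this
    obtain ⟨n, hn⟩ := nc_exists_lt h₀ hd hx hy0
    obtain ⟨m, hm⟩ := nc_exists_gt i₁ hd' hx hy1
    refine ⟨⟨-m, by simpa using hm⟩, ⟨n, by simpa using hn⟩⟩

theorem nc_sign_map (f : D) (a b : ℝ) :
    SignType.sign (f a - f b) = SignType.sign (a - b) := by
  rcases lt_trichotomy a b with h | h | h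
  · rw [sign_neg (sub_neg.2 h), sign_neg (sub_neg.2 (D.strictMono f h))]
  · rw [h]; simp
  · rw [sign_pos (sub_pos.2 h), sign_pos (sub_pos.2 (D.strictMono f h))]

/-- a point outside `K` lies in a gap of `K` -/
theorem nc_cons {S : Sys2} {x : ℝ} (hx : x ∉ S.K) : ∃ p p', Cons S p p' ∧ x ∈ Ioo p p' := by
  obtain ⟨k, hk⟩ := S.K_nonempty
  have hlo : (S.K ∩ Iic x).Nonempty := by
    obtain ⟨n, hn⟩ := exists_nat_ge (k - x)
    refine ⟨k + ((-n : ℤ) : ℝ), (S.K_add_int k (-n)).2 hk, ?_⟩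
    show k + ((-n : ℤ) : ℝ) ≤ x
    push_cast; linarith
  have hhi : (S.K ∩ Ici x).Nonempty := by
    obtain ⟨n, hn⟩ := exists_nat_ge (x - k)
    refine ⟨k + ((n : ℤ) : ℝ), (S.K_add_int k n).2 hk, ?_⟩
    show x ≤ k + ((n : ℤ) : ℝ)
    push_cast; linarith
  have bA : BddAbove (S.K ∩ Iic x) := ⟨x, fun y hy => hy.2⟩
  have bB : BddBelow (S.K ∩ Ici x) := ⟨x, fun y hy => hy.2⟩
  have m1 := (S.K_closed.inter isClosed_Iic).csSup_mem hlo bA
  have m2 := (S.K_closed.inter isClosed_Ici).csInf_mem hhi bB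
  have l1 : sSup (S.K ∩ Iic x) < x := lt_of_le_of_ne m1.2 (fun h => hx (h ▸ m1.1))
  have l2 : x < sInf (S.K ∩ Ici x) := lt_of_le_of_ne m2.2 (fun h => hx (h ▸ m2.1))
  refine ⟨_, _, ⟨m1.1, m2.1, l1.trans l2, ?_⟩, l1, l2⟩
  intro y hy hyK
  rcases le_total y x with h | h
  · exact absurd (le_csSup bA ⟨hyK, h⟩) (not_le.2 hy.1)
  · exact absurd (csInf_le bB ⟨hyK, h⟩) (not_le.2 hy.2)

theorem nc_A_free {S : Sys2} (hnf : NonFlat S) {x : ℝ} (hx : x ∉ S.K) : S.A x ≠ x := by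
  have h := lam_free hnf (g := (1, 0)) (by simp) hx
  simpa [Sys2.lam] using h

theorem nc_A_nonflat {S : Sys2} (hnf : NonFlat S) {x : ℝ} (hx : x ∈ S.K) : ¬ Flat S.A x := by
  have h := lam_nonflat hnf (g := (1, 0)) (by simp) hx
  simpa [Sys2.lam] using h

/-- punctured neighbourhoods: an eventual property propagates -/
theorem nc_eventually {P : ℝ → Prop} {x : ℝ} (h : ∀ᶠ y in 𝓝[≠] x, P y) :
    ∀ᶠ w in 𝓝 x, ∀ᶠ y in 𝓝[≠] w, P y := by
  rw [eventually_nhdsWithin_iff] at h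
  have h2 := eventually_eventually_nhds.2 h
  filter_upwards [h2] with w hw
  by_cases hwx : w = x
  · subst hwx
    rw [eventually_nhdsWithin_iff]; exact hw
  · have h3 : ∀ᶠ y in 𝓝 w, y ≠ x := isOpen_ne.mem_nhds hwx
    exact ((hw.and h3).mono (fun y hy => hy.1 hy.2)).filter_mono nhdsWithin_le_nhds

/-- a locally constant sign on punctured neighbourhoods of a segment is constant -/
theorem nc_const {q : ℝ → SignType} {a b : ℝ} (hab : a ≤ b)
    (h : ∀ x ∈ Icc a b, ∃ s : SignType, ∀ᶠ y in 𝓝[≠] x, q y = s) :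
    ∃ s : SignType, ∀ x ∈ Icc a b, ∀ᶠ y in 𝓝[≠] x, q y = s := by
  obtain ⟨s, hs⟩ := h a ⟨le_rfl, hab⟩
  refine ⟨s, ?_⟩
  let U : Set ℝ := {x | ∀ᶠ y in 𝓝[≠] x, q y = s}
  let V : Set ℝ := {x | ∀ᶠ y in 𝓝[≠] x, q y ≠ s}
  have hU : IsOpen U := by
    rw [isOpen_iff_mem_nhds]
    intro x hx
    exact nc_eventually hx
  have hV : IsOpen V := by
    rw [isOpen_iff_mem_nhds]
    intro x hx
    exact nc_eventually hx
  have hcov : Icc a b ⊆ U ∪ V := by
    intro x hx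
    obtain ⟨t, ht⟩ := h x hx
    by_cases hts : t = s
    · left; subst hts; exact ht
    · right
      filter_upwards [ht] with y hy
      rw [hy]; exact hts
  intro x hx
  rcases hcov hx with h1 | h1
  · exact h1
  · exfalso
    obtain ⟨w, hw1, hw2, hw3⟩ := (isPreconnected_Icc (a := a) (b := b)) U V hU hV hcov
      ⟨a, ⟨le_rfl, hab⟩, hs⟩ ⟨x, hx, h1⟩
    have : ∀ᶠ y in 𝓝[≠] w, False := by
      filter_upwards [hw2, hw3] with y hy1 hy2
      exact hy2 hy1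
    simp only [eventually_false_iff_eq_bot] at this
    exact (inferInstance : (𝓝[≠] w).NeBot).ne this

end Pool.Agent.Helper638.Ros
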