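import Pool.Agent.Helper638_Ros.NonConj_a

/-!
# The sign function of a map commuting with `Λ` on `[z, z₁]` (paper 2.5 (f))
-/

set_option autoImplicit false

namespace Pool.Agent.Helper638.Ros

open Filter Function Set Topology

/-- the sign function attached to `ψ` and `g` -/
noncomputable def ncq (S : Sys2) (ψ : ℝ → ℝ) (g : ℤ × ℤ) (y : ℝ) : SignType :=
  SignType.sign ((ψ y - S.lam g y) * (S.A y - y))

/-- a smooth map commuting with `A`, `G` on `[z, z₁]`, and with `A` near the ends -/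
structure PsiOK (S : Sys2) (z z₁ : ℝ) (ψ : ℝ → ℝ) : Prop where
  sm : Smooth ψ
  pos : ∀ x, 0 < deriv ψ x
  fz : ψ z = z
  fz₁ : ψ z₁ = z₁
  cA : ∀ x ∈ Icc z z₁, ψ (S.A x) = S.A (ψ x)
  cG : ∀ x ∈ Icc z z₁, ψ (S.G x) = S.G (ψ x)
  nz : ∀ᶠ x in 𝓝 z, ψ (S.A x) = S.A (ψ x)
  nz₁ : ∀ᶠ x in 𝓝 z₁, ψ (S.A x) = S.A (ψ x)

theorem nc_Icc {f : ℝ → ℝ} (hf : StrictMono f) {a b : ℝ} (ha : f a = a) (hb : f b = b) {x : ℝ}
    (hx : x ∈ Icc a b) : f x ∈ Icc a b :=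
  ⟨by rw [← ha]; exact hf.monotone hx.1, by rw [← hb]; exact hf.monotone hx.2⟩

theorem nc_Ioo {f : ℝ → ℝ} (hf : StrictMono f) {a b : ℝ} (ha : f a = a) (hb : f b = b) {x : ℝ}
    (hx : x ∈ Ioo a b) : f x ∈ Ioo a b :=
  ⟨by rw [← ha]; exact hf hx.1, by rw [← hb]; exact hf hx.2⟩

theorem nc_inv_fix {f : D} {x : ℝ} (h : f x = x) : f⁻¹ x = x := by
  conv_lhs => rw [← h]
  simp

/-- the elements of `D` commuting with `ψ` on `[z, z₁]` -/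
noncomputable def ncGrp (z z₁ : ℝ) (ψ : ℝ → ℝ) : Subgroup D where
  carrier := {h | h z = z ∧ h z₁ = z₁ ∧ ∀ w ∈ Icc z z₁, ψ (h w) = h (ψ w)}
  mul_mem' := by
    rintro h k ⟨h1, h2, h3⟩ ⟨k1, k2, k3⟩
    refine ⟨by rw [D.mul_apply, k1, h1], by rw [D.mul_apply, k2, h2], fun w hw => ?_⟩
    rw [D.mul_apply, D.mul_apply, h3 _ (nc_Icc (D.strictMono k) k1 k2 hw), k3 w hw]
  one_mem' := ⟨rfl, rfl, fun w _ => rfl⟩
  inv_mem' := by
    rintro h ⟨h1, h2, h3⟩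
    refine ⟨nc_inv_fix h1, nc_inv_fix h2, fun w hw => ?_⟩
    have h4 := h3 _ (nc_Icc (D.strictMono h⁻¹) (nc_inv_fix h1) (nc_inv_fix h2) hw)
    rw [D.apply_inv_self] at h4
    rw [h4, D.inv_apply_self]

theorem nc_mem {z z₁ : ℝ} {ψ : ℝ → ℝ} {h : D} : h ∈ ncGrp z z₁ ψ ↔
    (h z = z ∧ h z₁ = z₁ ∧ ∀ w ∈ Icc z z₁, ψ (h w) = h (ψ w)) := Iff.rfl

/-- the elements of `D` fixing `p` whose germ at `p` commutes with `H` -/
noncomputable def ncGerm (p : ℝ) (H : ℝ → ℝ) : Subgroup D where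
  carrier := {h | h p = p ∧ ∀ᶠ w in 𝓝 p, H (h w) = h (H w)}
  mul_mem' := by
    rintro h k ⟨h1, h2⟩ ⟨k1, k2⟩
    refine ⟨by rw [D.mul_apply, k1, h1], ?_⟩
    have hk : Tendsto k (𝓝 p) (𝓝 p) := by
      have := (D.continuous k).tendsto p
      rwa [k1] at this
    filter_upwards [k2, hk.eventually h2] with w hw1 hw2
    rw [D.mul_apply, D.mul_apply, hw2, hw1]
  one_mem' := ⟨rfl, Eventually.of_forall (fun w => rfl)⟩
  inv_mem' := by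
    rintro h ⟨h1, h2⟩
    refine ⟨nc_inv_fix h1, ?_⟩
    have hk : Tendsto (fun w => h⁻¹ w) (𝓝 p) (𝓝 p) := by
      have := (D.continuous h⁻¹).tendsto p
      rwa [nc_inv_fix h1] at this
    filter_upwards [hk.eventually h2] with w hw
    rw [D.apply_inv_self] at hw
    rw [hw, D.inv_apply_self]

theorem nc_mem_germ {p : ℝ} {H : ℝ → ℝ} {h : D} : h ∈ ncGerm p H ↔
    (h p = p ∧ ∀ᶠ w in 𝓝 p, H (h w) = h (H w)) := Iff.rfl

theorem nc_lam_germ {S : Sys2} {p : ℝ} (hp : p ∈ S.K) {H : ℝ → ℝ}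
    (hA : ∀ᶠ w in 𝓝 p, H (S.A w) = S.A (H w)) (hG : ∀ᶠ w in 𝓝 p, H (S.G w) = S.G (H w))
    (g : ℤ × ℤ) : ∀ᶠ w in 𝓝 p, H (S.lam g w) = S.lam g (H w) := by
  have h1 : S.A ∈ ncGerm p H := ⟨hp.1, hA⟩
  have h2 : S.G ∈ ncGerm p H := ⟨hp.2, hG⟩
  exact ((ncGerm p H).mul_mem ((ncGerm p H).zpow_mem h1 g.1) ((ncGerm p H).zpow_mem h2 g.2)).2

section
variable {S : Sys2} {z z₁ : ℝ} {ψ : ℝ → ℝ}

theorem PsiOK.mono (h : PsiOK S z z₁ ψ) : StrictMono ψ := strictMono_of_deriv_pos h.pos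

theorem PsiOK.memA (h : PsiOK S z z₁ ψ) (hz : z ∈ S.K) (hz₁ : z₁ ∈ S.K) :
    S.A ∈ ncGrp z z₁ ψ := ⟨hz.1, hz₁.1, h.cA⟩

theorem PsiOK.fix (h : PsiOK S z z₁ ψ) (hnf : NonFlat S) {p : ℝ} (hp : p ∈ S.K)
    (hp' : p ∈ Icc z z₁) : ψ p = p := by
  have hfin : (S.K ∩ Icc z z₁).Finite := K_finite hnf z z₁
  have hF : Finite ↥(S.K ∩ Icc z z₁) := hfin.to_subtype
  have hmap : ∀ q ∈ S.K ∩ Icc z z₁, ψ q ∈ S.K ∩ Icc z z₁ := by
    rintro q ⟨hq1, hq2⟩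
    refine ⟨⟨?_, ?_⟩, nc_Icc h.mono h.fz h.fz₁ hq2⟩
    · rw [← h.cA q hq2, hq1.1]
    · rw [← h.cG q hq2, hq1.2]
  let f : ↥(S.K ∩ Icc z z₁) → ↥(S.K ∩ Icc z z₁) := fun q => ⟨ψ q, hmap q q.2⟩
  have hf : StrictMono f := fun a b hab => h.mono hab
  have h1 := hf.le_apply (x := ⟨p, hp, hp'⟩)
  have h2 := hf.apply_le (x := ⟨p, hp, hp'⟩)
  have h3 := le_antisymm h2 h1
  exact congrArg Subtype.val h3

theorem PsiOK.near (h : PsiOK S z z₁ ψ) {p : ℝ} (hp : p ∈ Icc z z₁) :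
    ∀ᶠ x in 𝓝 p, ψ (S.A x) = S.A (ψ x) := by
  rcases eq_or_lt_of_le hp.1 with h1 | h1
  · rw [← h1]; exact h.nz
  · rcases eq_or_lt_of_le hp.2 with h2 | h2
    · rw [h2]; exact h.nz₁
    · filter_upwards [Icc_mem_nhds h1 h2] with x hx
      exact h.cA x hx

/-- the dichotomy at a point of `K` for `u = (λ_g)⁻¹ ψ` -/
theorem PsiOK.nf (h : PsiOK S z z₁ ψ) (hnf : NonFlat S) (g : ℤ × ℤ) {p : ℝ} (hp : p ∈ S.K)
    (hp' : p ∈ Icc z z₁) :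
    (∀ᶠ x in 𝓝 p, (S.lam g)⁻¹ (ψ x) = x) ∨
      ∃ c : ℝ, c ≠ 0 ∧ Tendsto (fun x => ((S.lam g)⁻¹ (ψ x) - x) / (S.A x - x)) (𝓝[≠] p) (𝓝 c) := by
  have hu : Smooth (fun x => (S.lam g)⁻¹ (ψ x)) := (D.smooth _).comp h.sm
  refine NF (a := S.A) (u := fun x => (S.lam g)⁻¹ (ψ x)) (D.smooth _) (D.pos _) hu ?_ hp.1 ?_ ?_
    (nc_A_nonflat hnf hp)
  · intro x
    have e : (fun x => (S.lam g)⁻¹ (ψ x)) = ((S.lam g)⁻¹ : D) ∘ ψ := rfl
    rw [e, deriv_comp x (D.differentiable _ _) (h.sm.differentiable (by simp) x)]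
    exact mul_pos (D.pos _ _) (h.pos x)
  · show (S.lam g)⁻¹ (ψ p) = p
    rw [h.fix hnf hp hp']
    exact nc_inv_fix (S.lam_fix g hp)
  · filter_upwards [h.near hp'] with x hx
    show S.A ((S.lam g)⁻¹ (ψ x)) = (S.lam g)⁻¹ (ψ (S.A x))
    rw [hx, ← D.mul_apply, ← D.mul_apply, (S.comm_A_lam g).inv_right.eq]

theorem nc_psi_sub (g : ℤ × ℤ) (y : ℝ) : SignType.sign (ψ y - S.lam g y) =
    SignType.sign ((S.lam g)⁻¹ (ψ y) - y) := by
  rw [← nc_sign_map (S.lam g) ((S.lam g)⁻¹ (ψ y)) y, D.apply_inv_self]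

theorem PsiOK.sign_K (h : PsiOK S z z₁ ψ) (hnf : NonFlat S) (g : ℤ × ℤ) {p : ℝ} (hp : p ∈ S.K)
    (hp' : p ∈ Icc z z₁) : ∃ s : SignType, ∀ᶠ y in 𝓝[≠] p, ncq S ψ g y = s := by
  rcases h.nf hnf g hp hp' with h1 | ⟨c, hc, h1⟩
  · refine ⟨0, ?_⟩
    filter_upwards [h1.filter_mono nhdsWithin_le_nhds] with y hy
    unfold ncq
    rw [sign_mul, nc_psi_sub, hy]
    simp
  · rcases lt_or_gt_of_ne hc with hc' | hc'
    · refine ⟨-1, ?_⟩
      filter_upwards [h1.eventually (gt_mem_nhds hc')] with y hy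
      unfold ncq
      rw [sign_mul, nc_psi_sub, ← sign_mul]
      apply sign_neg
      rw [div_neg_iff] at hy
      rw [mul_neg_iff]; exact hy
    · refine ⟨1, ?_⟩
      filter_upwards [h1.eventually (lt_mem_nhds hc')] with y hy
      unfold ncq
      rw [sign_mul, nc_psi_sub, ← sign_mul]
      apply sign_pos
      rw [div_pos_iff] at hy
      rw [mul_pos_iff]; exact hy

theorem nc_lam_cont (S : Sys2) (g : ℤ × ℤ) : Continuous (S.lam g) := D.continuous _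

theorem nc_eventually_sign (hψ : Continuous ψ) (g : ℤ × ℤ) {x : ℝ}
    (hne : (ψ x - S.lam g x) * (S.A x - x) ≠ 0) :
    ∀ᶠ y in 𝓝 x, ncq S ψ g y = ncq S ψ g x := by
  have hc : Continuous (fun y => (ψ y - S.lam g y) * (S.A y - y)) :=
    (hψ.sub (nc_lam_cont S g)).mul ((D.continuous S.A).sub continuous_id)
  rcases lt_or_gt_of_ne hne with h | h
  · filter_upwards [hc.continuousAt.eventually (gt_mem_nhds h)] with y hy
    unfold ncq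
    rw [sign_neg hy, sign_neg h]
  · filter_upwards [hc.continuousAt.eventually (lt_mem_nhds h)] with y hy
    unfold ncq
    rw [sign_pos hy, sign_pos h]

theorem PsiOK.sign_notK (h : PsiOK S z z₁ ψ) (hnf : NonFlat S) (hz : z ∈ S.K) (hz₁ : z₁ ∈ S.K)
    (g : ℤ × ℤ) {x : ℝ} (hx : x ∉ S.K) (hx' : x ∈ Ioo z z₁) :
    ∃ s : SignType, ∀ᶠ y in 𝓝[≠] x, ncq S ψ g y = s := by
  have hA : S.A x - x ≠ 0 := sub_ne_zero.2 (nc_A_free hnf hx)
  by_cases hxg : ψ x = S.lam g x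
  · refine ⟨0, ?_⟩
    set u : ℝ → ℝ := fun x => (S.lam g)⁻¹ (ψ x) with hu
    have hux : u x = x := by rw [hu]; simp [hxg]
    obtain ⟨p, p', hcons, hxp⟩ := nc_cons hx
    have hzp : z ≤ p := by
      by_contra hlt
      exact hcons.disj z ⟨not_le.1 hlt, hx'.1.trans hxp.2⟩ hz
    have hpz₁ : p' ≤ z₁ := by
      by_contra hlt
      exact hcons.disj z₁ ⟨hxp.1.trans hx'.2, not_le.1 hlt⟩ hz₁
    have hpI : p ∈ Icc z z₁ := ⟨hzp, (hcons.lt.le.trans hpz₁)⟩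
    have hAmem := h.memA hz hz₁
    have hcomm : ∀ (n : ℤ), ∀ w ∈ Icc z z₁, u ((S.A ^ n) w) = (S.A ^ n) (u w) := by
      intro n w hw
      have h1 := ((ncGrp z z₁ ψ).zpow_mem hAmem n).2.2 w hw
      show (S.lam g)⁻¹ (ψ ((S.A ^ n) w)) = (S.A ^ n) ((S.lam g)⁻¹ (ψ w))
      rw [h1, ← D.mul_apply, ← D.mul_apply, ((S.comm_A_lam g).inv_right.zpow_left n).eq]
    have hfree : ∀ y ∈ Ioo p p', S.A y ≠ y := fun y hy => nc_A_free hnf (hcons.disj y hy)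
    have horb : ∀ y, p < y → ∃ n : ℤ, (S.A ^ n) x < y ∧ p < (S.A ^ n) x := by
      intro y hy
      obtain ⟨-, n, hn⟩ := nc_orbit hcons.h₀.1 hcons.h₁.1 hfree hxp (y := min y ((p + p') / 2))
        (lt_min hy (by linarith [hcons.lt])) (lt_of_le_of_lt (min_le_right _ _)
        (by linarith [hcons.lt]))
      refine ⟨n, lt_of_lt_of_le hn (min_le_left _ _), ?_⟩
      have hm : S.A ^ n ∈ ncGrp p p' (fun x => x) := by
        refine (ncGrp p p' (fun x => x)).zpow_mem ⟨hcons.h₀.1, hcons.h₁.1, fun w _ => rfl⟩ n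
      have := nc_Ioo (D.strictMono (S.A ^ n)) hm.1 hm.2.1 hxp
      exact this.1
    have hxI : x ∈ Icc z z₁ := ⟨hx'.1.le, hx'.2.le⟩
    rcases h.nf hnf g hcons.h₀ hpI with h1 | ⟨c, hc, h1⟩
    · obtain ⟨ε, hε, hball⟩ := Metric.eventually_nhds_iff.1 h1
      obtain ⟨n, hn1, hn2⟩ := horb (p + ε) (by linarith)
      have hcont : ContinuousAt (S.A ^ n : D) x := (D.continuous _).continuousAt
      have e1 : ∀ᶠ w in 𝓝 x, (S.A ^ n) w < p + ε := hcont.eventually (gt_mem_nhds hn1)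
      have e2 : ∀ᶠ w in 𝓝 x, p < (S.A ^ n) w := hcont.eventually (lt_mem_nhds hn2)
      have e3 : ∀ᶠ w in 𝓝 x, w ∈ Icc z z₁ := Icc_mem_nhds hx'.1 hx'.2
      refine Eventually.filter_mono nhdsWithin_le_nhds ?_
      filter_upwards [e1, e2, e3] with w hw1 hw2 hw3
      have h2 : u ((S.A ^ n) w) = (S.A ^ n) w := by
        apply hball
        rw [Real.dist_eq, abs_lt]
        constructor <;> linarith
      rw [hcomm n w hw3] at h2
      have h3 : u w = w := D.injective _ h2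
      unfold ncq
      rw [sign_mul, nc_psi_sub]
      have h4 : (S.lam g)⁻¹ (ψ w) = w := h3
      rw [h4]; simp
    · exfalso
      have h2 : ∀ᶠ y in 𝓝[≠] p, (u y - y) / (S.A y - y) ≠ 0 := h1.eventually (isOpen_ne.mem_nhds hc)
      rw [eventually_nhdsWithin_iff] at h2
      obtain ⟨ε, hε, hball⟩ := Metric.eventually_nhds_iff.1 h2
      obtain ⟨n, hn1, hn2⟩ := horb (p + ε) (by linarith)
      apply hball (y := (S.A ^ n) x) (by rw [Real.dist_eq, abs_lt]; constructor <;> linarith)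
        (ne_of_gt hn2)
      rw [hcomm n x hxI, hux, sub_self, zero_div]
  · refine ⟨ncq S ψ g x, ?_⟩
    exact (nc_eventually_sign h.sm.continuous g
      (mul_ne_zero (sub_ne_zero.2 hxg) hA)).filter_mono nhdsWithin_le_nhds

theorem PsiOK.sign_const (h : PsiOK S z z₁ ψ) (hnf : NonFlat S) (hz : z ∈ S.K) (hz₁ : z₁ ∈ S.K)
    (hlt : z < z₁) (g : ℤ × ℤ) :
    ∃ s : SignType, ∀ x ∈ Icc z z₁, ∀ᶠ y in 𝓝[≠] x, ncq S ψ g y = s := by
  refine nc_const hlt.le (fun x hx => ?_)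
  by_cases hxK : x ∈ S.K
  · exact h.sign_K hnf g hxK hx
  · refine h.sign_notK hnf hz hz₁ g hxK ⟨lt_of_le_of_ne hx.1 ?_, lt_of_le_of_ne hx.2 ?_⟩
    · rintro rfl; exact hxK hz
    · rintro rfl; exact hxK hz₁

end

end Pool.Agent.Helper638.Ros
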