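import Pool.Agent.Helper638_Ros.NonConj_b

/-!
# Two different shifts are not conjugate by a map fixing `z` (paper 2.5 (f))
-/

set_option autoImplicit false

namespace Pool.Agent.Helper638.Ros

open Filter Function Set Topology

theorem nc_pow_conj {H f f' : D} (h : H * f = f' * H) (n : ℕ) : H * f ^ n = f' ^ n * H := by
  have : SemiconjBy H f f' := h
  exact (this.pow_right n).eq

theorem nc_lam_zpow (S : Sys2) (d : ℤ × ℤ) (n : ℤ) : S.lam (n • d) = S.lam d ^ n := by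
  have h1 : ∀ m : ℕ, S.lam (m • d) = S.lam d ^ m := by
    intro m
    induction m with
    | zero => simp [S.lam_zero]
    | succ m ih => rw [succ_nsmul, S.lam_add, ih, pow_succ]
  cases n with
  | ofNat m => simpa using h1 m
  | negSucc m => rw [negSucc_zsmul, S.lam_neg, h1, zpow_negSucc]

section
variable {S : Sys2} {z z₁ p₁ c₁ c₂ : ℝ}

/-- basic facts for one shift -/
theorem ShiftData.mono {g : ℤ × ℤ} {κ κ' : ℝ → ℝ} {al be : D}
    (hd : ShiftData S z z₁ p₁ c₁ c₂ g κ κ' al be) : StrictMono κ := strictMono_of_deriv_pos hd.pos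

theorem ShiftData.mono' {g : ℤ × ℤ} {κ κ' : ℝ → ℝ} {al be : D}
    (hd : ShiftData S z z₁ p₁ c₁ c₂ g κ κ' al be) : StrictMono κ' := by
  intro a b hab
  by_contra hcon
  have h1 := hd.mono.monotone (not_lt.1 hcon)
  rw [hd.right, hd.right] at h1
  linarith

theorem ShiftData.pos' {g : ℤ × ℤ} {κ κ' : ℝ → ℝ} {al be : D}
    (hd : ShiftData S z z₁ p₁ c₁ c₂ g κ κ' al be) (x : ℝ) : 0 < deriv κ' x := by
  have h1 : HasDerivAt κ' (deriv κ' x) x := (hd.sm'.differentiable (by simp) x).hasDerivAt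
  have h2 : HasDerivAt κ (deriv κ (κ' x)) (κ' x) :=
    (hd.sm.differentiable (by simp) _).hasDerivAt
  have h3 := h2.comp x h1
  have h4 : (κ ∘ κ') = fun y => y := by ext y; exact hd.right y
  rw [h4] at h3
  have h5 : deriv κ (κ' x) * deriv κ' x = 1 := h3.unique (hasDerivAt_id' x)
  have h6 := hd.pos (κ' x)
  by_contra hcon
  have : deriv κ (κ' x) * deriv κ' x ≤ 0 := mul_nonpos_of_nonneg_of_nonpos h6.le (not_lt.1 hcon)
  linarith

theorem ShiftData.fz {g : ℤ × ℤ} {κ κ' : ℝ → ℝ} {al be : D}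
    (hd : ShiftData S z z₁ p₁ c₁ c₂ g κ κ' al be) (h1 : z < c₁) : κ z = z := hd.id_left z h1.le

theorem ShiftData.fz₁ {g : ℤ × ℤ} {κ κ' : ℝ → ℝ} {al be : D}
    (hd : ShiftData S z z₁ p₁ c₁ c₂ g κ κ' al be) (hz₁ : z₁ ∈ S.K) (h3 : c₂ < z₁) : κ z₁ = z₁ := by
  rw [hd.eq_right z₁ h3.le, S.lam_fix g hz₁]

theorem ShiftData.id_left' {g : ℤ × ℤ} {κ κ' : ℝ → ℝ} {al be : D}
    (hd : ShiftData S z z₁ p₁ c₁ c₂ g κ κ' al be) {x : ℝ} (hx : x ≤ c₁) : κ' x = x := by
  conv_lhs => rw [← hd.id_left x hx]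
  exact hd.left x

theorem ShiftData.eq_right' {g : ℤ × ℤ} {κ κ' : ℝ → ℝ} {al be : D}
    (hd : ShiftData S z z₁ p₁ c₁ c₂ g κ κ' al be) {x : ℝ} (hx : c₂ ≤ κ' x) :
    κ' x = (S.lam g)⁻¹ x := by
  have h1 := hd.eq_right _ hx
  rw [hd.right] at h1
  conv_rhs => rw [h1]
  simp

theorem no_conj {S : Sys2} (hnf : NonFlat S) {z z₁ p₁ c₁ c₂ : ℝ} (hz : Nxt S z z₁)
    (hI : Cons S z p₁) (hp : p₁ ≤ z₁) (h1 : z < c₁) (h2 : c₁ < c₂) (h3 : c₂ < p₁)
    {g g' : ℤ × ℤ} {κ κ' μ μ' : ℝ → ℝ} {al be al' be' : D}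
    (hd : ShiftData S z z₁ p₁ c₁ c₂ g κ κ' al be)
    (hd' : ShiftData S z z₁ p₁ c₁ c₂ g' μ μ' al' be') (hne : g ≠ g') (H : D) (hH : H z = z)
    (hF : H * extF S al = extF S al' * H) (hG : H * extG S be = extG S be' * H) : False := by
  have hzK := hz.hz
  have hz₁K := hz.hz₁
  have hc₂z₁ : c₂ < z₁ := h3.trans_le hp
  have hzI : z ∈ Icc z z₁ := ⟨le_rfl, hz.lt.le⟩
  have hz₁I : z₁ ∈ Icc z z₁ := ⟨hz.lt.le, le_rfl⟩
  have hs : SuppJ z z₁ al := fun x hx => hd.al_supp x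
    (fun l hl => hx l ⟨h1.trans_le hl.1, hl.2.trans_lt hc₂z₁⟩)
  have hs' : SuppJ z z₁ al' := fun x hx => hd'.al_supp x
    (fun l hl => hx l ⟨h1.trans_le hl.1, hl.2.trans_lt hc₂z₁⟩)
  have hb : SuppJ z z₁ be := fun x hx => hd.be_supp x
    (fun l hl => hx l ⟨h1.trans_le hl.1, hl.2.trans_lt hc₂z₁⟩)
  have hb' : SuppJ z z₁ be' := fun x hx => hd'.be_supp x
    (fun l hl => hx l ⟨h1.trans_le hl.1, hl.2.trans_lt hc₂z₁⟩)
  obtain ⟨j, l, hj, hjl⟩ := hz.ex
  have hFp : ∀ n : ℕ, ∀ x, H ((extF S al ^ n) x) = (extF S al' ^ n) (H x) := by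
    intro n x
    rw [← D.mul_apply, nc_pow_conj hF n, D.mul_apply]
  have hGp : ∀ x, H (extG S be x) = extG S be' (H x) := by
    intro x
    rw [← D.mul_apply, hG, D.mul_apply]
  -- (1) `H` fixes `z₁`
  have hH₁ : H z₁ = z₁ := by
    have e1 := hFp j z
    rw [extF_pow hz hs j hj hzI, hH, extF_pow hz hs' j hj hzI] at e1
    rw [← hjl, D.add_int, e1]
  have hHI : ∀ x ∈ Icc z z₁, H x ∈ Icc z z₁ := fun x hx => nc_Icc (D.strictMono H) hH hH₁ hx
  -- the map `h : z ↦ z₁` commutes with `H` on `[z, z₁]`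
  set hh : D := T ^ l * S.F ^ j with hhdef
  have hhz : hh z = z₁ := by rw [hhdef, D.mul_apply, T_zpow_apply, hjl]
  have hHh : ∀ x ∈ Icc z z₁, H (hh x) = hh (H x) := by
    intro x hx
    have e1 := hFp j x
    rw [extF_pow hz hs j hj hx, extF_pow hz hs' j hj (hHI x hx)] at e1
    rw [hhdef, D.mul_apply, T_zpow_apply, D.add_int, e1, D.mul_apply, T_zpow_apply]
  -- (2) intertwining on `[z, z₁]`
  have hAc : ∀ x ∈ Icc z z₁, H (κ (S.A (κ' x))) = μ (S.A (μ' (H x))) := by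
    intro x hx
    have e1 := hFp S.N x
    rw [extF_powN hz hs hx, extF_powN hz hs' (hHI x hx), D.add_int] at e1
    have e2 := add_right_cancel e1
    rw [hd.al_eq x hx, hd'.al_eq _ (hHI x hx)] at e2
    exact e2
  have hGc : ∀ x ∈ Icc z z₁, H (κ (S.G (κ' x))) = μ (S.G (μ' (H x))) := by
    intro x hx
    have e1 := hGp x
    rw [extG_apply hz hb hx, extG_apply hz hb' (hHI x hx), hd.be_eq x hx,
      hd'.be_eq _ (hHI x hx)] at e1
    exact e1
  have hHt : ∀ p : ℝ, H p = p → Tendsto (fun x => H x) (𝓝 p) (𝓝 p) := by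
    intro p hp'
    have := (D.continuous H).tendsto p
    rwa [hp'] at this
  -- (4) near the ends `H` commutes with `A` and `G`
  have hAe : ∀ p, p = z ∨ p = z₁ → ∀ᶠ x in 𝓝 p, H (S.A x) = S.A (H x) := by
    intro p hp'
    have hHp : H p = p := by rcases hp' with rfl | rfl; exacts [hH, hH₁]
    filter_upwards [extF_near hz h1 hc₂z₁ hd.al_supp hp',
      (hHt p hHp).eventually (extF_near hz h1 hc₂z₁ hd'.al_supp hp')] with x hx1 hx2
    have e1 := hFp S.N x
    rw [hx1, hx2, S.F_pow_apply, S.F_pow_apply, D.add_int] at e1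
    exact add_right_cancel e1
  have hGe : ∀ p, p = z ∨ p = z₁ → ∀ᶠ x in 𝓝 p, H (S.G x) = S.G (H x) := by
    intro p hp'
    have hHp : H p = p := by rcases hp' with rfl | rfl; exacts [hH, hH₁]
    filter_upwards [extG_near hz h1 hc₂z₁ hd.be_supp hp',
      (hHt p hHp).eventually (extG_near hz h1 hc₂z₁ hd'.be_supp hp')] with x hx1 hx2
    have e1 := hGp x
    rw [hx1, hx2] at e1
    exact e1
  -- the map `ψ`
  set ψ : ℝ → ℝ := fun x => μ' (H (κ x)) with hψ
  have κI : ∀ x ∈ Icc z z₁, κ x ∈ Icc z z₁ := fun x hx =>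
    nc_Icc hd.mono (hd.fz h1) (hd.fz₁ hz₁K hc₂z₁) hx
  have μ'z : μ' z = z := hd'.id_left' h1.le
  have μ'z₁ : μ' z₁ = z₁ := by
    conv_lhs => rw [← hd'.fz₁ hz₁K hc₂z₁]
    exact hd'.left z₁
  have lamt : ∀ (g : ℤ × ℤ), ∀ p ∈ S.K, Tendsto (fun x => S.lam g x) (𝓝 p) (𝓝 p) := by
    intro g p hpK
    have := (D.continuous (S.lam g)).tendsto p
    rwa [S.lam_fix g hpK] at this
  -- `ψ` near `z`
  have ψz : ∀ᶠ x in 𝓝 z, ψ x = H x := by
    have e1 : ∀ᶠ x in 𝓝 z, x < c₁ := gt_mem_nhds h1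
    filter_upwards [e1, (hHt z hH).eventually e1] with x hx1 hx2
    rw [hψ]
    simp only
    rw [hd.id_left x hx1.le, hd'.id_left' hx2.le]
  -- `ψ` near `z₁`
  have ψz₁ : ∀ᶠ x in 𝓝 z₁, ψ x = (S.lam g')⁻¹ (H (S.lam g x)) := by
    have e1 : ∀ᶠ x in 𝓝 z₁, c₂ < x := lt_mem_nhds hc₂z₁
    have e2 : ∀ᶠ x in 𝓝 z₁, c₂ < μ' x := by
      have hc : ContinuousAt μ' z₁ := hd'.sm'.continuous.continuousAt
      exact hc.eventually (lt_mem_nhds (by rw [μ'z₁]; exact hc₂z₁))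
    filter_upwards [e1, (lamt g z₁ hz₁K).eventually ((hHt z₁ hH₁).eventually e2)] with x hx1 hx2
    rw [hψ]
    simp only
    rw [hd.eq_right x hx1.le, hd'.eq_right' hx2.le]
  have hlamz₁ : ∀ d : ℤ × ℤ, ∀ᶠ w in 𝓝 z₁, H (S.lam d w) = S.lam d (H w) := fun d =>
    nc_lam_germ hz₁K (hAe z₁ (Or.inr rfl)) (hGe z₁ (Or.inr rfl)) d
  have At : ∀ p ∈ S.K, Tendsto (fun x => S.A x) (𝓝 p) (𝓝 p) := by
    intro p hpK
    have := (D.continuous S.A).tendsto p
    rwa [hpK.1] at this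
  have hψOK : PsiOK S z z₁ ψ := by
    refine ⟨?_, ?_, ?_, ?_, ?_, ?_, ?_, ?_⟩
    · exact hd'.sm'.comp ((D.smooth H).comp hd.sm)
    · intro x
      have e : ψ = μ' ∘ (H ∘ κ) := rfl
      rw [e, deriv_comp x (hd'.sm'.differentiable (by simp) _)
        (((D.smooth H).comp hd.sm).differentiable (by simp) x),
        deriv_comp x (D.differentiable H _) (hd.sm.differentiable (by simp) x)]
      exact mul_pos (hd'.pos' _) (mul_pos (D.pos H _) (hd.pos x))
    · show μ' (H (κ z)) = z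
      rw [hd.fz h1, hH, μ'z]
    · show μ' (H (κ z₁)) = z₁
      rw [hd.fz₁ hz₁K hc₂z₁, hH₁, μ'z₁]
    · intro x hx
      show μ' (H (κ (S.A x))) = S.A (μ' (H (κ x)))
      have e1 := hAc (κ x) (κI x hx)
      rw [hd.left] at e1
      rw [e1, hd'.left]
    · intro x hx
      show μ' (H (κ (S.G x))) = S.G (μ' (H (κ x)))
      have e1 := hGc (κ x) (κI x hx)
      rw [hd.left] at e1
      rw [e1, hd'.left]
    · filter_upwards [ψz, (At z hzK).eventually ψz, hAe z (Or.inl rfl)] with x hx1 hx2 hx3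
      rw [hx2, hx1, hx3]
    · have e0 : ∀ᶠ x in 𝓝 z₁, H (S.A (S.lam g x)) = S.A (H (S.lam g x)) :=
        (lamt g z₁ hz₁K).eventually (hAe z₁ (Or.inr rfl))
      have hc' : ∀ y, (S.lam g')⁻¹ (S.A y) = S.A ((S.lam g')⁻¹ y) := by
        intro y
        rw [← D.mul_apply, ← D.mul_apply, ((S.comm_A_lam g').inv_right).eq]
      filter_upwards [ψz₁, (At z₁ hz₁K).eventually ψz₁, e0] with x hx1 hx2 hx3
      rw [hx2, hx1, ← D.mul_apply (S.lam g) S.A, ← (S.comm_A_lam g).eq, D.mul_apply, hx3, hc']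
  -- signs
  choose s hs_ using fun g => hψOK.sign_const hnf hzK hz₁K hz.lt g
  set d : ℤ × ℤ := g - g' with hdd
  have hd0 : d ≠ 0 := sub_ne_zero.2 hne
  -- near `z₁`: ψ = H ∘ lam d
  have ψz₁' : ∀ᶠ w in 𝓝 z₁, ψ w = H (S.lam d w) := by
    filter_upwards [ψz₁, (lamt g z₁ hz₁K).eventually (hlamz₁ (-g'))] with w hw1 hw2
    have e : S.lam d = S.lam (-g') * S.lam g := by
      rw [← S.lam_add]; congr 1
      rw [hdd]; abel
    rw [hw1, ← S.lam_neg, ← hw2, e, D.mul_apply]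
  let R : (ℤ × ℤ) → ℝ → SignType := fun g y => SignType.sign ((H y - S.lam g y) * (S.A y - y))
  have Rz : ∀ g, ∀ᶠ y in 𝓝[≠] z, R g y = s g := by
    intro g
    filter_upwards [hs_ g z hzI, ψz.filter_mono nhdsWithin_le_nhds] with y hy1 hy2
    rw [← hy1]
    show SignType.sign ((H y - S.lam g y) * (S.A y - y)) =
      SignType.sign ((ψ y - S.lam g y) * (S.A y - y))
    rw [hy2]
  have Rz₁ : ∀ g, ∀ᶠ y in 𝓝[≠] z₁, R g y = s (g + d) := by
    intro g
    have e1 : ∀ᶠ w in 𝓝[≠] z₁, R g (S.lam d w) = s (g + d) := by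
      filter_upwards [hs_ (g + d) z₁ hz₁I, ψz₁'.filter_mono nhdsWithin_le_nhds] with w hw1 hw2
      rw [← hw1]
      show SignType.sign ((H (S.lam d w) - S.lam g (S.lam d w)) *
        (S.A (S.lam d w) - S.lam d w)) = SignType.sign ((ψ w - S.lam (g + d) w) * (S.A w - w))
      rw [← hw2, S.lam_add, D.mul_apply, sign_mul, sign_mul]
      congr 1
      rw [← D.mul_apply S.A, (S.comm_A_lam d).eq, D.mul_apply, nc_sign_map]
    have e2 : Tendsto (fun y => (S.lam d)⁻¹ y) (𝓝[≠] z₁) (𝓝[≠] z₁) := by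
      refine tendsto_nhdsWithin_of_tendsto_nhds_of_eventually_within _ ?_ ?_
      · have := ((D.continuous (S.lam d)⁻¹).tendsto z₁)
        rw [nc_inv_fix (S.lam_fix d hz₁K)] at this
        exact this.mono_left nhdsWithin_le_nhds
      · filter_upwards [self_mem_nhdsWithin] with y hy
        intro h
        apply hy
        have : (S.lam d)⁻¹ y = (S.lam d)⁻¹ z₁ := by
          rw [nc_inv_fix (S.lam_fix d hz₁K)]; exact h
        exact D.injective _ this
    filter_upwards [e2.eventually e1] with y hy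
    rwa [D.apply_inv_self] at hy
  -- transport by `hh`
  have hstep : ∀ g, s g = s (g + d) := by
    intro g
    have e1 : ∀ᶠ y in 𝓝[>] z, R g y = s g := (Rz g).filter_mono
      (nhdsWithin_mono _ (fun y hy => ne_of_gt hy))
    have e2 : Tendsto (fun y => hh y) (𝓝[>] z) (𝓝[≠] z₁) := by
      refine tendsto_nhdsWithin_of_tendsto_nhds_of_eventually_within _ ?_ ?_
      · have := ((D.continuous hh).tendsto z)
        rw [hhz] at this
        exact this.mono_left nhdsWithin_le_nhds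
      · filter_upwards [self_mem_nhdsWithin] with y hy
        intro h
        have h' : hh y = z₁ := h
        rw [← hhz] at h'
        exact (ne_of_gt hy) (D.injective _ h')
    have e3 : ∀ᶠ y in 𝓝[>] z, y ∈ Icc z z₁ := by
      have : Icc z z₁ ∈ 𝓝[>] z := Icc_mem_nhdsGT_of_mem ⟨le_rfl, hz.lt⟩
      exact this
    obtain ⟨y, hy1, hy2, hy3⟩ := (e1.and ((e2.eventually (Rz₁ g)).and e3)).exists
    rw [← hy1, ← hy2]
    show SignType.sign ((H y - S.lam g y) * (S.A y - y)) =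
      SignType.sign ((H (hh y) - S.lam g (hh y)) * (S.A (hh y) - hh y))
    have c1 : Commute hh S.A := by
      rw [hhdef]
      exact (((T_comm _).zpow_left l)).mul_left (S.comm_FA.pow_left j)
    have c2 : Commute hh (S.lam g) := by
      rw [hhdef]
      exact (((T_comm _).zpow_left l)).mul_left ((S.comm_F_lam g).pow_left j)
    have k1 : S.lam g (hh y) = hh (S.lam g y) := by
      change (S.lam g * hh) y = (hh * S.lam g) y
      rw [c2.eq]
    have k2 : S.A (hh y) = hh (S.A y) := by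
      change (S.A * hh) y = (hh * S.A) y
      rw [c1.eq]
    rw [hHh y hy3, k1, k2, sign_mul, sign_mul, nc_sign_map hh, nc_sign_map hh]
  have hconst : ∀ n : ℤ, s (n • d) = s 0 := by
    have hp1 : ∀ m : ℕ, s (m • d) = s 0 := by
      intro m
      induction m with
      | zero => simp
      | succ m ih => rw [succ_nsmul, ← hstep, ih]
    have hp2 : ∀ m : ℕ, s (-(m • d)) = s 0 := by
      intro m
      induction m with
      | zero => simp
      | succ m ih =>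
        have := hstep (-((m + 1) • d))
        rw [this, ← ih]
        congr 1
        rw [succ_nsmul]; abel
    intro n
    cases n with
    | ofNat m => simpa using hp1 m
    | negSucc m => rw [negSucc_zsmul]; exact hp2 _
  -- final contradiction at the midpoint
  set x : ℝ := (z + p₁) / 2 with hx
  have hxI : x ∈ Ioo z p₁ := ⟨by rw [hx]; linarith [hI.lt], by rw [hx]; linarith [hI.lt]⟩
  have hxK : x ∉ S.K := hI.disj x hxI
  have hxz : x ∈ Icc z z₁ := ⟨hxI.1.le, hxI.2.le.trans hp⟩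
  have hAx : S.A x - x ≠ 0 := sub_ne_zero.2 (nc_A_free hnf hxK)
  have hfreed : ∀ y ∈ Ioo z p₁, S.lam d y ≠ y := fun y hy => lam_free hnf hd0 (hI.disj y hy)
  have hψp₁ : ψ p₁ = p₁ := hψOK.fix hnf hI.h₁ ⟨hI.lt.le, hp⟩
  have hψx : ψ x ∈ Ioo z p₁ := nc_Ioo hψOK.mono hψOK.fz hψp₁ hxI
  obtain ⟨⟨n, hn⟩, ⟨m, hm⟩⟩ := nc_orbit (S.lam_fix d hI.h₀) (S.lam_fix d hI.h₁) hfreed hxI
    hψx.1 hψx.2
  have hval : ∀ g, ψ x ≠ S.lam g x → ncq S ψ g x = s g := by
    intro g hg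
    have e1 := nc_eventually_sign hψOK.sm.continuous g (x := x)
      (mul_ne_zero (sub_ne_zero.2 hg) hAx)
    obtain ⟨y, hy1, hy2⟩ := ((e1.filter_mono nhdsWithin_le_nhds).and (hs_ g x hxz)).exists
    rw [← hy1, hy2]
  have v1 := hval (n • d) (by rw [nc_lam_zpow]; exact hn.ne)
  have v2 := hval (m • d) (by rw [nc_lam_zpow]; exact hm.ne')
  rw [hconst] at v1 v2
  rw [← v2] at v1
  unfold ncq at v1
  rw [sign_mul, sign_mul, nc_lam_zpow, nc_lam_zpow, sign_neg (sub_neg.2 hn),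
    sign_pos (sub_pos.2 hm)] at v1
  have hsA : SignType.sign (S.A x - x) ≠ 0 := by simpa using hAx
  revert v1 hsA
  generalize SignType.sign (S.A x - x) = t
  revert t
  decide

end

end Pool.Agent.Helper638.Ros
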