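import Pool.Agent.Helper638_Ros.SysMk
import Pool.Agent.Helper638_Ros.Dist

/-!
# Distortion along paths of a free action
-/

set_option autoImplicit false

namespace Pool.Agent.Helper638.Ros

open Filter Function Set Topology

namespace Sys

variable {S : Sys} {M : ℕ → ℝ}

/-- the steps of a path, continued by the identity -/
noncomputable def pdStep (S : Sys) (q : ℕ → ℤ × ℤ × ℤ) (m : ℕ) (a : ℕ) : ℝ → ℝ :=
  S.A (if a < m then q (a + 1) - q a else 0)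

theorem pd_bdd (hM : S.IsL M) {q : ℕ → ℤ × ℤ × ℤ} {m : ℕ} (hq : IsPath q m) :
    Bdd (pdStep S q m) M where
  smooth a := D.smooth _
  pos a x := D.pos _ x
  bd a i _ x := by
    refine hM.2 _ ?_ i x
    split_ifs with h
    · exact hq.2 a h
    · simp [len]

theorem pd_Q {q : ℕ → ℤ × ℤ × ℤ} {m : ℕ} (hq : IsPath q m) {a : ℕ} (ha : a ≤ m) :
    Q (pdStep S q m) a = S.A (q a) := by
  induction a with
  | zero =>
    funext x
    rw [hq.1, S.A_zero]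
    rfl
  | succ a ih =>
    have h1 := ih (by omega)
    funext x
    change pdStep S q m a (Q (pdStep S q m) a x) = _
    rw [h1, pdStep, if_pos (by omega), ← S.A_apply_add, sub_add_cancel]

theorem pd_sum {q : ℕ → ℤ × ℤ × ℤ} {m : ℕ} (hq : IsPath q m) (x₀ x₁ : ℝ) {b : ℕ}
    (hb : b ≤ m + 1) : ∑ a ∈ Finset.range b, (Q (pdStep S q m) a x₁ - Q (pdStep S q m) a x₀) =
      ∑ a ∈ Finset.range b, (S.A (q a) x₁ - S.A (q a) x₀) := by
  refine Finset.sum_congr rfl fun a ha => ?_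
  rw [Finset.mem_range] at ha
  rw [pd_Q hq (by omega)]

theorem dist1 (hM : S.IsL M) {q : ℕ → ℤ × ℤ × ℤ} {m : ℕ} (hq : IsPath q m) (x y : ℝ) :
    |Real.log (deriv (S.A (q m)) x) - Real.log (deriv (S.A (q m)) y)| ≤
      M 1 * ∑ a ∈ Finset.range m, |S.A (q a) x - S.A (q a) y| := by
  have h1 := (pd_bdd hM hq).dist1 m x y
  rw [pd_Q hq le_rfl] at h1
  refine h1.trans (le_of_eq ?_)
  congr 1
  refine Finset.sum_congr rfl fun a ha => ?_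
  rw [Finset.mem_range] at ha
  rw [pd_Q hq (by omega)]

theorem dist1_Icc (hM : S.IsL M) {q : ℕ → ℤ × ℤ × ℤ} {m : ℕ} (hq : IsPath q m) {x₀ x₁ s : ℝ}
    (hx : x₀ < x₁) (hs : ∑ a ∈ Finset.range m, (S.A (q a) x₁ - S.A (q a) x₀) ≤ s) {x : ℝ}
    (hx' : x ∈ Icc x₀ x₁) :
    deriv (S.A (q m)) x ≤ Real.exp (M 1 * s) * ((S.A (q m) x₁ - S.A (q m) x₀) / (x₁ - x₀)) ∧
    Real.exp (-(M 1 * s)) * ((S.A (q m) x₁ - S.A (q m) x₀) / (x₁ - x₀)) ≤
      deriv (S.A (q m)) x := by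
  rw [← pd_sum hq x₀ x₁ (Nat.le_succ m)] at hs
  have h1 := (pd_bdd hM hq).dist1_Icc m hx hs hx'
  rwa [pd_Q hq le_rfl] at h1

theorem distr (hM : S.IsL M) (r : ℕ) (hr : 1 ≤ r) : ∃ (C : ℝ) (e : ℕ), 0 ≤ C ∧
    ∀ (q : ℕ → ℤ × ℤ × ℤ) (m : ℕ), IsPath q m → ∀ (x₀ x₁ s : ℝ), x₀ < x₁ →
    ∑ a ∈ Finset.range (m + 1), (S.A (q a) x₁ - S.A (q a) x₀) ≤ s → ∀ x ∈ Icc x₀ x₁, ∀ a, a ≤ m →
    (x₁ - x₀) ^ r * |iteratedDeriv r (fun y => Real.log (deriv (S.A (q a)) y)) x| ≤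
      C * s * (Real.exp (M 1 * s) * (1 + s)) ^ e := by
  obtain ⟨C, e, hC, h⟩ := Ros.distr M r hr
  refine ⟨C, e, hC, fun q m hq x₀ x₁ s hx hs x hxI a ha => ?_⟩
  rw [← pd_sum hq x₀ x₁ le_rfl] at hs
  have h1 := h (pdStep S q m) (pd_bdd hM hq) m x₀ x₁ s hx hs x hxI a ha
  rwa [pd_Q hq ha] at h1

end Sys

end Pool.Agent.Helper638.Ros
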