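import Pool.Agent.Helper638_Ros.Shift_a

/-!
# Construction of the shift of one map, and convergence
-/

set_option autoImplicit false

namespace Pool.Agent.Helper638.Ros

open Filter Function Set Topology

/-- a smooth step -/
theorem shf_step {a b : ℝ} (hab : a < b) : ∃ χ : ℝ → ℝ, Smooth χ ∧ (∀ x, x ≤ a → χ x = 0) ∧ ∀ x, b ≤ x → χ x = 1 := by
  refine ⟨fun x => Real.smoothTransition ((x - a) / (b - a)), ?_, ?_, ?_⟩
  · exact Real.smoothTransition.contDiff.comp ((contDiff_id.sub contDiff_const).div_const _)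
  · intro x hx
    exact Real.smoothTransition.zero_of_nonpos (div_nonpos_of_nonpos_of_nonneg (by linarith) (by linarith))
  · intro x hx
    refine Real.smoothTransition.one_of_one_le ?_
    rw [one_le_div (by linarith)]
    linarith

theorem shf_mkK (γ : D) {z a₁ a₂ b₁ b₂ : ℝ} {χ χ₂ : ℝ → ℝ} (hz : z < a₁) (h12 : a₂ < b₁) (h23 : b₁ < b₂)
    (h3 : b₂ < z + 1) (hχ : Smooth χ) (hχ0 : ∀ x, x ≤ a₁ → χ x = 0) (hχ1 : ∀ x, a₂ ≤ x → χ x = 1)
    (hψ : Smooth χ₂) (hψ1 : ∀ x, x ≤ b₁ → χ₂ x = 1) (hψ0 : ∀ x, b₂ ≤ x → χ₂ x = 0)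
    (hd : ∀ x, -1 < deriv (fun x => (χ x * χ₂ x) * (γ x - x)) x) :
    ∃ (Kt : D) (κ κ' : ℝ → ℝ), ShfK γ Kt κ κ' z a₁ a₂ b₁ ∧
      ∀ x, ∃ y, ∀ s, iteratedDeriv s Kt x - iteratedDeriv s (fun t : ℝ => t) x =
        iteratedDeriv s (fun x => (χ x * χ₂ x) * (γ x - x)) y := by
  have hγ := D.smooth γ
  have hh : Smooth (fun x => (χ x * χ₂ x) * (γ x - x)) := (hχ.mul hψ).mul (hγ.sub contDiff_id)
  obtain ⟨H, H1, H2, H3, H4⟩ := shf_perio hh hz h3 (fun x hx => by simp [hχ0 x hx]) (fun x hx => by simp [hψ0 x hx])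
  have Hdiff : Differentiable ℝ H := H1.differentiable (by simp)
  have hK : IsD (fun x => x + H x) := by
    refine ⟨contDiff_id.add H1, fun x => ?_, fun x => ?_⟩
    · show x + 1 + H (x + 1) = x + H x + 1
      rw [H2]
      ring
    · have e1 : deriv (fun x => x + H x) x = 1 + deriv H x := by
        rw [deriv_fun_add differentiableAt_fun_id (Hdiff x)]
        simp
      obtain ⟨y, hy⟩ := H4 x
      have e2 := hy 1
      rw [iteratedDeriv_one, iteratedDeriv_one] at e2
      rw [e1, e2]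
      linarith [hd y]
  set κ : ℝ → ℝ := fun x => x + χ x * (γ x - x) with hκ
  have κs : Smooth κ := contDiff_id.add (hχ.mul (hγ.sub contDiff_id))
  have κl : ∀ x, x ≤ a₁ → κ x = x := fun x hx => by simp [hκ, hχ0 x hx]
  have κr : ∀ x, a₂ ≤ x → κ x = γ x := fun x hx => by simp [hκ, hχ1 x hx]
  have hdiff : Differentiable ℝ (fun x => (χ x * χ₂ x) * (γ x - x)) := hh.differentiable (by simp)
  have κp : ∀ x, 0 < deriv κ x := by
    intro x
    rcases lt_or_ge x b₁ with hx | hx
    · have e : κ =ᶠ[𝓝 x] (fun x => x + (χ x * χ₂ x) * (γ x - x)) := by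
        filter_upwards [eventually_lt_nhds hx] with y hy
        simp [hκ, hψ1 y hy.le]
      rw [e.deriv_eq, deriv_fun_add differentiableAt_fun_id (hdiff x)]
      have := hd x
      simp only [deriv_id'']
      linarith
    · have e : κ =ᶠ[𝓝 x] (γ : ℝ → ℝ) := by
        filter_upwards [eventually_gt_nhds (h12.trans_le hx)] with y hy
        exact κr y hy.le
      rw [e.deriv_eq]
      exact D.pos γ x
  have κsurj : Surjective κ := by
    intro y
    refine mem_range_of_exists_le_of_exists_ge κs.continuous ⟨min a₁ y, ?_⟩ ⟨max a₂ (γ⁻¹ y), ?_⟩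
    · rw [κl _ (min_le_left _ _)]
      exact min_le_right _ _
    · rw [κr _ (le_max_left _ _)]
      have := (D.strictMono γ).monotone (le_max_right a₂ (γ⁻¹ y))
      rwa [D.apply_inv_self] at this
  obtain ⟨κ', k1, k2, k3⟩ := shf_inv κs κp κsurj
  refine ⟨mk _ hK, κ, κ', ⟨κs, k1, κp, k2, k3, κl, κr, ?_⟩, ?_⟩
  · intro x hx
    show x + H x = x + χ x * (γ x - x)
    rw [H3 x ⟨hx.1, by linarith [hx.2]⟩, hψ1 x hx.2, mul_one]
  · intro x
    obtain ⟨y, hy⟩ := H4 x
    refine ⟨y, fun s => ?_⟩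
    rw [← hy s]
    show iteratedDeriv s (fun x => x + H x) x - _ = _
    have hid : ContDiffAt ℝ (s : ℕ∞) (fun t : ℝ => t) x := contDiff_id.contDiffAt
    rw [iteratedDeriv_fun_add hid ((H1.of_le (by exact_mod_cast le_top)).contDiffAt)]
    ring

/-- convergence of the cut off differences -/
theorem shf_lim {z p₁ a b : ℝ} {γ : ℕ → D} {f : ℝ → ℝ} (hf : Smooth f) (hz : z < a) (hb : b < p₁)
    (h0 : ∀ x, x ≤ a → f x = 0) (h1 : ∀ x, b ≤ x → f x = 0)
    (hγ : ∀ c d : ℝ, z < c → d < p₁ → ∀ s : ℕ, TendstoUniformlyOn (fun n => iteratedDeriv s (γ n))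
        (iteratedDeriv s (fun x : ℝ => x)) atTop (Icc c d)) (s : ℕ) {ε : ℝ} (hε : 0 < ε) :
    ∀ᶠ n in atTop, ∀ x, |iteratedDeriv s (fun x => f x * (γ n x - x)) x| < ε := by
  have hC : ∀ i, ∃ C : ℝ, ∀ x ∈ Icc a b, |iteratedDeriv i f x| ≤ C := by
    intro i
    have hc : Continuous (iteratedDeriv i f) := hf.continuous_iteratedDeriv i (by exact_mod_cast le_top)
    obtain ⟨C, hC⟩ := isCompact_Icc.exists_bound_of_continuousOn (s := Icc a b) hc.continuousOn
    exact ⟨C, fun x hx => hC x hx⟩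
  choose C hC using hC
  set M : ℝ := 1 + ∑ i ∈ Finset.range (s + 1), |C i| with hM
  have hM0 : 0 < M := by
    have : 0 ≤ ∑ i ∈ Finset.range (s + 1), |C i| := Finset.sum_nonneg fun i _ => abs_nonneg _
    linarith
  have hM1 : ∀ i, i ≤ s → ∀ x ∈ Icc a b, |iteratedDeriv i f x| ≤ M := by
    intro i hi x hx
    have e1 := hC i x hx
    have e2 : |C i| ≤ ∑ i ∈ Finset.range (s + 1), |C i| :=
      Finset.single_le_sum (f := fun i => |C i|) (fun i _ => abs_nonneg _) (Finset.mem_range.2 (by omega))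
    have e3 := le_abs_self (C i)
    linarith
  set η : ℝ := ε / (2 * (2 ^ s * M)) with hη
  have hη0 : 0 < η := by positivity
  have h2 : ∀ i ∈ Finset.range (s + 1), ∀ᶠ n in atTop, ∀ x ∈ Icc a b,
      |iteratedDeriv i (γ n) x - iteratedDeriv i (fun x : ℝ => x) x| < η := by
    intro i _
    have := Metric.tendstoUniformlyOn_iff.1 (hγ a b hz hb i) η hη0
    filter_upwards [this] with n hn x hx
    rw [← Real.dist_eq, dist_comm]
    exact hn x hx
  rw [← eventually_all_finset] at h2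
  filter_upwards [h2] with n hn x
  by_cases hx : x ∈ Icc a b
  · have e := mul_bd (f := f) (g := fun y => γ n y - y) (x := x) (n := s) (C := M) (B := η) hf.contDiffAt
      ((D.smooth (γ n)).sub contDiff_id).contDiffAt (fun i hi => hM1 i hi x hx) ?_
    · refine e.trans_lt ?_
      rw [hη]
      have : 2 ^ s * M * (ε / (2 * (2 ^ s * M))) = ε / 2 := by
        field_simp
      rw [this]
      linarith
    · intro i hi
      have e1 := hn i (Finset.mem_range.2 (by omega)) x hx
      have hid : ContDiffAt ℝ (i : ℕ∞) (fun t : ℝ => t) x := contDiff_id.contDiffAt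
      rw [iteratedDeriv_fun_sub (((D.smooth (γ n)).of_le (by exact_mod_cast le_top)).contDiffAt) hid]
      exact e1.le
  · have e : (fun x => f x * (γ n x - x)) =ᶠ[𝓝 x] (fun _ => (0 : ℝ)) := by
      rw [mem_Icc, not_and_or] at hx
      rcases hx with hx | hx
      · push Not at hx
        filter_upwards [eventually_lt_nhds hx] with y hy
        rw [h0 y hy.le, zero_mul]
      · push Not at hx
        filter_upwards [eventually_gt_nhds hx] with y hy
        rw [h1 y hy.le, zero_mul]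
    rw [e.iteratedDeriv_eq s]
    simp only [iteratedDeriv_const]
    split_ifs <;> simpa using hε

/-- locally equal to a convergent sequence or to the identity -/
theorem shf_conv {al M : ℕ → D} (hM : Conv (fun n => M n) (1 : D))
    (h : ∀ n x, ((al n : ℝ → ℝ) =ᶠ[𝓝 x] (M n : ℝ → ℝ)) ∨ ((al n : ℝ → ℝ) =ᶠ[𝓝 x] (fun y => y))) :
    Conv (fun n => al n) (1 : D) := by
  intro i
  rw [Metric.tendstoUniformly_iff]
  intro ε hε
  filter_upwards [Metric.tendstoUniformly_iff.1 (hM i) ε hε] with n hn x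
  rcases h n x with h1 | h1
  · rw [h1.iteratedDeriv_eq i]
    exact hn x
  · rw [h1.iteratedDeriv_eq i]
    have : ((1 : D) : ℝ → ℝ) = fun y => y := rfl
    rw [this, dist_self]
    exact hε

end Pool.Agent.Helper638.Ros
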