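import Pool.Agent.Helper638_Ros.Sz
import Pool.Agent.Helper638_Ros.ConvOps
import Pool.Agent.Helper638_Ros.Shift_b

/-!
# The shift perturbations (paper 2.5 (e))
-/

set_option autoImplicit false

namespace Pool.Agent.Helper638.Ros

open Filter Function Set Topology

/-- The data produced by the shift construction on `(z, p₁) ⊆ (z, z₁)`. -/
structure ShiftData (S : Sys2) (z z₁ p₁ c₁ c₂ : ℝ) (g : ℤ × ℤ) (κ κ' : ℝ → ℝ) (al be : D) :
    Prop where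
  hg : g ≠ 0
  sm : Smooth κ
  sm' : Smooth κ'
  pos : ∀ x, 0 < deriv κ x
  left : ∀ x, κ' (κ x) = x
  right : ∀ x, κ (κ' x) = x
  id_left : ∀ x, x ≤ c₁ → κ x = x
  eq_right : ∀ x, c₂ ≤ x → κ x = S.lam g x
  al_supp : SuppC c₁ c₂ al
  be_supp : SuppC c₁ c₂ be
  al_eq : ∀ x ∈ Icc z z₁, (S.A * al) x = κ (S.A (κ' x))
  be_eq : ∀ x ∈ Icc z z₁, (S.G * be) x = κ (S.G (κ' x))
  comm : Commute (S.A * al) (S.G * be)

theorem exists_shift {S : Sys2} (hnf : NonFlat S) {z z₁ p₁ : ℝ} (hz : Nxt S z z₁)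
    (hI : Cons S z p₁) (hp : p₁ ≤ z₁) :
    ∃ (c₁ c₂ : ℝ) (g : ℕ → ℤ × ℤ) (κ κ' : ℕ → ℝ → ℝ) (al be : ℕ → D),
      z < c₁ ∧ c₁ < c₂ ∧ c₂ < p₁ ∧
      (∀ n, ShiftData S z z₁ p₁ c₁ c₂ (g n) (κ n) (κ' n) (al n) (be n)) ∧
      (∀ x ∈ Ioo z p₁, Tendsto (fun n => S.lam (g n) x) atTop (𝓝 x)) ∧
      Conv (fun n => al n) (1 : D) ∧ Conv (fun n => be n) (1 : D) := by
  obtain ⟨g, g0, hg⟩ := exists_gamma hnf hI
  have Az : S.A z = z := hz.hz.1
  have Gz : S.G z = z := hz.hz.2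
  have Ap : S.A p₁ = p₁ := hI.h₁.1
  have Gp : S.G p₁ = p₁ := hI.h₁.2
  have Az' : S.A⁻¹ z = z := by nth_rewrite 1 [← Az]; exact D.inv_apply_self _ _
  have Gz' : S.G⁻¹ z = z := by nth_rewrite 1 [← Gz]; exact D.inv_apply_self _ _
  have Ap' : S.A⁻¹ p₁ = p₁ := by nth_rewrite 1 [← Ap]; exact D.inv_apply_self _ _
  have Gp' : S.G⁻¹ p₁ = p₁ := by nth_rewrite 1 [← Gp]; exact D.inv_apply_self _ _
  have hlt := hI.lt
  have hz1 := hz.le
  -- the points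
  set a₁ : ℝ := (2 * z + p₁) / 3 with ha₁
  set a₂ : ℝ := (z + 2 * p₁) / 3 with ha₂
  have q1 : z < a₁ := by rw [ha₁]; linarith
  have q2 : a₁ < a₂ := by rw [ha₁, ha₂]; linarith
  have q3 : a₂ < p₁ := by rw [ha₂]; linarith
  obtain ⟨c₁, c1a, c1b, c1c, c1d⟩ : ∃ c₁, z < c₁ ∧ c₁ < a₁ ∧ S.A c₁ < a₁ ∧ S.G c₁ < a₁ := by
    have e1 : ∀ᶠ x in 𝓝 z, x < a₁ := eventually_lt_nhds q1
    have e2 : ∀ᶠ x in 𝓝 z, S.A x < a₁ :=
      ((D.continuous S.A).tendsto z).eventually (eventually_lt_nhds (by rw [Az]; exact q1))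
    have e3 : ∀ᶠ x in 𝓝 z, S.G x < a₁ :=
      ((D.continuous S.G).tendsto z).eventually (eventually_lt_nhds (by rw [Gz]; exact q1))
    have e4 := ((e1.and (e2.and e3)).filter_mono (nhdsWithin_le_nhds (s := Ioi z))).and self_mem_nhdsWithin
    obtain ⟨x, ⟨x1, x2, x3⟩, x4⟩ := e4.exists
    exact ⟨x, x4, x1, x2, x3⟩
  have Aa : S.A⁻¹ a₂ < p₁ := by
    have := D.strictMono S.A⁻¹ q3
    rwa [Ap'] at this
  have Ga : S.G⁻¹ a₂ < p₁ := by
    have := D.strictMono S.G⁻¹ q3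
    rwa [Gp'] at this
  have Aa0 : z < S.A⁻¹ a₂ := by
    have := D.strictMono S.A⁻¹ (q1.trans q2)
    rwa [Az'] at this
  have Ga0 : z < S.G⁻¹ a₂ := by
    have := D.strictMono S.G⁻¹ (q1.trans q2)
    rwa [Gz'] at this
  obtain ⟨c₂, c2a, c2b⟩ := exists_between (max_lt q3 (max_lt Aa Ga))
  have c2c : a₂ < c₂ := (le_max_left _ _).trans_lt c2a
  have c2d : S.A⁻¹ a₂ < c₂ := ((le_max_left _ _).trans (le_max_right _ _)).trans_lt c2a
  have c2e : S.G⁻¹ a₂ < c₂ := ((le_max_right _ _).trans (le_max_right _ _)).trans_lt c2a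
  have c12 : c₁ < c₂ := by linarith
  have Ac : S.A c₂ < p₁ := by
    have := D.strictMono S.A c2b
    rwa [Ap] at this
  have Gc : S.G c₂ < p₁ := by
    have := D.strictMono S.G c2b
    rwa [Gp] at this
  obtain ⟨b₁, b1a, b1b⟩ := exists_between (max_lt c2b (max_lt Ac Gc))
  have b1c : c₂ < b₁ := (le_max_left _ _).trans_lt b1a
  have b1d : S.A c₂ < b₁ := ((le_max_left _ _).trans (le_max_right _ _)).trans_lt b1a
  have b1e : S.G c₂ < b₁ := ((le_max_right _ _).trans (le_max_right _ _)).trans_lt b1a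
  have b1f : c₂ < S.A⁻¹ b₁ := by
    have := D.strictMono S.A⁻¹ b1d
    rwa [D.inv_apply_self] at this
  have b1g : c₂ < S.G⁻¹ b₁ := by
    have := D.strictMono S.G⁻¹ b1e
    rwa [D.inv_apply_self] at this
  have b1h : S.A⁻¹ b₁ < p₁ := by
    have := D.strictMono S.A⁻¹ b1b
    rwa [Ap'] at this
  have b1i : S.G⁻¹ b₁ < p₁ := by
    have := D.strictMono S.G⁻¹ b1b
    rwa [Gp'] at this
  obtain ⟨b₂, b2a, b2b⟩ := exists_between b1b
  -- the cut off functions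
  obtain ⟨χ, hχ, hχ0, hχ1⟩ := shf_step q2
  obtain ⟨ψ, hψ, hψ0, hψ1⟩ := shf_step b2a
  set χ₂ : ℝ → ℝ := fun x => 1 - ψ x with hχ₂
  have hχ₂s : Smooth χ₂ := contDiff_const.sub hψ
  have hχ₂1 : ∀ x, x ≤ b₁ → χ₂ x = 1 := fun x hx => by simp [hχ₂, hψ0 x hx]
  have hχ₂0 : ∀ x, b₂ ≤ x → χ₂ x = 0 := fun x hx => by simp [hχ₂, hψ1 x hx]
  have hlim := fun (s : ℕ) (ε : ℝ) (hε : 0 < ε) => shf_lim (z := z) (p₁ := p₁) (a := a₁) (b := b₂)
    (γ := fun n => S.lam (g n)) (f := fun x => χ x * χ₂ x) (hχ.mul hχ₂s) q1 b2b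
    (fun x hx => by simp [hχ0 x hx]) (fun x hx => by simp [hχ₂0 x hx]) hg s hε
  have pt : ∀ y ∈ Ioo z p₁, Tendsto (fun n => S.lam (g n) y) atTop (𝓝 y) := by
    intro y hy
    have := (hg y y hy.1 hy.2 0).tendsto_at (x := y) ⟨le_rfl, le_rfl⟩
    simpa using this
  -- everything that has to hold for large n
  have ev : ∀ᶠ n in atTop, S.lam (g n) a₂ < c₂ ∧ S.lam (g n) (S.A⁻¹ a₂) < c₂ ∧ S.lam (g n) (S.G⁻¹ a₂) < c₂ ∧
      c₂ < S.lam (g n) b₁ ∧ c₂ < S.lam (g n) (S.A⁻¹ b₁) ∧ c₂ < S.lam (g n) (S.G⁻¹ b₁) ∧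
      ∀ x, -1 < deriv (fun x => (χ x * χ₂ x) * (S.lam (g n) x - x)) x := by
    filter_upwards [(pt a₂ ⟨by linarith, q3⟩).eventually (eventually_lt_nhds c2c),
      (pt _ ⟨Aa0, Aa⟩).eventually (eventually_lt_nhds c2d), (pt _ ⟨Ga0, Ga⟩).eventually (eventually_lt_nhds c2e),
      (pt b₁ ⟨by linarith, b1b⟩).eventually (eventually_gt_nhds b1c),
      (pt _ ⟨by linarith, b1h⟩).eventually (eventually_gt_nhds b1f),
      (pt _ ⟨by linarith, b1i⟩).eventually (eventually_gt_nhds b1g), hlim 1 1 one_pos] with n n1 n2 n3 n4 n5 n6 n7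
    refine ⟨n1, n2, n3, n4, n5, n6, fun x => ?_⟩
    have := n7 x
    rw [iteratedDeriv_one] at this
    exact (abs_lt.1 this).1
  obtain ⟨n₀, hn₀⟩ := eventually_atTop.1 ev
  have hn : ∀ n, _ := fun n => hn₀ (n + n₀) (Nat.le_add_left _ _)
  have mk := fun n => shf_mkK (S.lam (g (n + n₀))) (z := z) (a₁ := a₁) (a₂ := a₂) (b₁ := b₁) (b₂ := b₂)
    q1 (by linarith) b2a (by linarith) hχ hχ0 hχ1 hχ₂s hχ₂1 hχ₂0 (hn n).2.2.2.2.2.2
  choose Kt κ κ' hK hKd using mk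
  have exA := fun n => shf_al (hK n) S.A Az (S.comm_A_lam (g (n + n₀))) q1 c1a c1b c1c c12 (by linarith)
    (hn n).1 (hn n).2.1 (hn n).2.2.2.1 (hn n).2.2.2.2.1 (by linarith) (by linarith)
  have exG := fun n => shf_al (hK n) S.G Gz (S.comm_G_lam (g (n + n₀))) q1 c1a c1b c1d c12 (by linarith)
    (hn n).1 (hn n).2.2.1 (hn n).2.2.2.1 (hn n).2.2.2.2.2.1 (by linarith) (by linarith)
  choose al hal1 hal2 hal3 using exA
  choose be hbe1 hbe2 hbe3 using exG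
  -- convergence of the periodic shifts
  have hKt : Conv (fun n => Kt n) (1 : D) := by
    intro i
    rw [Metric.tendstoUniformly_iff]
    intro ε hε
    have e1 := (hlim i ε hε)
    have e2 := (tendsto_add_atTop_nat n₀).eventually e1
    filter_upwards [e2] with n hn x
    obtain ⟨y, hy⟩ := hKd n x
    rw [dist_comm, Real.dist_eq]
    have : ((1 : D) : ℝ → ℝ) = fun t => t := rfl
    rw [this, hy i]
    exact hn y
  have hM : ∀ P : D, Conv (fun n => (P⁻¹ * Kt n * P * (Kt n)⁻¹ : D)) (1 : D) := by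
    intro P
    have e := (((Conv.const (P⁻¹ : D)).mul (Fn := fun _ => P⁻¹) hKt).mul (Conv.const (P : D) : Conv (fun _ : ℕ => ((P : D) : ℝ → ℝ)) P)
      (Gn := fun _ => P)).mul (hKt.inv (Fn := Kt)) (Gn := fun n => (Kt n)⁻¹)
    have e1 : (P⁻¹ * 1 * P * 1⁻¹ : D) = 1 := by simp
    rw [e1] at e
    exact e
  refine ⟨c₁, c₂, fun n => g (n + n₀), κ, κ', al, be, c1a, c12, c2b, fun n => ?_, fun x hx => ?_,
    shf_conv (hM S.A) hal3, shf_conv (hM S.G) hbe3⟩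
  · have Uz : (S.A * al n) z = z := by
      rw [hal2 n z ⟨le_rfl, by linarith⟩]
      have : κ' n z = z := by
        have := (hK n).left z
        rwa [(hK n).idl z q1.le] at this
      rw [this, Az, (hK n).idl z q1.le]
    have Vz : (S.G * be n) z = z := by
      rw [hbe2 n z ⟨le_rfl, by linarith⟩]
      have : κ' n z = z := by
        have := (hK n).left z
        rwa [(hK n).idl z q1.le] at this
      rw [this, Gz, (hK n).idl z q1.le]
    refine ⟨g0 _, (hK n).sm, (hK n).sm', (hK n).pos, (hK n).left, (hK n).right,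
      fun x hx => (hK n).idl x (by linarith), fun x hx => (hK n).eqr x (by linarith), hal1 n, hbe1 n,
      fun x hx => hal2 n x ⟨hx.1, by linarith [hx.2]⟩, fun x hx => hbe2 n x ⟨hx.1, by linarith [hx.2]⟩,
      shf_comm (hK n).left S.comm_AG (hal2 n) (hbe2 n) Uz Vz⟩
  · exact (pt x hx).comp (tendsto_add_atTop_nat n₀)

end Pool.Agent.Helper638.Ros
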