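import Pool.Agent.Helper638_Ros.ConvOps

/-!
# Auxiliary lemmas for the shift perturbations: restriction, periodisation, inverse functions
-/

set_option autoImplicit false

namespace Pool.Agent.Helper638.Ros

open Filter Function Set Topology

/-- no other integer translate -/
theorem shf_no {c₁ c₂ t : ℝ} (h1 : c₂ < t) (h2 : t < c₁ + 1) (l : ℤ) : t + l ∉ Icc c₁ c₂ := by
  rintro ⟨h3, h4⟩
  have h5 : ((-1 : ℤ) : ℝ) < l := by push_cast; linarith
  have h6 : (l : ℝ) < ((0 : ℤ) : ℝ) := by push_cast; linarith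
  have h7 : (-1 : ℤ) < l := by exact_mod_cast h5
  have h8 : l < 0 := by exact_mod_cast h6
  omega

theorem shf_restr (c : D) {c₁ c₂ : ℝ}
    (n1 : ∀ᶠ x in 𝓝 c₁, c x = x) (n2 : ∀ᶠ x in 𝓝 c₂, c x = x) :
    ∃ r : D, (∀ x : ℝ, (∃ l : ℤ, x + l ∈ Icc c₁ c₂) → r x = c x) ∧
      (∀ x : ℝ, (∀ l : ℤ, x + l ∉ Icc c₁ c₂) → r x = x) ∧
      ∀ x, ((r : ℝ → ℝ) =ᶠ[𝓝 x] (c : ℝ → ℝ)) ∨ ((r : ℝ → ℝ) =ᶠ[𝓝 x] (fun y => y)) := by
  classical
  let f : ℝ → ℝ := fun x => if ∃ l : ℤ, x + l ∈ Icc c₁ c₂ then c x else x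
  have f1 : ∀ x : ℝ, (∃ l : ℤ, x + l ∈ Icc c₁ c₂) → f x = c x := fun x h => if_pos h
  have f2 : ∀ x : ℝ, (¬ ∃ l : ℤ, x + l ∈ Icc c₁ c₂) → f x = x := fun x h => if_neg h
  -- near a translate of a point where `c` is locally the identity
  have bd : ∀ (q x : ℝ) (m : ℤ), (∀ᶠ y in 𝓝 q, c y = y) → x - m = q → f =ᶠ[𝓝 x] (fun y => y) := by
    intro q x m hq hx
    have ht : Tendsto (fun y : ℝ => y - m) (𝓝 x) (𝓝 q) := by
      rw [← hx]
      exact (continuous_id.sub continuous_const).tendsto x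
    filter_upwards [ht.eventually hq] with y hy
    have h3 : c y = y := by
      have h4 := D.add_int c m (y - m)
      rw [hy] at h4
      simpa using h4
    by_cases h : ∃ l : ℤ, y + l ∈ Icc c₁ c₂
    · rw [f1 y h, h3]
    · exact f2 y h
  have key : ∀ x, (f =ᶠ[𝓝 x] (c : ℝ → ℝ)) ∨ (f =ᶠ[𝓝 x] (fun y => y)) := by
    intro x
    set m : ℤ := ⌊x - c₁⌋ with hm
    have hm1 : (m : ℝ) ≤ x - c₁ := Int.floor_le _
    have hm2 : x - c₁ < m + 1 := Int.lt_floor_add_one _
    have ht : Tendsto (fun y : ℝ => y - m) (𝓝 x) (𝓝 (x - m)) := (continuous_id.sub continuous_const).tendsto x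
    rcases lt_trichotomy (x - m) c₂ with h | h | h
    · rcases eq_or_lt_of_le (show c₁ ≤ x - m by linarith) with h' | h'
      · exact Or.inr (bd c₁ x m n1 h'.symm)
      · refine Or.inl ?_
        filter_upwards [ht.eventually (Ioo_mem_nhds h' h)] with y hy
        refine f1 y ⟨-m, ?_⟩
        push_cast
        exact ⟨by linarith [hy.1], by linarith [hy.2]⟩
    · exact Or.inr (bd c₂ x m n2 h)
    · refine Or.inr ?_
      have h' : x - m < c₁ + 1 := by linarith
      filter_upwards [ht.eventually (Ioo_mem_nhds h h')] with y hy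
      refine f2 y ?_
      rintro ⟨l, hl⟩
      refine shf_no hy.1 hy.2 (l + m) ?_
      push_cast
      convert hl using 1
      ring
  have hf : IsD f := by
    refine ⟨?_, ?_, ?_⟩
    · refine contDiff_iff_contDiffAt.2 ?_
      intro x
      rcases key x with h | h
      · exact ((D.smooth c).contDiffAt).congr_of_eventuallyEq h
      · exact (contDiff_id.contDiffAt).congr_of_eventuallyEq h
    · intro x
      by_cases h : ∃ l : ℤ, x + l ∈ Icc c₁ c₂
      · have h' : ∃ l : ℤ, x + 1 + l ∈ Icc c₁ c₂ := by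
          obtain ⟨l, hl⟩ := h
          refine ⟨l - 1, ?_⟩
          push_cast
          convert hl using 1
          ring
        rw [f1 x h, f1 _ h', D.add_one c]
      · have h' : ¬ ∃ l : ℤ, x + 1 + l ∈ Icc c₁ c₂ := by
          rintro ⟨l, hl⟩
          refine h ⟨l + 1, ?_⟩
          push_cast
          convert hl using 1
          ring
        rw [f2 x h, f2 _ h']
    · intro x
      rcases key x with h | h
      · rw [h.deriv_eq]
        exact D.pos c x
      · rw [h.deriv_eq]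
        simp
  refine ⟨mk f hf, fun x hx => f1 x hx, fun x hx => f2 x ?_, key⟩
  rintro ⟨l, hl⟩
  exact hx l hl

theorem shf_perio {h : ℝ → ℝ} (hh : Smooth h) {z a b : ℝ} (ha : z < a) (hb : b < z + 1)
    (h1 : ∀ x, x ≤ a → h x = 0) (h2 : ∀ x, b ≤ x → h x = 0) :
    ∃ H : ℝ → ℝ, Smooth H ∧ (∀ x, H (x + 1) = H x) ∧ (∀ x ∈ Icc z (z + 1), H x = h x) ∧
      ∀ x, ∃ y, ∀ s, iteratedDeriv s H x = iteratedDeriv s h y := by
  let H : ℝ → ℝ := fun x => h (x - ⌊x - z⌋)
  have key : ∀ x, H =ᶠ[𝓝 x] (fun y => h (y - ⌊x - z⌋)) := by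
    intro x
    set m : ℤ := ⌊x - z⌋ with hm
    have hm1 : (m : ℝ) ≤ x - z := Int.floor_le _
    have hm2 : x - z < m + 1 := Int.lt_floor_add_one _
    have ht : Tendsto (fun y : ℝ => y - m) (𝓝 x) (𝓝 (x - m)) := (continuous_id.sub continuous_const).tendsto x
    rcases eq_or_lt_of_le (show z ≤ x - m by linarith) with h' | h'
    · have e1 : b - 1 < x - m := by linarith
      have e2 : x - m < min a (z + 1) := lt_min (by linarith) (by linarith)
      have e3 : z - 1 < x - m := by linarith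
      filter_upwards [ht.eventually (Ioo_mem_nhds e1 e2), ht.eventually (Ioo_mem_nhds e3 e2)] with y hy hy'
      by_cases hz : z ≤ y - m
      · have : ⌊y - z⌋ = m := by
          rw [Int.floor_eq_iff]
          have := lt_min_iff.1 hy.2
          exact ⟨by linarith, by linarith [this.2]⟩
        show h (y - ⌊y - z⌋) = h (y - m)
        rw [this]
      · push Not at hz
        have : ⌊y - z⌋ = m - 1 := by
          rw [Int.floor_eq_iff]
          push_cast
          exact ⟨by linarith [hy'.1], by linarith⟩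
        show h (y - ⌊y - z⌋) = h (y - m)
        rw [this, h1 (y - m) (by have := lt_min_iff.1 hy.2; linarith), h2]
        push_cast
        linarith [hy.1]
    · have e2 : x - m < z + 1 := by linarith
      filter_upwards [ht.eventually (Ioo_mem_nhds h' e2)] with y hy
      have : ⌊y - z⌋ = m := by
        rw [Int.floor_eq_iff]
        exact ⟨by linarith [hy.1], by linarith [hy.2]⟩
      show h (y - ⌊y - z⌋) = h (y - m)
      rw [this]
  refine ⟨H, ?_, ?_, ?_, ?_⟩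
  · refine contDiff_iff_contDiffAt.2 ?_
    intro x
    refine ContDiffAt.congr_of_eventuallyEq ?_ (key x)
    exact (hh.comp (contDiff_id.sub contDiff_const)).contDiffAt
  · intro x
    show h (x + 1 - ⌊x + 1 - z⌋) = h (x - ⌊x - z⌋)
    have : x + 1 - z = x - z + 1 := by ring
    rw [this, Int.floor_add_one]
    congr 1
    push_cast
    ring
  · intro x hx
    rcases eq_or_lt_of_le hx.2 with h' | h'
    · have : ⌊x - z⌋ = 1 := by
        rw [h', show z + 1 - z = ((1 : ℤ) : ℝ) by push_cast; ring, Int.floor_intCast]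
      show h (x - ⌊x - z⌋) = h x
      rw [this, h2 x (by linarith), h1]
      push_cast
      linarith
    · have : ⌊x - z⌋ = 0 := by
        rw [Int.floor_eq_iff]
        exact ⟨by push_cast; linarith [hx.1], by push_cast; linarith⟩
      show h (x - ⌊x - z⌋) = h x
      rw [this]
      simp
  · intro x
    refine ⟨x - ⌊x - z⌋, fun s => ?_⟩
    rw [(key x).iteratedDeriv_eq s, iteratedDeriv_comp_sub_const]

theorem shf_inv {f : ℝ → ℝ} (hf : Smooth f) (hp : ∀ x, 0 < deriv f x) (hs : Surjective f) :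
    ∃ k : ℝ → ℝ, Smooth k ∧ (∀ x, k (f x) = x) ∧ ∀ x, f (k x) = x := by
  have hm : StrictMono f := strictMono_of_deriv_pos hp
  let e : ℝ ≃ₜ ℝ := (hm.orderIsoOfSurjective f hs).toHomeomorph
  refine ⟨e.symm, ?_, fun x => e.symm_apply_apply x, fun x => e.apply_symm_apply x⟩
  exact e.contDiff_symm_deriv (f' := deriv f) (fun x => (hp x).ne')
      (fun x => (hf.differentiable (by simp) x).hasDerivAt) hf

/-- the shift `κ` of `γ` together with a periodic version which agrees with it on `[z, b₁]` -/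
structure ShfK (γ Kt : D) (κ κ' : ℝ → ℝ) (z a₁ a₂ b₁ : ℝ) : Prop where
  sm : Smooth κ
  sm' : Smooth κ'
  pos : ∀ x, 0 < deriv κ x
  left : ∀ x, κ' (κ x) = x
  right : ∀ x, κ (κ' x) = x
  idl : ∀ x, x ≤ a₁ → κ x = x
  eqr : ∀ x, a₂ ≤ x → κ x = γ x
  kt : ∀ x ∈ Icc z b₁, Kt x = κ x

theorem ShfK.mono {γ Kt : D} {κ κ' : ℝ → ℝ} {z a₁ a₂ b₁ : ℝ} (h : ShfK γ Kt κ κ' z a₁ a₂ b₁) : StrictMono κ :=
  strictMono_of_deriv_pos h.pos

theorem shf_al {γ Kt : D} {κ κ' : ℝ → ℝ} {z a₁ a₂ b₁ : ℝ} (h : ShfK γ Kt κ κ' z a₁ a₂ b₁) (P : D) (hPz : P z = z)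
    (hc : Commute P γ) (hz : z < a₁) {c₁ c₂ : ℝ} (h3 : z < c₁)
    (h4 : c₁ < a₁) (h5 : P c₁ < a₁) (h6 : c₁ < c₂) (h7 : c₂ < z + 1) (h8 : γ a₂ < c₂) (h9 : γ (P⁻¹ a₂) < c₂)
    (h10 : c₂ < γ b₁) (h11 : c₂ < γ (P⁻¹ b₁)) (h13 : a₂ ≤ b₁) (h14 : a₂ ≤ P⁻¹ b₁) :
    ∃ al : D, (∀ x : ℝ, (∀ l : ℤ, x + l ∉ Icc c₁ c₂) → al x = x) ∧
      (∀ x ∈ Icc z (z + 1), (P * al) x = κ (P (κ' x))) ∧
      ∀ x, ((al : ℝ → ℝ) =ᶠ[𝓝 x] ((P⁻¹ * Kt * P * Kt⁻¹ : D) : ℝ → ℝ)) ∨ ((al : ℝ → ℝ) =ᶠ[𝓝 x] (fun y => y)) := by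
  have hm := h.mono
  have hcx : ∀ x, P (γ x) = γ (P x) := fun x => by
    have := congrArg (fun f : D => f x) hc.eq
    exact this
  have κz : κ z = z := h.idl z hz.le
  -- left part
  have L : ∀ x, x ≤ a₁ → P x ≤ a₁ → κ (P (κ' x)) = P x := by
    intro x hx hx'
    have : κ' x = x := by
      have := h.left x
      rwa [h.idl x hx] at this
    rw [this, h.idl _ hx']
  -- right part
  have R : ∀ x, γ a₂ ≤ x → γ (P⁻¹ a₂) ≤ x → κ (P (κ' x)) = P x := by
    intro x hx hx'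
    have e1 : a₂ ≤ κ' x := by
      rw [← hm.le_iff_le, h.right, h.eqr _ le_rfl]
      exact hx
    have e2 : γ (κ' x) = x := by rw [← h.eqr _ e1, h.right]
    have e3 : P⁻¹ a₂ ≤ κ' x := by
      rw [← (D.strictMono γ).le_iff_le, e2]
      exact hx'
    have e4 : a₂ ≤ P (κ' x) := by
      have := (D.strictMono P).monotone e3
      rwa [D.apply_inv_self] at this
    rw [h.eqr _ e4, ← hcx, e2]
  -- comparison with the periodic version
  have M : ∀ x, z ≤ x → x < γ b₁ → x < γ (P⁻¹ b₁) → (P⁻¹ * Kt * P * Kt⁻¹ : D) x = P⁻¹ (κ (P (κ' x))) := by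
    intro x hx hx' hx''
    have e1 : z ≤ κ' x := by
      rw [← hm.le_iff_le, h.right, κz]
      exact hx
    have e2 : κ' x < b₁ := by
      rw [← hm.lt_iff_lt, h.right, h.eqr _ h13]
      exact hx'
    have e3 : κ' x < P⁻¹ b₁ := by
      rw [← hm.lt_iff_lt, h.right, h.eqr _ h14]
      exact hx''
    have e4 : P (κ' x) < b₁ := by
      have := D.strictMono P e3
      rwa [D.apply_inv_self] at this
    have e5 : z ≤ P (κ' x) := by
      have := (D.strictMono P).monotone e1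
      rwa [hPz] at this
    have e6 : Kt⁻¹ x = κ' x := by
      apply D.injective Kt
      rw [D.apply_inv_self, h.kt _ ⟨e1, e2.le⟩, h.right]
    show P⁻¹ (Kt (P (Kt⁻¹ x))) = _
    rw [e6, h.kt _ ⟨e5, e4.le⟩]
  have n1 : ∀ᶠ x in 𝓝 c₁, (P⁻¹ * Kt * P * Kt⁻¹ : D) x = x := by
    have e1 : ∀ᶠ x in 𝓝 c₁, z < x := eventually_gt_nhds h3
    have e2 : ∀ᶠ x in 𝓝 c₁, x < a₁ := eventually_lt_nhds h4
    have e3 : ∀ᶠ x in 𝓝 c₁, P x < a₁ := ((D.continuous P).tendsto c₁).eventually (eventually_lt_nhds h5)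
    have e4 : ∀ᶠ x in 𝓝 c₁, x < c₂ := eventually_lt_nhds h6
    filter_upwards [e1, e2, e3, e4] with x x1 x2 x3 x4
    rw [M x x1.le (x4.trans h10) (x4.trans h11), L x x2.le x3.le, D.inv_apply_self]
  have n2 : ∀ᶠ x in 𝓝 c₂, (P⁻¹ * Kt * P * Kt⁻¹ : D) x = x := by
    have e1 : ∀ᶠ x in 𝓝 c₂, z < x := eventually_gt_nhds (h3.trans h6)
    have e2 : ∀ᶠ x in 𝓝 c₂, x < γ b₁ := eventually_lt_nhds h10
    have e3 : ∀ᶠ x in 𝓝 c₂, x < γ (P⁻¹ b₁) := eventually_lt_nhds h11
    have e4 : ∀ᶠ x in 𝓝 c₂, γ a₂ < x := eventually_gt_nhds h8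
    have e5 : ∀ᶠ x in 𝓝 c₂, γ (P⁻¹ a₂) < x := eventually_gt_nhds h9
    filter_upwards [e1, e2, e3, e4, e5] with x x1 x2 x3 x4 x5
    rw [M x x1.le x2 x3, R x x4.le x5.le, D.inv_apply_self]
  obtain ⟨al, k1, k2, k3⟩ := shf_restr (P⁻¹ * Kt * P * Kt⁻¹) n1 n2
  refine ⟨al, k2, ?_, k3⟩
  intro x hx
  show P (al x) = _
  by_cases hx1 : x < c₁
  · have : al x = x := by
      refine k2 x fun l hl => ?_
      have q1 : ((0 : ℤ) : ℝ) < l := by push_cast; linarith [hl.1]
      have q2 : (l : ℝ) < ((1 : ℤ) : ℝ) := by push_cast; linarith [hl.2, hx.1]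
      have q3 : 0 < l := by exact_mod_cast q1
      have q4 : l < 1 := by exact_mod_cast q2
      omega
    rw [this, L x (hx1.trans h4).le (((D.strictMono P) hx1).trans h5).le]
  · push Not at hx1
    by_cases hx2 : x ≤ c₂
    · rw [k1 x ⟨0, by simpa using ⟨hx1, hx2⟩⟩, M x hx.1 (hx2.trans_lt h10) (hx2.trans_lt h11), D.apply_inv_self]
    · push Not at hx2
      have : al x = x := by
        refine k2 x fun l hl => ?_
        have q1 : ((-1 : ℤ) : ℝ) < l := by push_cast; linarith [hl.1, hx.2]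
        have q2 : (l : ℝ) < ((0 : ℤ) : ℝ) := by push_cast; linarith [hl.2]
        have q3 : -1 < l := by exact_mod_cast q1
        have q4 : l < 0 := by exact_mod_cast q2
        omega
      rw [this, R x (h8.trans hx2).le (h9.trans hx2).le]

theorem shf_comm {A G U V : D} {κ κ' : ℝ → ℝ} {z : ℝ} (hl : ∀ x, κ' (κ x) = x) (hAG : Commute A G)
    (hU : ∀ x ∈ Icc z (z + 1), U x = κ (A (κ' x))) (hV : ∀ x ∈ Icc z (z + 1), V x = κ (G (κ' x)))
    (hUz : U z = z) (hVz : V z = z) : Commute U V := by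
  have st : ∀ W : D, W z = z → ∀ x ∈ Icc z (z + 1), W x ∈ Icc z (z + 1) := by
    intro W hW x hx
    refine ⟨?_, ?_⟩
    · have := (D.strictMono W).monotone hx.1
      rwa [hW] at this
    · have := (D.strictMono W).monotone hx.2
      rwa [D.add_one, hW] at this
  have main : ∀ x ∈ Icc z (z + 1), U (V x) = V (U x) := by
    intro x hx
    rw [hU _ (st V hVz x hx), hV _ (st U hUz x hx), hV x hx, hU x hx, hl, hl]
    congr 1
    have := congrArg (fun f : D => f (κ' x)) hAG.eq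
    exact this
  refine D.ext fun x => ?_
  show U (V x) = V (U x)
  set m : ℤ := ⌊x - z⌋ with hm
  have hm1 : (m : ℝ) ≤ x - z := Int.floor_le _
  have hm2 : x - z < m + 1 := Int.lt_floor_add_one _
  have e := main (x - m) ⟨by linarith, by linarith⟩
  have hx : x = (x - m) + m := by ring
  rw [hx, D.add_int V, D.add_int U, D.add_int U, D.add_int V, e]

end Pool.Agent.Helper638.Ros
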