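import Pool.Agent.Helper638_Ros.Defs

/-!
# Free actions of `ℤ³ = ⟨F, G, T⟩` on the line (Case 1): the abstract set-up
-/

set_option autoImplicit false

namespace Pool.Agent.Helper638.Ros

open Filter Function Set Topology

/-- A free action of `ℤ³` on the line, the last generator acting as `T`, with its translation
numbers. -/
structure Sys where
  A : ℤ × ℤ × ℤ → D
  tau : ℤ × ℤ × ℤ → ℝ
  A_add : ∀ g h, A (g + h) = A g * A h
  A_T : A (0, 0, 1) = T
  tau_add : ∀ g h, tau (g + h) = tau g + tau h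
  tau_T : tau (0, 0, 1) = 1
  tau_inj : ∀ g, tau g = 0 → g = 0
  lt : ∀ g h, tau g < tau h → ∀ x, A g x < A h x

/-- word length modulo `T` -/
def len (g : ℤ × ℤ × ℤ) : ℕ := g.1.natAbs + g.2.1.natAbs

/-- A path in `ℤ³` whose steps have length at most one modulo `T`. -/
def IsPath (q : ℕ → ℤ × ℤ × ℤ) (m : ℕ) : Prop := q 0 = 0 ∧ ∀ a, a < m → len (q (a + 1) - q a) ≤ 1

namespace Sys

variable (S : Sys)

theorem A_zero : S.A 0 = 1 := by
  have h := S.A_add 0 0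
  rw [add_zero] at h
  exact left_eq_mul.1 h

theorem A_neg (g : ℤ × ℤ × ℤ) : S.A (-g) = (S.A g)⁻¹ := by
  rw [eq_inv_iff_mul_eq_one, ← S.A_add, neg_add_cancel, S.A_zero]

theorem A_sub (g h : ℤ × ℤ × ℤ) : S.A (g - h) = S.A g * (S.A h)⁻¹ := by
  rw [sub_eq_add_neg, S.A_add, S.A_neg]

theorem A_comm (g h : ℤ × ℤ × ℤ) : S.A g * S.A h = S.A h * S.A g := by
  rw [← S.A_add, ← S.A_add, add_comm]

theorem A_apply_add (g h : ℤ × ℤ × ℤ) (x : ℝ) : S.A (g + h) x = S.A g (S.A h x) := by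
  rw [S.A_add]; rfl

theorem tau_zero : S.tau 0 = 0 := by
  have h := S.tau_add 0 0
  rw [add_zero] at h
  linarith

theorem tau_neg (g : ℤ × ℤ × ℤ) : S.tau (-g) = -S.tau g := by
  have h := S.tau_add g (-g)
  rw [add_neg_cancel, S.tau_zero] at h
  linarith

theorem tau_sub (g h : ℤ × ℤ × ℤ) : S.tau (g - h) = S.tau g - S.tau h := by
  rw [sub_eq_add_neg, S.tau_add, S.tau_neg]; ring

theorem tau_nsmul (n : ℕ) (g : ℤ × ℤ × ℤ) : S.tau (n • g) = n * S.tau g := by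
  induction n with
  | zero => simp [S.tau_zero]
  | succ n ih => rw [succ_nsmul, S.tau_add, ih]; push_cast; ring

theorem tau_zsmul (n : ℤ) (g : ℤ × ℤ × ℤ) : S.tau (n • g) = n * S.tau g := by
  cases n with
  | ofNat n => simpa using S.tau_nsmul n g
  | negSucc n =>
    rw [negSucc_zsmul, S.tau_neg, S.tau_nsmul]; push_cast [Int.negSucc_eq]; ring

theorem le (g h : ℤ × ℤ × ℤ) (hgh : S.tau g ≤ S.tau h) (x : ℝ) : S.A g x ≤ S.A h x := by
  rcases hgh.lt_or_eq with h1 | h1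
  · exact (S.lt g h h1 x).le
  · have : g - h = 0 := S.tau_inj _ (by rw [S.tau_sub, h1, sub_self])
    rw [sub_eq_zero.1 this]

theorem self_lt (g : ℤ × ℤ × ℤ) (hg : 0 < S.tau g) (x : ℝ) : x < S.A g x := by
  have := S.lt 0 g (by rwa [S.tau_zero]) x
  rwa [S.A_zero] at this

theorem A_nsmul (n : ℕ) (g : ℤ × ℤ × ℤ) : S.A (n • g) = S.A g ^ n := by
  induction n with
  | zero => simp [S.A_zero]
  | succ n ih => rw [succ_nsmul, S.A_add, ih, pow_succ]

end Sys

/-- The sequence of almost returns (paper 1.2). -/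
structure RSeq (S : Sys) where
  w : ℕ → ℤ × ℤ × ℤ
  w_zero : w 0 = (0, 0, 1)
  pos : ∀ k, 0 < S.tau (w k)
  half : ∀ k, 2 * S.tau (w (k + 1)) ≤ S.tau (w k)
  len_pos : ∀ k, 1 ≤ len (w (k + 1))
  sep : ∀ k g, 1 ≤ len g → len g < len (w (k + 1)) → S.tau (w k) / 2 < |S.tau g|
  len_mono : ∀ k, len (w (k + 1)) ≤ len (w (k + 2))
  len_bd : ∀ k, (len (w (k + 1)) : ℝ) ^ 2 * S.tau (w k) ≤ 8

theorem RSeq.tau_zero {S : Sys} (W : RSeq S) : S.tau (W.w 0) = 1 := by rw [W.w_zero, S.tau_T]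

theorem RSeq.tau_le {S : Sys} (W : RSeq S) (k : ℕ) : S.tau (W.w k) ≤ (1 / 2) ^ k := by
  induction k with
  | zero => rw [W.tau_zero]; simp
  | succ k ih => have := W.half k; rw [pow_succ]; linarith

theorem RSeq.tau_le_one {S : Sys} (W : RSeq S) (k : ℕ) : S.tau (W.w k) ≤ 1 :=
  (W.tau_le k).trans (pow_le_one₀ (by norm_num) (by norm_num))

theorem RSeq.tau_anti {S : Sys} (W : RSeq S) : Antitone (fun k => S.tau (W.w k)) :=
  antitone_nat_of_succ_le (fun k => by have := W.half k; have := W.pos (k + 1); linarith)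

/-- Uniform bound on the logarithmic derivatives of the steps. -/
def Sys.IsL (S : Sys) (M : ℕ → ℝ) : Prop := (∀ i, 0 ≤ M i) ∧ ∀ g, len g ≤ 1 → ∀ i x,
  |iteratedDeriv i (fun y => Real.log (deriv (S.A g) y)) x| ≤ M i

end Pool.Agent.Helper638.Ros
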