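import Pool.Agent.Helper638_Ros.Sz_c

/-!
# Szekeres coordinate: interior convergence (paper 2.5 (d))
-/

set_option autoImplicit false

namespace Pool.Agent.Helper638.Ros

open Filter Function Set Topology

/-- the affine coordinate -/
theorem szekeres {a : D} {p₀ p₁ : ℝ} (hlt : p₀ < p₁) (h₀ : a p₀ = p₀) (h₁ : a p₁ = p₁)
    (ha : ∀ x ∈ Ioo p₀ p₁, a x < x) : ∃ Z : ℝ → ℝ, ContDiffOn ℝ ((⊤ : ℕ∞) : WithTop ℕ∞) Z
      (Ioo p₀ p₁) ∧ (∀ x ∈ Ioo p₀ p₁, 0 < deriv Z x) ∧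
      ∀ g : D, g p₀ = p₀ → g p₁ = p₁ → Commute g a → ∃ l b : ℝ, 0 < l ∧
        ∀ x ∈ Ioo p₀ p₁, Z (g x) = l * Z x + b :=
  sz_coord hlt h₀ h₁ ha

theorem sz_lam_zsmul (S : Sys2) (g : ℤ × ℤ) (n : ℤ) : S.lam (n • g) = S.lam g ^ n := by
  obtain ⟨f, hf⟩ : ∃ f : ℤ × ℤ →+ Additive D, ∀ g, f g = Additive.ofMul (S.lam g) :=
    ⟨AddMonoidHom.mk' (fun g => Additive.ofMul (S.lam g)) (fun g h => by rw [S.lam_add]; rfl),
      fun g => rfl⟩
  have h := map_zsmul f n g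
  rw [hf, hf] at h
  exact h

theorem sz_lam_comm (S : Sys2) (g h : ℤ × ℤ) : Commute (S.lam g) (S.lam h) := by
  show S.lam g * S.lam h = S.lam h * S.lam g
  rw [← S.lam_add, ← S.lam_add, add_comm]

/-- a contraction among the elements `A`, `A⁻¹` -/
theorem sz_exists_a {S : Sys2} (hnf : NonFlat S) {p₀ p₁ : ℝ} (hI : Cons S p₀ p₁) :
    ∃ σ : ℤ × ℤ, σ.2 = 0 ∧ ∀ x ∈ Ioo p₀ p₁, S.lam σ x < x := by
  have h1 : ∀ x ∈ Ioo p₀ p₁, S.lam (1, 0) x ≠ x :=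
    fun x hx => lam_free hnf (by simp) (hI.disj x hx)
  rcases sz_sign _ h1 with h | h
  · exact ⟨(1, 0), rfl, h⟩
  · refine ⟨-(1, 0), by simp, fun x hx => ?_⟩
    rw [S.lam_neg]
    have h2 := sz_maps (S.lam (1, 0))⁻¹ (sz_fix_inv _ (S.lam_fix _ hI.h₀))
      (sz_fix_inv _ (S.lam_fix _ hI.h₁)) hx
    have h3 := h _ h2
    rw [D.apply_inv_self] at h3
    exact h3

section Gam

variable {a : D} {p₀ p₁ : ℝ}

theorem sz_zpow_anti (h₀ : a p₀ = p₀) (h₁ : a p₁ = p₁) (ha : ∀ x ∈ Ioo p₀ p₁, a x < x) {x : ℝ}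
    (hx : x ∈ Ioo p₀ p₁) {e e' : ℤ} (h : e ≤ e') : (a ^ e') x ≤ (a ^ e) x := by
  obtain ⟨m, rfl⟩ : ∃ m : ℕ, e' = e + m := ⟨(e' - e).toNat, by omega⟩
  rw [zpow_add, zpow_natCast, D.mul_apply]
  apply (D.strictMono (a ^ e)).monotone
  have := sz_anti h₀ h₁ ha hx (Nat.zero_le m)
  simpa using this

theorem sz_exists_e (h₀ : a p₀ = p₀) (h₁ : a p₁ = p₁) (ha : ∀ x ∈ Ioo p₀ p₁, a x < x) {x y : ℝ}
    (hx : x ∈ Ioo p₀ p₁) (hy : y ∈ Ioo p₀ p₁) : ∃ e : ℤ, y ≤ (a ^ e) x ∧ (a ^ (e + 1)) x < y := by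
  have h1 : ∃ b : ℤ, ∀ z : ℤ, y ≤ (a ^ z) x → z ≤ b := by
    obtain ⟨n, hn⟩ := ((sz_tendsto h₀ h₁ ha hx).eventually (gt_mem_nhds hy.1)).exists
    refine ⟨n, fun z hz => ?_⟩
    by_contra hlt
    push Not at hlt
    have h2 := sz_zpow_anti h₀ h₁ ha hx hlt.le
    rw [zpow_natCast] at h2
    linarith
  have h2 : ∃ z : ℤ, y ≤ (a ^ z) x := by
    obtain ⟨n, hn⟩ := ((sz_tendsto h₀ h₁ ha hy).eventually (gt_mem_nhds hx.1)).exists
    refine ⟨-(n : ℤ), ?_⟩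
    have h3 := (D.strictMono (a ^ (-(n : ℤ)))).monotone hn.le
    have h4 : (a ^ (-(n : ℤ))) ((a ^ n) y) = y := by
      rw [← D.mul_apply, ← zpow_natCast a n, ← zpow_add]
      simp
    rw [h4] at h3
    exact h3
  obtain ⟨e, he, hmax⟩ := Int.exists_greatest_of_bdd h1 h2
  refine ⟨e, he, ?_⟩
  by_contra hlt
  push Not at hlt
  have := hmax _ hlt
  omega

end Gam

theorem exists_gamma {S : Sys2} (hnf : NonFlat S) {p₀ p₁ : ℝ} (hI : Cons S p₀ p₁) :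
    ∃ g : ℕ → ℤ × ℤ, (∀ n, g n ≠ 0) ∧ ∀ c d : ℝ, p₀ < c → d < p₁ → ∀ s : ℕ,
      TendstoUniformlyOn (fun n => iteratedDeriv s (S.lam (g n)))
        (iteratedDeriv s (fun x : ℝ => x)) atTop (Icc c d) := by
  obtain ⟨σ, hσ, hσa⟩ := sz_exists_a hnf hI
  obtain ⟨a, ha⟩ : ∃ a, a = S.lam σ := ⟨_, rfl⟩
  have hfix₀ : ∀ g, S.lam g p₀ = p₀ := fun g => S.lam_fix g hI.h₀
  have hfix₁ : ∀ g, S.lam g p₁ = p₁ := fun g => S.lam_fix g hI.h₁
  have ha₀ : a p₀ = p₀ := ha ▸ hfix₀ σ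
  have ha₁ : a p₁ = p₁ := ha ▸ hfix₁ σ
  have haI : ∀ x ∈ Ioo p₀ p₁, a x < x := ha ▸ hσa
  obtain ⟨Z, hZ, hZ', hZg⟩ := szekeres hI.lt ha₀ ha₁ haI
  have hmono := sz_Z_mono hZ hZ'
  choose l b hl hlb using fun g => hZg (S.lam g) (hfix₀ g) (hfix₁ g) (ha ▸ sz_lam_comm S g σ)
  obtain ⟨x₀, hx₀⟩ := exists_between hI.lt
  have I0 : x₀ ∈ Ioo p₀ p₁ := hx₀
  have hmaps : ∀ g, ∀ x ∈ Ioo p₀ p₁, S.lam g x ∈ Ioo p₀ p₁ :=
    fun g x hx => sz_maps _ (hfix₀ g) (hfix₁ g) hx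
  -- the elements between `a` and the identity
  have hq : ∀ i : ℕ, ∃ q : ℤ × ℤ, q.2 = i ∧ S.lam q x₀ ≤ x₀ ∧ a x₀ < S.lam q x₀ := by
    intro i
    obtain ⟨e, he1, he2⟩ := sz_exists_e ha₀ ha₁ haI I0 (hmaps (0, (i : ℤ)) x₀ I0)
    refine ⟨(0, (i : ℤ)) + (-e) • σ, by simp [hσ], ?_, ?_⟩
    · rw [add_comm, S.lam_add, sz_lam_zsmul, ← ha, D.mul_apply]
      have h1 := (D.strictMono (a ^ (-e))).monotone he1
      have h2 : (a ^ (-e)) ((a ^ e) x₀) = x₀ := by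
        rw [← D.mul_apply, ← zpow_add]
        simp
      rw [h2] at h1
      exact h1
    · rw [add_comm, S.lam_add, sz_lam_zsmul, ← ha, D.mul_apply]
      have h1 := (D.strictMono (a ^ (-e))) he2
      have h2 : (a ^ (-e)) ((a ^ (e + 1)) x₀) = a x₀ := by
        rw [← D.mul_apply, ← zpow_add]
        simp
      rw [h2] at h1
      exact h1
  choose q hq2 hq3 hq4 using hq
  have hinj : ∀ i j, q i = q j → i = j := by
    intro i j h
    have h1 := hq2 i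
    rw [h, hq2 j] at h1
    exact_mod_cast h1.symm
  have hle : ∀ i, ∀ x ∈ Ioo p₀ p₁, S.lam (q i) x ≤ x := by
    intro i x hx
    by_cases h0 : q i = 0
    · rw [h0, S.lam_zero]
      simp
    · rcases sz_sign (S.lam (q i)) (fun x hx => lam_free hnf h0 (hI.disj x hx)) with h | h
      · exact (h x hx).le
      · exact absurd (h x₀ I0) (not_lt.2 (hq3 i))
  have hlt : ∀ i, ∀ x ∈ Ioo p₀ p₁, a x < S.lam (q i) x := by
    intro i x hx
    have e1 : ∀ y, a (S.lam (q i - σ) y) = S.lam (q i) y := by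
      intro y
      rw [ha, ← D.mul_apply, ← S.lam_add]
      congr 3
      abel
    have h1 : x₀ < S.lam (q i - σ) x₀ := by
      have := hq4 i
      rw [← e1] at this
      exact (D.strictMono a).lt_iff_lt.1 this
    have h0 : q i - σ ≠ 0 := by
      intro h0
      rw [h0, S.lam_zero] at h1
      simp at h1
    rcases sz_sign (S.lam (q i - σ)) (fun x hx => lam_free hnf h0 (hI.disj x hx)) with h | h
    · exact absurd (h x₀ I0) (not_lt.2 h1.le)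
    · rw [← e1]
      exact (D.strictMono a) (h x hx)
  -- bounds for the coefficients
  obtain ⟨x₁, hx₁⟩ : ∃ x₁, x₁ = a⁻¹ x₀ := ⟨_, rfl⟩
  obtain ⟨x₂, hx₂⟩ : ∃ x₂, x₂ = a⁻¹ x₁ := ⟨_, rfl⟩
  have I1 : x₁ ∈ Ioo p₀ p₁ := hx₁ ▸ sz_maps _ (sz_fix_inv a ha₀) (sz_fix_inv a ha₁) I0
  have I2 : x₂ ∈ Ioo p₀ p₁ := hx₂ ▸ sz_maps _ (sz_fix_inv a ha₀) (sz_fix_inv a ha₁) I1
  have a1 : a x₁ = x₀ := by rw [hx₁, D.apply_inv_self]
  have a2 : a x₂ = x₁ := by rw [hx₂, D.apply_inv_self]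
  have lt1 : x₀ < x₁ := by
    have := haI x₁ I1
    rwa [a1] at this
  have lt2 : x₁ < x₂ := by
    have := haI x₂ I2
    rwa [a2] at this
  have Ia : a x₀ ∈ Ioo p₀ p₁ := sz_maps a ha₀ ha₁ I0
  have zl1 : Z x₀ < Z x₁ := hmono I0 I1 lt1
  have zl2 : Z x₁ < Z x₂ := hmono I1 I2 lt2
  have zup : ∀ i, ∀ x ∈ Ioo p₀ p₁, Z (S.lam (q i) x) ≤ Z x :=
    fun i x hx => hmono.monotoneOn (hmaps _ x hx) hx (hle i x hx)
  have zlo : ∀ i, ∀ x ∈ Ioo p₀ p₁, Z (a x) ≤ Z (S.lam (q i) x) :=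
    fun i x hx => hmono.monotoneOn (sz_maps a ha₀ ha₁ hx) (hmaps _ x hx) (hlt i x hx).le
  have hdpos : 0 < Z x₂ - Z x₀ := by linarith
  obtain ⟨lmin, hlmin⟩ : ∃ t, t = (Z x₁ - Z x₀) / (Z x₂ - Z x₀) := ⟨_, rfl⟩
  obtain ⟨lmax, hlmax⟩ : ∃ t, t = (Z x₂ - Z (a x₀)) / (Z x₂ - Z x₀) := ⟨_, rfl⟩
  have hlmin0 : 0 < lmin := by
    rw [hlmin]
    exact div_pos (by linarith) hdpos
  have hlI : ∀ i, l (q i) ∈ Icc lmin lmax := by
    intro i
    have h1 := hlb (q i) x₂ I2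
    have h2 := hlb (q i) x₀ I0
    have h3 := zup i x₂ I2
    have h4 := zlo i x₂ I2
    have h5 := zup i x₀ I0
    have h6 := zlo i x₀ I0
    rw [a2] at h4
    have h7 : l (q i) * (Z x₂ - Z x₀) = Z (S.lam (q i) x₂) - Z (S.lam (q i) x₀) := by
      rw [h1, h2]
      ring
    constructor
    · rw [hlmin, div_le_iff₀ hdpos, h7]
      linarith
    · rw [hlmax, le_div_iff₀ hdpos, h7]
      linarith
  obtain ⟨bm, hbm⟩ : ∃ t, t = |Z x₀| + |Z (a x₀)| + lmax * |Z x₀| := ⟨_, rfl⟩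
  have hbI : ∀ i, b (q i) ∈ Icc (-bm) bm := by
    intro i
    have h2 := hlb (q i) x₀ I0
    have h5 := zup i x₀ I0
    have h6 := zlo i x₀ I0
    have h8 := (hlI i).2
    have h9 := (hl (q i)).le
    have h10 : |l (q i) * Z x₀| ≤ lmax * |Z x₀| := by
      rw [abs_mul, abs_of_nonneg h9]
      exact mul_le_mul_of_nonneg_right h8 (abs_nonneg _)
    have h11 := abs_le.1 h10
    have h12 := neg_abs_le (Z (a x₀))
    have h13 := le_abs_self (Z x₀)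
    have h14 := abs_nonneg (Z x₀)
    have h15 := abs_nonneg (Z (a x₀))
    rw [hbm]
    constructor <;> linarith [h11.1, h11.2]
  obtain ⟨⟨L, Bb⟩, hLB, φ, hφ, hlim⟩ := (isCompact_Icc.prod isCompact_Icc).tendsto_subseq
    (x := fun i => (l (q i), b (q i))) (fun i => ⟨hlI i, hbI i⟩)
  have hliml : Tendsto (fun n => l (q (φ n))) atTop (𝓝 L) :=
    (continuous_fst.tendsto _).comp hlim
  have hlimb : Tendsto (fun n => b (q (φ n))) atTop (𝓝 Bb) :=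
    (continuous_snd.tendsto _).comp hlim
  have hL : 0 < L := hlmin0.trans_le hLB.1.1
  have hliml1 : Tendsto (fun n => l (q (φ (n + 1)))) atTop (𝓝 L) :=
    hliml.comp (tendsto_add_atTop_nat 1)
  have hlimb1 : Tendsto (fun n => b (q (φ (n + 1)))) atTop (𝓝 Bb) :=
    hlimb.comp (tendsto_add_atTop_nat 1)
  refine ⟨fun n => -q (φ n) + q (φ (n + 1)), fun n h => ?_, fun c d hc hd s => ?_⟩
  · have h1 : q (φ (n + 1)) = q (φ n) := by
      have := congrArg (fun t => q (φ n) + t) h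
      simpa using this
    have h2 := hφ.injective (hinj _ _ h1)
    omega
  · refine sz_conv hZ hZ' (fun n => S.lam (-q (φ n) + q (φ (n + 1)))) (fun n => hfix₀ _)
      (fun n => hfix₁ _) (fun n => l (q (φ (n + 1))) / l (q (φ n)))
      (fun n => (b (q (φ (n + 1))) - b (q (φ n))) / l (q (φ n))) ?_ ?_ ?_ c d hc hd s
    · have := hliml1.div hliml hL.ne'
      rwa [div_self hL.ne'] at this
    · have := (hlimb1.sub hlimb).div hliml hL.ne'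
      rwa [sub_self, zero_div] at this
    · intro n x hx
      have h1 := hlb (q (φ n)) _ (hmaps (-q (φ n) + q (φ (n + 1))) x hx)
      have h2 := hlb (q (φ (n + 1))) x hx
      have h3 : S.lam (q (φ n)) (S.lam (-q (φ n) + q (φ (n + 1))) x) = S.lam (q (φ (n + 1))) x := by
        rw [← D.mul_apply, ← S.lam_add]
        congr 3
        abel
      rw [h3, h2] at h1
      have h4 := (hl (q (φ n))).ne'
      field_simp
      linarith

end Pool.Agent.Helper638.Ros
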