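import Pool.Agent.Helper638_Ros.LamNF
import Pool.Agent.Helper638_Ros.Dist

/-!
# Szekeres coordinate: auxiliary results (paper 2.5 (d))
-/

set_option autoImplicit false

namespace Pool.Agent.Helper638.Ros

open Filter Function Set Topology

/-! ### series -/

/-- series with summable derivatives -/
theorem sz_tsum_deriv {V : Set ℝ} (hV : IsOpen V) (hVc : IsPreconnected V) {y₀ : ℝ} (hy₀ : y₀ ∈ V)
    (g : ℕ → ℝ → ℝ) (hg : ∀ i, Smooth (g i))
    (hb : ∃ v : ℕ → ℝ, Summable v ∧ ∀ i, ∀ y ∈ V, |iteratedDeriv 1 (g i) y| ≤ v i)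
    (hs : Summable fun i => g i y₀) {y : ℝ} (hy : y ∈ V) :
    HasDerivAt (fun z => ∑' i, g i z) (∑' i, deriv (g i) y) y := by
  obtain ⟨v, hv, hb⟩ := hb
  refine hasDerivAt_tsum_of_isPreconnected (g := g) (g' := fun i y => deriv (g i) y) hv hV hVc ?_ ?_
    hy₀ hs hy
  · intro i y _
    exact ((hg i).differentiable (by simp) y).hasDerivAt
  · intro i y hy
    have := hb i y hy
    rw [iteratedDeriv_one] at this
    exact this

theorem sz_tsum {V : Set ℝ} (hV : IsOpen V) (hVc : IsPreconnected V) {y₀ : ℝ} (hy₀ : y₀ ∈ V)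
    (n : ℕ) : ∀ g : ℕ → ℝ → ℝ, (∀ i, Smooth (g i)) →
    (∀ r, 1 ≤ r → ∃ v : ℕ → ℝ, Summable v ∧ ∀ i, ∀ y ∈ V, |iteratedDeriv r (g i) y| ≤ v i) →
    (Summable fun i => g i y₀) → ContDiffOn ℝ n (fun y => ∑' i, g i y) V := by
  induction n with
  | zero =>
    intro g hg hb hs
    have h := fun y (hy : y ∈ V) => sz_tsum_deriv hV hVc hy₀ g hg (hb 1 le_rfl) hs hy
    have : ContinuousOn (fun y => ∑' i, g i y) V :=
      fun y hy => (h y hy).continuousAt.continuousWithinAt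
    rw [Nat.cast_zero]
    exact contDiffOn_zero.2 this
  | succ n ih =>
    intro g hg hb hs
    have h := fun y (hy : y ∈ V) => sz_tsum_deriv hV hVc hy₀ g hg (hb 1 le_rfl) hs hy
    have e : ((n + 1 : ℕ) : WithTop ℕ∞) = (n : WithTop ℕ∞) + 1 := by push_cast; rfl
    rw [e, contDiffOn_succ_iff_deriv_of_isOpen hV]
    refine ⟨fun y hy => (h y hy).differentiableAt.differentiableWithinAt, fun h => ?_, ?_⟩
    · exfalso
      exact absurd h (by simp)
    · have h2 : ContDiffOn ℝ n (fun y => ∑' i, deriv (g i) y) V := by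
        refine ih (fun i => deriv (g i)) ?_ ?_ ?_
        · intro i
          exact (contDiff_infty_iff_deriv (𝕜 := ℝ).1 (hg i)).2
        · intro r hr
          obtain ⟨v, hv, hv'⟩ := hb (r + 1) (by omega)
          refine ⟨v, hv, fun i y hy => ?_⟩
          have := hv' i y hy
          rw [iteratedDeriv_succ'] at this
          exact this
        · obtain ⟨v, hv, hv'⟩ := hb 1 le_rfl
          refine Summable.of_norm_bounded hv (fun i => ?_)
          have := hv' i y₀ hy₀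
          rw [iteratedDeriv_one] at this
          exact this
      exact h2.congr fun y hy => (h y hy).deriv

/-! ### smooth functions on open sets -/

theorem sz_iter_on {U : Set ℝ} (hU : IsOpen U) (i : ℕ) : ∀ f : ℝ → ℝ,
    ContDiffOn ℝ ((⊤ : ℕ∞) : WithTop ℕ∞) f U →
    ContDiffOn ℝ ((⊤ : ℕ∞) : WithTop ℕ∞) (iteratedDeriv i f) U := by
  induction i with
  | zero =>
    intro f hf
    rw [iteratedDeriv_zero]
    exact hf
  | succ i ih =>
    intro f hf
    rw [iteratedDeriv_succ']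
    exact ih _ ((contDiffOn_infty_iff_deriv_of_isOpen hU).1 hf).2

theorem sz_iter_bdd {U : Set ℝ} (hU : IsOpen U) (f : ℝ → ℝ)
    (hf : ContDiffOn ℝ ((⊤ : ℕ∞) : WithTop ℕ∞) f U) {c d : ℝ} (hcd : Icc c d ⊆ U) (i : ℕ) :
    ∃ B : ℝ, 0 ≤ B ∧ ∀ x ∈ Icc c d, |iteratedDeriv i f x| ≤ B := by
  have h1 : ContinuousOn (iteratedDeriv i f) (Icc c d) := (sz_iter_on hU i f hf).continuousOn.mono hcd
  obtain ⟨B, hB⟩ := isCompact_Icc.exists_bound_of_continuousOn h1
  exact ⟨max B 0, le_max_right _ _, fun x hx => (hB x hx).trans (le_max_left _ _)⟩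

/-! ### orbits in an interval -/

section Orb

variable {p₀ p₁ : ℝ}

theorem sz_maps (g : D) (h₀ : g p₀ = p₀) (h₁ : g p₁ = p₁) {x : ℝ} (hx : x ∈ Ioo p₀ p₁) :
    g x ∈ Ioo p₀ p₁ := by
  constructor
  · rw [← h₀]
    exact (D.strictMono g) hx.1
  · rw [← h₁]
    exact (D.strictMono g) hx.2

theorem sz_fix_pow (g : D) {p : ℝ} (h : g p = p) (n : ℕ) : (g ^ n) p = p := by
  induction n with
  | zero => simp
  | succ n ih => rw [pow_succ, D.mul_apply, h, ih]

theorem sz_fix_inv (g : D) {p : ℝ} (h : g p = p) : g⁻¹ p = p := by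
  apply (D.injective g)
  rw [D.apply_inv_self, h]

theorem sz_pow_succ (g : D) (n : ℕ) (x : ℝ) : (g ^ (n + 1)) x = g ((g ^ n) x) := by
  rw [pow_succ', D.mul_apply]

theorem sz_pow_maps (g : D) (h₀ : g p₀ = p₀) (h₁ : g p₁ = p₁) (n : ℕ) {x : ℝ}
    (hx : x ∈ Ioo p₀ p₁) : (g ^ n) x ∈ Ioo p₀ p₁ :=
  sz_maps _ (sz_fix_pow g h₀ n) (sz_fix_pow g h₁ n) hx

theorem sz_anti {a : D} (h₀ : a p₀ = p₀) (h₁ : a p₁ = p₁) (ha : ∀ x ∈ Ioo p₀ p₁, a x < x) {x : ℝ}
    (hx : x ∈ Ioo p₀ p₁) : Antitone fun n : ℕ => (a ^ n) x := by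
  apply antitone_nat_of_succ_le
  intro n
  rw [sz_pow_succ]
  exact (ha _ (sz_pow_maps a h₀ h₁ n hx)).le

theorem sz_tendsto {a : D} (h₀ : a p₀ = p₀) (h₁ : a p₁ = p₁) (ha : ∀ x ∈ Ioo p₀ p₁, a x < x)
    {x : ℝ} (hx : x ∈ Ioo p₀ p₁) : Tendsto (fun n : ℕ => (a ^ n) x) atTop (𝓝 p₀) := by
  have hanti := sz_anti h₀ h₁ ha hx
  have hbdd : BddBelow (range fun n : ℕ => (a ^ n) x) := by
    refine ⟨p₀, ?_⟩
    rintro _ ⟨n, rfl⟩
    exact (sz_pow_maps a h₀ h₁ n hx).1.le
  have hlim := tendsto_atTop_ciInf hanti hbdd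
  obtain ⟨L, hL⟩ : ∃ L, L = ⨅ n : ℕ, (a ^ n) x := ⟨_, rfl⟩
  rw [← hL] at hlim
  have hfix : a L = L := by
    have h1 : Tendsto (fun n : ℕ => (a ^ (n + 1)) x) atTop (𝓝 L) :=
      hlim.comp (tendsto_add_atTop_nat 1)
    have h2 : Tendsto (fun n : ℕ => (a ^ (n + 1)) x) atTop (𝓝 (a L)) := by
      have : (fun n : ℕ => (a ^ (n + 1)) x) = fun n : ℕ => a ((a ^ n) x) := by
        funext n
        exact sz_pow_succ a n x
      rw [this]
      exact ((D.continuous a).tendsto L).comp hlim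
    exact tendsto_nhds_unique h2 h1
  have h3 : p₀ ≤ L := ge_of_tendsto' hlim fun n => (sz_pow_maps a h₀ h₁ n hx).1.le
  have h4 : L < p₁ := by
    have : L ≤ (a ^ 0) x := hL ▸ ciInf_le hbdd 0
    simp at this
    exact this.trans_lt hx.2
  rcases h3.lt_or_eq with h | h
  · exact absurd hfix (ha L ⟨h, h4⟩).ne
  · rw [h]
    exact hlim

/-- the lengths of the images of an interval have bounded sums -/
theorem sz_sum {a : D} (h₀ : a p₀ = p₀) (h₁ : a p₁ = p₁) (ha : ∀ x ∈ Ioo p₀ p₁, a x < x)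
    {x x' : ℝ} (hx : x ∈ Ioo p₀ p₁) (hx' : x' ∈ Ioo p₀ p₁) : ∃ S : ℝ, 0 ≤ S ∧
    ∀ n : ℕ, ∑ i ∈ Finset.range n, ((a ^ i) x' - (a ^ i) x) ≤ S := by
  obtain ⟨k, hk⟩ := ((sz_tendsto h₀ h₁ ha hx').eventually (gt_mem_nhds hx.1)).exists
  have hlen : 0 ≤ p₁ - p₀ := by linarith [hx.1, hx.2]
  refine ⟨k * (p₁ - p₀), by positivity, fun n => ?_⟩
  have h5 : ∀ m : ℕ, ∑ i ∈ Finset.range n, ((a ^ i) x' - (a ^ (i + m)) x') ≤ m * (p₁ - p₀) := by
    intro m
    induction m with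
    | zero => simp
    | succ m ih =>
      have e : ∑ i ∈ Finset.range n, ((a ^ i) x' - (a ^ (i + (m + 1))) x') =
          ∑ i ∈ Finset.range n, ((a ^ i) x' - (a ^ (i + m)) x') +
          ∑ i ∈ Finset.range n, ((a ^ (i + m)) x' - (a ^ (i + 1 + m)) x') := by
        rw [← Finset.sum_add_distrib]
        refine Finset.sum_congr rfl fun i _ => ?_
        have : i + (m + 1) = i + 1 + m := by ring
        rw [this]
        ring
      have e2 : ∑ i ∈ Finset.range n, ((a ^ (i + m)) x' - (a ^ (i + 1 + m)) x') =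
          (a ^ (0 + m)) x' - (a ^ (n + m)) x' :=
        Finset.sum_range_sub' (fun i => (a ^ (i + m)) x') n
      rw [e, e2]
      have h6 := (sz_pow_maps a h₀ h₁ (0 + m) hx').2
      have h7 := (sz_pow_maps a h₀ h₁ (n + m) hx').1
      rw [Nat.cast_succ]
      linarith
  refine (Finset.sum_le_sum fun i _ => ?_).trans (h5 k)
  have h8 : (a ^ (i + k)) x' = (a ^ i) ((a ^ k) x') := by rw [pow_add, D.mul_apply]
  rw [h8]
  have h9 := (D.strictMono (a ^ i)).monotone hk.le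
  linarith

end Orb

/-! ### derivative bounds -/

theorem sz_bdd (a : D) : ∃ M : ℕ → ℝ, (∀ i, 0 ≤ M i) ∧
    (∀ i x, |iteratedDeriv i (fun y => Real.log (deriv a y)) x| ≤ M i) ∧
    Bdd (fun _ => (a : ℝ → ℝ)) M := by
  choose M hM0 hM using fun i => (D.log_bdd a) i
  exact ⟨M, hM0, hM, fun _ => (D.smooth a), fun _ => (D.pos a), fun _ i _ x => hM i x⟩

theorem sz_Q (a : D) (i : ℕ) : Q (fun _ => (a : ℝ → ℝ)) i = ((a ^ i : D) : ℝ → ℝ) := by
  induction i with
  | zero =>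
    funext x
    simp [Q]
  | succ i ih =>
    funext x
    rw [sz_pow_succ]
    simp only [Q]
    rw [ih]

theorem sz_log_smooth (a : D) : Smooth (fun y => Real.log (deriv a y)) := by
  have h1 : Smooth (deriv a) := (contDiff_infty_iff_deriv (𝕜 := ℝ).1 (D.smooth a)).2
  exact h1.log fun x => ((D.pos a) x).ne'

/-- derivatives of the terms of the series -/
theorem sz_term (a : D) {y y' S : ℝ} (hy : y < y')
    (hS : ∀ n : ℕ, ∑ i ∈ Finset.range n, ((a ^ i) y' - (a ^ i) y) ≤ S) (r : ℕ) (hr : 1 ≤ r) :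
    ∃ C : ℝ, 0 ≤ C ∧ ∀ i : ℕ, ∀ x ∈ Icc y y',
      |iteratedDeriv r (fun t => Real.log (deriv a ((a ^ i) t))) x| ≤
        C * ((a ^ i) y' - (a ^ i) y) := by
  obtain ⟨M, hM0, hM, hB⟩ := sz_bdd a
  have hlen : 0 < y' - y := by linarith
  have hSn : 0 ≤ S := by simpa using hS 0
  have hpos : ∀ i : ℕ, 0 < (a ^ i) y' - (a ^ i) y := fun i => by
    have := (D.strictMono (a ^ i)) hy
    linarith
  have hle : ∀ i : ℕ, (a ^ i) y' - (a ^ i) y ≤ S := by
    intro i
    have h1 := hS (i + 1)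
    rw [Finset.sum_range_succ] at h1
    have h2 : 0 ≤ ∑ i ∈ Finset.range i, ((a ^ i) y' - (a ^ i) y) :=
      Finset.sum_nonneg fun j _ => (hpos j).le
    linarith
  -- logarithms
  have hK : ∀ j : ℕ, ∃ K : ℝ, 1 ≤ j → ∀ i : ℕ, ∀ x ∈ Icc y y',
      |iteratedDeriv j (fun t => Real.log (deriv (a ^ i : D) t)) x| ≤ K := by
    intro j
    by_cases hj : 1 ≤ j
    · obtain ⟨C, e, hC, h⟩ := distr M j hj
      refine ⟨C * S * (Real.exp (M 1 * S) * (1 + S)) ^ e / (y' - y) ^ j, fun _ i x hx => ?_⟩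
      have h1 := h (fun _ => a) hB i y y' S hy (by
        have := hS (i + 1)
        simp only [sz_Q]
        exact this) x hx i le_rfl
      rw [sz_Q] at h1
      rw [le_div_iff₀ (by positivity), mul_comm]
      exact h1
    · exact ⟨0, fun h => absurd h hj⟩
  choose K hK using hK
  obtain ⟨W, hW⟩ : ∃ W, W = 1 + ∑ j ∈ Finset.range (r + 1), |K j| := ⟨_, rfl⟩
  have hsumK : 0 ≤ ∑ j ∈ Finset.range (r + 1), |K j| := Finset.sum_nonneg fun j _ => abs_nonneg _
  have hW1 : 1 ≤ W := by rw [hW]; linarith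
  have hKW : ∀ j, 1 ≤ j → j ≤ r → ∀ i : ℕ, ∀ x ∈ Icc y y',
      |iteratedDeriv j (fun t => Real.log (deriv (a ^ i : D) t)) x| ≤ W ^ j := by
    intro j hj hjr i x hx
    have h1 : K j ≤ W := by
      have h2 : |K j| ≤ ∑ j ∈ Finset.range (r + 1), |K j| :=
        Finset.single_le_sum (f := fun j => |K j|) (fun j _ => abs_nonneg _)
          (Finset.mem_range.2 (by omega))
      have h3 := le_abs_self (K j)
      rw [hW]
      linarith
    exact (hK j hj i x hx).trans (h1.trans (le_self_pow₀ hW1 (by omega)))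
  -- the derivatives of the powers
  obtain ⟨E, hE⟩ : ∃ E, E = r.factorial * W ^ r * (Real.exp (M 1 * S) / (y' - y)) := ⟨_, rfl⟩
  have hE0 : 0 ≤ E := by rw [hE]; positivity
  have hpow : ∀ j, 1 ≤ j → j ≤ r → ∀ i : ℕ, ∀ x ∈ Icc y y',
      |iteratedDeriv j (a ^ i : D) x| ≤ E * ((a ^ i) y' - (a ^ i) y) := by
    intro j hj hjr i x hx
    obtain ⟨m, rfl⟩ : ∃ m, j = m + 1 := ⟨j - 1, by omega⟩
    have h1 := exp_bd (l := fun t => Real.log (deriv (a ^ i : D) t)) (x := x) (n := m) (W := W)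
      (sz_log_smooth (a ^ i)).contDiffAt (by linarith)
      (fun q hq hqm => hKW q hq (by omega) i x hx)
    have h2 : (fun t => Real.exp (Real.log (deriv (a ^ i : D) t))) = deriv (a ^ i : D) := by
      funext t
      exact Real.exp_log ((D.pos (a ^ i)) t)
    rw [h2, Real.exp_log ((D.pos (a ^ i)) x), ← iteratedDeriv_succ'] at h1
    have h3 := (hB.dist1_Icc i hy (S := S) (by simp only [sz_Q]; exact hS i) hx).1
    rw [sz_Q] at h3
    have h4 : (m.factorial : ℝ) ≤ r.factorial := by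
      exact_mod_cast Nat.factorial_le (by omega)
    have h5 : W ^ m ≤ W ^ r := pow_le_pow_right₀ hW1 (by omega)
    have h6 := (D.pos (a ^ i)) x
    calc |iteratedDeriv (m + 1) (a ^ i : D) x| ≤ m.factorial * deriv (a ^ i : D) x * W ^ m := h1
      _ = (m.factorial * W ^ m) * deriv (a ^ i : D) x := by ring
      _ ≤ (r.factorial * W ^ r) *
          (Real.exp (M 1 * S) * (((a ^ i) y' - (a ^ i) y) / (y' - y))) := by
        apply mul_le_mul _ h3 h6.le (by positivity)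
        exact mul_le_mul h4 h5 (by positivity) (by positivity)
      _ = E * ((a ^ i) y' - (a ^ i) y) := by rw [hE]; ring
  -- the composition
  obtain ⟨C₀, hC₀⟩ : ∃ C₀, C₀ = ∑ j ∈ Finset.range (r + 1), M j := ⟨_, rfl⟩
  have hC₀0 : 0 ≤ C₀ := by rw [hC₀]; exact Finset.sum_nonneg fun j _ => hM0 j
  refine ⟨r.factorial * C₀ * ((1 + E * (1 + S)) ^ r / (1 + S)), by positivity, fun i x hx => ?_⟩
  have h7 := comp_bd_lin (g := fun t => Real.log (deriv a t)) (f := (a ^ i : D)) (x := x) (n := r)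
    (sz_log_smooth a).contDiffAt (D.smooth (a ^ i)).contDiffAt hr (C := C₀) (B := 1 + E * (1 + S))
    (s := ((a ^ i) y' - (a ^ i) y) / (1 + S)) hC₀0 (by positivity)
    (div_nonneg (hpos i).le (by linarith))
    ((div_le_one (by linarith)).2 (by linarith [hle i]))
    (by
      intro j hj hjr
      refine (hM j _).trans ?_
      rw [hC₀]
      exact Finset.single_le_sum (f := fun j => M j) (fun j _ => hM0 j)
          (Finset.mem_range.2 (by omega)))
    (by
      intro j hj hjr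
      have h8 := hpow j hj hjr i x hx
      have h9 : 1 + E * (1 + S) ≤ (1 + E * (1 + S)) ^ j :=
        le_self_pow₀ (by nlinarith [mul_nonneg hE0 (show (0:ℝ) ≤ 1 + S by linarith)]) (by omega)
      have h10 : 0 ≤ ((a ^ i) y' - (a ^ i) y) / (1 + S) := div_nonneg (hpos i).le (by linarith)
      calc |iteratedDeriv j (a ^ i : D) x| ≤ E * ((a ^ i) y' - (a ^ i) y) := h8
        _ = ((a ^ i) y' - (a ^ i) y) / (1 + S) * (E * (1 + S)) := by
          have : (1 + S) ≠ 0 := by linarith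
          field_simp
        _ ≤ ((a ^ i) y' - (a ^ i) y) / (1 + S) * (1 + E * (1 + S)) ^ j := by
          apply mul_le_mul_of_nonneg_left _ h10
          linarith)
  refine h7.trans (le_of_eq ?_)
  ring

end Pool.Agent.Helper638.Ros
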