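import Pool.Agent.Helper638_Ros.Sz_a

/-!
# Szekeres coordinate: the limit of the logarithms of the derivatives (paper 2.5 (d))
-/

set_option autoImplicit false

namespace Pool.Agent.Helper638.Ros

open Filter Function Set Topology MeasureTheory

/-- the limit of the logarithms of the derivatives of the iterates -/
noncomputable def szU (a : D) (x₀ x : ℝ) : ℝ :=
  ∑' i : ℕ, (Real.log (deriv a ((a ^ i) x)) - Real.log (deriv a ((a ^ i) x₀)))

theorem sz_log_lip (a : D) {M : ℝ} (hM : ∀ x, |iteratedDeriv 1 (fun y => Real.log (deriv a y)) x| ≤ M)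
    (s t : ℝ) : |Real.log (deriv a s) - Real.log (deriv a t)| ≤ M * |s - t| := by
  have h1 : Differentiable ℝ fun y => Real.log (deriv a y) :=
    (sz_log_smooth a).differentiable (by simp)
  have h2 := Convex.norm_image_sub_le_of_norm_deriv_le (f := fun y => Real.log (deriv a y))
    (s := univ) (C := M) (x := t) (y := s) (fun x _ => h1 x)
    (fun x _ => by
      have := hM x
      rw [iteratedDeriv_one] at this
      exact this) convex_univ (mem_univ _) (mem_univ _)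
  exact h2

section Lim

variable {a : D} {p₀ p₁ : ℝ}

theorem sz_summable (h₀ : a p₀ = p₀) (h₁ : a p₁ = p₁) (ha : ∀ x ∈ Ioo p₀ p₁, a x < x) {x x₀ : ℝ}
    (hx : x ∈ Ioo p₀ p₁) (hx₀ : x₀ ∈ Ioo p₀ p₁) :
    Summable fun i : ℕ => Real.log (deriv a ((a ^ i) x)) - Real.log (deriv a ((a ^ i) x₀)) := by
  obtain ⟨M, hM0, hM, -⟩ := sz_bdd a
  have h2 : ∃ S : ℝ, ∀ n : ℕ, ∑ i ∈ Finset.range n, |(a ^ i) x - (a ^ i) x₀| ≤ S := by
    rcases le_total x x₀ with h | h
    · obtain ⟨S, -, hS⟩ := sz_sum h₀ h₁ ha hx hx₀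
      refine ⟨S, fun n => le_of_eq_of_le (Finset.sum_congr rfl fun i _ => ?_) (hS n)⟩
      have := (D.strictMono (a ^ i)).monotone h
      rw [abs_of_nonpos (by linarith)]
      ring
    · obtain ⟨S, -, hS⟩ := sz_sum h₀ h₁ ha hx₀ hx
      refine ⟨S, fun n => le_of_eq_of_le (Finset.sum_congr rfl fun i _ => ?_) (hS n)⟩
      have := (D.strictMono (a ^ i)).monotone h
      rw [abs_of_nonneg (by linarith)]
  obtain ⟨S, hS⟩ := h2
  have h3 : Summable fun i : ℕ => |(a ^ i) x - (a ^ i) x₀| :=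
    summable_of_sum_range_le (fun i => abs_nonneg _) hS
  refine Summable.of_norm_bounded (h3.mul_left (M 1)) fun i => ?_
  exact sz_log_lip a (hM 1) _ _

theorem sz_U_on (h₀ : a p₀ = p₀) (h₁ : a p₁ = p₁) (ha : ∀ x ∈ Ioo p₀ p₁, a x < x) {x₀ : ℝ}
    (hx₀ : x₀ ∈ Ioo p₀ p₁) :
    ContDiffOn ℝ ((⊤ : ℕ∞) : WithTop ℕ∞) (szU a x₀) (Ioo p₀ p₁) := by
  intro x hx
  obtain ⟨y, hy1, hy2⟩ := exists_between (lt_min hx.1 hx₀.1)
  obtain ⟨y', hy3, hy4⟩ := exists_between (max_lt hx.2 hx₀.2)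
  have hyx : y < x := hy2.trans_le (min_le_left _ _)
  have hyx0 : y < x₀ := hy2.trans_le (min_le_right _ _)
  have hxy : x < y' := (le_max_left _ _).trans_lt hy3
  have hx0y : x₀ < y' := (le_max_right _ _).trans_lt hy3
  have hyI : y ∈ Ioo p₀ p₁ := ⟨hy1, hyx.trans hx.2⟩
  have hyI' : y' ∈ Ioo p₀ p₁ := ⟨hx.1.trans hxy, hy4⟩
  have hyy : y < y' := hyx.trans hxy
  obtain ⟨S, -, hS⟩ := sz_sum h₀ h₁ ha hyI hyI'
  have hpos : ∀ i : ℕ, 0 ≤ (a ^ i) y' - (a ^ i) y := fun i => by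
    have := (D.strictMono (a ^ i)) hyy
    linarith
  have hsum : Summable fun i : ℕ => (a ^ i) y' - (a ^ i) y := summable_of_sum_range_le hpos hS
  have key : ∀ n : ℕ, ContDiffOn ℝ n (szU a x₀) (Ioo y y') := by
    intro n
    refine sz_tsum isOpen_Ioo isPreconnected_Ioo (y₀ := x₀) ⟨hyx0, hx0y⟩ n
      (fun i t => Real.log (deriv a ((a ^ i) t)) - Real.log (deriv a ((a ^ i) x₀))) ?_ ?_ ?_
    · intro i
      exact ((sz_log_smooth a).comp (D.smooth (a ^ i))).sub contDiff_const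
    · intro r hr
      obtain ⟨C, hC, hC'⟩ := sz_term a hyy hS r hr
      refine ⟨fun i => C * ((a ^ i) y' - (a ^ i) y), hsum.mul_left C, fun i t ht => ?_⟩
      have h1 := hC' i t ⟨ht.1.le, ht.2.le⟩
      obtain ⟨m, rfl⟩ : ∃ m, r = m + 1 := ⟨r - 1, by omega⟩
      have h2 : deriv (fun t => Real.log (deriv a ((a ^ i) t)) - Real.log (deriv a ((a ^ i) x₀))) =
          deriv (fun t => Real.log (deriv a ((a ^ i) t))) := by
        funext t
        rw [deriv_sub_const]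
      rw [iteratedDeriv_succ', h2, ← iteratedDeriv_succ']
      exact h1
    · exact sz_summable h₀ h₁ ha hx₀ hx₀
  have key2 : ContDiffOn ℝ ((⊤ : ℕ∞) : WithTop ℕ∞) (szU a x₀) (Ioo y y') :=
    contDiffOn_infty.2 key
  exact (key2.contDiffAt (Ioo_mem_nhds hyx hxy)).contDiffWithinAt

theorem sz_log_pow (a : D) (n : ℕ) (x : ℝ) :
    Real.log (deriv (a ^ n : D) x) = ∑ i ∈ Finset.range n, Real.log (deriv a ((a ^ i) x)) := by
  induction n with
  | zero =>
    have e : ((a ^ 0 : D) : ℝ → ℝ) = id := by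
      funext t
      simp
    rw [e]
    simp
  | succ n ih =>
    rw [Finset.sum_range_succ, ← ih, pow_succ', D.deriv_mul,
      Real.log_mul (D.pos a _).ne' (D.pos (a ^ n) _).ne', add_comm]

theorem sz_U_tendsto (h₀ : a p₀ = p₀) (h₁ : a p₁ = p₁) (ha : ∀ x ∈ Ioo p₀ p₁, a x < x) {x x₀ : ℝ}
    (hx : x ∈ Ioo p₀ p₁) (hx₀ : x₀ ∈ Ioo p₀ p₁) :
    Tendsto (fun n : ℕ => Real.log (deriv (a ^ n : D) x) - Real.log (deriv (a ^ n : D) x₀)) atTop
      (𝓝 (szU a x₀ x)) := by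
  have h := (sz_summable h₀ h₁ ha hx hx₀).hasSum.tendsto_sum_nat
  refine h.congr fun n => ?_
  rw [Finset.sum_sub_distrib, sz_log_pow, sz_log_pow]

/-- the logarithm of the derivative of the elements of the centralizer -/
theorem sz_log_eq (h₀ : a p₀ = p₀) (h₁ : a p₁ = p₁) (ha : ∀ x ∈ Ioo p₀ p₁, a x < x) {x₀ : ℝ}
    (hx₀ : x₀ ∈ Ioo p₀ p₁) (g : D) (hg₀ : g p₀ = p₀) (hg₁ : g p₁ = p₁) (hc : Commute g a) {x : ℝ}
    (hx : x ∈ Ioo p₀ p₁) :
    Real.log (deriv g x) = Real.log (deriv g p₀) + szU a x₀ x - szU a x₀ (g x) := by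
  have h1 := sz_U_tendsto h₀ h₁ ha hx hx₀
  have h2 := sz_U_tendsto h₀ h₁ ha (sz_maps g hg₀ hg₁ hx) hx₀
  have h3 : Tendsto (fun n : ℕ => Real.log (deriv g ((a ^ n) x))) atTop
      (𝓝 (Real.log (deriv g p₀))) :=
    ((sz_log_smooth g).continuous.tendsto p₀).comp (sz_tendsto h₀ h₁ ha hx)
  have h4 : ∀ n : ℕ, Real.log (deriv g ((a ^ n) x)) +
      (Real.log (deriv (a ^ n : D) x) - Real.log (deriv (a ^ n : D) x₀)) -
      (Real.log (deriv (a ^ n : D) (g x)) - Real.log (deriv (a ^ n : D) x₀)) =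
      Real.log (deriv g x) := by
    intro n
    have h5 : g * a ^ n = a ^ n * g := (hc.pow_right n).eq
    have h6 : deriv (g * a ^ n : D) x = deriv (a ^ n * g : D) x := by rw [h5]
    rw [D.deriv_mul, D.deriv_mul] at h6
    have h7 := congrArg Real.log h6
    rw [Real.log_mul (D.pos g _).ne' (D.pos (a ^ n) _).ne',
      Real.log_mul (D.pos (a ^ n) _).ne' (D.pos g _).ne'] at h7
    linarith
  have h8 := (h3.add h1).sub h2
  exact (tendsto_nhds_unique (h8.congr h4) tendsto_const_nhds).symm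

end Lim

/-- the affine coordinate, with the explicit derivative -/
theorem sz_coord {a : D} {p₀ p₁ : ℝ} (hlt : p₀ < p₁) (h₀ : a p₀ = p₀) (h₁ : a p₁ = p₁)
    (ha : ∀ x ∈ Ioo p₀ p₁, a x < x) : ∃ Z : ℝ → ℝ, ContDiffOn ℝ ((⊤ : ℕ∞) : WithTop ℕ∞) Z
      (Ioo p₀ p₁) ∧ (∀ x ∈ Ioo p₀ p₁, 0 < deriv Z x) ∧
      ∀ g : D, g p₀ = p₀ → g p₁ = p₁ → Commute g a → ∃ l b : ℝ, 0 < l ∧
        ∀ x ∈ Ioo p₀ p₁, Z (g x) = l * Z x + b := by
  obtain ⟨x₀, hx₀⟩ := exists_between hlt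
  have hx₀' : x₀ ∈ Ioo p₀ p₁ := hx₀
  obtain ⟨w, hw⟩ : ∃ w : ℝ → ℝ, w = fun x => Real.exp (szU a x₀ x) := ⟨_, rfl⟩
  have hwon : ContDiffOn ℝ ((⊤ : ℕ∞) : WithTop ℕ∞) w (Ioo p₀ p₁) := by
    rw [hw]
    exact (sz_U_on h₀ h₁ ha hx₀').exp
  have hwpos : ∀ x, 0 < w x := by
    intro x
    rw [hw]
    exact Real.exp_pos _
  obtain ⟨Z, hZ⟩ : ∃ Z : ℝ → ℝ, Z = fun x => ∫ t in x₀..x, w t := ⟨_, rfl⟩
  have hder : ∀ x ∈ Ioo p₀ p₁, HasDerivAt Z (w x) x := by
    intro x hx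
    rw [hZ]
    have hsub : uIcc x₀ x ⊆ Ioo p₀ p₁ := by
      intro t ht
      rw [mem_uIcc] at ht
      rcases ht with ht | ht
      · exact ⟨hx₀.1.trans_le ht.1, ht.2.trans_lt hx.2⟩
      · exact ⟨hx.1.trans_le ht.1, ht.2.trans_lt hx₀.2⟩
    refine intervalIntegral.integral_hasDerivAt_right
      ((hwon.continuousOn.mono hsub).intervalIntegrable) ?_
      (hwon.continuousOn.continuousAt (isOpen_Ioo.mem_nhds hx))
    exact hwon.continuousOn.stronglyMeasurableAtFilter isOpen_Ioo x hx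
  refine ⟨Z, ?_, ?_, ?_⟩
  · rw [contDiffOn_infty_iff_deriv_of_isOpen isOpen_Ioo]
    refine ⟨fun x hx => (hder x hx).differentiableAt.differentiableWithinAt, ?_⟩
    exact hwon.congr fun x hx => (hder x hx).deriv
  · intro x hx
    rw [(hder x hx).deriv]
    exact hwpos x
  · intro g hg₀ hg₁ hc
    refine ⟨deriv g p₀, Z (g x₀) - deriv g p₀ * Z x₀, D.pos g p₀, fun x hx => ?_⟩
    have hd : ∀ y ∈ Ioo p₀ p₁, HasDerivAt (fun y => Z (g y) - deriv g p₀ * Z y) 0 y := by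
      intro y hy
      have h1 : HasDerivAt g (deriv g y) y := (D.differentiable g y).hasDerivAt
      have h2 : HasDerivAt (fun y => Z (g y)) (w (g y) * deriv g y) y :=
        (hder _ (sz_maps g hg₀ hg₁ hy)).comp y h1
      have h3 := h2.sub ((hder y hy).const_mul (deriv g p₀))
      have h4 := sz_log_eq h₀ h₁ ha hx₀' g hg₀ hg₁ hc hy
      have h5 : deriv g y = deriv g p₀ * w y / w (g y) := by
        rw [hw]
        simp only
        rw [← Real.exp_log (D.pos g y), h4, Real.exp_sub, Real.exp_add, Real.exp_log (D.pos g p₀)]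
      have h7 : w (g y) * deriv g y - deriv g p₀ * w y = 0 := by
        have := (hwpos (g y)).ne'
        rw [h5]
        field_simp
        ring
      rw [h7] at h3
      exact h3
    have h6 : Z (g x) - deriv g p₀ * Z x = Z (g x₀) - deriv g p₀ * Z x₀ := by
      refine isOpen_Ioo.is_const_of_deriv_eq_zero isPreconnected_Ioo
        (f := fun y => Z (g y) - deriv g p₀ * Z y)
        (fun y hy => (hd y hy).differentiableAt.differentiableWithinAt)
        (fun y hy => (hd y hy).deriv) hx hx₀'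
    linarith

end Pool.Agent.Helper638.Ros
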