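import Pool.Agent.Helper638_Ros.Sz_b

/-!
# Szekeres coordinate: convergence of almost commensurable elements (paper 2.5 (d))
-/

set_option autoImplicit false

namespace Pool.Agent.Helper638.Ros

open Filter Function Set Topology

section Coord

variable {p₀ p₁ : ℝ} {Z : ℝ → ℝ}

theorem sz_Z_mono (hZ : ContDiffOn ℝ ((⊤ : ℕ∞) : WithTop ℕ∞) Z (Ioo p₀ p₁))
    (hZ' : ∀ x ∈ Ioo p₀ p₁, 0 < deriv Z x) : StrictMonoOn Z (Ioo p₀ p₁) := by
  apply strictMonoOn_of_deriv_pos (convex_Ioo _ _) hZ.continuousOn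
  rw [interior_Ioo]
  exact hZ'

/-- the inverse of the coordinate -/
theorem sz_inv (hZ : ContDiffOn ℝ ((⊤ : ℕ∞) : WithTop ℕ∞) Z (Ioo p₀ p₁))
    (hZ' : ∀ x ∈ Ioo p₀ p₁, 0 < deriv Z x) :
    ∃ W : ℝ → ℝ, (∀ x ∈ Ioo p₀ p₁, W (Z x) = x) ∧ ∀ x ∈ Ioo p₀ p₁, SmoothAt W (Z x) := by
  have hinj : InjOn Z (Ioo p₀ p₁) := (sz_Z_mono hZ hZ').injOn
  obtain ⟨W, hW⟩ : ∃ W : ℝ → ℝ, W = invFunOn Z (Ioo p₀ p₁) := ⟨_, rfl⟩
  have h1 : ∀ x ∈ Ioo p₀ p₁, W (Z x) = x := by
    intro x hx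
    rw [hW]
    exact hinj.leftInvOn_invFunOn hx
  refine ⟨W, h1, fun x hx => ?_⟩
  have hc : ContDiffAt ℝ ((⊤ : ℕ∞) : WithTop ℕ∞) Z x := hZ.contDiffAt (isOpen_Ioo.mem_nhds hx)
  have hd : HasDerivAt Z (deriv Z x) x := (hc.differentiableAt (by simp)).hasDerivAt
  have hf := hd.hasFDerivAt_equiv (hZ' x hx).ne'
  have hn : ((⊤ : ℕ∞) : WithTop ℕ∞) ≠ 0 := by simp
  have h2 := hc.to_localInverse hf hn
  have h3 := (hc.hasStrictFDerivAt' hf hn).localInverse_unique (g := W)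
    (Filter.mem_of_superset (isOpen_Ioo.mem_nhds hx) h1)
  exact h2.congr_of_eventuallyEq h3

/-- convergence of the maps which are almost the identity in the coordinate -/
theorem sz_conv (hZ : ContDiffOn ℝ ((⊤ : ℕ∞) : WithTop ℕ∞) Z (Ioo p₀ p₁))
    (hZ' : ∀ x ∈ Ioo p₀ p₁, 0 < deriv Z x) (γ : ℕ → D) (hγ₀ : ∀ n, γ n p₀ = p₀)
    (hγ₁ : ∀ n, γ n p₁ = p₁) (l b : ℕ → ℝ) (hl : Tendsto l atTop (𝓝 1))
    (hb : Tendsto b atTop (𝓝 0)) (h : ∀ n, ∀ x ∈ Ioo p₀ p₁, Z (γ n x) = l n * Z x + b n)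
    (c d : ℝ) (hc : p₀ < c) (hd : d < p₁) (s : ℕ) :
    TendstoUniformlyOn (fun n => iteratedDeriv s (γ n)) (iteratedDeriv s (fun x : ℝ => x)) atTop
      (Icc c d) := by
  rcases lt_or_ge d c with hdc | hcd
  · rw [Icc_eq_empty hdc.not_ge]
    exact tendstoUniformlyOn_empty
  obtain ⟨W, hW1, hW2⟩ := sz_inv hZ hZ'
  have hmono := sz_Z_mono hZ hZ'
  obtain ⟨c', hc1, hc2⟩ := exists_between hc
  obtain ⟨c'', hc3, hc4⟩ := exists_between hc1
  obtain ⟨d', hd1, hd2⟩ := exists_between hd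
  obtain ⟨d'', hd3, hd4⟩ := exists_between hd2
  have Ic : c ∈ Ioo p₀ p₁ := ⟨hc, by linarith⟩
  have Ic' : c' ∈ Ioo p₀ p₁ := ⟨hc1, by linarith⟩
  have Ic'' : c'' ∈ Ioo p₀ p₁ := ⟨hc3, by linarith⟩
  have Id : d ∈ Ioo p₀ p₁ := ⟨by linarith, hd⟩
  have Id' : d' ∈ Ioo p₀ p₁ := ⟨by linarith, hd2⟩
  have Id'' : d'' ∈ Ioo p₀ p₁ := ⟨by linarith, hd4⟩
  have hsub : Icc c d ⊆ Ioo p₀ p₁ := fun x hx => ⟨hc.trans_le hx.1, hx.2.trans_lt hd⟩
  -- smoothness of the inverse
  have hU : ∀ t ∈ Ioo (Z c'') (Z d''), SmoothAt W t := by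
    intro t ht
    have h1 : ContinuousOn Z (Icc c'' d'') :=
      hZ.continuousOn.mono fun x hx => ⟨hc3.trans_le hx.1, hx.2.trans_lt hd4⟩
    obtain ⟨x, hx, rfl⟩ := intermediate_value_Icc (by linarith) h1 ⟨ht.1.le, ht.2.le⟩
    exact hW2 x ⟨hc3.trans_le hx.1, hx.2.trans_lt hd4⟩
  have hUon : ContDiffOn ℝ ((⊤ : ℕ∞) : WithTop ℕ∞) W (Ioo (Z c'') (Z d'')) :=
    fun t ht => (hU t ht).contDiffWithinAt
  have hZc : Z c'' < Z c' := hmono Ic'' Ic' hc4
  have hZd : Z d' < Z d'' := hmono Id' Id'' hd3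
  have hZc2 : Z c' < Z c := hmono Ic' Ic hc2
  have hZd2 : Z d < Z d' := hmono Id Id' hd1
  have hsubU : Icc (Z c') (Z d') ⊆ Ioo (Z c'') (Z d'') :=
    fun t ht => ⟨hZc.trans_le ht.1, ht.2.trans_lt hZd⟩
  -- bounds
  choose BZ hBZ0 hBZ using fun i => sz_iter_bdd isOpen_Ioo Z hZ hsub i
  choose BW hBW0 hBW using fun i => sz_iter_bdd isOpen_Ioo W hUon hsubU i
  obtain ⟨b₁, hb₁⟩ : ∃ b₁, b₁ = ∑ i ∈ Finset.range (s + 2), BZ i := ⟨_, rfl⟩
  obtain ⟨b₂, hb₂⟩ : ∃ b₂, b₂ = ∑ i ∈ Finset.range (s + 2), BW i := ⟨_, rfl⟩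
  have hb₁0 : 0 ≤ b₁ := by rw [hb₁]; exact Finset.sum_nonneg fun i _ => hBZ0 i
  have hb₂0 : 0 ≤ b₂ := by rw [hb₂]; exact Finset.sum_nonneg fun i _ => hBW0 i
  have hZb : ∀ i, i ≤ s + 1 → ∀ x ∈ Icc c d, |iteratedDeriv i Z x| ≤ b₁ := by
    intro i hi x hx
    refine (hBZ i x hx).trans ?_
    rw [hb₁]
    exact Finset.single_le_sum (f := BZ) (fun j _ => hBZ0 j) (Finset.mem_range.2 (by omega))
  have hWb : ∀ i, i ≤ s + 1 → ∀ t ∈ Icc (Z c') (Z d'), |iteratedDeriv i W t| ≤ b₂ := by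
    intro i hi x hx
    refine (hBW i x hx).trans ?_
    rw [hb₂]
    exact Finset.single_le_sum (f := BW) (fun j _ => hBW0 j) (Finset.mem_range.2 (by omega))
  obtain ⟨C, e, hC, hcomp⟩ := comp_sub_bd s
  obtain ⟨B, hB⟩ : ∃ B, B = 1 + 2 * b₁ + b₂ := ⟨_, rfl⟩
  obtain ⟨η, hη⟩ : ∃ η : ℕ → ℝ, η = fun n => |l n - 1| * b₁ + |b n| := ⟨_, rfl⟩
  have hη0 : ∀ n, 0 ≤ η n := by
    intro n
    rw [hη]
    positivity
  have hηlim : Tendsto η atTop (𝓝 0) := by
    have h1 : Tendsto (fun n => |l n - 1|) atTop (𝓝 0) := by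
      have := (hl.sub_const 1).abs
      simpa using this
    have h2 : Tendsto (fun n => |b n|) atTop (𝓝 0) := by
      have := hb.abs
      simpa using this
    have h3 := (h1.mul_const b₁).add h2
    rw [hη]
    simpa using h3
  rw [Metric.tendstoUniformlyOn_iff]
  intro ε hε
  have h4 : Tendsto (fun n => C * B ^ e * η n) atTop (𝓝 0) := by
    simpa using hηlim.const_mul (C * B ^ e)
  filter_upwards [h4.eventually (gt_mem_nhds hε),
    hηlim.eventually (gt_mem_nhds (lt_min (sub_pos.2 hZc2) (sub_pos.2 hZd2))),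
    hl.eventually (Ioo_mem_nhds (show (0:ℝ) < 1 by norm_num) (show (1:ℝ) < 2 by norm_num))]
    with n hn1 hn2 hn3 x hx
  have hxI := hsub hx
  have hZx : SmoothAt Z x := hZ.contDiffAt (isOpen_Ioo.mem_nhds hxI)
  have hZmul : SmoothAt (fun y => l n * Z y + b n) x :=
    (contDiffAt_const.mul hZx).add contDiffAt_const
  have hsubZ : ∀ y, (fun y => l n * Z y + b n - Z y) y = (l n - 1) * Z y + b n := by
    intro y
    simp only
    ring
  have hval : |(l n * Z x + b n) - Z x| ≤ η n := by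
    have h5 : (l n * Z x + b n) - Z x = (l n - 1) * Z x + b n := by ring
    have h6 := hZb 0 (by omega) x hx
    rw [iteratedDeriv_zero] at h6
    rw [h5, hη]
    refine (abs_add_le _ _).trans ?_
    rw [abs_mul]
    have := mul_le_mul_of_nonneg_left h6 (abs_nonneg (l n - 1))
    simp only
    linarith
  have hZxc : Z c ≤ Z x := hmono.monotoneOn Ic hxI hx.1
  have hZxd : Z x ≤ Z d := hmono.monotoneOn hxI Id hx.2
  have hin : uIcc (l n * Z x + b n) (Z x) ⊆ Icc (Z c') (Z d') := by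
    apply uIcc_subset_Icc
    · have h7 := abs_le.1 hval
      have h8 := hn2.trans_le (min_le_left _ _)
      have h9 := hn2.trans_le (min_le_right _ _)
      constructor <;> linarith [h7.1, h7.2]
    · constructor <;> linarith
  have hmain := hcomp W (fun y => l n * Z y + b n) Z x B (η n) (by rw [hB]; linarith) (hη0 n)
    (fun t ht => hU t (hsubU (hin ht))) hZmul hZx
    (fun i _ hi t ht => (hWb i hi t (hin ht)).trans (by rw [hB]; linarith))
    (by
      intro i hi1 hi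
      have h10 := hZb i (by omega) x hx
      constructor
      · obtain ⟨m, rfl⟩ : ∃ m, i = m + 1 := ⟨i - 1, by omega⟩
        have h11 : deriv (fun y => l n * Z y + b n) = fun y => l n * deriv Z y := by
          funext y
          rw [deriv_add_const, deriv_const_mul_field]
        have h12 : iteratedDeriv (m + 1) (fun y => l n * Z y + b n) x =
            l n * iteratedDeriv (m + 1) Z x := by
          rw [iteratedDeriv_succ', h11, iteratedDeriv_const_mul_field, ← iteratedDeriv_succ']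
        rw [h12, abs_mul, abs_of_pos hn3.1]
        have := mul_le_mul hn3.2.le h10 (abs_nonneg _) (by norm_num)
        rw [hB]
        linarith
      · rw [hB]
        linarith)
    (by
      intro i hi
      have h10 := hZb i (by omega) x hx
      rcases Nat.eq_zero_or_pos i with h0 | h0
      · subst h0
        rw [iteratedDeriv_zero]
        exact hval
      · obtain ⟨m, rfl⟩ : ∃ m, i = m + 1 := ⟨i - 1, by omega⟩
        have h11 : (fun y => l n * Z y + b n - Z y) = fun y => (l n - 1) * Z y + b n := by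
          funext y
          ring
        have h12 : deriv (fun y => (l n - 1) * Z y + b n) = fun y => (l n - 1) * deriv Z y := by
          funext y
          rw [deriv_add_const, deriv_const_mul_field]
        have h13 : iteratedDeriv (m + 1) (fun y => l n * Z y + b n - Z y) x =
            (l n - 1) * iteratedDeriv (m + 1) Z x := by
          rw [h11, iteratedDeriv_succ', h12, iteratedDeriv_const_mul_field, ← iteratedDeriv_succ']
        rw [h13, abs_mul, hη]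
        have := mul_le_mul_of_nonneg_left h10 (abs_nonneg (l n - 1))
        have := abs_nonneg (b n)
        simp only
        linarith) s le_rfl
  -- comparison
  have heq : (fun y => W (l n * Z y + b n) - W (Z y)) =ᶠ[𝓝 x] (fun y => γ n y - y) := by
    filter_upwards [isOpen_Ioo.mem_nhds hxI] with y hy
    rw [← h n y hy, hW1 _ (sz_maps (γ n) (hγ₀ n) (hγ₁ n) hy), hW1 y hy]
  have h14 : iteratedDeriv s (fun y => W (l n * Z y + b n) - W (Z y)) x =
      iteratedDeriv s (γ n) x - iteratedDeriv s (fun x : ℝ => x) x := by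
    rw [heq.iteratedDeriv_eq s]
    exact iteratedDeriv_fun_sub ((D.smooth (γ n)).contDiffAt.of_le (by exact_mod_cast le_top))
      (contDiff_id.contDiffAt.of_le (by exact_mod_cast le_top))
  rw [h14] at hmain
  rw [dist_comm, Real.dist_eq]
  exact hmain.trans_lt hn1

end Coord

/-! ### signs -/

theorem sz_sign {p₀ p₁ : ℝ} (g : D) (hfree : ∀ x ∈ Ioo p₀ p₁, g x ≠ x) :
    (∀ x ∈ Ioo p₀ p₁, g x < x) ∨ ∀ x ∈ Ioo p₀ p₁, x < g x := by
  by_contra hcon
  push Not at hcon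
  obtain ⟨⟨x, hx, hx'⟩, y, hy, hy'⟩ := hcon
  have h1 : ContinuousOn (fun t => g t - t) (uIcc x y) :=
    ((D.continuous g).sub continuous_id).continuousOn
  have h2 := intermediate_value_uIcc h1
  have h3 : (0 : ℝ) ∈ uIcc (g x - x) (g y - y) := by
    rw [mem_uIcc]
    right
    constructor <;> linarith
  obtain ⟨t, ht, ht'⟩ := h2 h3
  have h4 : t ∈ Ioo p₀ p₁ := by
    rw [mem_uIcc] at ht
    rcases ht with ht | ht
    · exact ⟨hx.1.trans_le ht.1, ht.2.trans_lt hy.2⟩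
    · exact ⟨hy.1.trans_le ht.1, ht.2.trans_lt hx.2⟩
  exact hfree t h4 (by simpa [sub_eq_zero] using ht')

end Pool.Agent.Helper638.Ros
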