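import Pool.Agent.Helper638_Ros.Transport
import Pool.Agent.Helper638_Ros.LocC

/-!
# Theorem A: a free action is not discrete in the `C^infinity` topology
-/

set_option autoImplicit false

namespace Pool.Agent.Helper638.Ros

open Filter Function Set Topology

/-! ### rescaling -/

theorem tha_iter_resc {U : ℝ → ℝ} (hU : Smooth U) (x₀ c : ℝ) (s : ℕ) (x : ℝ) :
    iteratedDeriv s (fun y => c * U ((y - x₀) / c)) x =
      c * (1 / c) ^ s * iteratedDeriv s U ((x - x₀) / c) := by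
  induction s generalizing x with
  | zero => simp
  | succ s ih =>
    rw [iteratedDeriv_succ]
    have e : iteratedDeriv s (fun y => c * U ((y - x₀) / c)) =
        fun x => c * (1 / c) ^ s * iteratedDeriv s U ((x - x₀) / c) := funext ih
    rw [e]
    have hd : HasDerivAt (fun x : ℝ => (x - x₀) / c) (1 / c) x :=
      ((hasDerivAt_id x).sub_const x₀).div_const c
    have hU' : Differentiable ℝ (iteratedDeriv s U) :=
      hU.differentiable_iteratedDeriv s (by exact_mod_cast ENat.natCast_lt_top s)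
    have h1 := ((hU' ((x - x₀) / c)).hasDerivAt.comp x hd).const_mul (c * (1 / c) ^ s)
    rw [show (fun x => c * (1 / c) ^ s * iteratedDeriv s U ((x - x₀) / c)) =
      (fun x => c * (1 / c) ^ s * (iteratedDeriv s U ∘ fun x => (x - x₀) / c) x) from rfl, h1.deriv,
      iteratedDeriv_succ, pow_succ]
    ring

theorem tha_resc_comp (f g : ℝ → ℝ) (x₀ c : ℝ) (hc : 0 < c) (Y : ℝ) :
    resc f x₀ c (resc g x₀ c Y) = resc (fun x => f (g x)) x₀ c Y := by
  unfold resc
  have : x₀ + c * ((g (x₀ + c * Y) - x₀) / c) = g (x₀ + c * Y) := by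
    rw [mul_div_cancel₀ _ hc.ne']
    ring
  rw [this]

theorem tha_resc_iter (S : Sys) (u : ℤ × ℤ × ℤ) (x₀ c : ℝ) (hc : 0 < c) (a : ℕ) (Y : ℝ) :
    (resc (S.A u) x₀ c)^[a] Y = resc (S.A (a • u)) x₀ c Y := by
  induction a with
  | zero =>
    rw [iterate_zero, zero_smul, S.A_zero]
    unfold resc
    simp only [id_eq, D.one_apply]
    field_simp
    ring
  | succ a ih =>
    rw [iterate_succ_apply', ih, tha_resc_comp _ _ _ _ hc, succ_nsmul']
    unfold resc
    simp only [S.A_apply_add]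

theorem tha_resc_inc (f : D) (x₀ c : ℝ) (hc : 0 < c) : IncDiff (resc f x₀ c) := by
  have hd : ∀ Y, HasDerivAt (resc f x₀ c) (deriv f (x₀ + c * Y)) Y := by
    intro Y
    have h1 : HasDerivAt (fun Y : ℝ => x₀ + c * Y) c Y := by
      simpa using ((hasDerivAt_id Y).const_mul c).const_add x₀
    have h2 := (((D.differentiable f (x₀ + c * Y)).hasDerivAt.comp Y h1).sub_const x₀).div_const c
    have e : deriv f (x₀ + c * Y) * c / c = deriv f (x₀ + c * Y) := by field_simp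
    rw [e] at h2
    exact h2
  refine ⟨?_, ?_, ?_⟩
  · have h1 : Smooth (fun Y : ℝ => x₀ + c * Y) := contDiff_const.add (contDiff_const.mul contDiff_id)
    exact ((D.smooth f).comp h1 |>.sub contDiff_const).div_const c
  · intro Y
    rw [(hd Y).deriv]
    exact D.pos f _
  · intro Z
    obtain ⟨x, hx⟩ := D.surjective f (x₀ + c * Z)
    refine ⟨(x - x₀) / c, ?_⟩
    unfold resc
    rw [mul_div_cancel₀ _ hc.ne', add_sub_cancel, hx, add_sub_cancel_left, mul_div_cancel_left₀ _ hc.ne']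

theorem IncDiff.strictMono {w : ℝ → ℝ} (hw : IncDiff w) : StrictMono w :=
  strictMono_of_deriv_pos hw.pos

theorem tha_len_nsmul (b : ℕ) (u : ℤ × ℤ × ℤ) : len (b • u) = b * len u := by
  unfold len
  simp [Int.natAbs_mul]
  ring

theorem tha_len_zero {g : ℤ × ℤ × ℤ} (h : len g = 0) : g = g.2.2 • (0, 0, 1) := by
  unfold len at h
  obtain ⟨i, j, l⟩ := g
  simp only at h
  have h1 : i = 0 := by omega
  have h2 : j = 0 := by omega
  subst h1 h2
  simp

theorem tha_A_zsmul_T (S : Sys) (l : ℤ) (x : ℝ) : S.A (l • (0, 0, 1)) x = x + l := by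
  have hn : ∀ n : ℕ, ∀ x, S.A (n • (0, 0, 1)) x = x + n := by
    intro n x
    rw [S.A_nsmul, S.A_T, T_pow_apply]
  cases l with
  | ofNat n => simpa using hn n x
  | negSucc n =>
    rw [negSucc_zsmul, S.A_neg]
    apply D.injective (S.A ((n + 1) • (0, 0, 1)))
    rw [D.apply_inv_self, hn]
    push_cast [Int.negSucc_eq]
    ring

/-- closeness of `A g` to the identity at the points of a period -/
theorem tha_close (S : Sys) (g : ℤ × ℤ × ℤ) (r : ℕ) (ε p : ℝ)
    (h : ∀ x ∈ Ico p (p + 1), ∀ s, s ≤ r → |iteratedDeriv s (fun y => S.A g y - y) x| < ε) :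
    Close r ε (S.A g) (fun x => x) := by
  have hsm : Smooth (fun y => S.A g y - y) := (D.smooth _).sub contDiff_id
  have hper : ∀ (s : ℕ) (n : ℤ) (x : ℝ), iteratedDeriv s (fun y => S.A g y - y) (x + n) =
      iteratedDeriv s (fun y => S.A g y - y) x := by
    intro s n x
    have e : (fun z => (fun y => S.A g y - y) (z + n)) = fun y => S.A g y - y := by
      funext z
      simp only [D.add_int]
      ring
    have h1 := iteratedDeriv_comp_add_const (n := s) (f := fun y => S.A g y - y) (s := (n:ℝ))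
    rw [e] at h1
    exact (congrFun h1 x).symm
  intro i hi x
  have hsub : iteratedDeriv i (fun y => S.A g y - y) x =
      iteratedDeriv i (S.A g) x - iteratedDeriv i (fun x => x) x :=
    iteratedDeriv_sub ((D.smooth (S.A g)).contDiffAt.of_le (by exact_mod_cast le_top))
      (contDiff_id.contDiffAt)
  rw [← hsub]
  obtain ⟨n, hn, -⟩ := existsUnique_add_zsmul_mem_Ico (one_pos : (0:ℝ) < 1) x p
  have hn' : x + n ∈ Ico p (p + 1) := by simpa using hn
  rw [← hper i n x]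
  exact h _ hn' i hi

/-- the final estimate: transport of the local estimate to all points of a period -/
theorem tha_est {S : Sys} (W : RSeq S) {C₁ : ℕ} (r n K E : ℕ) (x₀ c Ct Cs : ℝ) (et es : ℕ)
    (g : ℤ × ℤ × ℤ) (V : ℝ → ℝ) (hC : 0 < c) (hc1 : c ≤ 1)
    (hcC : (S.tau (W.w (n + 1))) ^ C₁ ≤ c) (hK : 80 ≤ K) (hE : 2 ≤ E)
    (hgap : ∀ Y ∈ Icc (0 : ℝ) 1, (1 / (K:ℝ)) / 2 ≤ resc (S.A (W.w (n + 1))) x₀ c Y - Y ∧
      resc (S.A (W.w (n + 1))) x₀ c Y - Y ≤ 2 * (1 / (K:ℝ)))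
    (hVs : Smooth V) (hV : ∀ Y, resc (S.A g) x₀ c Y = V Y)
    (hVb : ∀ Y ∈ Icc (0.15 : ℝ) 0.25, ∀ s, s ≤ r →
        |iteratedDeriv s (fun y => V y - y) Y| ≤ (1 / (K:ℝ)) ^ E)
    (hCt : 1 ≤ Ct) (hCs : 1 ≤ Cs)
    (htr : ∀ x : ℝ, x ∈ Ico (x₀ + 0.2 * c) (x₀ + 0.2 * c + 1) →
      ∃ h : ℤ × ℤ × ℤ, S.A h x ∈ Ico (x₀ + 0.2 * c) (S.A (W.w (n + 1)) (x₀ + 0.2 * c)) ∧
      ∀ s, 1 ≤ s → s ≤ r + 1 →
        |iteratedDeriv s (S.A h) x| ≤ Ct * (1 / S.tau (W.w (n + 1))) ^ et ∧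
        ∀ z ∈ Icc (S.A (-W.w (n + 1)) (S.A h x)) (S.A (W.w (n + 1)) (S.A h x)),
          |iteratedDeriv s (S.A (-h)) z| ≤ Ct * (1 / S.tau (W.w (n + 1))) ^ et)
    (hcs : ∀ (g f₁ f₂ : ℝ → ℝ) (x B η : ℝ),
      1 ≤ B → 0 ≤ η → (∀ t ∈ uIcc (f₁ x) (f₂ x), SmoothAt g t) → SmoothAt f₁ x → SmoothAt f₂ x →
      (∀ i, 1 ≤ i → i ≤ r + 1 → ∀ t ∈ uIcc (f₁ x) (f₂ x), |iteratedDeriv i g t| ≤ B) →
      (∀ i, 1 ≤ i → i ≤ r → |iteratedDeriv i f₁ x| ≤ B ∧ |iteratedDeriv i f₂ x| ≤ B) →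
      (∀ i, i ≤ r → |iteratedDeriv i (fun y => f₁ y - f₂ y) x| ≤ η) →
      ∀ i, i ≤ r → |iteratedDeriv i (fun y => g (f₁ y) - g (f₂ y)) x| ≤ Cs * B ^ es * η)
    (η : ℝ) (hη : η = r.factorial * ((1 / S.tau (W.w (n + 1))) ^ (C₁ * r) * (1 / (K:ℝ)) ^ E) *
      (Ct * (1 / S.tau (W.w (n + 1))) ^ et) ^ r) (hη1 : η ≤ 1) :
    ∀ x ∈ Ico (x₀ + 0.2 * c) (x₀ + 0.2 * c + 1), ∀ s, s ≤ r →
      |iteratedDeriv s (fun y => S.A g y - y) x| ≤
        Cs * (2 * (Ct * (1 / S.tau (W.w (n + 1))) ^ et)) ^ es * η := by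
  intro x hx
  obtain ⟨h, hhx, hhb⟩ := htr x hx
  set t := S.tau (W.w (n + 1)) with ht
  have ht0 : 0 < t := W.pos _
  have ht1 : t ≤ 1 := W.tau_le_one _
  set Dt := 1 / t with hD
  have hD1 : 1 ≤ Dt := by rw [hD, le_div_iff₀ ht0]; linarith
  set B₀ := Ct * Dt ^ et with hB₀
  have hB₀1 : 1 ≤ B₀ := one_le_mul_of_one_le_of_one_le hCt (one_le_pow₀ hD1)
  have hK0 : (0:ℝ) < K := by
    have : 0 < K := by omega
    exact_mod_cast this
  have hK80 : (80:ℝ) ≤ K := by exact_mod_cast hK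
  set k := 1 / (K:ℝ) with hk
  have hk0 : 0 < k := by positivity
  have hk80 : k ≤ 1 / 80 := one_div_le_one_div_of_le (by norm_num) hK80
  have hkE : k ^ E ≤ k / 2 := by
    calc k ^ E ≤ k ^ 2 := pow_le_pow_of_le_one hk0.le (by linarith) hE
      _ ≤ k / 2 := by
          rw [sq]
          have := mul_le_mul_of_nonneg_left hk80 hk0.le
          linarith
  -- the rescaled map
  set y₀ := S.A h x with hy₀
  set Y₀ := (y₀ - x₀) / c with hY₀
  have hcY : x₀ + c * Y₀ = y₀ := by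
    rw [hY₀, mul_div_cancel₀ _ hC.ne']
    ring
  have hAw : ∀ Y, S.A (W.w (n + 1)) (x₀ + c * Y) = x₀ + c * resc (S.A (W.w (n + 1))) x₀ c Y := by
    intro Y
    unfold resc
    rw [mul_div_cancel₀ _ hC.ne']
    ring
  have hAg : ∀ Y, S.A g (x₀ + c * Y) = x₀ + c * V Y := by
    intro Y
    rw [← hV]
    unfold resc
    rw [mul_div_cancel₀ _ hC.ne']
    ring
  have hY1 : 0.2 ≤ Y₀ := by
    rw [hY₀, le_div_iff₀ hC]
    linarith [hhx.1]
  have hY2 : Y₀ ≤ 0.25 := by
    rw [hY₀, div_le_iff₀ hC]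
    have h1 := hhx.2
    rw [show x₀ + 0.2 * c = x₀ + c * 0.2 by ring, hAw] at h1
    have h2 := (hgap 0.2 (by norm_num)).2
    have h3 : resc (S.A (W.w (n + 1))) x₀ c 0.2 ≤ 0.25 := by linarith
    have h4 := mul_le_mul_of_nonneg_left h3 hC.le
    linarith
  have hup : x₀ + c * (Y₀ + k / 2) ≤ S.A (W.w (n + 1)) y₀ := by
    rw [← hcY, hAw]
    have h2 := (hgap Y₀ ⟨by linarith, by linarith⟩).1
    have h4 := mul_le_mul_of_nonneg_left h2 hC.le
    linarith
  have hdn : S.A (-W.w (n + 1)) y₀ ≤ x₀ + c * (Y₀ - k / 2) := by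
    rw [S.A_neg]
    have h2 := (hgap (Y₀ - k / 2) ⟨by linarith, by linarith⟩).1
    have h3 : y₀ ≤ S.A (W.w (n + 1)) (x₀ + c * (Y₀ - k / 2)) := by
      rw [hAw, ← hcY]
      have h4 := mul_le_mul_of_nonneg_left h2 hC.le
      linarith
    have h5 := (D.strictMono (S.A (W.w (n + 1)))⁻¹).monotone h3
    rwa [D.inv_apply_self] at h5
  have hVY := hVb Y₀ ⟨by linarith, by linarith⟩
  have hAgy : S.A g y₀ = x₀ + c * V Y₀ := by rw [← hcY, hAg]
  have hV0 : |V Y₀ - Y₀| ≤ k / 2 := by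
    have := hVY 0 (Nat.zero_le _)
    rw [iteratedDeriv_zero] at this
    exact this.trans hkE
  have hV0' := abs_le.mp hV0
  have hIcc : ∀ z ∈ uIcc (S.A g y₀) y₀,
      z ∈ Icc (S.A (-W.w (n + 1)) y₀) (S.A (W.w (n + 1)) y₀) := by
    intro z hz
    have h1 : uIcc (S.A g y₀) y₀ ⊆ Icc (S.A (-W.w (n + 1)) y₀) (S.A (W.w (n + 1)) y₀) := by
      have h5 : x₀ + c * (Y₀ - k / 2) ≤ S.A g y₀ := by
        rw [hAgy]
        have := mul_le_mul_of_nonneg_left (by linarith : Y₀ - k / 2 ≤ V Y₀) hC.le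
        linarith
      have h6 : S.A g y₀ ≤ x₀ + c * (Y₀ + k / 2) := by
        rw [hAgy]
        have := mul_le_mul_of_nonneg_left (by linarith : V Y₀ ≤ Y₀ + k / 2) hC.le
        linarith
      have h7 : x₀ + c * (Y₀ - k / 2) ≤ y₀ := by
        conv_rhs => rw [← hcY]
        have := mul_le_mul_of_nonneg_left (by linarith : Y₀ - k / 2 ≤ Y₀) hC.le
        linarith
      have h8 : y₀ ≤ x₀ + c * (Y₀ + k / 2) := by
        conv_lhs => rw [← hcY]
        have := mul_le_mul_of_nonneg_left (by linarith : Y₀ ≤ Y₀ + k / 2) hC.le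
        linarith
      exact uIcc_subset_Icc ⟨hdn.trans h5, h6.trans hup⟩ ⟨hdn.trans h7, h8.trans hup⟩
    exact h1 hz
  -- the difference
  have hUs : Smooth (fun Y => V Y - Y) := hVs.sub contDiff_id
  have hG : (fun y => S.A g y - y) = fun y => c * (fun Y => V Y - Y) ((y - x₀) / c) := by
    funext y
    have h1 := hAg ((y - x₀) / c)
    have h2 : x₀ + c * ((y - x₀) / c) = y := by
      rw [mul_div_cancel₀ _ hC.ne']
      ring
    rw [h2] at h1
    rw [h1]
    have h3 : c * (V ((y - x₀) / c) - (y - x₀) / c) = c * V ((y - x₀) / c) - (y - x₀) := by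
      rw [mul_sub, mul_div_cancel₀ _ hC.ne']
    change x₀ + c * V ((y - x₀) / c) - y = c * (V ((y - x₀) / c) - (y - x₀) / c)
    rw [h3]
    ring
  have hcD : 1 / c ≤ Dt ^ C₁ := by
    rw [hD, one_div_pow]
    exact one_div_le_one_div_of_le (by positivity) hcC
  have hc1' : 1 ≤ 1 / c := by rw [le_div_iff₀ hC]; linarith
  set Cg := Dt ^ (C₁ * r) * k ^ E with hCg
  have hCg0 : 0 ≤ Cg := by positivity
  have hGb : ∀ s, s ≤ r → |iteratedDeriv s (fun y => S.A g y - y) y₀| ≤ Cg := by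
    intro s hs
    rw [hG, tha_iter_resc hUs x₀ c s y₀, abs_mul, abs_of_nonneg (by positivity)]
    have h1 := hVY s hs
    have h2 : c * (1 / c) ^ s ≤ Dt ^ (C₁ * r) := by
      calc c * (1 / c) ^ s ≤ 1 * (1 / c) ^ s := mul_le_mul_of_nonneg_right hc1 (by positivity)
        _ = (1 / c) ^ s := one_mul _
        _ ≤ (1 / c) ^ r := pow_le_pow_right₀ hc1' hs
        _ ≤ (Dt ^ C₁) ^ r := pow_le_pow_left₀ (by positivity) hcD r
        _ = Dt ^ (C₁ * r) := (pow_mul _ _ _).symm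
    exact mul_le_mul h2 h1 (abs_nonneg _) (by positivity)
  have hη0 : 0 ≤ η := by rw [hη]; positivity
  have hkη : Cg ≤ η := by
    rw [hη]
    have h1 : (1:ℝ) ≤ r.factorial := by exact_mod_cast Nat.factorial_pos r
    have h2 : 1 ≤ B₀ ^ r := one_le_pow₀ hB₀1
    calc Cg = 1 * Cg * 1 := by ring
      _ ≤ r.factorial * Cg * B₀ ^ r :=
        mul_le_mul (mul_le_mul_of_nonneg_right h1 hCg0) h2 zero_le_one (by positivity)
  have hdiff : ∀ i, i ≤ r →
      |iteratedDeriv i (fun y => S.A g (S.A h y) - S.A h y) x| ≤ η := by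
    intro i hi
    rcases Nat.eq_zero_or_pos i with rfl | hi0
    · rw [iteratedDeriv_zero]
      have := hGb 0 (Nat.zero_le _)
      rw [iteratedDeriv_zero] at this
      exact this.trans hkη
    · have h1 := comp_bd (g := fun y => S.A g y - y) (f := S.A h) (x := x)
        (((D.smooth _).sub contDiff_id).contDiffAt) ((D.smooth _).contDiffAt) hi0 (C := Cg)
        (B := B₀) hCg0 (by linarith) (fun j _ hj => hGb j (hj.trans hi))
        (fun j hj1 hj => (hhb j hj1 (by omega)).1.trans (le_self_pow₀ hB₀1 (by omega)))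
      refine h1.trans ?_
      rw [hη]
      have h2 : (i.factorial : ℝ) ≤ r.factorial := by exact_mod_cast Nat.factorial_le hi
      have h3 : B₀ ^ i ≤ B₀ ^ r := pow_le_pow_right₀ hB₀1 hi
      exact mul_le_mul (mul_le_mul_of_nonneg_right h2 hCg0) h3 (by positivity) (by positivity)
  have hs1 : Smooth (fun y => S.A g (S.A h y)) := (D.smooth _).comp (D.smooth _)
  have hs2 : Smooth (fun y => S.A h y) := D.smooth _
  have hmain := hcs (S.A (-h)) (fun y => S.A g (S.A h y)) (fun y => S.A h y) x (2 * B₀) η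
    (by linarith) hη0 (fun t _ => (D.smooth _).contDiffAt) hs1.contDiffAt hs2.contDiffAt
    (fun i hi1 hi t ht => ((hhb i hi1 hi).2 t (hIcc t ht)).trans (by linarith))
    (fun i hi1 hi => by
      have h2 := (hhb i hi1 (by omega)).1
      refine ⟨?_, h2.trans (by linarith)⟩
      have h3 : iteratedDeriv i (fun y => S.A g (S.A h y)) x =
          iteratedDeriv i (fun y => S.A g (S.A h y) - S.A h y) x +
            iteratedDeriv i (fun y => S.A h y) x := by
        have h4 : iteratedDeriv i (fun y => S.A g (S.A h y) - S.A h y) x =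
            iteratedDeriv i (fun y => S.A g (S.A h y)) x - iteratedDeriv i (fun y => S.A h y) x :=
          iteratedDeriv_sub (hs1.contDiffAt.of_le (by exact_mod_cast le_top))
            (hs2.contDiffAt.of_le (by exact_mod_cast le_top))
        rw [h4]
        ring
      rw [h3]
      refine (abs_add_le _ _).trans ?_
      have h5 := hdiff i hi
      linarith)
    hdiff
  intro s hs
  have h1 := hmain s hs
  have h2 : (fun y => S.A (-h) (S.A g (S.A h y)) - S.A (-h) (S.A h y)) =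
      fun y => S.A g y - y := by
    funext y
    rw [← S.A_apply_add, ← S.A_apply_add, ← S.A_apply_add, neg_add_cancel, S.A_zero, D.one_apply,
      show -h + g + h = g by abel]
  rw [h2] at h1
  exact h1

theorem thmA (S : Sys) (r : ℕ) (ε : ℝ) (hε : 0 < ε) :
    ∃ g : ℤ × ℤ × ℤ, len g ≠ 0 ∧ Close r ε (S.A g) (fun x => x) := by
  obtain ⟨W⟩ := exists_rseq S
  obtain ⟨C₁, -, hC₁⟩ := gap W
  obtain ⟨Ct, et, hCt, htr⟩ := transport_bd W hC₁ (r + 1)
  obtain ⟨Cs, es, hCs, hcs⟩ := comp_sub_bd r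
  set N := et * es + (C₁ * r + et * r) with hN
  set E := 16 * N + 2 with hE
  obtain ⟨Cb, n₀, hCb, hblk⟩ := block W hC₁ (r + 2 * E + 3)
  obtain ⟨K₀, hK₀, hloc⟩ := local_thm r E Cb hCb
  set θ := min ε (1 / 2) with hθ
  have hθ0 : 0 < θ := lt_min hε (by norm_num)
  have hθ1 : θ ≤ 1 / 2 := min_le_right _ _
  have hθε : θ ≤ ε := min_le_left _ _
  set Kc : ℝ := Cs * (2 * Ct) ^ es * (r.factorial * Ct ^ r) * 2 ^ (16 * N) with hKc
  have hKc0 : 0 < Kc := by positivity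
  obtain ⟨m1, hm1⟩ := exists_nat_gt (Kc / θ)
  set m := max (max K₀ 80) m1 with hm
  set n := max n₀ (m ^ 16) with hn
  obtain ⟨K, x₀, c, hK1, hKt, hKt', hc0, hc1, hcC, hloch⟩ := hblk n (le_max_left _ _)
  set t := S.tau (W.w (n + 1)) with ht
  have ht0 : 0 < t := W.pos _
  have ht1 : t ≤ 1 := W.tau_le_one _
  -- `K` is large
  have hKm : m ≤ K := by
    by_contra hlt
    push Not at hlt
    have h1 : (K:ℝ) + 1 ≤ m := by exact_mod_cast hlt
    have h2 : ((K:ℝ) + 1) ^ 16 ≤ (m:ℝ) ^ 16 := pow_le_pow_left₀ (by positivity) h1 16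
    have h3 : t ≤ (1 / 2) ^ (n + 1) := W.tau_le _
    have h4 : (m:ℝ) ^ 16 < 2 ^ (n + 1) := by
      have h5 : m ^ 16 < 2 ^ (n + 1) := by
        calc m ^ 16 ≤ n := le_max_right _ _
          _ < 2 ^ n := Nat.lt_two_pow_self
          _ ≤ 2 ^ (n + 1) := Nat.pow_le_pow_right (by norm_num) (by omega)
      exact_mod_cast h5
    have h6 : ((K:ℝ) + 1) ^ 16 * t ≤ (m:ℝ) ^ 16 * (1 / 2) ^ (n + 1) :=
      mul_le_mul h2 h3 ht0.le (by positivity)
    have h7 : (m:ℝ) ^ 16 * (1 / 2) ^ (n + 1) < 1 := by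
      rw [one_div, inv_pow, ← div_eq_mul_inv, div_lt_one (by positivity)]
      exact h4
    linarith
  have hKK₀ : K₀ ≤ K := ((le_max_left _ _).trans (le_max_left _ _)).trans hKm
  have hK80 : 80 ≤ K := ((le_max_right _ _).trans (le_max_left _ _)).trans hKm
  have hKm1 : m1 ≤ K := (le_max_right _ _).trans hKm
  have hK0 : (0:ℝ) < K := by
    have : 0 < K := by omega
    exact_mod_cast this
  -- the local theorem
  obtain ⟨b, a, hb, V, hVd, hVeq, hVb⟩ := hloc K hKK₀ (resc (S.A (W.w (n + 1))) x₀ c)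
    (resc (S.A (W.w (n + 2))) x₀ c) (tha_resc_inc _ _ _ hc0) (tha_resc_inc _ _ _ hc0)
    (by
      intro Y
      rw [tha_resc_comp _ _ _ _ hc0, tha_resc_comp _ _ _ _ hc0]
      unfold resc
      simp only [← S.A_apply_add, add_comm])
    (by
      intro Y
      unfold resc
      rw [lt_div_iff₀ hc0]
      have := S.self_lt (W.w (n + 1)) (W.pos _) (x₀ + c * Y)
      linarith)
    (by
      intro Y
      unfold resc
      rw [lt_div_iff₀ hc0]
      have := S.self_lt (W.w (n + 2)) (W.pos _) (x₀ + c * Y)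
      linarith) hloch
  set g : ℤ × ℤ × ℤ := b • W.w (n + 2) - a • W.w (n + 1) with hg
  have hV : ∀ Y, resc (S.A g) x₀ c Y = V Y := by
    intro Y
    have hinj : Injective (resc (S.A (W.w (n + 1))) x₀ c)^[a] :=
      ((tha_resc_inc (S.A (W.w (n + 1))) x₀ c hc0).strictMono.injective).iterate a
    apply hinj
    rw [hVeq, tha_resc_iter _ _ _ _ hc0, tha_resc_iter _ _ _ _ hc0, tha_resc_comp _ _ _ _ hc0]
    unfold resc
    simp only [← S.A_apply_add]
    rw [hg, add_sub_cancel]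
  -- numbers
  set Dt := 1 / t with hD
  have hD1 : 1 ≤ Dt := by rw [hD, le_div_iff₀ ht0]; linarith
  have hD2 : Dt ≤ (2 * (K:ℝ)) ^ 16 := by
    rw [hD, div_le_iff₀ ht0]
    have h1 : ((K:ℝ) + 1) ^ 16 ≤ (2 * (K:ℝ)) ^ 16 := by
      apply pow_le_pow_left₀ (by positivity)
      have : (1:ℝ) ≤ K := by exact_mod_cast hK1
      linarith
    have h2 := mul_le_mul_of_nonneg_right h1 ht0.le
    linarith
  have hDN : Dt ^ N * (1 / (K:ℝ)) ^ E ≤ 2 ^ (16 * N) * (1 / K) := by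
    have h1 : Dt ^ N ≤ ((2 * (K:ℝ)) ^ 16) ^ N := pow_le_pow_left₀ (by linarith) hD2 N
    have h2 : ((2 * (K:ℝ)) ^ 16) ^ N = 2 ^ (16 * N) * (K:ℝ) ^ (16 * N) := by
      rw [← pow_mul, mul_pow]
    have h3 : (K:ℝ) ^ (16 * N) * (1 / (K:ℝ)) ^ E ≤ 1 / K := by
      rw [hE, pow_add, ← mul_assoc, ← mul_pow, mul_one_div_cancel hK0.ne', one_pow, one_mul]
      have h4 : 1 / (K:ℝ) ≤ 1 := by
        rw [div_le_one hK0]
        exact_mod_cast hK1
      have h5 : 0 ≤ 1 / (K:ℝ) := by positivity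
      rw [sq]
      exact mul_le_of_le_one_left h5 h4
    calc Dt ^ N * (1 / (K:ℝ)) ^ E ≤ 2 ^ (16 * N) * (K:ℝ) ^ (16 * N) * (1 / (K:ℝ)) ^ E := by
          rw [← h2]
          exact mul_le_mul_of_nonneg_right h1 (by positivity)
      _ = 2 ^ (16 * N) * ((K:ℝ) ^ (16 * N) * (1 / (K:ℝ)) ^ E) := by ring
      _ ≤ 2 ^ (16 * N) * (1 / K) := mul_le_mul_of_nonneg_left h3 (by positivity)
  have hKθ : Kc * (1 / K) < θ := by
    rw [mul_one_div, div_lt_iff₀ hK0]
    rw [div_lt_iff₀ hθ0] at hm1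
    have h1 : (m1:ℝ) ≤ K := by exact_mod_cast hKm1
    have h2 := mul_le_mul_of_nonneg_right h1 hθ0.le
    linarith
  set η : ℝ := r.factorial * (Dt ^ (C₁ * r) * (1 / (K:ℝ)) ^ E) * (Ct * Dt ^ et) ^ r with hη
  have hη0 : 0 ≤ η := by positivity
  have hηeq : η = (r.factorial * Ct ^ r) * (Dt ^ (C₁ * r + et * r) * (1 / (K:ℝ)) ^ E) := by
    rw [hη, mul_pow, ← pow_mul, pow_add]
    ring
  have htot : Cs * (2 * (Ct * Dt ^ et)) ^ es * η ≤ Kc * (1 / K) := by
    calc Cs * (2 * (Ct * Dt ^ et)) ^ es * η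
        = Cs * (2 * Ct) ^ es * (r.factorial * Ct ^ r) * (Dt ^ N * (1 / (K:ℝ)) ^ E) := by
          rw [hηeq, hN, ← mul_assoc 2 Ct, mul_pow (2 * Ct), ← pow_mul, pow_add Dt (et * es)]
          ring
      _ ≤ Cs * (2 * Ct) ^ es * (r.factorial * Ct ^ r) * (2 ^ (16 * N) * (1 / K)) :=
          mul_le_mul_of_nonneg_left hDN (by positivity)
      _ = Kc * (1 / K) := by rw [hKc]; ring
  have hη1 : η ≤ 1 := by
    have h1 : η ≤ Cs * (2 * (Ct * Dt ^ et)) ^ es * η := by
      have h2 : 1 ≤ Cs * (2 * (Ct * Dt ^ et)) ^ es := by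
        apply one_le_mul_of_one_le_of_one_le hCs
        apply one_le_pow₀
        have := one_le_mul_of_one_le_of_one_le hCt (one_le_pow₀ hD1 : 1 ≤ Dt ^ et)
        linarith
      exact le_mul_of_one_le_left hη0 h2
    linarith
  have hest := tha_est W r n K E x₀ c Ct Cs et es g V hc0 hc1 hcC hK80 (by omega) hloch.w_gap
    hVd.smooth hV hVb hCt hCs (fun x hx => htr n _ x hx) hcs η rfl hη1
  have hclose : Close r θ (S.A g) (fun x => x) := by
    apply tha_close S g r θ (x₀ + 0.2 * c)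
    intro x hx s hs
    exact (hest x hx s hs).trans_lt (htot.trans_lt hKθ)
  refine ⟨g, ?_, fun i hi x => (hclose i hi x).trans_le hθε⟩
  -- `len g ≠ 0`
  intro hlen
  have h1 := tha_len_zero hlen
  have h2 := hclose 0 (Nat.zero_le _) 0
  rw [iteratedDeriv_zero, iteratedDeriv_zero, h1, tha_A_zsmul_T] at h2
  have h3 : g.2.2 = 0 := by
    have h4 : |(g.2.2 : ℝ)| < 1 := by
      have : (0:ℝ) + (g.2.2 : ℝ) - 0 = g.2.2 := by ring
      rw [this] at h2
      linarith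
    have h5 : |g.2.2| < 1 := by exact_mod_cast h4
    exact Int.abs_lt_one_iff.mp h5
  rw [h3, zero_smul] at h1
  have h4 : b • W.w (n + 2) = a • W.w (n + 1) := sub_eq_zero.mp h1
  have h5 : (b:ℝ) * S.tau (W.w (n + 2)) = a * S.tau (W.w (n + 1)) := by
    rw [← S.tau_nsmul, ← S.tau_nsmul, h4]
  have h6 := W.half (n + 1)
  have h7 := W.pos (n + 2)
  have h8 := W.pos (n + 1)
  have hb0 : (1:ℝ) ≤ b := by exact_mod_cast hb
  have hab : a < b := by
    by_contra hle
    push Not at hle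
    have h9 : (b:ℝ) ≤ a := by exact_mod_cast hle
    have h12 := mul_le_mul h9 h6 (by linarith) (by linarith : (0:ℝ) ≤ a)
    have h13 : 0 < (b:ℝ) * S.tau (W.w (n + 2)) := mul_pos (by linarith) h7
    linarith
  have ha0 : 0 < a := by
    rcases Nat.eq_zero_or_pos a with h9 | h9
    · exfalso
      rw [h9] at h5
      push_cast at h5
      have h13 : 0 < (b:ℝ) * S.tau (W.w (n + 2)) := mul_pos (by linarith) h7
      linarith
    · exact h9
  have h9 : b * len (W.w (n + 2)) = a * len (W.w (n + 1)) := by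
    rw [← tha_len_nsmul, ← tha_len_nsmul, h4]
  have h10 := W.len_mono n
  have h11 := W.len_pos n
  have h12 : a * len (W.w (n + 1)) < b * len (W.w (n + 1)) :=
    Nat.mul_lt_mul_of_pos_right hab (by omega)
  have h13 : b * len (W.w (n + 1)) ≤ b * len (W.w (n + 2)) := Nat.mul_le_mul_left _ h10
  omega

end Pool.Agent.Helper638.Ros
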