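import Pool.Agent.Helper638_Ros.Gap

/-!
# Transport to the good block (paper 1.11)
-/

set_option autoImplicit false

namespace Pool.Agent.Helper638.Ros

open Filter Function Set Topology

theorem tr_iter {p : ℕ → ℤ × ℤ × ℤ} {l : ℕ} (hp : IsPath p l) (j : ℕ) :
    ∃ q : ℕ → ℤ × ℤ × ℤ, IsPath q (j * l) ∧ q (j * l) = j • p l ∧
      ∀ f : ℤ × ℤ × ℤ → ℝ, ∑ a ∈ Finset.range (j * l), f (q a) =
        ∑ i ∈ Finset.range j, ∑ a ∈ Finset.range l, f (i • p l + p a) := by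
  induction j with
  | zero =>
    refine ⟨fun _ => 0, ⟨rfl, ?_⟩, ?_, ?_⟩
    · intro a ha
      simp at ha
    · simp
    · intro f
      simp
  | succ j ih =>
    obtain ⟨q, h1, h2, h3⟩ := ih
    obtain ⟨q', h4, h5, h6⟩ := h1.glue hp
    have e : (j + 1) * l = j * l + l := by ring
    rw [e]
    refine ⟨q', h4, ?_, ?_⟩
    · rw [h5, h2, succ_nsmul]
    · intro f
      rw [h6, h3, Finset.sum_range_succ, h2]

theorem tr_comm (S : Sys) (g h : ℤ × ℤ × ℤ) (x : ℝ) : S.A g (S.A h x) = S.A h (S.A g x) := by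
  rw [← S.A_apply_add, ← S.A_apply_add, add_comm]

theorem tr_tele (G : ℕ → ℝ) (hG : Antitone G) (j : ℕ) :
    ∑ i ∈ Finset.range j, (G i - G (i + 2)) ≤ 2 * (G 0 - G (j + 1)) := by
  have h : ∑ i ∈ Finset.range j, (G i - G (i + 2)) = G 0 + G 1 - G j - G (j + 1) := by
    induction j with
    | zero => simp
    | succ j ih =>
      rw [Finset.sum_range_succ, ih]
      ring
  have h1 := hG (Nat.zero_le 1)
  have h2 := hG (Nat.le_succ j)
  rw [h]
  linarith

theorem tr_mono (S : Sys) (g : ℤ × ℤ × ℤ) {x y : ℝ} (h : x ≤ y) : S.A g x ≤ S.A g y :=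
  (D.strictMono _).monotone h

theorem tr_step {S : Sys} (W : RSeq S) (k : ℕ) (x₁ y : ℝ)
    (hy : y ∈ Ico x₁ (S.A (W.w k) x₁)) (v : ℤ × ℤ × ℤ) (hv : S.tau v ≤ S.tau (W.w (k + 1))) :
    ∃ (q : ℕ → ℤ × ℤ × ℤ) (m : ℕ), IsPath q m ∧
      S.A (q m) y ∈ Ico x₁ (S.A (W.w (k + 1)) x₁) ∧
      ∑ a ∈ Finset.range m, (S.A (q a) (S.A v y) - S.A (q a) (S.A (-v) y)) ≤ 8 := by
  classical
  set u := W.w (k + 1) with hu
  have hupos : 0 < S.tau u := W.pos (k + 1)
  have hex : ∃ j : ℕ, S.A (-(j • u)) y < x₁ := by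
    obtain ⟨j, hj⟩ := exists_nat_ge (S.tau (W.w k) / S.tau u)
    refine ⟨j, ?_⟩
    rw [div_le_iff₀ hupos, ← S.tau_nsmul] at hj
    have h1 := S.le _ _ hj x₁
    have h2 : y < S.A (j • u) x₁ := lt_of_lt_of_le hy.2 h1
    have h3 := D.strictMono (S.A (-(j • u))) h2
    rw [← S.A_apply_add, neg_add_cancel, S.A_zero, D.one_apply] at h3
    exact h3
  obtain ⟨J, hJ1, hJ2⟩ : ∃ J : ℕ, S.A (-(J • u)) y < x₁ ∧ ∀ i < J, ¬ S.A (-(i • u)) y < x₁ :=
    ⟨Nat.find hex, Nat.find_spec hex, fun i hi => Nat.find_min hex hi⟩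
  have hJ0 : J ≠ 0 := by
    rintro rfl
    rw [zero_smul, neg_zero, S.A_zero, D.one_apply] at hJ1
    exact absurd hy.1 (not_le.2 hJ1)
  obtain ⟨j, rfl⟩ := Nat.exists_eq_succ_of_ne_zero hJ0
  have hj1 : x₁ ≤ S.A (-(j • u)) y := not_lt.1 (hJ2 j (Nat.lt_succ_self j))
  have hj2 : S.A (-(j • u)) y < S.A u x₁ := by
    have h1 := D.strictMono (S.A u) hJ1
    rw [← S.A_apply_add] at h1
    have e : u + -((j + 1) • u) = -(j • u) := by rw [succ_nsmul]; abel
    rwa [e] at h1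
  obtain ⟨p, hp1, hp2, hp3⟩ := exists_path W k (-1) (Or.inr rfl)
  rw [← hu] at hp1 hp2 hp3
  have hp2' : p (len u) = -u := by rw [hp2, neg_smul, one_smul]
  obtain ⟨q, hq1, hq2, hq3⟩ := tr_iter hp1 j
  have hqe : q (j * len u) = -(j • u) := by rw [hq2, hp2', smul_neg]
  refine ⟨q, j * len u, hq1, ?_, ?_⟩
  · rw [hqe]
    exact ⟨hj1, hj2⟩
  · rw [hq3 (fun g => S.A g (S.A v y) - S.A g (S.A (-v) y)), Finset.sum_comm]
    have hvu : S.A v y ≤ S.A u y := S.le _ _ hv y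
    have hvu' : S.A (-u) y ≤ S.A (-v) y := S.le _ _ (by rw [S.tau_neg, S.tau_neg]; linarith) y
    have h1 : ∀ a ∈ Finset.range (len u), ∑ i ∈ Finset.range j,
        (S.A (i • p (len u) + p a) (S.A v y) - S.A (i • p (len u) + p a) (S.A (-v) y)) ≤
        2 * (S.A (p a + 2 • W.w k) x₁ - S.A (p a) x₁) := by
      intro a _
      have h2 : ∀ i ∈ Finset.range j,
          (S.A (i • p (len u) + p a) (S.A v y) - S.A (i • p (len u) + p a) (S.A (-v) y)) ≤
          (fun i : ℕ => S.A (p a + u - i • u) y) i -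
            (fun i : ℕ => S.A (p a + u - i • u) y) (i + 2) := by
        intro i _
        have e1 : S.A (p a + u - i • u) y = S.A (i • p (len u) + p a) (S.A u y) := by
          rw [← S.A_apply_add, hp2', smul_neg]
          congr 2
          abel_nf
        have e2 : S.A (p a + u - (i + 2) • u) y = S.A (i • p (len u) + p a) (S.A (-u) y) := by
          rw [← S.A_apply_add, hp2', smul_neg, add_smul, two_smul]
          congr 2
          abel_nf
        simp only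
        rw [e1, e2]
        have e3 := tr_mono S (i • p (len u) + p a) hvu
        have e4 := tr_mono S (i • p (len u) + p a) hvu'
        linarith
      refine (Finset.sum_le_sum h2).trans ?_
      have hanti : Antitone (fun i : ℕ => S.A (p a + u - i • u) y) := by
        intro i i' hii
        apply S.le
        rw [S.tau_sub, S.tau_sub, S.tau_nsmul, S.tau_nsmul]
        have : (i : ℝ) ≤ i' := by exact_mod_cast hii
        have := mul_le_mul_of_nonneg_right this hupos.le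
        linarith
      refine (tr_tele _ hanti j).trans ?_
      have e5 : S.A (p a + u - 0 • u) y ≤ S.A (p a + 2 • W.w k) x₁ := by
        have f1 : S.A (p a + u - 0 • u) y ≤ S.A (p a + u - 0 • u) (S.A (W.w k) x₁) :=
          tr_mono S _ hy.2.le
        refine f1.trans ?_
        rw [← S.A_apply_add]
        apply S.le
        have := W.half k
        rw [← hu] at this
        have := W.pos k
        simp only [S.tau_add, S.tau_sub, S.tau_nsmul, Nat.cast_zero, zero_mul, Nat.cast_ofNat]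
        linarith
      have e6 : S.A (p a) x₁ ≤ S.A (p a + u - (j + 1) • u) y := by
        have f1 : p a + u - (j + 1) • u = p a + -(j • u) := by rw [succ_nsmul]; abel
        rw [f1, S.A_apply_add]
        exact tr_mono S _ hj1
      linarith
    refine (Finset.sum_le_sum h1).trans ?_
    rw [← Finset.mul_sum]
    have h4 := hp3 4 (2 • W.w k) (by
      rw [S.tau_nsmul]
      push_cast
      linarith) x₁
    push_cast at h4
    linarith

theorem tr_le_one {S : Sys} (W : RSeq S) (k : ℕ) (y : ℝ) :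
    S.A (W.w k) y ≤ y + 1 ∧ y - 1 ≤ S.A (-W.w k) y := by
  have h1 := W.tau_le_one k
  constructor
  · have := S.le (W.w k) (0, 0, 1) (by rw [S.tau_T]; exact h1) y
    rwa [S.A_T, T_apply] at this
  · have := S.le (-(0, 0, 1)) (-W.w k) (by rw [S.tau_neg, S.tau_neg, S.tau_T]; linarith) y
    have e : S.A (-(0, 0, 1)) y = y - 1 := by
      apply D.injective (S.A (0, 0, 1))
      rw [← S.A_apply_add, add_neg_cancel, S.A_zero, S.A_T, T_apply, D.one_apply]
      ring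
    rwa [e] at this

theorem transport {S : Sys} (W : RSeq S) (n : ℕ) (x₁ x : ℝ) (hx : x ∈ Ico x₁ (x₁ + 1)) :
    ∃ (q : ℕ → ℤ × ℤ × ℤ) (m : ℕ), IsPath q m ∧
      S.A (q m) x ∈ Ico x₁ (S.A (W.w (n + 1)) x₁) ∧
      ∑ a ∈ Finset.range (m + 1),
        (S.A (q a) (S.A (W.w (n + 1)) x) - S.A (q a) (S.A (-W.w (n + 1)) x)) ≤ 8 * (n + 1) + 2 := by
  have key : ∀ k, k ≤ n + 1 → ∃ (q : ℕ → ℤ × ℤ × ℤ) (m : ℕ), IsPath q m ∧
      S.A (q m) x ∈ Ico x₁ (S.A (W.w k) x₁) ∧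
      ∑ a ∈ Finset.range m,
        (S.A (q a) (S.A (W.w (n + 1)) x) - S.A (q a) (S.A (-W.w (n + 1)) x)) ≤ 8 * k := by
    intro k
    induction k with
    | zero =>
      intro _
      refine ⟨fun _ => 0, 0, ⟨rfl, fun a ha => absurd ha (Nat.not_lt_zero a)⟩, ?_, ?_⟩
      · rw [S.A_zero, W.w_zero, S.A_T, T_apply]
        exact hx
      · simp
    | succ k ih =>
      intro hk
      obtain ⟨q, m, h1, h2, h3⟩ := ih (by omega)
      obtain ⟨q', m', h4, h5, h6⟩ := tr_step W k x₁ (S.A (q m) x) h2 (W.w (n + 1))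
        (W.tau_anti hk)
      obtain ⟨q'', h7, h8, h9⟩ := h1.glue h4
      refine ⟨q'', m + m', h7, ?_, ?_⟩
      · rw [h8, S.A_apply_add, tr_comm S (q m)]
        exact h5
      · rw [h9 (fun g => S.A g (S.A (W.w (n + 1)) x) - S.A g (S.A (-W.w (n + 1)) x))]
        have e : ∀ a ∈ Finset.range m',
            (S.A (q m + q' a) (S.A (W.w (n + 1)) x) - S.A (q m + q' a) (S.A (-W.w (n + 1)) x)) =
            (S.A (q' a) (S.A (W.w (n + 1)) (S.A (q m) x)) -
              S.A (q' a) (S.A (-W.w (n + 1)) (S.A (q m) x))) := by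
          intro a _
          rw [add_comm, S.A_apply_add, S.A_apply_add, tr_comm S (q m), tr_comm S (q m)]
        rw [Finset.sum_congr rfl e]
        push_cast
        linarith
  obtain ⟨q, m, h1, h2, h3⟩ := key (n + 1) le_rfl
  refine ⟨q, m, h1, h2, ?_⟩
  rw [Finset.sum_range_succ]
  have e1 := tr_le_one W (n + 1) (S.A (q m) x)
  rw [tr_comm S (q m), tr_comm S (q m)]
  push_cast at h3
  linarith [e1.1, e1.2]

theorem tr_smooth_log (S : Sys) (g : ℤ × ℤ × ℤ) :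
    ContDiff ℝ ((⊤ : ℕ∞) : WithTop ℕ∞) (fun y => Real.log (deriv (S.A g) y)) := by
  have h1 := (contDiff_infty_iff_deriv.1 (D.smooth (S.A g))).2
  exact h1.log (fun x => (D.pos (S.A g) x).ne')

/-- the main estimate along a path -/
theorem tr_main {S : Sys} (W : RSeq S) {C₁ : ℕ}
    (hC₁ : ∀ k x, (S.tau (W.w k)) ^ C₁ ≤ S.A (W.w k) x - x) (R : ℕ) :
    ∃ (C : ℝ) (e : ℕ), 1 ≤ C ∧ ∀ (n : ℕ) (q : ℕ → ℤ × ℤ × ℤ) (m : ℕ) (y : ℝ), IsPath q m →
      ∑ a ∈ Finset.range (m + 1),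
        (S.A (q a) (S.A (W.w (n + 1)) y) - S.A (q a) (S.A (-W.w (n + 1)) y)) ≤
          8 * (n + 1) + 2 →
      ∀ z ∈ Icc (S.A (-W.w (n + 1)) y) (S.A (W.w (n + 1)) y), ∀ s, 1 ≤ s → s ≤ R →
        |iteratedDeriv s (S.A (q m)) z| ≤ C * (1 / S.tau (W.w (n + 1))) ^ e := by
  obtain ⟨M, hM⟩ := S.exists_isL
  have hM1 : 0 ≤ M 1 := hM.1 1
  -- the exponent for the exponential
  obtain ⟨N, hN⟩ : ∃ N : ℕ, Real.exp (10 * M 1) ≤ 2 ^ N := by
    obtain ⟨N, hN⟩ := exists_nat_ge (Real.exp (10 * M 1))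
    exact ⟨N, hN.trans (by exact_mod_cast Nat.lt_two_pow_self.le)⟩
  -- constants for the derivatives of the logarithm
  have hd : ∀ r : ℕ, ∃ (C : ℝ) (e : ℕ), 0 ≤ C ∧ (1 ≤ r →
    ∀ (q : ℕ → ℤ × ℤ × ℤ) (m : ℕ), IsPath q m → ∀ (x₀ x₁ s : ℝ), x₀ < x₁ →
    ∑ a ∈ Finset.range (m + 1), (S.A (q a) x₁ - S.A (q a) x₀) ≤ s → ∀ x ∈ Icc x₀ x₁,
      ∀ a, a ≤ m →
    (x₁ - x₀) ^ r * |iteratedDeriv r (fun y => Real.log (deriv (S.A (q a)) y)) x| ≤
      C * s * (Real.exp (M 1 * s) * (1 + s)) ^ e) := by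
    intro r
    by_cases hr : 1 ≤ r
    · obtain ⟨C, e, h1, h2⟩ := Sys.distr hM r hr
      exact ⟨C, e, h1, fun _ => h2⟩
    · exact ⟨0, 0, le_rfl, fun h => absurd h hr⟩
  choose Cr er hCr hdr using hd
  -- uniform constants
  set K : ℝ := 1 + ∑ r ∈ Finset.range (R + 1), Cr r * 10 * 11 ^ er r with hK
  set E : ℕ := ∑ r ∈ Finset.range (R + 1), (C₁ * r + 1 + (N + 1) * er r) with hE
  have hKr : ∀ r, r ≤ R → Cr r * 10 * 11 ^ er r ≤ K := by
    intro r hr
    have := Finset.single_le_sum (f := fun r => Cr r * 10 * 11 ^ er r)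
      (fun i _ => by have := hCr i; positivity) (Finset.mem_range.2 (by omega : r < R + 1))
    linarith
  have hK1 : 1 ≤ K := by
    have : 0 ≤ ∑ r ∈ Finset.range (R + 1), Cr r * 10 * 11 ^ er r :=
      Finset.sum_nonneg (fun i _ => by have := hCr i; positivity)
    linarith
  have hEr : ∀ r, r ≤ R → C₁ * r + 1 + (N + 1) * er r ≤ E := by
    intro r hr
    exact Finset.single_le_sum (f := fun r => C₁ * r + 1 + (N + 1) * er r)
      (fun i _ => Nat.zero_le _) (Finset.mem_range.2 (by omega : r < R + 1))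
  refine ⟨R.factorial * 2 * K ^ R, N + C₁ + E * R, ?_, ?_⟩
  · have h1 : (1 : ℝ) ≤ R.factorial := by exact_mod_cast Nat.factorial_pos R
    have h2 : (1 : ℝ) ≤ K ^ R := one_le_pow₀ hK1
    nlinarith
  intro n q m y hq hsum z hz s hs1 hsR
  set v := W.w (n + 1) with hv
  set τ := S.tau v with hτ
  have hτ0 : 0 < τ := W.pos (n + 1)
  set t : ℝ := 1 / τ with ht
  have hτt : τ * t = 1 := by rw [ht]; field_simp
  have ht2 : (2 : ℝ) ^ (n + 1) ≤ t := by
    have h1 : τ ≤ (1 / 2) ^ (n + 1) := W.tau_le (n + 1)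
    rw [ht, le_div_iff₀ hτ0]
    calc (2 : ℝ) ^ (n + 1) * τ ≤ 2 ^ (n + 1) * (1 / 2) ^ (n + 1) := by gcongr
      _ = 1 := by rw [← mul_pow]; norm_num
  have hn1 : ((n : ℝ) + 1) ≤ 2 ^ (n + 1) := by
    have : n + 1 < 2 ^ (n + 1) := Nat.lt_two_pow_self
    exact_mod_cast this.le
  have ht1 : 1 ≤ t := le_trans (one_le_pow₀ (by norm_num)) ht2
  set σ : ℝ := 8 * ((n : ℝ) + 1) + 2 with hσ
  have hn0 : (0 : ℝ) ≤ n := Nat.cast_nonneg n
  have hσ0 : 0 ≤ σ := by rw [hσ]; linarith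
  have hσn : σ ≤ 10 * ((n : ℝ) + 1) := by rw [hσ]; linarith
  have hσt : σ ≤ 10 * t := by linarith
  have hexp : Real.exp (M 1 * σ) ≤ t ^ N := by
    calc Real.exp (M 1 * σ) ≤ Real.exp (((n + 1 : ℕ) : ℝ) * (10 * M 1)) := by
          apply Real.exp_le_exp.2
          push_cast
          nlinarith
      _ = (Real.exp (10 * M 1)) ^ (n + 1) := by rw [← Real.exp_nat_mul]
      _ ≤ (2 ^ N) ^ (n + 1) := by gcongr
      _ = (2 ^ (n + 1)) ^ N := by rw [← pow_mul, ← pow_mul, mul_comm]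
      _ ≤ t ^ N := by gcongr
  have hx₀y : S.A (-v) y < y := by
    have := S.lt (-v) 0 (by rw [S.tau_neg, S.tau_zero]; linarith) y
    rwa [S.A_zero, D.one_apply] at this
  have hgap : τ ^ C₁ ≤ S.A v y - S.A (-v) y := by
    have := hC₁ (n + 1) y
    linarith
  have hx₀x₁ : S.A (-v) y < S.A v y := by
    have : 0 < τ ^ C₁ := by positivity
    linarith
  have hlen2 : S.A (q m) (S.A v y) - S.A (q m) (S.A (-v) y) ≤ 2 := by
    have h1 := tr_le_one W (n + 1) y
    have h2 := tr_mono S (q m) h1.1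
    have h3 := tr_mono S (q m) h1.2
    have h4 := D.add_int (S.A (q m)) 1 y
    have h5 := D.add_int (S.A (q m)) (-1) y
    push_cast at h4 h5
    have h6 : y + -1 = y - 1 := by ring
    rw [h6] at h5
    linarith
  -- inverse of the length
  set ℓ : ℝ := S.A v y - S.A (-v) y with hℓ
  have hℓ0 : 0 < ℓ := by linarith
  have hℓt : ∀ r : ℕ, 1 ≤ ℓ ^ r * t ^ (C₁ * r) := by
    intro r
    have h1 : 1 ≤ ℓ * t ^ C₁ := by
      have h2 : τ ^ C₁ * t ^ C₁ = 1 := by rw [← mul_pow, hτt, one_pow]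
      have h3 : τ ^ C₁ * t ^ C₁ ≤ ℓ * t ^ C₁ := by gcongr
      linarith
    rw [pow_mul, ← mul_pow]
    exact one_le_pow₀ h1
  -- first derivative
  have hD1 : deriv (S.A (q m)) z ≤ 2 * t ^ (N + C₁) := by
    have hsum' : ∑ a ∈ Finset.range m, (S.A (q a) (S.A v y) - S.A (q a) (S.A (-v) y)) ≤ σ := by
      rw [Finset.sum_range_succ] at hsum
      have := D.strictMono (S.A (q m)) hx₀x₁
      linarith
    have h1 := (Sys.dist1_Icc hM hq hx₀x₁ hsum' hz).1
    have h2 : (S.A (q m) (S.A v y) - S.A (q m) (S.A (-v) y)) / ℓ ≤ 2 * t ^ C₁ := by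
      rw [div_le_iff₀ hℓ0]
      have := hℓt 1
      rw [pow_one, mul_one] at this
      nlinarith
    calc deriv (S.A (q m)) z ≤ Real.exp (M 1 * σ) *
          ((S.A (q m) (S.A v y) - S.A (q m) (S.A (-v) y)) / ℓ) := h1
      _ ≤ Real.exp (M 1 * σ) * (2 * t ^ C₁) := by gcongr
      _ ≤ t ^ N * (2 * t ^ C₁) := by gcongr
      _ = 2 * t ^ (N + C₁) := by rw [pow_add]; ring
  -- derivatives of the logarithm
  have hlog : ∀ r, 1 ≤ r → r ≤ R →
      |iteratedDeriv r (fun y => Real.log (deriv (S.A (q m)) y)) z| ≤ K * t ^ E := by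
    intro r hr1 hrR
    have h1 := hdr r hr1 q m hq _ _ σ hx₀x₁ hsum z hz m le_rfl
    rw [← hℓ] at h1
    set B := |iteratedDeriv r (fun y => Real.log (deriv (S.A (q m)) y)) z| with hB
    have hB0 : 0 ≤ B := abs_nonneg _
    have h2 : B ≤ t ^ (C₁ * r) * (ℓ ^ r * B) := by
      have := mul_le_mul_of_nonneg_right (hℓt r) hB0
      linarith
    have h3 : Real.exp (M 1 * σ) * (1 + σ) ≤ 11 * t ^ (N + 1) := by
      calc Real.exp (M 1 * σ) * (1 + σ) ≤ t ^ N * (11 * t) := by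
            gcongr
            linarith
        _ = 11 * t ^ (N + 1) := by rw [pow_succ]; ring
    calc B ≤ t ^ (C₁ * r) * (ℓ ^ r * B) := h2
      _ ≤ t ^ (C₁ * r) * (Cr r * σ * (Real.exp (M 1 * σ) * (1 + σ)) ^ er r) := by gcongr
      _ ≤ t ^ (C₁ * r) * (Cr r * (10 * t) * (11 * t ^ (N + 1)) ^ er r) := by
          have := hCr r
          gcongr
      _ = (Cr r * 10 * 11 ^ er r) * t ^ (C₁ * r + 1 + (N + 1) * er r) := by
          rw [mul_pow, ← pow_mul, pow_add, pow_add, pow_one]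
          ring
      _ ≤ K * t ^ E := by
          gcongr
          · exact hKr r hrR
          · exact hEr r hrR
  -- conclusion
  obtain ⟨s', rfl⟩ : ∃ s', s = s' + 1 := ⟨s - 1, by omega⟩
  have hW1 : 1 ≤ K * t ^ E := by
    have := one_le_pow₀ (n := E) ht1
    nlinarith
  have hfun : deriv (S.A (q m)) = fun y => Real.exp (Real.log (deriv (S.A (q m)) y)) := by
    funext y
    rw [Real.exp_log (D.pos _ _)]
  have h1 := exp_bd (l := fun y => Real.log (deriv (S.A (q m)) y)) (x := z) (n := s')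
    (W := K * t ^ E) (tr_smooth_log S (q m)).contDiffAt (by linarith) (by
      intro i hi1 hi2
      refine (hlog i hi1 (by omega)).trans ?_
      exact le_self_pow₀ hW1 (by omega))
  rw [iteratedDeriv_succ', hfun]
  refine h1.trans ?_
  rw [Real.exp_log (D.pos _ _)]
  have hf : ((s'.factorial : ℕ) : ℝ) ≤ R.factorial := by
    exact_mod_cast Nat.factorial_le (by omega)
  have hp := D.pos (S.A (q m)) z
  calc (s'.factorial : ℝ) * deriv (S.A (q m)) z * (K * t ^ E) ^ s'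
      ≤ R.factorial * (2 * t ^ (N + C₁)) * (K * t ^ E) ^ R := by
        gcongr
        omega
    _ = R.factorial * 2 * K ^ R * t ^ (N + C₁ + E * R) := by
        rw [mul_pow, ← pow_mul, pow_add t (N + C₁) (E * R)]
        ring

/-- Derivative bounds for the transport maps, polynomial in `1 / τ`. -/
theorem transport_bd {S : Sys} (W : RSeq S) {C₁ : ℕ}
    (hC₁ : ∀ k x, (S.tau (W.w k)) ^ C₁ ≤ S.A (W.w k) x - x) (R : ℕ) :
    ∃ (C : ℝ) (e : ℕ), 1 ≤ C ∧ ∀ (n : ℕ) (x₁ x : ℝ), x ∈ Ico x₁ (x₁ + 1) →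
    ∃ g : ℤ × ℤ × ℤ, S.A g x ∈ Ico x₁ (S.A (W.w (n + 1)) x₁) ∧
      ∀ s, 1 ≤ s → s ≤ R →
        |iteratedDeriv s (S.A g) x| ≤ C * (1 / S.tau (W.w (n + 1))) ^ e ∧
        ∀ z ∈ Icc (S.A (-W.w (n + 1)) (S.A g x)) (S.A (W.w (n + 1)) (S.A g x)),
          |iteratedDeriv s (S.A (-g)) z| ≤ C * (1 / S.tau (W.w (n + 1))) ^ e := by
  obtain ⟨C, e, hC, hmain⟩ := tr_main W hC₁ R
  refine ⟨C, e, hC, ?_⟩
  intro n x₁ x hx
  obtain ⟨q, m, h1, h2, h3⟩ := transport W n x₁ x hx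
  refine ⟨q m, h2, ?_⟩
  intro s hs1 hsR
  constructor
  · refine hmain n q m x h1 h3 x ?_ s hs1 hsR
    constructor
    · have := S.le (-W.w (n + 1)) 0 (by rw [S.tau_neg, S.tau_zero]; linarith [W.pos (n + 1)]) x
      rwa [S.A_zero, D.one_apply] at this
    · exact (S.self_lt _ (W.pos (n + 1)) x).le
  · intro z hz
    obtain ⟨q', h4, h5, h6⟩ := h1.rev
    rw [← h5]
    refine hmain n q' m (S.A (q m) x) h4 ?_ z hz s hs1 hsR
    have h7 := h6 (fun g => S.A g (S.A (W.w (n + 1)) x) - S.A g (S.A (-W.w (n + 1)) x))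
    have h8 : ∀ a ∈ Finset.range (m + 1),
        (S.A (q' a) (S.A (W.w (n + 1)) (S.A (q m) x)) -
          S.A (q' a) (S.A (-W.w (n + 1)) (S.A (q m) x))) =
        (S.A (q' a + q m) (S.A (W.w (n + 1)) x) - S.A (q' a + q m) (S.A (-W.w (n + 1)) x)) := by
      intro a _
      rw [S.A_apply_add, S.A_apply_add, tr_comm S (q m), tr_comm S (q m)]
    rw [Finset.sum_congr rfl h8, h7]
    exact h3

end Pool.Agent.Helper638.Ros
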